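import Pool.Agent.U620.K7F.Vec4

/-! Codes of fifteen bits. -/

set_option autoImplicit false
set_option linter.unusedVariables false
set_option maxRecDepth 100000
set_option maxHeartbeats 4000000
open Finset
open Pool.Agent.H122R2.N6 (Bt)

namespace Pool.Agent.U620.K7F
open Pool.Agent.Y435.T7

noncomputable section

def c15 (x0 x1 x2 x3 x4 x5 x6 x7 x8 x9 x10 x11 x12 x13 x14 : ℕ) : ℕ := (Nat.add x0 (Nat.mul 2 (Nat.add x1 (Nat.mul 2 (Nat.add x2 (Nat.mul 2 (Nat.add x3 (Nat.mul 2 (Nat.add x4 (Nat.mul 2 (Nat.add x5 (Nat.mul 2 (Nat.add x6 (Nat.mul 2 (Nat.add x7 (Nat.mul 2 (Nat.add x8 (Nat.mul 2 (Nat.add x9 (Nat.mul 2 (Nat.add x10 (Nat.mul 2 (Nat.add x11 (Nat.mul 2 (Nat.add x12 (Nat.mul 2 (Nat.add x13 (Nat.mul 2 x14))))))))))))))))))))))))))))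
theorem c15_lt {x0 x1 x2 x3 x4 x5 x6 x7 x8 x9 x10 x11 x12 x13 x14 : ℕ} (y0 : Bt x0) (y1 : Bt x1) (y2 : Bt x2) (y3 : Bt x3) (y4 : Bt x4) (y5 : Bt x5) (y6 : Bt x6) (y7 : Bt x7) (y8 : Bt x8) (y9 : Bt x9) (y10 : Bt x10) (y11 : Bt x11) (y12 : Bt x12) (y13 : Bt x13) (y14 : Bt x14) : c15 x0 x1 x2 x3 x4 x5 x6 x7 x8 x9 x10 x11 x12 x13 x14 < 2 ^ 15 := (hstep y0 (hstep y1 (hstep y2 (hstep y3 (hstep y4 (hstep y5 (hstep y6 (hstep y7 (hstep y8 (hstep y9 (hstep y10 (hstep y11 (hstep y12 (hstep y13 (Bt_lt y14)))))))))))))))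
theorem bt_zero {x : ℕ} (h : Bt x) (r : ℕ) : bt 0 (Nat.add x (Nat.mul 2 r)) = x := by
  have := Bt_lt h
  rw [bt_eq]
  show (x + 2 * r) / 2 ^ 0 % 2 = x
  rw [pow_zero, Nat.div_one]
  omega
theorem bt_succ {x : ℕ} (h : Bt x) (r k : ℕ) : bt (k + 1) (Nat.add x (Nat.mul 2 r)) = bt k r := by
  have := Bt_lt h
  rw [bt_eq, bt_eq]
  show (x + 2 * r) / 2 ^ (k + 1) % 2 = r / 2 ^ k % 2
  rw [pow_succ', ← Nat.div_div_eq_div_mul, show (x + 2 * r) / 2 = r by omega]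
theorem bt_self {x : ℕ} (h : Bt x) : bt 0 x = x := by
  have := Bt_lt h
  rw [bt_eq, pow_zero, Nat.div_one]
  omega
theorem bt_c15_0 {x0 x1 x2 x3 x4 x5 x6 x7 x8 x9 x10 x11 x12 x13 x14 : ℕ} (y0 : Bt x0) (y1 : Bt x1) (y2 : Bt x2) (y3 : Bt x3) (y4 : Bt x4) (y5 : Bt x5) (y6 : Bt x6) (y7 : Bt x7) (y8 : Bt x8) (y9 : Bt x9) (y10 : Bt x10) (y11 : Bt x11) (y12 : Bt x12) (y13 : Bt x13) (y14 : Bt x14) : bt 0 (c15 x0 x1 x2 x3 x4 x5 x6 x7 x8 x9 x10 x11 x12 x13 x14) = x0 := by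
  unfold c15
  rw [bt_zero y0]
theorem bt_c15_1 {x0 x1 x2 x3 x4 x5 x6 x7 x8 x9 x10 x11 x12 x13 x14 : ℕ} (y0 : Bt x0) (y1 : Bt x1) (y2 : Bt x2) (y3 : Bt x3) (y4 : Bt x4) (y5 : Bt x5) (y6 : Bt x6) (y7 : Bt x7) (y8 : Bt x8) (y9 : Bt x9) (y10 : Bt x10) (y11 : Bt x11) (y12 : Bt x12) (y13 : Bt x13) (y14 : Bt x14) : bt 1 (c15 x0 x1 x2 x3 x4 x5 x6 x7 x8 x9 x10 x11 x12 x13 x14) = x1 := by
  unfold c15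
  rw [bt_succ y0, bt_zero y1]
theorem bt_c15_2 {x0 x1 x2 x3 x4 x5 x6 x7 x8 x9 x10 x11 x12 x13 x14 : ℕ} (y0 : Bt x0) (y1 : Bt x1) (y2 : Bt x2) (y3 : Bt x3) (y4 : Bt x4) (y5 : Bt x5) (y6 : Bt x6) (y7 : Bt x7) (y8 : Bt x8) (y9 : Bt x9) (y10 : Bt x10) (y11 : Bt x11) (y12 : Bt x12) (y13 : Bt x13) (y14 : Bt x14) : bt 2 (c15 x0 x1 x2 x3 x4 x5 x6 x7 x8 x9 x10 x11 x12 x13 x14) = x2 := by
  unfold c15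
  rw [bt_succ y0, bt_succ y1, bt_zero y2]
theorem bt_c15_3 {x0 x1 x2 x3 x4 x5 x6 x7 x8 x9 x10 x11 x12 x13 x14 : ℕ} (y0 : Bt x0) (y1 : Bt x1) (y2 : Bt x2) (y3 : Bt x3) (y4 : Bt x4) (y5 : Bt x5) (y6 : Bt x6) (y7 : Bt x7) (y8 : Bt x8) (y9 : Bt x9) (y10 : Bt x10) (y11 : Bt x11) (y12 : Bt x12) (y13 : Bt x13) (y14 : Bt x14) : bt 3 (c15 x0 x1 x2 x3 x4 x5 x6 x7 x8 x9 x10 x11 x12 x13 x14) = x3 := by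
  unfold c15
  rw [bt_succ y0, bt_succ y1, bt_succ y2, bt_zero y3]
theorem bt_c15_4 {x0 x1 x2 x3 x4 x5 x6 x7 x8 x9 x10 x11 x12 x13 x14 : ℕ} (y0 : Bt x0) (y1 : Bt x1) (y2 : Bt x2) (y3 : Bt x3) (y4 : Bt x4) (y5 : Bt x5) (y6 : Bt x6) (y7 : Bt x7) (y8 : Bt x8) (y9 : Bt x9) (y10 : Bt x10) (y11 : Bt x11) (y12 : Bt x12) (y13 : Bt x13) (y14 : Bt x14) : bt 4 (c15 x0 x1 x2 x3 x4 x5 x6 x7 x8 x9 x10 x11 x12 x13 x14) = x4 := by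
  unfold c15
  rw [bt_succ y0, bt_succ y1, bt_succ y2, bt_succ y3, bt_zero y4]
theorem bt_c15_5 {x0 x1 x2 x3 x4 x5 x6 x7 x8 x9 x10 x11 x12 x13 x14 : ℕ} (y0 : Bt x0) (y1 : Bt x1) (y2 : Bt x2) (y3 : Bt x3) (y4 : Bt x4) (y5 : Bt x5) (y6 : Bt x6) (y7 : Bt x7) (y8 : Bt x8) (y9 : Bt x9) (y10 : Bt x10) (y11 : Bt x11) (y12 : Bt x12) (y13 : Bt x13) (y14 : Bt x14) : bt 5 (c15 x0 x1 x2 x3 x4 x5 x6 x7 x8 x9 x10 x11 x12 x13 x14) = x5 := by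
  unfold c15
  rw [bt_succ y0, bt_succ y1, bt_succ y2, bt_succ y3, bt_succ y4, bt_zero y5]
theorem bt_c15_6 {x0 x1 x2 x3 x4 x5 x6 x7 x8 x9 x10 x11 x12 x13 x14 : ℕ} (y0 : Bt x0) (y1 : Bt x1) (y2 : Bt x2) (y3 : Bt x3) (y4 : Bt x4) (y5 : Bt x5) (y6 : Bt x6) (y7 : Bt x7) (y8 : Bt x8) (y9 : Bt x9) (y10 : Bt x10) (y11 : Bt x11) (y12 : Bt x12) (y13 : Bt x13) (y14 : Bt x14) : bt 6 (c15 x0 x1 x2 x3 x4 x5 x6 x7 x8 x9 x10 x11 x12 x13 x14) = x6 := by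
  unfold c15
  rw [bt_succ y0, bt_succ y1, bt_succ y2, bt_succ y3, bt_succ y4, bt_succ y5, bt_zero y6]
theorem bt_c15_7 {x0 x1 x2 x3 x4 x5 x6 x7 x8 x9 x10 x11 x12 x13 x14 : ℕ} (y0 : Bt x0) (y1 : Bt x1) (y2 : Bt x2) (y3 : Bt x3) (y4 : Bt x4) (y5 : Bt x5) (y6 : Bt x6) (y7 : Bt x7) (y8 : Bt x8) (y9 : Bt x9) (y10 : Bt x10) (y11 : Bt x11) (y12 : Bt x12) (y13 : Bt x13) (y14 : Bt x14) : bt 7 (c15 x0 x1 x2 x3 x4 x5 x6 x7 x8 x9 x10 x11 x12 x13 x14) = x7 := by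
  unfold c15
  rw [bt_succ y0, bt_succ y1, bt_succ y2, bt_succ y3, bt_succ y4, bt_succ y5, bt_succ y6, bt_zero y7]
theorem bt_c15_8 {x0 x1 x2 x3 x4 x5 x6 x7 x8 x9 x10 x11 x12 x13 x14 : ℕ} (y0 : Bt x0) (y1 : Bt x1) (y2 : Bt x2) (y3 : Bt x3) (y4 : Bt x4) (y5 : Bt x5) (y6 : Bt x6) (y7 : Bt x7) (y8 : Bt x8) (y9 : Bt x9) (y10 : Bt x10) (y11 : Bt x11) (y12 : Bt x12) (y13 : Bt x13) (y14 : Bt x14) : bt 8 (c15 x0 x1 x2 x3 x4 x5 x6 x7 x8 x9 x10 x11 x12 x13 x14) = x8 := by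
  unfold c15
  rw [bt_succ y0, bt_succ y1, bt_succ y2, bt_succ y3, bt_succ y4, bt_succ y5, bt_succ y6, bt_succ y7, bt_zero y8]
theorem bt_c15_9 {x0 x1 x2 x3 x4 x5 x6 x7 x8 x9 x10 x11 x12 x13 x14 : ℕ} (y0 : Bt x0) (y1 : Bt x1) (y2 : Bt x2) (y3 : Bt x3) (y4 : Bt x4) (y5 : Bt x5) (y6 : Bt x6) (y7 : Bt x7) (y8 : Bt x8) (y9 : Bt x9) (y10 : Bt x10) (y11 : Bt x11) (y12 : Bt x12) (y13 : Bt x13) (y14 : Bt x14) : bt 9 (c15 x0 x1 x2 x3 x4 x5 x6 x7 x8 x9 x10 x11 x12 x13 x14) = x9 := by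
  unfold c15
  rw [bt_succ y0, bt_succ y1, bt_succ y2, bt_succ y3, bt_succ y4, bt_succ y5, bt_succ y6, bt_succ y7, bt_succ y8, bt_zero y9]
theorem bt_c15_10 {x0 x1 x2 x3 x4 x5 x6 x7 x8 x9 x10 x11 x12 x13 x14 : ℕ} (y0 : Bt x0) (y1 : Bt x1) (y2 : Bt x2) (y3 : Bt x3) (y4 : Bt x4) (y5 : Bt x5) (y6 : Bt x6) (y7 : Bt x7) (y8 : Bt x8) (y9 : Bt x9) (y10 : Bt x10) (y11 : Bt x11) (y12 : Bt x12) (y13 : Bt x13) (y14 : Bt x14) : bt 10 (c15 x0 x1 x2 x3 x4 x5 x6 x7 x8 x9 x10 x11 x12 x13 x14) = x10 := by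
  unfold c15
  rw [bt_succ y0, bt_succ y1, bt_succ y2, bt_succ y3, bt_succ y4, bt_succ y5, bt_succ y6, bt_succ y7, bt_succ y8, bt_succ y9, bt_zero y10]
theorem bt_c15_11 {x0 x1 x2 x3 x4 x5 x6 x7 x8 x9 x10 x11 x12 x13 x14 : ℕ} (y0 : Bt x0) (y1 : Bt x1) (y2 : Bt x2) (y3 : Bt x3) (y4 : Bt x4) (y5 : Bt x5) (y6 : Bt x6) (y7 : Bt x7) (y8 : Bt x8) (y9 : Bt x9) (y10 : Bt x10) (y11 : Bt x11) (y12 : Bt x12) (y13 : Bt x13) (y14 : Bt x14) : bt 11 (c15 x0 x1 x2 x3 x4 x5 x6 x7 x8 x9 x10 x11 x12 x13 x14) = x11 := by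
  unfold c15
  rw [bt_succ y0, bt_succ y1, bt_succ y2, bt_succ y3, bt_succ y4, bt_succ y5, bt_succ y6, bt_succ y7, bt_succ y8, bt_succ y9, bt_succ y10, bt_zero y11]
theorem bt_c15_12 {x0 x1 x2 x3 x4 x5 x6 x7 x8 x9 x10 x11 x12 x13 x14 : ℕ} (y0 : Bt x0) (y1 : Bt x1) (y2 : Bt x2) (y3 : Bt x3) (y4 : Bt x4) (y5 : Bt x5) (y6 : Bt x6) (y7 : Bt x7) (y8 : Bt x8) (y9 : Bt x9) (y10 : Bt x10) (y11 : Bt x11) (y12 : Bt x12) (y13 : Bt x13) (y14 : Bt x14) : bt 12 (c15 x0 x1 x2 x3 x4 x5 x6 x7 x8 x9 x10 x11 x12 x13 x14) = x12 := by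
  unfold c15
  rw [bt_succ y0, bt_succ y1, bt_succ y2, bt_succ y3, bt_succ y4, bt_succ y5, bt_succ y6, bt_succ y7, bt_succ y8, bt_succ y9, bt_succ y10, bt_succ y11, bt_zero y12]
theorem bt_c15_13 {x0 x1 x2 x3 x4 x5 x6 x7 x8 x9 x10 x11 x12 x13 x14 : ℕ} (y0 : Bt x0) (y1 : Bt x1) (y2 : Bt x2) (y3 : Bt x3) (y4 : Bt x4) (y5 : Bt x5) (y6 : Bt x6) (y7 : Bt x7) (y8 : Bt x8) (y9 : Bt x9) (y10 : Bt x10) (y11 : Bt x11) (y12 : Bt x12) (y13 : Bt x13) (y14 : Bt x14) : bt 13 (c15 x0 x1 x2 x3 x4 x5 x6 x7 x8 x9 x10 x11 x12 x13 x14) = x13 := by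
  unfold c15
  rw [bt_succ y0, bt_succ y1, bt_succ y2, bt_succ y3, bt_succ y4, bt_succ y5, bt_succ y6, bt_succ y7, bt_succ y8, bt_succ y9, bt_succ y10, bt_succ y11, bt_succ y12, bt_zero y13]
theorem bt_c15_14 {x0 x1 x2 x3 x4 x5 x6 x7 x8 x9 x10 x11 x12 x13 x14 : ℕ} (y0 : Bt x0) (y1 : Bt x1) (y2 : Bt x2) (y3 : Bt x3) (y4 : Bt x4) (y5 : Bt x5) (y6 : Bt x6) (y7 : Bt x7) (y8 : Bt x8) (y9 : Bt x9) (y10 : Bt x10) (y11 : Bt x11) (y12 : Bt x12) (y13 : Bt x13) (y14 : Bt x14) : bt 14 (c15 x0 x1 x2 x3 x4 x5 x6 x7 x8 x9 x10 x11 x12 x13 x14) = x14 := by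
  unfold c15
  rw [bt_succ y0, bt_succ y1, bt_succ y2, bt_succ y3, bt_succ y4, bt_succ y5, bt_succ y6, bt_succ y7, bt_succ y8, bt_succ y9, bt_succ y10, bt_succ y11, bt_succ y12, bt_succ y13, bt_self y14]

end

end Pool.Agent.U620.K7F
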