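import Pool.Agent.U620.K7F.Inv

set_option autoImplicit false
set_option maxRecDepth 100000
set_option maxHeartbeats 4000000

namespace Pool.Agent.U620.K7F
open Pool.Agent.Y435.T7

def i192 : chkR 192 16 = true := by decide +kernel
def i208 : chkR 208 16 = true := by decide +kernel
def i224 : chkR 224 16 = true := by decide +kernel
def i240 : chkR 240 16 = true := by decide +kernel

end Pool.Agent.U620.K7F
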