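import Pool.Agent.U620.K7F.Inv

set_option autoImplicit false
set_option maxRecDepth 100000
set_option maxHeartbeats 4000000

namespace Pool.Agent.U620.K7F
open Pool.Agent.Y435.T7

def i256 : chkR 256 16 = true := by decide +kernel
def i272 : chkR 272 16 = true := by decide +kernel
def i288 : chkR 288 16 = true := by decide +kernel
def i304 : chkR 304 16 = true := by decide +kernel

end Pool.Agent.U620.K7F
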