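import Pool.Agent.U620.K7F.Inv

set_option autoImplicit false
set_option maxRecDepth 100000
set_option maxHeartbeats 4000000

namespace Pool.Agent.U620.K7F
open Pool.Agent.Y435.T7

def i448 : chkR 448 16 = true := by decide +kernel
def i464 : chkR 464 16 = true := by decide +kernel
def i480 : chkR 480 16 = true := by decide +kernel
def i496 : chkR 496 16 = true := by decide +kernel

end Pool.Agent.U620.K7F
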