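import Pool.Agent.U620.K7F.I00
import Pool.Agent.U620.K7F.I01
import Pool.Agent.U620.K7F.I02
import Pool.Agent.U620.K7F.I03
import Pool.Agent.U620.K7F.I04
import Pool.Agent.U620.K7F.I05
import Pool.Agent.U620.K7F.I06
import Pool.Agent.U620.K7F.I07
import Pool.Agent.U620.K7F.I08
import Pool.Agent.U620.K7F.I09
import Pool.Agent.U620.K7F.I10
import Pool.Agent.U620.K7F.I11
import Pool.Agent.U620.K7F.I12
import Pool.Agent.U620.K7F.I13
import Pool.Agent.U620.K7F.I14
import Pool.Agent.U620.K7F.I15
import Pool.Agent.U620.K7F.Code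

/-! The checks of the tables hold. -/

set_option autoImplicit false
set_option maxRecDepth 100000
set_option maxHeartbeats 4000000

namespace Pool.Agent.U620.K7F
open Pool.Agent.Y435.T7

theorem chkR_spec {a : ℕ} (h : chkR a 16 = true) {m : ℕ} (h1 : a ≤ m) (h2 : m < a + 16) : chkM m = true := by
  have h3 := al_true h (show m - a < 16 by omega)
  rw [st_eq] at h3
  have e : Nat.add a (m - a) = m := by show a + (m - a) = m; omega
  rwa [e] at h3

theorem CH_all : CH := by
  intro m hm
  rcases Nat.lt_or_ge m 16 with f1 | g1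
  · exact chkR_spec i0 (Nat.zero_le _) f1
  rcases Nat.lt_or_ge m 32 with f2 | g2
  · exact chkR_spec i16 g1 f2
  rcases Nat.lt_or_ge m 48 with f3 | g3
  · exact chkR_spec i32 g2 f3
  rcases Nat.lt_or_ge m 64 with f4 | g4
  · exact chkR_spec i48 g3 f4
  rcases Nat.lt_or_ge m 80 with f5 | g5
  · exact chkR_spec i64 g4 f5
  rcases Nat.lt_or_ge m 96 with f6 | g6
  · exact chkR_spec i80 g5 f6
  rcases Nat.lt_or_ge m 112 with f7 | g7
  · exact chkR_spec i96 g6 f7
  rcases Nat.lt_or_ge m 128 with f8 | g8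
  · exact chkR_spec i112 g7 f8
  rcases Nat.lt_or_ge m 144 with f9 | g9
  · exact chkR_spec i128 g8 f9
  rcases Nat.lt_or_ge m 160 with f10 | g10
  · exact chkR_spec i144 g9 f10
  rcases Nat.lt_or_ge m 176 with f11 | g11
  · exact chkR_spec i160 g10 f11
  rcases Nat.lt_or_ge m 192 with f12 | g12
  · exact chkR_spec i176 g11 f12
  rcases Nat.lt_or_ge m 208 with f13 | g13
  · exact chkR_spec i192 g12 f13
  rcases Nat.lt_or_ge m 224 with f14 | g14
  · exact chkR_spec i208 g13 f14
  rcases Nat.lt_or_ge m 240 with f15 | g15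
  · exact chkR_spec i224 g14 f15
  rcases Nat.lt_or_ge m 256 with f16 | g16
  · exact chkR_spec i240 g15 f16
  rcases Nat.lt_or_ge m 272 with f17 | g17
  · exact chkR_spec i256 g16 f17
  rcases Nat.lt_or_ge m 288 with f18 | g18
  · exact chkR_spec i272 g17 f18
  rcases Nat.lt_or_ge m 304 with f19 | g19
  · exact chkR_spec i288 g18 f19
  rcases Nat.lt_or_ge m 320 with f20 | g20
  · exact chkR_spec i304 g19 f20
  rcases Nat.lt_or_ge m 336 with f21 | g21
  · exact chkR_spec i320 g20 f21
  rcases Nat.lt_or_ge m 352 with f22 | g22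
  · exact chkR_spec i336 g21 f22
  rcases Nat.lt_or_ge m 368 with f23 | g23
  · exact chkR_spec i352 g22 f23
  rcases Nat.lt_or_ge m 384 with f24 | g24
  · exact chkR_spec i368 g23 f24
  rcases Nat.lt_or_ge m 400 with f25 | g25
  · exact chkR_spec i384 g24 f25
  rcases Nat.lt_or_ge m 416 with f26 | g26
  · exact chkR_spec i400 g25 f26
  rcases Nat.lt_or_ge m 432 with f27 | g27
  · exact chkR_spec i416 g26 f27
  rcases Nat.lt_or_ge m 448 with f28 | g28
  · exact chkR_spec i432 g27 f28
  rcases Nat.lt_or_ge m 464 with f29 | g29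
  · exact chkR_spec i448 g28 f29
  rcases Nat.lt_or_ge m 480 with f30 | g30
  · exact chkR_spec i464 g29 f30
  rcases Nat.lt_or_ge m 496 with f31 | g31
  · exact chkR_spec i480 g30 f31
  rcases Nat.lt_or_ge m 512 with f32 | g32
  · exact chkR_spec i496 g31 f32
  rcases Nat.lt_or_ge m 528 with f33 | g33
  · exact chkR_spec i512 g32 f33
  rcases Nat.lt_or_ge m 544 with f34 | g34
  · exact chkR_spec i528 g33 f34
  rcases Nat.lt_or_ge m 560 with f35 | g35
  · exact chkR_spec i544 g34 f35
  rcases Nat.lt_or_ge m 576 with f36 | g36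
  · exact chkR_spec i560 g35 f36
  rcases Nat.lt_or_ge m 592 with f37 | g37
  · exact chkR_spec i576 g36 f37
  rcases Nat.lt_or_ge m 608 with f38 | g38
  · exact chkR_spec i592 g37 f38
  rcases Nat.lt_or_ge m 624 with f39 | g39
  · exact chkR_spec i608 g38 f39
  rcases Nat.lt_or_ge m 640 with f40 | g40
  · exact chkR_spec i624 g39 f40
  rcases Nat.lt_or_ge m 656 with f41 | g41
  · exact chkR_spec i640 g40 f41
  rcases Nat.lt_or_ge m 672 with f42 | g42
  · exact chkR_spec i656 g41 f42
  rcases Nat.lt_or_ge m 688 with f43 | g43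
  · exact chkR_spec i672 g42 f43
  rcases Nat.lt_or_ge m 704 with f44 | g44
  · exact chkR_spec i688 g43 f44
  rcases Nat.lt_or_ge m 720 with f45 | g45
  · exact chkR_spec i704 g44 f45
  rcases Nat.lt_or_ge m 736 with f46 | g46
  · exact chkR_spec i720 g45 f46
  rcases Nat.lt_or_ge m 752 with f47 | g47
  · exact chkR_spec i736 g46 f47
  rcases Nat.lt_or_ge m 768 with f48 | g48
  · exact chkR_spec i752 g47 f48
  rcases Nat.lt_or_ge m 784 with f49 | g49
  · exact chkR_spec i768 g48 f49
  rcases Nat.lt_or_ge m 800 with f50 | g50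
  · exact chkR_spec i784 g49 f50
  rcases Nat.lt_or_ge m 816 with f51 | g51
  · exact chkR_spec i800 g50 f51
  rcases Nat.lt_or_ge m 832 with f52 | g52
  · exact chkR_spec i816 g51 f52
  rcases Nat.lt_or_ge m 848 with f53 | g53
  · exact chkR_spec i832 g52 f53
  rcases Nat.lt_or_ge m 864 with f54 | g54
  · exact chkR_spec i848 g53 f54
  rcases Nat.lt_or_ge m 880 with f55 | g55
  · exact chkR_spec i864 g54 f55
  rcases Nat.lt_or_ge m 896 with f56 | g56
  · exact chkR_spec i880 g55 f56
  rcases Nat.lt_or_ge m 912 with f57 | g57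
  · exact chkR_spec i896 g56 f57
  rcases Nat.lt_or_ge m 928 with f58 | g58
  · exact chkR_spec i912 g57 f58
  rcases Nat.lt_or_ge m 944 with f59 | g59
  · exact chkR_spec i928 g58 f59
  rcases Nat.lt_or_ge m 960 with f60 | g60
  · exact chkR_spec i944 g59 f60
  rcases Nat.lt_or_ge m 976 with f61 | g61
  · exact chkR_spec i960 g60 f61
  rcases Nat.lt_or_ge m 992 with f62 | g62
  · exact chkR_spec i976 g61 f62
  rcases Nat.lt_or_ge m 1008 with f63 | g63
  · exact chkR_spec i992 g62 f63
  exact chkR_spec i1008 g63 hm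

end Pool.Agent.U620.K7F
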