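import Pool.Agent.U620.K7F.Msk

set_option autoImplicit false
set_option maxRecDepth 100000
set_option maxHeartbeats 4000000

namespace Pool.Agent.U620.K7F
open Pool.Agent.Y435.T7

def k29_258 : chB 29 rq29 258 7 = true := by decide +kernel
def k29_265 : chB 29 rq29 265 56 = true := by decide +kernel
def k29_321 : chB 29 rq29 321 8 = true := by decide +kernel
def k29_329 : chB 29 rq29 329 8 = true := by decide +kernel
def k29_337 : chB 29 rq29 337 176 = true := by decide +kernel
def k29_513 : chB 29 rq29 513 1 = true := by decide +kernel
def k29_514 : chB 29 rq29 514 63 = true := by decide +kernel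
def k29_577 : chB 29 rq29 577 16 = true := by decide +kernel
def k29_593 : chB 29 rq29 593 176 = true := by decide +kernel
def k29_769 : chB 29 rq29 769 1 = true := by decide +kernel
def k29_770 : chB 29 rq29 770 63 = true := by decide +kernel
def k29_833 : chB 29 rq29 833 191 = true := by decide +kernel
def k31_0 : chB 31 rq31 0 1 = true := by decide +kernel
def k31_1 : chB 31 rq31 1 1 = true := by decide +kernel
def k31_2 : chB 31 rq31 2 1 = true := by decide +kernel
def k31_3 : chB 31 rq31 3 30 = true := by decide +kernel

end Pool.Agent.U620.K7F
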