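import Pool.Agent.U620.K7F.Msk

set_option autoImplicit false
set_option maxRecDepth 100000
set_option maxHeartbeats 4000000

namespace Pool.Agent.U620.K7F
open Pool.Agent.Y435.T7

def k31_33 : chB 31 rq31 33 32 = true := by decide +kernel
def k31_65 : chB 31 rq31 65 1 = true := by decide +kernel
def k31_66 : chB 31 rq31 66 1 = true := by decide +kernel
def k31_67 : chB 31 rq31 67 2 = true := by decide +kernel
def k31_69 : chB 31 rq31 69 28 = true := by decide +kernel
def k31_97 : chB 31 rq31 97 96 = true := by decide +kernel
def k31_193 : chB 31 rq31 193 1 = true := by decide +kernel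
def k31_194 : chB 31 rq31 194 1 = true := by decide +kernel
def k31_195 : chB 31 rq31 195 30 = true := by decide +kernel
def k31_225 : chB 31 rq31 225 32 = true := by decide +kernel
def k31_257 : chB 31 rq31 257 1 = true := by decide +kernel
def k31_258 : chB 31 rq31 258 7 = true := by decide +kernel
def k31_265 : chB 31 rq31 265 56 = true := by decide +kernel
def k31_321 : chB 31 rq31 321 1 = true := by decide +kernel
def k31_322 : chB 31 rq31 322 3 = true := by decide +kernel
def k31_325 : chB 31 rq31 325 4 = true := by decide +kernel

end Pool.Agent.U620.K7F
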