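import Pool.Agent.U620.K7F.Msk

set_option autoImplicit false
set_option maxRecDepth 100000
set_option maxHeartbeats 4000000

namespace Pool.Agent.U620.K7F
open Pool.Agent.Y435.T7

def k31_329 : chB 31 rq31 329 8 = true := by decide +kernel
def k31_337 : chB 31 rq31 337 16 = true := by decide +kernel
def k31_353 : chB 31 rq31 353 96 = true := by decide +kernel
def k31_449 : chB 31 rq31 449 8 = true := by decide +kernel
def k31_457 : chB 31 rq31 457 24 = true := by decide +kernel
def k31_481 : chB 31 rq31 481 288 = true := by decide +kernel
def k31_769 : chB 31 rq31 769 1 = true := by decide +kernel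
def k31_770 : chB 31 rq31 770 63 = true := by decide +kernel
def k31_833 : chB 31 rq31 833 1 = true := by decide +kernel
def k31_834 : chB 31 rq31 834 3 = true := by decide +kernel
def k31_837 : chB 31 rq31 837 124 = true := by decide +kernel
def k31_961 : chB 31 rq31 961 63 = true := by decide +kernel
def k54_0 : chB 54 rq54 0 1 = true := by decide +kernel
def k54_1 : chB 54 rq54 1 1 = true := by decide +kernel
def k54_2 : chB 54 rq54 2 2 = true := by decide +kernel
def k54_4 : chB 54 rq54 4 1 = true := by decide +kernel

end Pool.Agent.U620.K7F
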