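import Pool.Agent.U620.K7F.Msk

set_option autoImplicit false
set_option maxRecDepth 100000
set_option maxHeartbeats 4000000

namespace Pool.Agent.U620.K7F
open Pool.Agent.Y435.T7

def k55_73 : chB 55 rq55 73 1 = true := by decide +kernel
def k55_74 : chB 55 rq55 74 3 = true := by decide +kernel
def k55_77 : chB 55 rq55 77 4 = true := by decide +kernel
def k55_81 : chB 55 rq55 81 1 = true := by decide +kernel
def k55_82 : chB 55 rq55 82 1 = true := by decide +kernel
def k55_83 : chB 55 rq55 83 2 = true := by decide +kernel
def k55_85 : chB 55 rq55 85 4 = true := by decide +kernel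
def k55_89 : chB 55 rq55 89 24 = true := by decide +kernel
def k55_113 : chB 55 rq55 113 32 = true := by decide +kernel
def k55_145 : chB 55 rq55 145 1 = true := by decide +kernel
def k55_146 : chB 55 rq55 146 1 = true := by decide +kernel
def k55_147 : chB 55 rq55 147 2 = true := by decide +kernel
def k55_149 : chB 55 rq55 149 4 = true := by decide +kernel
def k55_153 : chB 55 rq55 153 8 = true := by decide +kernel
def k55_161 : chB 55 rq55 161 1 = true := by decide +kernel
def k55_162 : chB 55 rq55 162 3 = true := by decide +kernel

end Pool.Agent.U620.K7F
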