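import Pool.Agent.U620.K7F.Msk

set_option autoImplicit false
set_option maxRecDepth 100000
set_option maxHeartbeats 4000000

namespace Pool.Agent.U620.K7F
open Pool.Agent.Y435.T7

def k55_533 : chB 55 rq55 533 4 = true := by decide +kernel
def k55_537 : chB 55 rq55 537 24 = true := by decide +kernel
def k55_561 : chB 55 rq55 561 24 = true := by decide +kernel
def k55_585 : chB 55 rq55 585 4 = true := by decide +kernel
def k55_589 : chB 55 rq55 589 4 = true := by decide +kernel
def k55_593 : chB 55 rq55 593 2 = true := by decide +kernel
def k55_595 : chB 55 rq55 595 2 = true := by decide +kernel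
def k55_597 : chB 55 rq55 597 28 = true := by decide +kernel
def k55_625 : chB 55 rq55 625 32 = true := by decide +kernel
def k55_657 : chB 55 rq55 657 2 = true := by decide +kernel
def k55_659 : chB 55 rq55 659 2 = true := by decide +kernel
def k55_661 : chB 55 rq55 661 12 = true := by decide +kernel
def k55_673 : chB 55 rq55 673 1 = true := by decide +kernel
def k55_674 : chB 55 rq55 674 3 = true := by decide +kernel
def k55_677 : chB 55 rq55 677 4 = true := by decide +kernel
def k55_681 : chB 55 rq55 681 8 = true := by decide +kernel

end Pool.Agent.U620.K7F
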