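import Pool.Agent.U620.K7F.Msk

set_option autoImplicit false
set_option maxRecDepth 100000
set_option maxHeartbeats 4000000

namespace Pool.Agent.U620.K7F
open Pool.Agent.Y435.T7

def k59_81 : chB 59 rq59 81 8 = true := by decide +kernel
def k59_89 : chB 59 rq59 89 8 = true := by decide +kernel
def k59_97 : chB 59 rq59 97 4 = true := by decide +kernel
def k59_101 : chB 59 rq59 101 4 = true := by decide +kernel
def k59_105 : chB 59 rq59 105 8 = true := by decide +kernel
def k59_113 : chB 59 rq59 113 24 = true := by decide +kernel
def k59_137 : chB 59 rq59 137 1 = true := by decide +kernel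
def k59_138 : chB 59 rq59 138 1 = true := by decide +kernel
def k59_139 : chB 59 rq59 139 14 = true := by decide +kernel
def k59_153 : chB 59 rq59 153 8 = true := by decide +kernel
def k59_161 : chB 59 rq59 161 1 = true := by decide +kernel
def k59_162 : chB 59 rq59 162 1 = true := by decide +kernel
def k59_163 : chB 59 rq59 163 6 = true := by decide +kernel
def k59_169 : chB 59 rq59 169 8 = true := by decide +kernel
def k59_177 : chB 59 rq59 177 48 = true := by decide +kernel
def k59_225 : chB 59 rq59 225 8 = true := by decide +kernel

end Pool.Agent.U620.K7F
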