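import Pool.Agent.U620.K7F.Msk

set_option autoImplicit false
set_option maxRecDepth 100000
set_option maxHeartbeats 4000000

namespace Pool.Agent.U620.K7F
open Pool.Agent.Y435.T7

def k59_674 : chB 59 rq59 674 1 = true := by decide +kernel
def k59_675 : chB 59 rq59 675 6 = true := by decide +kernel
def k59_681 : chB 59 rq59 681 120 = true := by decide +kernel
def k59_801 : chB 59 rq59 801 1 = true := by decide +kernel
def k59_802 : chB 59 rq59 802 7 = true := by decide +kernel
def k59_809 : chB 59 rq59 809 72 = true := by decide +kernel
def k59_881 : chB 59 rq59 881 143 = true := by decide +kernel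
def k62_0 : chB 62 rq62 0 1 = true := by decide +kernel
def k62_1 : chB 62 rq62 1 1 = true := by decide +kernel
def k62_2 : chB 62 rq62 2 2 = true := by decide +kernel
def k62_4 : chB 62 rq62 4 1 = true := by decide +kernel
def k62_5 : chB 62 rq62 5 1 = true := by decide +kernel
def k62_6 : chB 62 rq62 6 3 = true := by decide +kernel
def k62_9 : chB 62 rq62 9 4 = true := by decide +kernel
def k62_13 : chB 62 rq62 13 4 = true := by decide +kernel
def k62_17 : chB 62 rq62 17 2 = true := by decide +kernel

end Pool.Agent.U620.K7F
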