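import Pool.Agent.U620.K7F.Msk

set_option autoImplicit false
set_option maxRecDepth 100000
set_option maxHeartbeats 4000000

namespace Pool.Agent.U620.K7F
open Pool.Agent.Y435.T7

def k62_19 : chB 62 rq62 19 46 = true := by decide +kernel
def k62_65 : chB 62 rq62 65 1 = true := by decide +kernel
def k62_66 : chB 62 rq62 66 3 = true := by decide +kernel
def k62_69 : chB 62 rq62 69 1 = true := by decide +kernel
def k62_70 : chB 62 rq62 70 3 = true := by decide +kernel
def k62_73 : chB 62 rq62 73 4 = true := by decide +kernel
def k62_77 : chB 62 rq62 77 4 = true := by decide +kernel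
def k62_81 : chB 62 rq62 81 2 = true := by decide +kernel
def k62_83 : chB 62 rq62 83 46 = true := by decide +kernel
def k62_129 : chB 62 rq62 129 1 = true := by decide +kernel
def k62_130 : chB 62 rq62 130 1 = true := by decide +kernel
def k62_131 : chB 62 rq62 131 1 = true := by decide +kernel
def k62_132 : chB 62 rq62 132 1 = true := by decide +kernel
def k62_133 : chB 62 rq62 133 2 = true := by decide +kernel
def k62_135 : chB 62 rq62 135 2 = true := by decide +kernel
def k62_137 : chB 62 rq62 137 4 = true := by decide +kernel

end Pool.Agent.U620.K7F
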