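import Pool.Agent.U620.K7F.Msk

set_option autoImplicit false
set_option maxRecDepth 100000
set_option maxHeartbeats 4000000

namespace Pool.Agent.U620.K7F
open Pool.Agent.Y435.T7

def k62_141 : chB 62 rq62 141 4 = true := by decide +kernel
def k62_145 : chB 62 rq62 145 2 = true := by decide +kernel
def k62_147 : chB 62 rq62 147 14 = true := by decide +kernel
def k62_161 : chB 62 rq62 161 1 = true := by decide +kernel
def k62_162 : chB 62 rq62 162 31 = true := by decide +kernel
def k62_193 : chB 62 rq62 193 4 = true := by decide +kernel
def k62_197 : chB 62 rq62 197 4 = true := by decide +kernel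
def k62_201 : chB 62 rq62 201 4 = true := by decide +kernel
def k62_205 : chB 62 rq62 205 4 = true := by decide +kernel
def k62_209 : chB 62 rq62 209 16 = true := by decide +kernel
def k62_225 : chB 62 rq62 225 160 = true := by decide +kernel
def k62_385 : chB 62 rq62 385 1 = true := by decide +kernel
def k62_386 : chB 62 rq62 386 3 = true := by decide +kernel
def k62_389 : chB 62 rq62 389 4 = true := by decide +kernel
def k62_393 : chB 62 rq62 393 4 = true := by decide +kernel
def k62_397 : chB 62 rq62 397 4 = true := by decide +kernel

end Pool.Agent.U620.K7F
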