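import Pool.Agent.U620.K7F.Msk

set_option autoImplicit false
set_option maxRecDepth 100000
set_option maxHeartbeats 4000000

namespace Pool.Agent.U620.K7F
open Pool.Agent.Y435.T7

def k62_593 : chB 62 rq62 593 2 = true := by decide +kernel
def k62_595 : chB 62 rq62 595 46 = true := by decide +kernel
def k62_641 : chB 62 rq62 641 1 = true := by decide +kernel
def k62_642 : chB 62 rq62 642 1 = true := by decide +kernel
def k62_643 : chB 62 rq62 643 2 = true := by decide +kernel
def k62_645 : chB 62 rq62 645 2 = true := by decide +kernel
def k62_647 : chB 62 rq62 647 2 = true := by decide +kernel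
def k62_649 : chB 62 rq62 649 4 = true := by decide +kernel
def k62_653 : chB 62 rq62 653 6 = true := by decide +kernel
def k62_659 : chB 62 rq62 659 14 = true := by decide +kernel
def k62_673 : chB 62 rq62 673 1 = true := by decide +kernel
def k62_674 : chB 62 rq62 674 31 = true := by decide +kernel
def k62_705 : chB 62 rq62 705 4 = true := by decide +kernel
def k62_709 : chB 62 rq62 709 28 = true := by decide +kernel
def k62_737 : chB 62 rq62 737 160 = true := by decide +kernel
def k62_897 : chB 62 rq62 897 8 = true := by decide +kernel

end Pool.Agent.U620.K7F
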