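import Pool.Agent.U620.K7F.Msk

set_option autoImplicit false
set_option maxRecDepth 100000
set_option maxHeartbeats 4000000

namespace Pool.Agent.U620.K7F
open Pool.Agent.Y435.T7

def k62_905 : chB 62 rq62 905 4 = true := by decide +kernel
def k62_909 : chB 62 rq62 909 115 = true := by decide +kernel
def k63_0 : chB 63 rq63 0 1 = true := by decide +kernel
def k63_1 : chB 63 rq63 1 1 = true := by decide +kernel
def k63_2 : chB 63 rq63 2 2 = true := by decide +kernel
def k63_4 : chB 63 rq63 4 1 = true := by decide +kernel
def k63_5 : chB 63 rq63 5 1 = true := by decide +kernel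
def k63_6 : chB 63 rq63 6 3 = true := by decide +kernel
def k63_9 : chB 63 rq63 9 1 = true := by decide +kernel
def k63_10 : chB 63 rq63 10 3 = true := by decide +kernel
def k63_13 : chB 63 rq63 13 4 = true := by decide +kernel
def k63_17 : chB 63 rq63 17 1 = true := by decide +kernel
def k63_18 : chB 63 rq63 18 1 = true := by decide +kernel
def k63_19 : chB 63 rq63 19 2 = true := by decide +kernel
def k63_21 : chB 63 rq63 21 28 = true := by decide +kernel
def k63_49 : chB 63 rq63 49 16 = true := by decide +kernel

end Pool.Agent.U620.K7F
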