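import Pool.Agent.U620.K7F.Msk

set_option autoImplicit false
set_option maxRecDepth 100000
set_option maxHeartbeats 4000000

namespace Pool.Agent.U620.K7F
open Pool.Agent.Y435.T7

def k63_65 : chB 63 rq63 65 1 = true := by decide +kernel
def k63_66 : chB 63 rq63 66 2 = true := by decide +kernel
def k63_68 : chB 63 rq63 68 1 = true := by decide +kernel
def k63_69 : chB 63 rq63 69 1 = true := by decide +kernel
def k63_70 : chB 63 rq63 70 3 = true := by decide +kernel
def k63_73 : chB 63 rq63 73 1 = true := by decide +kernel
def k63_74 : chB 63 rq63 74 3 = true := by decide +kernel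
def k63_77 : chB 63 rq63 77 4 = true := by decide +kernel
def k63_81 : chB 63 rq63 81 1 = true := by decide +kernel
def k63_82 : chB 63 rq63 82 1 = true := by decide +kernel
def k63_83 : chB 63 rq63 83 2 = true := by decide +kernel
def k63_85 : chB 63 rq63 85 4 = true := by decide +kernel
def k63_89 : chB 63 rq63 89 24 = true := by decide +kernel
def k63_113 : chB 63 rq63 113 16 = true := by decide +kernel
def k63_129 : chB 63 rq63 129 1 = true := by decide +kernel
def k63_130 : chB 63 rq63 130 1 = true := by decide +kernel

end Pool.Agent.U620.K7F
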