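import Pool.Agent.U620.K7F.Msk

set_option autoImplicit false
set_option maxRecDepth 100000
set_option maxHeartbeats 4000000

namespace Pool.Agent.U620.K7F
open Pool.Agent.Y435.T7

def k63_131 : chB 63 rq63 131 1 = true := by decide +kernel
def k63_132 : chB 63 rq63 132 1 = true := by decide +kernel
def k63_133 : chB 63 rq63 133 2 = true := by decide +kernel
def k63_135 : chB 63 rq63 135 2 = true := by decide +kernel
def k63_137 : chB 63 rq63 137 1 = true := by decide +kernel
def k63_138 : chB 63 rq63 138 1 = true := by decide +kernel
def k63_139 : chB 63 rq63 139 2 = true := by decide +kernel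
def k63_141 : chB 63 rq63 141 4 = true := by decide +kernel
def k63_145 : chB 63 rq63 145 2 = true := by decide +kernel
def k63_147 : chB 63 rq63 147 6 = true := by decide +kernel
def k63_153 : chB 63 rq63 153 8 = true := by decide +kernel
def k63_161 : chB 63 rq63 161 1 = true := by decide +kernel
def k63_162 : chB 63 rq63 162 1 = true := by decide +kernel
def k63_163 : chB 63 rq63 163 6 = true := by decide +kernel
def k63_169 : chB 63 rq63 169 8 = true := by decide +kernel
def k63_177 : chB 63 rq63 177 16 = true := by decide +kernel

end Pool.Agent.U620.K7F
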