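import Pool.Agent.U620.K7F.Msk

set_option autoImplicit false
set_option maxRecDepth 100000
set_option maxHeartbeats 4000000

namespace Pool.Agent.U620.K7F
open Pool.Agent.Y435.T7

def k63_193 : chB 63 rq63 193 1 = true := by decide +kernel
def k63_194 : chB 63 rq63 194 1 = true := by decide +kernel
def k63_195 : chB 63 rq63 195 2 = true := by decide +kernel
def k63_197 : chB 63 rq63 197 4 = true := by decide +kernel
def k63_201 : chB 63 rq63 201 1 = true := by decide +kernel
def k63_202 : chB 63 rq63 202 1 = true := by decide +kernel
def k63_203 : chB 63 rq63 203 2 = true := by decide +kernel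
def k63_205 : chB 63 rq63 205 4 = true := by decide +kernel
def k63_209 : chB 63 rq63 209 1 = true := by decide +kernel
def k63_210 : chB 63 rq63 210 1 = true := by decide +kernel
def k63_211 : chB 63 rq63 211 2 = true := by decide +kernel
def k63_213 : chB 63 rq63 213 4 = true := by decide +kernel
def k63_217 : chB 63 rq63 217 8 = true := by decide +kernel
def k63_225 : chB 63 rq63 225 1 = true := by decide +kernel
def k63_226 : chB 63 rq63 226 1 = true := by decide +kernel
def k63_227 : chB 63 rq63 227 2 = true := by decide +kernel

end Pool.Agent.U620.K7F
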