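import Pool.Agent.U620.K7F.Msk

set_option autoImplicit false
set_option maxRecDepth 100000
set_option maxHeartbeats 4000000

namespace Pool.Agent.U620.K7F
open Pool.Agent.Y435.T7

def k63_229 : chB 63 rq63 229 4 = true := by decide +kernel
def k63_233 : chB 63 rq63 233 8 = true := by decide +kernel
def k63_241 : chB 63 rq63 241 144 = true := by decide +kernel
def k63_385 : chB 63 rq63 385 1 = true := by decide +kernel
def k63_386 : chB 63 rq63 386 3 = true := by decide +kernel
def k63_389 : chB 63 rq63 389 4 = true := by decide +kernel
def k63_393 : chB 63 rq63 393 1 = true := by decide +kernel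
def k63_394 : chB 63 rq63 394 3 = true := by decide +kernel
def k63_397 : chB 63 rq63 397 4 = true := by decide +kernel
def k63_401 : chB 63 rq63 401 1 = true := by decide +kernel
def k63_402 : chB 63 rq63 402 1 = true := by decide +kernel
def k63_403 : chB 63 rq63 403 6 = true := by decide +kernel
def k63_409 : chB 63 rq63 409 24 = true := by decide +kernel
def k63_433 : chB 63 rq63 433 16 = true := by decide +kernel
def k63_449 : chB 63 rq63 449 8 = true := by decide +kernel
def k63_457 : chB 63 rq63 457 8 = true := by decide +kernel

end Pool.Agent.U620.K7F
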