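import Pool.Agent.U620.K7F.Msk

set_option autoImplicit false
set_option maxRecDepth 100000
set_option maxHeartbeats 4000000

namespace Pool.Agent.U620.K7F
open Pool.Agent.Y435.T7

def k63_465 : chB 63 rq63 465 8 = true := by decide +kernel
def k63_473 : chB 63 rq63 473 24 = true := by decide +kernel
def k63_497 : chB 63 rq63 497 16 = true := by decide +kernel
def k63_513 : chB 63 rq63 513 1 = true := by decide +kernel
def k63_514 : chB 63 rq63 514 2 = true := by decide +kernel
def k63_516 : chB 63 rq63 516 1 = true := by decide +kernel
def k63_517 : chB 63 rq63 517 1 = true := by decide +kernel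
def k63_518 : chB 63 rq63 518 3 = true := by decide +kernel
def k63_521 : chB 63 rq63 521 4 = true := by decide +kernel
def k63_525 : chB 63 rq63 525 4 = true := by decide +kernel
def k63_529 : chB 63 rq63 529 2 = true := by decide +kernel
def k63_531 : chB 63 rq63 531 46 = true := by decide +kernel
def k63_577 : chB 63 rq63 577 1 = true := by decide +kernel
def k63_578 : chB 63 rq63 578 2 = true := by decide +kernel
def k63_580 : chB 63 rq63 580 1 = true := by decide +kernel
def k63_581 : chB 63 rq63 581 1 = true := by decide +kernel

end Pool.Agent.U620.K7F
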