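import Pool.Agent.U620.K7F.Msk

set_option autoImplicit false
set_option maxRecDepth 100000
set_option maxHeartbeats 4000000

namespace Pool.Agent.U620.K7F
open Pool.Agent.Y435.T7

def k63_657 : chB 63 rq63 657 2 = true := by decide +kernel
def k63_659 : chB 63 rq63 659 14 = true := by decide +kernel
def k63_673 : chB 63 rq63 673 1 = true := by decide +kernel
def k63_674 : chB 63 rq63 674 1 = true := by decide +kernel
def k63_675 : chB 63 rq63 675 30 = true := by decide +kernel
def k63_705 : chB 63 rq63 705 2 = true := by decide +kernel
def k63_707 : chB 63 rq63 707 2 = true := by decide +kernel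
def k63_709 : chB 63 rq63 709 4 = true := by decide +kernel
def k63_713 : chB 63 rq63 713 2 = true := by decide +kernel
def k63_715 : chB 63 rq63 715 2 = true := by decide +kernel
def k63_717 : chB 63 rq63 717 4 = true := by decide +kernel
def k63_721 : chB 63 rq63 721 2 = true := by decide +kernel
def k63_723 : chB 63 rq63 723 2 = true := by decide +kernel
def k63_725 : chB 63 rq63 725 12 = true := by decide +kernel
def k63_737 : chB 63 rq63 737 1 = true := by decide +kernel
def k63_738 : chB 63 rq63 738 1 = true := by decide +kernel

end Pool.Agent.U620.K7F
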