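import Pool.Agent.U620.K7F.Msk

set_option autoImplicit false
set_option maxRecDepth 100000
set_option maxHeartbeats 4000000

namespace Pool.Agent.U620.K7F
open Pool.Agent.Y435.T7

def k63_739 : chB 63 rq63 739 2 = true := by decide +kernel
def k63_741 : chB 63 rq63 741 12 = true := by decide +kernel
def k63_753 : chB 63 rq63 753 144 = true := by decide +kernel
def k63_897 : chB 63 rq63 897 1 = true := by decide +kernel
def k63_898 : chB 63 rq63 898 3 = true := by decide +kernel
def k63_901 : chB 63 rq63 901 4 = true := by decide +kernel
def k63_905 : chB 63 rq63 905 1 = true := by decide +kernel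
def k63_906 : chB 63 rq63 906 3 = true := by decide +kernel
def k63_909 : chB 63 rq63 909 4 = true := by decide +kernel
def k63_913 : chB 63 rq63 913 2 = true := by decide +kernel
def k63_915 : chB 63 rq63 915 46 = true := by decide +kernel
def k63_961 : chB 63 rq63 961 8 = true := by decide +kernel
def k63_969 : chB 63 rq63 969 8 = true := by decide +kernel
def k63_977 : chB 63 rq63 977 47 = true := by decide +kernel
def k126_0 : chB 126 rq126 0 1 = true := by decide +kernel
def k126_1 : chB 126 rq126 1 1 = true := by decide +kernel

end Pool.Agent.U620.K7F
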