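import Pool.Agent.U620.K7F.Msk

set_option autoImplicit false
set_option maxRecDepth 100000
set_option maxHeartbeats 4000000

namespace Pool.Agent.U620.K7F
open Pool.Agent.Y435.T7

def k126_81 : chB 126 rq126 81 1 = true := by decide +kernel
def k126_82 : chB 126 rq126 82 1 = true := by decide +kernel
def k126_83 : chB 126 rq126 83 1 = true := by decide +kernel
def k126_84 : chB 126 rq126 84 3 = true := by decide +kernel
def k126_87 : chB 126 rq126 87 2 = true := by decide +kernel
def k126_89 : chB 126 rq126 89 2 = true := by decide +kernel
def k126_91 : chB 126 rq126 91 2 = true := by decide +kernel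
def k126_93 : chB 126 rq126 93 20 = true := by decide +kernel
def k126_113 : chB 126 rq126 113 1 = true := by decide +kernel
def k126_114 : chB 126 rq126 114 7 = true := by decide +kernel
def k126_121 : chB 126 rq126 121 96 = true := by decide +kernel
def k126_217 : chB 126 rq126 217 2 = true := by decide +kernel
def k126_219 : chB 126 rq126 219 14 = true := by decide +kernel
def k126_233 : chB 126 rq126 233 4 = true := by decide +kernel
def k126_237 : chB 126 rq126 237 12 = true := by decide +kernel
def k126_249 : chB 126 rq126 249 256 = true := by decide +kernel

end Pool.Agent.U620.K7F
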