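import Pool.Agent.U620.K7F.Msk

set_option autoImplicit false
set_option maxRecDepth 100000
set_option maxHeartbeats 4000000

namespace Pool.Agent.U620.K7F
open Pool.Agent.Y435.T7

def k127_2 : chB 127 rq127 2 2 = true := by decide +kernel
def k127_4 : chB 127 rq127 4 4 = true := by decide +kernel
def k127_8 : chB 127 rq127 8 1 = true := by decide +kernel
def k127_9 : chB 127 rq127 9 1 = true := by decide +kernel
def k127_10 : chB 127 rq127 10 2 = true := by decide +kernel
def k127_12 : chB 127 rq127 12 1 = true := by decide +kernel
def k127_13 : chB 127 rq127 13 1 = true := by decide +kernel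
def k127_14 : chB 127 rq127 14 11 = true := by decide +kernel
def k127_25 : chB 127 rq127 25 1 = true := by decide +kernel
def k127_26 : chB 127 rq127 26 1 = true := by decide +kernel
def k127_27 : chB 127 rq127 27 30 = true := by decide +kernel
def k127_57 : chB 127 rq127 57 16 = true := by decide +kernel
def k127_73 : chB 127 rq127 73 1 = true := by decide +kernel
def k127_74 : chB 127 rq127 74 2 = true := by decide +kernel
def k127_76 : chB 127 rq127 76 1 = true := by decide +kernel
def k127_77 : chB 127 rq127 77 1 = true := by decide +kernel

end Pool.Agent.U620.K7F
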