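import Pool.Agent.U620.K7F.Msk

set_option autoImplicit false
set_option maxRecDepth 100000
set_option maxHeartbeats 4000000

namespace Pool.Agent.U620.K7F
open Pool.Agent.Y435.T7

def k127_78 : chB 127 rq127 78 3 = true := by decide +kernel
def k127_81 : chB 127 rq127 81 1 = true := by decide +kernel
def k127_82 : chB 127 rq127 82 1 = true := by decide +kernel
def k127_83 : chB 127 rq127 83 1 = true := by decide +kernel
def k127_84 : chB 127 rq127 84 3 = true := by decide +kernel
def k127_87 : chB 127 rq127 87 2 = true := by decide +kernel
def k127_89 : chB 127 rq127 89 1 = true := by decide +kernel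
def k127_90 : chB 127 rq127 90 1 = true := by decide +kernel
def k127_91 : chB 127 rq127 91 2 = true := by decide +kernel
def k127_93 : chB 127 rq127 93 20 = true := by decide +kernel
def k127_113 : chB 127 rq127 113 1 = true := by decide +kernel
def k127_114 : chB 127 rq127 114 3 = true := by decide +kernel
def k127_117 : chB 127 rq127 117 4 = true := by decide +kernel
def k127_121 : chB 127 rq127 121 96 = true := by decide +kernel
def k127_217 : chB 127 rq127 217 1 = true := by decide +kernel
def k127_218 : chB 127 rq127 218 1 = true := by decide +kernel

end Pool.Agent.U620.K7F
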