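import Pool.Agent.U620.K7F.Msk

set_option autoImplicit false
set_option maxRecDepth 100000
set_option maxHeartbeats 4000000

namespace Pool.Agent.U620.K7F
open Pool.Agent.Y435.T7

def k127_219 : chB 127 rq127 219 14 = true := by decide +kernel
def k127_233 : chB 127 rq127 233 1 = true := by decide +kernel
def k127_234 : chB 127 rq127 234 3 = true := by decide +kernel
def k127_237 : chB 127 rq127 237 12 = true := by decide +kernel
def k127_249 : chB 127 rq127 249 256 = true := by decide +kernel
def k127_505 : chB 127 rq127 505 8 = true := by decide +kernel
def k127_513 : chB 127 rq127 513 1 = true := by decide +kernel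
def k127_514 : chB 127 rq127 514 2 = true := by decide +kernel
def k127_516 : chB 127 rq127 516 4 = true := by decide +kernel
def k127_520 : chB 127 rq127 520 1 = true := by decide +kernel
def k127_521 : chB 127 rq127 521 1 = true := by decide +kernel
def k127_522 : chB 127 rq127 522 2 = true := by decide +kernel
def k127_524 : chB 127 rq127 524 1 = true := by decide +kernel
def k127_525 : chB 127 rq127 525 1 = true := by decide +kernel
def k127_526 : chB 127 rq127 526 11 = true := by decide +kernel
def k127_537 : chB 127 rq127 537 2 = true := by decide +kernel

end Pool.Agent.U620.K7F
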