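import Pool.Agent.U620.K7F.Msk

set_option autoImplicit false
set_option maxRecDepth 100000
set_option maxHeartbeats 4000000

namespace Pool.Agent.U620.K7F
open Pool.Agent.Y435.T7

def k127_539 : chB 127 rq127 539 30 = true := by decide +kernel
def k127_569 : chB 127 rq127 569 16 = true := by decide +kernel
def k127_585 : chB 127 rq127 585 1 = true := by decide +kernel
def k127_586 : chB 127 rq127 586 2 = true := by decide +kernel
def k127_588 : chB 127 rq127 588 1 = true := by decide +kernel
def k127_589 : chB 127 rq127 589 1 = true := by decide +kernel
def k127_590 : chB 127 rq127 590 3 = true := by decide +kernel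
def k127_593 : chB 127 rq127 593 1 = true := by decide +kernel
def k127_594 : chB 127 rq127 594 1 = true := by decide +kernel
def k127_595 : chB 127 rq127 595 1 = true := by decide +kernel
def k127_596 : chB 127 rq127 596 3 = true := by decide +kernel
def k127_599 : chB 127 rq127 599 2 = true := by decide +kernel
def k127_601 : chB 127 rq127 601 2 = true := by decide +kernel
def k127_603 : chB 127 rq127 603 2 = true := by decide +kernel
def k127_605 : chB 127 rq127 605 20 = true := by decide +kernel
def k127_625 : chB 127 rq127 625 1 = true := by decide +kernel

end Pool.Agent.U620.K7F
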