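import Pool.Agent.U620.K7F.Msk

set_option autoImplicit false
set_option maxRecDepth 100000
set_option maxHeartbeats 4000000

namespace Pool.Agent.U620.K7F
open Pool.Agent.Y435.T7

def k127_626 : chB 127 rq127 626 3 = true := by decide +kernel
def k127_629 : chB 127 rq127 629 4 = true := by decide +kernel
def k127_633 : chB 127 rq127 633 96 = true := by decide +kernel
def k127_729 : chB 127 rq127 729 2 = true := by decide +kernel
def k127_731 : chB 127 rq127 731 14 = true := by decide +kernel
def k127_745 : chB 127 rq127 745 1 = true := by decide +kernel
def k127_746 : chB 127 rq127 746 3 = true := by decide +kernel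
def k127_749 : chB 127 rq127 749 12 = true := by decide +kernel
def k127_761 : chB 127 rq127 761 263 = true := by decide +kernel
def k183_0 : chB 183 rq183 0 1 = true := by decide +kernel
def k183_1 : chB 183 rq183 1 1 = true := by decide +kernel
def k183_2 : chB 183 rq183 2 2 = true := by decide +kernel
def k183_4 : chB 183 rq183 4 1 = true := by decide +kernel
def k183_5 : chB 183 rq183 5 1 = true := by decide +kernel
def k183_6 : chB 183 rq183 6 6 = true := by decide +kernel
def k183_12 : chB 183 rq183 12 1 = true := by decide +kernel

end Pool.Agent.U620.K7F
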