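import Pool.Agent.U620.K7F.Msk

set_option autoImplicit false
set_option maxRecDepth 100000
set_option maxHeartbeats 4000000

namespace Pool.Agent.U620.K7F
open Pool.Agent.Y435.T7

def k187_14 : chB 187 rq187 14 1 = true := by decide +kernel
def k187_15 : chB 187 rq187 15 6 = true := by decide +kernel
def k187_21 : chB 187 rq187 21 2 = true := by decide +kernel
def k187_23 : chB 187 rq187 23 10 = true := by decide +kernel
def k187_33 : chB 187 rq187 33 1 = true := by decide +kernel
def k187_34 : chB 187 rq187 34 1 = true := by decide +kernel
def k187_35 : chB 187 rq187 35 1 = true := by decide +kernel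
def k187_36 : chB 187 rq187 36 1 = true := by decide +kernel
def k187_37 : chB 187 rq187 37 1 = true := by decide +kernel
def k187_38 : chB 187 rq187 38 1 = true := by decide +kernel
def k187_39 : chB 187 rq187 39 6 = true := by decide +kernel
def k187_45 : chB 187 rq187 45 20 = true := by decide +kernel
def k187_65 : chB 187 rq187 65 1 = true := by decide +kernel
def k187_66 : chB 187 rq187 66 1 = true := by decide +kernel
def k187_67 : chB 187 rq187 67 2 = true := by decide +kernel
def k187_69 : chB 187 rq187 69 1 = true := by decide +kernel

end Pool.Agent.U620.K7F
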