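import Pool.Agent.U620.K7F.Msk

set_option autoImplicit false
set_option maxRecDepth 100000
set_option maxHeartbeats 4000000

namespace Pool.Agent.U620.K7F
open Pool.Agent.Y435.T7

def k187_70 : chB 187 rq187 70 1 = true := by decide +kernel
def k187_71 : chB 187 rq187 71 4 = true := by decide +kernel
def k187_75 : chB 187 rq187 75 2 = true := by decide +kernel
def k187_77 : chB 187 rq187 77 2 = true := by decide +kernel
def k187_79 : chB 187 rq187 79 6 = true := by decide +kernel
def k187_85 : chB 187 rq187 85 2 = true := by decide +kernel
def k187_87 : chB 187 rq187 87 10 = true := by decide +kernel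
def k187_97 : chB 187 rq187 97 1 = true := by decide +kernel
def k187_98 : chB 187 rq187 98 1 = true := by decide +kernel
def k187_99 : chB 187 rq187 99 2 = true := by decide +kernel
def k187_101 : chB 187 rq187 101 1 = true := by decide +kernel
def k187_102 : chB 187 rq187 102 7 = true := by decide +kernel
def k187_109 : chB 187 rq187 109 20 = true := by decide +kernel
def k187_129 : chB 187 rq187 129 1 = true := by decide +kernel
def k187_130 : chB 187 rq187 130 1 = true := by decide +kernel
def k187_131 : chB 187 rq187 131 1 = true := by decide +kernel

end Pool.Agent.U620.K7F
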