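import Pool.Agent.U620.K7F.Msk

set_option autoImplicit false
set_option maxRecDepth 100000
set_option maxHeartbeats 4000000

namespace Pool.Agent.U620.K7F
open Pool.Agent.Y435.T7

def k187_401 : chB 187 rq187 401 2 = true := by decide +kernel
def k187_403 : chB 187 rq187 403 6 = true := by decide +kernel
def k187_409 : chB 187 rq187 409 2 = true := by decide +kernel
def k187_411 : chB 187 rq187 411 6 = true := by decide +kernel
def k187_417 : chB 187 rq187 417 1 = true := by decide +kernel
def k187_418 : chB 187 rq187 418 1 = true := by decide +kernel
def k187_419 : chB 187 rq187 419 6 = true := by decide +kernel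
def k187_425 : chB 187 rq187 425 1 = true := by decide +kernel
def k187_426 : chB 187 rq187 426 7 = true := by decide +kernel
def k187_433 : chB 187 rq187 433 1 = true := by decide +kernel
def k187_434 : chB 187 rq187 434 1 = true := by decide +kernel
def k187_435 : chB 187 rq187 435 6 = true := by decide +kernel
def k187_441 : chB 187 rq187 441 56 = true := by decide +kernel
def k187_497 : chB 187 rq187 497 272 = true := by decide +kernel
def k187_769 : chB 187 rq187 769 1 = true := by decide +kernel
def k187_770 : chB 187 rq187 770 1 = true := by decide +kernel

end Pool.Agent.U620.K7F
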