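import Pool.Agent.U620.K7F.Msk

set_option autoImplicit false
set_option maxRecDepth 100000
set_option maxHeartbeats 4000000

namespace Pool.Agent.U620.K7F
open Pool.Agent.Y435.T7

def k187_771 : chB 187 rq187 771 2 = true := by decide +kernel
def k187_773 : chB 187 rq187 773 1 = true := by decide +kernel
def k187_774 : chB 187 rq187 774 7 = true := by decide +kernel
def k187_781 : chB 187 rq187 781 8 = true := by decide +kernel
def k187_789 : chB 187 rq187 789 2 = true := by decide +kernel
def k187_791 : chB 187 rq187 791 10 = true := by decide +kernel
def k187_801 : chB 187 rq187 801 1 = true := by decide +kernel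
def k187_802 : chB 187 rq187 802 1 = true := by decide +kernel
def k187_803 : chB 187 rq187 803 2 = true := by decide +kernel
def k187_805 : chB 187 rq187 805 8 = true := by decide +kernel
def k187_813 : chB 187 rq187 813 20 = true := by decide +kernel
def k187_833 : chB 187 rq187 833 4 = true := by decide +kernel
def k187_837 : chB 187 rq187 837 16 = true := by decide +kernel
def k187_853 : chB 187 rq187 853 12 = true := by decide +kernel
def k187_865 : chB 187 rq187 865 4 = true := by decide +kernel
def k187_869 : chB 187 rq187 869 28 = true := by decide +kernel

end Pool.Agent.U620.K7F
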