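import Pool.Agent.U620.K7F.Msk

set_option autoImplicit false
set_option maxRecDepth 100000
set_option maxHeartbeats 4000000

namespace Pool.Agent.U620.K7F
open Pool.Agent.Y435.T7

def k187_897 : chB 187 rq187 897 1 = true := by decide +kernel
def k187_898 : chB 187 rq187 898 1 = true := by decide +kernel
def k187_899 : chB 187 rq187 899 30 = true := by decide +kernel
def k187_929 : chB 187 rq187 929 1 = true := by decide +kernel
def k187_930 : chB 187 rq187 930 94 = true := by decide +kernel
def k191_0 : chB 191 rq191 0 1 = true := by decide +kernel
def k191_1 : chB 191 rq191 1 1 = true := by decide +kernel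
def k191_2 : chB 191 rq191 2 2 = true := by decide +kernel
def k191_4 : chB 191 rq191 4 1 = true := by decide +kernel
def k191_5 : chB 191 rq191 5 1 = true := by decide +kernel
def k191_6 : chB 191 rq191 6 6 = true := by decide +kernel
def k191_12 : chB 191 rq191 12 1 = true := by decide +kernel
def k191_13 : chB 191 rq191 13 1 = true := by decide +kernel
def k191_14 : chB 191 rq191 14 7 = true := by decide +kernel
def k191_21 : chB 191 rq191 21 1 = true := by decide +kernel
def k191_22 : chB 191 rq191 22 1 = true := by decide +kernel

end Pool.Agent.U620.K7F
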