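import Pool.Agent.U620.K7F.Msk

set_option autoImplicit false
set_option maxRecDepth 100000
set_option maxHeartbeats 4000000

namespace Pool.Agent.U620.K7F
open Pool.Agent.Y435.T7

def k191_23 : chB 191 rq191 23 42 = true := by decide +kernel
def k191_65 : chB 191 rq191 65 1 = true := by decide +kernel
def k191_66 : chB 191 rq191 66 2 = true := by decide +kernel
def k191_68 : chB 191 rq191 68 1 = true := by decide +kernel
def k191_69 : chB 191 rq191 69 1 = true := by decide +kernel
def k191_70 : chB 191 rq191 70 6 = true := by decide +kernel
def k191_76 : chB 191 rq191 76 1 = true := by decide +kernel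
def k191_77 : chB 191 rq191 77 1 = true := by decide +kernel
def k191_78 : chB 191 rq191 78 7 = true := by decide +kernel
def k191_85 : chB 191 rq191 85 1 = true := by decide +kernel
def k191_86 : chB 191 rq191 86 1 = true := by decide +kernel
def k191_87 : chB 191 rq191 87 42 = true := by decide +kernel
def k191_129 : chB 191 rq191 129 1 = true := by decide +kernel
def k191_130 : chB 191 rq191 130 1 = true := by decide +kernel
def k191_131 : chB 191 rq191 131 1 = true := by decide +kernel
def k191_132 : chB 191 rq191 132 1 = true := by decide +kernel

end Pool.Agent.U620.K7F
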