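import Pool.Agent.U620.K7F.Msk

set_option autoImplicit false
set_option maxRecDepth 100000
set_option maxHeartbeats 4000000

namespace Pool.Agent.U620.K7F
open Pool.Agent.Y435.T7

def k191_133 : chB 191 rq191 133 1 = true := by decide +kernel
def k191_134 : chB 191 rq191 134 1 = true := by decide +kernel
def k191_135 : chB 191 rq191 135 4 = true := by decide +kernel
def k191_139 : chB 191 rq191 139 1 = true := by decide +kernel
def k191_140 : chB 191 rq191 140 1 = true := by decide +kernel
def k191_141 : chB 191 rq191 141 1 = true := by decide +kernel
def k191_142 : chB 191 rq191 142 1 = true := by decide +kernel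
def k191_143 : chB 191 rq191 143 6 = true := by decide +kernel
def k191_149 : chB 191 rq191 149 2 = true := by decide +kernel
def k191_151 : chB 191 rq191 151 10 = true := by decide +kernel
def k191_161 : chB 191 rq191 161 1 = true := by decide +kernel
def k191_162 : chB 191 rq191 162 1 = true := by decide +kernel
def k191_163 : chB 191 rq191 163 1 = true := by decide +kernel
def k191_164 : chB 191 rq191 164 1 = true := by decide +kernel
def k191_165 : chB 191 rq191 165 1 = true := by decide +kernel
def k191_166 : chB 191 rq191 166 1 = true := by decide +kernel

end Pool.Agent.U620.K7F
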