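import Pool.Agent.U620.K7F.Msk

set_option autoImplicit false
set_option maxRecDepth 100000
set_option maxHeartbeats 4000000

namespace Pool.Agent.U620.K7F
open Pool.Agent.Y435.T7

def k191_167 : chB 191 rq191 167 6 = true := by decide +kernel
def k191_173 : chB 191 rq191 173 20 = true := by decide +kernel
def k191_193 : chB 191 rq191 193 1 = true := by decide +kernel
def k191_194 : chB 191 rq191 194 1 = true := by decide +kernel
def k191_195 : chB 191 rq191 195 1 = true := by decide +kernel
def k191_196 : chB 191 rq191 196 1 = true := by decide +kernel
def k191_197 : chB 191 rq191 197 1 = true := by decide +kernel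
def k191_198 : chB 191 rq191 198 1 = true := by decide +kernel
def k191_199 : chB 191 rq191 199 4 = true := by decide +kernel
def k191_203 : chB 191 rq191 203 1 = true := by decide +kernel
def k191_204 : chB 191 rq191 204 1 = true := by decide +kernel
def k191_205 : chB 191 rq191 205 1 = true := by decide +kernel
def k191_206 : chB 191 rq191 206 1 = true := by decide +kernel
def k191_207 : chB 191 rq191 207 6 = true := by decide +kernel
def k191_213 : chB 191 rq191 213 1 = true := by decide +kernel
def k191_214 : chB 191 rq191 214 1 = true := by decide +kernel

end Pool.Agent.U620.K7F
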