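import Pool.Agent.U620.K7F.Msk

set_option autoImplicit false
set_option maxRecDepth 100000
set_option maxHeartbeats 4000000

namespace Pool.Agent.U620.K7F
open Pool.Agent.Y435.T7

def k191_215 : chB 191 rq191 215 10 = true := by decide +kernel
def k191_225 : chB 191 rq191 225 1 = true := by decide +kernel
def k191_226 : chB 191 rq191 226 1 = true := by decide +kernel
def k191_227 : chB 191 rq191 227 1 = true := by decide +kernel
def k191_228 : chB 191 rq191 228 1 = true := by decide +kernel
def k191_229 : chB 191 rq191 229 1 = true := by decide +kernel
def k191_230 : chB 191 rq191 230 1 = true := by decide +kernel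
def k191_231 : chB 191 rq191 231 6 = true := by decide +kernel
def k191_237 : chB 191 rq191 237 148 = true := by decide +kernel
def k191_385 : chB 191 rq191 385 1 = true := by decide +kernel
def k191_386 : chB 191 rq191 386 2 = true := by decide +kernel
def k191_388 : chB 191 rq191 388 1 = true := by decide +kernel
def k191_389 : chB 191 rq191 389 1 = true := by decide +kernel
def k191_390 : chB 191 rq191 390 3 = true := by decide +kernel
def k191_393 : chB 191 rq191 393 1 = true := by decide +kernel
def k191_394 : chB 191 rq191 394 2 = true := by decide +kernel

end Pool.Agent.U620.K7F
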