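import Pool.Agent.U620.K7F.Msk

set_option autoImplicit false
set_option maxRecDepth 100000
set_option maxHeartbeats 4000000

namespace Pool.Agent.U620.K7F
open Pool.Agent.Y435.T7

def k191_450 : chB 191 rq191 450 3 = true := by decide +kernel
def k191_453 : chB 191 rq191 453 4 = true := by decide +kernel
def k191_457 : chB 191 rq191 457 4 = true := by decide +kernel
def k191_461 : chB 191 rq191 461 4 = true := by decide +kernel
def k191_465 : chB 191 rq191 465 1 = true := by decide +kernel
def k191_466 : chB 191 rq191 466 1 = true := by decide +kernel
def k191_467 : chB 191 rq191 467 2 = true := by decide +kernel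
def k191_469 : chB 191 rq191 469 4 = true := by decide +kernel
def k191_473 : chB 191 rq191 473 2 = true := by decide +kernel
def k191_475 : chB 191 rq191 475 2 = true := by decide +kernel
def k191_477 : chB 191 rq191 477 20 = true := by decide +kernel
def k191_497 : chB 191 rq191 497 1 = true := by decide +kernel
def k191_498 : chB 191 rq191 498 7 = true := by decide +kernel
def k191_505 : chB 191 rq191 505 392 = true := by decide +kernel
def k191_897 : chB 191 rq191 897 1 = true := by decide +kernel
def k191_898 : chB 191 rq191 898 2 = true := by decide +kernel

end Pool.Agent.U620.K7F
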