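import Pool.Agent.U620.K7F.Msk

set_option autoImplicit false
set_option maxRecDepth 100000
set_option maxHeartbeats 4000000

namespace Pool.Agent.U620.K7F
open Pool.Agent.Y435.T7

def k191_900 : chB 191 rq191 900 1 = true := by decide +kernel
def k191_901 : chB 191 rq191 901 1 = true := by decide +kernel
def k191_902 : chB 191 rq191 902 6 = true := by decide +kernel
def k191_908 : chB 191 rq191 908 1 = true := by decide +kernel
def k191_909 : chB 191 rq191 909 1 = true := by decide +kernel
def k191_910 : chB 191 rq191 910 7 = true := by decide +kernel
def k191_917 : chB 191 rq191 917 2 = true := by decide +kernel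
def k191_919 : chB 191 rq191 919 42 = true := by decide +kernel
def k191_961 : chB 191 rq191 961 1 = true := by decide +kernel
def k191_962 : chB 191 rq191 962 3 = true := by decide +kernel
def k191_965 : chB 191 rq191 965 8 = true := by decide +kernel
def k191_973 : chB 191 rq191 973 51 = true := by decide +kernel
def k207_0 : chB 207 rq207 0 1 = true := by decide +kernel
def k207_1 : chB 207 rq207 1 1 = true := by decide +kernel
def k207_2 : chB 207 rq207 2 3 = true := by decide +kernel
def k207_5 : chB 207 rq207 5 8 = true := by decide +kernel

end Pool.Agent.U620.K7F
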