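import Pool.Agent.U620.K7F.Msk

set_option autoImplicit false
set_option maxRecDepth 100000
set_option maxHeartbeats 4000000

namespace Pool.Agent.U620.K7F
open Pool.Agent.Y435.T7

def k207_13 : chB 207 rq207 13 6 = true := by decide +kernel
def k207_19 : chB 207 rq207 19 46 = true := by decide +kernel
def k207_65 : chB 207 rq207 65 1 = true := by decide +kernel
def k207_66 : chB 207 rq207 66 3 = true := by decide +kernel
def k207_69 : chB 207 rq207 69 4 = true := by decide +kernel
def k207_73 : chB 207 rq207 73 4 = true := by decide +kernel
def k207_77 : chB 207 rq207 77 4 = true := by decide +kernel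
def k207_81 : chB 207 rq207 81 2 = true := by decide +kernel
def k207_83 : chB 207 rq207 83 110 = true := by decide +kernel
def k207_193 : chB 207 rq207 193 1 = true := by decide +kernel
def k207_194 : chB 207 rq207 194 1 = true := by decide +kernel
def k207_195 : chB 207 rq207 195 2 = true := by decide +kernel
def k207_197 : chB 207 rq207 197 8 = true := by decide +kernel
def k207_205 : chB 207 rq207 205 6 = true := by decide +kernel
def k207_211 : chB 207 rq207 211 14 = true := by decide +kernel
def k207_225 : chB 207 rq207 225 1 = true := by decide +kernel

end Pool.Agent.U620.K7F
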