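import Pool.Agent.U620.K7F.Msk

set_option autoImplicit false
set_option maxRecDepth 100000
set_option maxHeartbeats 4000000

namespace Pool.Agent.U620.K7F
open Pool.Agent.Y435.T7

def k207_226 : chB 207 rq207 226 159 = true := by decide +kernel
def k207_385 : chB 207 rq207 385 1 = true := by decide +kernel
def k207_386 : chB 207 rq207 386 3 = true := by decide +kernel
def k207_389 : chB 207 rq207 389 4 = true := by decide +kernel
def k207_393 : chB 207 rq207 393 4 = true := by decide +kernel
def k207_397 : chB 207 rq207 397 52 = true := by decide +kernel
def k207_449 : chB 207 rq207 449 1 = true := by decide +kernel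
def k207_450 : chB 207 rq207 450 3 = true := by decide +kernel
def k207_453 : chB 207 rq207 453 4 = true := by decide +kernel
def k207_457 : chB 207 rq207 457 4 = true := by decide +kernel
def k207_461 : chB 207 rq207 461 4 = true := by decide +kernel
def k207_465 : chB 207 rq207 465 2 = true := by decide +kernel
def k207_467 : chB 207 rq207 467 494 = true := by decide +kernel
def k207_961 : chB 207 rq207 961 1 = true := by decide +kernel
def k207_962 : chB 207 rq207 962 11 = true := by decide +kernel
def k207_973 : chB 207 rq207 973 51 = true := by decide +kernel

end Pool.Agent.U620.K7F
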