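import Pool.Agent.U620.K7F.Msk

set_option autoImplicit false
set_option maxRecDepth 100000
set_option maxHeartbeats 4000000

namespace Pool.Agent.U620.K7F
open Pool.Agent.Y435.T7

def k221_82 : chB 221 rq221 82 1 = true := by decide +kernel
def k221_83 : chB 221 rq221 83 2 = true := by decide +kernel
def k221_85 : chB 221 rq221 85 4 = true := by decide +kernel
def k221_89 : chB 221 rq221 89 2 = true := by decide +kernel
def k221_91 : chB 221 rq221 91 2 = true := by decide +kernel
def k221_93 : chB 221 rq221 93 4 = true := by decide +kernel
def k221_97 : chB 221 rq221 97 1 = true := by decide +kernel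
def k221_98 : chB 221 rq221 98 1 = true := by decide +kernel
def k221_99 : chB 221 rq221 99 2 = true := by decide +kernel
def k221_101 : chB 221 rq221 101 4 = true := by decide +kernel
def k221_105 : chB 221 rq221 105 1 = true := by decide +kernel
def k221_106 : chB 221 rq221 106 7 = true := by decide +kernel
def k221_113 : chB 221 rq221 113 1 = true := by decide +kernel
def k221_114 : chB 221 rq221 114 31 = true := by decide +kernel
def k221_145 : chB 221 rq221 145 1 = true := by decide +kernel
def k221_146 : chB 221 rq221 146 1 = true := by decide +kernel

end Pool.Agent.U620.K7F
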