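import Pool.Agent.U620.K7F.Msk

set_option autoImplicit false
set_option maxRecDepth 100000
set_option maxHeartbeats 4000000

namespace Pool.Agent.U620.K7F
open Pool.Agent.Y435.T7

def k221_147 : chB 221 rq221 147 2 = true := by decide +kernel
def k221_149 : chB 221 rq221 149 4 = true := by decide +kernel
def k221_153 : chB 221 rq221 153 2 = true := by decide +kernel
def k221_155 : chB 221 rq221 155 2 = true := by decide +kernel
def k221_157 : chB 221 rq221 157 4 = true := by decide +kernel
def k221_161 : chB 221 rq221 161 1 = true := by decide +kernel
def k221_162 : chB 221 rq221 162 3 = true := by decide +kernel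
def k221_165 : chB 221 rq221 165 4 = true := by decide +kernel
def k221_169 : chB 221 rq221 169 1 = true := by decide +kernel
def k221_170 : chB 221 rq221 170 7 = true := by decide +kernel
def k221_177 : chB 221 rq221 177 32 = true := by decide +kernel
def k221_209 : chB 221 rq221 209 2 = true := by decide +kernel
def k221_211 : chB 221 rq221 211 6 = true := by decide +kernel
def k221_217 : chB 221 rq221 217 2 = true := by decide +kernel
def k221_219 : chB 221 rq221 219 14 = true := by decide +kernel
def k221_233 : chB 221 rq221 233 8 = true := by decide +kernel

end Pool.Agent.U620.K7F
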