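import Pool.Agent.U620.K7F.Msk

set_option autoImplicit false
set_option maxRecDepth 100000
set_option maxHeartbeats 4000000

namespace Pool.Agent.U620.K7F
open Pool.Agent.Y435.T7

def k221_549 : chB 221 rq221 549 4 = true := by decide +kernel
def k221_553 : chB 221 rq221 553 8 = true := by decide +kernel
def k221_561 : chB 221 rq221 561 24 = true := by decide +kernel
def k221_585 : chB 221 rq221 585 4 = true := by decide +kernel
def k221_589 : chB 221 rq221 589 4 = true := by decide +kernel
def k221_593 : chB 221 rq221 593 1 = true := by decide +kernel
def k221_594 : chB 221 rq221 594 1 = true := by decide +kernel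
def k221_595 : chB 221 rq221 595 2 = true := by decide +kernel
def k221_597 : chB 221 rq221 597 12 = true := by decide +kernel
def k221_609 : chB 221 rq221 609 1 = true := by decide +kernel
def k221_610 : chB 221 rq221 610 3 = true := by decide +kernel
def k221_613 : chB 221 rq221 613 12 = true := by decide +kernel
def k221_625 : chB 221 rq221 625 1 = true := by decide +kernel
def k221_626 : chB 221 rq221 626 31 = true := by decide +kernel
def k221_657 : chB 221 rq221 657 1 = true := by decide +kernel
def k221_658 : chB 221 rq221 658 1 = true := by decide +kernel

end Pool.Agent.U620.K7F
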