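import Pool.Agent.U620.K7F.Msk

set_option autoImplicit false
set_option maxRecDepth 100000
set_option maxHeartbeats 4000000

namespace Pool.Agent.U620.K7F
open Pool.Agent.Y435.T7

def k221_659 : chB 221 rq221 659 6 = true := by decide +kernel
def k221_665 : chB 221 rq221 665 8 = true := by decide +kernel
def k221_673 : chB 221 rq221 673 1 = true := by decide +kernel
def k221_674 : chB 221 rq221 674 3 = true := by decide +kernel
def k221_677 : chB 221 rq221 677 4 = true := by decide +kernel
def k221_681 : chB 221 rq221 681 104 = true := by decide +kernel
def k221_785 : chB 221 rq221 785 1 = true := by decide +kernel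
def k221_786 : chB 221 rq221 786 2 = true := by decide +kernel
def k221_788 : chB 221 rq221 788 1 = true := by decide +kernel
def k221_789 : chB 221 rq221 789 4 = true := by decide +kernel
def k221_793 : chB 221 rq221 793 231 = true := by decide +kernel
def k223_0 : chB 223 rq223 0 1 = true := by decide +kernel
def k223_1 : chB 223 rq223 1 1 = true := by decide +kernel
def k223_2 : chB 223 rq223 2 1 = true := by decide +kernel
def k223_3 : chB 223 rq223 3 1 = true := by decide +kernel
def k223_4 : chB 223 rq223 4 1 = true := by decide +kernel

end Pool.Agent.U620.K7F
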