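import Pool.Agent.U620.K7F.Msk

set_option autoImplicit false
set_option maxRecDepth 100000
set_option maxHeartbeats 4000000

namespace Pool.Agent.U620.K7F
open Pool.Agent.Y435.T7

def k223_5 : chB 223 rq223 5 1 = true := by decide +kernel
def k223_6 : chB 223 rq223 6 1 = true := by decide +kernel
def k223_7 : chB 223 rq223 7 4 = true := by decide +kernel
def k223_11 : chB 223 rq223 11 2 = true := by decide +kernel
def k223_13 : chB 223 rq223 13 1 = true := by decide +kernel
def k223_14 : chB 223 rq223 14 1 = true := by decide +kernel
def k223_15 : chB 223 rq223 15 4 = true := by decide +kernel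
def k223_19 : chB 223 rq223 19 1 = true := by decide +kernel
def k223_20 : chB 223 rq223 20 3 = true := by decide +kernel
def k223_23 : chB 223 rq223 23 10 = true := by decide +kernel
def k223_33 : chB 223 rq223 33 1 = true := by decide +kernel
def k223_34 : chB 223 rq223 34 1 = true := by decide +kernel
def k223_35 : chB 223 rq223 35 2 = true := by decide +kernel
def k223_37 : chB 223 rq223 37 1 = true := by decide +kernel
def k223_38 : chB 223 rq223 38 7 = true := by decide +kernel
def k223_45 : chB 223 rq223 45 6 = true := by decide +kernel

end Pool.Agent.U620.K7F
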