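import Pool.Agent.U620.K7F.Msk

set_option autoImplicit false
set_option maxRecDepth 100000
set_option maxHeartbeats 4000000

namespace Pool.Agent.U620.K7F
open Pool.Agent.Y435.T7

def k223_51 : chB 223 rq223 51 14 = true := by decide +kernel
def k223_65 : chB 223 rq223 65 1 = true := by decide +kernel
def k223_66 : chB 223 rq223 66 1 = true := by decide +kernel
def k223_67 : chB 223 rq223 67 1 = true := by decide +kernel
def k223_68 : chB 223 rq223 68 1 = true := by decide +kernel
def k223_69 : chB 223 rq223 69 1 = true := by decide +kernel
def k223_70 : chB 223 rq223 70 1 = true := by decide +kernel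
def k223_71 : chB 223 rq223 71 2 = true := by decide +kernel
def k223_73 : chB 223 rq223 73 1 = true := by decide +kernel
def k223_74 : chB 223 rq223 74 1 = true := by decide +kernel
def k223_75 : chB 223 rq223 75 2 = true := by decide +kernel
def k223_77 : chB 223 rq223 77 1 = true := by decide +kernel
def k223_78 : chB 223 rq223 78 1 = true := by decide +kernel
def k223_79 : chB 223 rq223 79 2 = true := by decide +kernel
def k223_81 : chB 223 rq223 81 1 = true := by decide +kernel
def k223_82 : chB 223 rq223 82 1 = true := by decide +kernel

end Pool.Agent.U620.K7F
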