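import Pool.Agent.U620.K7F.Msk

set_option autoImplicit false
set_option maxRecDepth 100000
set_option maxHeartbeats 4000000

namespace Pool.Agent.U620.K7F
open Pool.Agent.Y435.T7

def k223_114 : chB 223 rq223 114 1 = true := by decide +kernel
def k223_115 : chB 223 rq223 115 78 = true := by decide +kernel
def k223_193 : chB 223 rq223 193 1 = true := by decide +kernel
def k223_194 : chB 223 rq223 194 1 = true := by decide +kernel
def k223_195 : chB 223 rq223 195 1 = true := by decide +kernel
def k223_196 : chB 223 rq223 196 1 = true := by decide +kernel
def k223_197 : chB 223 rq223 197 2 = true := by decide +kernel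
def k223_199 : chB 223 rq223 199 4 = true := by decide +kernel
def k223_203 : chB 223 rq223 203 2 = true := by decide +kernel
def k223_205 : chB 223 rq223 205 2 = true := by decide +kernel
def k223_207 : chB 223 rq223 207 4 = true := by decide +kernel
def k223_211 : chB 223 rq223 211 1 = true := by decide +kernel
def k223_212 : chB 223 rq223 212 3 = true := by decide +kernel
def k223_215 : chB 223 rq223 215 10 = true := by decide +kernel
def k223_225 : chB 223 rq223 225 1 = true := by decide +kernel
def k223_226 : chB 223 rq223 226 1 = true := by decide +kernel

end Pool.Agent.U620.K7F
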