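import Pool.Agent.U620.K7F.Msk

set_option autoImplicit false
set_option maxRecDepth 100000
set_option maxHeartbeats 4000000

namespace Pool.Agent.U620.K7F
open Pool.Agent.Y435.T7

def k223_227 : chB 223 rq223 227 1 = true := by decide +kernel
def k223_228 : chB 223 rq223 228 1 = true := by decide +kernel
def k223_229 : chB 223 rq223 229 8 = true := by decide +kernel
def k223_237 : chB 223 rq223 237 6 = true := by decide +kernel
def k223_243 : chB 223 rq223 243 14 = true := by decide +kernel
def k223_257 : chB 223 rq223 257 1 = true := by decide +kernel
def k223_258 : chB 223 rq223 258 1 = true := by decide +kernel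
def k223_259 : chB 223 rq223 259 1 = true := by decide +kernel
def k223_260 : chB 223 rq223 260 1 = true := by decide +kernel
def k223_261 : chB 223 rq223 261 1 = true := by decide +kernel
def k223_262 : chB 223 rq223 262 1 = true := by decide +kernel
def k223_263 : chB 223 rq223 263 2 = true := by decide +kernel
def k223_265 : chB 223 rq223 265 1 = true := by decide +kernel
def k223_266 : chB 223 rq223 266 1 = true := by decide +kernel
def k223_267 : chB 223 rq223 267 2 = true := by decide +kernel
def k223_269 : chB 223 rq223 269 1 = true := by decide +kernel

end Pool.Agent.U620.K7F
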