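import Pool.Agent.U620.K7F.Msk

set_option autoImplicit false
set_option maxRecDepth 100000
set_option maxHeartbeats 4000000

namespace Pool.Agent.U620.K7F
open Pool.Agent.Y435.T7

def k223_270 : chB 223 rq223 270 3 = true := by decide +kernel
def k223_273 : chB 223 rq223 273 1 = true := by decide +kernel
def k223_274 : chB 223 rq223 274 1 = true := by decide +kernel
def k223_275 : chB 223 rq223 275 1 = true := by decide +kernel
def k223_276 : chB 223 rq223 276 1 = true := by decide +kernel
def k223_277 : chB 223 rq223 277 4 = true := by decide +kernel
def k223_281 : chB 223 rq223 281 2 = true := by decide +kernel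
def k223_283 : chB 223 rq223 283 2 = true := by decide +kernel
def k223_285 : chB 223 rq223 285 4 = true := by decide +kernel
def k223_289 : chB 223 rq223 289 1 = true := by decide +kernel
def k223_290 : chB 223 rq223 290 1 = true := by decide +kernel
def k223_291 : chB 223 rq223 291 2 = true := by decide +kernel
def k223_293 : chB 223 rq223 293 4 = true := by decide +kernel
def k223_297 : chB 223 rq223 297 1 = true := by decide +kernel
def k223_298 : chB 223 rq223 298 7 = true := by decide +kernel
def k223_305 : chB 223 rq223 305 16 = true := by decide +kernel

end Pool.Agent.U620.K7F
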