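import Pool.Agent.U620.K7F.Msk

set_option autoImplicit false
set_option maxRecDepth 100000
set_option maxHeartbeats 4000000

namespace Pool.Agent.U620.K7F
open Pool.Agent.Y435.T7

def k223_321 : chB 223 rq223 321 1 = true := by decide +kernel
def k223_322 : chB 223 rq223 322 1 = true := by decide +kernel
def k223_323 : chB 223 rq223 323 1 = true := by decide +kernel
def k223_324 : chB 223 rq223 324 1 = true := by decide +kernel
def k223_325 : chB 223 rq223 325 1 = true := by decide +kernel
def k223_326 : chB 223 rq223 326 1 = true := by decide +kernel
def k223_327 : chB 223 rq223 327 2 = true := by decide +kernel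
def k223_329 : chB 223 rq223 329 1 = true := by decide +kernel
def k223_330 : chB 223 rq223 330 1 = true := by decide +kernel
def k223_331 : chB 223 rq223 331 2 = true := by decide +kernel
def k223_333 : chB 223 rq223 333 1 = true := by decide +kernel
def k223_334 : chB 223 rq223 334 3 = true := by decide +kernel
def k223_337 : chB 223 rq223 337 1 = true := by decide +kernel
def k223_338 : chB 223 rq223 338 1 = true := by decide +kernel
def k223_339 : chB 223 rq223 339 1 = true := by decide +kernel
def k223_340 : chB 223 rq223 340 1 = true := by decide +kernel

end Pool.Agent.U620.K7F
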