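import Pool.Agent.U620.K7F.Msk

set_option autoImplicit false
set_option maxRecDepth 100000
set_option maxHeartbeats 4000000

namespace Pool.Agent.U620.K7F
open Pool.Agent.Y435.T7

def k223_341 : chB 223 rq223 341 2 = true := by decide +kernel
def k223_343 : chB 223 rq223 343 2 = true := by decide +kernel
def k223_345 : chB 223 rq223 345 2 = true := by decide +kernel
def k223_347 : chB 223 rq223 347 2 = true := by decide +kernel
def k223_349 : chB 223 rq223 349 4 = true := by decide +kernel
def k223_353 : chB 223 rq223 353 1 = true := by decide +kernel
def k223_354 : chB 223 rq223 354 1 = true := by decide +kernel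
def k223_355 : chB 223 rq223 355 2 = true := by decide +kernel
def k223_357 : chB 223 rq223 357 1 = true := by decide +kernel
def k223_358 : chB 223 rq223 358 3 = true := by decide +kernel
def k223_361 : chB 223 rq223 361 1 = true := by decide +kernel
def k223_362 : chB 223 rq223 362 3 = true := by decide +kernel
def k223_365 : chB 223 rq223 365 4 = true := by decide +kernel
def k223_369 : chB 223 rq223 369 1 = true := by decide +kernel
def k223_370 : chB 223 rq223 370 1 = true := by decide +kernel
def k223_371 : chB 223 rq223 371 14 = true := by decide +kernel

end Pool.Agent.U620.K7F
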