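import Pool.Agent.U620.K7F.Msk

set_option autoImplicit false
set_option maxRecDepth 100000
set_option maxHeartbeats 4000000

namespace Pool.Agent.U620.K7F
open Pool.Agent.Y435.T7

def k223_385 : chB 223 rq223 385 1 = true := by decide +kernel
def k223_386 : chB 223 rq223 386 1 = true := by decide +kernel
def k223_387 : chB 223 rq223 387 1 = true := by decide +kernel
def k223_388 : chB 223 rq223 388 1 = true := by decide +kernel
def k223_389 : chB 223 rq223 389 2 = true := by decide +kernel
def k223_391 : chB 223 rq223 391 2 = true := by decide +kernel
def k223_393 : chB 223 rq223 393 1 = true := by decide +kernel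
def k223_394 : chB 223 rq223 394 1 = true := by decide +kernel
def k223_395 : chB 223 rq223 395 2 = true := by decide +kernel
def k223_397 : chB 223 rq223 397 2 = true := by decide +kernel
def k223_399 : chB 223 rq223 399 2 = true := by decide +kernel
def k223_401 : chB 223 rq223 401 1 = true := by decide +kernel
def k223_402 : chB 223 rq223 402 1 = true := by decide +kernel
def k223_403 : chB 223 rq223 403 2 = true := by decide +kernel
def k223_405 : chB 223 rq223 405 4 = true := by decide +kernel
def k223_409 : chB 223 rq223 409 2 = true := by decide +kernel

end Pool.Agent.U620.K7F
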