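import Pool.Agent.U620.K7F.Msk

set_option autoImplicit false
set_option maxRecDepth 100000
set_option maxHeartbeats 4000000

namespace Pool.Agent.U620.K7F
open Pool.Agent.Y435.T7

def k223_411 : chB 223 rq223 411 2 = true := by decide +kernel
def k223_413 : chB 223 rq223 413 4 = true := by decide +kernel
def k223_417 : chB 223 rq223 417 1 = true := by decide +kernel
def k223_418 : chB 223 rq223 418 1 = true := by decide +kernel
def k223_419 : chB 223 rq223 419 2 = true := by decide +kernel
def k223_421 : chB 223 rq223 421 4 = true := by decide +kernel
def k223_425 : chB 223 rq223 425 1 = true := by decide +kernel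
def k223_426 : chB 223 rq223 426 3 = true := by decide +kernel
def k223_429 : chB 223 rq223 429 4 = true := by decide +kernel
def k223_433 : chB 223 rq223 433 16 = true := by decide +kernel
def k223_449 : chB 223 rq223 449 2 = true := by decide +kernel
def k223_451 : chB 223 rq223 451 2 = true := by decide +kernel
def k223_453 : chB 223 rq223 453 4 = true := by decide +kernel
def k223_457 : chB 223 rq223 457 2 = true := by decide +kernel
def k223_459 : chB 223 rq223 459 2 = true := by decide +kernel
def k223_461 : chB 223 rq223 461 4 = true := by decide +kernel

end Pool.Agent.U620.K7F
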