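import Pool.Agent.U620.K7F.Msk

set_option autoImplicit false
set_option maxRecDepth 100000
set_option maxHeartbeats 4000000

namespace Pool.Agent.U620.K7F
open Pool.Agent.Y435.T7

def k223_465 : chB 223 rq223 465 2 = true := by decide +kernel
def k223_467 : chB 223 rq223 467 2 = true := by decide +kernel
def k223_469 : chB 223 rq223 469 4 = true := by decide +kernel
def k223_473 : chB 223 rq223 473 2 = true := by decide +kernel
def k223_475 : chB 223 rq223 475 2 = true := by decide +kernel
def k223_477 : chB 223 rq223 477 4 = true := by decide +kernel
def k223_481 : chB 223 rq223 481 1 = true := by decide +kernel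
def k223_482 : chB 223 rq223 482 1 = true := by decide +kernel
def k223_483 : chB 223 rq223 483 2 = true := by decide +kernel
def k223_485 : chB 223 rq223 485 4 = true := by decide +kernel
def k223_489 : chB 223 rq223 489 4 = true := by decide +kernel
def k223_493 : chB 223 rq223 493 4 = true := by decide +kernel
def k223_497 : chB 223 rq223 497 1 = true := by decide +kernel
def k223_498 : chB 223 rq223 498 1 = true := by decide +kernel
def k223_499 : chB 223 rq223 499 270 = true := by decide +kernel
def k223_769 : chB 223 rq223 769 1 = true := by decide +kernel

end Pool.Agent.U620.K7F
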