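import Pool.Agent.U620.K7F.Msk

set_option autoImplicit false
set_option maxRecDepth 100000
set_option maxHeartbeats 4000000

namespace Pool.Agent.U620.K7F
open Pool.Agent.Y435.T7

def k223_770 : chB 223 rq223 770 1 = true := by decide +kernel
def k223_771 : chB 223 rq223 771 1 = true := by decide +kernel
def k223_772 : chB 223 rq223 772 1 = true := by decide +kernel
def k223_773 : chB 223 rq223 773 1 = true := by decide +kernel
def k223_774 : chB 223 rq223 774 1 = true := by decide +kernel
def k223_775 : chB 223 rq223 775 4 = true := by decide +kernel
def k223_779 : chB 223 rq223 779 2 = true := by decide +kernel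
def k223_781 : chB 223 rq223 781 1 = true := by decide +kernel
def k223_782 : chB 223 rq223 782 5 = true := by decide +kernel
def k223_787 : chB 223 rq223 787 1 = true := by decide +kernel
def k223_788 : chB 223 rq223 788 13 = true := by decide +kernel
def k223_801 : chB 223 rq223 801 1 = true := by decide +kernel
def k223_802 : chB 223 rq223 802 1 = true := by decide +kernel
def k223_803 : chB 223 rq223 803 2 = true := by decide +kernel
def k223_805 : chB 223 rq223 805 28 = true := by decide +kernel
def k223_833 : chB 223 rq223 833 1 = true := by decide +kernel

end Pool.Agent.U620.K7F
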