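import Pool.Agent.U620.K7F.Msk

set_option autoImplicit false
set_option maxRecDepth 100000
set_option maxHeartbeats 4000000

namespace Pool.Agent.U620.K7F
open Pool.Agent.Y435.T7

def k223_834 : chB 223 rq223 834 1 = true := by decide +kernel
def k223_835 : chB 223 rq223 835 1 = true := by decide +kernel
def k223_836 : chB 223 rq223 836 1 = true := by decide +kernel
def k223_837 : chB 223 rq223 837 1 = true := by decide +kernel
def k223_838 : chB 223 rq223 838 1 = true := by decide +kernel
def k223_839 : chB 223 rq223 839 2 = true := by decide +kernel
def k223_841 : chB 223 rq223 841 2 = true := by decide +kernel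
def k223_843 : chB 223 rq223 843 2 = true := by decide +kernel
def k223_845 : chB 223 rq223 845 4 = true := by decide +kernel
def k223_849 : chB 223 rq223 849 1 = true := by decide +kernel
def k223_850 : chB 223 rq223 850 1 = true := by decide +kernel
def k223_851 : chB 223 rq223 851 1 = true := by decide +kernel
def k223_852 : chB 223 rq223 852 1 = true := by decide +kernel
def k223_853 : chB 223 rq223 853 2 = true := by decide +kernel
def k223_855 : chB 223 rq223 855 6 = true := by decide +kernel
def k223_861 : chB 223 rq223 861 4 = true := by decide +kernel

end Pool.Agent.U620.K7F
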