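import Pool.Agent.U620.K7F.Msk

set_option autoImplicit false
set_option maxRecDepth 100000
set_option maxHeartbeats 4000000

namespace Pool.Agent.U620.K7F
open Pool.Agent.Y435.T7

def k223_865 : chB 223 rq223 865 1 = true := by decide +kernel
def k223_866 : chB 223 rq223 866 1 = true := by decide +kernel
def k223_867 : chB 223 rq223 867 2 = true := by decide +kernel
def k223_869 : chB 223 rq223 869 1 = true := by decide +kernel
def k223_870 : chB 223 rq223 870 3 = true := by decide +kernel
def k223_873 : chB 223 rq223 873 8 = true := by decide +kernel
def k223_881 : chB 223 rq223 881 80 = true := by decide +kernel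
def k223_961 : chB 223 rq223 961 2 = true := by decide +kernel
def k223_963 : chB 223 rq223 963 10 = true := by decide +kernel
def k223_973 : chB 223 rq223 973 6 = true := by decide +kernel
def k223_979 : chB 223 rq223 979 14 = true := by decide +kernel
def k223_993 : chB 223 rq223 993 2 = true := by decide +kernel
def k223_995 : chB 223 rq223 995 10 = true := by decide +kernel
def k223_1005 : chB 223 rq223 1005 19 = true := by decide +kernel
def k254_0 : chB 254 rq254 0 1 = true := by decide +kernel
def k254_1 : chB 254 rq254 1 1 = true := by decide +kernel

end Pool.Agent.U620.K7F
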