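import Pool.Agent.U620.K7F.Msk

set_option autoImplicit false
set_option maxRecDepth 100000
set_option maxHeartbeats 4000000

namespace Pool.Agent.U620.K7F
open Pool.Agent.Y435.T7

def k254_534 : chB 254 rq254 534 1 = true := by decide +kernel
def k254_535 : chB 254 rq254 535 1 = true := by decide +kernel
def k254_536 : chB 254 rq254 536 1 = true := by decide +kernel
def k254_537 : chB 254 rq254 537 2 = true := by decide +kernel
def k254_539 : chB 254 rq254 539 2 = true := by decide +kernel
def k254_541 : chB 254 rq254 541 2 = true := by decide +kernel
def k254_543 : chB 254 rq254 543 18 = true := by decide +kernel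
def k254_561 : chB 254 rq254 561 1 = true := by decide +kernel
def k254_562 : chB 254 rq254 562 2 = true := by decide +kernel
def k254_564 : chB 254 rq254 564 1 = true := by decide +kernel
def k254_565 : chB 254 rq254 565 4 = true := by decide +kernel
def k254_569 : chB 254 rq254 569 16 = true := by decide +kernel
def k254_585 : chB 254 rq254 585 4 = true := by decide +kernel
def k254_589 : chB 254 rq254 589 4 = true := by decide +kernel
def k254_593 : chB 254 rq254 593 1 = true := by decide +kernel
def k254_594 : chB 254 rq254 594 1 = true := by decide +kernel

end Pool.Agent.U620.K7F
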