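import Pool.Agent.U620.K7F.Msk

set_option autoImplicit false
set_option maxRecDepth 100000
set_option maxHeartbeats 4000000

namespace Pool.Agent.U620.K7F
open Pool.Agent.Y435.T7

def k254_677 : chB 254 rq254 677 1 = true := by decide +kernel
def k254_678 : chB 254 rq254 678 2 = true := by decide +kernel
def k254_680 : chB 254 rq254 680 1 = true := by decide +kernel
def k254_681 : chB 254 rq254 681 1 = true := by decide +kernel
def k254_682 : chB 254 rq254 682 3 = true := by decide +kernel
def k254_685 : chB 254 rq254 685 4 = true := by decide +kernel
def k254_689 : chB 254 rq254 689 2 = true := by decide +kernel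
def k254_691 : chB 254 rq254 691 1 = true := by decide +kernel
def k254_692 : chB 254 rq254 692 253 = true := by decide +kernel
def k254_945 : chB 254 rq254 945 79 = true := by decide +kernel
def k255_0 : chB 255 rq255 0 1 = true := by decide +kernel
def k255_1 : chB 255 rq255 1 1 = true := by decide +kernel
def k255_2 : chB 255 rq255 2 2 = true := by decide +kernel
def k255_4 : chB 255 rq255 4 1 = true := by decide +kernel
def k255_5 : chB 255 rq255 5 1 = true := by decide +kernel
def k255_6 : chB 255 rq255 6 2 = true := by decide +kernel

end Pool.Agent.U620.K7F
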