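import Pool.Agent.U620.K7F.Msk

set_option autoImplicit false
set_option maxRecDepth 100000
set_option maxHeartbeats 4000000

namespace Pool.Agent.U620.K7F
open Pool.Agent.Y435.T7

def k255_8 : chB 255 rq255 8 1 = true := by decide +kernel
def k255_9 : chB 255 rq255 9 1 = true := by decide +kernel
def k255_10 : chB 255 rq255 10 2 = true := by decide +kernel
def k255_12 : chB 255 rq255 12 1 = true := by decide +kernel
def k255_13 : chB 255 rq255 13 1 = true := by decide +kernel
def k255_14 : chB 255 rq255 14 2 = true := by decide +kernel
def k255_16 : chB 255 rq255 16 1 = true := by decide +kernel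
def k255_17 : chB 255 rq255 17 1 = true := by decide +kernel
def k255_18 : chB 255 rq255 18 1 = true := by decide +kernel
def k255_19 : chB 255 rq255 19 1 = true := by decide +kernel
def k255_20 : chB 255 rq255 20 1 = true := by decide +kernel
def k255_21 : chB 255 rq255 21 1 = true := by decide +kernel
def k255_22 : chB 255 rq255 22 1 = true := by decide +kernel
def k255_23 : chB 255 rq255 23 1 = true := by decide +kernel
def k255_24 : chB 255 rq255 24 1 = true := by decide +kernel
def k255_25 : chB 255 rq255 25 1 = true := by decide +kernel

end Pool.Agent.U620.K7F
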