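import Pool.Agent.U620.K7F.Msk

set_option autoImplicit false
set_option maxRecDepth 100000
set_option maxHeartbeats 4000000

namespace Pool.Agent.U620.K7F
open Pool.Agent.Y435.T7

def k255_26 : chB 255 rq255 26 1 = true := by decide +kernel
def k255_27 : chB 255 rq255 27 1 = true := by decide +kernel
def k255_28 : chB 255 rq255 28 1 = true := by decide +kernel
def k255_29 : chB 255 rq255 29 1 = true := by decide +kernel
def k255_30 : chB 255 rq255 30 1 = true := by decide +kernel
def k255_31 : chB 255 rq255 31 18 = true := by decide +kernel
def k255_49 : chB 255 rq255 49 1 = true := by decide +kernel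
def k255_50 : chB 255 rq255 50 2 = true := by decide +kernel
def k255_52 : chB 255 rq255 52 1 = true := by decide +kernel
def k255_53 : chB 255 rq255 53 1 = true := by decide +kernel
def k255_54 : chB 255 rq255 54 3 = true := by decide +kernel
def k255_57 : chB 255 rq255 57 4 = true := by decide +kernel
def k255_61 : chB 255 rq255 61 12 = true := by decide +kernel
def k255_73 : chB 255 rq255 73 1 = true := by decide +kernel
def k255_74 : chB 255 rq255 74 2 = true := by decide +kernel
def k255_76 : chB 255 rq255 76 1 = true := by decide +kernel

end Pool.Agent.U620.K7F
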