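import Pool.Agent.U620.K7F.Msk

set_option autoImplicit false
set_option maxRecDepth 100000
set_option maxHeartbeats 4000000

namespace Pool.Agent.U620.K7F
open Pool.Agent.Y435.T7

def k255_77 : chB 255 rq255 77 1 = true := by decide +kernel
def k255_78 : chB 255 rq255 78 2 = true := by decide +kernel
def k255_80 : chB 255 rq255 80 1 = true := by decide +kernel
def k255_81 : chB 255 rq255 81 1 = true := by decide +kernel
def k255_82 : chB 255 rq255 82 1 = true := by decide +kernel
def k255_83 : chB 255 rq255 83 1 = true := by decide +kernel
def k255_84 : chB 255 rq255 84 1 = true := by decide +kernel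
def k255_85 : chB 255 rq255 85 1 = true := by decide +kernel
def k255_86 : chB 255 rq255 86 1 = true := by decide +kernel
def k255_87 : chB 255 rq255 87 1 = true := by decide +kernel
def k255_88 : chB 255 rq255 88 1 = true := by decide +kernel
def k255_89 : chB 255 rq255 89 1 = true := by decide +kernel
def k255_90 : chB 255 rq255 90 1 = true := by decide +kernel
def k255_91 : chB 255 rq255 91 1 = true := by decide +kernel
def k255_92 : chB 255 rq255 92 1 = true := by decide +kernel
def k255_93 : chB 255 rq255 93 1 = true := by decide +kernel

end Pool.Agent.U620.K7F
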