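import Pool.Agent.U620.K7F.Msk

set_option autoImplicit false
set_option maxRecDepth 100000
set_option maxHeartbeats 4000000

namespace Pool.Agent.U620.K7F
open Pool.Agent.Y435.T7

def k255_94 : chB 255 rq255 94 1 = true := by decide +kernel
def k255_95 : chB 255 rq255 95 18 = true := by decide +kernel
def k255_113 : chB 255 rq255 113 1 = true := by decide +kernel
def k255_114 : chB 255 rq255 114 2 = true := by decide +kernel
def k255_116 : chB 255 rq255 116 1 = true := by decide +kernel
def k255_117 : chB 255 rq255 117 1 = true := by decide +kernel
def k255_118 : chB 255 rq255 118 3 = true := by decide +kernel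
def k255_121 : chB 255 rq255 121 1 = true := by decide +kernel
def k255_122 : chB 255 rq255 122 3 = true := by decide +kernel
def k255_125 : chB 255 rq255 125 20 = true := by decide +kernel
def k255_145 : chB 255 rq255 145 1 = true := by decide +kernel
def k255_146 : chB 255 rq255 146 1 = true := by decide +kernel
def k255_147 : chB 255 rq255 147 1 = true := by decide +kernel
def k255_148 : chB 255 rq255 148 1 = true := by decide +kernel
def k255_149 : chB 255 rq255 149 1 = true := by decide +kernel
def k255_150 : chB 255 rq255 150 1 = true := by decide +kernel

end Pool.Agent.U620.K7F
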