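import Pool.Agent.U620.K7F.Msk

set_option autoImplicit false
set_option maxRecDepth 100000
set_option maxHeartbeats 4000000

namespace Pool.Agent.U620.K7F
open Pool.Agent.Y435.T7

def k255_151 : chB 255 rq255 151 2 = true := by decide +kernel
def k255_153 : chB 255 rq255 153 1 = true := by decide +kernel
def k255_154 : chB 255 rq255 154 1 = true := by decide +kernel
def k255_155 : chB 255 rq255 155 1 = true := by decide +kernel
def k255_156 : chB 255 rq255 156 1 = true := by decide +kernel
def k255_157 : chB 255 rq255 157 2 = true := by decide +kernel
def k255_159 : chB 255 rq255 159 2 = true := by decide +kernel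
def k255_161 : chB 255 rq255 161 1 = true := by decide +kernel
def k255_162 : chB 255 rq255 162 2 = true := by decide +kernel
def k255_164 : chB 255 rq255 164 1 = true := by decide +kernel
def k255_165 : chB 255 rq255 165 1 = true := by decide +kernel
def k255_166 : chB 255 rq255 166 2 = true := by decide +kernel
def k255_168 : chB 255 rq255 168 1 = true := by decide +kernel
def k255_169 : chB 255 rq255 169 1 = true := by decide +kernel
def k255_170 : chB 255 rq255 170 1 = true := by decide +kernel
def k255_171 : chB 255 rq255 171 1 = true := by decide +kernel

end Pool.Agent.U620.K7F
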