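import Pool.Agent.U620.K7F.Msk

set_option autoImplicit false
set_option maxRecDepth 100000
set_option maxHeartbeats 4000000

namespace Pool.Agent.U620.K7F
open Pool.Agent.Y435.T7

def k255_172 : chB 255 rq255 172 1 = true := by decide +kernel
def k255_173 : chB 255 rq255 173 1 = true := by decide +kernel
def k255_174 : chB 255 rq255 174 1 = true := by decide +kernel
def k255_175 : chB 255 rq255 175 2 = true := by decide +kernel
def k255_177 : chB 255 rq255 177 1 = true := by decide +kernel
def k255_178 : chB 255 rq255 178 1 = true := by decide +kernel
def k255_179 : chB 255 rq255 179 1 = true := by decide +kernel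
def k255_180 : chB 255 rq255 180 1 = true := by decide +kernel
def k255_181 : chB 255 rq255 181 2 = true := by decide +kernel
def k255_183 : chB 255 rq255 183 2 = true := by decide +kernel
def k255_185 : chB 255 rq255 185 2 = true := by decide +kernel
def k255_187 : chB 255 rq255 187 2 = true := by decide +kernel
def k255_189 : chB 255 rq255 189 28 = true := by decide +kernel
def k255_217 : chB 255 rq255 217 1 = true := by decide +kernel
def k255_218 : chB 255 rq255 218 1 = true := by decide +kernel
def k255_219 : chB 255 rq255 219 1 = true := by decide +kernel

end Pool.Agent.U620.K7F
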