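import Pool.Agent.U620.K7F.Msk

set_option autoImplicit false
set_option maxRecDepth 100000
set_option maxHeartbeats 4000000

namespace Pool.Agent.U620.K7F
open Pool.Agent.Y435.T7

def k255_220 : chB 255 rq255 220 1 = true := by decide +kernel
def k255_221 : chB 255 rq255 221 1 = true := by decide +kernel
def k255_222 : chB 255 rq255 222 1 = true := by decide +kernel
def k255_223 : chB 255 rq255 223 10 = true := by decide +kernel
def k255_233 : chB 255 rq255 233 1 = true := by decide +kernel
def k255_234 : chB 255 rq255 234 2 = true := by decide +kernel
def k255_236 : chB 255 rq255 236 1 = true := by decide +kernel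
def k255_237 : chB 255 rq255 237 1 = true := by decide +kernel
def k255_238 : chB 255 rq255 238 3 = true := by decide +kernel
def k255_241 : chB 255 rq255 241 1 = true := by decide +kernel
def k255_242 : chB 255 rq255 242 1 = true := by decide +kernel
def k255_243 : chB 255 rq255 243 1 = true := by decide +kernel
def k255_244 : chB 255 rq255 244 1 = true := by decide +kernel
def k255_245 : chB 255 rq255 245 1 = true := by decide +kernel
def k255_246 : chB 255 rq255 246 1 = true := by decide +kernel
def k255_247 : chB 255 rq255 247 2 = true := by decide +kernel

end Pool.Agent.U620.K7F
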