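import Pool.Agent.U620.K7F.Msk

set_option autoImplicit false
set_option maxRecDepth 100000
set_option maxHeartbeats 4000000

namespace Pool.Agent.U620.K7F
open Pool.Agent.Y435.T7

def k255_249 : chB 255 rq255 249 1 = true := by decide +kernel
def k255_250 : chB 255 rq255 250 1 = true := by decide +kernel
def k255_251 : chB 255 rq255 251 2 = true := by decide +kernel
def k255_253 : chB 255 rq255 253 180 = true := by decide +kernel
def k255_433 : chB 255 rq255 433 1 = true := by decide +kernel
def k255_434 : chB 255 rq255 434 2 = true := by decide +kernel
def k255_436 : chB 255 rq255 436 1 = true := by decide +kernel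
def k255_437 : chB 255 rq255 437 4 = true := by decide +kernel
def k255_441 : chB 255 rq255 441 1 = true := by decide +kernel
def k255_442 : chB 255 rq255 442 3 = true := by decide +kernel
def k255_445 : chB 255 rq255 445 60 = true := by decide +kernel
def k255_505 : chB 255 rq255 505 1 = true := by decide +kernel
def k255_506 : chB 255 rq255 506 3 = true := by decide +kernel
def k255_509 : chB 255 rq255 509 4 = true := by decide +kernel
def k255_513 : chB 255 rq255 513 1 = true := by decide +kernel
def k255_514 : chB 255 rq255 514 2 = true := by decide +kernel

end Pool.Agent.U620.K7F
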