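import Pool.Agent.U620.K7F.Msk

set_option autoImplicit false
set_option maxRecDepth 100000
set_option maxHeartbeats 4000000

namespace Pool.Agent.U620.K7F
open Pool.Agent.Y435.T7

def k255_516 : chB 255 rq255 516 1 = true := by decide +kernel
def k255_517 : chB 255 rq255 517 1 = true := by decide +kernel
def k255_518 : chB 255 rq255 518 2 = true := by decide +kernel
def k255_520 : chB 255 rq255 520 1 = true := by decide +kernel
def k255_521 : chB 255 rq255 521 1 = true := by decide +kernel
def k255_522 : chB 255 rq255 522 2 = true := by decide +kernel
def k255_524 : chB 255 rq255 524 1 = true := by decide +kernel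
def k255_525 : chB 255 rq255 525 1 = true := by decide +kernel
def k255_526 : chB 255 rq255 526 2 = true := by decide +kernel
def k255_528 : chB 255 rq255 528 1 = true := by decide +kernel
def k255_529 : chB 255 rq255 529 1 = true := by decide +kernel
def k255_530 : chB 255 rq255 530 1 = true := by decide +kernel
def k255_531 : chB 255 rq255 531 1 = true := by decide +kernel
def k255_532 : chB 255 rq255 532 1 = true := by decide +kernel
def k255_533 : chB 255 rq255 533 1 = true := by decide +kernel
def k255_534 : chB 255 rq255 534 1 = true := by decide +kernel

end Pool.Agent.U620.K7F
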