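import Pool.Agent.U620.K7F.Msk

set_option autoImplicit false
set_option maxRecDepth 100000
set_option maxHeartbeats 4000000

namespace Pool.Agent.U620.K7F
open Pool.Agent.Y435.T7

def k255_535 : chB 255 rq255 535 1 = true := by decide +kernel
def k255_536 : chB 255 rq255 536 1 = true := by decide +kernel
def k255_537 : chB 255 rq255 537 1 = true := by decide +kernel
def k255_538 : chB 255 rq255 538 1 = true := by decide +kernel
def k255_539 : chB 255 rq255 539 2 = true := by decide +kernel
def k255_541 : chB 255 rq255 541 2 = true := by decide +kernel
def k255_543 : chB 255 rq255 543 18 = true := by decide +kernel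
def k255_561 : chB 255 rq255 561 1 = true := by decide +kernel
def k255_562 : chB 255 rq255 562 2 = true := by decide +kernel
def k255_564 : chB 255 rq255 564 1 = true := by decide +kernel
def k255_565 : chB 255 rq255 565 4 = true := by decide +kernel
def k255_569 : chB 255 rq255 569 16 = true := by decide +kernel
def k255_585 : chB 255 rq255 585 1 = true := by decide +kernel
def k255_586 : chB 255 rq255 586 2 = true := by decide +kernel
def k255_588 : chB 255 rq255 588 1 = true := by decide +kernel
def k255_589 : chB 255 rq255 589 1 = true := by decide +kernel

end Pool.Agent.U620.K7F
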