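import Pool.Agent.U620.K7F.Msk

set_option autoImplicit false
set_option maxRecDepth 100000
set_option maxHeartbeats 4000000

namespace Pool.Agent.U620.K7F
open Pool.Agent.Y435.T7

def k255_626 : chB 255 rq255 626 2 = true := by decide +kernel
def k255_628 : chB 255 rq255 628 1 = true := by decide +kernel
def k255_629 : chB 255 rq255 629 1 = true := by decide +kernel
def k255_630 : chB 255 rq255 630 3 = true := by decide +kernel
def k255_633 : chB 255 rq255 633 4 = true := by decide +kernel
def k255_637 : chB 255 rq255 637 20 = true := by decide +kernel
def k255_657 : chB 255 rq255 657 1 = true := by decide +kernel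
def k255_658 : chB 255 rq255 658 1 = true := by decide +kernel
def k255_659 : chB 255 rq255 659 1 = true := by decide +kernel
def k255_660 : chB 255 rq255 660 1 = true := by decide +kernel
def k255_661 : chB 255 rq255 661 1 = true := by decide +kernel
def k255_662 : chB 255 rq255 662 1 = true := by decide +kernel
def k255_663 : chB 255 rq255 663 2 = true := by decide +kernel
def k255_665 : chB 255 rq255 665 1 = true := by decide +kernel
def k255_666 : chB 255 rq255 666 1 = true := by decide +kernel
def k255_667 : chB 255 rq255 667 2 = true := by decide +kernel

end Pool.Agent.U620.K7F
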