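import Pool.Agent.U620.K7F.Msk

set_option autoImplicit false
set_option maxRecDepth 100000
set_option maxHeartbeats 4000000

namespace Pool.Agent.U620.K7F
open Pool.Agent.Y435.T7

def k255_669 : chB 255 rq255 669 2 = true := by decide +kernel
def k255_671 : chB 255 rq255 671 2 = true := by decide +kernel
def k255_673 : chB 255 rq255 673 1 = true := by decide +kernel
def k255_674 : chB 255 rq255 674 2 = true := by decide +kernel
def k255_676 : chB 255 rq255 676 1 = true := by decide +kernel
def k255_677 : chB 255 rq255 677 1 = true := by decide +kernel
def k255_678 : chB 255 rq255 678 2 = true := by decide +kernel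
def k255_680 : chB 255 rq255 680 1 = true := by decide +kernel
def k255_681 : chB 255 rq255 681 1 = true := by decide +kernel
def k255_682 : chB 255 rq255 682 1 = true := by decide +kernel
def k255_683 : chB 255 rq255 683 1 = true := by decide +kernel
def k255_684 : chB 255 rq255 684 1 = true := by decide +kernel
def k255_685 : chB 255 rq255 685 1 = true := by decide +kernel
def k255_686 : chB 255 rq255 686 1 = true := by decide +kernel
def k255_687 : chB 255 rq255 687 2 = true := by decide +kernel
def k255_689 : chB 255 rq255 689 1 = true := by decide +kernel

end Pool.Agent.U620.K7F
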