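import Pool.Agent.U620.K7F.Msk

set_option autoImplicit false
set_option maxRecDepth 100000
set_option maxHeartbeats 4000000

namespace Pool.Agent.U620.K7F
open Pool.Agent.Y435.T7

def k255_690 : chB 255 rq255 690 1 = true := by decide +kernel
def k255_691 : chB 255 rq255 691 1 = true := by decide +kernel
def k255_692 : chB 255 rq255 692 1 = true := by decide +kernel
def k255_693 : chB 255 rq255 693 4 = true := by decide +kernel
def k255_697 : chB 255 rq255 697 32 = true := by decide +kernel
def k255_729 : chB 255 rq255 729 2 = true := by decide +kernel
def k255_731 : chB 255 rq255 731 2 = true := by decide +kernel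
def k255_733 : chB 255 rq255 733 2 = true := by decide +kernel
def k255_735 : chB 255 rq255 735 10 = true := by decide +kernel
def k255_745 : chB 255 rq255 745 1 = true := by decide +kernel
def k255_746 : chB 255 rq255 746 2 = true := by decide +kernel
def k255_748 : chB 255 rq255 748 1 = true := by decide +kernel
def k255_749 : chB 255 rq255 749 1 = true := by decide +kernel
def k255_750 : chB 255 rq255 750 3 = true := by decide +kernel
def k255_753 : chB 255 rq255 753 1 = true := by decide +kernel
def k255_754 : chB 255 rq255 754 1 = true := by decide +kernel

end Pool.Agent.U620.K7F
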