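import Pool.Agent.U620.K7F.Msk

set_option autoImplicit false
set_option maxRecDepth 100000
set_option maxHeartbeats 4000000

namespace Pool.Agent.U620.K7F
open Pool.Agent.Y435.T7

def k255_755 : chB 255 rq255 755 1 = true := by decide +kernel
def k255_756 : chB 255 rq255 756 1 = true := by decide +kernel
def k255_757 : chB 255 rq255 757 2 = true := by decide +kernel
def k255_759 : chB 255 rq255 759 2 = true := by decide +kernel
def k255_761 : chB 255 rq255 761 4 = true := by decide +kernel
def k255_765 : chB 255 rq255 765 180 = true := by decide +kernel
def k255_945 : chB 255 rq255 945 1 = true := by decide +kernel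
def k255_946 : chB 255 rq255 946 2 = true := by decide +kernel
def k255_948 : chB 255 rq255 948 1 = true := by decide +kernel
def k255_949 : chB 255 rq255 949 4 = true := by decide +kernel
def k255_953 : chB 255 rq255 953 64 = true := by decide +kernel
def k255_1017 : chB 255 rq255 1017 7 = true := by decide +kernel
def k495_0 : chB 495 rq495 0 1 = true := by decide +kernel
def k495_1 : chB 495 rq495 1 1 = true := by decide +kernel
def k495_2 : chB 495 rq495 2 1 = true := by decide +kernel
def k495_3 : chB 495 rq495 3 1 = true := by decide +kernel

end Pool.Agent.U620.K7F
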