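import Pool.Agent.U620.K7F.Msk

set_option autoImplicit false
set_option maxRecDepth 100000
set_option maxHeartbeats 4000000

namespace Pool.Agent.U620.K7F
open Pool.Agent.Y435.T7

def k495_4 : chB 495 rq495 4 3 = true := by decide +kernel
def k495_7 : chB 495 rq495 7 1 = true := by decide +kernel
def k495_8 : chB 495 rq495 8 4 = true := by decide +kernel
def k495_12 : chB 495 rq495 12 1 = true := by decide +kernel
def k495_13 : chB 495 rq495 13 1 = true := by decide +kernel
def k495_14 : chB 495 rq495 14 1 = true := by decide +kernel
def k495_15 : chB 495 rq495 15 16 = true := by decide +kernel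
def k495_31 : chB 495 rq495 31 3 = true := by decide +kernel
def k495_34 : chB 495 rq495 34 2 = true := by decide +kernel
def k495_36 : chB 495 rq495 36 10 = true := by decide +kernel
def k495_46 : chB 495 rq495 46 19 = true := by decide +kernel
def k495_65 : chB 495 rq495 65 1 = true := by decide +kernel
def k495_66 : chB 495 rq495 66 1 = true := by decide +kernel
def k495_67 : chB 495 rq495 67 1 = true := by decide +kernel
def k495_68 : chB 495 rq495 68 1 = true := by decide +kernel
def k495_69 : chB 495 rq495 69 1 = true := by decide +kernel

end Pool.Agent.U620.K7F
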