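import Pool.Agent.U620.K7F.Msk

set_option autoImplicit false
set_option maxRecDepth 100000
set_option maxHeartbeats 4000000

namespace Pool.Agent.U620.K7F
open Pool.Agent.Y435.T7

def k495_70 : chB 495 rq495 70 1 = true := by decide +kernel
def k495_71 : chB 495 rq495 71 1 = true := by decide +kernel
def k495_72 : chB 495 rq495 72 3 = true := by decide +kernel
def k495_75 : chB 495 rq495 75 1 = true := by decide +kernel
def k495_76 : chB 495 rq495 76 1 = true := by decide +kernel
def k495_77 : chB 495 rq495 77 1 = true := by decide +kernel
def k495_78 : chB 495 rq495 78 1 = true := by decide +kernel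
def k495_79 : chB 495 rq495 79 6 = true := by decide +kernel
def k495_85 : chB 495 rq495 85 1 = true := by decide +kernel
def k495_86 : chB 495 rq495 86 1 = true := by decide +kernel
def k495_87 : chB 495 rq495 87 8 = true := by decide +kernel
def k495_95 : chB 495 rq495 95 2 = true := by decide +kernel
def k495_97 : chB 495 rq495 97 1 = true := by decide +kernel
def k495_98 : chB 495 rq495 98 1 = true := by decide +kernel
def k495_99 : chB 495 rq495 99 1 = true := by decide +kernel
def k495_100 : chB 495 rq495 100 1 = true := by decide +kernel

end Pool.Agent.U620.K7F
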