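import Pool.Agent.U620.K7F.Msk

set_option autoImplicit false
set_option maxRecDepth 100000
set_option maxHeartbeats 4000000

namespace Pool.Agent.U620.K7F
open Pool.Agent.Y435.T7

def k495_101 : chB 495 rq495 101 1 = true := by decide +kernel
def k495_102 : chB 495 rq495 102 1 = true := by decide +kernel
def k495_103 : chB 495 rq495 103 4 = true := by decide +kernel
def k495_107 : chB 495 rq495 107 2 = true := by decide +kernel
def k495_109 : chB 495 rq495 109 1 = true := by decide +kernel
def k495_110 : chB 495 rq495 110 7 = true := by decide +kernel
def k495_117 : chB 495 rq495 117 76 = true := by decide +kernel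
def k495_193 : chB 495 rq495 193 1 = true := by decide +kernel
def k495_194 : chB 495 rq495 194 1 = true := by decide +kernel
def k495_195 : chB 495 rq495 195 1 = true := by decide +kernel
def k495_196 : chB 495 rq495 196 3 = true := by decide +kernel
def k495_199 : chB 495 rq495 199 1 = true := by decide +kernel
def k495_200 : chB 495 rq495 200 3 = true := by decide +kernel
def k495_203 : chB 495 rq495 203 1 = true := by decide +kernel
def k495_204 : chB 495 rq495 204 1 = true := by decide +kernel
def k495_205 : chB 495 rq495 205 1 = true := by decide +kernel

end Pool.Agent.U620.K7F
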