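import Pool.Agent.U620.K7F.Msk

set_option autoImplicit false
set_option maxRecDepth 100000
set_option maxHeartbeats 4000000

namespace Pool.Agent.U620.K7F
open Pool.Agent.Y435.T7

def k495_206 : chB 495 rq495 206 1 = true := by decide +kernel
def k495_207 : chB 495 rq495 207 16 = true := by decide +kernel
def k495_223 : chB 495 rq495 223 2 = true := by decide +kernel
def k495_225 : chB 495 rq495 225 1 = true := by decide +kernel
def k495_226 : chB 495 rq495 226 1 = true := by decide +kernel
def k495_227 : chB 495 rq495 227 1 = true := by decide +kernel
def k495_228 : chB 495 rq495 228 3 = true := by decide +kernel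
def k495_231 : chB 495 rq495 231 4 = true := by decide +kernel
def k495_235 : chB 495 rq495 235 2 = true := by decide +kernel
def k495_237 : chB 495 rq495 237 1 = true := by decide +kernel
def k495_238 : chB 495 rq495 238 83 = true := by decide +kernel
def k495_321 : chB 495 rq495 321 1 = true := by decide +kernel
def k495_322 : chB 495 rq495 322 1 = true := by decide +kernel
def k495_323 : chB 495 rq495 323 1 = true := by decide +kernel
def k495_324 : chB 495 rq495 324 1 = true := by decide +kernel
def k495_325 : chB 495 rq495 325 1 = true := by decide +kernel

end Pool.Agent.U620.K7F
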