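import Pool.Agent.U620.K7F.Msk

set_option autoImplicit false
set_option maxRecDepth 100000
set_option maxHeartbeats 4000000

namespace Pool.Agent.U620.K7F
open Pool.Agent.Y435.T7

def k495_326 : chB 495 rq495 326 1 = true := by decide +kernel
def k495_327 : chB 495 rq495 327 3 = true := by decide +kernel
def k495_330 : chB 495 rq495 330 2 = true := by decide +kernel
def k495_332 : chB 495 rq495 332 1 = true := by decide +kernel
def k495_333 : chB 495 rq495 333 1 = true := by decide +kernel
def k495_334 : chB 495 rq495 334 1 = true := by decide +kernel
def k495_335 : chB 495 rq495 335 2 = true := by decide +kernel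
def k495_337 : chB 495 rq495 337 1 = true := by decide +kernel
def k495_338 : chB 495 rq495 338 1 = true := by decide +kernel
def k495_339 : chB 495 rq495 339 1 = true := by decide +kernel
def k495_340 : chB 495 rq495 340 1 = true := by decide +kernel
def k495_341 : chB 495 rq495 341 1 = true := by decide +kernel
def k495_342 : chB 495 rq495 342 1 = true := by decide +kernel
def k495_343 : chB 495 rq495 343 3 = true := by decide +kernel
def k495_346 : chB 495 rq495 346 3 = true := by decide +kernel
def k495_349 : chB 495 rq495 349 2 = true := by decide +kernel

end Pool.Agent.U620.K7F
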