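import Pool.Agent.U620.K7F.Msk

set_option autoImplicit false
set_option maxRecDepth 100000
set_option maxHeartbeats 4000000

namespace Pool.Agent.U620.K7F
open Pool.Agent.Y435.T7

def k495_351 : chB 495 rq495 351 3 = true := by decide +kernel
def k495_354 : chB 495 rq495 354 2 = true := by decide +kernel
def k495_356 : chB 495 rq495 356 2 = true := by decide +kernel
def k495_358 : chB 495 rq495 358 12 = true := by decide +kernel
def k495_370 : chB 495 rq495 370 2 = true := by decide +kernel
def k495_372 : chB 495 rq495 372 77 = true := by decide +kernel
def k495_449 : chB 495 rq495 449 1 = true := by decide +kernel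
def k495_450 : chB 495 rq495 450 1 = true := by decide +kernel
def k495_451 : chB 495 rq495 451 1 = true := by decide +kernel
def k495_452 : chB 495 rq495 452 5 = true := by decide +kernel
def k495_457 : chB 495 rq495 457 1 = true := by decide +kernel
def k495_458 : chB 495 rq495 458 1 = true := by decide +kernel
def k495_459 : chB 495 rq495 459 1 = true := by decide +kernel
def k495_460 : chB 495 rq495 460 1 = true := by decide +kernel
def k495_461 : chB 495 rq495 461 1 = true := by decide +kernel
def k495_462 : chB 495 rq495 462 11 = true := by decide +kernel

end Pool.Agent.U620.K7F
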