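import Pool.Agent.U620.K7F.Msk

set_option autoImplicit false
set_option maxRecDepth 100000
set_option maxHeartbeats 4000000

namespace Pool.Agent.U620.K7F
open Pool.Agent.Y435.T7

def k495_473 : chB 495 rq495 473 1 = true := by decide +kernel
def k495_474 : chB 495 rq495 474 1 = true := by decide +kernel
def k495_475 : chB 495 rq495 475 6 = true := by decide +kernel
def k495_481 : chB 495 rq495 481 1 = true := by decide +kernel
def k495_482 : chB 495 rq495 482 1 = true := by decide +kernel
def k495_483 : chB 495 rq495 483 1 = true := by decide +kernel
def k495_484 : chB 495 rq495 484 5 = true := by decide +kernel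
def k495_489 : chB 495 rq495 489 1 = true := by decide +kernel
def k495_490 : chB 495 rq495 490 3 = true := by decide +kernel
def k495_493 : chB 495 rq495 493 1 = true := by decide +kernel
def k495_494 : chB 495 rq495 494 11 = true := by decide +kernel
def k495_505 : chB 495 rq495 505 456 = true := by decide +kernel
def k495_961 : chB 495 rq495 961 1 = true := by decide +kernel
def k495_962 : chB 495 rq495 962 1 = true := by decide +kernel
def k495_963 : chB 495 rq495 963 10 = true := by decide +kernel
def k495_973 : chB 495 rq495 973 1 = true := by decide +kernel

end Pool.Agent.U620.K7F
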