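import Pool.Agent.U620.K7F.Msk

set_option autoImplicit false
set_option maxRecDepth 100000
set_option maxHeartbeats 4000000

namespace Pool.Agent.U620.K7F
open Pool.Agent.Y435.T7

def k495_974 : chB 495 rq495 974 20 = true := by decide +kernel
def k495_994 : chB 495 rq495 994 30 = true := by decide +kernel
def k511_0 : chB 511 rq511 0 1 = true := by decide +kernel
def k511_1 : chB 511 rq511 1 1 = true := by decide +kernel
def k511_2 : chB 511 rq511 2 1 = true := by decide +kernel
def k511_3 : chB 511 rq511 3 1 = true := by decide +kernel
def k511_4 : chB 511 rq511 4 3 = true := by decide +kernel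
def k511_7 : chB 511 rq511 7 1 = true := by decide +kernel
def k511_8 : chB 511 rq511 8 3 = true := by decide +kernel
def k511_11 : chB 511 rq511 11 1 = true := by decide +kernel
def k511_12 : chB 511 rq511 12 1 = true := by decide +kernel
def k511_13 : chB 511 rq511 13 1 = true := by decide +kernel
def k511_14 : chB 511 rq511 14 1 = true := by decide +kernel
def k511_15 : chB 511 rq511 15 1 = true := by decide +kernel
def k511_16 : chB 511 rq511 16 15 = true := by decide +kernel
def k511_31 : chB 511 rq511 31 1 = true := by decide +kernel

end Pool.Agent.U620.K7F
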