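import Pool.Agent.U620.K7F.Msk

set_option autoImplicit false
set_option maxRecDepth 100000
set_option maxHeartbeats 4000000

namespace Pool.Agent.U620.K7F
open Pool.Agent.Y435.T7

def k511_32 : chB 511 rq511 32 1 = true := by decide +kernel
def k511_33 : chB 511 rq511 33 1 = true := by decide +kernel
def k511_34 : chB 511 rq511 34 1 = true := by decide +kernel
def k511_35 : chB 511 rq511 35 1 = true := by decide +kernel
def k511_36 : chB 511 rq511 36 3 = true := by decide +kernel
def k511_39 : chB 511 rq511 39 1 = true := by decide +kernel
def k511_40 : chB 511 rq511 40 3 = true := by decide +kernel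
def k511_43 : chB 511 rq511 43 1 = true := by decide +kernel
def k511_44 : chB 511 rq511 44 1 = true := by decide +kernel
def k511_45 : chB 511 rq511 45 1 = true := by decide +kernel
def k511_46 : chB 511 rq511 46 1 = true := by decide +kernel
def k511_47 : chB 511 rq511 47 1 = true := by decide +kernel
def k511_48 : chB 511 rq511 48 15 = true := by decide +kernel
def k511_63 : chB 511 rq511 63 12 = true := by decide +kernel
def k511_75 : chB 511 rq511 75 1 = true := by decide +kernel
def k511_76 : chB 511 rq511 76 1 = true := by decide +kernel

end Pool.Agent.U620.K7F
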