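import Pool.Agent.U620.K7F.Msk

set_option autoImplicit false
set_option maxRecDepth 100000
set_option maxHeartbeats 4000000

namespace Pool.Agent.U620.K7F
open Pool.Agent.Y435.T7

def k511_77 : chB 511 rq511 77 1 = true := by decide +kernel
def k511_78 : chB 511 rq511 78 1 = true := by decide +kernel
def k511_79 : chB 511 rq511 79 1 = true := by decide +kernel
def k511_80 : chB 511 rq511 80 7 = true := by decide +kernel
def k511_87 : chB 511 rq511 87 1 = true := by decide +kernel
def k511_88 : chB 511 rq511 88 7 = true := by decide +kernel
def k511_95 : chB 511 rq511 95 1 = true := by decide +kernel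
def k511_96 : chB 511 rq511 96 1 = true := by decide +kernel
def k511_97 : chB 511 rq511 97 1 = true := by decide +kernel
def k511_98 : chB 511 rq511 98 1 = true := by decide +kernel
def k511_99 : chB 511 rq511 99 1 = true := by decide +kernel
def k511_100 : chB 511 rq511 100 1 = true := by decide +kernel
def k511_101 : chB 511 rq511 101 1 = true := by decide +kernel
def k511_102 : chB 511 rq511 102 1 = true := by decide +kernel
def k511_103 : chB 511 rq511 103 1 = true := by decide +kernel
def k511_104 : chB 511 rq511 104 3 = true := by decide +kernel

end Pool.Agent.U620.K7F
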