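import Pool.Agent.U620.K7F.Msk

set_option autoImplicit false
set_option maxRecDepth 100000
set_option maxHeartbeats 4000000

namespace Pool.Agent.U620.K7F
open Pool.Agent.Y435.T7

def k511_107 : chB 511 rq511 107 1 = true := by decide +kernel
def k511_108 : chB 511 rq511 108 1 = true := by decide +kernel
def k511_109 : chB 511 rq511 109 1 = true := by decide +kernel
def k511_110 : chB 511 rq511 110 1 = true := by decide +kernel
def k511_111 : chB 511 rq511 111 1 = true := by decide +kernel
def k511_112 : chB 511 rq511 112 5 = true := by decide +kernel
def k511_117 : chB 511 rq511 117 1 = true := by decide +kernel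
def k511_118 : chB 511 rq511 118 1 = true := by decide +kernel
def k511_119 : chB 511 rq511 119 1 = true := by decide +kernel
def k511_120 : chB 511 rq511 120 7 = true := by decide +kernel
def k511_127 : chB 511 rq511 127 96 = true := by decide +kernel
def k511_223 : chB 511 rq511 223 1 = true := by decide +kernel
def k511_224 : chB 511 rq511 224 1 = true := by decide +kernel
def k511_225 : chB 511 rq511 225 1 = true := by decide +kernel
def k511_226 : chB 511 rq511 226 1 = true := by decide +kernel
def k511_227 : chB 511 rq511 227 1 = true := by decide +kernel

end Pool.Agent.U620.K7F
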