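import Pool.Agent.U620.K7F.Msk

set_option autoImplicit false
set_option maxRecDepth 100000
set_option maxHeartbeats 4000000

namespace Pool.Agent.U620.K7F
open Pool.Agent.Y435.T7

def k511_297 : chB 511 rq511 297 1 = true := by decide +kernel
def k511_298 : chB 511 rq511 298 1 = true := by decide +kernel
def k511_299 : chB 511 rq511 299 1 = true := by decide +kernel
def k511_300 : chB 511 rq511 300 1 = true := by decide +kernel
def k511_301 : chB 511 rq511 301 1 = true := by decide +kernel
def k511_302 : chB 511 rq511 302 1 = true := by decide +kernel
def k511_303 : chB 511 rq511 303 10 = true := by decide +kernel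
def k511_313 : chB 511 rq511 313 1 = true := by decide +kernel
def k511_314 : chB 511 rq511 314 1 = true := by decide +kernel
def k511_315 : chB 511 rq511 315 1 = true := by decide +kernel
def k511_316 : chB 511 rq511 316 45 = true := by decide +kernel
def k511_361 : chB 511 rq511 361 1 = true := by decide +kernel
def k511_362 : chB 511 rq511 362 1 = true := by decide +kernel
def k511_363 : chB 511 rq511 363 1 = true := by decide +kernel
def k511_364 : chB 511 rq511 364 1 = true := by decide +kernel
def k511_365 : chB 511 rq511 365 1 = true := by decide +kernel

end Pool.Agent.U620.K7F
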