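import Pool.Agent.U620.K7F.Msk

set_option autoImplicit false
set_option maxRecDepth 100000
set_option maxHeartbeats 4000000

namespace Pool.Agent.U620.K7F
open Pool.Agent.Y435.T7

def k511_366 : chB 511 rq511 366 1 = true := by decide +kernel
def k511_367 : chB 511 rq511 367 2 = true := by decide +kernel
def k511_369 : chB 511 rq511 369 1 = true := by decide +kernel
def k511_370 : chB 511 rq511 370 1 = true := by decide +kernel
def k511_371 : chB 511 rq511 371 1 = true := by decide +kernel
def k511_372 : chB 511 rq511 372 3 = true := by decide +kernel
def k511_375 : chB 511 rq511 375 1 = true := by decide +kernel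
def k511_376 : chB 511 rq511 376 1 = true := by decide +kernel
def k511_377 : chB 511 rq511 377 1 = true := by decide +kernel
def k511_378 : chB 511 rq511 378 1 = true := by decide +kernel
def k511_379 : chB 511 rq511 379 1 = true := by decide +kernel
def k511_380 : chB 511 rq511 380 1 = true := by decide +kernel
def k511_381 : chB 511 rq511 381 1 = true := by decide +kernel
def k511_382 : chB 511 rq511 382 1 = true := by decide +kernel
def k511_383 : chB 511 rq511 383 122 = true := by decide +kernel
def k511_505 : chB 511 rq511 505 1 = true := by decide +kernel

end Pool.Agent.U620.K7F
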