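import Pool.Agent.U620.K7F.Msk

set_option autoImplicit false
set_option maxRecDepth 100000
set_option maxHeartbeats 4000000

namespace Pool.Agent.U620.K7F
open Pool.Agent.Y435.T7

def k511_506 : chB 511 rq511 506 1 = true := by decide +kernel
def k511_507 : chB 511 rq511 507 1 = true := by decide +kernel
def k511_508 : chB 511 rq511 508 3 = true := by decide +kernel
def k511_511 : chB 511 rq511 511 290 = true := by decide +kernel
def k511_801 : chB 511 rq511 801 1 = true := by decide +kernel
def k511_802 : chB 511 rq511 802 1 = true := by decide +kernel
def k511_803 : chB 511 rq511 803 1 = true := by decide +kernel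
def k511_804 : chB 511 rq511 804 3 = true := by decide +kernel
def k511_807 : chB 511 rq511 807 1 = true := by decide +kernel
def k511_808 : chB 511 rq511 808 3 = true := by decide +kernel
def k511_811 : chB 511 rq511 811 1 = true := by decide +kernel
def k511_812 : chB 511 rq511 812 1 = true := by decide +kernel
def k511_813 : chB 511 rq511 813 1 = true := by decide +kernel
def k511_814 : chB 511 rq511 814 1 = true := by decide +kernel
def k511_815 : chB 511 rq511 815 60 = true := by decide +kernel
def k511_875 : chB 511 rq511 875 1 = true := by decide +kernel

end Pool.Agent.U620.K7F
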