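import Pool.Agent.U620.K7F.Msk

set_option autoImplicit false
set_option maxRecDepth 100000
set_option maxHeartbeats 4000000

namespace Pool.Agent.U620.K7F
open Pool.Agent.Y435.T7

def k511_876 : chB 511 rq511 876 1 = true := by decide +kernel
def k511_877 : chB 511 rq511 877 1 = true := by decide +kernel
def k511_878 : chB 511 rq511 878 1 = true := by decide +kernel
def k511_879 : chB 511 rq511 879 8 = true := by decide +kernel
def k511_887 : chB 511 rq511 887 1 = true := by decide +kernel
def k511_888 : chB 511 rq511 888 136 = true := by decide +kernel
def k1023_0 : chB 1023 rq1023 0 1 = true := by decide +kernel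
def k1023_1 : chB 1023 rq1023 1 1 = true := by decide +kernel
def k1023_2 : chB 1023 rq1023 2 2 = true := by decide +kernel
def k1023_4 : chB 1023 rq1023 4 4 = true := by decide +kernel
def k1023_8 : chB 1023 rq1023 8 4 = true := by decide +kernel
def k1023_12 : chB 1023 rq1023 12 1 = true := by decide +kernel
def k1023_13 : chB 1023 rq1023 13 1 = true := by decide +kernel
def k1023_14 : chB 1023 rq1023 14 2 = true := by decide +kernel
def k1023_16 : chB 1023 rq1023 16 15 = true := by decide +kernel
def k1023_31 : chB 1023 rq1023 31 1 = true := by decide +kernel

end Pool.Agent.U620.K7F
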