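import Pool.Agent.U620.K7F.Msk

set_option autoImplicit false
set_option maxRecDepth 100000
set_option maxHeartbeats 4000000

namespace Pool.Agent.U620.K7F
open Pool.Agent.Y435.T7

def k1023_32 : chB 1023 rq1023 32 32 = true := by decide +kernel
def k1023_64 : chB 1023 rq1023 64 12 = true := by decide +kernel
def k1023_76 : chB 1023 rq1023 76 1 = true := by decide +kernel
def k1023_77 : chB 1023 rq1023 77 1 = true := by decide +kernel
def k1023_78 : chB 1023 rq1023 78 2 = true := by decide +kernel
def k1023_80 : chB 1023 rq1023 80 7 = true := by decide +kernel
def k1023_87 : chB 1023 rq1023 87 1 = true := by decide +kernel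
def k1023_88 : chB 1023 rq1023 88 7 = true := by decide +kernel
def k1023_95 : chB 1023 rq1023 95 1 = true := by decide +kernel
def k1023_96 : chB 1023 rq1023 96 21 = true := by decide +kernel
def k1023_117 : chB 1023 rq1023 117 1 = true := by decide +kernel
def k1023_118 : chB 1023 rq1023 118 2 = true := by decide +kernel
def k1023_120 : chB 1023 rq1023 120 8 = true := by decide +kernel
def k1023_128 : chB 1023 rq1023 128 95 = true := by decide +kernel
def k1023_223 : chB 1023 rq1023 223 1 = true := by decide +kernel
def k1023_224 : chB 1023 rq1023 224 12 = true := by decide +kernel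

end Pool.Agent.U620.K7F
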