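import Pool.Agent.U620.K7F.Msk

set_option autoImplicit false
set_option maxRecDepth 100000
set_option maxHeartbeats 4000000

namespace Pool.Agent.U620.K7F
open Pool.Agent.Y435.T7

def k1023_236 : chB 1023 rq1023 236 1 = true := by decide +kernel
def k1023_237 : chB 1023 rq1023 237 1 = true := by decide +kernel
def k1023_238 : chB 1023 rq1023 238 2 = true := by decide +kernel
def k1023_240 : chB 1023 rq1023 240 15 = true := by decide +kernel
def k1023_255 : chB 1023 rq1023 255 1 = true := by decide +kernel
def k1023_256 : chB 1023 rq1023 256 252 = true := by decide +kernel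
def k1023_508 : chB 1023 rq1023 508 515 = true := by decide +kernel

end Pool.Agent.U620.K7F
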