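import Pool.Agent.U620.K7F.K000
import Pool.Agent.U620.K7F.K001
import Pool.Agent.U620.K7F.K002
import Pool.Agent.U620.K7F.K003
import Pool.Agent.U620.K7F.K004
import Pool.Agent.U620.K7F.K005
import Pool.Agent.U620.K7F.K006
import Pool.Agent.U620.K7F.K007
import Pool.Agent.U620.K7F.K008
import Pool.Agent.U620.K7F.K009
import Pool.Agent.U620.K7F.K010
import Pool.Agent.U620.K7F.K011
import Pool.Agent.U620.K7F.K012
import Pool.Agent.U620.K7F.K013
import Pool.Agent.U620.K7F.K014
import Pool.Agent.U620.K7F.K015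
import Pool.Agent.U620.K7F.K016
import Pool.Agent.U620.K7F.K017
import Pool.Agent.U620.K7F.K018
import Pool.Agent.U620.K7F.K019
import Pool.Agent.U620.K7F.K020
import Pool.Agent.U620.K7F.K021
import Pool.Agent.U620.K7F.K022
import Pool.Agent.U620.K7F.K023
import Pool.Agent.U620.K7F.K024
import Pool.Agent.U620.K7F.K025
import Pool.Agent.U620.K7F.K026
import Pool.Agent.U620.K7F.K027
import Pool.Agent.U620.K7F.K028
import Pool.Agent.U620.K7F.K029
import Pool.Agent.U620.K7F.K030
import Pool.Agent.U620.K7F.K031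
import Pool.Agent.U620.K7F.K032
import Pool.Agent.U620.K7F.K033
import Pool.Agent.U620.K7F.K034
import Pool.Agent.U620.K7F.K035
import Pool.Agent.U620.K7F.K036
import Pool.Agent.U620.K7F.K037
import Pool.Agent.U620.K7F.K038
import Pool.Agent.U620.K7F.K039
import Pool.Agent.U620.K7F.K040
import Pool.Agent.U620.K7F.K041
import Pool.Agent.U620.K7F.K042
import Pool.Agent.U620.K7F.K043
import Pool.Agent.U620.K7F.K044
import Pool.Agent.U620.K7F.K045
import Pool.Agent.U620.K7F.K046
import Pool.Agent.U620.K7F.K047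
import Pool.Agent.U620.K7F.K048
import Pool.Agent.U620.K7F.K049
import Pool.Agent.U620.K7F.K050
import Pool.Agent.U620.K7F.K051
import Pool.Agent.U620.K7F.K052
import Pool.Agent.U620.K7F.K053
import Pool.Agent.U620.K7F.K054
import Pool.Agent.U620.K7F.K055
import Pool.Agent.U620.K7F.K056
import Pool.Agent.U620.K7F.K057
import Pool.Agent.U620.K7F.K058
import Pool.Agent.U620.K7F.K059
import Pool.Agent.U620.K7F.K060
import Pool.Agent.U620.K7F.K061
import Pool.Agent.U620.K7F.K062
import Pool.Agent.U620.K7F.K063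
import Pool.Agent.U620.K7F.K064
import Pool.Agent.U620.K7F.K065
import Pool.Agent.U620.K7F.K066
import Pool.Agent.U620.K7F.K067
import Pool.Agent.U620.K7F.K068
import Pool.Agent.U620.K7F.K069
import Pool.Agent.U620.K7F.K070
import Pool.Agent.U620.K7F.K071
import Pool.Agent.U620.K7F.K072
import Pool.Agent.U620.K7F.K073
import Pool.Agent.U620.K7F.K074
import Pool.Agent.U620.K7F.K075
import Pool.Agent.U620.K7F.K076
import Pool.Agent.U620.K7F.K077
import Pool.Agent.U620.K7F.K078
import Pool.Agent.U620.K7F.K079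
import Pool.Agent.U620.K7F.K080
import Pool.Agent.U620.K7F.K081
import Pool.Agent.U620.K7F.K082
import Pool.Agent.U620.K7F.K083
import Pool.Agent.U620.K7F.K084
import Pool.Agent.U620.K7F.K085
import Pool.Agent.U620.K7F.K086
import Pool.Agent.U620.K7F.K087
import Pool.Agent.U620.K7F.K088
import Pool.Agent.U620.K7F.K089
import Pool.Agent.U620.K7F.K090
import Pool.Agent.U620.K7F.K091
import Pool.Agent.U620.K7F.K092
import Pool.Agent.U620.K7F.K093
import Pool.Agent.U620.K7F.K094
import Pool.Agent.U620.K7F.K095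
import Pool.Agent.U620.K7F.K096
import Pool.Agent.U620.K7F.K097
import Pool.Agent.U620.K7F.K098
import Pool.Agent.U620.K7F.K099
import Pool.Agent.U620.K7F.K100
import Pool.Agent.U620.K7F.K101
import Pool.Agent.U620.K7F.K102
import Pool.Agent.U620.K7F.K103
import Pool.Agent.U620.K7F.K104
import Pool.Agent.U620.K7F.K105
import Pool.Agent.U620.K7F.K106
import Pool.Agent.U620.K7F.K107
import Pool.Agent.U620.K7F.K108
import Pool.Agent.U620.K7F.K109
import Pool.Agent.U620.K7F.K110
import Pool.Agent.U620.K7F.K111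
import Pool.Agent.U620.K7F.K112
import Pool.Agent.U620.K7F.K113
import Pool.Agent.U620.K7F.K114
import Pool.Agent.U620.K7F.K115
import Pool.Agent.U620.K7F.K116
import Pool.Agent.U620.K7F.K117
import Pool.Agent.U620.K7F.K118
import Pool.Agent.U620.K7F.K119
import Pool.Agent.U620.K7F.K120
import Pool.Agent.U620.K7F.K121
import Pool.Agent.U620.K7F.K122
import Pool.Agent.U620.K7F.K123
import Pool.Agent.U620.K7F.K124
import Pool.Agent.U620.K7F.K125
import Pool.Agent.U620.K7F.K126
import Pool.Agent.U620.K7F.K127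
import Pool.Agent.U620.K7F.K128
import Pool.Agent.U620.K7F.K129
import Pool.Agent.U620.K7F.K130
import Pool.Agent.U620.K7F.K131
import Pool.Agent.U620.K7F.K132
import Pool.Agent.U620.K7F.K133
import Pool.Agent.U620.K7F.Chain

/-! The checks at all structures of the list. -/

set_option autoImplicit false
set_option maxRecDepth 100000
set_option maxHeartbeats 4000000

namespace Pool.Agent.U620.K7F
open Pool.Agent.Y435.T7

theorem cnd_true' {c x : Bool} (h : cnd c x true = true) (hc : c = true) : x = true := by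
  rw [hc] at h; exact h

theorem chB_true {m r a n : ℕ} (h : chB m r a n = true) {f : ℕ} (h1 : a ≤ f) (h2 : f < a + n)
    (hb : Nat.beq (Nat.mod (Nat.shiftRight r f) 2) 1 = true) : chm m f = true := by
  have h3 := al_true h (show f - a < n by omega)
  rw [st_eq] at h3
  have e : Nat.add a (f - a) = f := by show a + (f - a) = f; omega
  rw [e] at h3
  exact cnd_true' h3 hb

theorem ka0 {f : ℕ} (hf : f < 1024) (hb : Nat.beq (Nat.mod (Nat.shiftRight rq0 f) 2) 1 = true) : chm 0 f = true := by
  rcases Nat.lt_or_ge f 1 with g1 | g1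
  · exact chB_true k0_0 (Nat.zero_le _) g1 hb
  exact chB_true k0_1 g1 hf hb

theorem ka1 {f : ℕ} (hf : f < 1024) (hb : Nat.beq (Nat.mod (Nat.shiftRight rq1 f) 2) 1 = true) : chm 1 f = true := by
  exact chB_true k1_0 (Nat.zero_le _) hf hb

theorem ka3 {f : ℕ} (hf : f < 1024) (hb : Nat.beq (Nat.mod (Nat.shiftRight rq3 f) 2) 1 = true) : chm 3 f = true := by
  rcases Nat.lt_or_ge f 1 with g1 | g1
  · exact chB_true k3_0 (Nat.zero_le _) g1 hb
  rcases Nat.lt_or_ge f 65 with g2 | g2
  · exact chB_true k3_1 g1 g2 hb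
  rcases Nat.lt_or_ge f 257 with g3 | g3
  · exact chB_true k3_65 g2 g3 hb
  exact chB_true k3_257 g3 hf hb

theorem ka7 {f : ℕ} (hf : f < 1024) (hb : Nat.beq (Nat.mod (Nat.shiftRight rq7 f) 2) 1 = true) : chm 7 f = true := by
  rcases Nat.lt_or_ge f 1 with g1 | g1
  · exact chB_true k7_0 (Nat.zero_le _) g1 hb
  rcases Nat.lt_or_ge f 65 with g2 | g2
  · exact chB_true k7_1 g1 g2 hb
  rcases Nat.lt_or_ge f 129 with g3 | g3
  · exact chB_true k7_65 g2 g3 hb
  rcases Nat.lt_or_ge f 193 with g4 | g4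
  · exact chB_true k7_129 g3 g4 hb
  rcases Nat.lt_or_ge f 385 with g5 | g5
  · exact chB_true k7_193 g4 g5 hb
  exact chB_true k7_385 g5 hf hb

theorem ka15 {f : ℕ} (hf : f < 1024) (hb : Nat.beq (Nat.mod (Nat.shiftRight rq15 f) 2) 1 = true) : chm 15 f = true := by
  rcases Nat.lt_or_ge f 1 with g1 | g1
  · exact chB_true k15_0 (Nat.zero_le _) g1 hb
  rcases Nat.lt_or_ge f 65 with g2 | g2
  · exact chB_true k15_1 g1 g2 hb
  rcases Nat.lt_or_ge f 193 with g3 | g3
  · exact chB_true k15_65 g2 g3 hb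
  rcases Nat.lt_or_ge f 449 with g4 | g4
  · exact chB_true k15_193 g3 g4 hb
  exact chB_true k15_449 g4 hf hb

theorem ka19 {f : ℕ} (hf : f < 1024) (hb : Nat.beq (Nat.mod (Nat.shiftRight rq19 f) 2) 1 = true) : chm 19 f = true := by
  rcases Nat.lt_or_ge f 1 with g1 | g1
  · exact chB_true k19_0 (Nat.zero_le _) g1 hb
  rcases Nat.lt_or_ge f 2 with g2 | g2
  · exact chB_true k19_1 g1 g2 hb
  rcases Nat.lt_or_ge f 3 with g3 | g3
  · exact chB_true k19_2 g2 g3 hb
  rcases Nat.lt_or_ge f 33 with g4 | g4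
  · exact chB_true k19_3 g3 g4 hb
  rcases Nat.lt_or_ge f 97 with g5 | g5
  · exact chB_true k19_33 g4 g5 hb
  exact chB_true k19_97 g5 hf hb

theorem ka20 {f : ℕ} (hf : f < 1024) (hb : Nat.beq (Nat.mod (Nat.shiftRight rq20 f) 2) 1 = true) : chm 20 f = true := by
  rcases Nat.lt_or_ge f 1 with g1 | g1
  · exact chB_true k20_0 (Nat.zero_le _) g1 hb
  rcases Nat.lt_or_ge f 5 with g2 | g2
  · exact chB_true k20_1 g1 g2 hb
  exact chB_true k20_5 g2 hf hb

theorem ka21 {f : ℕ} (hf : f < 1024) (hb : Nat.beq (Nat.mod (Nat.shiftRight rq21 f) 2) 1 = true) : chm 21 f = true := by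
  rcases Nat.lt_or_ge f 1 with g1 | g1
  · exact chB_true k21_0 (Nat.zero_le _) g1 hb
  rcases Nat.lt_or_ge f 5 with g2 | g2
  · exact chB_true k21_1 g1 g2 hb
  rcases Nat.lt_or_ge f 9 with g3 | g3
  · exact chB_true k21_5 g2 g3 hb
  rcases Nat.lt_or_ge f 17 with g4 | g4
  · exact chB_true k21_9 g3 g4 hb
  rcases Nat.lt_or_ge f 33 with g5 | g5
  · exact chB_true k21_17 g4 g5 hb
  rcases Nat.lt_or_ge f 73 with g6 | g6
  · exact chB_true k21_33 g5 g6 hb
  rcases Nat.lt_or_ge f 81 with g7 | g7
  · exact chB_true k21_73 g6 g7 hb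
  rcases Nat.lt_or_ge f 97 with g8 | g8
  · exact chB_true k21_81 g7 g8 hb
  rcases Nat.lt_or_ge f 161 with g9 | g9
  · exact chB_true k21_97 g8 g9 hb
  rcases Nat.lt_or_ge f 273 with g10 | g10
  · exact chB_true k21_161 g9 g10 hb
  rcases Nat.lt_or_ge f 513 with g11 | g11
  · exact chB_true k21_273 g10 g11 hb
  rcases Nat.lt_or_ge f 517 with g12 | g12
  · exact chB_true k21_513 g11 g12 hb
  rcases Nat.lt_or_ge f 529 with g13 | g13
  · exact chB_true k21_517 g12 g13 hb
  rcases Nat.lt_or_ge f 673 with g14 | g14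
  · exact chB_true k21_529 g13 g14 hb
  exact chB_true k21_673 g14 hf hb

theorem ka23 {f : ℕ} (hf : f < 1024) (hb : Nat.beq (Nat.mod (Nat.shiftRight rq23 f) 2) 1 = true) : chm 23 f = true := by
  rcases Nat.lt_or_ge f 1 with g1 | g1
  · exact chB_true k23_0 (Nat.zero_le _) g1 hb
  rcases Nat.lt_or_ge f 2 with g2 | g2
  · exact chB_true k23_1 g1 g2 hb
  rcases Nat.lt_or_ge f 3 with g3 | g3
  · exact chB_true k23_2 g2 g3 hb
  rcases Nat.lt_or_ge f 5 with g4 | g4
  · exact chB_true k23_3 g3 g4 hb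
  rcases Nat.lt_or_ge f 33 with g5 | g5
  · exact chB_true k23_5 g4 g5 hb
  rcases Nat.lt_or_ge f 65 with g6 | g6
  · exact chB_true k23_33 g5 g6 hb
  rcases Nat.lt_or_ge f 66 with g7 | g7
  · exact chB_true k23_65 g6 g7 hb
  rcases Nat.lt_or_ge f 67 with g8 | g8
  · exact chB_true k23_66 g7 g8 hb
  rcases Nat.lt_or_ge f 69 with g9 | g9
  · exact chB_true k23_67 g8 g9 hb
  rcases Nat.lt_or_ge f 97 with g10 | g10
  · exact chB_true k23_69 g9 g10 hb
  rcases Nat.lt_or_ge f 129 with g11 | g11
  · exact chB_true k23_97 g10 g11 hb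
  rcases Nat.lt_or_ge f 130 with g12 | g12
  · exact chB_true k23_129 g11 g12 hb
  rcases Nat.lt_or_ge f 131 with g13 | g13
  · exact chB_true k23_130 g12 g13 hb
  rcases Nat.lt_or_ge f 133 with g14 | g14
  · exact chB_true k23_131 g13 g14 hb
  rcases Nat.lt_or_ge f 161 with g15 | g15
  · exact chB_true k23_133 g14 g15 hb
  rcases Nat.lt_or_ge f 193 with g16 | g16
  · exact chB_true k23_161 g15 g16 hb
  rcases Nat.lt_or_ge f 225 with g17 | g17
  · exact chB_true k23_193 g16 g17 hb
  rcases Nat.lt_or_ge f 257 with g18 | g18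
  · exact chB_true k23_225 g17 g18 hb
  rcases Nat.lt_or_ge f 258 with g19 | g19
  · exact chB_true k23_257 g18 g19 hb
  rcases Nat.lt_or_ge f 261 with g20 | g20
  · exact chB_true k23_258 g19 g20 hb
  rcases Nat.lt_or_ge f 265 with g21 | g21
  · exact chB_true k23_261 g20 g21 hb
  rcases Nat.lt_or_ge f 273 with g22 | g22
  · exact chB_true k23_265 g21 g22 hb
  rcases Nat.lt_or_ge f 289 with g23 | g23
  · exact chB_true k23_273 g22 g23 hb
  rcases Nat.lt_or_ge f 321 with g24 | g24
  · exact chB_true k23_289 g23 g24 hb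
  rcases Nat.lt_or_ge f 329 with g25 | g25
  · exact chB_true k23_321 g24 g25 hb
  rcases Nat.lt_or_ge f 337 with g26 | g26
  · exact chB_true k23_329 g25 g26 hb
  rcases Nat.lt_or_ge f 353 with g27 | g27
  · exact chB_true k23_337 g26 g27 hb
  rcases Nat.lt_or_ge f 385 with g28 | g28
  · exact chB_true k23_353 g27 g28 hb
  rcases Nat.lt_or_ge f 393 with g29 | g29
  · exact chB_true k23_385 g28 g29 hb
  rcases Nat.lt_or_ge f 401 with g30 | g30
  · exact chB_true k23_393 g29 g30 hb
  rcases Nat.lt_or_ge f 417 with g31 | g31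
  · exact chB_true k23_401 g30 g31 hb
  rcases Nat.lt_or_ge f 769 with g32 | g32
  · exact chB_true k23_417 g31 g32 hb
  rcases Nat.lt_or_ge f 770 with g33 | g33
  · exact chB_true k23_769 g32 g33 hb
  rcases Nat.lt_or_ge f 773 with g34 | g34
  · exact chB_true k23_770 g33 g34 hb
  rcases Nat.lt_or_ge f 801 with g35 | g35
  · exact chB_true k23_773 g34 g35 hb
  rcases Nat.lt_or_ge f 833 with g36 | g36
  · exact chB_true k23_801 g35 g36 hb
  rcases Nat.lt_or_ge f 897 with g37 | g37
  · exact chB_true k23_833 g36 g37 hb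
  exact chB_true k23_897 g37 hf hb

theorem ka28 {f : ℕ} (hf : f < 1024) (hb : Nat.beq (Nat.mod (Nat.shiftRight rq28 f) 2) 1 = true) : chm 28 f = true := by
  rcases Nat.lt_or_ge f 1 with g1 | g1
  · exact chB_true k28_0 (Nat.zero_le _) g1 hb
  rcases Nat.lt_or_ge f 2 with g2 | g2
  · exact chB_true k28_1 g1 g2 hb
  rcases Nat.lt_or_ge f 65 with g3 | g3
  · exact chB_true k28_2 g2 g3 hb
  rcases Nat.lt_or_ge f 257 with g4 | g4
  · exact chB_true k28_65 g3 g4 hb
  rcases Nat.lt_or_ge f 258 with g5 | g5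
  · exact chB_true k28_257 g4 g5 hb
  exact chB_true k28_258 g5 hf hb

theorem ka29 {f : ℕ} (hf : f < 1024) (hb : Nat.beq (Nat.mod (Nat.shiftRight rq29 f) 2) 1 = true) : chm 29 f = true := by
  rcases Nat.lt_or_ge f 1 with g1 | g1
  · exact chB_true k29_0 (Nat.zero_le _) g1 hb
  rcases Nat.lt_or_ge f 2 with g2 | g2
  · exact chB_true k29_1 g1 g2 hb
  rcases Nat.lt_or_ge f 9 with g3 | g3
  · exact chB_true k29_2 g2 g3 hb
  rcases Nat.lt_or_ge f 65 with g4 | g4
  · exact chB_true k29_9 g3 g4 hb
  rcases Nat.lt_or_ge f 73 with g5 | g5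
  · exact chB_true k29_65 g4 g5 hb
  rcases Nat.lt_or_ge f 81 with g6 | g6
  · exact chB_true k29_73 g5 g6 hb
  rcases Nat.lt_or_ge f 193 with g7 | g7
  · exact chB_true k29_81 g6 g7 hb
  rcases Nat.lt_or_ge f 201 with g8 | g8
  · exact chB_true k29_193 g7 g8 hb
  rcases Nat.lt_or_ge f 257 with g9 | g9
  · exact chB_true k29_201 g8 g9 hb
  rcases Nat.lt_or_ge f 258 with g10 | g10
  · exact chB_true k29_257 g9 g10 hb
  rcases Nat.lt_or_ge f 265 with g11 | g11
  · exact chB_true k29_258 g10 g11 hb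
  rcases Nat.lt_or_ge f 321 with g12 | g12
  · exact chB_true k29_265 g11 g12 hb
  rcases Nat.lt_or_ge f 329 with g13 | g13
  · exact chB_true k29_321 g12 g13 hb
  rcases Nat.lt_or_ge f 337 with g14 | g14
  · exact chB_true k29_329 g13 g14 hb
  rcases Nat.lt_or_ge f 513 with g15 | g15
  · exact chB_true k29_337 g14 g15 hb
  rcases Nat.lt_or_ge f 514 with g16 | g16
  · exact chB_true k29_513 g15 g16 hb
  rcases Nat.lt_or_ge f 577 with g17 | g17
  · exact chB_true k29_514 g16 g17 hb
  rcases Nat.lt_or_ge f 593 with g18 | g18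
  · exact chB_true k29_577 g17 g18 hb
  rcases Nat.lt_or_ge f 769 with g19 | g19
  · exact chB_true k29_593 g18 g19 hb
  rcases Nat.lt_or_ge f 770 with g20 | g20
  · exact chB_true k29_769 g19 g20 hb
  rcases Nat.lt_or_ge f 833 with g21 | g21
  · exact chB_true k29_770 g20 g21 hb
  exact chB_true k29_833 g21 hf hb

theorem ka31 {f : ℕ} (hf : f < 1024) (hb : Nat.beq (Nat.mod (Nat.shiftRight rq31 f) 2) 1 = true) : chm 31 f = true := by
  rcases Nat.lt_or_ge f 1 with g1 | g1
  · exact chB_true k31_0 (Nat.zero_le _) g1 hb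
  rcases Nat.lt_or_ge f 2 with g2 | g2
  · exact chB_true k31_1 g1 g2 hb
  rcases Nat.lt_or_ge f 3 with g3 | g3
  · exact chB_true k31_2 g2 g3 hb
  rcases Nat.lt_or_ge f 33 with g4 | g4
  · exact chB_true k31_3 g3 g4 hb
  rcases Nat.lt_or_ge f 65 with g5 | g5
  · exact chB_true k31_33 g4 g5 hb
  rcases Nat.lt_or_ge f 66 with g6 | g6
  · exact chB_true k31_65 g5 g6 hb
  rcases Nat.lt_or_ge f 67 with g7 | g7
  · exact chB_true k31_66 g6 g7 hb
  rcases Nat.lt_or_ge f 69 with g8 | g8
  · exact chB_true k31_67 g7 g8 hb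
  rcases Nat.lt_or_ge f 97 with g9 | g9
  · exact chB_true k31_69 g8 g9 hb
  rcases Nat.lt_or_ge f 193 with g10 | g10
  · exact chB_true k31_97 g9 g10 hb
  rcases Nat.lt_or_ge f 194 with g11 | g11
  · exact chB_true k31_193 g10 g11 hb
  rcases Nat.lt_or_ge f 195 with g12 | g12
  · exact chB_true k31_194 g11 g12 hb
  rcases Nat.lt_or_ge f 225 with g13 | g13
  · exact chB_true k31_195 g12 g13 hb
  rcases Nat.lt_or_ge f 257 with g14 | g14
  · exact chB_true k31_225 g13 g14 hb
  rcases Nat.lt_or_ge f 258 with g15 | g15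
  · exact chB_true k31_257 g14 g15 hb
  rcases Nat.lt_or_ge f 265 with g16 | g16
  · exact chB_true k31_258 g15 g16 hb
  rcases Nat.lt_or_ge f 321 with g17 | g17
  · exact chB_true k31_265 g16 g17 hb
  rcases Nat.lt_or_ge f 322 with g18 | g18
  · exact chB_true k31_321 g17 g18 hb
  rcases Nat.lt_or_ge f 325 with g19 | g19
  · exact chB_true k31_322 g18 g19 hb
  rcases Nat.lt_or_ge f 329 with g20 | g20
  · exact chB_true k31_325 g19 g20 hb
  rcases Nat.lt_or_ge f 337 with g21 | g21
  · exact chB_true k31_329 g20 g21 hb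
  rcases Nat.lt_or_ge f 353 with g22 | g22
  · exact chB_true k31_337 g21 g22 hb
  rcases Nat.lt_or_ge f 449 with g23 | g23
  · exact chB_true k31_353 g22 g23 hb
  rcases Nat.lt_or_ge f 457 with g24 | g24
  · exact chB_true k31_449 g23 g24 hb
  rcases Nat.lt_or_ge f 481 with g25 | g25
  · exact chB_true k31_457 g24 g25 hb
  rcases Nat.lt_or_ge f 769 with g26 | g26
  · exact chB_true k31_481 g25 g26 hb
  rcases Nat.lt_or_ge f 770 with g27 | g27
  · exact chB_true k31_769 g26 g27 hb
  rcases Nat.lt_or_ge f 833 with g28 | g28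
  · exact chB_true k31_770 g27 g28 hb
  rcases Nat.lt_or_ge f 834 with g29 | g29
  · exact chB_true k31_833 g28 g29 hb
  rcases Nat.lt_or_ge f 837 with g30 | g30
  · exact chB_true k31_834 g29 g30 hb
  rcases Nat.lt_or_ge f 961 with g31 | g31
  · exact chB_true k31_837 g30 g31 hb
  exact chB_true k31_961 g31 hf hb

theorem ka54 {f : ℕ} (hf : f < 1024) (hb : Nat.beq (Nat.mod (Nat.shiftRight rq54 f) 2) 1 = true) : chm 54 f = true := by
  rcases Nat.lt_or_ge f 1 with g1 | g1
  · exact chB_true k54_0 (Nat.zero_le _) g1 hb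
  rcases Nat.lt_or_ge f 2 with g2 | g2
  · exact chB_true k54_1 g1 g2 hb
  rcases Nat.lt_or_ge f 4 with g3 | g3
  · exact chB_true k54_2 g2 g3 hb
  rcases Nat.lt_or_ge f 5 with g4 | g4
  · exact chB_true k54_4 g3 g4 hb
  rcases Nat.lt_or_ge f 6 with g5 | g5
  · exact chB_true k54_5 g4 g5 hb
  rcases Nat.lt_or_ge f 13 with g6 | g6
  · exact chB_true k54_6 g5 g6 hb
  rcases Nat.lt_or_ge f 17 with g7 | g7
  · exact chB_true k54_13 g6 g7 hb
  rcases Nat.lt_or_ge f 19 with g8 | g8
  · exact chB_true k54_17 g7 g8 hb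
  rcases Nat.lt_or_ge f 21 with g9 | g9
  · exact chB_true k54_19 g8 g9 hb
  rcases Nat.lt_or_ge f 49 with g10 | g10
  · exact chB_true k54_21 g9 g10 hb
  rcases Nat.lt_or_ge f 77 with g11 | g11
  · exact chB_true k54_49 g10 g11 hb
  rcases Nat.lt_or_ge f 85 with g12 | g12
  · exact chB_true k54_77 g11 g12 hb
  rcases Nat.lt_or_ge f 113 with g13 | g13
  · exact chB_true k54_85 g12 g13 hb
  rcases Nat.lt_or_ge f 161 with g14 | g14
  · exact chB_true k54_113 g13 g14 hb
  rcases Nat.lt_or_ge f 165 with g15 | g15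
  · exact chB_true k54_161 g14 g15 hb
  rcases Nat.lt_or_ge f 177 with g16 | g16
  · exact chB_true k54_165 g15 g16 hb
  rcases Nat.lt_or_ge f 433 with g17 | g17
  · exact chB_true k54_177 g16 g17 hb
  rcases Nat.lt_or_ge f 517 with g18 | g18
  · exact chB_true k54_433 g17 g18 hb
  rcases Nat.lt_or_ge f 518 with g19 | g19
  · exact chB_true k54_517 g18 g19 hb
  rcases Nat.lt_or_ge f 533 with g20 | g20
  · exact chB_true k54_518 g19 g20 hb
  exact chB_true k54_533 g20 hf hb

theorem ka55 {f : ℕ} (hf : f < 1024) (hb : Nat.beq (Nat.mod (Nat.shiftRight rq55 f) 2) 1 = true) : chm 55 f = true := by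
  rcases Nat.lt_or_ge f 1 with g1 | g1
  · exact chB_true k55_0 (Nat.zero_le _) g1 hb
  rcases Nat.lt_or_ge f 2 with g2 | g2
  · exact chB_true k55_1 g1 g2 hb
  rcases Nat.lt_or_ge f 4 with g3 | g3
  · exact chB_true k55_2 g2 g3 hb
  rcases Nat.lt_or_ge f 5 with g4 | g4
  · exact chB_true k55_4 g3 g4 hb
  rcases Nat.lt_or_ge f 6 with g5 | g5
  · exact chB_true k55_5 g4 g5 hb
  rcases Nat.lt_or_ge f 9 with g6 | g6
  · exact chB_true k55_6 g5 g6 hb
  rcases Nat.lt_or_ge f 10 with g7 | g7
  · exact chB_true k55_9 g6 g7 hb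
  rcases Nat.lt_or_ge f 13 with g8 | g8
  · exact chB_true k55_10 g7 g8 hb
  rcases Nat.lt_or_ge f 17 with g9 | g9
  · exact chB_true k55_13 g8 g9 hb
  rcases Nat.lt_or_ge f 18 with g10 | g10
  · exact chB_true k55_17 g9 g10 hb
  rcases Nat.lt_or_ge f 19 with g11 | g11
  · exact chB_true k55_18 g10 g11 hb
  rcases Nat.lt_or_ge f 21 with g12 | g12
  · exact chB_true k55_19 g11 g12 hb
  rcases Nat.lt_or_ge f 25 with g13 | g13
  · exact chB_true k55_21 g12 g13 hb
  rcases Nat.lt_or_ge f 49 with g14 | g14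
  · exact chB_true k55_25 g13 g14 hb
  rcases Nat.lt_or_ge f 73 with g15 | g15
  · exact chB_true k55_49 g14 g15 hb
  rcases Nat.lt_or_ge f 74 with g16 | g16
  · exact chB_true k55_73 g15 g16 hb
  rcases Nat.lt_or_ge f 77 with g17 | g17
  · exact chB_true k55_74 g16 g17 hb
  rcases Nat.lt_or_ge f 81 with g18 | g18
  · exact chB_true k55_77 g17 g18 hb
  rcases Nat.lt_or_ge f 82 with g19 | g19
  · exact chB_true k55_81 g18 g19 hb
  rcases Nat.lt_or_ge f 83 with g20 | g20
  · exact chB_true k55_82 g19 g20 hb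
  rcases Nat.lt_or_ge f 85 with g21 | g21
  · exact chB_true k55_83 g20 g21 hb
  rcases Nat.lt_or_ge f 89 with g22 | g22
  · exact chB_true k55_85 g21 g22 hb
  rcases Nat.lt_or_ge f 113 with g23 | g23
  · exact chB_true k55_89 g22 g23 hb
  rcases Nat.lt_or_ge f 145 with g24 | g24
  · exact chB_true k55_113 g23 g24 hb
  rcases Nat.lt_or_ge f 146 with g25 | g25
  · exact chB_true k55_145 g24 g25 hb
  rcases Nat.lt_or_ge f 147 with g26 | g26
  · exact chB_true k55_146 g25 g26 hb
  rcases Nat.lt_or_ge f 149 with g27 | g27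
  · exact chB_true k55_147 g26 g27 hb
  rcases Nat.lt_or_ge f 153 with g28 | g28
  · exact chB_true k55_149 g27 g28 hb
  rcases Nat.lt_or_ge f 161 with g29 | g29
  · exact chB_true k55_153 g28 g29 hb
  rcases Nat.lt_or_ge f 162 with g30 | g30
  · exact chB_true k55_161 g29 g30 hb
  rcases Nat.lt_or_ge f 165 with g31 | g31
  · exact chB_true k55_162 g30 g31 hb
  rcases Nat.lt_or_ge f 169 with g32 | g32
  · exact chB_true k55_165 g31 g32 hb
  rcases Nat.lt_or_ge f 177 with g33 | g33
  · exact chB_true k55_169 g32 g33 hb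
  rcases Nat.lt_or_ge f 233 with g34 | g34
  · exact chB_true k55_177 g33 g34 hb
  rcases Nat.lt_or_ge f 241 with g35 | g35
  · exact chB_true k55_233 g34 g35 hb
  rcases Nat.lt_or_ge f 433 with g36 | g36
  · exact chB_true k55_241 g35 g36 hb
  rcases Nat.lt_or_ge f 513 with g37 | g37
  · exact chB_true k55_433 g36 g37 hb
  rcases Nat.lt_or_ge f 514 with g38 | g38
  · exact chB_true k55_513 g37 g38 hb
  rcases Nat.lt_or_ge f 516 with g39 | g39
  · exact chB_true k55_514 g38 g39 hb
  rcases Nat.lt_or_ge f 517 with g40 | g40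
  · exact chB_true k55_516 g39 g40 hb
  rcases Nat.lt_or_ge f 518 with g41 | g41
  · exact chB_true k55_517 g40 g41 hb
  rcases Nat.lt_or_ge f 521 with g42 | g42
  · exact chB_true k55_518 g41 g42 hb
  rcases Nat.lt_or_ge f 525 with g43 | g43
  · exact chB_true k55_521 g42 g43 hb
  rcases Nat.lt_or_ge f 529 with g44 | g44
  · exact chB_true k55_525 g43 g44 hb
  rcases Nat.lt_or_ge f 530 with g45 | g45
  · exact chB_true k55_529 g44 g45 hb
  rcases Nat.lt_or_ge f 531 with g46 | g46
  · exact chB_true k55_530 g45 g46 hb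
  rcases Nat.lt_or_ge f 533 with g47 | g47
  · exact chB_true k55_531 g46 g47 hb
  rcases Nat.lt_or_ge f 537 with g48 | g48
  · exact chB_true k55_533 g47 g48 hb
  rcases Nat.lt_or_ge f 561 with g49 | g49
  · exact chB_true k55_537 g48 g49 hb
  rcases Nat.lt_or_ge f 585 with g50 | g50
  · exact chB_true k55_561 g49 g50 hb
  rcases Nat.lt_or_ge f 589 with g51 | g51
  · exact chB_true k55_585 g50 g51 hb
  rcases Nat.lt_or_ge f 593 with g52 | g52
  · exact chB_true k55_589 g51 g52 hb
  rcases Nat.lt_or_ge f 595 with g53 | g53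
  · exact chB_true k55_593 g52 g53 hb
  rcases Nat.lt_or_ge f 597 with g54 | g54
  · exact chB_true k55_595 g53 g54 hb
  rcases Nat.lt_or_ge f 625 with g55 | g55
  · exact chB_true k55_597 g54 g55 hb
  rcases Nat.lt_or_ge f 657 with g56 | g56
  · exact chB_true k55_625 g55 g56 hb
  rcases Nat.lt_or_ge f 659 with g57 | g57
  · exact chB_true k55_657 g56 g57 hb
  rcases Nat.lt_or_ge f 661 with g58 | g58
  · exact chB_true k55_659 g57 g58 hb
  rcases Nat.lt_or_ge f 673 with g59 | g59
  · exact chB_true k55_661 g58 g59 hb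
  rcases Nat.lt_or_ge f 674 with g60 | g60
  · exact chB_true k55_673 g59 g60 hb
  rcases Nat.lt_or_ge f 677 with g61 | g61
  · exact chB_true k55_674 g60 g61 hb
  rcases Nat.lt_or_ge f 681 with g62 | g62
  · exact chB_true k55_677 g61 g62 hb
  rcases Nat.lt_or_ge f 689 with g63 | g63
  · exact chB_true k55_681 g62 g63 hb
  exact chB_true k55_689 g63 hf hb

theorem ka58 {f : ℕ} (hf : f < 1024) (hb : Nat.beq (Nat.mod (Nat.shiftRight rq58 f) 2) 1 = true) : chm 58 f = true := by
  rcases Nat.lt_or_ge f 1 with g1 | g1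
  · exact chB_true k58_0 (Nat.zero_le _) g1 hb
  rcases Nat.lt_or_ge f 2 with g2 | g2
  · exact chB_true k58_1 g1 g2 hb
  rcases Nat.lt_or_ge f 3 with g3 | g3
  · exact chB_true k58_2 g2 g3 hb
  rcases Nat.lt_or_ge f 7 with g4 | g4
  · exact chB_true k58_3 g3 g4 hb
  rcases Nat.lt_or_ge f 9 with g5 | g5
  · exact chB_true k58_7 g4 g5 hb
  rcases Nat.lt_or_ge f 11 with g6 | g6
  · exact chB_true k58_9 g5 g6 hb
  rcases Nat.lt_or_ge f 13 with g7 | g7
  · exact chB_true k58_11 g6 g7 hb
  rcases Nat.lt_or_ge f 17 with g8 | g8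
  · exact chB_true k58_13 g7 g8 hb
  rcases Nat.lt_or_ge f 19 with g9 | g9
  · exact chB_true k58_17 g8 g9 hb
  rcases Nat.lt_or_ge f 33 with g10 | g10
  · exact chB_true k58_19 g9 g10 hb
  rcases Nat.lt_or_ge f 34 with g11 | g11
  · exact chB_true k58_33 g10 g11 hb
  rcases Nat.lt_or_ge f 35 with g12 | g12
  · exact chB_true k58_34 g11 g12 hb
  rcases Nat.lt_or_ge f 81 with g13 | g13
  · exact chB_true k58_35 g12 g13 hb
  rcases Nat.lt_or_ge f 97 with g14 | g14
  · exact chB_true k58_81 g13 g14 hb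
  rcases Nat.lt_or_ge f 137 with g15 | g15
  · exact chB_true k58_97 g14 g15 hb
  rcases Nat.lt_or_ge f 139 with g16 | g16
  · exact chB_true k58_137 g15 g16 hb
  rcases Nat.lt_or_ge f 161 with g17 | g17
  · exact chB_true k58_139 g16 g17 hb
  rcases Nat.lt_or_ge f 163 with g18 | g18
  · exact chB_true k58_161 g17 g18 hb
  rcases Nat.lt_or_ge f 289 with g19 | g19
  · exact chB_true k58_163 g18 g19 hb
  rcases Nat.lt_or_ge f 290 with g20 | g20
  · exact chB_true k58_289 g19 g20 hb
  rcases Nat.lt_or_ge f 513 with g21 | g21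
  · exact chB_true k58_290 g20 g21 hb
  rcases Nat.lt_or_ge f 514 with g22 | g22
  · exact chB_true k58_513 g21 g22 hb
  rcases Nat.lt_or_ge f 515 with g23 | g23
  · exact chB_true k58_514 g22 g23 hb
  rcases Nat.lt_or_ge f 519 with g24 | g24
  · exact chB_true k58_515 g23 g24 hb
  rcases Nat.lt_or_ge f 525 with g25 | g25
  · exact chB_true k58_519 g24 g25 hb
  rcases Nat.lt_or_ge f 531 with g26 | g26
  · exact chB_true k58_525 g25 g26 hb
  rcases Nat.lt_or_ge f 545 with g27 | g27
  · exact chB_true k58_531 g26 g27 hb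
  exact chB_true k58_545 g27 hf hb

theorem ka59 {f : ℕ} (hf : f < 1024) (hb : Nat.beq (Nat.mod (Nat.shiftRight rq59 f) 2) 1 = true) : chm 59 f = true := by
  rcases Nat.lt_or_ge f 1 with g1 | g1
  · exact chB_true k59_0 (Nat.zero_le _) g1 hb
  rcases Nat.lt_or_ge f 2 with g2 | g2
  · exact chB_true k59_1 g1 g2 hb
  rcases Nat.lt_or_ge f 3 with g3 | g3
  · exact chB_true k59_2 g2 g3 hb
  rcases Nat.lt_or_ge f 7 with g4 | g4
  · exact chB_true k59_3 g3 g4 hb
  rcases Nat.lt_or_ge f 9 with g5 | g5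
  · exact chB_true k59_7 g4 g5 hb
  rcases Nat.lt_or_ge f 10 with g6 | g6
  · exact chB_true k59_9 g5 g6 hb
  rcases Nat.lt_or_ge f 11 with g7 | g7
  · exact chB_true k59_10 g6 g7 hb
  rcases Nat.lt_or_ge f 13 with g8 | g8
  · exact chB_true k59_11 g7 g8 hb
  rcases Nat.lt_or_ge f 17 with g9 | g9
  · exact chB_true k59_13 g8 g9 hb
  rcases Nat.lt_or_ge f 19 with g10 | g10
  · exact chB_true k59_17 g9 g10 hb
  rcases Nat.lt_or_ge f 25 with g11 | g11
  · exact chB_true k59_19 g10 g11 hb
  rcases Nat.lt_or_ge f 33 with g12 | g12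
  · exact chB_true k59_25 g11 g12 hb
  rcases Nat.lt_or_ge f 34 with g13 | g13
  · exact chB_true k59_33 g12 g13 hb
  rcases Nat.lt_or_ge f 35 with g14 | g14
  · exact chB_true k59_34 g13 g14 hb
  rcases Nat.lt_or_ge f 41 with g15 | g15
  · exact chB_true k59_35 g14 g15 hb
  rcases Nat.lt_or_ge f 49 with g16 | g16
  · exact chB_true k59_41 g15 g16 hb
  rcases Nat.lt_or_ge f 73 with g17 | g17
  · exact chB_true k59_49 g16 g17 hb
  rcases Nat.lt_or_ge f 77 with g18 | g18
  · exact chB_true k59_73 g17 g18 hb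
  rcases Nat.lt_or_ge f 81 with g19 | g19
  · exact chB_true k59_77 g18 g19 hb
  rcases Nat.lt_or_ge f 89 with g20 | g20
  · exact chB_true k59_81 g19 g20 hb
  rcases Nat.lt_or_ge f 97 with g21 | g21
  · exact chB_true k59_89 g20 g21 hb
  rcases Nat.lt_or_ge f 101 with g22 | g22
  · exact chB_true k59_97 g21 g22 hb
  rcases Nat.lt_or_ge f 105 with g23 | g23
  · exact chB_true k59_101 g22 g23 hb
  rcases Nat.lt_or_ge f 113 with g24 | g24
  · exact chB_true k59_105 g23 g24 hb
  rcases Nat.lt_or_ge f 137 with g25 | g25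
  · exact chB_true k59_113 g24 g25 hb
  rcases Nat.lt_or_ge f 138 with g26 | g26
  · exact chB_true k59_137 g25 g26 hb
  rcases Nat.lt_or_ge f 139 with g27 | g27
  · exact chB_true k59_138 g26 g27 hb
  rcases Nat.lt_or_ge f 153 with g28 | g28
  · exact chB_true k59_139 g27 g28 hb
  rcases Nat.lt_or_ge f 161 with g29 | g29
  · exact chB_true k59_153 g28 g29 hb
  rcases Nat.lt_or_ge f 162 with g30 | g30
  · exact chB_true k59_161 g29 g30 hb
  rcases Nat.lt_or_ge f 163 with g31 | g31
  · exact chB_true k59_162 g30 g31 hb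
  rcases Nat.lt_or_ge f 169 with g32 | g32
  · exact chB_true k59_163 g31 g32 hb
  rcases Nat.lt_or_ge f 177 with g33 | g33
  · exact chB_true k59_169 g32 g33 hb
  rcases Nat.lt_or_ge f 225 with g34 | g34
  · exact chB_true k59_177 g33 g34 hb
  rcases Nat.lt_or_ge f 233 with g35 | g35
  · exact chB_true k59_225 g34 g35 hb
  rcases Nat.lt_or_ge f 241 with g36 | g36
  · exact chB_true k59_233 g35 g36 hb
  rcases Nat.lt_or_ge f 289 with g37 | g37
  · exact chB_true k59_241 g36 g37 hb
  rcases Nat.lt_or_ge f 290 with g38 | g38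
  · exact chB_true k59_289 g37 g38 hb
  rcases Nat.lt_or_ge f 297 with g39 | g39
  · exact chB_true k59_290 g38 g39 hb
  rcases Nat.lt_or_ge f 305 with g40 | g40
  · exact chB_true k59_297 g39 g40 hb
  rcases Nat.lt_or_ge f 361 with g41 | g41
  · exact chB_true k59_305 g40 g41 hb
  rcases Nat.lt_or_ge f 369 with g42 | g42
  · exact chB_true k59_361 g41 g42 hb
  rcases Nat.lt_or_ge f 425 with g43 | g43
  · exact chB_true k59_369 g42 g43 hb
  rcases Nat.lt_or_ge f 513 with g44 | g44
  · exact chB_true k59_425 g43 g44 hb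
  rcases Nat.lt_or_ge f 514 with g45 | g45
  · exact chB_true k59_513 g44 g45 hb
  rcases Nat.lt_or_ge f 515 with g46 | g46
  · exact chB_true k59_514 g45 g46 hb
  rcases Nat.lt_or_ge f 519 with g47 | g47
  · exact chB_true k59_515 g46 g47 hb
  rcases Nat.lt_or_ge f 521 with g48 | g48
  · exact chB_true k59_519 g47 g48 hb
  rcases Nat.lt_or_ge f 523 with g49 | g49
  · exact chB_true k59_521 g48 g49 hb
  rcases Nat.lt_or_ge f 525 with g50 | g50
  · exact chB_true k59_523 g49 g50 hb
  rcases Nat.lt_or_ge f 529 with g51 | g51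
  · exact chB_true k59_525 g50 g51 hb
  rcases Nat.lt_or_ge f 531 with g52 | g52
  · exact chB_true k59_529 g51 g52 hb
  rcases Nat.lt_or_ge f 545 with g53 | g53
  · exact chB_true k59_531 g52 g53 hb
  rcases Nat.lt_or_ge f 546 with g54 | g54
  · exact chB_true k59_545 g53 g54 hb
  rcases Nat.lt_or_ge f 547 with g55 | g55
  · exact chB_true k59_546 g54 g55 hb
  rcases Nat.lt_or_ge f 553 with g56 | g56
  · exact chB_true k59_547 g55 g56 hb
  rcases Nat.lt_or_ge f 585 with g57 | g57
  · exact chB_true k59_553 g56 g57 hb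
  rcases Nat.lt_or_ge f 589 with g58 | g58
  · exact chB_true k59_585 g57 g58 hb
  rcases Nat.lt_or_ge f 593 with g59 | g59
  · exact chB_true k59_589 g58 g59 hb
  rcases Nat.lt_or_ge f 609 with g60 | g60
  · exact chB_true k59_593 g59 g60 hb
  rcases Nat.lt_or_ge f 613 with g61 | g61
  · exact chB_true k59_609 g60 g61 hb
  rcases Nat.lt_or_ge f 617 with g62 | g62
  · exact chB_true k59_613 g61 g62 hb
  rcases Nat.lt_or_ge f 625 with g63 | g63
  · exact chB_true k59_617 g62 g63 hb
  rcases Nat.lt_or_ge f 649 with g64 | g64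
  · exact chB_true k59_625 g63 g64 hb
  rcases Nat.lt_or_ge f 651 with g65 | g65
  · exact chB_true k59_649 g64 g65 hb
  rcases Nat.lt_or_ge f 673 with g66 | g66
  · exact chB_true k59_651 g65 g66 hb
  rcases Nat.lt_or_ge f 674 with g67 | g67
  · exact chB_true k59_673 g66 g67 hb
  rcases Nat.lt_or_ge f 675 with g68 | g68
  · exact chB_true k59_674 g67 g68 hb
  rcases Nat.lt_or_ge f 681 with g69 | g69
  · exact chB_true k59_675 g68 g69 hb
  rcases Nat.lt_or_ge f 801 with g70 | g70
  · exact chB_true k59_681 g69 g70 hb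
  rcases Nat.lt_or_ge f 802 with g71 | g71
  · exact chB_true k59_801 g70 g71 hb
  rcases Nat.lt_or_ge f 809 with g72 | g72
  · exact chB_true k59_802 g71 g72 hb
  rcases Nat.lt_or_ge f 881 with g73 | g73
  · exact chB_true k59_809 g72 g73 hb
  exact chB_true k59_881 g73 hf hb

theorem ka62 {f : ℕ} (hf : f < 1024) (hb : Nat.beq (Nat.mod (Nat.shiftRight rq62 f) 2) 1 = true) : chm 62 f = true := by
  rcases Nat.lt_or_ge f 1 with g1 | g1
  · exact chB_true k62_0 (Nat.zero_le _) g1 hb
  rcases Nat.lt_or_ge f 2 with g2 | g2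
  · exact chB_true k62_1 g1 g2 hb
  rcases Nat.lt_or_ge f 4 with g3 | g3
  · exact chB_true k62_2 g2 g3 hb
  rcases Nat.lt_or_ge f 5 with g4 | g4
  · exact chB_true k62_4 g3 g4 hb
  rcases Nat.lt_or_ge f 6 with g5 | g5
  · exact chB_true k62_5 g4 g5 hb
  rcases Nat.lt_or_ge f 9 with g6 | g6
  · exact chB_true k62_6 g5 g6 hb
  rcases Nat.lt_or_ge f 13 with g7 | g7
  · exact chB_true k62_9 g6 g7 hb
  rcases Nat.lt_or_ge f 17 with g8 | g8
  · exact chB_true k62_13 g7 g8 hb
  rcases Nat.lt_or_ge f 19 with g9 | g9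
  · exact chB_true k62_17 g8 g9 hb
  rcases Nat.lt_or_ge f 65 with g10 | g10
  · exact chB_true k62_19 g9 g10 hb
  rcases Nat.lt_or_ge f 66 with g11 | g11
  · exact chB_true k62_65 g10 g11 hb
  rcases Nat.lt_or_ge f 69 with g12 | g12
  · exact chB_true k62_66 g11 g12 hb
  rcases Nat.lt_or_ge f 70 with g13 | g13
  · exact chB_true k62_69 g12 g13 hb
  rcases Nat.lt_or_ge f 73 with g14 | g14
  · exact chB_true k62_70 g13 g14 hb
  rcases Nat.lt_or_ge f 77 with g15 | g15
  · exact chB_true k62_73 g14 g15 hb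
  rcases Nat.lt_or_ge f 81 with g16 | g16
  · exact chB_true k62_77 g15 g16 hb
  rcases Nat.lt_or_ge f 83 with g17 | g17
  · exact chB_true k62_81 g16 g17 hb
  rcases Nat.lt_or_ge f 129 with g18 | g18
  · exact chB_true k62_83 g17 g18 hb
  rcases Nat.lt_or_ge f 130 with g19 | g19
  · exact chB_true k62_129 g18 g19 hb
  rcases Nat.lt_or_ge f 131 with g20 | g20
  · exact chB_true k62_130 g19 g20 hb
  rcases Nat.lt_or_ge f 132 with g21 | g21
  · exact chB_true k62_131 g20 g21 hb
  rcases Nat.lt_or_ge f 133 with g22 | g22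
  · exact chB_true k62_132 g21 g22 hb
  rcases Nat.lt_or_ge f 135 with g23 | g23
  · exact chB_true k62_133 g22 g23 hb
  rcases Nat.lt_or_ge f 137 with g24 | g24
  · exact chB_true k62_135 g23 g24 hb
  rcases Nat.lt_or_ge f 141 with g25 | g25
  · exact chB_true k62_137 g24 g25 hb
  rcases Nat.lt_or_ge f 145 with g26 | g26
  · exact chB_true k62_141 g25 g26 hb
  rcases Nat.lt_or_ge f 147 with g27 | g27
  · exact chB_true k62_145 g26 g27 hb
  rcases Nat.lt_or_ge f 161 with g28 | g28
  · exact chB_true k62_147 g27 g28 hb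
  rcases Nat.lt_or_ge f 162 with g29 | g29
  · exact chB_true k62_161 g28 g29 hb
  rcases Nat.lt_or_ge f 193 with g30 | g30
  · exact chB_true k62_162 g29 g30 hb
  rcases Nat.lt_or_ge f 197 with g31 | g31
  · exact chB_true k62_193 g30 g31 hb
  rcases Nat.lt_or_ge f 201 with g32 | g32
  · exact chB_true k62_197 g31 g32 hb
  rcases Nat.lt_or_ge f 205 with g33 | g33
  · exact chB_true k62_201 g32 g33 hb
  rcases Nat.lt_or_ge f 209 with g34 | g34
  · exact chB_true k62_205 g33 g34 hb
  rcases Nat.lt_or_ge f 225 with g35 | g35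
  · exact chB_true k62_209 g34 g35 hb
  rcases Nat.lt_or_ge f 385 with g36 | g36
  · exact chB_true k62_225 g35 g36 hb
  rcases Nat.lt_or_ge f 386 with g37 | g37
  · exact chB_true k62_385 g36 g37 hb
  rcases Nat.lt_or_ge f 389 with g38 | g38
  · exact chB_true k62_386 g37 g38 hb
  rcases Nat.lt_or_ge f 393 with g39 | g39
  · exact chB_true k62_389 g38 g39 hb
  rcases Nat.lt_or_ge f 397 with g40 | g40
  · exact chB_true k62_393 g39 g40 hb
  rcases Nat.lt_or_ge f 401 with g41 | g41
  · exact chB_true k62_397 g40 g41 hb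
  rcases Nat.lt_or_ge f 403 with g42 | g42
  · exact chB_true k62_401 g41 g42 hb
  rcases Nat.lt_or_ge f 513 with g43 | g43
  · exact chB_true k62_403 g42 g43 hb
  rcases Nat.lt_or_ge f 514 with g44 | g44
  · exact chB_true k62_513 g43 g44 hb
  rcases Nat.lt_or_ge f 516 with g45 | g45
  · exact chB_true k62_514 g44 g45 hb
  rcases Nat.lt_or_ge f 517 with g46 | g46
  · exact chB_true k62_516 g45 g46 hb
  rcases Nat.lt_or_ge f 518 with g47 | g47
  · exact chB_true k62_517 g46 g47 hb
  rcases Nat.lt_or_ge f 521 with g48 | g48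
  · exact chB_true k62_518 g47 g48 hb
  rcases Nat.lt_or_ge f 525 with g49 | g49
  · exact chB_true k62_521 g48 g49 hb
  rcases Nat.lt_or_ge f 529 with g50 | g50
  · exact chB_true k62_525 g49 g50 hb
  rcases Nat.lt_or_ge f 531 with g51 | g51
  · exact chB_true k62_529 g50 g51 hb
  rcases Nat.lt_or_ge f 577 with g52 | g52
  · exact chB_true k62_531 g51 g52 hb
  rcases Nat.lt_or_ge f 578 with g53 | g53
  · exact chB_true k62_577 g52 g53 hb
  rcases Nat.lt_or_ge f 581 with g54 | g54
  · exact chB_true k62_578 g53 g54 hb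
  rcases Nat.lt_or_ge f 582 with g55 | g55
  · exact chB_true k62_581 g54 g55 hb
  rcases Nat.lt_or_ge f 589 with g56 | g56
  · exact chB_true k62_582 g55 g56 hb
  rcases Nat.lt_or_ge f 593 with g57 | g57
  · exact chB_true k62_589 g56 g57 hb
  rcases Nat.lt_or_ge f 595 with g58 | g58
  · exact chB_true k62_593 g57 g58 hb
  rcases Nat.lt_or_ge f 641 with g59 | g59
  · exact chB_true k62_595 g58 g59 hb
  rcases Nat.lt_or_ge f 642 with g60 | g60
  · exact chB_true k62_641 g59 g60 hb
  rcases Nat.lt_or_ge f 643 with g61 | g61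
  · exact chB_true k62_642 g60 g61 hb
  rcases Nat.lt_or_ge f 645 with g62 | g62
  · exact chB_true k62_643 g61 g62 hb
  rcases Nat.lt_or_ge f 647 with g63 | g63
  · exact chB_true k62_645 g62 g63 hb
  rcases Nat.lt_or_ge f 649 with g64 | g64
  · exact chB_true k62_647 g63 g64 hb
  rcases Nat.lt_or_ge f 653 with g65 | g65
  · exact chB_true k62_649 g64 g65 hb
  rcases Nat.lt_or_ge f 659 with g66 | g66
  · exact chB_true k62_653 g65 g66 hb
  rcases Nat.lt_or_ge f 673 with g67 | g67
  · exact chB_true k62_659 g66 g67 hb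
  rcases Nat.lt_or_ge f 674 with g68 | g68
  · exact chB_true k62_673 g67 g68 hb
  rcases Nat.lt_or_ge f 705 with g69 | g69
  · exact chB_true k62_674 g68 g69 hb
  rcases Nat.lt_or_ge f 709 with g70 | g70
  · exact chB_true k62_705 g69 g70 hb
  rcases Nat.lt_or_ge f 737 with g71 | g71
  · exact chB_true k62_709 g70 g71 hb
  rcases Nat.lt_or_ge f 897 with g72 | g72
  · exact chB_true k62_737 g71 g72 hb
  rcases Nat.lt_or_ge f 905 with g73 | g73
  · exact chB_true k62_897 g72 g73 hb
  rcases Nat.lt_or_ge f 909 with g74 | g74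
  · exact chB_true k62_905 g73 g74 hb
  exact chB_true k62_909 g74 hf hb

theorem ka63 {f : ℕ} (hf : f < 1024) (hb : Nat.beq (Nat.mod (Nat.shiftRight rq63 f) 2) 1 = true) : chm 63 f = true := by
  rcases Nat.lt_or_ge f 1 with g1 | g1
  · exact chB_true k63_0 (Nat.zero_le _) g1 hb
  rcases Nat.lt_or_ge f 2 with g2 | g2
  · exact chB_true k63_1 g1 g2 hb
  rcases Nat.lt_or_ge f 4 with g3 | g3
  · exact chB_true k63_2 g2 g3 hb
  rcases Nat.lt_or_ge f 5 with g4 | g4
  · exact chB_true k63_4 g3 g4 hb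
  rcases Nat.lt_or_ge f 6 with g5 | g5
  · exact chB_true k63_5 g4 g5 hb
  rcases Nat.lt_or_ge f 9 with g6 | g6
  · exact chB_true k63_6 g5 g6 hb
  rcases Nat.lt_or_ge f 10 with g7 | g7
  · exact chB_true k63_9 g6 g7 hb
  rcases Nat.lt_or_ge f 13 with g8 | g8
  · exact chB_true k63_10 g7 g8 hb
  rcases Nat.lt_or_ge f 17 with g9 | g9
  · exact chB_true k63_13 g8 g9 hb
  rcases Nat.lt_or_ge f 18 with g10 | g10
  · exact chB_true k63_17 g9 g10 hb
  rcases Nat.lt_or_ge f 19 with g11 | g11
  · exact chB_true k63_18 g10 g11 hb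
  rcases Nat.lt_or_ge f 21 with g12 | g12
  · exact chB_true k63_19 g11 g12 hb
  rcases Nat.lt_or_ge f 49 with g13 | g13
  · exact chB_true k63_21 g12 g13 hb
  rcases Nat.lt_or_ge f 65 with g14 | g14
  · exact chB_true k63_49 g13 g14 hb
  rcases Nat.lt_or_ge f 66 with g15 | g15
  · exact chB_true k63_65 g14 g15 hb
  rcases Nat.lt_or_ge f 68 with g16 | g16
  · exact chB_true k63_66 g15 g16 hb
  rcases Nat.lt_or_ge f 69 with g17 | g17
  · exact chB_true k63_68 g16 g17 hb
  rcases Nat.lt_or_ge f 70 with g18 | g18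
  · exact chB_true k63_69 g17 g18 hb
  rcases Nat.lt_or_ge f 73 with g19 | g19
  · exact chB_true k63_70 g18 g19 hb
  rcases Nat.lt_or_ge f 74 with g20 | g20
  · exact chB_true k63_73 g19 g20 hb
  rcases Nat.lt_or_ge f 77 with g21 | g21
  · exact chB_true k63_74 g20 g21 hb
  rcases Nat.lt_or_ge f 81 with g22 | g22
  · exact chB_true k63_77 g21 g22 hb
  rcases Nat.lt_or_ge f 82 with g23 | g23
  · exact chB_true k63_81 g22 g23 hb
  rcases Nat.lt_or_ge f 83 with g24 | g24
  · exact chB_true k63_82 g23 g24 hb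
  rcases Nat.lt_or_ge f 85 with g25 | g25
  · exact chB_true k63_83 g24 g25 hb
  rcases Nat.lt_or_ge f 89 with g26 | g26
  · exact chB_true k63_85 g25 g26 hb
  rcases Nat.lt_or_ge f 113 with g27 | g27
  · exact chB_true k63_89 g26 g27 hb
  rcases Nat.lt_or_ge f 129 with g28 | g28
  · exact chB_true k63_113 g27 g28 hb
  rcases Nat.lt_or_ge f 130 with g29 | g29
  · exact chB_true k63_129 g28 g29 hb
  rcases Nat.lt_or_ge f 131 with g30 | g30
  · exact chB_true k63_130 g29 g30 hb
  rcases Nat.lt_or_ge f 132 with g31 | g31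
  · exact chB_true k63_131 g30 g31 hb
  rcases Nat.lt_or_ge f 133 with g32 | g32
  · exact chB_true k63_132 g31 g32 hb
  rcases Nat.lt_or_ge f 135 with g33 | g33
  · exact chB_true k63_133 g32 g33 hb
  rcases Nat.lt_or_ge f 137 with g34 | g34
  · exact chB_true k63_135 g33 g34 hb
  rcases Nat.lt_or_ge f 138 with g35 | g35
  · exact chB_true k63_137 g34 g35 hb
  rcases Nat.lt_or_ge f 139 with g36 | g36
  · exact chB_true k63_138 g35 g36 hb
  rcases Nat.lt_or_ge f 141 with g37 | g37
  · exact chB_true k63_139 g36 g37 hb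
  rcases Nat.lt_or_ge f 145 with g38 | g38
  · exact chB_true k63_141 g37 g38 hb
  rcases Nat.lt_or_ge f 147 with g39 | g39
  · exact chB_true k63_145 g38 g39 hb
  rcases Nat.lt_or_ge f 153 with g40 | g40
  · exact chB_true k63_147 g39 g40 hb
  rcases Nat.lt_or_ge f 161 with g41 | g41
  · exact chB_true k63_153 g40 g41 hb
  rcases Nat.lt_or_ge f 162 with g42 | g42
  · exact chB_true k63_161 g41 g42 hb
  rcases Nat.lt_or_ge f 163 with g43 | g43
  · exact chB_true k63_162 g42 g43 hb
  rcases Nat.lt_or_ge f 169 with g44 | g44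
  · exact chB_true k63_163 g43 g44 hb
  rcases Nat.lt_or_ge f 177 with g45 | g45
  · exact chB_true k63_169 g44 g45 hb
  rcases Nat.lt_or_ge f 193 with g46 | g46
  · exact chB_true k63_177 g45 g46 hb
  rcases Nat.lt_or_ge f 194 with g47 | g47
  · exact chB_true k63_193 g46 g47 hb
  rcases Nat.lt_or_ge f 195 with g48 | g48
  · exact chB_true k63_194 g47 g48 hb
  rcases Nat.lt_or_ge f 197 with g49 | g49
  · exact chB_true k63_195 g48 g49 hb
  rcases Nat.lt_or_ge f 201 with g50 | g50
  · exact chB_true k63_197 g49 g50 hb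
  rcases Nat.lt_or_ge f 202 with g51 | g51
  · exact chB_true k63_201 g50 g51 hb
  rcases Nat.lt_or_ge f 203 with g52 | g52
  · exact chB_true k63_202 g51 g52 hb
  rcases Nat.lt_or_ge f 205 with g53 | g53
  · exact chB_true k63_203 g52 g53 hb
  rcases Nat.lt_or_ge f 209 with g54 | g54
  · exact chB_true k63_205 g53 g54 hb
  rcases Nat.lt_or_ge f 210 with g55 | g55
  · exact chB_true k63_209 g54 g55 hb
  rcases Nat.lt_or_ge f 211 with g56 | g56
  · exact chB_true k63_210 g55 g56 hb
  rcases Nat.lt_or_ge f 213 with g57 | g57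
  · exact chB_true k63_211 g56 g57 hb
  rcases Nat.lt_or_ge f 217 with g58 | g58
  · exact chB_true k63_213 g57 g58 hb
  rcases Nat.lt_or_ge f 225 with g59 | g59
  · exact chB_true k63_217 g58 g59 hb
  rcases Nat.lt_or_ge f 226 with g60 | g60
  · exact chB_true k63_225 g59 g60 hb
  rcases Nat.lt_or_ge f 227 with g61 | g61
  · exact chB_true k63_226 g60 g61 hb
  rcases Nat.lt_or_ge f 229 with g62 | g62
  · exact chB_true k63_227 g61 g62 hb
  rcases Nat.lt_or_ge f 233 with g63 | g63
  · exact chB_true k63_229 g62 g63 hb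
  rcases Nat.lt_or_ge f 241 with g64 | g64
  · exact chB_true k63_233 g63 g64 hb
  rcases Nat.lt_or_ge f 385 with g65 | g65
  · exact chB_true k63_241 g64 g65 hb
  rcases Nat.lt_or_ge f 386 with g66 | g66
  · exact chB_true k63_385 g65 g66 hb
  rcases Nat.lt_or_ge f 389 with g67 | g67
  · exact chB_true k63_386 g66 g67 hb
  rcases Nat.lt_or_ge f 393 with g68 | g68
  · exact chB_true k63_389 g67 g68 hb
  rcases Nat.lt_or_ge f 394 with g69 | g69
  · exact chB_true k63_393 g68 g69 hb
  rcases Nat.lt_or_ge f 397 with g70 | g70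
  · exact chB_true k63_394 g69 g70 hb
  rcases Nat.lt_or_ge f 401 with g71 | g71
  · exact chB_true k63_397 g70 g71 hb
  rcases Nat.lt_or_ge f 402 with g72 | g72
  · exact chB_true k63_401 g71 g72 hb
  rcases Nat.lt_or_ge f 403 with g73 | g73
  · exact chB_true k63_402 g72 g73 hb
  rcases Nat.lt_or_ge f 409 with g74 | g74
  · exact chB_true k63_403 g73 g74 hb
  rcases Nat.lt_or_ge f 433 with g75 | g75
  · exact chB_true k63_409 g74 g75 hb
  rcases Nat.lt_or_ge f 449 with g76 | g76
  · exact chB_true k63_433 g75 g76 hb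
  rcases Nat.lt_or_ge f 457 with g77 | g77
  · exact chB_true k63_449 g76 g77 hb
  rcases Nat.lt_or_ge f 465 with g78 | g78
  · exact chB_true k63_457 g77 g78 hb
  rcases Nat.lt_or_ge f 473 with g79 | g79
  · exact chB_true k63_465 g78 g79 hb
  rcases Nat.lt_or_ge f 497 with g80 | g80
  · exact chB_true k63_473 g79 g80 hb
  rcases Nat.lt_or_ge f 513 with g81 | g81
  · exact chB_true k63_497 g80 g81 hb
  rcases Nat.lt_or_ge f 514 with g82 | g82
  · exact chB_true k63_513 g81 g82 hb
  rcases Nat.lt_or_ge f 516 with g83 | g83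
  · exact chB_true k63_514 g82 g83 hb
  rcases Nat.lt_or_ge f 517 with g84 | g84
  · exact chB_true k63_516 g83 g84 hb
  rcases Nat.lt_or_ge f 518 with g85 | g85
  · exact chB_true k63_517 g84 g85 hb
  rcases Nat.lt_or_ge f 521 with g86 | g86
  · exact chB_true k63_518 g85 g86 hb
  rcases Nat.lt_or_ge f 525 with g87 | g87
  · exact chB_true k63_521 g86 g87 hb
  rcases Nat.lt_or_ge f 529 with g88 | g88
  · exact chB_true k63_525 g87 g88 hb
  rcases Nat.lt_or_ge f 531 with g89 | g89
  · exact chB_true k63_529 g88 g89 hb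
  rcases Nat.lt_or_ge f 577 with g90 | g90
  · exact chB_true k63_531 g89 g90 hb
  rcases Nat.lt_or_ge f 578 with g91 | g91
  · exact chB_true k63_577 g90 g91 hb
  rcases Nat.lt_or_ge f 580 with g92 | g92
  · exact chB_true k63_578 g91 g92 hb
  rcases Nat.lt_or_ge f 581 with g93 | g93
  · exact chB_true k63_580 g92 g93 hb
  rcases Nat.lt_or_ge f 582 with g94 | g94
  · exact chB_true k63_581 g93 g94 hb
  rcases Nat.lt_or_ge f 585 with g95 | g95
  · exact chB_true k63_582 g94 g95 hb
  rcases Nat.lt_or_ge f 589 with g96 | g96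
  · exact chB_true k63_585 g95 g96 hb
  rcases Nat.lt_or_ge f 593 with g97 | g97
  · exact chB_true k63_589 g96 g97 hb
  rcases Nat.lt_or_ge f 595 with g98 | g98
  · exact chB_true k63_593 g97 g98 hb
  rcases Nat.lt_or_ge f 597 with g99 | g99
  · exact chB_true k63_595 g98 g99 hb
  rcases Nat.lt_or_ge f 625 with g100 | g100
  · exact chB_true k63_597 g99 g100 hb
  rcases Nat.lt_or_ge f 641 with g101 | g101
  · exact chB_true k63_625 g100 g101 hb
  rcases Nat.lt_or_ge f 642 with g102 | g102
  · exact chB_true k63_641 g101 g102 hb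
  rcases Nat.lt_or_ge f 643 with g103 | g103
  · exact chB_true k63_642 g102 g103 hb
  rcases Nat.lt_or_ge f 644 with g104 | g104
  · exact chB_true k63_643 g103 g104 hb
  rcases Nat.lt_or_ge f 645 with g105 | g105
  · exact chB_true k63_644 g104 g105 hb
  rcases Nat.lt_or_ge f 647 with g106 | g106
  · exact chB_true k63_645 g105 g106 hb
  rcases Nat.lt_or_ge f 649 with g107 | g107
  · exact chB_true k63_647 g106 g107 hb
  rcases Nat.lt_or_ge f 651 with g108 | g108
  · exact chB_true k63_649 g107 g108 hb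
  rcases Nat.lt_or_ge f 653 with g109 | g109
  · exact chB_true k63_651 g108 g109 hb
  rcases Nat.lt_or_ge f 657 with g110 | g110
  · exact chB_true k63_653 g109 g110 hb
  rcases Nat.lt_or_ge f 659 with g111 | g111
  · exact chB_true k63_657 g110 g111 hb
  rcases Nat.lt_or_ge f 673 with g112 | g112
  · exact chB_true k63_659 g111 g112 hb
  rcases Nat.lt_or_ge f 674 with g113 | g113
  · exact chB_true k63_673 g112 g113 hb
  rcases Nat.lt_or_ge f 675 with g114 | g114
  · exact chB_true k63_674 g113 g114 hb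
  rcases Nat.lt_or_ge f 705 with g115 | g115
  · exact chB_true k63_675 g114 g115 hb
  rcases Nat.lt_or_ge f 707 with g116 | g116
  · exact chB_true k63_705 g115 g116 hb
  rcases Nat.lt_or_ge f 709 with g117 | g117
  · exact chB_true k63_707 g116 g117 hb
  rcases Nat.lt_or_ge f 713 with g118 | g118
  · exact chB_true k63_709 g117 g118 hb
  rcases Nat.lt_or_ge f 715 with g119 | g119
  · exact chB_true k63_713 g118 g119 hb
  rcases Nat.lt_or_ge f 717 with g120 | g120
  · exact chB_true k63_715 g119 g120 hb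
  rcases Nat.lt_or_ge f 721 with g121 | g121
  · exact chB_true k63_717 g120 g121 hb
  rcases Nat.lt_or_ge f 723 with g122 | g122
  · exact chB_true k63_721 g121 g122 hb
  rcases Nat.lt_or_ge f 725 with g123 | g123
  · exact chB_true k63_723 g122 g123 hb
  rcases Nat.lt_or_ge f 737 with g124 | g124
  · exact chB_true k63_725 g123 g124 hb
  rcases Nat.lt_or_ge f 738 with g125 | g125
  · exact chB_true k63_737 g124 g125 hb
  rcases Nat.lt_or_ge f 739 with g126 | g126
  · exact chB_true k63_738 g125 g126 hb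
  rcases Nat.lt_or_ge f 741 with g127 | g127
  · exact chB_true k63_739 g126 g127 hb
  rcases Nat.lt_or_ge f 753 with g128 | g128
  · exact chB_true k63_741 g127 g128 hb
  rcases Nat.lt_or_ge f 897 with g129 | g129
  · exact chB_true k63_753 g128 g129 hb
  rcases Nat.lt_or_ge f 898 with g130 | g130
  · exact chB_true k63_897 g129 g130 hb
  rcases Nat.lt_or_ge f 901 with g131 | g131
  · exact chB_true k63_898 g130 g131 hb
  rcases Nat.lt_or_ge f 905 with g132 | g132
  · exact chB_true k63_901 g131 g132 hb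
  rcases Nat.lt_or_ge f 906 with g133 | g133
  · exact chB_true k63_905 g132 g133 hb
  rcases Nat.lt_or_ge f 909 with g134 | g134
  · exact chB_true k63_906 g133 g134 hb
  rcases Nat.lt_or_ge f 913 with g135 | g135
  · exact chB_true k63_909 g134 g135 hb
  rcases Nat.lt_or_ge f 915 with g136 | g136
  · exact chB_true k63_913 g135 g136 hb
  rcases Nat.lt_or_ge f 961 with g137 | g137
  · exact chB_true k63_915 g136 g137 hb
  rcases Nat.lt_or_ge f 969 with g138 | g138
  · exact chB_true k63_961 g137 g138 hb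
  rcases Nat.lt_or_ge f 977 with g139 | g139
  · exact chB_true k63_969 g138 g139 hb
  exact chB_true k63_977 g139 hf hb

theorem ka126 {f : ℕ} (hf : f < 1024) (hb : Nat.beq (Nat.mod (Nat.shiftRight rq126 f) 2) 1 = true) : chm 126 f = true := by
  rcases Nat.lt_or_ge f 1 with g1 | g1
  · exact chB_true k126_0 (Nat.zero_le _) g1 hb
  rcases Nat.lt_or_ge f 2 with g2 | g2
  · exact chB_true k126_1 g1 g2 hb
  rcases Nat.lt_or_ge f 4 with g3 | g3
  · exact chB_true k126_2 g2 g3 hb
  rcases Nat.lt_or_ge f 8 with g4 | g4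
  · exact chB_true k126_4 g3 g4 hb
  rcases Nat.lt_or_ge f 9 with g5 | g5
  · exact chB_true k126_8 g4 g5 hb
  rcases Nat.lt_or_ge f 10 with g6 | g6
  · exact chB_true k126_9 g5 g6 hb
  rcases Nat.lt_or_ge f 12 with g7 | g7
  · exact chB_true k126_10 g6 g7 hb
  rcases Nat.lt_or_ge f 13 with g8 | g8
  · exact chB_true k126_12 g7 g8 hb
  rcases Nat.lt_or_ge f 14 with g9 | g9
  · exact chB_true k126_13 g8 g9 hb
  rcases Nat.lt_or_ge f 25 with g10 | g10
  · exact chB_true k126_14 g9 g10 hb
  rcases Nat.lt_or_ge f 27 with g11 | g11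
  · exact chB_true k126_25 g10 g11 hb
  rcases Nat.lt_or_ge f 57 with g12 | g12
  · exact chB_true k126_27 g11 g12 hb
  rcases Nat.lt_or_ge f 73 with g13 | g13
  · exact chB_true k126_57 g12 g13 hb
  rcases Nat.lt_or_ge f 74 with g14 | g14
  · exact chB_true k126_73 g13 g14 hb
  rcases Nat.lt_or_ge f 76 with g15 | g15
  · exact chB_true k126_74 g14 g15 hb
  rcases Nat.lt_or_ge f 77 with g16 | g16
  · exact chB_true k126_76 g15 g16 hb
  rcases Nat.lt_or_ge f 78 with g17 | g17
  · exact chB_true k126_77 g16 g17 hb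
  rcases Nat.lt_or_ge f 81 with g18 | g18
  · exact chB_true k126_78 g17 g18 hb
  rcases Nat.lt_or_ge f 82 with g19 | g19
  · exact chB_true k126_81 g18 g19 hb
  rcases Nat.lt_or_ge f 83 with g20 | g20
  · exact chB_true k126_82 g19 g20 hb
  rcases Nat.lt_or_ge f 84 with g21 | g21
  · exact chB_true k126_83 g20 g21 hb
  rcases Nat.lt_or_ge f 87 with g22 | g22
  · exact chB_true k126_84 g21 g22 hb
  rcases Nat.lt_or_ge f 89 with g23 | g23
  · exact chB_true k126_87 g22 g23 hb
  rcases Nat.lt_or_ge f 91 with g24 | g24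
  · exact chB_true k126_89 g23 g24 hb
  rcases Nat.lt_or_ge f 93 with g25 | g25
  · exact chB_true k126_91 g24 g25 hb
  rcases Nat.lt_or_ge f 113 with g26 | g26
  · exact chB_true k126_93 g25 g26 hb
  rcases Nat.lt_or_ge f 114 with g27 | g27
  · exact chB_true k126_113 g26 g27 hb
  rcases Nat.lt_or_ge f 121 with g28 | g28
  · exact chB_true k126_114 g27 g28 hb
  rcases Nat.lt_or_ge f 217 with g29 | g29
  · exact chB_true k126_121 g28 g29 hb
  rcases Nat.lt_or_ge f 219 with g30 | g30
  · exact chB_true k126_217 g29 g30 hb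
  rcases Nat.lt_or_ge f 233 with g31 | g31
  · exact chB_true k126_219 g30 g31 hb
  rcases Nat.lt_or_ge f 237 with g32 | g32
  · exact chB_true k126_233 g31 g32 hb
  rcases Nat.lt_or_ge f 249 with g33 | g33
  · exact chB_true k126_237 g32 g33 hb
  rcases Nat.lt_or_ge f 505 with g34 | g34
  · exact chB_true k126_249 g33 g34 hb
  rcases Nat.lt_or_ge f 513 with g35 | g35
  · exact chB_true k126_505 g34 g35 hb
  rcases Nat.lt_or_ge f 514 with g36 | g36
  · exact chB_true k126_513 g35 g36 hb
  rcases Nat.lt_or_ge f 516 with g37 | g37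
  · exact chB_true k126_514 g36 g37 hb
  rcases Nat.lt_or_ge f 520 with g38 | g38
  · exact chB_true k126_516 g37 g38 hb
  rcases Nat.lt_or_ge f 521 with g39 | g39
  · exact chB_true k126_520 g38 g39 hb
  rcases Nat.lt_or_ge f 522 with g40 | g40
  · exact chB_true k126_521 g39 g40 hb
  rcases Nat.lt_or_ge f 524 with g41 | g41
  · exact chB_true k126_522 g40 g41 hb
  rcases Nat.lt_or_ge f 525 with g42 | g42
  · exact chB_true k126_524 g41 g42 hb
  rcases Nat.lt_or_ge f 526 with g43 | g43
  · exact chB_true k126_525 g42 g43 hb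
  rcases Nat.lt_or_ge f 537 with g44 | g44
  · exact chB_true k126_526 g43 g44 hb
  rcases Nat.lt_or_ge f 539 with g45 | g45
  · exact chB_true k126_537 g44 g45 hb
  rcases Nat.lt_or_ge f 569 with g46 | g46
  · exact chB_true k126_539 g45 g46 hb
  rcases Nat.lt_or_ge f 585 with g47 | g47
  · exact chB_true k126_569 g46 g47 hb
  rcases Nat.lt_or_ge f 586 with g48 | g48
  · exact chB_true k126_585 g47 g48 hb
  rcases Nat.lt_or_ge f 588 with g49 | g49
  · exact chB_true k126_586 g48 g49 hb
  rcases Nat.lt_or_ge f 589 with g50 | g50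
  · exact chB_true k126_588 g49 g50 hb
  rcases Nat.lt_or_ge f 590 with g51 | g51
  · exact chB_true k126_589 g50 g51 hb
  rcases Nat.lt_or_ge f 593 with g52 | g52
  · exact chB_true k126_590 g51 g52 hb
  rcases Nat.lt_or_ge f 594 with g53 | g53
  · exact chB_true k126_593 g52 g53 hb
  rcases Nat.lt_or_ge f 595 with g54 | g54
  · exact chB_true k126_594 g53 g54 hb
  rcases Nat.lt_or_ge f 596 with g55 | g55
  · exact chB_true k126_595 g54 g55 hb
  rcases Nat.lt_or_ge f 599 with g56 | g56
  · exact chB_true k126_596 g55 g56 hb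
  rcases Nat.lt_or_ge f 601 with g57 | g57
  · exact chB_true k126_599 g56 g57 hb
  rcases Nat.lt_or_ge f 603 with g58 | g58
  · exact chB_true k126_601 g57 g58 hb
  rcases Nat.lt_or_ge f 605 with g59 | g59
  · exact chB_true k126_603 g58 g59 hb
  rcases Nat.lt_or_ge f 625 with g60 | g60
  · exact chB_true k126_605 g59 g60 hb
  rcases Nat.lt_or_ge f 626 with g61 | g61
  · exact chB_true k126_625 g60 g61 hb
  rcases Nat.lt_or_ge f 633 with g62 | g62
  · exact chB_true k126_626 g61 g62 hb
  rcases Nat.lt_or_ge f 745 with g63 | g63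
  · exact chB_true k126_633 g62 g63 hb
  exact chB_true k126_745 g63 hf hb

theorem ka127 {f : ℕ} (hf : f < 1024) (hb : Nat.beq (Nat.mod (Nat.shiftRight rq127 f) 2) 1 = true) : chm 127 f = true := by
  rcases Nat.lt_or_ge f 1 with g1 | g1
  · exact chB_true k127_0 (Nat.zero_le _) g1 hb
  rcases Nat.lt_or_ge f 2 with g2 | g2
  · exact chB_true k127_1 g1 g2 hb
  rcases Nat.lt_or_ge f 4 with g3 | g3
  · exact chB_true k127_2 g2 g3 hb
  rcases Nat.lt_or_ge f 8 with g4 | g4
  · exact chB_true k127_4 g3 g4 hb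
  rcases Nat.lt_or_ge f 9 with g5 | g5
  · exact chB_true k127_8 g4 g5 hb
  rcases Nat.lt_or_ge f 10 with g6 | g6
  · exact chB_true k127_9 g5 g6 hb
  rcases Nat.lt_or_ge f 12 with g7 | g7
  · exact chB_true k127_10 g6 g7 hb
  rcases Nat.lt_or_ge f 13 with g8 | g8
  · exact chB_true k127_12 g7 g8 hb
  rcases Nat.lt_or_ge f 14 with g9 | g9
  · exact chB_true k127_13 g8 g9 hb
  rcases Nat.lt_or_ge f 25 with g10 | g10
  · exact chB_true k127_14 g9 g10 hb
  rcases Nat.lt_or_ge f 26 with g11 | g11
  · exact chB_true k127_25 g10 g11 hb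
  rcases Nat.lt_or_ge f 27 with g12 | g12
  · exact chB_true k127_26 g11 g12 hb
  rcases Nat.lt_or_ge f 57 with g13 | g13
  · exact chB_true k127_27 g12 g13 hb
  rcases Nat.lt_or_ge f 73 with g14 | g14
  · exact chB_true k127_57 g13 g14 hb
  rcases Nat.lt_or_ge f 74 with g15 | g15
  · exact chB_true k127_73 g14 g15 hb
  rcases Nat.lt_or_ge f 76 with g16 | g16
  · exact chB_true k127_74 g15 g16 hb
  rcases Nat.lt_or_ge f 77 with g17 | g17
  · exact chB_true k127_76 g16 g17 hb
  rcases Nat.lt_or_ge f 78 with g18 | g18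
  · exact chB_true k127_77 g17 g18 hb
  rcases Nat.lt_or_ge f 81 with g19 | g19
  · exact chB_true k127_78 g18 g19 hb
  rcases Nat.lt_or_ge f 82 with g20 | g20
  · exact chB_true k127_81 g19 g20 hb
  rcases Nat.lt_or_ge f 83 with g21 | g21
  · exact chB_true k127_82 g20 g21 hb
  rcases Nat.lt_or_ge f 84 with g22 | g22
  · exact chB_true k127_83 g21 g22 hb
  rcases Nat.lt_or_ge f 87 with g23 | g23
  · exact chB_true k127_84 g22 g23 hb
  rcases Nat.lt_or_ge f 89 with g24 | g24
  · exact chB_true k127_87 g23 g24 hb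
  rcases Nat.lt_or_ge f 90 with g25 | g25
  · exact chB_true k127_89 g24 g25 hb
  rcases Nat.lt_or_ge f 91 with g26 | g26
  · exact chB_true k127_90 g25 g26 hb
  rcases Nat.lt_or_ge f 93 with g27 | g27
  · exact chB_true k127_91 g26 g27 hb
  rcases Nat.lt_or_ge f 113 with g28 | g28
  · exact chB_true k127_93 g27 g28 hb
  rcases Nat.lt_or_ge f 114 with g29 | g29
  · exact chB_true k127_113 g28 g29 hb
  rcases Nat.lt_or_ge f 117 with g30 | g30
  · exact chB_true k127_114 g29 g30 hb
  rcases Nat.lt_or_ge f 121 with g31 | g31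
  · exact chB_true k127_117 g30 g31 hb
  rcases Nat.lt_or_ge f 217 with g32 | g32
  · exact chB_true k127_121 g31 g32 hb
  rcases Nat.lt_or_ge f 218 with g33 | g33
  · exact chB_true k127_217 g32 g33 hb
  rcases Nat.lt_or_ge f 219 with g34 | g34
  · exact chB_true k127_218 g33 g34 hb
  rcases Nat.lt_or_ge f 233 with g35 | g35
  · exact chB_true k127_219 g34 g35 hb
  rcases Nat.lt_or_ge f 234 with g36 | g36
  · exact chB_true k127_233 g35 g36 hb
  rcases Nat.lt_or_ge f 237 with g37 | g37
  · exact chB_true k127_234 g36 g37 hb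
  rcases Nat.lt_or_ge f 249 with g38 | g38
  · exact chB_true k127_237 g37 g38 hb
  rcases Nat.lt_or_ge f 505 with g39 | g39
  · exact chB_true k127_249 g38 g39 hb
  rcases Nat.lt_or_ge f 513 with g40 | g40
  · exact chB_true k127_505 g39 g40 hb
  rcases Nat.lt_or_ge f 514 with g41 | g41
  · exact chB_true k127_513 g40 g41 hb
  rcases Nat.lt_or_ge f 516 with g42 | g42
  · exact chB_true k127_514 g41 g42 hb
  rcases Nat.lt_or_ge f 520 with g43 | g43
  · exact chB_true k127_516 g42 g43 hb
  rcases Nat.lt_or_ge f 521 with g44 | g44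
  · exact chB_true k127_520 g43 g44 hb
  rcases Nat.lt_or_ge f 522 with g45 | g45
  · exact chB_true k127_521 g44 g45 hb
  rcases Nat.lt_or_ge f 524 with g46 | g46
  · exact chB_true k127_522 g45 g46 hb
  rcases Nat.lt_or_ge f 525 with g47 | g47
  · exact chB_true k127_524 g46 g47 hb
  rcases Nat.lt_or_ge f 526 with g48 | g48
  · exact chB_true k127_525 g47 g48 hb
  rcases Nat.lt_or_ge f 537 with g49 | g49
  · exact chB_true k127_526 g48 g49 hb
  rcases Nat.lt_or_ge f 539 with g50 | g50
  · exact chB_true k127_537 g49 g50 hb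
  rcases Nat.lt_or_ge f 569 with g51 | g51
  · exact chB_true k127_539 g50 g51 hb
  rcases Nat.lt_or_ge f 585 with g52 | g52
  · exact chB_true k127_569 g51 g52 hb
  rcases Nat.lt_or_ge f 586 with g53 | g53
  · exact chB_true k127_585 g52 g53 hb
  rcases Nat.lt_or_ge f 588 with g54 | g54
  · exact chB_true k127_586 g53 g54 hb
  rcases Nat.lt_or_ge f 589 with g55 | g55
  · exact chB_true k127_588 g54 g55 hb
  rcases Nat.lt_or_ge f 590 with g56 | g56
  · exact chB_true k127_589 g55 g56 hb
  rcases Nat.lt_or_ge f 593 with g57 | g57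
  · exact chB_true k127_590 g56 g57 hb
  rcases Nat.lt_or_ge f 594 with g58 | g58
  · exact chB_true k127_593 g57 g58 hb
  rcases Nat.lt_or_ge f 595 with g59 | g59
  · exact chB_true k127_594 g58 g59 hb
  rcases Nat.lt_or_ge f 596 with g60 | g60
  · exact chB_true k127_595 g59 g60 hb
  rcases Nat.lt_or_ge f 599 with g61 | g61
  · exact chB_true k127_596 g60 g61 hb
  rcases Nat.lt_or_ge f 601 with g62 | g62
  · exact chB_true k127_599 g61 g62 hb
  rcases Nat.lt_or_ge f 603 with g63 | g63
  · exact chB_true k127_601 g62 g63 hb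
  rcases Nat.lt_or_ge f 605 with g64 | g64
  · exact chB_true k127_603 g63 g64 hb
  rcases Nat.lt_or_ge f 625 with g65 | g65
  · exact chB_true k127_605 g64 g65 hb
  rcases Nat.lt_or_ge f 626 with g66 | g66
  · exact chB_true k127_625 g65 g66 hb
  rcases Nat.lt_or_ge f 629 with g67 | g67
  · exact chB_true k127_626 g66 g67 hb
  rcases Nat.lt_or_ge f 633 with g68 | g68
  · exact chB_true k127_629 g67 g68 hb
  rcases Nat.lt_or_ge f 729 with g69 | g69
  · exact chB_true k127_633 g68 g69 hb
  rcases Nat.lt_or_ge f 731 with g70 | g70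
  · exact chB_true k127_729 g69 g70 hb
  rcases Nat.lt_or_ge f 745 with g71 | g71
  · exact chB_true k127_731 g70 g71 hb
  rcases Nat.lt_or_ge f 746 with g72 | g72
  · exact chB_true k127_745 g71 g72 hb
  rcases Nat.lt_or_ge f 749 with g73 | g73
  · exact chB_true k127_746 g72 g73 hb
  rcases Nat.lt_or_ge f 761 with g74 | g74
  · exact chB_true k127_749 g73 g74 hb
  exact chB_true k127_761 g74 hf hb

theorem ka183 {f : ℕ} (hf : f < 1024) (hb : Nat.beq (Nat.mod (Nat.shiftRight rq183 f) 2) 1 = true) : chm 183 f = true := by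
  rcases Nat.lt_or_ge f 1 with g1 | g1
  · exact chB_true k183_0 (Nat.zero_le _) g1 hb
  rcases Nat.lt_or_ge f 2 with g2 | g2
  · exact chB_true k183_1 g1 g2 hb
  rcases Nat.lt_or_ge f 4 with g3 | g3
  · exact chB_true k183_2 g2 g3 hb
  rcases Nat.lt_or_ge f 5 with g4 | g4
  · exact chB_true k183_4 g3 g4 hb
  rcases Nat.lt_or_ge f 6 with g5 | g5
  · exact chB_true k183_5 g4 g5 hb
  rcases Nat.lt_or_ge f 12 with g6 | g6
  · exact chB_true k183_6 g5 g6 hb
  rcases Nat.lt_or_ge f 13 with g7 | g7
  · exact chB_true k183_12 g6 g7 hb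
  rcases Nat.lt_or_ge f 14 with g8 | g8
  · exact chB_true k183_13 g7 g8 hb
  rcases Nat.lt_or_ge f 21 with g9 | g9
  · exact chB_true k183_14 g8 g9 hb
  rcases Nat.lt_or_ge f 22 with g10 | g10
  · exact chB_true k183_21 g9 g10 hb
  rcases Nat.lt_or_ge f 23 with g11 | g11
  · exact chB_true k183_22 g10 g11 hb
  rcases Nat.lt_or_ge f 76 with g12 | g12
  · exact chB_true k183_23 g11 g12 hb
  rcases Nat.lt_or_ge f 77 with g13 | g13
  · exact chB_true k183_76 g12 g13 hb
  rcases Nat.lt_or_ge f 78 with g14 | g14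
  · exact chB_true k183_77 g13 g14 hb
  rcases Nat.lt_or_ge f 85 with g15 | g15
  · exact chB_true k183_78 g14 g15 hb
  rcases Nat.lt_or_ge f 86 with g16 | g16
  · exact chB_true k183_85 g15 g16 hb
  rcases Nat.lt_or_ge f 87 with g17 | g17
  · exact chB_true k183_86 g16 g17 hb
  rcases Nat.lt_or_ge f 149 with g18 | g18
  · exact chB_true k183_87 g17 g18 hb
  rcases Nat.lt_or_ge f 150 with g19 | g19
  · exact chB_true k183_149 g18 g19 hb
  rcases Nat.lt_or_ge f 151 with g20 | g20
  · exact chB_true k183_150 g19 g20 hb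
  rcases Nat.lt_or_ge f 161 with g21 | g21
  · exact chB_true k183_151 g20 g21 hb
  rcases Nat.lt_or_ge f 162 with g22 | g22
  · exact chB_true k183_161 g21 g22 hb
  rcases Nat.lt_or_ge f 164 with g23 | g23
  · exact chB_true k183_162 g22 g23 hb
  rcases Nat.lt_or_ge f 165 with g24 | g24
  · exact chB_true k183_164 g23 g24 hb
  rcases Nat.lt_or_ge f 166 with g25 | g25
  · exact chB_true k183_165 g24 g25 hb
  rcases Nat.lt_or_ge f 173 with g26 | g26
  · exact chB_true k183_166 g25 g26 hb
  rcases Nat.lt_or_ge f 237 with g27 | g27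
  · exact chB_true k183_173 g26 g27 hb
  rcases Nat.lt_or_ge f 433 with g28 | g28
  · exact chB_true k183_237 g27 g28 hb
  exact chB_true k183_433 g28 hf hb

theorem ka184 {f : ℕ} (hf : f < 1024) (hb : Nat.beq (Nat.mod (Nat.shiftRight rq184 f) 2) 1 = true) : chm 184 f = true := by
  rcases Nat.lt_or_ge f 1 with g1 | g1
  · exact chB_true k184_0 (Nat.zero_le _) g1 hb
  rcases Nat.lt_or_ge f 2 with g2 | g2
  · exact chB_true k184_1 g1 g2 hb
  rcases Nat.lt_or_ge f 5 with g3 | g3
  · exact chB_true k184_2 g2 g3 hb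
  rcases Nat.lt_or_ge f 13 with g4 | g4
  · exact chB_true k184_5 g3 g4 hb
  rcases Nat.lt_or_ge f 21 with g5 | g5
  · exact chB_true k184_13 g4 g5 hb
  rcases Nat.lt_or_ge f 65 with g6 | g6
  · exact chB_true k184_21 g5 g6 hb
  rcases Nat.lt_or_ge f 69 with g7 | g7
  · exact chB_true k184_65 g6 g7 hb
  exact chB_true k184_69 g7 hf hb

theorem ka185 {f : ℕ} (hf : f < 1024) (hb : Nat.beq (Nat.mod (Nat.shiftRight rq185 f) 2) 1 = true) : chm 185 f = true := by
  rcases Nat.lt_or_ge f 1 with g1 | g1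
  · exact chB_true k185_0 (Nat.zero_le _) g1 hb
  rcases Nat.lt_or_ge f 2 with g2 | g2
  · exact chB_true k185_1 g1 g2 hb
  rcases Nat.lt_or_ge f 5 with g3 | g3
  · exact chB_true k185_2 g2 g3 hb
  rcases Nat.lt_or_ge f 9 with g4 | g4
  · exact chB_true k185_5 g3 g4 hb
  rcases Nat.lt_or_ge f 10 with g5 | g5
  · exact chB_true k185_9 g4 g5 hb
  rcases Nat.lt_or_ge f 13 with g6 | g6
  · exact chB_true k185_10 g5 g6 hb
  rcases Nat.lt_or_ge f 17 with g7 | g7
  · exact chB_true k185_13 g6 g7 hb
  rcases Nat.lt_or_ge f 18 with g8 | g8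
  · exact chB_true k185_17 g7 g8 hb
  rcases Nat.lt_or_ge f 19 with g9 | g9
  · exact chB_true k185_18 g8 g9 hb
  rcases Nat.lt_or_ge f 21 with g10 | g10
  · exact chB_true k185_19 g9 g10 hb
  rcases Nat.lt_or_ge f 25 with g11 | g11
  · exact chB_true k185_21 g10 g11 hb
  rcases Nat.lt_or_ge f 27 with g12 | g12
  · exact chB_true k185_25 g11 g12 hb
  rcases Nat.lt_or_ge f 29 with g13 | g13
  · exact chB_true k185_27 g12 g13 hb
  rcases Nat.lt_or_ge f 49 with g14 | g14
  · exact chB_true k185_29 g13 g14 hb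
  rcases Nat.lt_or_ge f 57 with g15 | g15
  · exact chB_true k185_49 g14 g15 hb
  rcases Nat.lt_or_ge f 65 with g16 | g16
  · exact chB_true k185_57 g15 g16 hb
  rcases Nat.lt_or_ge f 69 with g17 | g17
  · exact chB_true k185_65 g16 g17 hb
  rcases Nat.lt_or_ge f 73 with g18 | g18
  · exact chB_true k185_69 g17 g18 hb
  rcases Nat.lt_or_ge f 77 with g19 | g19
  · exact chB_true k185_73 g18 g19 hb
  rcases Nat.lt_or_ge f 81 with g20 | g20
  · exact chB_true k185_77 g19 g20 hb
  rcases Nat.lt_or_ge f 85 with g21 | g21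
  · exact chB_true k185_81 g20 g21 hb
  rcases Nat.lt_or_ge f 89 with g22 | g22
  · exact chB_true k185_85 g21 g22 hb
  rcases Nat.lt_or_ge f 93 with g23 | g23
  · exact chB_true k185_89 g22 g23 hb
  rcases Nat.lt_or_ge f 113 with g24 | g24
  · exact chB_true k185_93 g23 g24 hb
  rcases Nat.lt_or_ge f 129 with g25 | g25
  · exact chB_true k185_113 g24 g25 hb
  rcases Nat.lt_or_ge f 131 with g26 | g26
  · exact chB_true k185_129 g25 g26 hb
  rcases Nat.lt_or_ge f 137 with g27 | g27
  · exact chB_true k185_131 g26 g27 hb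
  rcases Nat.lt_or_ge f 139 with g28 | g28
  · exact chB_true k185_137 g27 g28 hb
  rcases Nat.lt_or_ge f 145 with g29 | g29
  · exact chB_true k185_139 g28 g29 hb
  rcases Nat.lt_or_ge f 147 with g30 | g30
  · exact chB_true k185_145 g29 g30 hb
  rcases Nat.lt_or_ge f 153 with g31 | g31
  · exact chB_true k185_147 g30 g31 hb
  rcases Nat.lt_or_ge f 155 with g32 | g32
  · exact chB_true k185_153 g31 g32 hb
  rcases Nat.lt_or_ge f 161 with g33 | g33
  · exact chB_true k185_155 g32 g33 hb
  rcases Nat.lt_or_ge f 163 with g34 | g34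
  · exact chB_true k185_161 g33 g34 hb
  rcases Nat.lt_or_ge f 169 with g35 | g35
  · exact chB_true k185_163 g34 g35 hb
  rcases Nat.lt_or_ge f 177 with g36 | g36
  · exact chB_true k185_169 g35 g36 hb
  rcases Nat.lt_or_ge f 185 with g37 | g37
  · exact chB_true k185_177 g36 g37 hb
  rcases Nat.lt_or_ge f 513 with g38 | g38
  · exact chB_true k185_185 g37 g38 hb
  rcases Nat.lt_or_ge f 514 with g39 | g39
  · exact chB_true k185_513 g38 g39 hb
  rcases Nat.lt_or_ge f 517 with g40 | g40
  · exact chB_true k185_514 g39 g40 hb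
  rcases Nat.lt_or_ge f 521 with g41 | g41
  · exact chB_true k185_517 g40 g41 hb
  rcases Nat.lt_or_ge f 525 with g42 | g42
  · exact chB_true k185_521 g41 g42 hb
  rcases Nat.lt_or_ge f 529 with g43 | g43
  · exact chB_true k185_525 g42 g43 hb
  rcases Nat.lt_or_ge f 530 with g44 | g44
  · exact chB_true k185_529 g43 g44 hb
  rcases Nat.lt_or_ge f 531 with g45 | g45
  · exact chB_true k185_530 g44 g45 hb
  rcases Nat.lt_or_ge f 533 with g46 | g46
  · exact chB_true k185_531 g45 g46 hb
  rcases Nat.lt_or_ge f 541 with g47 | g47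
  · exact chB_true k185_533 g46 g47 hb
  rcases Nat.lt_or_ge f 561 with g48 | g48
  · exact chB_true k185_541 g47 g48 hb
  rcases Nat.lt_or_ge f 577 with g49 | g49
  · exact chB_true k185_561 g48 g49 hb
  rcases Nat.lt_or_ge f 581 with g50 | g50
  · exact chB_true k185_577 g49 g50 hb
  rcases Nat.lt_or_ge f 593 with g51 | g51
  · exact chB_true k185_581 g50 g51 hb
  rcases Nat.lt_or_ge f 597 with g52 | g52
  · exact chB_true k185_593 g51 g52 hb
  rcases Nat.lt_or_ge f 641 with g53 | g53
  · exact chB_true k185_597 g52 g53 hb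
  rcases Nat.lt_or_ge f 673 with g54 | g54
  · exact chB_true k185_641 g53 g54 hb
  exact chB_true k185_673 g54 hf hb

theorem ka187 {f : ℕ} (hf : f < 1024) (hb : Nat.beq (Nat.mod (Nat.shiftRight rq187 f) 2) 1 = true) : chm 187 f = true := by
  rcases Nat.lt_or_ge f 1 with g1 | g1
  · exact chB_true k187_0 (Nat.zero_le _) g1 hb
  rcases Nat.lt_or_ge f 2 with g2 | g2
  · exact chB_true k187_1 g1 g2 hb
  rcases Nat.lt_or_ge f 3 with g3 | g3
  · exact chB_true k187_2 g2 g3 hb
  rcases Nat.lt_or_ge f 4 with g4 | g4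
  · exact chB_true k187_3 g3 g4 hb
  rcases Nat.lt_or_ge f 5 with g5 | g5
  · exact chB_true k187_4 g4 g5 hb
  rcases Nat.lt_or_ge f 6 with g6 | g6
  · exact chB_true k187_5 g5 g6 hb
  rcases Nat.lt_or_ge f 7 with g7 | g7
  · exact chB_true k187_6 g6 g7 hb
  rcases Nat.lt_or_ge f 11 with g8 | g8
  · exact chB_true k187_7 g7 g8 hb
  rcases Nat.lt_or_ge f 12 with g9 | g9
  · exact chB_true k187_11 g8 g9 hb
  rcases Nat.lt_or_ge f 13 with g10 | g10
  · exact chB_true k187_12 g9 g10 hb
  rcases Nat.lt_or_ge f 14 with g11 | g11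
  · exact chB_true k187_13 g10 g11 hb
  rcases Nat.lt_or_ge f 15 with g12 | g12
  · exact chB_true k187_14 g11 g12 hb
  rcases Nat.lt_or_ge f 21 with g13 | g13
  · exact chB_true k187_15 g12 g13 hb
  rcases Nat.lt_or_ge f 23 with g14 | g14
  · exact chB_true k187_21 g13 g14 hb
  rcases Nat.lt_or_ge f 33 with g15 | g15
  · exact chB_true k187_23 g14 g15 hb
  rcases Nat.lt_or_ge f 34 with g16 | g16
  · exact chB_true k187_33 g15 g16 hb
  rcases Nat.lt_or_ge f 35 with g17 | g17
  · exact chB_true k187_34 g16 g17 hb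
  rcases Nat.lt_or_ge f 36 with g18 | g18
  · exact chB_true k187_35 g17 g18 hb
  rcases Nat.lt_or_ge f 37 with g19 | g19
  · exact chB_true k187_36 g18 g19 hb
  rcases Nat.lt_or_ge f 38 with g20 | g20
  · exact chB_true k187_37 g19 g20 hb
  rcases Nat.lt_or_ge f 39 with g21 | g21
  · exact chB_true k187_38 g20 g21 hb
  rcases Nat.lt_or_ge f 45 with g22 | g22
  · exact chB_true k187_39 g21 g22 hb
  rcases Nat.lt_or_ge f 65 with g23 | g23
  · exact chB_true k187_45 g22 g23 hb
  rcases Nat.lt_or_ge f 66 with g24 | g24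
  · exact chB_true k187_65 g23 g24 hb
  rcases Nat.lt_or_ge f 67 with g25 | g25
  · exact chB_true k187_66 g24 g25 hb
  rcases Nat.lt_or_ge f 69 with g26 | g26
  · exact chB_true k187_67 g25 g26 hb
  rcases Nat.lt_or_ge f 70 with g27 | g27
  · exact chB_true k187_69 g26 g27 hb
  rcases Nat.lt_or_ge f 71 with g28 | g28
  · exact chB_true k187_70 g27 g28 hb
  rcases Nat.lt_or_ge f 75 with g29 | g29
  · exact chB_true k187_71 g28 g29 hb
  rcases Nat.lt_or_ge f 77 with g30 | g30
  · exact chB_true k187_75 g29 g30 hb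
  rcases Nat.lt_or_ge f 79 with g31 | g31
  · exact chB_true k187_77 g30 g31 hb
  rcases Nat.lt_or_ge f 85 with g32 | g32
  · exact chB_true k187_79 g31 g32 hb
  rcases Nat.lt_or_ge f 87 with g33 | g33
  · exact chB_true k187_85 g32 g33 hb
  rcases Nat.lt_or_ge f 97 with g34 | g34
  · exact chB_true k187_87 g33 g34 hb
  rcases Nat.lt_or_ge f 98 with g35 | g35
  · exact chB_true k187_97 g34 g35 hb
  rcases Nat.lt_or_ge f 99 with g36 | g36
  · exact chB_true k187_98 g35 g36 hb
  rcases Nat.lt_or_ge f 101 with g37 | g37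
  · exact chB_true k187_99 g36 g37 hb
  rcases Nat.lt_or_ge f 102 with g38 | g38
  · exact chB_true k187_101 g37 g38 hb
  rcases Nat.lt_or_ge f 109 with g39 | g39
  · exact chB_true k187_102 g38 g39 hb
  rcases Nat.lt_or_ge f 129 with g40 | g40
  · exact chB_true k187_109 g39 g40 hb
  rcases Nat.lt_or_ge f 130 with g41 | g41
  · exact chB_true k187_129 g40 g41 hb
  rcases Nat.lt_or_ge f 131 with g42 | g42
  · exact chB_true k187_130 g41 g42 hb
  rcases Nat.lt_or_ge f 132 with g43 | g43
  · exact chB_true k187_131 g42 g43 hb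
  rcases Nat.lt_or_ge f 133 with g44 | g44
  · exact chB_true k187_132 g43 g44 hb
  rcases Nat.lt_or_ge f 135 with g45 | g45
  · exact chB_true k187_133 g44 g45 hb
  rcases Nat.lt_or_ge f 139 with g46 | g46
  · exact chB_true k187_135 g45 g46 hb
  rcases Nat.lt_or_ge f 140 with g47 | g47
  · exact chB_true k187_139 g46 g47 hb
  rcases Nat.lt_or_ge f 141 with g48 | g48
  · exact chB_true k187_140 g47 g48 hb
  rcases Nat.lt_or_ge f 142 with g49 | g49
  · exact chB_true k187_141 g48 g49 hb
  rcases Nat.lt_or_ge f 143 with g50 | g50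
  · exact chB_true k187_142 g49 g50 hb
  rcases Nat.lt_or_ge f 149 with g51 | g51
  · exact chB_true k187_143 g50 g51 hb
  rcases Nat.lt_or_ge f 151 with g52 | g52
  · exact chB_true k187_149 g51 g52 hb
  rcases Nat.lt_or_ge f 161 with g53 | g53
  · exact chB_true k187_151 g52 g53 hb
  rcases Nat.lt_or_ge f 162 with g54 | g54
  · exact chB_true k187_161 g53 g54 hb
  rcases Nat.lt_or_ge f 163 with g55 | g55
  · exact chB_true k187_162 g54 g55 hb
  rcases Nat.lt_or_ge f 164 with g56 | g56
  · exact chB_true k187_163 g55 g56 hb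
  rcases Nat.lt_or_ge f 165 with g57 | g57
  · exact chB_true k187_164 g56 g57 hb
  rcases Nat.lt_or_ge f 166 with g58 | g58
  · exact chB_true k187_165 g57 g58 hb
  rcases Nat.lt_or_ge f 167 with g59 | g59
  · exact chB_true k187_166 g58 g59 hb
  rcases Nat.lt_or_ge f 173 with g60 | g60
  · exact chB_true k187_167 g59 g60 hb
  rcases Nat.lt_or_ge f 193 with g61 | g61
  · exact chB_true k187_173 g60 g61 hb
  rcases Nat.lt_or_ge f 195 with g62 | g62
  · exact chB_true k187_193 g61 g62 hb
  rcases Nat.lt_or_ge f 197 with g63 | g63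
  · exact chB_true k187_195 g62 g63 hb
  rcases Nat.lt_or_ge f 203 with g64 | g64
  · exact chB_true k187_197 g63 g64 hb
  rcases Nat.lt_or_ge f 205 with g65 | g65
  · exact chB_true k187_203 g64 g65 hb
  rcases Nat.lt_or_ge f 213 with g66 | g66
  · exact chB_true k187_205 g65 g66 hb
  rcases Nat.lt_or_ge f 225 with g67 | g67
  · exact chB_true k187_213 g66 g67 hb
  rcases Nat.lt_or_ge f 227 with g68 | g68
  · exact chB_true k187_225 g67 g68 hb
  rcases Nat.lt_or_ge f 229 with g69 | g69
  · exact chB_true k187_227 g68 g69 hb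
  rcases Nat.lt_or_ge f 237 with g70 | g70
  · exact chB_true k187_229 g69 g70 hb
  rcases Nat.lt_or_ge f 257 with g71 | g71
  · exact chB_true k187_237 g70 g71 hb
  rcases Nat.lt_or_ge f 258 with g72 | g72
  · exact chB_true k187_257 g71 g72 hb
  rcases Nat.lt_or_ge f 259 with g73 | g73
  · exact chB_true k187_258 g72 g73 hb
  rcases Nat.lt_or_ge f 261 with g74 | g74
  · exact chB_true k187_259 g73 g74 hb
  rcases Nat.lt_or_ge f 262 with g75 | g75
  · exact chB_true k187_261 g74 g75 hb
  rcases Nat.lt_or_ge f 265 with g76 | g76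
  · exact chB_true k187_262 g75 g76 hb
  rcases Nat.lt_or_ge f 266 with g77 | g77
  · exact chB_true k187_265 g76 g77 hb
  rcases Nat.lt_or_ge f 267 with g78 | g78
  · exact chB_true k187_266 g77 g78 hb
  rcases Nat.lt_or_ge f 269 with g79 | g79
  · exact chB_true k187_267 g78 g79 hb
  rcases Nat.lt_or_ge f 270 with g80 | g80
  · exact chB_true k187_269 g79 g80 hb
  rcases Nat.lt_or_ge f 273 with g81 | g81
  · exact chB_true k187_270 g80 g81 hb
  rcases Nat.lt_or_ge f 274 with g82 | g82
  · exact chB_true k187_273 g81 g82 hb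
  rcases Nat.lt_or_ge f 275 with g83 | g83
  · exact chB_true k187_274 g82 g83 hb
  rcases Nat.lt_or_ge f 277 with g84 | g84
  · exact chB_true k187_275 g83 g84 hb
  rcases Nat.lt_or_ge f 279 with g85 | g85
  · exact chB_true k187_277 g84 g85 hb
  rcases Nat.lt_or_ge f 281 with g86 | g86
  · exact chB_true k187_279 g85 g86 hb
  rcases Nat.lt_or_ge f 283 with g87 | g87
  · exact chB_true k187_281 g86 g87 hb
  rcases Nat.lt_or_ge f 285 with g88 | g88
  · exact chB_true k187_283 g87 g88 hb
  rcases Nat.lt_or_ge f 289 with g89 | g89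
  · exact chB_true k187_285 g88 g89 hb
  rcases Nat.lt_or_ge f 290 with g90 | g90
  · exact chB_true k187_289 g89 g90 hb
  rcases Nat.lt_or_ge f 291 with g91 | g91
  · exact chB_true k187_290 g90 g91 hb
  rcases Nat.lt_or_ge f 293 with g92 | g92
  · exact chB_true k187_291 g91 g92 hb
  rcases Nat.lt_or_ge f 294 with g93 | g93
  · exact chB_true k187_293 g92 g93 hb
  rcases Nat.lt_or_ge f 297 with g94 | g94
  · exact chB_true k187_294 g93 g94 hb
  rcases Nat.lt_or_ge f 298 with g95 | g95
  · exact chB_true k187_297 g94 g95 hb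
  rcases Nat.lt_or_ge f 301 with g96 | g96
  · exact chB_true k187_298 g95 g96 hb
  rcases Nat.lt_or_ge f 305 with g97 | g97
  · exact chB_true k187_301 g96 g97 hb
  rcases Nat.lt_or_ge f 306 with g98 | g98
  · exact chB_true k187_305 g97 g98 hb
  rcases Nat.lt_or_ge f 307 with g99 | g99
  · exact chB_true k187_306 g98 g99 hb
  rcases Nat.lt_or_ge f 313 with g100 | g100
  · exact chB_true k187_307 g99 g100 hb
  rcases Nat.lt_or_ge f 321 with g101 | g101
  · exact chB_true k187_313 g100 g101 hb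
  rcases Nat.lt_or_ge f 322 with g102 | g102
  · exact chB_true k187_321 g101 g102 hb
  rcases Nat.lt_or_ge f 325 with g103 | g103
  · exact chB_true k187_322 g102 g103 hb
  rcases Nat.lt_or_ge f 329 with g104 | g104
  · exact chB_true k187_325 g103 g104 hb
  rcases Nat.lt_or_ge f 333 with g105 | g105
  · exact chB_true k187_329 g104 g105 hb
  rcases Nat.lt_or_ge f 337 with g106 | g106
  · exact chB_true k187_333 g105 g106 hb
  rcases Nat.lt_or_ge f 338 with g107 | g107
  · exact chB_true k187_337 g106 g107 hb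
  rcases Nat.lt_or_ge f 341 with g108 | g108
  · exact chB_true k187_338 g107 g108 hb
  rcases Nat.lt_or_ge f 345 with g109 | g109
  · exact chB_true k187_341 g108 g109 hb
  rcases Nat.lt_or_ge f 349 with g110 | g110
  · exact chB_true k187_345 g109 g110 hb
  rcases Nat.lt_or_ge f 353 with g111 | g111
  · exact chB_true k187_349 g110 g111 hb
  rcases Nat.lt_or_ge f 354 with g112 | g112
  · exact chB_true k187_353 g111 g112 hb
  rcases Nat.lt_or_ge f 357 with g113 | g113
  · exact chB_true k187_354 g112 g113 hb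
  rcases Nat.lt_or_ge f 361 with g114 | g114
  · exact chB_true k187_357 g113 g114 hb
  rcases Nat.lt_or_ge f 365 with g115 | g115
  · exact chB_true k187_361 g114 g115 hb
  rcases Nat.lt_or_ge f 369 with g116 | g116
  · exact chB_true k187_365 g115 g116 hb
  rcases Nat.lt_or_ge f 370 with g117 | g117
  · exact chB_true k187_369 g116 g117 hb
  rcases Nat.lt_or_ge f 385 with g118 | g118
  · exact chB_true k187_370 g117 g118 hb
  rcases Nat.lt_or_ge f 386 with g119 | g119
  · exact chB_true k187_385 g118 g119 hb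
  rcases Nat.lt_or_ge f 387 with g120 | g120
  · exact chB_true k187_386 g119 g120 hb
  rcases Nat.lt_or_ge f 393 with g121 | g121
  · exact chB_true k187_387 g120 g121 hb
  rcases Nat.lt_or_ge f 395 with g122 | g122
  · exact chB_true k187_393 g121 g122 hb
  rcases Nat.lt_or_ge f 401 with g123 | g123
  · exact chB_true k187_395 g122 g123 hb
  rcases Nat.lt_or_ge f 403 with g124 | g124
  · exact chB_true k187_401 g123 g124 hb
  rcases Nat.lt_or_ge f 409 with g125 | g125
  · exact chB_true k187_403 g124 g125 hb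
  rcases Nat.lt_or_ge f 411 with g126 | g126
  · exact chB_true k187_409 g125 g126 hb
  rcases Nat.lt_or_ge f 417 with g127 | g127
  · exact chB_true k187_411 g126 g127 hb
  rcases Nat.lt_or_ge f 418 with g128 | g128
  · exact chB_true k187_417 g127 g128 hb
  rcases Nat.lt_or_ge f 419 with g129 | g129
  · exact chB_true k187_418 g128 g129 hb
  rcases Nat.lt_or_ge f 425 with g130 | g130
  · exact chB_true k187_419 g129 g130 hb
  rcases Nat.lt_or_ge f 426 with g131 | g131
  · exact chB_true k187_425 g130 g131 hb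
  rcases Nat.lt_or_ge f 433 with g132 | g132
  · exact chB_true k187_426 g131 g132 hb
  rcases Nat.lt_or_ge f 434 with g133 | g133
  · exact chB_true k187_433 g132 g133 hb
  rcases Nat.lt_or_ge f 435 with g134 | g134
  · exact chB_true k187_434 g133 g134 hb
  rcases Nat.lt_or_ge f 441 with g135 | g135
  · exact chB_true k187_435 g134 g135 hb
  rcases Nat.lt_or_ge f 497 with g136 | g136
  · exact chB_true k187_441 g135 g136 hb
  rcases Nat.lt_or_ge f 769 with g137 | g137
  · exact chB_true k187_497 g136 g137 hb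
  rcases Nat.lt_or_ge f 770 with g138 | g138
  · exact chB_true k187_769 g137 g138 hb
  rcases Nat.lt_or_ge f 771 with g139 | g139
  · exact chB_true k187_770 g138 g139 hb
  rcases Nat.lt_or_ge f 773 with g140 | g140
  · exact chB_true k187_771 g139 g140 hb
  rcases Nat.lt_or_ge f 774 with g141 | g141
  · exact chB_true k187_773 g140 g141 hb
  rcases Nat.lt_or_ge f 781 with g142 | g142
  · exact chB_true k187_774 g141 g142 hb
  rcases Nat.lt_or_ge f 789 with g143 | g143
  · exact chB_true k187_781 g142 g143 hb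
  rcases Nat.lt_or_ge f 791 with g144 | g144
  · exact chB_true k187_789 g143 g144 hb
  rcases Nat.lt_or_ge f 801 with g145 | g145
  · exact chB_true k187_791 g144 g145 hb
  rcases Nat.lt_or_ge f 802 with g146 | g146
  · exact chB_true k187_801 g145 g146 hb
  rcases Nat.lt_or_ge f 803 with g147 | g147
  · exact chB_true k187_802 g146 g147 hb
  rcases Nat.lt_or_ge f 805 with g148 | g148
  · exact chB_true k187_803 g147 g148 hb
  rcases Nat.lt_or_ge f 813 with g149 | g149
  · exact chB_true k187_805 g148 g149 hb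
  rcases Nat.lt_or_ge f 833 with g150 | g150
  · exact chB_true k187_813 g149 g150 hb
  rcases Nat.lt_or_ge f 837 with g151 | g151
  · exact chB_true k187_833 g150 g151 hb
  rcases Nat.lt_or_ge f 853 with g152 | g152
  · exact chB_true k187_837 g151 g152 hb
  rcases Nat.lt_or_ge f 865 with g153 | g153
  · exact chB_true k187_853 g152 g153 hb
  rcases Nat.lt_or_ge f 869 with g154 | g154
  · exact chB_true k187_865 g153 g154 hb
  rcases Nat.lt_or_ge f 897 with g155 | g155
  · exact chB_true k187_869 g154 g155 hb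
  rcases Nat.lt_or_ge f 898 with g156 | g156
  · exact chB_true k187_897 g155 g156 hb
  rcases Nat.lt_or_ge f 899 with g157 | g157
  · exact chB_true k187_898 g156 g157 hb
  rcases Nat.lt_or_ge f 929 with g158 | g158
  · exact chB_true k187_899 g157 g158 hb
  rcases Nat.lt_or_ge f 930 with g159 | g159
  · exact chB_true k187_929 g158 g159 hb
  exact chB_true k187_930 g159 hf hb

theorem ka191 {f : ℕ} (hf : f < 1024) (hb : Nat.beq (Nat.mod (Nat.shiftRight rq191 f) 2) 1 = true) : chm 191 f = true := by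
  rcases Nat.lt_or_ge f 1 with g1 | g1
  · exact chB_true k191_0 (Nat.zero_le _) g1 hb
  rcases Nat.lt_or_ge f 2 with g2 | g2
  · exact chB_true k191_1 g1 g2 hb
  rcases Nat.lt_or_ge f 4 with g3 | g3
  · exact chB_true k191_2 g2 g3 hb
  rcases Nat.lt_or_ge f 5 with g4 | g4
  · exact chB_true k191_4 g3 g4 hb
  rcases Nat.lt_or_ge f 6 with g5 | g5
  · exact chB_true k191_5 g4 g5 hb
  rcases Nat.lt_or_ge f 12 with g6 | g6
  · exact chB_true k191_6 g5 g6 hb
  rcases Nat.lt_or_ge f 13 with g7 | g7
  · exact chB_true k191_12 g6 g7 hb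
  rcases Nat.lt_or_ge f 14 with g8 | g8
  · exact chB_true k191_13 g7 g8 hb
  rcases Nat.lt_or_ge f 21 with g9 | g9
  · exact chB_true k191_14 g8 g9 hb
  rcases Nat.lt_or_ge f 22 with g10 | g10
  · exact chB_true k191_21 g9 g10 hb
  rcases Nat.lt_or_ge f 23 with g11 | g11
  · exact chB_true k191_22 g10 g11 hb
  rcases Nat.lt_or_ge f 65 with g12 | g12
  · exact chB_true k191_23 g11 g12 hb
  rcases Nat.lt_or_ge f 66 with g13 | g13
  · exact chB_true k191_65 g12 g13 hb
  rcases Nat.lt_or_ge f 68 with g14 | g14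
  · exact chB_true k191_66 g13 g14 hb
  rcases Nat.lt_or_ge f 69 with g15 | g15
  · exact chB_true k191_68 g14 g15 hb
  rcases Nat.lt_or_ge f 70 with g16 | g16
  · exact chB_true k191_69 g15 g16 hb
  rcases Nat.lt_or_ge f 76 with g17 | g17
  · exact chB_true k191_70 g16 g17 hb
  rcases Nat.lt_or_ge f 77 with g18 | g18
  · exact chB_true k191_76 g17 g18 hb
  rcases Nat.lt_or_ge f 78 with g19 | g19
  · exact chB_true k191_77 g18 g19 hb
  rcases Nat.lt_or_ge f 85 with g20 | g20
  · exact chB_true k191_78 g19 g20 hb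
  rcases Nat.lt_or_ge f 86 with g21 | g21
  · exact chB_true k191_85 g20 g21 hb
  rcases Nat.lt_or_ge f 87 with g22 | g22
  · exact chB_true k191_86 g21 g22 hb
  rcases Nat.lt_or_ge f 129 with g23 | g23
  · exact chB_true k191_87 g22 g23 hb
  rcases Nat.lt_or_ge f 130 with g24 | g24
  · exact chB_true k191_129 g23 g24 hb
  rcases Nat.lt_or_ge f 131 with g25 | g25
  · exact chB_true k191_130 g24 g25 hb
  rcases Nat.lt_or_ge f 132 with g26 | g26
  · exact chB_true k191_131 g25 g26 hb
  rcases Nat.lt_or_ge f 133 with g27 | g27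
  · exact chB_true k191_132 g26 g27 hb
  rcases Nat.lt_or_ge f 134 with g28 | g28
  · exact chB_true k191_133 g27 g28 hb
  rcases Nat.lt_or_ge f 135 with g29 | g29
  · exact chB_true k191_134 g28 g29 hb
  rcases Nat.lt_or_ge f 139 with g30 | g30
  · exact chB_true k191_135 g29 g30 hb
  rcases Nat.lt_or_ge f 140 with g31 | g31
  · exact chB_true k191_139 g30 g31 hb
  rcases Nat.lt_or_ge f 141 with g32 | g32
  · exact chB_true k191_140 g31 g32 hb
  rcases Nat.lt_or_ge f 142 with g33 | g33
  · exact chB_true k191_141 g32 g33 hb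
  rcases Nat.lt_or_ge f 143 with g34 | g34
  · exact chB_true k191_142 g33 g34 hb
  rcases Nat.lt_or_ge f 149 with g35 | g35
  · exact chB_true k191_143 g34 g35 hb
  rcases Nat.lt_or_ge f 151 with g36 | g36
  · exact chB_true k191_149 g35 g36 hb
  rcases Nat.lt_or_ge f 161 with g37 | g37
  · exact chB_true k191_151 g36 g37 hb
  rcases Nat.lt_or_ge f 162 with g38 | g38
  · exact chB_true k191_161 g37 g38 hb
  rcases Nat.lt_or_ge f 163 with g39 | g39
  · exact chB_true k191_162 g38 g39 hb
  rcases Nat.lt_or_ge f 164 with g40 | g40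
  · exact chB_true k191_163 g39 g40 hb
  rcases Nat.lt_or_ge f 165 with g41 | g41
  · exact chB_true k191_164 g40 g41 hb
  rcases Nat.lt_or_ge f 166 with g42 | g42
  · exact chB_true k191_165 g41 g42 hb
  rcases Nat.lt_or_ge f 167 with g43 | g43
  · exact chB_true k191_166 g42 g43 hb
  rcases Nat.lt_or_ge f 173 with g44 | g44
  · exact chB_true k191_167 g43 g44 hb
  rcases Nat.lt_or_ge f 193 with g45 | g45
  · exact chB_true k191_173 g44 g45 hb
  rcases Nat.lt_or_ge f 194 with g46 | g46
  · exact chB_true k191_193 g45 g46 hb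
  rcases Nat.lt_or_ge f 195 with g47 | g47
  · exact chB_true k191_194 g46 g47 hb
  rcases Nat.lt_or_ge f 196 with g48 | g48
  · exact chB_true k191_195 g47 g48 hb
  rcases Nat.lt_or_ge f 197 with g49 | g49
  · exact chB_true k191_196 g48 g49 hb
  rcases Nat.lt_or_ge f 198 with g50 | g50
  · exact chB_true k191_197 g49 g50 hb
  rcases Nat.lt_or_ge f 199 with g51 | g51
  · exact chB_true k191_198 g50 g51 hb
  rcases Nat.lt_or_ge f 203 with g52 | g52
  · exact chB_true k191_199 g51 g52 hb
  rcases Nat.lt_or_ge f 204 with g53 | g53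
  · exact chB_true k191_203 g52 g53 hb
  rcases Nat.lt_or_ge f 205 with g54 | g54
  · exact chB_true k191_204 g53 g54 hb
  rcases Nat.lt_or_ge f 206 with g55 | g55
  · exact chB_true k191_205 g54 g55 hb
  rcases Nat.lt_or_ge f 207 with g56 | g56
  · exact chB_true k191_206 g55 g56 hb
  rcases Nat.lt_or_ge f 213 with g57 | g57
  · exact chB_true k191_207 g56 g57 hb
  rcases Nat.lt_or_ge f 214 with g58 | g58
  · exact chB_true k191_213 g57 g58 hb
  rcases Nat.lt_or_ge f 215 with g59 | g59
  · exact chB_true k191_214 g58 g59 hb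
  rcases Nat.lt_or_ge f 225 with g60 | g60
  · exact chB_true k191_215 g59 g60 hb
  rcases Nat.lt_or_ge f 226 with g61 | g61
  · exact chB_true k191_225 g60 g61 hb
  rcases Nat.lt_or_ge f 227 with g62 | g62
  · exact chB_true k191_226 g61 g62 hb
  rcases Nat.lt_or_ge f 228 with g63 | g63
  · exact chB_true k191_227 g62 g63 hb
  rcases Nat.lt_or_ge f 229 with g64 | g64
  · exact chB_true k191_228 g63 g64 hb
  rcases Nat.lt_or_ge f 230 with g65 | g65
  · exact chB_true k191_229 g64 g65 hb
  rcases Nat.lt_or_ge f 231 with g66 | g66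
  · exact chB_true k191_230 g65 g66 hb
  rcases Nat.lt_or_ge f 237 with g67 | g67
  · exact chB_true k191_231 g66 g67 hb
  rcases Nat.lt_or_ge f 385 with g68 | g68
  · exact chB_true k191_237 g67 g68 hb
  rcases Nat.lt_or_ge f 386 with g69 | g69
  · exact chB_true k191_385 g68 g69 hb
  rcases Nat.lt_or_ge f 388 with g70 | g70
  · exact chB_true k191_386 g69 g70 hb
  rcases Nat.lt_or_ge f 389 with g71 | g71
  · exact chB_true k191_388 g70 g71 hb
  rcases Nat.lt_or_ge f 390 with g72 | g72
  · exact chB_true k191_389 g71 g72 hb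
  rcases Nat.lt_or_ge f 393 with g73 | g73
  · exact chB_true k191_390 g72 g73 hb
  rcases Nat.lt_or_ge f 394 with g74 | g74
  · exact chB_true k191_393 g73 g74 hb
  rcases Nat.lt_or_ge f 396 with g75 | g75
  · exact chB_true k191_394 g74 g75 hb
  rcases Nat.lt_or_ge f 397 with g76 | g76
  · exact chB_true k191_396 g75 g76 hb
  rcases Nat.lt_or_ge f 398 with g77 | g77
  · exact chB_true k191_397 g76 g77 hb
  rcases Nat.lt_or_ge f 401 with g78 | g78
  · exact chB_true k191_398 g77 g78 hb
  rcases Nat.lt_or_ge f 402 with g79 | g79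
  · exact chB_true k191_401 g78 g79 hb
  rcases Nat.lt_or_ge f 403 with g80 | g80
  · exact chB_true k191_402 g79 g80 hb
  rcases Nat.lt_or_ge f 404 with g81 | g81
  · exact chB_true k191_403 g80 g81 hb
  rcases Nat.lt_or_ge f 405 with g82 | g82
  · exact chB_true k191_404 g81 g82 hb
  rcases Nat.lt_or_ge f 407 with g83 | g83
  · exact chB_true k191_405 g82 g83 hb
  rcases Nat.lt_or_ge f 409 with g84 | g84
  · exact chB_true k191_407 g83 g84 hb
  rcases Nat.lt_or_ge f 411 with g85 | g85
  · exact chB_true k191_409 g84 g85 hb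
  rcases Nat.lt_or_ge f 413 with g86 | g86
  · exact chB_true k191_411 g85 g86 hb
  rcases Nat.lt_or_ge f 433 with g87 | g87
  · exact chB_true k191_413 g86 g87 hb
  rcases Nat.lt_or_ge f 434 with g88 | g88
  · exact chB_true k191_433 g87 g88 hb
  rcases Nat.lt_or_ge f 441 with g89 | g89
  · exact chB_true k191_434 g88 g89 hb
  rcases Nat.lt_or_ge f 449 with g90 | g90
  · exact chB_true k191_441 g89 g90 hb
  rcases Nat.lt_or_ge f 450 with g91 | g91
  · exact chB_true k191_449 g90 g91 hb
  rcases Nat.lt_or_ge f 453 with g92 | g92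
  · exact chB_true k191_450 g91 g92 hb
  rcases Nat.lt_or_ge f 457 with g93 | g93
  · exact chB_true k191_453 g92 g93 hb
  rcases Nat.lt_or_ge f 461 with g94 | g94
  · exact chB_true k191_457 g93 g94 hb
  rcases Nat.lt_or_ge f 465 with g95 | g95
  · exact chB_true k191_461 g94 g95 hb
  rcases Nat.lt_or_ge f 466 with g96 | g96
  · exact chB_true k191_465 g95 g96 hb
  rcases Nat.lt_or_ge f 467 with g97 | g97
  · exact chB_true k191_466 g96 g97 hb
  rcases Nat.lt_or_ge f 469 with g98 | g98
  · exact chB_true k191_467 g97 g98 hb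
  rcases Nat.lt_or_ge f 473 with g99 | g99
  · exact chB_true k191_469 g98 g99 hb
  rcases Nat.lt_or_ge f 475 with g100 | g100
  · exact chB_true k191_473 g99 g100 hb
  rcases Nat.lt_or_ge f 477 with g101 | g101
  · exact chB_true k191_475 g100 g101 hb
  rcases Nat.lt_or_ge f 497 with g102 | g102
  · exact chB_true k191_477 g101 g102 hb
  rcases Nat.lt_or_ge f 498 with g103 | g103
  · exact chB_true k191_497 g102 g103 hb
  rcases Nat.lt_or_ge f 505 with g104 | g104
  · exact chB_true k191_498 g103 g104 hb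
  rcases Nat.lt_or_ge f 897 with g105 | g105
  · exact chB_true k191_505 g104 g105 hb
  rcases Nat.lt_or_ge f 898 with g106 | g106
  · exact chB_true k191_897 g105 g106 hb
  rcases Nat.lt_or_ge f 900 with g107 | g107
  · exact chB_true k191_898 g106 g107 hb
  rcases Nat.lt_or_ge f 901 with g108 | g108
  · exact chB_true k191_900 g107 g108 hb
  rcases Nat.lt_or_ge f 902 with g109 | g109
  · exact chB_true k191_901 g108 g109 hb
  rcases Nat.lt_or_ge f 908 with g110 | g110
  · exact chB_true k191_902 g109 g110 hb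
  rcases Nat.lt_or_ge f 909 with g111 | g111
  · exact chB_true k191_908 g110 g111 hb
  rcases Nat.lt_or_ge f 910 with g112 | g112
  · exact chB_true k191_909 g111 g112 hb
  rcases Nat.lt_or_ge f 917 with g113 | g113
  · exact chB_true k191_910 g112 g113 hb
  rcases Nat.lt_or_ge f 919 with g114 | g114
  · exact chB_true k191_917 g113 g114 hb
  rcases Nat.lt_or_ge f 961 with g115 | g115
  · exact chB_true k191_919 g114 g115 hb
  rcases Nat.lt_or_ge f 962 with g116 | g116
  · exact chB_true k191_961 g115 g116 hb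
  rcases Nat.lt_or_ge f 965 with g117 | g117
  · exact chB_true k191_962 g116 g117 hb
  rcases Nat.lt_or_ge f 973 with g118 | g118
  · exact chB_true k191_965 g117 g118 hb
  exact chB_true k191_973 g118 hf hb

theorem ka207 {f : ℕ} (hf : f < 1024) (hb : Nat.beq (Nat.mod (Nat.shiftRight rq207 f) 2) 1 = true) : chm 207 f = true := by
  rcases Nat.lt_or_ge f 1 with g1 | g1
  · exact chB_true k207_0 (Nat.zero_le _) g1 hb
  rcases Nat.lt_or_ge f 2 with g2 | g2
  · exact chB_true k207_1 g1 g2 hb
  rcases Nat.lt_or_ge f 5 with g3 | g3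
  · exact chB_true k207_2 g2 g3 hb
  rcases Nat.lt_or_ge f 13 with g4 | g4
  · exact chB_true k207_5 g3 g4 hb
  rcases Nat.lt_or_ge f 19 with g5 | g5
  · exact chB_true k207_13 g4 g5 hb
  rcases Nat.lt_or_ge f 65 with g6 | g6
  · exact chB_true k207_19 g5 g6 hb
  rcases Nat.lt_or_ge f 66 with g7 | g7
  · exact chB_true k207_65 g6 g7 hb
  rcases Nat.lt_or_ge f 69 with g8 | g8
  · exact chB_true k207_66 g7 g8 hb
  rcases Nat.lt_or_ge f 73 with g9 | g9
  · exact chB_true k207_69 g8 g9 hb
  rcases Nat.lt_or_ge f 77 with g10 | g10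
  · exact chB_true k207_73 g9 g10 hb
  rcases Nat.lt_or_ge f 81 with g11 | g11
  · exact chB_true k207_77 g10 g11 hb
  rcases Nat.lt_or_ge f 83 with g12 | g12
  · exact chB_true k207_81 g11 g12 hb
  rcases Nat.lt_or_ge f 193 with g13 | g13
  · exact chB_true k207_83 g12 g13 hb
  rcases Nat.lt_or_ge f 194 with g14 | g14
  · exact chB_true k207_193 g13 g14 hb
  rcases Nat.lt_or_ge f 195 with g15 | g15
  · exact chB_true k207_194 g14 g15 hb
  rcases Nat.lt_or_ge f 197 with g16 | g16
  · exact chB_true k207_195 g15 g16 hb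
  rcases Nat.lt_or_ge f 205 with g17 | g17
  · exact chB_true k207_197 g16 g17 hb
  rcases Nat.lt_or_ge f 211 with g18 | g18
  · exact chB_true k207_205 g17 g18 hb
  rcases Nat.lt_or_ge f 225 with g19 | g19
  · exact chB_true k207_211 g18 g19 hb
  rcases Nat.lt_or_ge f 226 with g20 | g20
  · exact chB_true k207_225 g19 g20 hb
  rcases Nat.lt_or_ge f 385 with g21 | g21
  · exact chB_true k207_226 g20 g21 hb
  rcases Nat.lt_or_ge f 386 with g22 | g22
  · exact chB_true k207_385 g21 g22 hb
  rcases Nat.lt_or_ge f 389 with g23 | g23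
  · exact chB_true k207_386 g22 g23 hb
  rcases Nat.lt_or_ge f 393 with g24 | g24
  · exact chB_true k207_389 g23 g24 hb
  rcases Nat.lt_or_ge f 397 with g25 | g25
  · exact chB_true k207_393 g24 g25 hb
  rcases Nat.lt_or_ge f 449 with g26 | g26
  · exact chB_true k207_397 g25 g26 hb
  rcases Nat.lt_or_ge f 450 with g27 | g27
  · exact chB_true k207_449 g26 g27 hb
  rcases Nat.lt_or_ge f 453 with g28 | g28
  · exact chB_true k207_450 g27 g28 hb
  rcases Nat.lt_or_ge f 457 with g29 | g29
  · exact chB_true k207_453 g28 g29 hb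
  rcases Nat.lt_or_ge f 461 with g30 | g30
  · exact chB_true k207_457 g29 g30 hb
  rcases Nat.lt_or_ge f 465 with g31 | g31
  · exact chB_true k207_461 g30 g31 hb
  rcases Nat.lt_or_ge f 467 with g32 | g32
  · exact chB_true k207_465 g31 g32 hb
  rcases Nat.lt_or_ge f 961 with g33 | g33
  · exact chB_true k207_467 g32 g33 hb
  rcases Nat.lt_or_ge f 962 with g34 | g34
  · exact chB_true k207_961 g33 g34 hb
  rcases Nat.lt_or_ge f 973 with g35 | g35
  · exact chB_true k207_962 g34 g35 hb
  exact chB_true k207_973 g35 hf hb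

theorem ka220 {f : ℕ} (hf : f < 1024) (hb : Nat.beq (Nat.mod (Nat.shiftRight rq220 f) 2) 1 = true) : chm 220 f = true := by
  rcases Nat.lt_or_ge f 1 with g1 | g1
  · exact chB_true k220_0 (Nat.zero_le _) g1 hb
  rcases Nat.lt_or_ge f 2 with g2 | g2
  · exact chB_true k220_1 g1 g2 hb
  rcases Nat.lt_or_ge f 4 with g3 | g3
  · exact chB_true k220_2 g2 g3 hb
  rcases Nat.lt_or_ge f 5 with g4 | g4
  · exact chB_true k220_4 g3 g4 hb
  rcases Nat.lt_or_ge f 6 with g5 | g5
  · exact chB_true k220_5 g4 g5 hb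
  rcases Nat.lt_or_ge f 11 with g6 | g6
  · exact chB_true k220_6 g5 g6 hb
  rcases Nat.lt_or_ge f 13 with g7 | g7
  · exact chB_true k220_11 g6 g7 hb
  rcases Nat.lt_or_ge f 14 with g8 | g8
  · exact chB_true k220_13 g7 g8 hb
  rcases Nat.lt_or_ge f 19 with g9 | g9
  · exact chB_true k220_14 g8 g9 hb
  rcases Nat.lt_or_ge f 20 with g10 | g10
  · exact chB_true k220_19 g9 g10 hb
  rcases Nat.lt_or_ge f 34 with g11 | g11
  · exact chB_true k220_20 g10 g11 hb
  rcases Nat.lt_or_ge f 37 with g12 | g12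
  · exact chB_true k220_34 g11 g12 hb
  rcases Nat.lt_or_ge f 77 with g13 | g13
  · exact chB_true k220_37 g12 g13 hb
  rcases Nat.lt_or_ge f 83 with g14 | g14
  · exact chB_true k220_77 g13 g14 hb
  rcases Nat.lt_or_ge f 85 with g15 | g15
  · exact chB_true k220_83 g14 g15 hb
  rcases Nat.lt_or_ge f 274 with g16 | g16
  · exact chB_true k220_85 g15 g16 hb
  rcases Nat.lt_or_ge f 276 with g17 | g17
  · exact chB_true k220_274 g16 g17 hb
  exact chB_true k220_276 g17 hf hb

theorem ka221 {f : ℕ} (hf : f < 1024) (hb : Nat.beq (Nat.mod (Nat.shiftRight rq221 f) 2) 1 = true) : chm 221 f = true := by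
  rcases Nat.lt_or_ge f 1 with g1 | g1
  · exact chB_true k221_0 (Nat.zero_le _) g1 hb
  rcases Nat.lt_or_ge f 2 with g2 | g2
  · exact chB_true k221_1 g1 g2 hb
  rcases Nat.lt_or_ge f 4 with g3 | g3
  · exact chB_true k221_2 g2 g3 hb
  rcases Nat.lt_or_ge f 5 with g4 | g4
  · exact chB_true k221_4 g3 g4 hb
  rcases Nat.lt_or_ge f 6 with g5 | g5
  · exact chB_true k221_5 g4 g5 hb
  rcases Nat.lt_or_ge f 9 with g6 | g6
  · exact chB_true k221_6 g5 g6 hb
  rcases Nat.lt_or_ge f 10 with g7 | g7
  · exact chB_true k221_9 g6 g7 hb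
  rcases Nat.lt_or_ge f 11 with g8 | g8
  · exact chB_true k221_10 g7 g8 hb
  rcases Nat.lt_or_ge f 13 with g9 | g9
  · exact chB_true k221_11 g8 g9 hb
  rcases Nat.lt_or_ge f 14 with g10 | g10
  · exact chB_true k221_13 g9 g10 hb
  rcases Nat.lt_or_ge f 17 with g11 | g11
  · exact chB_true k221_14 g10 g11 hb
  rcases Nat.lt_or_ge f 18 with g12 | g12
  · exact chB_true k221_17 g11 g12 hb
  rcases Nat.lt_or_ge f 19 with g13 | g13
  · exact chB_true k221_18 g12 g13 hb
  rcases Nat.lt_or_ge f 20 with g14 | g14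
  · exact chB_true k221_19 g13 g14 hb
  rcases Nat.lt_or_ge f 21 with g15 | g15
  · exact chB_true k221_20 g14 g15 hb
  rcases Nat.lt_or_ge f 25 with g16 | g16
  · exact chB_true k221_21 g15 g16 hb
  rcases Nat.lt_or_ge f 27 with g17 | g17
  · exact chB_true k221_25 g16 g17 hb
  rcases Nat.lt_or_ge f 29 with g18 | g18
  · exact chB_true k221_27 g17 g18 hb
  rcases Nat.lt_or_ge f 33 with g19 | g19
  · exact chB_true k221_29 g18 g19 hb
  rcases Nat.lt_or_ge f 34 with g20 | g20
  · exact chB_true k221_33 g19 g20 hb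
  rcases Nat.lt_or_ge f 35 with g21 | g21
  · exact chB_true k221_34 g20 g21 hb
  rcases Nat.lt_or_ge f 37 with g22 | g22
  · exact chB_true k221_35 g21 g22 hb
  rcases Nat.lt_or_ge f 41 with g23 | g23
  · exact chB_true k221_37 g22 g23 hb
  rcases Nat.lt_or_ge f 42 with g24 | g24
  · exact chB_true k221_41 g23 g24 hb
  rcases Nat.lt_or_ge f 49 with g25 | g25
  · exact chB_true k221_42 g24 g25 hb
  rcases Nat.lt_or_ge f 73 with g26 | g26
  · exact chB_true k221_49 g25 g26 hb
  rcases Nat.lt_or_ge f 74 with g27 | g27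
  · exact chB_true k221_73 g26 g27 hb
  rcases Nat.lt_or_ge f 77 with g28 | g28
  · exact chB_true k221_74 g27 g28 hb
  rcases Nat.lt_or_ge f 81 with g29 | g29
  · exact chB_true k221_77 g28 g29 hb
  rcases Nat.lt_or_ge f 82 with g30 | g30
  · exact chB_true k221_81 g29 g30 hb
  rcases Nat.lt_or_ge f 83 with g31 | g31
  · exact chB_true k221_82 g30 g31 hb
  rcases Nat.lt_or_ge f 85 with g32 | g32
  · exact chB_true k221_83 g31 g32 hb
  rcases Nat.lt_or_ge f 89 with g33 | g33
  · exact chB_true k221_85 g32 g33 hb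
  rcases Nat.lt_or_ge f 91 with g34 | g34
  · exact chB_true k221_89 g33 g34 hb
  rcases Nat.lt_or_ge f 93 with g35 | g35
  · exact chB_true k221_91 g34 g35 hb
  rcases Nat.lt_or_ge f 97 with g36 | g36
  · exact chB_true k221_93 g35 g36 hb
  rcases Nat.lt_or_ge f 98 with g37 | g37
  · exact chB_true k221_97 g36 g37 hb
  rcases Nat.lt_or_ge f 99 with g38 | g38
  · exact chB_true k221_98 g37 g38 hb
  rcases Nat.lt_or_ge f 101 with g39 | g39
  · exact chB_true k221_99 g38 g39 hb
  rcases Nat.lt_or_ge f 105 with g40 | g40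
  · exact chB_true k221_101 g39 g40 hb
  rcases Nat.lt_or_ge f 106 with g41 | g41
  · exact chB_true k221_105 g40 g41 hb
  rcases Nat.lt_or_ge f 113 with g42 | g42
  · exact chB_true k221_106 g41 g42 hb
  rcases Nat.lt_or_ge f 114 with g43 | g43
  · exact chB_true k221_113 g42 g43 hb
  rcases Nat.lt_or_ge f 145 with g44 | g44
  · exact chB_true k221_114 g43 g44 hb
  rcases Nat.lt_or_ge f 146 with g45 | g45
  · exact chB_true k221_145 g44 g45 hb
  rcases Nat.lt_or_ge f 147 with g46 | g46
  · exact chB_true k221_146 g45 g46 hb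
  rcases Nat.lt_or_ge f 149 with g47 | g47
  · exact chB_true k221_147 g46 g47 hb
  rcases Nat.lt_or_ge f 153 with g48 | g48
  · exact chB_true k221_149 g47 g48 hb
  rcases Nat.lt_or_ge f 155 with g49 | g49
  · exact chB_true k221_153 g48 g49 hb
  rcases Nat.lt_or_ge f 157 with g50 | g50
  · exact chB_true k221_155 g49 g50 hb
  rcases Nat.lt_or_ge f 161 with g51 | g51
  · exact chB_true k221_157 g50 g51 hb
  rcases Nat.lt_or_ge f 162 with g52 | g52
  · exact chB_true k221_161 g51 g52 hb
  rcases Nat.lt_or_ge f 165 with g53 | g53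
  · exact chB_true k221_162 g52 g53 hb
  rcases Nat.lt_or_ge f 169 with g54 | g54
  · exact chB_true k221_165 g53 g54 hb
  rcases Nat.lt_or_ge f 170 with g55 | g55
  · exact chB_true k221_169 g54 g55 hb
  rcases Nat.lt_or_ge f 177 with g56 | g56
  · exact chB_true k221_170 g55 g56 hb
  rcases Nat.lt_or_ge f 209 with g57 | g57
  · exact chB_true k221_177 g56 g57 hb
  rcases Nat.lt_or_ge f 211 with g58 | g58
  · exact chB_true k221_209 g57 g58 hb
  rcases Nat.lt_or_ge f 217 with g59 | g59
  · exact chB_true k221_211 g58 g59 hb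
  rcases Nat.lt_or_ge f 219 with g60 | g60
  · exact chB_true k221_217 g59 g60 hb
  rcases Nat.lt_or_ge f 233 with g61 | g61
  · exact chB_true k221_219 g60 g61 hb
  rcases Nat.lt_or_ge f 241 with g62 | g62
  · exact chB_true k221_233 g61 g62 hb
  rcases Nat.lt_or_ge f 273 with g63 | g63
  · exact chB_true k221_241 g62 g63 hb
  rcases Nat.lt_or_ge f 274 with g64 | g64
  · exact chB_true k221_273 g63 g64 hb
  rcases Nat.lt_or_ge f 276 with g65 | g65
  · exact chB_true k221_274 g64 g65 hb
  rcases Nat.lt_or_ge f 277 with g66 | g66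
  · exact chB_true k221_276 g65 g66 hb
  rcases Nat.lt_or_ge f 281 with g67 | g67
  · exact chB_true k221_277 g66 g67 hb
  rcases Nat.lt_or_ge f 283 with g68 | g68
  · exact chB_true k221_281 g67 g68 hb
  rcases Nat.lt_or_ge f 285 with g69 | g69
  · exact chB_true k221_283 g68 g69 hb
  rcases Nat.lt_or_ge f 305 with g70 | g70
  · exact chB_true k221_285 g69 g70 hb
  rcases Nat.lt_or_ge f 345 with g71 | g71
  · exact chB_true k221_305 g70 g71 hb
  rcases Nat.lt_or_ge f 349 with g72 | g72
  · exact chB_true k221_345 g71 g72 hb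
  rcases Nat.lt_or_ge f 369 with g73 | g73
  · exact chB_true k221_349 g72 g73 hb
  rcases Nat.lt_or_ge f 370 with g74 | g74
  · exact chB_true k221_369 g73 g74 hb
  rcases Nat.lt_or_ge f 513 with g75 | g75
  · exact chB_true k221_370 g74 g75 hb
  rcases Nat.lt_or_ge f 514 with g76 | g76
  · exact chB_true k221_513 g75 g76 hb
  rcases Nat.lt_or_ge f 516 with g77 | g77
  · exact chB_true k221_514 g76 g77 hb
  rcases Nat.lt_or_ge f 517 with g78 | g78
  · exact chB_true k221_516 g77 g78 hb
  rcases Nat.lt_or_ge f 518 with g79 | g79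
  · exact chB_true k221_517 g78 g79 hb
  rcases Nat.lt_or_ge f 521 with g80 | g80
  · exact chB_true k221_518 g79 g80 hb
  rcases Nat.lt_or_ge f 522 with g81 | g81
  · exact chB_true k221_521 g80 g81 hb
  rcases Nat.lt_or_ge f 523 with g82 | g82
  · exact chB_true k221_522 g81 g82 hb
  rcases Nat.lt_or_ge f 525 with g83 | g83
  · exact chB_true k221_523 g82 g83 hb
  rcases Nat.lt_or_ge f 526 with g84 | g84
  · exact chB_true k221_525 g83 g84 hb
  rcases Nat.lt_or_ge f 529 with g85 | g85
  · exact chB_true k221_526 g84 g85 hb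
  rcases Nat.lt_or_ge f 530 with g86 | g86
  · exact chB_true k221_529 g85 g86 hb
  rcases Nat.lt_or_ge f 531 with g87 | g87
  · exact chB_true k221_530 g86 g87 hb
  rcases Nat.lt_or_ge f 532 with g88 | g88
  · exact chB_true k221_531 g87 g88 hb
  rcases Nat.lt_or_ge f 533 with g89 | g89
  · exact chB_true k221_532 g88 g89 hb
  rcases Nat.lt_or_ge f 537 with g90 | g90
  · exact chB_true k221_533 g89 g90 hb
  rcases Nat.lt_or_ge f 545 with g91 | g91
  · exact chB_true k221_537 g90 g91 hb
  rcases Nat.lt_or_ge f 546 with g92 | g92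
  · exact chB_true k221_545 g91 g92 hb
  rcases Nat.lt_or_ge f 547 with g93 | g93
  · exact chB_true k221_546 g92 g93 hb
  rcases Nat.lt_or_ge f 549 with g94 | g94
  · exact chB_true k221_547 g93 g94 hb
  rcases Nat.lt_or_ge f 553 with g95 | g95
  · exact chB_true k221_549 g94 g95 hb
  rcases Nat.lt_or_ge f 561 with g96 | g96
  · exact chB_true k221_553 g95 g96 hb
  rcases Nat.lt_or_ge f 585 with g97 | g97
  · exact chB_true k221_561 g96 g97 hb
  rcases Nat.lt_or_ge f 589 with g98 | g98
  · exact chB_true k221_585 g97 g98 hb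
  rcases Nat.lt_or_ge f 593 with g99 | g99
  · exact chB_true k221_589 g98 g99 hb
  rcases Nat.lt_or_ge f 594 with g100 | g100
  · exact chB_true k221_593 g99 g100 hb
  rcases Nat.lt_or_ge f 595 with g101 | g101
  · exact chB_true k221_594 g100 g101 hb
  rcases Nat.lt_or_ge f 597 with g102 | g102
  · exact chB_true k221_595 g101 g102 hb
  rcases Nat.lt_or_ge f 609 with g103 | g103
  · exact chB_true k221_597 g102 g103 hb
  rcases Nat.lt_or_ge f 610 with g104 | g104
  · exact chB_true k221_609 g103 g104 hb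
  rcases Nat.lt_or_ge f 613 with g105 | g105
  · exact chB_true k221_610 g104 g105 hb
  rcases Nat.lt_or_ge f 625 with g106 | g106
  · exact chB_true k221_613 g105 g106 hb
  rcases Nat.lt_or_ge f 626 with g107 | g107
  · exact chB_true k221_625 g106 g107 hb
  rcases Nat.lt_or_ge f 657 with g108 | g108
  · exact chB_true k221_626 g107 g108 hb
  rcases Nat.lt_or_ge f 658 with g109 | g109
  · exact chB_true k221_657 g108 g109 hb
  rcases Nat.lt_or_ge f 659 with g110 | g110
  · exact chB_true k221_658 g109 g110 hb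
  rcases Nat.lt_or_ge f 665 with g111 | g111
  · exact chB_true k221_659 g110 g111 hb
  rcases Nat.lt_or_ge f 673 with g112 | g112
  · exact chB_true k221_665 g111 g112 hb
  rcases Nat.lt_or_ge f 674 with g113 | g113
  · exact chB_true k221_673 g112 g113 hb
  rcases Nat.lt_or_ge f 677 with g114 | g114
  · exact chB_true k221_674 g113 g114 hb
  rcases Nat.lt_or_ge f 681 with g115 | g115
  · exact chB_true k221_677 g114 g115 hb
  rcases Nat.lt_or_ge f 785 with g116 | g116
  · exact chB_true k221_681 g115 g116 hb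
  rcases Nat.lt_or_ge f 786 with g117 | g117
  · exact chB_true k221_785 g116 g117 hb
  rcases Nat.lt_or_ge f 788 with g118 | g118
  · exact chB_true k221_786 g117 g118 hb
  rcases Nat.lt_or_ge f 789 with g119 | g119
  · exact chB_true k221_788 g118 g119 hb
  rcases Nat.lt_or_ge f 793 with g120 | g120
  · exact chB_true k221_789 g119 g120 hb
  exact chB_true k221_793 g120 hf hb

theorem ka223 {f : ℕ} (hf : f < 1024) (hb : Nat.beq (Nat.mod (Nat.shiftRight rq223 f) 2) 1 = true) : chm 223 f = true := by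
  rcases Nat.lt_or_ge f 1 with g1 | g1
  · exact chB_true k223_0 (Nat.zero_le _) g1 hb
  rcases Nat.lt_or_ge f 2 with g2 | g2
  · exact chB_true k223_1 g1 g2 hb
  rcases Nat.lt_or_ge f 3 with g3 | g3
  · exact chB_true k223_2 g2 g3 hb
  rcases Nat.lt_or_ge f 4 with g4 | g4
  · exact chB_true k223_3 g3 g4 hb
  rcases Nat.lt_or_ge f 5 with g5 | g5
  · exact chB_true k223_4 g4 g5 hb
  rcases Nat.lt_or_ge f 6 with g6 | g6
  · exact chB_true k223_5 g5 g6 hb
  rcases Nat.lt_or_ge f 7 with g7 | g7
  · exact chB_true k223_6 g6 g7 hb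
  rcases Nat.lt_or_ge f 11 with g8 | g8
  · exact chB_true k223_7 g7 g8 hb
  rcases Nat.lt_or_ge f 13 with g9 | g9
  · exact chB_true k223_11 g8 g9 hb
  rcases Nat.lt_or_ge f 14 with g10 | g10
  · exact chB_true k223_13 g9 g10 hb
  rcases Nat.lt_or_ge f 15 with g11 | g11
  · exact chB_true k223_14 g10 g11 hb
  rcases Nat.lt_or_ge f 19 with g12 | g12
  · exact chB_true k223_15 g11 g12 hb
  rcases Nat.lt_or_ge f 20 with g13 | g13
  · exact chB_true k223_19 g12 g13 hb
  rcases Nat.lt_or_ge f 23 with g14 | g14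
  · exact chB_true k223_20 g13 g14 hb
  rcases Nat.lt_or_ge f 33 with g15 | g15
  · exact chB_true k223_23 g14 g15 hb
  rcases Nat.lt_or_ge f 34 with g16 | g16
  · exact chB_true k223_33 g15 g16 hb
  rcases Nat.lt_or_ge f 35 with g17 | g17
  · exact chB_true k223_34 g16 g17 hb
  rcases Nat.lt_or_ge f 37 with g18 | g18
  · exact chB_true k223_35 g17 g18 hb
  rcases Nat.lt_or_ge f 38 with g19 | g19
  · exact chB_true k223_37 g18 g19 hb
  rcases Nat.lt_or_ge f 45 with g20 | g20
  · exact chB_true k223_38 g19 g20 hb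
  rcases Nat.lt_or_ge f 51 with g21 | g21
  · exact chB_true k223_45 g20 g21 hb
  rcases Nat.lt_or_ge f 65 with g22 | g22
  · exact chB_true k223_51 g21 g22 hb
  rcases Nat.lt_or_ge f 66 with g23 | g23
  · exact chB_true k223_65 g22 g23 hb
  rcases Nat.lt_or_ge f 67 with g24 | g24
  · exact chB_true k223_66 g23 g24 hb
  rcases Nat.lt_or_ge f 68 with g25 | g25
  · exact chB_true k223_67 g24 g25 hb
  rcases Nat.lt_or_ge f 69 with g26 | g26
  · exact chB_true k223_68 g25 g26 hb
  rcases Nat.lt_or_ge f 70 with g27 | g27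
  · exact chB_true k223_69 g26 g27 hb
  rcases Nat.lt_or_ge f 71 with g28 | g28
  · exact chB_true k223_70 g27 g28 hb
  rcases Nat.lt_or_ge f 73 with g29 | g29
  · exact chB_true k223_71 g28 g29 hb
  rcases Nat.lt_or_ge f 74 with g30 | g30
  · exact chB_true k223_73 g29 g30 hb
  rcases Nat.lt_or_ge f 75 with g31 | g31
  · exact chB_true k223_74 g30 g31 hb
  rcases Nat.lt_or_ge f 77 with g32 | g32
  · exact chB_true k223_75 g31 g32 hb
  rcases Nat.lt_or_ge f 78 with g33 | g33
  · exact chB_true k223_77 g32 g33 hb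
  rcases Nat.lt_or_ge f 79 with g34 | g34
  · exact chB_true k223_78 g33 g34 hb
  rcases Nat.lt_or_ge f 81 with g35 | g35
  · exact chB_true k223_79 g34 g35 hb
  rcases Nat.lt_or_ge f 82 with g36 | g36
  · exact chB_true k223_81 g35 g36 hb
  rcases Nat.lt_or_ge f 83 with g37 | g37
  · exact chB_true k223_82 g36 g37 hb
  rcases Nat.lt_or_ge f 84 with g38 | g38
  · exact chB_true k223_83 g37 g38 hb
  rcases Nat.lt_or_ge f 85 with g39 | g39
  · exact chB_true k223_84 g38 g39 hb
  rcases Nat.lt_or_ge f 87 with g40 | g40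
  · exact chB_true k223_85 g39 g40 hb
  rcases Nat.lt_or_ge f 89 with g41 | g41
  · exact chB_true k223_87 g40 g41 hb
  rcases Nat.lt_or_ge f 91 with g42 | g42
  · exact chB_true k223_89 g41 g42 hb
  rcases Nat.lt_or_ge f 93 with g43 | g43
  · exact chB_true k223_91 g42 g43 hb
  rcases Nat.lt_or_ge f 97 with g44 | g44
  · exact chB_true k223_93 g43 g44 hb
  rcases Nat.lt_or_ge f 98 with g45 | g45
  · exact chB_true k223_97 g44 g45 hb
  rcases Nat.lt_or_ge f 99 with g46 | g46
  · exact chB_true k223_98 g45 g46 hb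
  rcases Nat.lt_or_ge f 101 with g47 | g47
  · exact chB_true k223_99 g46 g47 hb
  rcases Nat.lt_or_ge f 102 with g48 | g48
  · exact chB_true k223_101 g47 g48 hb
  rcases Nat.lt_or_ge f 105 with g49 | g49
  · exact chB_true k223_102 g48 g49 hb
  rcases Nat.lt_or_ge f 106 with g50 | g50
  · exact chB_true k223_105 g49 g50 hb
  rcases Nat.lt_or_ge f 109 with g51 | g51
  · exact chB_true k223_106 g50 g51 hb
  rcases Nat.lt_or_ge f 113 with g52 | g52
  · exact chB_true k223_109 g51 g52 hb
  rcases Nat.lt_or_ge f 114 with g53 | g53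
  · exact chB_true k223_113 g52 g53 hb
  rcases Nat.lt_or_ge f 115 with g54 | g54
  · exact chB_true k223_114 g53 g54 hb
  rcases Nat.lt_or_ge f 193 with g55 | g55
  · exact chB_true k223_115 g54 g55 hb
  rcases Nat.lt_or_ge f 194 with g56 | g56
  · exact chB_true k223_193 g55 g56 hb
  rcases Nat.lt_or_ge f 195 with g57 | g57
  · exact chB_true k223_194 g56 g57 hb
  rcases Nat.lt_or_ge f 196 with g58 | g58
  · exact chB_true k223_195 g57 g58 hb
  rcases Nat.lt_or_ge f 197 with g59 | g59
  · exact chB_true k223_196 g58 g59 hb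
  rcases Nat.lt_or_ge f 199 with g60 | g60
  · exact chB_true k223_197 g59 g60 hb
  rcases Nat.lt_or_ge f 203 with g61 | g61
  · exact chB_true k223_199 g60 g61 hb
  rcases Nat.lt_or_ge f 205 with g62 | g62
  · exact chB_true k223_203 g61 g62 hb
  rcases Nat.lt_or_ge f 207 with g63 | g63
  · exact chB_true k223_205 g62 g63 hb
  rcases Nat.lt_or_ge f 211 with g64 | g64
  · exact chB_true k223_207 g63 g64 hb
  rcases Nat.lt_or_ge f 212 with g65 | g65
  · exact chB_true k223_211 g64 g65 hb
  rcases Nat.lt_or_ge f 215 with g66 | g66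
  · exact chB_true k223_212 g65 g66 hb
  rcases Nat.lt_or_ge f 225 with g67 | g67
  · exact chB_true k223_215 g66 g67 hb
  rcases Nat.lt_or_ge f 226 with g68 | g68
  · exact chB_true k223_225 g67 g68 hb
  rcases Nat.lt_or_ge f 227 with g69 | g69
  · exact chB_true k223_226 g68 g69 hb
  rcases Nat.lt_or_ge f 228 with g70 | g70
  · exact chB_true k223_227 g69 g70 hb
  rcases Nat.lt_or_ge f 229 with g71 | g71
  · exact chB_true k223_228 g70 g71 hb
  rcases Nat.lt_or_ge f 237 with g72 | g72
  · exact chB_true k223_229 g71 g72 hb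
  rcases Nat.lt_or_ge f 243 with g73 | g73
  · exact chB_true k223_237 g72 g73 hb
  rcases Nat.lt_or_ge f 257 with g74 | g74
  · exact chB_true k223_243 g73 g74 hb
  rcases Nat.lt_or_ge f 258 with g75 | g75
  · exact chB_true k223_257 g74 g75 hb
  rcases Nat.lt_or_ge f 259 with g76 | g76
  · exact chB_true k223_258 g75 g76 hb
  rcases Nat.lt_or_ge f 260 with g77 | g77
  · exact chB_true k223_259 g76 g77 hb
  rcases Nat.lt_or_ge f 261 with g78 | g78
  · exact chB_true k223_260 g77 g78 hb
  rcases Nat.lt_or_ge f 262 with g79 | g79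
  · exact chB_true k223_261 g78 g79 hb
  rcases Nat.lt_or_ge f 263 with g80 | g80
  · exact chB_true k223_262 g79 g80 hb
  rcases Nat.lt_or_ge f 265 with g81 | g81
  · exact chB_true k223_263 g80 g81 hb
  rcases Nat.lt_or_ge f 266 with g82 | g82
  · exact chB_true k223_265 g81 g82 hb
  rcases Nat.lt_or_ge f 267 with g83 | g83
  · exact chB_true k223_266 g82 g83 hb
  rcases Nat.lt_or_ge f 269 with g84 | g84
  · exact chB_true k223_267 g83 g84 hb
  rcases Nat.lt_or_ge f 270 with g85 | g85
  · exact chB_true k223_269 g84 g85 hb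
  rcases Nat.lt_or_ge f 273 with g86 | g86
  · exact chB_true k223_270 g85 g86 hb
  rcases Nat.lt_or_ge f 274 with g87 | g87
  · exact chB_true k223_273 g86 g87 hb
  rcases Nat.lt_or_ge f 275 with g88 | g88
  · exact chB_true k223_274 g87 g88 hb
  rcases Nat.lt_or_ge f 276 with g89 | g89
  · exact chB_true k223_275 g88 g89 hb
  rcases Nat.lt_or_ge f 277 with g90 | g90
  · exact chB_true k223_276 g89 g90 hb
  rcases Nat.lt_or_ge f 281 with g91 | g91
  · exact chB_true k223_277 g90 g91 hb
  rcases Nat.lt_or_ge f 283 with g92 | g92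
  · exact chB_true k223_281 g91 g92 hb
  rcases Nat.lt_or_ge f 285 with g93 | g93
  · exact chB_true k223_283 g92 g93 hb
  rcases Nat.lt_or_ge f 289 with g94 | g94
  · exact chB_true k223_285 g93 g94 hb
  rcases Nat.lt_or_ge f 290 with g95 | g95
  · exact chB_true k223_289 g94 g95 hb
  rcases Nat.lt_or_ge f 291 with g96 | g96
  · exact chB_true k223_290 g95 g96 hb
  rcases Nat.lt_or_ge f 293 with g97 | g97
  · exact chB_true k223_291 g96 g97 hb
  rcases Nat.lt_or_ge f 297 with g98 | g98
  · exact chB_true k223_293 g97 g98 hb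
  rcases Nat.lt_or_ge f 298 with g99 | g99
  · exact chB_true k223_297 g98 g99 hb
  rcases Nat.lt_or_ge f 305 with g100 | g100
  · exact chB_true k223_298 g99 g100 hb
  rcases Nat.lt_or_ge f 321 with g101 | g101
  · exact chB_true k223_305 g100 g101 hb
  rcases Nat.lt_or_ge f 322 with g102 | g102
  · exact chB_true k223_321 g101 g102 hb
  rcases Nat.lt_or_ge f 323 with g103 | g103
  · exact chB_true k223_322 g102 g103 hb
  rcases Nat.lt_or_ge f 324 with g104 | g104
  · exact chB_true k223_323 g103 g104 hb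
  rcases Nat.lt_or_ge f 325 with g105 | g105
  · exact chB_true k223_324 g104 g105 hb
  rcases Nat.lt_or_ge f 326 with g106 | g106
  · exact chB_true k223_325 g105 g106 hb
  rcases Nat.lt_or_ge f 327 with g107 | g107
  · exact chB_true k223_326 g106 g107 hb
  rcases Nat.lt_or_ge f 329 with g108 | g108
  · exact chB_true k223_327 g107 g108 hb
  rcases Nat.lt_or_ge f 330 with g109 | g109
  · exact chB_true k223_329 g108 g109 hb
  rcases Nat.lt_or_ge f 331 with g110 | g110
  · exact chB_true k223_330 g109 g110 hb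
  rcases Nat.lt_or_ge f 333 with g111 | g111
  · exact chB_true k223_331 g110 g111 hb
  rcases Nat.lt_or_ge f 334 with g112 | g112
  · exact chB_true k223_333 g111 g112 hb
  rcases Nat.lt_or_ge f 337 with g113 | g113
  · exact chB_true k223_334 g112 g113 hb
  rcases Nat.lt_or_ge f 338 with g114 | g114
  · exact chB_true k223_337 g113 g114 hb
  rcases Nat.lt_or_ge f 339 with g115 | g115
  · exact chB_true k223_338 g114 g115 hb
  rcases Nat.lt_or_ge f 340 with g116 | g116
  · exact chB_true k223_339 g115 g116 hb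
  rcases Nat.lt_or_ge f 341 with g117 | g117
  · exact chB_true k223_340 g116 g117 hb
  rcases Nat.lt_or_ge f 343 with g118 | g118
  · exact chB_true k223_341 g117 g118 hb
  rcases Nat.lt_or_ge f 345 with g119 | g119
  · exact chB_true k223_343 g118 g119 hb
  rcases Nat.lt_or_ge f 347 with g120 | g120
  · exact chB_true k223_345 g119 g120 hb
  rcases Nat.lt_or_ge f 349 with g121 | g121
  · exact chB_true k223_347 g120 g121 hb
  rcases Nat.lt_or_ge f 353 with g122 | g122
  · exact chB_true k223_349 g121 g122 hb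
  rcases Nat.lt_or_ge f 354 with g123 | g123
  · exact chB_true k223_353 g122 g123 hb
  rcases Nat.lt_or_ge f 355 with g124 | g124
  · exact chB_true k223_354 g123 g124 hb
  rcases Nat.lt_or_ge f 357 with g125 | g125
  · exact chB_true k223_355 g124 g125 hb
  rcases Nat.lt_or_ge f 358 with g126 | g126
  · exact chB_true k223_357 g125 g126 hb
  rcases Nat.lt_or_ge f 361 with g127 | g127
  · exact chB_true k223_358 g126 g127 hb
  rcases Nat.lt_or_ge f 362 with g128 | g128
  · exact chB_true k223_361 g127 g128 hb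
  rcases Nat.lt_or_ge f 365 with g129 | g129
  · exact chB_true k223_362 g128 g129 hb
  rcases Nat.lt_or_ge f 369 with g130 | g130
  · exact chB_true k223_365 g129 g130 hb
  rcases Nat.lt_or_ge f 370 with g131 | g131
  · exact chB_true k223_369 g130 g131 hb
  rcases Nat.lt_or_ge f 371 with g132 | g132
  · exact chB_true k223_370 g131 g132 hb
  rcases Nat.lt_or_ge f 385 with g133 | g133
  · exact chB_true k223_371 g132 g133 hb
  rcases Nat.lt_or_ge f 386 with g134 | g134
  · exact chB_true k223_385 g133 g134 hb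
  rcases Nat.lt_or_ge f 387 with g135 | g135
  · exact chB_true k223_386 g134 g135 hb
  rcases Nat.lt_or_ge f 388 with g136 | g136
  · exact chB_true k223_387 g135 g136 hb
  rcases Nat.lt_or_ge f 389 with g137 | g137
  · exact chB_true k223_388 g136 g137 hb
  rcases Nat.lt_or_ge f 391 with g138 | g138
  · exact chB_true k223_389 g137 g138 hb
  rcases Nat.lt_or_ge f 393 with g139 | g139
  · exact chB_true k223_391 g138 g139 hb
  rcases Nat.lt_or_ge f 394 with g140 | g140
  · exact chB_true k223_393 g139 g140 hb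
  rcases Nat.lt_or_ge f 395 with g141 | g141
  · exact chB_true k223_394 g140 g141 hb
  rcases Nat.lt_or_ge f 397 with g142 | g142
  · exact chB_true k223_395 g141 g142 hb
  rcases Nat.lt_or_ge f 399 with g143 | g143
  · exact chB_true k223_397 g142 g143 hb
  rcases Nat.lt_or_ge f 401 with g144 | g144
  · exact chB_true k223_399 g143 g144 hb
  rcases Nat.lt_or_ge f 402 with g145 | g145
  · exact chB_true k223_401 g144 g145 hb
  rcases Nat.lt_or_ge f 403 with g146 | g146
  · exact chB_true k223_402 g145 g146 hb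
  rcases Nat.lt_or_ge f 405 with g147 | g147
  · exact chB_true k223_403 g146 g147 hb
  rcases Nat.lt_or_ge f 409 with g148 | g148
  · exact chB_true k223_405 g147 g148 hb
  rcases Nat.lt_or_ge f 411 with g149 | g149
  · exact chB_true k223_409 g148 g149 hb
  rcases Nat.lt_or_ge f 413 with g150 | g150
  · exact chB_true k223_411 g149 g150 hb
  rcases Nat.lt_or_ge f 417 with g151 | g151
  · exact chB_true k223_413 g150 g151 hb
  rcases Nat.lt_or_ge f 418 with g152 | g152
  · exact chB_true k223_417 g151 g152 hb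
  rcases Nat.lt_or_ge f 419 with g153 | g153
  · exact chB_true k223_418 g152 g153 hb
  rcases Nat.lt_or_ge f 421 with g154 | g154
  · exact chB_true k223_419 g153 g154 hb
  rcases Nat.lt_or_ge f 425 with g155 | g155
  · exact chB_true k223_421 g154 g155 hb
  rcases Nat.lt_or_ge f 426 with g156 | g156
  · exact chB_true k223_425 g155 g156 hb
  rcases Nat.lt_or_ge f 429 with g157 | g157
  · exact chB_true k223_426 g156 g157 hb
  rcases Nat.lt_or_ge f 433 with g158 | g158
  · exact chB_true k223_429 g157 g158 hb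
  rcases Nat.lt_or_ge f 449 with g159 | g159
  · exact chB_true k223_433 g158 g159 hb
  rcases Nat.lt_or_ge f 451 with g160 | g160
  · exact chB_true k223_449 g159 g160 hb
  rcases Nat.lt_or_ge f 453 with g161 | g161
  · exact chB_true k223_451 g160 g161 hb
  rcases Nat.lt_or_ge f 457 with g162 | g162
  · exact chB_true k223_453 g161 g162 hb
  rcases Nat.lt_or_ge f 459 with g163 | g163
  · exact chB_true k223_457 g162 g163 hb
  rcases Nat.lt_or_ge f 461 with g164 | g164
  · exact chB_true k223_459 g163 g164 hb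
  rcases Nat.lt_or_ge f 465 with g165 | g165
  · exact chB_true k223_461 g164 g165 hb
  rcases Nat.lt_or_ge f 467 with g166 | g166
  · exact chB_true k223_465 g165 g166 hb
  rcases Nat.lt_or_ge f 469 with g167 | g167
  · exact chB_true k223_467 g166 g167 hb
  rcases Nat.lt_or_ge f 473 with g168 | g168
  · exact chB_true k223_469 g167 g168 hb
  rcases Nat.lt_or_ge f 475 with g169 | g169
  · exact chB_true k223_473 g168 g169 hb
  rcases Nat.lt_or_ge f 477 with g170 | g170
  · exact chB_true k223_475 g169 g170 hb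
  rcases Nat.lt_or_ge f 481 with g171 | g171
  · exact chB_true k223_477 g170 g171 hb
  rcases Nat.lt_or_ge f 482 with g172 | g172
  · exact chB_true k223_481 g171 g172 hb
  rcases Nat.lt_or_ge f 483 with g173 | g173
  · exact chB_true k223_482 g172 g173 hb
  rcases Nat.lt_or_ge f 485 with g174 | g174
  · exact chB_true k223_483 g173 g174 hb
  rcases Nat.lt_or_ge f 489 with g175 | g175
  · exact chB_true k223_485 g174 g175 hb
  rcases Nat.lt_or_ge f 493 with g176 | g176
  · exact chB_true k223_489 g175 g176 hb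
  rcases Nat.lt_or_ge f 497 with g177 | g177
  · exact chB_true k223_493 g176 g177 hb
  rcases Nat.lt_or_ge f 498 with g178 | g178
  · exact chB_true k223_497 g177 g178 hb
  rcases Nat.lt_or_ge f 499 with g179 | g179
  · exact chB_true k223_498 g178 g179 hb
  rcases Nat.lt_or_ge f 769 with g180 | g180
  · exact chB_true k223_499 g179 g180 hb
  rcases Nat.lt_or_ge f 770 with g181 | g181
  · exact chB_true k223_769 g180 g181 hb
  rcases Nat.lt_or_ge f 771 with g182 | g182
  · exact chB_true k223_770 g181 g182 hb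
  rcases Nat.lt_or_ge f 772 with g183 | g183
  · exact chB_true k223_771 g182 g183 hb
  rcases Nat.lt_or_ge f 773 with g184 | g184
  · exact chB_true k223_772 g183 g184 hb
  rcases Nat.lt_or_ge f 774 with g185 | g185
  · exact chB_true k223_773 g184 g185 hb
  rcases Nat.lt_or_ge f 775 with g186 | g186
  · exact chB_true k223_774 g185 g186 hb
  rcases Nat.lt_or_ge f 779 with g187 | g187
  · exact chB_true k223_775 g186 g187 hb
  rcases Nat.lt_or_ge f 781 with g188 | g188
  · exact chB_true k223_779 g187 g188 hb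
  rcases Nat.lt_or_ge f 782 with g189 | g189
  · exact chB_true k223_781 g188 g189 hb
  rcases Nat.lt_or_ge f 787 with g190 | g190
  · exact chB_true k223_782 g189 g190 hb
  rcases Nat.lt_or_ge f 788 with g191 | g191
  · exact chB_true k223_787 g190 g191 hb
  rcases Nat.lt_or_ge f 801 with g192 | g192
  · exact chB_true k223_788 g191 g192 hb
  rcases Nat.lt_or_ge f 802 with g193 | g193
  · exact chB_true k223_801 g192 g193 hb
  rcases Nat.lt_or_ge f 803 with g194 | g194
  · exact chB_true k223_802 g193 g194 hb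
  rcases Nat.lt_or_ge f 805 with g195 | g195
  · exact chB_true k223_803 g194 g195 hb
  rcases Nat.lt_or_ge f 833 with g196 | g196
  · exact chB_true k223_805 g195 g196 hb
  rcases Nat.lt_or_ge f 834 with g197 | g197
  · exact chB_true k223_833 g196 g197 hb
  rcases Nat.lt_or_ge f 835 with g198 | g198
  · exact chB_true k223_834 g197 g198 hb
  rcases Nat.lt_or_ge f 836 with g199 | g199
  · exact chB_true k223_835 g198 g199 hb
  rcases Nat.lt_or_ge f 837 with g200 | g200
  · exact chB_true k223_836 g199 g200 hb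
  rcases Nat.lt_or_ge f 838 with g201 | g201
  · exact chB_true k223_837 g200 g201 hb
  rcases Nat.lt_or_ge f 839 with g202 | g202
  · exact chB_true k223_838 g201 g202 hb
  rcases Nat.lt_or_ge f 841 with g203 | g203
  · exact chB_true k223_839 g202 g203 hb
  rcases Nat.lt_or_ge f 843 with g204 | g204
  · exact chB_true k223_841 g203 g204 hb
  rcases Nat.lt_or_ge f 845 with g205 | g205
  · exact chB_true k223_843 g204 g205 hb
  rcases Nat.lt_or_ge f 849 with g206 | g206
  · exact chB_true k223_845 g205 g206 hb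
  rcases Nat.lt_or_ge f 850 with g207 | g207
  · exact chB_true k223_849 g206 g207 hb
  rcases Nat.lt_or_ge f 851 with g208 | g208
  · exact chB_true k223_850 g207 g208 hb
  rcases Nat.lt_or_ge f 852 with g209 | g209
  · exact chB_true k223_851 g208 g209 hb
  rcases Nat.lt_or_ge f 853 with g210 | g210
  · exact chB_true k223_852 g209 g210 hb
  rcases Nat.lt_or_ge f 855 with g211 | g211
  · exact chB_true k223_853 g210 g211 hb
  rcases Nat.lt_or_ge f 861 with g212 | g212
  · exact chB_true k223_855 g211 g212 hb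
  rcases Nat.lt_or_ge f 865 with g213 | g213
  · exact chB_true k223_861 g212 g213 hb
  rcases Nat.lt_or_ge f 866 with g214 | g214
  · exact chB_true k223_865 g213 g214 hb
  rcases Nat.lt_or_ge f 867 with g215 | g215
  · exact chB_true k223_866 g214 g215 hb
  rcases Nat.lt_or_ge f 869 with g216 | g216
  · exact chB_true k223_867 g215 g216 hb
  rcases Nat.lt_or_ge f 870 with g217 | g217
  · exact chB_true k223_869 g216 g217 hb
  rcases Nat.lt_or_ge f 873 with g218 | g218
  · exact chB_true k223_870 g217 g218 hb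
  rcases Nat.lt_or_ge f 881 with g219 | g219
  · exact chB_true k223_873 g218 g219 hb
  rcases Nat.lt_or_ge f 961 with g220 | g220
  · exact chB_true k223_881 g219 g220 hb
  rcases Nat.lt_or_ge f 963 with g221 | g221
  · exact chB_true k223_961 g220 g221 hb
  rcases Nat.lt_or_ge f 973 with g222 | g222
  · exact chB_true k223_963 g221 g222 hb
  rcases Nat.lt_or_ge f 979 with g223 | g223
  · exact chB_true k223_973 g222 g223 hb
  rcases Nat.lt_or_ge f 993 with g224 | g224
  · exact chB_true k223_979 g223 g224 hb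
  rcases Nat.lt_or_ge f 995 with g225 | g225
  · exact chB_true k223_993 g224 g225 hb
  rcases Nat.lt_or_ge f 1005 with g226 | g226
  · exact chB_true k223_995 g225 g226 hb
  exact chB_true k223_1005 g226 hf hb

theorem ka254 {f : ℕ} (hf : f < 1024) (hb : Nat.beq (Nat.mod (Nat.shiftRight rq254 f) 2) 1 = true) : chm 254 f = true := by
  rcases Nat.lt_or_ge f 1 with g1 | g1
  · exact chB_true k254_0 (Nat.zero_le _) g1 hb
  rcases Nat.lt_or_ge f 2 with g2 | g2
  · exact chB_true k254_1 g1 g2 hb
  rcases Nat.lt_or_ge f 4 with g3 | g3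
  · exact chB_true k254_2 g2 g3 hb
  rcases Nat.lt_or_ge f 5 with g4 | g4
  · exact chB_true k254_4 g3 g4 hb
  rcases Nat.lt_or_ge f 6 with g5 | g5
  · exact chB_true k254_5 g4 g5 hb
  rcases Nat.lt_or_ge f 8 with g6 | g6
  · exact chB_true k254_6 g5 g6 hb
  rcases Nat.lt_or_ge f 9 with g7 | g7
  · exact chB_true k254_8 g6 g7 hb
  rcases Nat.lt_or_ge f 10 with g8 | g8
  · exact chB_true k254_9 g7 g8 hb
  rcases Nat.lt_or_ge f 12 with g9 | g9
  · exact chB_true k254_10 g8 g9 hb
  rcases Nat.lt_or_ge f 13 with g10 | g10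
  · exact chB_true k254_12 g9 g10 hb
  rcases Nat.lt_or_ge f 14 with g11 | g11
  · exact chB_true k254_13 g10 g11 hb
  rcases Nat.lt_or_ge f 16 with g12 | g12
  · exact chB_true k254_14 g11 g12 hb
  rcases Nat.lt_or_ge f 17 with g13 | g13
  · exact chB_true k254_16 g12 g13 hb
  rcases Nat.lt_or_ge f 18 with g14 | g14
  · exact chB_true k254_17 g13 g14 hb
  rcases Nat.lt_or_ge f 19 with g15 | g15
  · exact chB_true k254_18 g14 g15 hb
  rcases Nat.lt_or_ge f 20 with g16 | g16
  · exact chB_true k254_19 g15 g16 hb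
  rcases Nat.lt_or_ge f 21 with g17 | g17
  · exact chB_true k254_20 g16 g17 hb
  rcases Nat.lt_or_ge f 22 with g18 | g18
  · exact chB_true k254_21 g17 g18 hb
  rcases Nat.lt_or_ge f 23 with g19 | g19
  · exact chB_true k254_22 g18 g19 hb
  rcases Nat.lt_or_ge f 24 with g20 | g20
  · exact chB_true k254_23 g19 g20 hb
  rcases Nat.lt_or_ge f 25 with g21 | g21
  · exact chB_true k254_24 g20 g21 hb
  rcases Nat.lt_or_ge f 26 with g22 | g22
  · exact chB_true k254_25 g21 g22 hb
  rcases Nat.lt_or_ge f 27 with g23 | g23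
  · exact chB_true k254_26 g22 g23 hb
  rcases Nat.lt_or_ge f 29 with g24 | g24
  · exact chB_true k254_27 g23 g24 hb
  rcases Nat.lt_or_ge f 31 with g25 | g25
  · exact chB_true k254_29 g24 g25 hb
  rcases Nat.lt_or_ge f 49 with g26 | g26
  · exact chB_true k254_31 g25 g26 hb
  rcases Nat.lt_or_ge f 50 with g27 | g27
  · exact chB_true k254_49 g26 g27 hb
  rcases Nat.lt_or_ge f 52 with g28 | g28
  · exact chB_true k254_50 g27 g28 hb
  rcases Nat.lt_or_ge f 53 with g29 | g29
  · exact chB_true k254_52 g28 g29 hb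
  rcases Nat.lt_or_ge f 57 with g30 | g30
  · exact chB_true k254_53 g29 g30 hb
  rcases Nat.lt_or_ge f 73 with g31 | g31
  · exact chB_true k254_57 g30 g31 hb
  rcases Nat.lt_or_ge f 74 with g32 | g32
  · exact chB_true k254_73 g31 g32 hb
  rcases Nat.lt_or_ge f 76 with g33 | g33
  · exact chB_true k254_74 g32 g33 hb
  rcases Nat.lt_or_ge f 77 with g34 | g34
  · exact chB_true k254_76 g33 g34 hb
  rcases Nat.lt_or_ge f 78 with g35 | g35
  · exact chB_true k254_77 g34 g35 hb
  rcases Nat.lt_or_ge f 80 with g36 | g36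
  · exact chB_true k254_78 g35 g36 hb
  rcases Nat.lt_or_ge f 81 with g37 | g37
  · exact chB_true k254_80 g36 g37 hb
  rcases Nat.lt_or_ge f 82 with g38 | g38
  · exact chB_true k254_81 g37 g38 hb
  rcases Nat.lt_or_ge f 83 with g39 | g39
  · exact chB_true k254_82 g38 g39 hb
  rcases Nat.lt_or_ge f 84 with g40 | g40
  · exact chB_true k254_83 g39 g40 hb
  rcases Nat.lt_or_ge f 85 with g41 | g41
  · exact chB_true k254_84 g40 g41 hb
  rcases Nat.lt_or_ge f 86 with g42 | g42
  · exact chB_true k254_85 g41 g42 hb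
  rcases Nat.lt_or_ge f 87 with g43 | g43
  · exact chB_true k254_86 g42 g43 hb
  rcases Nat.lt_or_ge f 88 with g44 | g44
  · exact chB_true k254_87 g43 g44 hb
  rcases Nat.lt_or_ge f 89 with g45 | g45
  · exact chB_true k254_88 g44 g45 hb
  rcases Nat.lt_or_ge f 91 with g46 | g46
  · exact chB_true k254_89 g45 g46 hb
  rcases Nat.lt_or_ge f 93 with g47 | g47
  · exact chB_true k254_91 g46 g47 hb
  rcases Nat.lt_or_ge f 95 with g48 | g48
  · exact chB_true k254_93 g47 g48 hb
  rcases Nat.lt_or_ge f 113 with g49 | g49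
  · exact chB_true k254_95 g48 g49 hb
  rcases Nat.lt_or_ge f 114 with g50 | g50
  · exact chB_true k254_113 g49 g50 hb
  rcases Nat.lt_or_ge f 116 with g51 | g51
  · exact chB_true k254_114 g50 g51 hb
  rcases Nat.lt_or_ge f 117 with g52 | g52
  · exact chB_true k254_116 g51 g52 hb
  rcases Nat.lt_or_ge f 121 with g53 | g53
  · exact chB_true k254_117 g52 g53 hb
  rcases Nat.lt_or_ge f 145 with g54 | g54
  · exact chB_true k254_121 g53 g54 hb
  rcases Nat.lt_or_ge f 146 with g55 | g55
  · exact chB_true k254_145 g54 g55 hb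
  rcases Nat.lt_or_ge f 147 with g56 | g56
  · exact chB_true k254_146 g55 g56 hb
  rcases Nat.lt_or_ge f 148 with g57 | g57
  · exact chB_true k254_147 g56 g57 hb
  rcases Nat.lt_or_ge f 149 with g58 | g58
  · exact chB_true k254_148 g57 g58 hb
  rcases Nat.lt_or_ge f 150 with g59 | g59
  · exact chB_true k254_149 g58 g59 hb
  rcases Nat.lt_or_ge f 151 with g60 | g60
  · exact chB_true k254_150 g59 g60 hb
  rcases Nat.lt_or_ge f 153 with g61 | g61
  · exact chB_true k254_151 g60 g61 hb
  rcases Nat.lt_or_ge f 155 with g62 | g62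
  · exact chB_true k254_153 g61 g62 hb
  rcases Nat.lt_or_ge f 157 with g63 | g63
  · exact chB_true k254_155 g62 g63 hb
  rcases Nat.lt_or_ge f 159 with g64 | g64
  · exact chB_true k254_157 g63 g64 hb
  rcases Nat.lt_or_ge f 161 with g65 | g65
  · exact chB_true k254_159 g64 g65 hb
  rcases Nat.lt_or_ge f 162 with g66 | g66
  · exact chB_true k254_161 g65 g66 hb
  rcases Nat.lt_or_ge f 164 with g67 | g67
  · exact chB_true k254_162 g66 g67 hb
  rcases Nat.lt_or_ge f 165 with g68 | g68
  · exact chB_true k254_164 g67 g68 hb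
  rcases Nat.lt_or_ge f 166 with g69 | g69
  · exact chB_true k254_165 g68 g69 hb
  rcases Nat.lt_or_ge f 168 with g70 | g70
  · exact chB_true k254_166 g69 g70 hb
  rcases Nat.lt_or_ge f 169 with g71 | g71
  · exact chB_true k254_168 g70 g71 hb
  rcases Nat.lt_or_ge f 170 with g72 | g72
  · exact chB_true k254_169 g71 g72 hb
  rcases Nat.lt_or_ge f 171 with g73 | g73
  · exact chB_true k254_170 g72 g73 hb
  rcases Nat.lt_or_ge f 173 with g74 | g74
  · exact chB_true k254_171 g73 g74 hb
  rcases Nat.lt_or_ge f 174 with g75 | g75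
  · exact chB_true k254_173 g74 g75 hb
  rcases Nat.lt_or_ge f 177 with g76 | g76
  · exact chB_true k254_174 g75 g76 hb
  rcases Nat.lt_or_ge f 178 with g77 | g77
  · exact chB_true k254_177 g76 g77 hb
  rcases Nat.lt_or_ge f 179 with g78 | g78
  · exact chB_true k254_178 g77 g78 hb
  rcases Nat.lt_or_ge f 180 with g79 | g79
  · exact chB_true k254_179 g78 g79 hb
  rcases Nat.lt_or_ge f 181 with g80 | g80
  · exact chB_true k254_180 g79 g80 hb
  rcases Nat.lt_or_ge f 185 with g81 | g81
  · exact chB_true k254_181 g80 g81 hb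
  rcases Nat.lt_or_ge f 217 with g82 | g82
  · exact chB_true k254_185 g81 g82 hb
  rcases Nat.lt_or_ge f 219 with g83 | g83
  · exact chB_true k254_217 g82 g83 hb
  rcases Nat.lt_or_ge f 221 with g84 | g84
  · exact chB_true k254_219 g83 g84 hb
  rcases Nat.lt_or_ge f 223 with g85 | g85
  · exact chB_true k254_221 g84 g85 hb
  rcases Nat.lt_or_ge f 233 with g86 | g86
  · exact chB_true k254_223 g85 g86 hb
  rcases Nat.lt_or_ge f 237 with g87 | g87
  · exact chB_true k254_233 g86 g87 hb
  rcases Nat.lt_or_ge f 241 with g88 | g88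
  · exact chB_true k254_237 g87 g88 hb
  rcases Nat.lt_or_ge f 243 with g89 | g89
  · exact chB_true k254_241 g88 g89 hb
  rcases Nat.lt_or_ge f 245 with g90 | g90
  · exact chB_true k254_243 g89 g90 hb
  rcases Nat.lt_or_ge f 249 with g91 | g91
  · exact chB_true k254_245 g90 g91 hb
  rcases Nat.lt_or_ge f 433 with g92 | g92
  · exact chB_true k254_249 g91 g92 hb
  rcases Nat.lt_or_ge f 434 with g93 | g93
  · exact chB_true k254_433 g92 g93 hb
  rcases Nat.lt_or_ge f 436 with g94 | g94
  · exact chB_true k254_434 g93 g94 hb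
  rcases Nat.lt_or_ge f 441 with g95 | g95
  · exact chB_true k254_436 g94 g95 hb
  rcases Nat.lt_or_ge f 505 with g96 | g96
  · exact chB_true k254_441 g95 g96 hb
  rcases Nat.lt_or_ge f 513 with g97 | g97
  · exact chB_true k254_505 g96 g97 hb
  rcases Nat.lt_or_ge f 514 with g98 | g98
  · exact chB_true k254_513 g97 g98 hb
  rcases Nat.lt_or_ge f 516 with g99 | g99
  · exact chB_true k254_514 g98 g99 hb
  rcases Nat.lt_or_ge f 517 with g100 | g100
  · exact chB_true k254_516 g99 g100 hb
  rcases Nat.lt_or_ge f 518 with g101 | g101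
  · exact chB_true k254_517 g100 g101 hb
  rcases Nat.lt_or_ge f 520 with g102 | g102
  · exact chB_true k254_518 g101 g102 hb
  rcases Nat.lt_or_ge f 521 with g103 | g103
  · exact chB_true k254_520 g102 g103 hb
  rcases Nat.lt_or_ge f 522 with g104 | g104
  · exact chB_true k254_521 g103 g104 hb
  rcases Nat.lt_or_ge f 524 with g105 | g105
  · exact chB_true k254_522 g104 g105 hb
  rcases Nat.lt_or_ge f 525 with g106 | g106
  · exact chB_true k254_524 g105 g106 hb
  rcases Nat.lt_or_ge f 526 with g107 | g107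
  · exact chB_true k254_525 g106 g107 hb
  rcases Nat.lt_or_ge f 528 with g108 | g108
  · exact chB_true k254_526 g107 g108 hb
  rcases Nat.lt_or_ge f 529 with g109 | g109
  · exact chB_true k254_528 g108 g109 hb
  rcases Nat.lt_or_ge f 530 with g110 | g110
  · exact chB_true k254_529 g109 g110 hb
  rcases Nat.lt_or_ge f 531 with g111 | g111
  · exact chB_true k254_530 g110 g111 hb
  rcases Nat.lt_or_ge f 532 with g112 | g112
  · exact chB_true k254_531 g111 g112 hb
  rcases Nat.lt_or_ge f 533 with g113 | g113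
  · exact chB_true k254_532 g112 g113 hb
  rcases Nat.lt_or_ge f 534 with g114 | g114
  · exact chB_true k254_533 g113 g114 hb
  rcases Nat.lt_or_ge f 535 with g115 | g115
  · exact chB_true k254_534 g114 g115 hb
  rcases Nat.lt_or_ge f 536 with g116 | g116
  · exact chB_true k254_535 g115 g116 hb
  rcases Nat.lt_or_ge f 537 with g117 | g117
  · exact chB_true k254_536 g116 g117 hb
  rcases Nat.lt_or_ge f 539 with g118 | g118
  · exact chB_true k254_537 g117 g118 hb
  rcases Nat.lt_or_ge f 541 with g119 | g119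
  · exact chB_true k254_539 g118 g119 hb
  rcases Nat.lt_or_ge f 543 with g120 | g120
  · exact chB_true k254_541 g119 g120 hb
  rcases Nat.lt_or_ge f 561 with g121 | g121
  · exact chB_true k254_543 g120 g121 hb
  rcases Nat.lt_or_ge f 562 with g122 | g122
  · exact chB_true k254_561 g121 g122 hb
  rcases Nat.lt_or_ge f 564 with g123 | g123
  · exact chB_true k254_562 g122 g123 hb
  rcases Nat.lt_or_ge f 565 with g124 | g124
  · exact chB_true k254_564 g123 g124 hb
  rcases Nat.lt_or_ge f 569 with g125 | g125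
  · exact chB_true k254_565 g124 g125 hb
  rcases Nat.lt_or_ge f 585 with g126 | g126
  · exact chB_true k254_569 g125 g126 hb
  rcases Nat.lt_or_ge f 589 with g127 | g127
  · exact chB_true k254_585 g126 g127 hb
  rcases Nat.lt_or_ge f 593 with g128 | g128
  · exact chB_true k254_589 g127 g128 hb
  rcases Nat.lt_or_ge f 594 with g129 | g129
  · exact chB_true k254_593 g128 g129 hb
  rcases Nat.lt_or_ge f 595 with g130 | g130
  · exact chB_true k254_594 g129 g130 hb
  rcases Nat.lt_or_ge f 596 with g131 | g131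
  · exact chB_true k254_595 g130 g131 hb
  rcases Nat.lt_or_ge f 597 with g132 | g132
  · exact chB_true k254_596 g131 g132 hb
  rcases Nat.lt_or_ge f 598 with g133 | g133
  · exact chB_true k254_597 g132 g133 hb
  rcases Nat.lt_or_ge f 599 with g134 | g134
  · exact chB_true k254_598 g133 g134 hb
  rcases Nat.lt_or_ge f 600 with g135 | g135
  · exact chB_true k254_599 g134 g135 hb
  rcases Nat.lt_or_ge f 625 with g136 | g136
  · exact chB_true k254_600 g135 g136 hb
  rcases Nat.lt_or_ge f 629 with g137 | g137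
  · exact chB_true k254_625 g136 g137 hb
  rcases Nat.lt_or_ge f 657 with g138 | g138
  · exact chB_true k254_629 g137 g138 hb
  rcases Nat.lt_or_ge f 659 with g139 | g139
  · exact chB_true k254_657 g138 g139 hb
  rcases Nat.lt_or_ge f 661 with g140 | g140
  · exact chB_true k254_659 g139 g140 hb
  rcases Nat.lt_or_ge f 663 with g141 | g141
  · exact chB_true k254_661 g140 g141 hb
  rcases Nat.lt_or_ge f 671 with g142 | g142
  · exact chB_true k254_663 g141 g142 hb
  rcases Nat.lt_or_ge f 673 with g143 | g143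
  · exact chB_true k254_671 g142 g143 hb
  rcases Nat.lt_or_ge f 674 with g144 | g144
  · exact chB_true k254_673 g143 g144 hb
  rcases Nat.lt_or_ge f 676 with g145 | g145
  · exact chB_true k254_674 g144 g145 hb
  rcases Nat.lt_or_ge f 677 with g146 | g146
  · exact chB_true k254_676 g145 g146 hb
  rcases Nat.lt_or_ge f 678 with g147 | g147
  · exact chB_true k254_677 g146 g147 hb
  rcases Nat.lt_or_ge f 680 with g148 | g148
  · exact chB_true k254_678 g147 g148 hb
  rcases Nat.lt_or_ge f 681 with g149 | g149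
  · exact chB_true k254_680 g148 g149 hb
  rcases Nat.lt_or_ge f 682 with g150 | g150
  · exact chB_true k254_681 g149 g150 hb
  rcases Nat.lt_or_ge f 685 with g151 | g151
  · exact chB_true k254_682 g150 g151 hb
  rcases Nat.lt_or_ge f 689 with g152 | g152
  · exact chB_true k254_685 g151 g152 hb
  rcases Nat.lt_or_ge f 691 with g153 | g153
  · exact chB_true k254_689 g152 g153 hb
  rcases Nat.lt_or_ge f 692 with g154 | g154
  · exact chB_true k254_691 g153 g154 hb
  rcases Nat.lt_or_ge f 945 with g155 | g155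
  · exact chB_true k254_692 g154 g155 hb
  exact chB_true k254_945 g155 hf hb

theorem ka255 {f : ℕ} (hf : f < 1024) (hb : Nat.beq (Nat.mod (Nat.shiftRight rq255 f) 2) 1 = true) : chm 255 f = true := by
  rcases Nat.lt_or_ge f 1 with g1 | g1
  · exact chB_true k255_0 (Nat.zero_le _) g1 hb
  rcases Nat.lt_or_ge f 2 with g2 | g2
  · exact chB_true k255_1 g1 g2 hb
  rcases Nat.lt_or_ge f 4 with g3 | g3
  · exact chB_true k255_2 g2 g3 hb
  rcases Nat.lt_or_ge f 5 with g4 | g4
  · exact chB_true k255_4 g3 g4 hb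
  rcases Nat.lt_or_ge f 6 with g5 | g5
  · exact chB_true k255_5 g4 g5 hb
  rcases Nat.lt_or_ge f 8 with g6 | g6
  · exact chB_true k255_6 g5 g6 hb
  rcases Nat.lt_or_ge f 9 with g7 | g7
  · exact chB_true k255_8 g6 g7 hb
  rcases Nat.lt_or_ge f 10 with g8 | g8
  · exact chB_true k255_9 g7 g8 hb
  rcases Nat.lt_or_ge f 12 with g9 | g9
  · exact chB_true k255_10 g8 g9 hb
  rcases Nat.lt_or_ge f 13 with g10 | g10
  · exact chB_true k255_12 g9 g10 hb
  rcases Nat.lt_or_ge f 14 with g11 | g11
  · exact chB_true k255_13 g10 g11 hb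
  rcases Nat.lt_or_ge f 16 with g12 | g12
  · exact chB_true k255_14 g11 g12 hb
  rcases Nat.lt_or_ge f 17 with g13 | g13
  · exact chB_true k255_16 g12 g13 hb
  rcases Nat.lt_or_ge f 18 with g14 | g14
  · exact chB_true k255_17 g13 g14 hb
  rcases Nat.lt_or_ge f 19 with g15 | g15
  · exact chB_true k255_18 g14 g15 hb
  rcases Nat.lt_or_ge f 20 with g16 | g16
  · exact chB_true k255_19 g15 g16 hb
  rcases Nat.lt_or_ge f 21 with g17 | g17
  · exact chB_true k255_20 g16 g17 hb
  rcases Nat.lt_or_ge f 22 with g18 | g18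
  · exact chB_true k255_21 g17 g18 hb
  rcases Nat.lt_or_ge f 23 with g19 | g19
  · exact chB_true k255_22 g18 g19 hb
  rcases Nat.lt_or_ge f 24 with g20 | g20
  · exact chB_true k255_23 g19 g20 hb
  rcases Nat.lt_or_ge f 25 with g21 | g21
  · exact chB_true k255_24 g20 g21 hb
  rcases Nat.lt_or_ge f 26 with g22 | g22
  · exact chB_true k255_25 g21 g22 hb
  rcases Nat.lt_or_ge f 27 with g23 | g23
  · exact chB_true k255_26 g22 g23 hb
  rcases Nat.lt_or_ge f 28 with g24 | g24
  · exact chB_true k255_27 g23 g24 hb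
  rcases Nat.lt_or_ge f 29 with g25 | g25
  · exact chB_true k255_28 g24 g25 hb
  rcases Nat.lt_or_ge f 30 with g26 | g26
  · exact chB_true k255_29 g25 g26 hb
  rcases Nat.lt_or_ge f 31 with g27 | g27
  · exact chB_true k255_30 g26 g27 hb
  rcases Nat.lt_or_ge f 49 with g28 | g28
  · exact chB_true k255_31 g27 g28 hb
  rcases Nat.lt_or_ge f 50 with g29 | g29
  · exact chB_true k255_49 g28 g29 hb
  rcases Nat.lt_or_ge f 52 with g30 | g30
  · exact chB_true k255_50 g29 g30 hb
  rcases Nat.lt_or_ge f 53 with g31 | g31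
  · exact chB_true k255_52 g30 g31 hb
  rcases Nat.lt_or_ge f 54 with g32 | g32
  · exact chB_true k255_53 g31 g32 hb
  rcases Nat.lt_or_ge f 57 with g33 | g33
  · exact chB_true k255_54 g32 g33 hb
  rcases Nat.lt_or_ge f 61 with g34 | g34
  · exact chB_true k255_57 g33 g34 hb
  rcases Nat.lt_or_ge f 73 with g35 | g35
  · exact chB_true k255_61 g34 g35 hb
  rcases Nat.lt_or_ge f 74 with g36 | g36
  · exact chB_true k255_73 g35 g36 hb
  rcases Nat.lt_or_ge f 76 with g37 | g37
  · exact chB_true k255_74 g36 g37 hb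
  rcases Nat.lt_or_ge f 77 with g38 | g38
  · exact chB_true k255_76 g37 g38 hb
  rcases Nat.lt_or_ge f 78 with g39 | g39
  · exact chB_true k255_77 g38 g39 hb
  rcases Nat.lt_or_ge f 80 with g40 | g40
  · exact chB_true k255_78 g39 g40 hb
  rcases Nat.lt_or_ge f 81 with g41 | g41
  · exact chB_true k255_80 g40 g41 hb
  rcases Nat.lt_or_ge f 82 with g42 | g42
  · exact chB_true k255_81 g41 g42 hb
  rcases Nat.lt_or_ge f 83 with g43 | g43
  · exact chB_true k255_82 g42 g43 hb
  rcases Nat.lt_or_ge f 84 with g44 | g44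
  · exact chB_true k255_83 g43 g44 hb
  rcases Nat.lt_or_ge f 85 with g45 | g45
  · exact chB_true k255_84 g44 g45 hb
  rcases Nat.lt_or_ge f 86 with g46 | g46
  · exact chB_true k255_85 g45 g46 hb
  rcases Nat.lt_or_ge f 87 with g47 | g47
  · exact chB_true k255_86 g46 g47 hb
  rcases Nat.lt_or_ge f 88 with g48 | g48
  · exact chB_true k255_87 g47 g48 hb
  rcases Nat.lt_or_ge f 89 with g49 | g49
  · exact chB_true k255_88 g48 g49 hb
  rcases Nat.lt_or_ge f 90 with g50 | g50
  · exact chB_true k255_89 g49 g50 hb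
  rcases Nat.lt_or_ge f 91 with g51 | g51
  · exact chB_true k255_90 g50 g51 hb
  rcases Nat.lt_or_ge f 92 with g52 | g52
  · exact chB_true k255_91 g51 g52 hb
  rcases Nat.lt_or_ge f 93 with g53 | g53
  · exact chB_true k255_92 g52 g53 hb
  rcases Nat.lt_or_ge f 94 with g54 | g54
  · exact chB_true k255_93 g53 g54 hb
  rcases Nat.lt_or_ge f 95 with g55 | g55
  · exact chB_true k255_94 g54 g55 hb
  rcases Nat.lt_or_ge f 113 with g56 | g56
  · exact chB_true k255_95 g55 g56 hb
  rcases Nat.lt_or_ge f 114 with g57 | g57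
  · exact chB_true k255_113 g56 g57 hb
  rcases Nat.lt_or_ge f 116 with g58 | g58
  · exact chB_true k255_114 g57 g58 hb
  rcases Nat.lt_or_ge f 117 with g59 | g59
  · exact chB_true k255_116 g58 g59 hb
  rcases Nat.lt_or_ge f 118 with g60 | g60
  · exact chB_true k255_117 g59 g60 hb
  rcases Nat.lt_or_ge f 121 with g61 | g61
  · exact chB_true k255_118 g60 g61 hb
  rcases Nat.lt_or_ge f 122 with g62 | g62
  · exact chB_true k255_121 g61 g62 hb
  rcases Nat.lt_or_ge f 125 with g63 | g63
  · exact chB_true k255_122 g62 g63 hb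
  rcases Nat.lt_or_ge f 145 with g64 | g64
  · exact chB_true k255_125 g63 g64 hb
  rcases Nat.lt_or_ge f 146 with g65 | g65
  · exact chB_true k255_145 g64 g65 hb
  rcases Nat.lt_or_ge f 147 with g66 | g66
  · exact chB_true k255_146 g65 g66 hb
  rcases Nat.lt_or_ge f 148 with g67 | g67
  · exact chB_true k255_147 g66 g67 hb
  rcases Nat.lt_or_ge f 149 with g68 | g68
  · exact chB_true k255_148 g67 g68 hb
  rcases Nat.lt_or_ge f 150 with g69 | g69
  · exact chB_true k255_149 g68 g69 hb
  rcases Nat.lt_or_ge f 151 with g70 | g70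
  · exact chB_true k255_150 g69 g70 hb
  rcases Nat.lt_or_ge f 153 with g71 | g71
  · exact chB_true k255_151 g70 g71 hb
  rcases Nat.lt_or_ge f 154 with g72 | g72
  · exact chB_true k255_153 g71 g72 hb
  rcases Nat.lt_or_ge f 155 with g73 | g73
  · exact chB_true k255_154 g72 g73 hb
  rcases Nat.lt_or_ge f 156 with g74 | g74
  · exact chB_true k255_155 g73 g74 hb
  rcases Nat.lt_or_ge f 157 with g75 | g75
  · exact chB_true k255_156 g74 g75 hb
  rcases Nat.lt_or_ge f 159 with g76 | g76
  · exact chB_true k255_157 g75 g76 hb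
  rcases Nat.lt_or_ge f 161 with g77 | g77
  · exact chB_true k255_159 g76 g77 hb
  rcases Nat.lt_or_ge f 162 with g78 | g78
  · exact chB_true k255_161 g77 g78 hb
  rcases Nat.lt_or_ge f 164 with g79 | g79
  · exact chB_true k255_162 g78 g79 hb
  rcases Nat.lt_or_ge f 165 with g80 | g80
  · exact chB_true k255_164 g79 g80 hb
  rcases Nat.lt_or_ge f 166 with g81 | g81
  · exact chB_true k255_165 g80 g81 hb
  rcases Nat.lt_or_ge f 168 with g82 | g82
  · exact chB_true k255_166 g81 g82 hb
  rcases Nat.lt_or_ge f 169 with g83 | g83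
  · exact chB_true k255_168 g82 g83 hb
  rcases Nat.lt_or_ge f 170 with g84 | g84
  · exact chB_true k255_169 g83 g84 hb
  rcases Nat.lt_or_ge f 171 with g85 | g85
  · exact chB_true k255_170 g84 g85 hb
  rcases Nat.lt_or_ge f 172 with g86 | g86
  · exact chB_true k255_171 g85 g86 hb
  rcases Nat.lt_or_ge f 173 with g87 | g87
  · exact chB_true k255_172 g86 g87 hb
  rcases Nat.lt_or_ge f 174 with g88 | g88
  · exact chB_true k255_173 g87 g88 hb
  rcases Nat.lt_or_ge f 175 with g89 | g89
  · exact chB_true k255_174 g88 g89 hb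
  rcases Nat.lt_or_ge f 177 with g90 | g90
  · exact chB_true k255_175 g89 g90 hb
  rcases Nat.lt_or_ge f 178 with g91 | g91
  · exact chB_true k255_177 g90 g91 hb
  rcases Nat.lt_or_ge f 179 with g92 | g92
  · exact chB_true k255_178 g91 g92 hb
  rcases Nat.lt_or_ge f 180 with g93 | g93
  · exact chB_true k255_179 g92 g93 hb
  rcases Nat.lt_or_ge f 181 with g94 | g94
  · exact chB_true k255_180 g93 g94 hb
  rcases Nat.lt_or_ge f 183 with g95 | g95
  · exact chB_true k255_181 g94 g95 hb
  rcases Nat.lt_or_ge f 185 with g96 | g96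
  · exact chB_true k255_183 g95 g96 hb
  rcases Nat.lt_or_ge f 187 with g97 | g97
  · exact chB_true k255_185 g96 g97 hb
  rcases Nat.lt_or_ge f 189 with g98 | g98
  · exact chB_true k255_187 g97 g98 hb
  rcases Nat.lt_or_ge f 217 with g99 | g99
  · exact chB_true k255_189 g98 g99 hb
  rcases Nat.lt_or_ge f 218 with g100 | g100
  · exact chB_true k255_217 g99 g100 hb
  rcases Nat.lt_or_ge f 219 with g101 | g101
  · exact chB_true k255_218 g100 g101 hb
  rcases Nat.lt_or_ge f 220 with g102 | g102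
  · exact chB_true k255_219 g101 g102 hb
  rcases Nat.lt_or_ge f 221 with g103 | g103
  · exact chB_true k255_220 g102 g103 hb
  rcases Nat.lt_or_ge f 222 with g104 | g104
  · exact chB_true k255_221 g103 g104 hb
  rcases Nat.lt_or_ge f 223 with g105 | g105
  · exact chB_true k255_222 g104 g105 hb
  rcases Nat.lt_or_ge f 233 with g106 | g106
  · exact chB_true k255_223 g105 g106 hb
  rcases Nat.lt_or_ge f 234 with g107 | g107
  · exact chB_true k255_233 g106 g107 hb
  rcases Nat.lt_or_ge f 236 with g108 | g108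
  · exact chB_true k255_234 g107 g108 hb
  rcases Nat.lt_or_ge f 237 with g109 | g109
  · exact chB_true k255_236 g108 g109 hb
  rcases Nat.lt_or_ge f 238 with g110 | g110
  · exact chB_true k255_237 g109 g110 hb
  rcases Nat.lt_or_ge f 241 with g111 | g111
  · exact chB_true k255_238 g110 g111 hb
  rcases Nat.lt_or_ge f 242 with g112 | g112
  · exact chB_true k255_241 g111 g112 hb
  rcases Nat.lt_or_ge f 243 with g113 | g113
  · exact chB_true k255_242 g112 g113 hb
  rcases Nat.lt_or_ge f 244 with g114 | g114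
  · exact chB_true k255_243 g113 g114 hb
  rcases Nat.lt_or_ge f 245 with g115 | g115
  · exact chB_true k255_244 g114 g115 hb
  rcases Nat.lt_or_ge f 246 with g116 | g116
  · exact chB_true k255_245 g115 g116 hb
  rcases Nat.lt_or_ge f 247 with g117 | g117
  · exact chB_true k255_246 g116 g117 hb
  rcases Nat.lt_or_ge f 249 with g118 | g118
  · exact chB_true k255_247 g117 g118 hb
  rcases Nat.lt_or_ge f 250 with g119 | g119
  · exact chB_true k255_249 g118 g119 hb
  rcases Nat.lt_or_ge f 251 with g120 | g120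
  · exact chB_true k255_250 g119 g120 hb
  rcases Nat.lt_or_ge f 253 with g121 | g121
  · exact chB_true k255_251 g120 g121 hb
  rcases Nat.lt_or_ge f 433 with g122 | g122
  · exact chB_true k255_253 g121 g122 hb
  rcases Nat.lt_or_ge f 434 with g123 | g123
  · exact chB_true k255_433 g122 g123 hb
  rcases Nat.lt_or_ge f 436 with g124 | g124
  · exact chB_true k255_434 g123 g124 hb
  rcases Nat.lt_or_ge f 437 with g125 | g125
  · exact chB_true k255_436 g124 g125 hb
  rcases Nat.lt_or_ge f 441 with g126 | g126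
  · exact chB_true k255_437 g125 g126 hb
  rcases Nat.lt_or_ge f 442 with g127 | g127
  · exact chB_true k255_441 g126 g127 hb
  rcases Nat.lt_or_ge f 445 with g128 | g128
  · exact chB_true k255_442 g127 g128 hb
  rcases Nat.lt_or_ge f 505 with g129 | g129
  · exact chB_true k255_445 g128 g129 hb
  rcases Nat.lt_or_ge f 506 with g130 | g130
  · exact chB_true k255_505 g129 g130 hb
  rcases Nat.lt_or_ge f 509 with g131 | g131
  · exact chB_true k255_506 g130 g131 hb
  rcases Nat.lt_or_ge f 513 with g132 | g132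
  · exact chB_true k255_509 g131 g132 hb
  rcases Nat.lt_or_ge f 514 with g133 | g133
  · exact chB_true k255_513 g132 g133 hb
  rcases Nat.lt_or_ge f 516 with g134 | g134
  · exact chB_true k255_514 g133 g134 hb
  rcases Nat.lt_or_ge f 517 with g135 | g135
  · exact chB_true k255_516 g134 g135 hb
  rcases Nat.lt_or_ge f 518 with g136 | g136
  · exact chB_true k255_517 g135 g136 hb
  rcases Nat.lt_or_ge f 520 with g137 | g137
  · exact chB_true k255_518 g136 g137 hb
  rcases Nat.lt_or_ge f 521 with g138 | g138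
  · exact chB_true k255_520 g137 g138 hb
  rcases Nat.lt_or_ge f 522 with g139 | g139
  · exact chB_true k255_521 g138 g139 hb
  rcases Nat.lt_or_ge f 524 with g140 | g140
  · exact chB_true k255_522 g139 g140 hb
  rcases Nat.lt_or_ge f 525 with g141 | g141
  · exact chB_true k255_524 g140 g141 hb
  rcases Nat.lt_or_ge f 526 with g142 | g142
  · exact chB_true k255_525 g141 g142 hb
  rcases Nat.lt_or_ge f 528 with g143 | g143
  · exact chB_true k255_526 g142 g143 hb
  rcases Nat.lt_or_ge f 529 with g144 | g144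
  · exact chB_true k255_528 g143 g144 hb
  rcases Nat.lt_or_ge f 530 with g145 | g145
  · exact chB_true k255_529 g144 g145 hb
  rcases Nat.lt_or_ge f 531 with g146 | g146
  · exact chB_true k255_530 g145 g146 hb
  rcases Nat.lt_or_ge f 532 with g147 | g147
  · exact chB_true k255_531 g146 g147 hb
  rcases Nat.lt_or_ge f 533 with g148 | g148
  · exact chB_true k255_532 g147 g148 hb
  rcases Nat.lt_or_ge f 534 with g149 | g149
  · exact chB_true k255_533 g148 g149 hb
  rcases Nat.lt_or_ge f 535 with g150 | g150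
  · exact chB_true k255_534 g149 g150 hb
  rcases Nat.lt_or_ge f 536 with g151 | g151
  · exact chB_true k255_535 g150 g151 hb
  rcases Nat.lt_or_ge f 537 with g152 | g152
  · exact chB_true k255_536 g151 g152 hb
  rcases Nat.lt_or_ge f 538 with g153 | g153
  · exact chB_true k255_537 g152 g153 hb
  rcases Nat.lt_or_ge f 539 with g154 | g154
  · exact chB_true k255_538 g153 g154 hb
  rcases Nat.lt_or_ge f 541 with g155 | g155
  · exact chB_true k255_539 g154 g155 hb
  rcases Nat.lt_or_ge f 543 with g156 | g156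
  · exact chB_true k255_541 g155 g156 hb
  rcases Nat.lt_or_ge f 561 with g157 | g157
  · exact chB_true k255_543 g156 g157 hb
  rcases Nat.lt_or_ge f 562 with g158 | g158
  · exact chB_true k255_561 g157 g158 hb
  rcases Nat.lt_or_ge f 564 with g159 | g159
  · exact chB_true k255_562 g158 g159 hb
  rcases Nat.lt_or_ge f 565 with g160 | g160
  · exact chB_true k255_564 g159 g160 hb
  rcases Nat.lt_or_ge f 569 with g161 | g161
  · exact chB_true k255_565 g160 g161 hb
  rcases Nat.lt_or_ge f 585 with g162 | g162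
  · exact chB_true k255_569 g161 g162 hb
  rcases Nat.lt_or_ge f 586 with g163 | g163
  · exact chB_true k255_585 g162 g163 hb
  rcases Nat.lt_or_ge f 588 with g164 | g164
  · exact chB_true k255_586 g163 g164 hb
  rcases Nat.lt_or_ge f 589 with g165 | g165
  · exact chB_true k255_588 g164 g165 hb
  rcases Nat.lt_or_ge f 590 with g166 | g166
  · exact chB_true k255_589 g165 g166 hb
  rcases Nat.lt_or_ge f 592 with g167 | g167
  · exact chB_true k255_590 g166 g167 hb
  rcases Nat.lt_or_ge f 593 with g168 | g168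
  · exact chB_true k255_592 g167 g168 hb
  rcases Nat.lt_or_ge f 594 with g169 | g169
  · exact chB_true k255_593 g168 g169 hb
  rcases Nat.lt_or_ge f 595 with g170 | g170
  · exact chB_true k255_594 g169 g170 hb
  rcases Nat.lt_or_ge f 596 with g171 | g171
  · exact chB_true k255_595 g170 g171 hb
  rcases Nat.lt_or_ge f 597 with g172 | g172
  · exact chB_true k255_596 g171 g172 hb
  rcases Nat.lt_or_ge f 598 with g173 | g173
  · exact chB_true k255_597 g172 g173 hb
  rcases Nat.lt_or_ge f 599 with g174 | g174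
  · exact chB_true k255_598 g173 g174 hb
  rcases Nat.lt_or_ge f 600 with g175 | g175
  · exact chB_true k255_599 g174 g175 hb
  rcases Nat.lt_or_ge f 601 with g176 | g176
  · exact chB_true k255_600 g175 g176 hb
  rcases Nat.lt_or_ge f 602 with g177 | g177
  · exact chB_true k255_601 g176 g177 hb
  rcases Nat.lt_or_ge f 603 with g178 | g178
  · exact chB_true k255_602 g177 g178 hb
  rcases Nat.lt_or_ge f 605 with g179 | g179
  · exact chB_true k255_603 g178 g179 hb
  rcases Nat.lt_or_ge f 607 with g180 | g180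
  · exact chB_true k255_605 g179 g180 hb
  rcases Nat.lt_or_ge f 625 with g181 | g181
  · exact chB_true k255_607 g180 g181 hb
  rcases Nat.lt_or_ge f 626 with g182 | g182
  · exact chB_true k255_625 g181 g182 hb
  rcases Nat.lt_or_ge f 628 with g183 | g183
  · exact chB_true k255_626 g182 g183 hb
  rcases Nat.lt_or_ge f 629 with g184 | g184
  · exact chB_true k255_628 g183 g184 hb
  rcases Nat.lt_or_ge f 630 with g185 | g185
  · exact chB_true k255_629 g184 g185 hb
  rcases Nat.lt_or_ge f 633 with g186 | g186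
  · exact chB_true k255_630 g185 g186 hb
  rcases Nat.lt_or_ge f 637 with g187 | g187
  · exact chB_true k255_633 g186 g187 hb
  rcases Nat.lt_or_ge f 657 with g188 | g188
  · exact chB_true k255_637 g187 g188 hb
  rcases Nat.lt_or_ge f 658 with g189 | g189
  · exact chB_true k255_657 g188 g189 hb
  rcases Nat.lt_or_ge f 659 with g190 | g190
  · exact chB_true k255_658 g189 g190 hb
  rcases Nat.lt_or_ge f 660 with g191 | g191
  · exact chB_true k255_659 g190 g191 hb
  rcases Nat.lt_or_ge f 661 with g192 | g192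
  · exact chB_true k255_660 g191 g192 hb
  rcases Nat.lt_or_ge f 662 with g193 | g193
  · exact chB_true k255_661 g192 g193 hb
  rcases Nat.lt_or_ge f 663 with g194 | g194
  · exact chB_true k255_662 g193 g194 hb
  rcases Nat.lt_or_ge f 665 with g195 | g195
  · exact chB_true k255_663 g194 g195 hb
  rcases Nat.lt_or_ge f 666 with g196 | g196
  · exact chB_true k255_665 g195 g196 hb
  rcases Nat.lt_or_ge f 667 with g197 | g197
  · exact chB_true k255_666 g196 g197 hb
  rcases Nat.lt_or_ge f 669 with g198 | g198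
  · exact chB_true k255_667 g197 g198 hb
  rcases Nat.lt_or_ge f 671 with g199 | g199
  · exact chB_true k255_669 g198 g199 hb
  rcases Nat.lt_or_ge f 673 with g200 | g200
  · exact chB_true k255_671 g199 g200 hb
  rcases Nat.lt_or_ge f 674 with g201 | g201
  · exact chB_true k255_673 g200 g201 hb
  rcases Nat.lt_or_ge f 676 with g202 | g202
  · exact chB_true k255_674 g201 g202 hb
  rcases Nat.lt_or_ge f 677 with g203 | g203
  · exact chB_true k255_676 g202 g203 hb
  rcases Nat.lt_or_ge f 678 with g204 | g204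
  · exact chB_true k255_677 g203 g204 hb
  rcases Nat.lt_or_ge f 680 with g205 | g205
  · exact chB_true k255_678 g204 g205 hb
  rcases Nat.lt_or_ge f 681 with g206 | g206
  · exact chB_true k255_680 g205 g206 hb
  rcases Nat.lt_or_ge f 682 with g207 | g207
  · exact chB_true k255_681 g206 g207 hb
  rcases Nat.lt_or_ge f 683 with g208 | g208
  · exact chB_true k255_682 g207 g208 hb
  rcases Nat.lt_or_ge f 684 with g209 | g209
  · exact chB_true k255_683 g208 g209 hb
  rcases Nat.lt_or_ge f 685 with g210 | g210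
  · exact chB_true k255_684 g209 g210 hb
  rcases Nat.lt_or_ge f 686 with g211 | g211
  · exact chB_true k255_685 g210 g211 hb
  rcases Nat.lt_or_ge f 687 with g212 | g212
  · exact chB_true k255_686 g211 g212 hb
  rcases Nat.lt_or_ge f 689 with g213 | g213
  · exact chB_true k255_687 g212 g213 hb
  rcases Nat.lt_or_ge f 690 with g214 | g214
  · exact chB_true k255_689 g213 g214 hb
  rcases Nat.lt_or_ge f 691 with g215 | g215
  · exact chB_true k255_690 g214 g215 hb
  rcases Nat.lt_or_ge f 692 with g216 | g216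
  · exact chB_true k255_691 g215 g216 hb
  rcases Nat.lt_or_ge f 693 with g217 | g217
  · exact chB_true k255_692 g216 g217 hb
  rcases Nat.lt_or_ge f 697 with g218 | g218
  · exact chB_true k255_693 g217 g218 hb
  rcases Nat.lt_or_ge f 729 with g219 | g219
  · exact chB_true k255_697 g218 g219 hb
  rcases Nat.lt_or_ge f 731 with g220 | g220
  · exact chB_true k255_729 g219 g220 hb
  rcases Nat.lt_or_ge f 733 with g221 | g221
  · exact chB_true k255_731 g220 g221 hb
  rcases Nat.lt_or_ge f 735 with g222 | g222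
  · exact chB_true k255_733 g221 g222 hb
  rcases Nat.lt_or_ge f 745 with g223 | g223
  · exact chB_true k255_735 g222 g223 hb
  rcases Nat.lt_or_ge f 746 with g224 | g224
  · exact chB_true k255_745 g223 g224 hb
  rcases Nat.lt_or_ge f 748 with g225 | g225
  · exact chB_true k255_746 g224 g225 hb
  rcases Nat.lt_or_ge f 749 with g226 | g226
  · exact chB_true k255_748 g225 g226 hb
  rcases Nat.lt_or_ge f 750 with g227 | g227
  · exact chB_true k255_749 g226 g227 hb
  rcases Nat.lt_or_ge f 753 with g228 | g228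
  · exact chB_true k255_750 g227 g228 hb
  rcases Nat.lt_or_ge f 754 with g229 | g229
  · exact chB_true k255_753 g228 g229 hb
  rcases Nat.lt_or_ge f 755 with g230 | g230
  · exact chB_true k255_754 g229 g230 hb
  rcases Nat.lt_or_ge f 756 with g231 | g231
  · exact chB_true k255_755 g230 g231 hb
  rcases Nat.lt_or_ge f 757 with g232 | g232
  · exact chB_true k255_756 g231 g232 hb
  rcases Nat.lt_or_ge f 759 with g233 | g233
  · exact chB_true k255_757 g232 g233 hb
  rcases Nat.lt_or_ge f 761 with g234 | g234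
  · exact chB_true k255_759 g233 g234 hb
  rcases Nat.lt_or_ge f 765 with g235 | g235
  · exact chB_true k255_761 g234 g235 hb
  rcases Nat.lt_or_ge f 945 with g236 | g236
  · exact chB_true k255_765 g235 g236 hb
  rcases Nat.lt_or_ge f 946 with g237 | g237
  · exact chB_true k255_945 g236 g237 hb
  rcases Nat.lt_or_ge f 948 with g238 | g238
  · exact chB_true k255_946 g237 g238 hb
  rcases Nat.lt_or_ge f 949 with g239 | g239
  · exact chB_true k255_948 g238 g239 hb
  rcases Nat.lt_or_ge f 953 with g240 | g240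
  · exact chB_true k255_949 g239 g240 hb
  rcases Nat.lt_or_ge f 1017 with g241 | g241
  · exact chB_true k255_953 g240 g241 hb
  exact chB_true k255_1017 g241 hf hb

theorem ka495 {f : ℕ} (hf : f < 1024) (hb : Nat.beq (Nat.mod (Nat.shiftRight rq495 f) 2) 1 = true) : chm 495 f = true := by
  rcases Nat.lt_or_ge f 1 with g1 | g1
  · exact chB_true k495_0 (Nat.zero_le _) g1 hb
  rcases Nat.lt_or_ge f 2 with g2 | g2
  · exact chB_true k495_1 g1 g2 hb
  rcases Nat.lt_or_ge f 3 with g3 | g3
  · exact chB_true k495_2 g2 g3 hb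
  rcases Nat.lt_or_ge f 4 with g4 | g4
  · exact chB_true k495_3 g3 g4 hb
  rcases Nat.lt_or_ge f 7 with g5 | g5
  · exact chB_true k495_4 g4 g5 hb
  rcases Nat.lt_or_ge f 8 with g6 | g6
  · exact chB_true k495_7 g5 g6 hb
  rcases Nat.lt_or_ge f 12 with g7 | g7
  · exact chB_true k495_8 g6 g7 hb
  rcases Nat.lt_or_ge f 13 with g8 | g8
  · exact chB_true k495_12 g7 g8 hb
  rcases Nat.lt_or_ge f 14 with g9 | g9
  · exact chB_true k495_13 g8 g9 hb
  rcases Nat.lt_or_ge f 15 with g10 | g10
  · exact chB_true k495_14 g9 g10 hb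
  rcases Nat.lt_or_ge f 31 with g11 | g11
  · exact chB_true k495_15 g10 g11 hb
  rcases Nat.lt_or_ge f 34 with g12 | g12
  · exact chB_true k495_31 g11 g12 hb
  rcases Nat.lt_or_ge f 36 with g13 | g13
  · exact chB_true k495_34 g12 g13 hb
  rcases Nat.lt_or_ge f 46 with g14 | g14
  · exact chB_true k495_36 g13 g14 hb
  rcases Nat.lt_or_ge f 65 with g15 | g15
  · exact chB_true k495_46 g14 g15 hb
  rcases Nat.lt_or_ge f 66 with g16 | g16
  · exact chB_true k495_65 g15 g16 hb
  rcases Nat.lt_or_ge f 67 with g17 | g17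
  · exact chB_true k495_66 g16 g17 hb
  rcases Nat.lt_or_ge f 68 with g18 | g18
  · exact chB_true k495_67 g17 g18 hb
  rcases Nat.lt_or_ge f 69 with g19 | g19
  · exact chB_true k495_68 g18 g19 hb
  rcases Nat.lt_or_ge f 70 with g20 | g20
  · exact chB_true k495_69 g19 g20 hb
  rcases Nat.lt_or_ge f 71 with g21 | g21
  · exact chB_true k495_70 g20 g21 hb
  rcases Nat.lt_or_ge f 72 with g22 | g22
  · exact chB_true k495_71 g21 g22 hb
  rcases Nat.lt_or_ge f 75 with g23 | g23
  · exact chB_true k495_72 g22 g23 hb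
  rcases Nat.lt_or_ge f 76 with g24 | g24
  · exact chB_true k495_75 g23 g24 hb
  rcases Nat.lt_or_ge f 77 with g25 | g25
  · exact chB_true k495_76 g24 g25 hb
  rcases Nat.lt_or_ge f 78 with g26 | g26
  · exact chB_true k495_77 g25 g26 hb
  rcases Nat.lt_or_ge f 79 with g27 | g27
  · exact chB_true k495_78 g26 g27 hb
  rcases Nat.lt_or_ge f 85 with g28 | g28
  · exact chB_true k495_79 g27 g28 hb
  rcases Nat.lt_or_ge f 86 with g29 | g29
  · exact chB_true k495_85 g28 g29 hb
  rcases Nat.lt_or_ge f 87 with g30 | g30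
  · exact chB_true k495_86 g29 g30 hb
  rcases Nat.lt_or_ge f 95 with g31 | g31
  · exact chB_true k495_87 g30 g31 hb
  rcases Nat.lt_or_ge f 97 with g32 | g32
  · exact chB_true k495_95 g31 g32 hb
  rcases Nat.lt_or_ge f 98 with g33 | g33
  · exact chB_true k495_97 g32 g33 hb
  rcases Nat.lt_or_ge f 99 with g34 | g34
  · exact chB_true k495_98 g33 g34 hb
  rcases Nat.lt_or_ge f 100 with g35 | g35
  · exact chB_true k495_99 g34 g35 hb
  rcases Nat.lt_or_ge f 101 with g36 | g36
  · exact chB_true k495_100 g35 g36 hb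
  rcases Nat.lt_or_ge f 102 with g37 | g37
  · exact chB_true k495_101 g36 g37 hb
  rcases Nat.lt_or_ge f 103 with g38 | g38
  · exact chB_true k495_102 g37 g38 hb
  rcases Nat.lt_or_ge f 107 with g39 | g39
  · exact chB_true k495_103 g38 g39 hb
  rcases Nat.lt_or_ge f 109 with g40 | g40
  · exact chB_true k495_107 g39 g40 hb
  rcases Nat.lt_or_ge f 110 with g41 | g41
  · exact chB_true k495_109 g40 g41 hb
  rcases Nat.lt_or_ge f 117 with g42 | g42
  · exact chB_true k495_110 g41 g42 hb
  rcases Nat.lt_or_ge f 193 with g43 | g43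
  · exact chB_true k495_117 g42 g43 hb
  rcases Nat.lt_or_ge f 194 with g44 | g44
  · exact chB_true k495_193 g43 g44 hb
  rcases Nat.lt_or_ge f 195 with g45 | g45
  · exact chB_true k495_194 g44 g45 hb
  rcases Nat.lt_or_ge f 196 with g46 | g46
  · exact chB_true k495_195 g45 g46 hb
  rcases Nat.lt_or_ge f 199 with g47 | g47
  · exact chB_true k495_196 g46 g47 hb
  rcases Nat.lt_or_ge f 200 with g48 | g48
  · exact chB_true k495_199 g47 g48 hb
  rcases Nat.lt_or_ge f 203 with g49 | g49
  · exact chB_true k495_200 g48 g49 hb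
  rcases Nat.lt_or_ge f 204 with g50 | g50
  · exact chB_true k495_203 g49 g50 hb
  rcases Nat.lt_or_ge f 205 with g51 | g51
  · exact chB_true k495_204 g50 g51 hb
  rcases Nat.lt_or_ge f 206 with g52 | g52
  · exact chB_true k495_205 g51 g52 hb
  rcases Nat.lt_or_ge f 207 with g53 | g53
  · exact chB_true k495_206 g52 g53 hb
  rcases Nat.lt_or_ge f 223 with g54 | g54
  · exact chB_true k495_207 g53 g54 hb
  rcases Nat.lt_or_ge f 225 with g55 | g55
  · exact chB_true k495_223 g54 g55 hb
  rcases Nat.lt_or_ge f 226 with g56 | g56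
  · exact chB_true k495_225 g55 g56 hb
  rcases Nat.lt_or_ge f 227 with g57 | g57
  · exact chB_true k495_226 g56 g57 hb
  rcases Nat.lt_or_ge f 228 with g58 | g58
  · exact chB_true k495_227 g57 g58 hb
  rcases Nat.lt_or_ge f 231 with g59 | g59
  · exact chB_true k495_228 g58 g59 hb
  rcases Nat.lt_or_ge f 235 with g60 | g60
  · exact chB_true k495_231 g59 g60 hb
  rcases Nat.lt_or_ge f 237 with g61 | g61
  · exact chB_true k495_235 g60 g61 hb
  rcases Nat.lt_or_ge f 238 with g62 | g62
  · exact chB_true k495_237 g61 g62 hb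
  rcases Nat.lt_or_ge f 321 with g63 | g63
  · exact chB_true k495_238 g62 g63 hb
  rcases Nat.lt_or_ge f 322 with g64 | g64
  · exact chB_true k495_321 g63 g64 hb
  rcases Nat.lt_or_ge f 323 with g65 | g65
  · exact chB_true k495_322 g64 g65 hb
  rcases Nat.lt_or_ge f 324 with g66 | g66
  · exact chB_true k495_323 g65 g66 hb
  rcases Nat.lt_or_ge f 325 with g67 | g67
  · exact chB_true k495_324 g66 g67 hb
  rcases Nat.lt_or_ge f 326 with g68 | g68
  · exact chB_true k495_325 g67 g68 hb
  rcases Nat.lt_or_ge f 327 with g69 | g69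
  · exact chB_true k495_326 g68 g69 hb
  rcases Nat.lt_or_ge f 330 with g70 | g70
  · exact chB_true k495_327 g69 g70 hb
  rcases Nat.lt_or_ge f 332 with g71 | g71
  · exact chB_true k495_330 g70 g71 hb
  rcases Nat.lt_or_ge f 333 with g72 | g72
  · exact chB_true k495_332 g71 g72 hb
  rcases Nat.lt_or_ge f 334 with g73 | g73
  · exact chB_true k495_333 g72 g73 hb
  rcases Nat.lt_or_ge f 335 with g74 | g74
  · exact chB_true k495_334 g73 g74 hb
  rcases Nat.lt_or_ge f 337 with g75 | g75
  · exact chB_true k495_335 g74 g75 hb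
  rcases Nat.lt_or_ge f 338 with g76 | g76
  · exact chB_true k495_337 g75 g76 hb
  rcases Nat.lt_or_ge f 339 with g77 | g77
  · exact chB_true k495_338 g76 g77 hb
  rcases Nat.lt_or_ge f 340 with g78 | g78
  · exact chB_true k495_339 g77 g78 hb
  rcases Nat.lt_or_ge f 341 with g79 | g79
  · exact chB_true k495_340 g78 g79 hb
  rcases Nat.lt_or_ge f 342 with g80 | g80
  · exact chB_true k495_341 g79 g80 hb
  rcases Nat.lt_or_ge f 343 with g81 | g81
  · exact chB_true k495_342 g80 g81 hb
  rcases Nat.lt_or_ge f 346 with g82 | g82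
  · exact chB_true k495_343 g81 g82 hb
  rcases Nat.lt_or_ge f 349 with g83 | g83
  · exact chB_true k495_346 g82 g83 hb
  rcases Nat.lt_or_ge f 351 with g84 | g84
  · exact chB_true k495_349 g83 g84 hb
  rcases Nat.lt_or_ge f 354 with g85 | g85
  · exact chB_true k495_351 g84 g85 hb
  rcases Nat.lt_or_ge f 356 with g86 | g86
  · exact chB_true k495_354 g85 g86 hb
  rcases Nat.lt_or_ge f 358 with g87 | g87
  · exact chB_true k495_356 g86 g87 hb
  rcases Nat.lt_or_ge f 370 with g88 | g88
  · exact chB_true k495_358 g87 g88 hb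
  rcases Nat.lt_or_ge f 372 with g89 | g89
  · exact chB_true k495_370 g88 g89 hb
  rcases Nat.lt_or_ge f 449 with g90 | g90
  · exact chB_true k495_372 g89 g90 hb
  rcases Nat.lt_or_ge f 450 with g91 | g91
  · exact chB_true k495_449 g90 g91 hb
  rcases Nat.lt_or_ge f 451 with g92 | g92
  · exact chB_true k495_450 g91 g92 hb
  rcases Nat.lt_or_ge f 452 with g93 | g93
  · exact chB_true k495_451 g92 g93 hb
  rcases Nat.lt_or_ge f 457 with g94 | g94
  · exact chB_true k495_452 g93 g94 hb
  rcases Nat.lt_or_ge f 458 with g95 | g95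
  · exact chB_true k495_457 g94 g95 hb
  rcases Nat.lt_or_ge f 459 with g96 | g96
  · exact chB_true k495_458 g95 g96 hb
  rcases Nat.lt_or_ge f 460 with g97 | g97
  · exact chB_true k495_459 g96 g97 hb
  rcases Nat.lt_or_ge f 461 with g98 | g98
  · exact chB_true k495_460 g97 g98 hb
  rcases Nat.lt_or_ge f 462 with g99 | g99
  · exact chB_true k495_461 g98 g99 hb
  rcases Nat.lt_or_ge f 473 with g100 | g100
  · exact chB_true k495_462 g99 g100 hb
  rcases Nat.lt_or_ge f 474 with g101 | g101
  · exact chB_true k495_473 g100 g101 hb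
  rcases Nat.lt_or_ge f 475 with g102 | g102
  · exact chB_true k495_474 g101 g102 hb
  rcases Nat.lt_or_ge f 481 with g103 | g103
  · exact chB_true k495_475 g102 g103 hb
  rcases Nat.lt_or_ge f 482 with g104 | g104
  · exact chB_true k495_481 g103 g104 hb
  rcases Nat.lt_or_ge f 483 with g105 | g105
  · exact chB_true k495_482 g104 g105 hb
  rcases Nat.lt_or_ge f 484 with g106 | g106
  · exact chB_true k495_483 g105 g106 hb
  rcases Nat.lt_or_ge f 489 with g107 | g107
  · exact chB_true k495_484 g106 g107 hb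
  rcases Nat.lt_or_ge f 490 with g108 | g108
  · exact chB_true k495_489 g107 g108 hb
  rcases Nat.lt_or_ge f 493 with g109 | g109
  · exact chB_true k495_490 g108 g109 hb
  rcases Nat.lt_or_ge f 494 with g110 | g110
  · exact chB_true k495_493 g109 g110 hb
  rcases Nat.lt_or_ge f 505 with g111 | g111
  · exact chB_true k495_494 g110 g111 hb
  rcases Nat.lt_or_ge f 961 with g112 | g112
  · exact chB_true k495_505 g111 g112 hb
  rcases Nat.lt_or_ge f 962 with g113 | g113
  · exact chB_true k495_961 g112 g113 hb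
  rcases Nat.lt_or_ge f 963 with g114 | g114
  · exact chB_true k495_962 g113 g114 hb
  rcases Nat.lt_or_ge f 973 with g115 | g115
  · exact chB_true k495_963 g114 g115 hb
  rcases Nat.lt_or_ge f 974 with g116 | g116
  · exact chB_true k495_973 g115 g116 hb
  rcases Nat.lt_or_ge f 994 with g117 | g117
  · exact chB_true k495_974 g116 g117 hb
  exact chB_true k495_994 g117 hf hb

theorem ka511 {f : ℕ} (hf : f < 1024) (hb : Nat.beq (Nat.mod (Nat.shiftRight rq511 f) 2) 1 = true) : chm 511 f = true := by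
  rcases Nat.lt_or_ge f 1 with g1 | g1
  · exact chB_true k511_0 (Nat.zero_le _) g1 hb
  rcases Nat.lt_or_ge f 2 with g2 | g2
  · exact chB_true k511_1 g1 g2 hb
  rcases Nat.lt_or_ge f 3 with g3 | g3
  · exact chB_true k511_2 g2 g3 hb
  rcases Nat.lt_or_ge f 4 with g4 | g4
  · exact chB_true k511_3 g3 g4 hb
  rcases Nat.lt_or_ge f 7 with g5 | g5
  · exact chB_true k511_4 g4 g5 hb
  rcases Nat.lt_or_ge f 8 with g6 | g6
  · exact chB_true k511_7 g5 g6 hb
  rcases Nat.lt_or_ge f 11 with g7 | g7
  · exact chB_true k511_8 g6 g7 hb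
  rcases Nat.lt_or_ge f 12 with g8 | g8
  · exact chB_true k511_11 g7 g8 hb
  rcases Nat.lt_or_ge f 13 with g9 | g9
  · exact chB_true k511_12 g8 g9 hb
  rcases Nat.lt_or_ge f 14 with g10 | g10
  · exact chB_true k511_13 g9 g10 hb
  rcases Nat.lt_or_ge f 15 with g11 | g11
  · exact chB_true k511_14 g10 g11 hb
  rcases Nat.lt_or_ge f 16 with g12 | g12
  · exact chB_true k511_15 g11 g12 hb
  rcases Nat.lt_or_ge f 31 with g13 | g13
  · exact chB_true k511_16 g12 g13 hb
  rcases Nat.lt_or_ge f 32 with g14 | g14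
  · exact chB_true k511_31 g13 g14 hb
  rcases Nat.lt_or_ge f 33 with g15 | g15
  · exact chB_true k511_32 g14 g15 hb
  rcases Nat.lt_or_ge f 34 with g16 | g16
  · exact chB_true k511_33 g15 g16 hb
  rcases Nat.lt_or_ge f 35 with g17 | g17
  · exact chB_true k511_34 g16 g17 hb
  rcases Nat.lt_or_ge f 36 with g18 | g18
  · exact chB_true k511_35 g17 g18 hb
  rcases Nat.lt_or_ge f 39 with g19 | g19
  · exact chB_true k511_36 g18 g19 hb
  rcases Nat.lt_or_ge f 40 with g20 | g20
  · exact chB_true k511_39 g19 g20 hb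
  rcases Nat.lt_or_ge f 43 with g21 | g21
  · exact chB_true k511_40 g20 g21 hb
  rcases Nat.lt_or_ge f 44 with g22 | g22
  · exact chB_true k511_43 g21 g22 hb
  rcases Nat.lt_or_ge f 45 with g23 | g23
  · exact chB_true k511_44 g22 g23 hb
  rcases Nat.lt_or_ge f 46 with g24 | g24
  · exact chB_true k511_45 g23 g24 hb
  rcases Nat.lt_or_ge f 47 with g25 | g25
  · exact chB_true k511_46 g24 g25 hb
  rcases Nat.lt_or_ge f 48 with g26 | g26
  · exact chB_true k511_47 g25 g26 hb
  rcases Nat.lt_or_ge f 63 with g27 | g27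
  · exact chB_true k511_48 g26 g27 hb
  rcases Nat.lt_or_ge f 75 with g28 | g28
  · exact chB_true k511_63 g27 g28 hb
  rcases Nat.lt_or_ge f 76 with g29 | g29
  · exact chB_true k511_75 g28 g29 hb
  rcases Nat.lt_or_ge f 77 with g30 | g30
  · exact chB_true k511_76 g29 g30 hb
  rcases Nat.lt_or_ge f 78 with g31 | g31
  · exact chB_true k511_77 g30 g31 hb
  rcases Nat.lt_or_ge f 79 with g32 | g32
  · exact chB_true k511_78 g31 g32 hb
  rcases Nat.lt_or_ge f 80 with g33 | g33
  · exact chB_true k511_79 g32 g33 hb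
  rcases Nat.lt_or_ge f 87 with g34 | g34
  · exact chB_true k511_80 g33 g34 hb
  rcases Nat.lt_or_ge f 88 with g35 | g35
  · exact chB_true k511_87 g34 g35 hb
  rcases Nat.lt_or_ge f 95 with g36 | g36
  · exact chB_true k511_88 g35 g36 hb
  rcases Nat.lt_or_ge f 96 with g37 | g37
  · exact chB_true k511_95 g36 g37 hb
  rcases Nat.lt_or_ge f 97 with g38 | g38
  · exact chB_true k511_96 g37 g38 hb
  rcases Nat.lt_or_ge f 98 with g39 | g39
  · exact chB_true k511_97 g38 g39 hb
  rcases Nat.lt_or_ge f 99 with g40 | g40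
  · exact chB_true k511_98 g39 g40 hb
  rcases Nat.lt_or_ge f 100 with g41 | g41
  · exact chB_true k511_99 g40 g41 hb
  rcases Nat.lt_or_ge f 101 with g42 | g42
  · exact chB_true k511_100 g41 g42 hb
  rcases Nat.lt_or_ge f 102 with g43 | g43
  · exact chB_true k511_101 g42 g43 hb
  rcases Nat.lt_or_ge f 103 with g44 | g44
  · exact chB_true k511_102 g43 g44 hb
  rcases Nat.lt_or_ge f 104 with g45 | g45
  · exact chB_true k511_103 g44 g45 hb
  rcases Nat.lt_or_ge f 107 with g46 | g46
  · exact chB_true k511_104 g45 g46 hb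
  rcases Nat.lt_or_ge f 108 with g47 | g47
  · exact chB_true k511_107 g46 g47 hb
  rcases Nat.lt_or_ge f 109 with g48 | g48
  · exact chB_true k511_108 g47 g48 hb
  rcases Nat.lt_or_ge f 110 with g49 | g49
  · exact chB_true k511_109 g48 g49 hb
  rcases Nat.lt_or_ge f 111 with g50 | g50
  · exact chB_true k511_110 g49 g50 hb
  rcases Nat.lt_or_ge f 112 with g51 | g51
  · exact chB_true k511_111 g50 g51 hb
  rcases Nat.lt_or_ge f 117 with g52 | g52
  · exact chB_true k511_112 g51 g52 hb
  rcases Nat.lt_or_ge f 118 with g53 | g53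
  · exact chB_true k511_117 g52 g53 hb
  rcases Nat.lt_or_ge f 119 with g54 | g54
  · exact chB_true k511_118 g53 g54 hb
  rcases Nat.lt_or_ge f 120 with g55 | g55
  · exact chB_true k511_119 g54 g55 hb
  rcases Nat.lt_or_ge f 127 with g56 | g56
  · exact chB_true k511_120 g55 g56 hb
  rcases Nat.lt_or_ge f 223 with g57 | g57
  · exact chB_true k511_127 g56 g57 hb
  rcases Nat.lt_or_ge f 224 with g58 | g58
  · exact chB_true k511_223 g57 g58 hb
  rcases Nat.lt_or_ge f 225 with g59 | g59
  · exact chB_true k511_224 g58 g59 hb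
  rcases Nat.lt_or_ge f 226 with g60 | g60
  · exact chB_true k511_225 g59 g60 hb
  rcases Nat.lt_or_ge f 227 with g61 | g61
  · exact chB_true k511_226 g60 g61 hb
  rcases Nat.lt_or_ge f 228 with g62 | g62
  · exact chB_true k511_227 g61 g62 hb
  rcases Nat.lt_or_ge f 231 with g63 | g63
  · exact chB_true k511_228 g62 g63 hb
  rcases Nat.lt_or_ge f 232 with g64 | g64
  · exact chB_true k511_231 g63 g64 hb
  rcases Nat.lt_or_ge f 235 with g65 | g65
  · exact chB_true k511_232 g64 g65 hb
  rcases Nat.lt_or_ge f 236 with g66 | g66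
  · exact chB_true k511_235 g65 g66 hb
  rcases Nat.lt_or_ge f 237 with g67 | g67
  · exact chB_true k511_236 g66 g67 hb
  rcases Nat.lt_or_ge f 238 with g68 | g68
  · exact chB_true k511_237 g67 g68 hb
  rcases Nat.lt_or_ge f 239 with g69 | g69
  · exact chB_true k511_238 g68 g69 hb
  rcases Nat.lt_or_ge f 240 with g70 | g70
  · exact chB_true k511_239 g69 g70 hb
  rcases Nat.lt_or_ge f 255 with g71 | g71
  · exact chB_true k511_240 g70 g71 hb
  rcases Nat.lt_or_ge f 289 with g72 | g72
  · exact chB_true k511_255 g71 g72 hb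
  rcases Nat.lt_or_ge f 290 with g73 | g73
  · exact chB_true k511_289 g72 g73 hb
  rcases Nat.lt_or_ge f 291 with g74 | g74
  · exact chB_true k511_290 g73 g74 hb
  rcases Nat.lt_or_ge f 292 with g75 | g75
  · exact chB_true k511_291 g74 g75 hb
  rcases Nat.lt_or_ge f 295 with g76 | g76
  · exact chB_true k511_292 g75 g76 hb
  rcases Nat.lt_or_ge f 296 with g77 | g77
  · exact chB_true k511_295 g76 g77 hb
  rcases Nat.lt_or_ge f 297 with g78 | g78
  · exact chB_true k511_296 g77 g78 hb
  rcases Nat.lt_or_ge f 298 with g79 | g79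
  · exact chB_true k511_297 g78 g79 hb
  rcases Nat.lt_or_ge f 299 with g80 | g80
  · exact chB_true k511_298 g79 g80 hb
  rcases Nat.lt_or_ge f 300 with g81 | g81
  · exact chB_true k511_299 g80 g81 hb
  rcases Nat.lt_or_ge f 301 with g82 | g82
  · exact chB_true k511_300 g81 g82 hb
  rcases Nat.lt_or_ge f 302 with g83 | g83
  · exact chB_true k511_301 g82 g83 hb
  rcases Nat.lt_or_ge f 303 with g84 | g84
  · exact chB_true k511_302 g83 g84 hb
  rcases Nat.lt_or_ge f 313 with g85 | g85
  · exact chB_true k511_303 g84 g85 hb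
  rcases Nat.lt_or_ge f 314 with g86 | g86
  · exact chB_true k511_313 g85 g86 hb
  rcases Nat.lt_or_ge f 315 with g87 | g87
  · exact chB_true k511_314 g86 g87 hb
  rcases Nat.lt_or_ge f 316 with g88 | g88
  · exact chB_true k511_315 g87 g88 hb
  rcases Nat.lt_or_ge f 361 with g89 | g89
  · exact chB_true k511_316 g88 g89 hb
  rcases Nat.lt_or_ge f 362 with g90 | g90
  · exact chB_true k511_361 g89 g90 hb
  rcases Nat.lt_or_ge f 363 with g91 | g91
  · exact chB_true k511_362 g90 g91 hb
  rcases Nat.lt_or_ge f 364 with g92 | g92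
  · exact chB_true k511_363 g91 g92 hb
  rcases Nat.lt_or_ge f 365 with g93 | g93
  · exact chB_true k511_364 g92 g93 hb
  rcases Nat.lt_or_ge f 366 with g94 | g94
  · exact chB_true k511_365 g93 g94 hb
  rcases Nat.lt_or_ge f 367 with g95 | g95
  · exact chB_true k511_366 g94 g95 hb
  rcases Nat.lt_or_ge f 369 with g96 | g96
  · exact chB_true k511_367 g95 g96 hb
  rcases Nat.lt_or_ge f 370 with g97 | g97
  · exact chB_true k511_369 g96 g97 hb
  rcases Nat.lt_or_ge f 371 with g98 | g98
  · exact chB_true k511_370 g97 g98 hb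
  rcases Nat.lt_or_ge f 372 with g99 | g99
  · exact chB_true k511_371 g98 g99 hb
  rcases Nat.lt_or_ge f 375 with g100 | g100
  · exact chB_true k511_372 g99 g100 hb
  rcases Nat.lt_or_ge f 376 with g101 | g101
  · exact chB_true k511_375 g100 g101 hb
  rcases Nat.lt_or_ge f 377 with g102 | g102
  · exact chB_true k511_376 g101 g102 hb
  rcases Nat.lt_or_ge f 378 with g103 | g103
  · exact chB_true k511_377 g102 g103 hb
  rcases Nat.lt_or_ge f 379 with g104 | g104
  · exact chB_true k511_378 g103 g104 hb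
  rcases Nat.lt_or_ge f 380 with g105 | g105
  · exact chB_true k511_379 g104 g105 hb
  rcases Nat.lt_or_ge f 381 with g106 | g106
  · exact chB_true k511_380 g105 g106 hb
  rcases Nat.lt_or_ge f 382 with g107 | g107
  · exact chB_true k511_381 g106 g107 hb
  rcases Nat.lt_or_ge f 383 with g108 | g108
  · exact chB_true k511_382 g107 g108 hb
  rcases Nat.lt_or_ge f 505 with g109 | g109
  · exact chB_true k511_383 g108 g109 hb
  rcases Nat.lt_or_ge f 506 with g110 | g110
  · exact chB_true k511_505 g109 g110 hb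
  rcases Nat.lt_or_ge f 507 with g111 | g111
  · exact chB_true k511_506 g110 g111 hb
  rcases Nat.lt_or_ge f 508 with g112 | g112
  · exact chB_true k511_507 g111 g112 hb
  rcases Nat.lt_or_ge f 511 with g113 | g113
  · exact chB_true k511_508 g112 g113 hb
  rcases Nat.lt_or_ge f 801 with g114 | g114
  · exact chB_true k511_511 g113 g114 hb
  rcases Nat.lt_or_ge f 802 with g115 | g115
  · exact chB_true k511_801 g114 g115 hb
  rcases Nat.lt_or_ge f 803 with g116 | g116
  · exact chB_true k511_802 g115 g116 hb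
  rcases Nat.lt_or_ge f 804 with g117 | g117
  · exact chB_true k511_803 g116 g117 hb
  rcases Nat.lt_or_ge f 807 with g118 | g118
  · exact chB_true k511_804 g117 g118 hb
  rcases Nat.lt_or_ge f 808 with g119 | g119
  · exact chB_true k511_807 g118 g119 hb
  rcases Nat.lt_or_ge f 811 with g120 | g120
  · exact chB_true k511_808 g119 g120 hb
  rcases Nat.lt_or_ge f 812 with g121 | g121
  · exact chB_true k511_811 g120 g121 hb
  rcases Nat.lt_or_ge f 813 with g122 | g122
  · exact chB_true k511_812 g121 g122 hb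
  rcases Nat.lt_or_ge f 814 with g123 | g123
  · exact chB_true k511_813 g122 g123 hb
  rcases Nat.lt_or_ge f 815 with g124 | g124
  · exact chB_true k511_814 g123 g124 hb
  rcases Nat.lt_or_ge f 875 with g125 | g125
  · exact chB_true k511_815 g124 g125 hb
  rcases Nat.lt_or_ge f 876 with g126 | g126
  · exact chB_true k511_875 g125 g126 hb
  rcases Nat.lt_or_ge f 877 with g127 | g127
  · exact chB_true k511_876 g126 g127 hb
  rcases Nat.lt_or_ge f 878 with g128 | g128
  · exact chB_true k511_877 g127 g128 hb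
  rcases Nat.lt_or_ge f 879 with g129 | g129
  · exact chB_true k511_878 g128 g129 hb
  rcases Nat.lt_or_ge f 887 with g130 | g130
  · exact chB_true k511_879 g129 g130 hb
  rcases Nat.lt_or_ge f 888 with g131 | g131
  · exact chB_true k511_887 g130 g131 hb
  exact chB_true k511_888 g131 hf hb

theorem ka1023 {f : ℕ} (hf : f < 1023) (hb : Nat.beq (Nat.mod (Nat.shiftRight rq1023 f) 2) 1 = true) : chm 1023 f = true := by
  rcases Nat.lt_or_ge f 1 with g1 | g1
  · exact chB_true k1023_0 (Nat.zero_le _) g1 hb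
  rcases Nat.lt_or_ge f 2 with g2 | g2
  · exact chB_true k1023_1 g1 g2 hb
  rcases Nat.lt_or_ge f 4 with g3 | g3
  · exact chB_true k1023_2 g2 g3 hb
  rcases Nat.lt_or_ge f 8 with g4 | g4
  · exact chB_true k1023_4 g3 g4 hb
  rcases Nat.lt_or_ge f 12 with g5 | g5
  · exact chB_true k1023_8 g4 g5 hb
  rcases Nat.lt_or_ge f 13 with g6 | g6
  · exact chB_true k1023_12 g5 g6 hb
  rcases Nat.lt_or_ge f 14 with g7 | g7
  · exact chB_true k1023_13 g6 g7 hb
  rcases Nat.lt_or_ge f 16 with g8 | g8
  · exact chB_true k1023_14 g7 g8 hb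
  rcases Nat.lt_or_ge f 31 with g9 | g9
  · exact chB_true k1023_16 g8 g9 hb
  rcases Nat.lt_or_ge f 32 with g10 | g10
  · exact chB_true k1023_31 g9 g10 hb
  rcases Nat.lt_or_ge f 64 with g11 | g11
  · exact chB_true k1023_32 g10 g11 hb
  rcases Nat.lt_or_ge f 76 with g12 | g12
  · exact chB_true k1023_64 g11 g12 hb
  rcases Nat.lt_or_ge f 77 with g13 | g13
  · exact chB_true k1023_76 g12 g13 hb
  rcases Nat.lt_or_ge f 78 with g14 | g14
  · exact chB_true k1023_77 g13 g14 hb
  rcases Nat.lt_or_ge f 80 with g15 | g15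
  · exact chB_true k1023_78 g14 g15 hb
  rcases Nat.lt_or_ge f 87 with g16 | g16
  · exact chB_true k1023_80 g15 g16 hb
  rcases Nat.lt_or_ge f 88 with g17 | g17
  · exact chB_true k1023_87 g16 g17 hb
  rcases Nat.lt_or_ge f 95 with g18 | g18
  · exact chB_true k1023_88 g17 g18 hb
  rcases Nat.lt_or_ge f 96 with g19 | g19
  · exact chB_true k1023_95 g18 g19 hb
  rcases Nat.lt_or_ge f 117 with g20 | g20
  · exact chB_true k1023_96 g19 g20 hb
  rcases Nat.lt_or_ge f 118 with g21 | g21
  · exact chB_true k1023_117 g20 g21 hb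
  rcases Nat.lt_or_ge f 120 with g22 | g22
  · exact chB_true k1023_118 g21 g22 hb
  rcases Nat.lt_or_ge f 128 with g23 | g23
  · exact chB_true k1023_120 g22 g23 hb
  rcases Nat.lt_or_ge f 223 with g24 | g24
  · exact chB_true k1023_128 g23 g24 hb
  rcases Nat.lt_or_ge f 224 with g25 | g25
  · exact chB_true k1023_223 g24 g25 hb
  rcases Nat.lt_or_ge f 236 with g26 | g26
  · exact chB_true k1023_224 g25 g26 hb
  rcases Nat.lt_or_ge f 237 with g27 | g27
  · exact chB_true k1023_236 g26 g27 hb
  rcases Nat.lt_or_ge f 238 with g28 | g28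
  · exact chB_true k1023_237 g27 g28 hb
  rcases Nat.lt_or_ge f 240 with g29 | g29
  · exact chB_true k1023_238 g28 g29 hb
  rcases Nat.lt_or_ge f 255 with g30 | g30
  · exact chB_true k1023_240 g29 g30 hb
  rcases Nat.lt_or_ge f 256 with g31 | g31
  · exact chB_true k1023_255 g30 g31 hb
  rcases Nat.lt_or_ge f 508 with g32 | g32
  · exact chB_true k1023_256 g31 g32 hb
  exact chB_true k1023_508 g32 hf hb

end Pool.Agent.U620.K7F
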