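import Pool.Agent.W843.K7.WalkG

/-! Reduction of a statement on six vertices to the representatives. -/

set_option autoImplicit false
set_option linter.unusedVariables false
set_option maxRecDepth 100000
set_option maxHeartbeats 4000000
open Finset
open Pool.Agent.H122R2.N6 (Sy Bt B2 B2_true or_false_left)
open Pool.Agent.W843.K7 (NoK7)
open Pool.Agent.W843.N7 (c10 bt cnd)
open Pool.Agent.W843.K7 (isB wnest walk6 wd tgk walk_gen walk6_gen walk_E walk_of_wnest wnest_rep)

namespace Pool.Agent.U620.K7F.R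

section
variable {V : Type} {E : V → V → V → ℕ}

def G6 (E : V → V → V → ℕ) (P : V → V → V → V → V → V → Prop) (b012 b013 b023 b123 b014 b024 b124 b034 b134 b234 b015 b025 b125 b035 b135 b235 b045 b145 b245 b345 : ℕ) : Prop :=
  ∀ a b c d e f : V, E a b c = b012 → E a b d = b013 → E a c d = b023 → E b c d = b123 → E a b e = b014 → E a c e = b024 → E b c e = b124 → E a d e = b034 → E b d e = b134 → E c d e = b234 → E a b f = b015 → E a c f = b025 → E b c f = b125 → E a d f = b035 → E b d f = b135 → E c d f = b235 → E a e f = b045 → E b e f = b145 → E c e f = b245 → E d e f = b345 → P a b c d e f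

def G5 (E : V → V → V → ℕ) (P : V → V → V → V → V → V → Prop) (b012 b013 b023 b123 b014 b024 b124 b034 b134 b234 : ℕ) : Prop :=
  ∀ a b c d e : V, E a b c = b012 → E a b d = b013 → E a c d = b023 → E b c d = b123 → E a b e = b014 → E a c e = b024 → E b c e = b124 → E a d e = b034 → E b d e = b134 → E c d e = b234 → ∀ f, P a b c d e f

theorem G6_sw0 (hE : Sy E) {P : V → V → V → V → V → V → Prop} (s0 : ∀ a b c d e f, P b a c d e f → P a b c d e f) (b012 b013 b023 b123 b014 b024 b124 b034 b134 b234 b015 b025 b125 b035 b135 b235 b045 b145 b245 b345 : ℕ) (h : G6 E P b012 b013 b123 b023 b014 b124 b024 b134 b034 b234 b015 b125 b025 b135 b035 b235 b145 b045 b245 b345) : G6 E P b012 b013 b023 b123 b014 b024 b124 b034 b134 b234 b015 b025 b125 b035 b135 b235 b045 b145 b245 b345 := by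
  intro a b c d e f h012 h013 h023 h123 h014 h024 h124 h034 h134 h234 h015 h025 h125 h035 h135 h235 h045 h145 h245 h345
  exact s0 a b c d e f (h b a c d e f ((hE.h213 _ _ _).trans h012) ((hE.h213 _ _ _).trans h013) h123 h023 ((hE.h213 _ _ _).trans h014) h124 h024 h134 h034 h234 ((hE.h213 _ _ _).trans h015) h125 h025 h135 h035 h235 h145 h045 h245 h345)

theorem G6_sw1 (hE : Sy E) {P : V → V → V → V → V → V → Prop} (s1 : ∀ a b c d e f, P a c b d e f → P a b c d e f) (b012 b013 b023 b123 b014 b024 b124 b034 b134 b234 b015 b025 b125 b035 b135 b235 b045 b145 b245 b345 : ℕ) (h : G6 E P b012 b023 b013 b123 b024 b014 b124 b034 b234 b134 b025 b015 b125 b035 b235 b135 b045 b245 b145 b345) : G6 E P b012 b013 b023 b123 b014 b024 b124 b034 b134 b234 b015 b025 b125 b035 b135 b235 b045 b145 b245 b345 := by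
  intro a b c d e f h012 h013 h023 h123 h014 h024 h124 h034 h134 h234 h015 h025 h125 h035 h135 h235 h045 h145 h245 h345
  exact s1 a b c d e f (h a c b d e f ((hE.h132 _ _ _).trans h012) h023 h013 ((hE.h213 _ _ _).trans h123) h024 h014 ((hE.h213 _ _ _).trans h124) h034 h234 h134 h025 h015 ((hE.h213 _ _ _).trans h125) h035 h235 h135 h045 h245 h145 h345)

theorem G6_sw2 (hE : Sy E) {P : V → V → V → V → V → V → Prop} (s2 : ∀ a b c d e f, P a b d c e f → P a b c d e f) (b012 b013 b023 b123 b014 b024 b124 b034 b134 b234 b015 b025 b125 b035 b135 b235 b045 b145 b245 b345 : ℕ) (h : G6 E P b013 b012 b023 b123 b014 b034 b134 b024 b124 b234 b015 b035 b135 b025 b125 b235 b045 b145 b345 b245) : G6 E P b012 b013 b023 b123 b014 b024 b124 b034 b134 b234 b015 b025 b125 b035 b135 b235 b045 b145 b245 b345 := by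
  intro a b c d e f h012 h013 h023 h123 h014 h024 h124 h034 h134 h234 h015 h025 h125 h035 h135 h235 h045 h145 h245 h345
  exact s2 a b c d e f (h a b d c e f h013 h012 ((hE.h132 _ _ _).trans h023) ((hE.h132 _ _ _).trans h123) h014 h034 h134 h024 h124 ((hE.h213 _ _ _).trans h234) h015 h035 h135 h025 h125 ((hE.h213 _ _ _).trans h235) h045 h145 h345 h245)

theorem G6_sw3 (hE : Sy E) {P : V → V → V → V → V → V → Prop} (s3 : ∀ a b c d e f, P a b c e d f → P a b c d e f) (b012 b013 b023 b123 b014 b024 b124 b034 b134 b234 b015 b025 b125 b035 b135 b235 b045 b145 b245 b345 : ℕ) (h : G6 E P b012 b014 b024 b124 b013 b023 b123 b034 b134 b234 b015 b025 b125 b045 b145 b245 b035 b135 b235 b345) : G6 E P b012 b013 b023 b123 b014 b024 b124 b034 b134 b234 b015 b025 b125 b035 b135 b235 b045 b145 b245 b345 := by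
  intro a b c d e f h012 h013 h023 h123 h014 h024 h124 h034 h134 h234 h015 h025 h125 h035 h135 h235 h045 h145 h245 h345
  exact s3 a b c d e f (h a b c e d f h012 h014 h024 h124 h013 h023 h123 ((hE.h132 _ _ _).trans h034) ((hE.h132 _ _ _).trans h134) ((hE.h132 _ _ _).trans h234) h015 h025 h125 h045 h145 h245 h035 h135 h235 ((hE.h213 _ _ _).trans h345))

theorem G6_sw4 (hE : Sy E) {P : V → V → V → V → V → V → Prop} (s4 : ∀ a b c d e f, P a b c d f e → P a b c d e f) (b012 b013 b023 b123 b014 b024 b124 b034 b134 b234 b015 b025 b125 b035 b135 b235 b045 b145 b245 b345 : ℕ) (h : G6 E P b012 b013 b023 b123 b015 b025 b125 b035 b135 b235 b014 b024 b124 b034 b134 b234 b045 b145 b245 b345) : G6 E P b012 b013 b023 b123 b014 b024 b124 b034 b134 b234 b015 b025 b125 b035 b135 b235 b045 b145 b245 b345 := by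
  intro a b c d e f h012 h013 h023 h123 h014 h024 h124 h034 h134 h234 h015 h025 h125 h035 h135 h235 h045 h145 h245 h345
  exact s4 a b c d e f (h a b c d f e h012 h013 h023 h123 h015 h025 h125 h035 h135 h235 h014 h024 h124 h034 h134 h234 ((hE.h132 _ _ _).trans h045) ((hE.h132 _ _ _).trans h145) ((hE.h132 _ _ _).trans h245) ((hE.h132 _ _ _).trans h345))

theorem G5_sw0 (hE : Sy E) {P : V → V → V → V → V → V → Prop} (s0 : ∀ a b c d e f, P b a c d e f → P a b c d e f) (b012 b013 b023 b123 b014 b024 b124 b034 b134 b234 : ℕ) (h : G5 E P b012 b013 b123 b023 b014 b124 b024 b134 b034 b234) : G5 E P b012 b013 b023 b123 b014 b024 b124 b034 b134 b234 := by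
  intro a b c d e h012 h013 h023 h123 h014 h024 h124 h034 h134 h234 f
  exact s0 a b c d e f (h b a c d e ((hE.h213 _ _ _).trans h012) ((hE.h213 _ _ _).trans h013) h123 h023 ((hE.h213 _ _ _).trans h014) h124 h024 h134 h034 h234 f)

theorem G5_sw1 (hE : Sy E) {P : V → V → V → V → V → V → Prop} (s1 : ∀ a b c d e f, P a c b d e f → P a b c d e f) (b012 b013 b023 b123 b014 b024 b124 b034 b134 b234 : ℕ) (h : G5 E P b012 b023 b013 b123 b024 b014 b124 b034 b234 b134) : G5 E P b012 b013 b023 b123 b014 b024 b124 b034 b134 b234 := by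
  intro a b c d e h012 h013 h023 h123 h014 h024 h124 h034 h134 h234 f
  exact s1 a b c d e f (h a c b d e ((hE.h132 _ _ _).trans h012) h023 h013 ((hE.h213 _ _ _).trans h123) h024 h014 ((hE.h213 _ _ _).trans h124) h034 h234 h134 f)

theorem G5_sw2 (hE : Sy E) {P : V → V → V → V → V → V → Prop} (s2 : ∀ a b c d e f, P a b d c e f → P a b c d e f) (b012 b013 b023 b123 b014 b024 b124 b034 b134 b234 : ℕ) (h : G5 E P b013 b012 b023 b123 b014 b034 b134 b024 b124 b234) : G5 E P b012 b013 b023 b123 b014 b024 b124 b034 b134 b234 := by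
  intro a b c d e h012 h013 h023 h123 h014 h024 h124 h034 h134 h234 f
  exact s2 a b c d e f (h a b d c e h013 h012 ((hE.h132 _ _ _).trans h023) ((hE.h132 _ _ _).trans h123) h014 h034 h134 h024 h124 ((hE.h213 _ _ _).trans h234) f)

theorem G5_sw3 (hE : Sy E) {P : V → V → V → V → V → V → Prop} (s3 : ∀ a b c d e f, P a b c e d f → P a b c d e f) (b012 b013 b023 b123 b014 b024 b124 b034 b134 b234 : ℕ) (h : G5 E P b012 b014 b024 b124 b013 b023 b123 b034 b134 b234) : G5 E P b012 b013 b023 b123 b014 b024 b124 b034 b134 b234 := by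
  intro a b c d e h012 h013 h023 h123 h014 h024 h124 h034 h134 h234 f
  exact s3 a b c d e f (h a b c e d h012 h014 h024 h124 h013 h023 h123 ((hE.h132 _ _ _).trans h034) ((hE.h132 _ _ _).trans h134) ((hE.h132 _ _ _).trans h234) f)

/-- reduction to the representatives -/
theorem red (hE : Sy E) (hK : NoK7 E) {P : V → V → V → V → V → V → Prop}
    (s0 : ∀ a b c d e f, P b a c d e f → P a b c d e f) (s1 : ∀ a b c d e f, P a c b d e f → P a b c d e f)
    (s2 : ∀ a b c d e f, P a b d c e f → P a b c d e f) (s3 : ∀ a b c d e f, P a b c e d f → P a b c d e f)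
    (s4 : ∀ a b c d e f, P a b c d f e → P a b c d e f)
    (base : ∀ a b c d e f, isB (c10 (E a b c) (E a b d) (E a c d) (E b c d) (E a b e) (E a c e) (E b c e) (E a d e) (E b d e) (E c d e)) (c10 (E a b f) (E a c f) (E b c f) (E a d f) (E b d f) (E c d f) (E a e f) (E b e f) (E c e f) (E d e f)) = true → P a b c d e f)
    (a b c d e f : V) : P a b c d e f := by
  have hb : ∀ b012 b013 b023 b123 b014 b024 b124 b034 b134 b234 b015 b025 b125 b035 b135 b235 b045 b145 b245 b345 : ℕ, isB (c10 b012 b013 b023 b123 b014 b024 b124 b034 b134 b234) (c10 b015 b025 b125 b035 b135 b235 b045 b145 b245 b345) = true → G6 E P b012 b013 b023 b123 b014 b024 b124 b034 b134 b234 b015 b025 b125 b035 b135 b235 b045 b145 b245 b345 := by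
    intro b012 b013 b023 b123 b014 b024 b124 b034 b134 b234 b015 b025 b125 b035 b135 b235 b045 b145 b245 b345 h a b c d e f h012 h013 h023 h123 h014 h024 h124 h034 h134 h234 h015 h025 h125 h035 h135 h235 h045 h145 h245 h345
    subst h012 h013 h023 h123 h014 h024 h124 h034 h134 h234 h015 h025 h125 h035 h135 h235 h045 h145 h245 h345
    exact base a b c d e f h
  have hr : ∀ b012 b013 b023 b123 b014 b024 b124 b034 b134 b234 : ℕ, tgk b012 b013 b023 b123 b014 b024 b124 b034 b134 b234 = 4 → G5 E P b012 b013 b023 b123 b014 b024 b124 b034 b134 b234 := by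
    intro b012 b013 b023 b123 b014 b024 b124 b034 b134 b234 ht a b c d e h012 h013 h023 h123 h014 h024 h124 h034 h134 h234 f
    subst h012 h013 h023 h123 h014 h024 h124 h034 h134 h234
    have h1 := walk_of_wnest hE hK a b c d e f (wnest_rep (hE.b _ _ _) (hE.b _ _ _) (hE.b _ _ _) (hE.b _ _ _) (hE.b _ _ _) (hE.b _ _ _) (hE.b _ _ _) (hE.b _ _ _) (hE.b _ _ _) (hE.b _ _ _) ht)
    exact walk6_gen (P := G6 E P) (G6_sw0 hE s0) (G6_sw1 hE s1) (G6_sw2 hE s2)
      (G6_sw3 hE s3) (G6_sw4 hE s4) hb 16 _ _ _ _ _ _ _ _ _ _ _ _ _ _ _ _ _ _ _ _ _ h1 a b c d e f rfl rfl rfl rfl rfl rfl rfl rfl rfl rfl rfl rfl rfl rfl rfl rfl rfl rfl rfl rfl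
  exact walk_gen (P := G5 E P) (G5_sw0 hE s0) (G5_sw1 hE s1) (G5_sw2 hE s2) (G5_sw3 hE s3) hr 9
    _ _ _ _ _ _ _ _ _ _ (walk_E hE a b c d e) a b c d e rfl rfl rfl rfl rfl rfl rfl rfl rfl rfl f

end

end Pool.Agent.U620.K7F.R
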