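import Pool.Agent.U620.K7F.Last
import Pool.Agent.U620.K7F.Avg
import Pool.Agent.U620.K7F.KAll
import Pool.Agent.U620.K7F.IAll
import Pool.Agent.U620.K7F.Red

/-! The upper bound for the number of edges. -/

set_option autoImplicit false
set_option linter.unusedVariables false
set_option maxRecDepth 100000
set_option maxHeartbeats 4000000
open Finset
open Pool.Agent.H122R2.N6 (Sy Bt)
open Pool.Agent.W843.K7 (NoK7)
open Pool.Agent.W843.N7 (TE)
open Pool.Agent.W843.K7 (isB)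

namespace Pool.Agent.U620.K7F
open Pool.Agent.Y435.T7

noncomputable section

theorem cT {x y : ℕ} {c : Bool} (h : c = true) : Pool.Agent.W843.N7.cnd c x y = x := by subst h; rfl
theorem cF {x y : ℕ} {c : Bool} (h : c = false) : Pool.Agent.W843.N7.cnd c x y = y := by subst h; rfl

theorem rv0 : Pool.Agent.W843.K7.rmv0 = rq0 := rfl
theorem rv1 : Pool.Agent.W843.K7.rmv1 = rq1 := rfl
theorem rv3 : Pool.Agent.W843.K7.rmv3 = rq3 := rfl
theorem rv7 : Pool.Agent.W843.K7.rmv7 = rq7 := rfl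
theorem rv15 : Pool.Agent.W843.K7.rmv15 = rq15 := rfl
theorem rv19 : Pool.Agent.W843.K7.rmv19 = rq19 := rfl
theorem rv20 : Pool.Agent.W843.K7.rmv20 = rq20 := rfl
theorem rv21 : Pool.Agent.W843.K7.rmv21 = rq21 := rfl
theorem rv23 : Pool.Agent.W843.K7.rmv23 = rq23 := rfl
theorem rv28 : Pool.Agent.W843.K7.rmv28 = rq28 := rfl
theorem rv29 : Pool.Agent.W843.K7.rmv29 = rq29 := rfl
theorem rv31 : Pool.Agent.W843.K7.rmv31 = rq31 := rfl
theorem rv54 : Pool.Agent.W843.K7.rmv54 = rq54 := rfl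
theorem rv55 : Pool.Agent.W843.K7.rmv55 = rq55 := rfl
theorem rv58 : Pool.Agent.W843.K7.rmv58 = rq58 := rfl
theorem rv59 : Pool.Agent.W843.K7.rmv59 = rq59 := rfl
theorem rv62 : Pool.Agent.W843.K7.rmv62 = rq62 := rfl
theorem rv63 : Pool.Agent.W843.K7.rmv63 = rq63 := rfl
theorem rv126 : Pool.Agent.W843.K7.rmv126 = rq126 := rfl
theorem rv127 : Pool.Agent.W843.K7.rmv127 = rq127 := rfl
theorem rv183 : Pool.Agent.W843.K7.rmv183 = rq183 := rfl
theorem rv184 : Pool.Agent.W843.K7.rmv184 = rq184 := rfl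
theorem rv185 : Pool.Agent.W843.K7.rmv185 = rq185 := rfl
theorem rv187 : Pool.Agent.W843.K7.rmv187 = rq187 := rfl
theorem rv191 : Pool.Agent.W843.K7.rmv191 = rq191 := rfl
theorem rv207 : Pool.Agent.W843.K7.rmv207 = rq207 := rfl
theorem rv220 : Pool.Agent.W843.K7.rmv220 = rq220 := rfl
theorem rv221 : Pool.Agent.W843.K7.rmv221 = rq221 := rfl
theorem rv223 : Pool.Agent.W843.K7.rmv223 = rq223 := rfl
theorem rv254 : Pool.Agent.W843.K7.rmv254 = rq254 := rfl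
theorem rv255 : Pool.Agent.W843.K7.rmv255 = rq255 := rfl
theorem rv495 : Pool.Agent.W843.K7.rmv495 = rq495 := rfl
theorem rv511 : Pool.Agent.W843.K7.rmv511 = rq511 := rfl
theorem rv1023 : Pool.Agent.W843.K7.rmv1023 = rq1023 := rfl

theorem isB_chm {m f : ℕ} (hf : f < 1024) (h : isB m f = true) : chm m f = true ∨ (m = 1023 ∧ f = 1023) := by
  unfold isB Pool.Agent.W843.K7.rm at h
  cases e0 : Nat.beq m 0 with
  | true =>
    rw [cT e0, rv0] at h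
    rw [Nat.eq_of_beq_eq_true e0]
    exact Or.inl (ka0 hf h)
  | false =>
  rw [cF e0] at h
  cases e1 : Nat.beq m 1 with
  | true =>
    rw [cT e1, rv1] at h
    rw [Nat.eq_of_beq_eq_true e1]
    exact Or.inl (ka1 hf h)
  | false =>
  rw [cF e1] at h
  cases e3 : Nat.beq m 3 with
  | true =>
    rw [cT e3, rv3] at h
    rw [Nat.eq_of_beq_eq_true e3]
    exact Or.inl (ka3 hf h)
  | false =>
  rw [cF e3] at h
  cases e7 : Nat.beq m 7 with
  | true =>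
    rw [cT e7, rv7] at h
    rw [Nat.eq_of_beq_eq_true e7]
    exact Or.inl (ka7 hf h)
  | false =>
  rw [cF e7] at h
  cases e15 : Nat.beq m 15 with
  | true =>
    rw [cT e15, rv15] at h
    rw [Nat.eq_of_beq_eq_true e15]
    exact Or.inl (ka15 hf h)
  | false =>
  rw [cF e15] at h
  cases e19 : Nat.beq m 19 with
  | true =>
    rw [cT e19, rv19] at h
    rw [Nat.eq_of_beq_eq_true e19]
    exact Or.inl (ka19 hf h)
  | false =>
  rw [cF e19] at h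
  cases e20 : Nat.beq m 20 with
  | true =>
    rw [cT e20, rv20] at h
    rw [Nat.eq_of_beq_eq_true e20]
    exact Or.inl (ka20 hf h)
  | false =>
  rw [cF e20] at h
  cases e21 : Nat.beq m 21 with
  | true =>
    rw [cT e21, rv21] at h
    rw [Nat.eq_of_beq_eq_true e21]
    exact Or.inl (ka21 hf h)
  | false =>
  rw [cF e21] at h
  cases e23 : Nat.beq m 23 with
  | true =>
    rw [cT e23, rv23] at h
    rw [Nat.eq_of_beq_eq_true e23]
    exact Or.inl (ka23 hf h)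
  | false =>
  rw [cF e23] at h
  cases e28 : Nat.beq m 28 with
  | true =>
    rw [cT e28, rv28] at h
    rw [Nat.eq_of_beq_eq_true e28]
    exact Or.inl (ka28 hf h)
  | false =>
  rw [cF e28] at h
  cases e29 : Nat.beq m 29 with
  | true =>
    rw [cT e29, rv29] at h
    rw [Nat.eq_of_beq_eq_true e29]
    exact Or.inl (ka29 hf h)
  | false =>
  rw [cF e29] at h
  cases e31 : Nat.beq m 31 with
  | true =>
    rw [cT e31, rv31] at h
    rw [Nat.eq_of_beq_eq_true e31]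
    exact Or.inl (ka31 hf h)
  | false =>
  rw [cF e31] at h
  cases e54 : Nat.beq m 54 with
  | true =>
    rw [cT e54, rv54] at h
    rw [Nat.eq_of_beq_eq_true e54]
    exact Or.inl (ka54 hf h)
  | false =>
  rw [cF e54] at h
  cases e55 : Nat.beq m 55 with
  | true =>
    rw [cT e55, rv55] at h
    rw [Nat.eq_of_beq_eq_true e55]
    exact Or.inl (ka55 hf h)
  | false =>
  rw [cF e55] at h
  cases e58 : Nat.beq m 58 with
  | true =>
    rw [cT e58, rv58] at h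
    rw [Nat.eq_of_beq_eq_true e58]
    exact Or.inl (ka58 hf h)
  | false =>
  rw [cF e58] at h
  cases e59 : Nat.beq m 59 with
  | true =>
    rw [cT e59, rv59] at h
    rw [Nat.eq_of_beq_eq_true e59]
    exact Or.inl (ka59 hf h)
  | false =>
  rw [cF e59] at h
  cases e62 : Nat.beq m 62 with
  | true =>
    rw [cT e62, rv62] at h
    rw [Nat.eq_of_beq_eq_true e62]
    exact Or.inl (ka62 hf h)
  | false =>
  rw [cF e62] at h
  cases e63 : Nat.beq m 63 with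
  | true =>
    rw [cT e63, rv63] at h
    rw [Nat.eq_of_beq_eq_true e63]
    exact Or.inl (ka63 hf h)
  | false =>
  rw [cF e63] at h
  cases e126 : Nat.beq m 126 with
  | true =>
    rw [cT e126, rv126] at h
    rw [Nat.eq_of_beq_eq_true e126]
    exact Or.inl (ka126 hf h)
  | false =>
  rw [cF e126] at h
  cases e127 : Nat.beq m 127 with
  | true =>
    rw [cT e127, rv127] at h
    rw [Nat.eq_of_beq_eq_true e127]
    exact Or.inl (ka127 hf h)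
  | false =>
  rw [cF e127] at h
  cases e183 : Nat.beq m 183 with
  | true =>
    rw [cT e183, rv183] at h
    rw [Nat.eq_of_beq_eq_true e183]
    exact Or.inl (ka183 hf h)
  | false =>
  rw [cF e183] at h
  cases e184 : Nat.beq m 184 with
  | true =>
    rw [cT e184, rv184] at h
    rw [Nat.eq_of_beq_eq_true e184]
    exact Or.inl (ka184 hf h)
  | false =>
  rw [cF e184] at h
  cases e185 : Nat.beq m 185 with
  | true =>
    rw [cT e185, rv185] at h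
    rw [Nat.eq_of_beq_eq_true e185]
    exact Or.inl (ka185 hf h)
  | false =>
  rw [cF e185] at h
  cases e187 : Nat.beq m 187 with
  | true =>
    rw [cT e187, rv187] at h
    rw [Nat.eq_of_beq_eq_true e187]
    exact Or.inl (ka187 hf h)
  | false =>
  rw [cF e187] at h
  cases e191 : Nat.beq m 191 with
  | true =>
    rw [cT e191, rv191] at h
    rw [Nat.eq_of_beq_eq_true e191]
    exact Or.inl (ka191 hf h)
  | false =>
  rw [cF e191] at h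
  cases e207 : Nat.beq m 207 with
  | true =>
    rw [cT e207, rv207] at h
    rw [Nat.eq_of_beq_eq_true e207]
    exact Or.inl (ka207 hf h)
  | false =>
  rw [cF e207] at h
  cases e220 : Nat.beq m 220 with
  | true =>
    rw [cT e220, rv220] at h
    rw [Nat.eq_of_beq_eq_true e220]
    exact Or.inl (ka220 hf h)
  | false =>
  rw [cF e220] at h
  cases e221 : Nat.beq m 221 with
  | true =>
    rw [cT e221, rv221] at h
    rw [Nat.eq_of_beq_eq_true e221]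
    exact Or.inl (ka221 hf h)
  | false =>
  rw [cF e221] at h
  cases e223 : Nat.beq m 223 with
  | true =>
    rw [cT e223, rv223] at h
    rw [Nat.eq_of_beq_eq_true e223]
    exact Or.inl (ka223 hf h)
  | false =>
  rw [cF e223] at h
  cases e254 : Nat.beq m 254 with
  | true =>
    rw [cT e254, rv254] at h
    rw [Nat.eq_of_beq_eq_true e254]
    exact Or.inl (ka254 hf h)
  | false =>
  rw [cF e254] at h
  cases e255 : Nat.beq m 255 with
  | true =>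
    rw [cT e255, rv255] at h
    rw [Nat.eq_of_beq_eq_true e255]
    exact Or.inl (ka255 hf h)
  | false =>
  rw [cF e255] at h
  cases e495 : Nat.beq m 495 with
  | true =>
    rw [cT e495, rv495] at h
    rw [Nat.eq_of_beq_eq_true e495]
    exact Or.inl (ka495 hf h)
  | false =>
  rw [cF e495] at h
  cases e511 : Nat.beq m 511 with
  | true =>
    rw [cT e511, rv511] at h
    rw [Nat.eq_of_beq_eq_true e511]
    exact Or.inl (ka511 hf h)
  | false =>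
  rw [cF e511] at h
  cases e1023 : Nat.beq m 1023 with
  | true =>
    rw [cT e1023, rv1023] at h
    rcases (show f < 1023 ∨ f = 1023 by omega) with h3 | h3
    · rw [Nat.eq_of_beq_eq_true e1023]
      exact Or.inl (ka1023 h3 h)
    · exact Or.inr ⟨Nat.eq_of_beq_eq_true e1023, h3⟩
  | false =>
  rw [cF e1023] at h
  have : Nat.mod (Nat.shiftRight 0 f) 2 = 0 := by
    show 0 >>> f % 2 = 0
    rw [Nat.zero_shiftRight]
  rw [this] at h
  exact absurd h (by decide)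

section
variable {V : Type} {E : V → V → V → ℕ}

theorem chk_E (hE : Sy E) (a b c d e f : V)
    (h : chm (c10 (E a b c) (E a b d) (E a c d) (E b c d) (E a b e) (E a c e) (E b c e) (E a d e) (E b d e) (E c d e))
      (c10 (E a b f) (E a c f) (E b c f) (E a d f) (E b d f) (E c d f) (E a e f) (E b e f) (E c e f) (E d e f)) = true) :
    chk (E a b c) (E a b d) (E a c d) (E b c d) (E a b e) (E a c e) (E b c e) (E a d e) (E b d e) (E c d e)
      (E a b f) (E a c f) (E b c f) (E a d f) (E b d f) (E c d f) (E a e f) (E b e f) (E c e f) (E d e f) = true := by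
  unfold chm at h
  rw [bt_c10_0 (hE.b _ _ _) (hE.b _ _ _) (hE.b _ _ _) (hE.b _ _ _) (hE.b _ _ _) (hE.b _ _ _) (hE.b _ _ _) (hE.b _ _ _) (hE.b _ _ _) (hE.b _ _ _), bt_c10_1 (hE.b _ _ _) (hE.b _ _ _) (hE.b _ _ _) (hE.b _ _ _) (hE.b _ _ _) (hE.b _ _ _) (hE.b _ _ _) (hE.b _ _ _) (hE.b _ _ _) (hE.b _ _ _), bt_c10_2 (hE.b _ _ _) (hE.b _ _ _) (hE.b _ _ _) (hE.b _ _ _) (hE.b _ _ _) (hE.b _ _ _) (hE.b _ _ _) (hE.b _ _ _) (hE.b _ _ _) (hE.b _ _ _), bt_c10_3 (hE.b _ _ _) (hE.b _ _ _) (hE.b _ _ _) (hE.b _ _ _) (hE.b _ _ _) (hE.b _ _ _) (hE.b _ _ _) (hE.b _ _ _) (hE.b _ _ _) (hE.b _ _ _), bt_c10_4 (hE.b _ _ _) (hE.b _ _ _) (hE.b _ _ _) (hE.b _ _ _) (hE.b _ _ _) (hE.b _ _ _) (hE.b _ _ _) (hE.b _ _ _) (hE.b _ _ _) (hE.b _ _ _), bt_c10_5 (hE.b _ _ _) (hE.b _ _ _) (hE.b _ _ _) (hE.b _ _ _) (hE.b _ _ _) (hE.b _ _ _) (hE.b _ _ _) (hE.b _ _ _) (hE.b _ _ _) (hE.b _ _ _), bt_c10_6 (hE.b _ _ _) (hE.b _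 _ _) (hE.b _ _ _) (hE.b _ _ _) (hE.b _ _ _) (hE.b _ _ _) (hE.b _ _ _) (hE.b _ _ _) (hE.b _ _ _) (hE.b _ _ _), bt_c10_7 (hE.b _ _ _) (hE.b _ _ _) (hE.b _ _ _) (hE.b _ _ _) (hE.b _ _ _) (hE.b _ _ _) (hE.b _ _ _) (hE.b _ _ _) (hE.b _ _ _) (hE.b _ _ _), bt_c10_8 (hE.b _ _ _) (hE.b _ _ _) (hE.b _ _ _) (hE.b _ _ _) (hE.b _ _ _) (hE.b _ _ _) (hE.b _ _ _) (hE.b _ _ _) (hE.b _ _ _) (hE.b _ _ _), bt_c10_9 (hE.b _ _ _) (hE.b _ _ _) (hE.b _ _ _) (hE.b _ _ _) (hE.b _ _ _) (hE.b _ _ _) (hE.b _ _ _) (hE.b _ _ _) (hE.b _ _ _) (hE.b _ _ _)] at h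
  rw [bt_c10_0 (hE.b _ _ _) (hE.b _ _ _) (hE.b _ _ _) (hE.b _ _ _) (hE.b _ _ _) (hE.b _ _ _) (hE.b _ _ _) (hE.b _ _ _) (hE.b _ _ _) (hE.b _ _ _), bt_c10_1 (hE.b _ _ _) (hE.b _ _ _) (hE.b _ _ _) (hE.b _ _ _) (hE.b _ _ _) (hE.b _ _ _) (hE.b _ _ _) (hE.b _ _ _) (hE.b _ _ _) (hE.b _ _ _), bt_c10_2 (hE.b _ _ _) (hE.b _ _ _) (hE.b _ _ _) (hE.b _ _ _) (hE.b _ _ _) (hE.b _ _ _) (hE.b _ _ _) (hE.b _ _ _) (hE.b _ _ _) (hE.b _ _ _), bt_c10_3 (hE.b _ _ _) (hE.b _ _ _) (hE.b _ _ _) (hE.b _ _ _) (hE.b _ _ _) (hE.b _ _ _) (hE.b _ _ _) (hE.b _ _ _) (hE.b _ _ _) (hE.b _ _ _), bt_c10_4 (hE.b _ _ _) (hE.b _ _ _) (hE.b _ _ _) (hE.b _ _ _) (hE.b _ _ _) (hE.b _ _ _) (hE.b _ _ _) (hE.b _ _ _) (hE.b _ _ _) (hE.b _ _ _), bt_c10_5 (hE.b _ _ _) (hE.b _ _ _) (hE.b _ _ _) (hE.b _ _ _) (hE.b _ _ _) (hE.b _ _ _) (hE.b _ _ _) (hE.b _ _ _) (hE.b _ _ _) (hE.b _ _ _), bt_c10_6 (hE.b _ _ _) (hE.b _ _ _) (hE.b _ _ _)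 (hE.b _ _ _) (hE.b _ _ _) (hE.b _ _ _) (hE.b _ _ _) (hE.b _ _ _) (hE.b _ _ _) (hE.b _ _ _), bt_c10_7 (hE.b _ _ _) (hE.b _ _ _) (hE.b _ _ _) (hE.b _ _ _) (hE.b _ _ _) (hE.b _ _ _) (hE.b _ _ _) (hE.b _ _ _) (hE.b _ _ _) (hE.b _ _ _), bt_c10_8 (hE.b _ _ _) (hE.b _ _ _) (hE.b _ _ _) (hE.b _ _ _) (hE.b _ _ _) (hE.b _ _ _) (hE.b _ _ _) (hE.b _ _ _) (hE.b _ _ _) (hE.b _ _ _), bt_c10_9 (hE.b _ _ _) (hE.b _ _ _) (hE.b _ _ _) (hE.b _ _ _) (hE.b _ _ _) (hE.b _ _ _) (hE.b _ _ _) (hE.b _ _ _) (hE.b _ _ _) (hE.b _ _ _)] at h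
  exact h

theorem c10_all {b0 b1 b2 b3 b4 b5 b6 b7 b8 b9 : ℕ} (h0 : Bt b0) (h1 : Bt b1) (h2 : Bt b2) (h3 : Bt b3) (h4 : Bt b4) (h5 : Bt b5) (h6 : Bt b6) (h7 : Bt b7) (h8 : Bt b8) (h9 : Bt b9)
    (h : c10 b0 b1 b2 b3 b4 b5 b6 b7 b8 b9 = 1023) : b0 = 1 ∧ b1 = 1 ∧ b2 = 1 ∧ b3 = 1 ∧ b4 = 1 ∧ b5 = 1 ∧ b6 = 1 ∧ b7 = 1 ∧ b8 = 1 ∧ b9 = 1 := by
  have e0 := bt_c10_0 h0 h1 h2 h3 h4 h5 h6 h7 h8 h9
  rw [h] at e0
  have e1 := bt_c10_1 h0 h1 h2 h3 h4 h5 h6 h7 h8 h9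
  rw [h] at e1
  have e2 := bt_c10_2 h0 h1 h2 h3 h4 h5 h6 h7 h8 h9
  rw [h] at e2
  have e3 := bt_c10_3 h0 h1 h2 h3 h4 h5 h6 h7 h8 h9
  rw [h] at e3
  have e4 := bt_c10_4 h0 h1 h2 h3 h4 h5 h6 h7 h8 h9
  rw [h] at e4
  have e5 := bt_c10_5 h0 h1 h2 h3 h4 h5 h6 h7 h8 h9
  rw [h] at e5
  have e6 := bt_c10_6 h0 h1 h2 h3 h4 h5 h6 h7 h8 h9
  rw [h] at e6
  have e7 := bt_c10_7 h0 h1 h2 h3 h4 h5 h6 h7 h8 h9
  rw [h] at e7
  have e8 := bt_c10_8 h0 h1 h2 h3 h4 h5 h6 h7 h8 h9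
  rw [h] at e8
  have e9 := bt_c10_9 h0 h1 h2 h3 h4 h5 h6 h7 h8 h9
  rw [h] at e9
  exact ⟨e0.symm.trans (by decide +kernel), e1.symm.trans (by decide +kernel), e2.symm.trans (by decide +kernel), e3.symm.trans (by decide +kernel), e4.symm.trans (by decide +kernel), e5.symm.trans (by decide +kernel), e6.symm.trans (by decide +kernel), e7.symm.trans (by decide +kernel), e8.symm.trans (by decide +kernel), e9.symm.trans (by decide +kernel)⟩

theorem LE_last (hE : Sy E) (hK : NoK7 E) (a b c d e f z : V)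
    (h1 : c10 (E a b c) (E a b d) (E a c d) (E b c d) (E a b e) (E a c e) (E b c e) (E a d e) (E b d e) (E c d e) = 1023)
    (h2 : c10 (E a b f) (E a c f) (E b c f) (E a d f) (E b d f) (E c d f) (E a e f) (E b e f) (E c e f) (E d e f) = 1023) :
    LE0 E a b c d e f z ≤ cC := by
  obtain ⟨p0, p1, p2, p3, p4, p5, p6, p7, p8, p9⟩ := c10_all (hE.b _ _ _) (hE.b _ _ _) (hE.b _ _ _) (hE.b _ _ _) (hE.b _ _ _) (hE.b _ _ _) (hE.b _ _ _) (hE.b _ _ _) (hE.b _ _ _) (hE.b _ _ _) h1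
  obtain ⟨q0, q1, q2, q3, q4, q5, q6, q7, q8, q9⟩ := c10_all (hE.b _ _ _) (hE.b _ _ _) (hE.b _ _ _) (hE.b _ _ _) (hE.b _ _ _) (hE.b _ _ _) (hE.b _ _ _) (hE.b _ _ _) (hE.b _ _ _) (hE.b _ _ _) h2
  have hc : chkV (E a b c) (E a b d) (E a c d) (E b c d) (E a b e) (E a c e) (E b c e) (E a d e) (E b d e) (E c d e) (E a b f) (E a c f) (E b c f) (E a d f) (E b d f) (E c d f) (E a e f) (E b e f) (E c e f) (E d e f) = true := by
    rw [p0, p1, p2, p3, p4, p5, p6, p7, p8, p9, q0, q1, q2, q3, q4, q5, q6, q7, q8, q9]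
    exact kL
  refine chkV_spec (hE.b _ _ _) (hE.b _ _ _) (hE.b _ _ _) (hE.b _ _ _) (hE.b _ _ _) (hE.b _ _ _) (hE.b _ _ _) (hE.b _ _ _) (hE.b _ _ _) (hE.b _ _ _) (hE.b _ _ _) (hE.b _ _ _) (hE.b _ _ _) (hE.b _ _ _) (hE.b _ _ _) (hE.b _ _ _) (hE.b _ _ _) (hE.b _ _ _) (hE.b _ _ _) (hE.b _ _ _) hc (hE.b _ _ _) (hE.b _ _ _) (hE.b _ _ _) (hE.b _ _ _) (hE.b _ _ _) (hE.b _ _ _) (hE.b _ _ _) (hE.b _ _ _) (hE.b _ _ _) (hE.b _ _ _) (hE.b _ _ _) (hE.b _ _ _) (hE.b _ _ _) (hE.b _ _ _) (hE.b _ _ _) ?_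
  rintro ⟨r0, r1, r2, r3, r4, r5, r6, r7, r8, r9, r10, r11, r12, r13, r14⟩
  have h := hK a b c d e f z
  rw [p0, p1, p2, p3, p4, p5, p6, p7, p8, p9, q0, q1, q2, q3, q4, q5, q6, q7, q8, q9, r0, r1, r2, r3, r4, r5, r6, r7, r8, r9, r10, r11, r12, r13, r14] at h
  exact absurd h (by decide)

theorem LL_base (hC : CH) (hE : Sy E) (hK : NoK7 E) (a b c d e f : V)
    (h : isB (Pool.Agent.W843.N7.c10 (E a b c) (E a b d) (E a c d) (E b c d) (E a b e) (E a c e) (E b c e) (E a d e) (E b d e) (E c d e)) (Pool.Agent.W843.N7.c10 (E a b f) (E a c f) (E b c f) (E a d f) (E b d f) (E c d f) (E a e f) (E b e f) (E c e f) (E d e f)) = true)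
    (z : V) : LL E a b c d e f z ≤ cC := by
  rw [← LE_LL hC hE hK]
  have hf : c10 (E a b f) (E a c f) (E b c f) (E a d f) (E b d f) (E c d f) (E a e f) (E b e f) (E c e f) (E d e f) < 1024 :=
    c10_lt (hE.b _ _ _) (hE.b _ _ _) (hE.b _ _ _) (hE.b _ _ _) (hE.b _ _ _) (hE.b _ _ _) (hE.b _ _ _) (hE.b _ _ _) (hE.b _ _ _) (hE.b _ _ _)
  rcases isB_chm (m := c10 (E a b c) (E a b d) (E a c d) (E b c d) (E a b e) (E a c e) (E b c e) (E a d e) (E b d e) (E c d e)) hf h with h1 | ⟨h1, h2⟩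
  · have h1 := chk_E hE a b c d e f h1
    exact chk_spec (hE.b _ _ _) (hE.b _ _ _) (hE.b _ _ _) (hE.b _ _ _) (hE.b _ _ _) (hE.b _ _ _) (hE.b _ _ _) (hE.b _ _ _) (hE.b _ _ _) (hE.b _ _ _) (hE.b _ _ _) (hE.b _ _ _) (hE.b _ _ _) (hE.b _ _ _) (hE.b _ _ _) (hE.b _ _ _) (hE.b _ _ _) (hE.b _ _ _) (hE.b _ _ _) (hE.b _ _ _) h1 (hE.b _ _ _) (hE.b _ _ _) (hE.b _ _ _) (hE.b _ _ _) (hE.b _ _ _) (hE.b _ _ _) (hE.b _ _ _) (hE.b _ _ _) (hE.b _ _ _) (hE.b _ _ _) (hE.b _ _ _) (hE.b _ _ _) (hE.b _ _ _) (hE.b _ _ _) (hE.b _ _ _)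
  · exact LE_last hE hK a b c d e f z h1 h2

/-- the leaf inequality -/
theorem LL_le (hC : CH) (hE : Sy E) (hK : NoK7 E) (a b c d e f z : V) : LL E a b c d e f z ≤ cC :=
  Pool.Agent.U620.K7F.R.red hE hK (P := fun a b c d e f => ∀ z, LL E a b c d e f z ≤ cC)
    (fun a b c d e f h z => (LL_s0 hC hE hK a b c d e f z) ▸ h z)
    (fun a b c d e f h z => (LL_s1 hC hE hK a b c d e f z) ▸ h z)
    (fun a b c d e f h z => (LL_s2 hC hE hK a b c d e f z) ▸ h z)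
    (fun a b c d e f h z => (LL_s3 hC hE hK a b c d e f z) ▸ h z)
    (fun a b c d e f h z => (LL_s4 hC hE hK a b c d e f z) ▸ h z)
    (fun a b c d e f h z => LL_base hC hE hK a b c d e f h z) a b c d e f z

variable [Fintype V]

theorem main_int (hE : Sy E) (hK : NoK7 E) :
    21 * (2 * (Fintype.card V : ℤ) * (600847188 * (Fintype.card V : ℤ) ^ 6 + 362000 * (20 * ((Fintype.card V : ℤ) ^ 3 * TE E)) + 21132 * (10 * (TE E) ^ 2))
      - 12 * (6912 : ℤ) ^ 2 * (Fintype.card V : ℤ) ^ 7) + 105 * ((2 * 370322304 - 20 * (4224 : ℤ) ^ 2) * (Fintype.card V : ℤ) ^ 7)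
    ≤ 53775475185 * (Fintype.card V : ℤ) ^ 7 := by
  have hC := CH_all
  have h1 := S5_lower hC hE hK
  have h2 := S3_lower hE hK
  rw [GG_sum] at h1
  have h3 := LL_sum E
  have h4 : ∑ x : Fin 7 → V, (LL E (x 0) (x 1) (x 2) (x 3) (x 4) (x 5) (x 6) : ℤ)
      ≤ 53775475185 * (Fintype.card V : ℤ) ^ 7 := by
    calc _ ≤ ∑ x : Fin 7 → V, (53775475185 : ℤ) :=
          sum_le_sum fun x _ => by
            have h := LL_le hC hE hK (x 0) (x 1) (x 2) (x 3) (x 4) (x 5) (x 6)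
            have hc : cC = 53775475185 := rfl
            rw [hc] at h
            exact_mod_cast h
      _ = 53775475185 * (Fintype.card V : ℤ) ^ 7 := by
          rw [sum_const, card_univ, Fintype.card_fun, Fintype.card_fin, nsmul_eq_mul]
          push_cast
          ring
  rw [h3] at h4
  linarith

end

theorem num_end {n T : ℤ} (hn0 : 0 < n) (hn3 : 0 < n ^ 3)
    (h : 21 * (2 * n * (600847188 * n ^ 6 + 362000 * (20 * (n ^ 3 * T)) + 21132 * (10 * T ^ 2))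
      - 12 * (6912 : ℤ) ^ 2 * n ^ 7) + 105 * ((2 * 370322304 - 20 * (4224 : ℤ) ^ 2) * n ^ 7) ≤ 53775475185 * n ^ 7)
    (hcon : 89815 * n ^ 3 < 100000 * T) : False := by
  have h5 : n * (304080000 * (n ^ 3 * T) + 8875440 * T ^ 2) ≤ n * (280266537 * n ^ 6) := by
    linarith
  have h6 : 304080000 * (n ^ 3 * T) + 8875440 * T ^ 2 ≤ 280266537 * n ^ 6 :=
    le_of_mul_le_mul_left h5 hn0
  have h7 : n ^ 3 * (89815 * n ^ 3) < n ^ 3 * (100000 * T) := mul_lt_mul_of_pos_left hcon hn3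
  have h8 : (89815 * n ^ 3) ^ 2 ≤ (100000 * T) ^ 2 := pow_le_pow_left₀ (by positivity) hcon.le 2
  have h9 : 0 < n ^ 6 := by positivity
  have h10 : n ^ 3 * (89815 * n ^ 3) = 89815 * n ^ 6 := by ring
  have h11 : (89815 * n ^ 3) ^ 2 = 8066734225 * n ^ 6 := by ring
  have h12 : n ^ 3 * (100000 * T) = 100000 * (n ^ 3 * T) := by ring
  have h13 : (100000 * T) ^ 2 = 10000000000 * T ^ 2 := by ring
  rw [h10, h12] at h7
  rw [h11, h13] at h8
  linarith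

/-- the number of ordered edges is at most `0.89815 n^3` -/
theorem main_edges {V : Type} [Fintype V] {E : V → V → V → ℕ} (hE : Sy E) (hK : NoK7 E) :
    100000 * TE E ≤ 89815 * (Fintype.card V : ℤ) ^ 3 := by
  have h := main_int hE hK
  rcases Nat.eq_zero_or_pos (Fintype.card V) with h0 | h0
  · have : TE E = 0 := by
      have he : IsEmpty V := Fintype.card_eq_zero_iff.mp h0
      unfold TE
      exact Fintype.sum_empty _
    rw [this, h0]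
    norm_num
  · set n : ℤ := (Fintype.card V : ℤ) with hn
    have hn0 : 0 < n := by rw [hn]; exact_mod_cast h0
    set T := TE E with hT
    by_contra hcon
    push Not at hcon
    exact num_end hn0 (by positivity) h hcon

end

end Pool.Agent.U620.K7F
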