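import Pool.Agent.U620.K7F.Tri
import Pool.Agent.U620.K7F.Chain

/-! The leaf sum in terms of the vertices. -/

set_option autoImplicit false
set_option linter.unusedVariables false
set_option maxRecDepth 100000
set_option maxHeartbeats 4000000
open Finset
open Pool.Agent.H122R2.N6 (Sy Bt)
open Pool.Agent.W843.K7 (NoK7)

namespace Pool.Agent.U620.K7F
open Pool.Agent.Y435.T7

noncomputable section

section
variable {V : Type} {E : V → V → V → ℕ}

theorem q213 (h : Sy E) (x y z : V) : E y x z = E x y z := h.h213 x y z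
theorem q132 (h : Sy E) (x y z : V) : E x z y = E x y z := h.h132 x y z
theorem q231 (h : Sy E) (x y z : V) : E y z x = E x y z := by rw [h.h132, h.h213]
theorem q312 (h : Sy E) (x y z : V) : E z x y = E x y z := by rw [h.h213, h.h132]
theorem q321 (h : Sy E) (x y z : V) : E z y x = E x y z := by rw [h.h132, h.h213, h.h132]

variable (E)

def SAE (a b c d e f z : V) : ℕ := SA (E a b c) (E a b d) (E a c d) (E b c d) (E a b e) (E a c e) (E b c e) (E a d e) (E b d e) (E c d e) (E a b f) (E a c f) (E b c f) (E a d f) (E b d f) (E c d f) (E a e f) (E b e f) (E c e f) (E d e f) (E a f z) (E b f z) (E c f z) (E d f z) (E a e z) (E b e z) (E c e z) (E d e z) (E a b z) (E a c z) (E b c z) (E a d z) (E b d z) (E c d z) (E e f z)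
def SDE (a b c d e f z : V) : ℕ := SD (E a b c) (E a b d) (E a c d) (E b c d) (E a b e) (E a c e) (E b c e) (E a d e) (E b d e) (E c d e) (E a b f) (E a c f) (E b c f) (E a d f) (E b d f) (E c d f) (E a e f) (E b e f) (E c e f) (E d e f) (E a f z) (E b f z) (E c f z) (E d f z) (E a e z) (E b e z) (E c e z) (E d e z) (E a b z) (E a c z) (E b c z) (E a d z) (E b d z) (E c d z) (E e f z)
def LE0 (a b c d e f z : V) : ℕ := LS0 (E a b c) (E a b d) (E a c d) (E b c d) (E a b e) (E a c e) (E b c e) (E a d e) (E b d e) (E c d e) (E a b f) (E a c f) (E b c f) (E a d f) (E b d f) (E c d f) (E a e f) (E b e f) (E c e f) (E d e f) (E a f z) (E b f z) (E c f z) (E d f z) (E a e z) (E b e z) (E c e z) (E d e z) (E a b z) (E a c z) (E b c z) (E a d z) (E b d z) (E c d z) (E e f z)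
def LE1 (a b c d e f z : V) : ℕ := LS1 (E a b c) (E a b d) (E a c d) (E b c d) (E a b e) (E a c e) (E b c e) (E a d e) (E b d e) (E c d e) (E a b f) (E a c f) (E b c f) (E a d f) (E b d f) (E c d f) (E a e f) (E b e f) (E c e f) (E d e f) (E a f z) (E b f z) (E c f z) (E d f z) (E a e z) (E b e z) (E c e z) (E d e z) (E a b z) (E a c z) (E b c z) (E a d z) (E b d z) (E c d z) (E e f z)
def LE2 (a b c d e f z : V) : ℕ := LS2 (E a b c) (E a b d) (E a c d) (E b c d) (E a b e) (E a c e) (E b c e) (E a d e) (E b d e) (E c d e) (E a b f) (E a c f) (E b c f) (E a d f) (E b d f) (E c d f) (E a e f) (E b e f) (E c e f) (E d e f) (E a f z) (E b f z) (E c f z) (E d f z) (E a e z) (E b e z) (E c e z) (E d e z) (E a b z) (E a c z) (E b c z) (E a d z) (E b d z) (E c d z) (E e f z)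
def LE3 (a b c d e f z : V) : ℕ := LS3 (E a b c) (E a b d) (E a c d) (E b c d) (E a b e) (E a c e) (E b c e) (E a d e) (E b d e) (E c d e) (E a b f) (E a c f) (E b c f) (E a d f) (E b d f) (E c d f) (E a e f) (E b e f) (E c e f) (E d e f) (E a f z) (E b f z) (E c f z) (E d f z) (E a e z) (E b e z) (E c e z) (E d e z) (E a b z) (E a c z) (E b c z) (E a d z) (E b d z) (E c d z) (E e f z)
def LE4 (a b c d e f z : V) : ℕ := LS4 (E a b c) (E a b d) (E a c d) (E b c d) (E a b e) (E a c e) (E b c e) (E a d e) (E b d e) (E c d e) (E a b f) (E a c f) (E b c f) (E a d f) (E b d f) (E c d f) (E a e f) (E b e f) (E c e f) (E d e f) (E a f z) (E b f z) (E c f z) (E d f z) (E a e z) (E b e z) (E c e z) (E d e z) (E a b z) (E a c z) (E b c z) (E a d z) (E b d z) (E c d z) (E e f z)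
def LE5 (a b c d e f z : V) : ℕ := LS5 (E a b c) (E a b d) (E a c d) (E b c d) (E a b e) (E a c e) (E b c e) (E a d e) (E b d e) (E c d e) (E a b f) (E a c f) (E b c f) (E a d f) (E b d f) (E c d f) (E a e f) (E b e f) (E c e f) (E d e f) (E a f z) (E b f z) (E c f z) (E d f z) (E a e z) (E b e z) (E c e z) (E d e z) (E a b z) (E a c z) (E b c z) (E a d z) (E b d z) (E c d z) (E e f z)
def LE6 (a b c d e f z : V) : ℕ := LS6 (E a b c) (E a b d) (E a c d) (E b c d) (E a b e) (E a c e) (E b c e) (E a d e) (E b d e) (E c d e) (E a b f) (E a c f) (E b c f) (E a d f) (E b d f) (E c d f) (E a e f) (E b e f) (E c e f) (E d e f) (E a f z) (E b f z) (E c f z) (E d f z) (E a e z) (E b e z) (E c e z) (E d e z) (E a b z) (E a c z) (E b c z) (E a d z) (E b d z) (E c d z) (E e f z)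
def LE7 (a b c d e f z : V) : ℕ := LS7 (E a b c) (E a b d) (E a c d) (E b c d) (E a b e) (E a c e) (E b c e) (E a d e) (E b d e) (E c d e) (E a b f) (E a c f) (E b c f) (E a d f) (E b d f) (E c d f) (E a e f) (E b e f) (E c e f) (E d e f) (E a f z) (E b f z) (E c f z) (E d f z) (E a e z) (E b e z) (E c e z) (E d e z) (E a b z) (E a c z) (E b c z) (E a d z) (E b d z) (E c d z) (E e f z)
def LE8 (a b c d e f z : V) : ℕ := LS8 (E a b c) (E a b d) (E a c d) (E b c d) (E a b e) (E a c e) (E b c e) (E a d e) (E b d e) (E c d e) (E a b f) (E a c f) (E b c f) (E a d f) (E b d f) (E c d f) (E a e f) (E b e f) (E c e f) (E d e f) (E a f z) (E b f z) (E c f z) (E d f z) (E a e z) (E b e z) (E c e z) (E d e z) (E a b z) (E a c z) (E b c z) (E a d z) (E b d z) (E c d z) (E e f z)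
def LE9 (a b c d e f z : V) : ℕ := LS9 (E a b c) (E a b d) (E a c d) (E b c d) (E a b e) (E a c e) (E b c e) (E a d e) (E b d e) (E c d e) (E a b f) (E a c f) (E b c f) (E a d f) (E b d f) (E c d f) (E a e f) (E b e f) (E c e f) (E d e f) (E a f z) (E b f z) (E c f z) (E d f z) (E a e z) (E b e z) (E c e z) (E d e z) (E a b z) (E a c z) (E b c z) (E a d z) (E b d z) (E c d z) (E e f z)
def LE10 (a b c d e f z : V) : ℕ := LS10 (E a b c) (E a b d) (E a c d) (E b c d) (E a b e) (E a c e) (E b c e) (E a d e) (E b d e) (E c d e) (E a b f) (E a c f) (E b c f) (E a d f) (E b d f) (E c d f) (E a e f) (E b e f) (E c e f) (E d e f) (E a f z) (E b f z) (E c f z) (E d f z) (E a e z) (E b e z) (E c e z) (E d e z) (E a b z) (E a c z) (E b c z) (E a d z) (E b d z) (E c d z) (E e f z)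
def LE11 (a b c d e f z : V) : ℕ := LS11 (E a b c) (E a b d) (E a c d) (E b c d) (E a b e) (E a c e) (E b c e) (E a d e) (E b d e) (E c d e) (E a b f) (E a c f) (E b c f) (E a d f) (E b d f) (E c d f) (E a e f) (E b e f) (E c e f) (E d e f) (E a f z) (E b f z) (E c f z) (E d f z) (E a e z) (E b e z) (E c e z) (E d e z) (E a b z) (E a c z) (E b c z) (E a d z) (E b d z) (E c d z) (E e f z)
def LE12 (a b c d e f z : V) : ℕ := LS12 (E a b c) (E a b d) (E a c d) (E b c d) (E a b e) (E a c e) (E b c e) (E a d e) (E b d e) (E c d e) (E a b f) (E a c f) (E b c f) (E a d f) (E b d f) (E c d f) (E a e f) (E b e f) (E c e f) (E d e f) (E a f z) (E b f z) (E c f z) (E d f z) (E a e z) (E b e z) (E c e z) (E d e z) (E a b z) (E a c z) (E b c z) (E a d z) (E b d z) (E c d z) (E e f z)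
def LE13 (a b c d e f z : V) : ℕ := LS13 (E a b c) (E a b d) (E a c d) (E b c d) (E a b e) (E a c e) (E b c e) (E a d e) (E b d e) (E c d e) (E a b f) (E a c f) (E b c f) (E a d f) (E b d f) (E c d f) (E a e f) (E b e f) (E c e f) (E d e f) (E a f z) (E b f z) (E c f z) (E d f z) (E a e z) (E b e z) (E c e z) (E d e z) (E a b z) (E a c z) (E b c z) (E a d z) (E b d z) (E c d z) (E e f z)
def LE14 (a b c d e f z : V) : ℕ := LS14 (E a b c) (E a b d) (E a c d) (E b c d) (E a b e) (E a c e) (E b c e) (E a d e) (E b d e) (E c d e) (E a b f) (E a c f) (E b c f) (E a d f) (E b d f) (E c d f) (E a e f) (E b e f) (E c e f) (E d e f) (E a f z) (E b f z) (E c f z) (E d f z) (E a e z) (E b e z) (E c e z) (E d e z) (E a b z) (E a c z) (E b c z) (E a d z) (E b d z) (E c d z) (E e f z)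
def LE15 (a b c d e f z : V) : ℕ := LS15 (E a b c) (E a b d) (E a c d) (E b c d) (E a b e) (E a c e) (E b c e) (E a d e) (E b d e) (E c d e) (E a b f) (E a c f) (E b c f) (E a d f) (E b d f) (E c d f) (E a e f) (E b e f) (E c e f) (E d e f) (E a f z) (E b f z) (E c f z) (E d f z) (E a e z) (E b e z) (E c e z) (E d e z) (E a b z) (E a c z) (E b c z) (E a d z) (E b d z) (E c d z) (E e f z)

/-- the terms of a frame -/
def TT (a b c d e f z : V) : ℕ := F5 E a b c d z e f + (F3 E a b c d z e f + (F3 E d b c a z e f + (F3 E a d c b z e f + F3 E a b d c z e f)))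
  + (F3 E e f z a b c d + (F3 E e f z a c b d + F3 E e f z a d c b))

variable {E}

theorem SAE_eq (hE : Sy E) (a b c d e f z : V) : SAE E a b c d e f z = TT E a b c d e f z := by
  unfold SAE TT SA SB SC F5 F3 hC mC lF
  simp only [Nat.add_eq, q132 hE a e z, q132 hE b e z, q132 hE c e z, q132 hE d e z, q132 hE a f z, q132 hE b f z, q132 hE c f z, q132 hE d f z, q312 hE b c d, q321 hE a b d, q321 hE a c d, q231 hE a b c, q213 hE b d z, q213 hE c d z, q213 hE a d z, q213 hE a b z, q213 hE a c z, q213 hE b d e, q213 hE c d e, q213 hE b d f, q213 hE c d f, q132 hE a c d, q132 hE a b d, q132 hE a b c, q321 hE b c d, q213 hE b c z, q132 hE b c d, q231 hE a e f, q231 hE a e z, q231 hE a f z, q231 hE b e f, q231 hE b e z, q231 hE b f z, q312 hE a b e, q312 hE a b f, q312 hE a b z, q231 hE c e f, q231 hE c e z, q231 hE c f z, q231 hE d e f, q231 hE d e z, q231 hE d f z, q312 hE c d e, q312 hE c d f, q312 hE c d z, q312 hE a c e, q312 hE a c f, q312 hE a c z, q312 hE b d e, q312 hE b d f, q312 hE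 b d z, q312 hE a d e, q312 hE a d f, q312 hE a d z, q321 hE b c e, q321 hE b c f, q321 hE b c z]
theorem SDE_eq (hE : Sy E) (a b c d e f z : V) : SDE E a b c d e f z = F5 E a b c d e z f := rfl

theorem LE0_eq (hE : Sy E) (a b c d e f z : V) : LE0 E a b c d e f z = SAE E a b c d e f z + (SDE E a b c d e f z + LE1 E e b c d a f z) := by
  unfold LE0 LE1 LS0 SAE SDE
  simp only [Nat.add_eq, q312 hE b c e, q312 hE b d e, q312 hE c d e, q321 hE a b e, q321 hE a c e, q231 hE a b c, q321 hE a d e, q231 hE a b d, q231 hE a c d, q213 hE b e f, q213 hE c e f, q213 hE d e f, q213 hE a e f, q213 hE a b f, q213 hE a c f, q213 hE a d f, q213 hE a e z, q213 hE a b z, q213 hE a c z, q213 hE a d z, q213 hE b e z, q213 hE c e z, q213 hE d e z]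
theorem LE1_eq (hE : Sy E) (a b c d e f z : V) : LE1 E a b c d e f z = SAE E a b c d e f z + (LE2 E a e c d b f z) := by
  unfold LE1 LE2 LS1 SAE
  simp only [Nat.add_eq, q132 hE a c e, q132 hE a d e, q312 hE c d e, q132 hE a b e, q132 hE a b c, q321 hE b c e, q132 hE a b d, q321 hE b d e, q231 hE b c d, q213 hE c e f, q213 hE d e f, q213 hE b e f, q213 hE b c f, q213 hE b d f, q213 hE b e z, q213 hE b c z, q213 hE b d z, q213 hE c e z, q213 hE d e z]
theorem LE2_eq (hE : Sy E) (a b c d e f z : V) : LE2 E a b c d e f z = SAE E a b c d e f z + (LE3 E a b e d c f z) := by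
  unfold LE2 LE3 LS2 SAE
  simp only [Nat.add_eq, q132 hE a d e, q132 hE b d e, q132 hE a c e, q132 hE b c e, q132 hE a c d, q132 hE b c d, q321 hE c d e, q213 hE d e f, q213 hE c e f, q213 hE c d f, q213 hE c e z, q213 hE c d z, q213 hE d e z]
theorem LE3_eq (hE : Sy E) (a b c d e f z : V) : LE3 E a b c d e f z = SAE E a b c d e f z + (LE4 E a b c e d f z) := by
  unfold LE3 LE4 LS3 SAE
  simp only [Nat.add_eq, q132 hE a d e, q132 hE b d e, q132 hE c d e, q213 hE d e f, q213 hE d e z]
theorem LE4_eq (hE : Sy E) (a b c d e f z : V) : LE4 E a b c d e f z = SAE E a b c d e f z + (LE5 E f b c d e a z) := by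
  unfold LE4 LE5 LS4 SAE
  simp only [Nat.add_eq, q312 hE b c f, q312 hE b d f, q312 hE c d f, q312 hE b e f, q312 hE c e f, q312 hE d e f, q321 hE a b f, q321 hE a c f, q231 hE a b c, q321 hE a d f, q231 hE a b d, q231 hE a c d, q321 hE a e f, q231 hE a b e, q231 hE a c e, q231 hE a d e, q213 hE a f z, q213 hE a b z, q213 hE a c z, q213 hE a d z, q213 hE e f z, q213 hE b f z, q213 hE c f z, q213 hE d f z, q213 hE a e z]
theorem LE5_eq (hE : Sy E) (a b c d e f z : V) : LE5 E a b c d e f z = SAE E a b c d e f z + (SDE E a b c d e f z + LE6 E a e c d b f z) := by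
  unfold LE5 LE6 LS5 SAE SDE
  simp only [Nat.add_eq, q132 hE a c e, q132 hE a d e, q312 hE c d e, q132 hE a b e, q132 hE a b c, q321 hE b c e, q132 hE a b d, q321 hE b d e, q231 hE b c d, q213 hE c e f, q213 hE d e f, q213 hE b e f, q213 hE b c f, q213 hE b d f, q213 hE b e z, q213 hE b c z, q213 hE b d z, q213 hE c e z, q213 hE d e z]
theorem LE6_eq (hE : Sy E) (a b c d e f z : V) : LE6 E a b c d e f z = SAE E a b c d e f z + (LE7 E a b e d c f z) := by
  unfold LE6 LE7 LS6 SAE
  simp only [Nat.add_eq, q132 hE a d e, q132 hE b d e, q132 hE a c e, q132 hE b c e, q132 hE a c d, q132 hE b c d, q321 hE c d e, q213 hE d e f, q213 hE c e f, q213 hE c d f, q213 hE c e z, q213 hE c d z, q213 hE d e z]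
theorem LE7_eq (hE : Sy E) (a b c d e f z : V) : LE7 E a b c d e f z = SAE E a b c d e f z + (LE8 E a b c e d f z) := by
  unfold LE7 LE8 LS7 SAE
  simp only [Nat.add_eq, q132 hE a d e, q132 hE b d e, q132 hE c d e, q213 hE d e f, q213 hE d e z]
theorem LE8_eq (hE : Sy E) (a b c d e f z : V) : LE8 E a b c d e f z = SAE E a b c d e f z + (LE9 E a f c d e b z) := by
  unfold LE8 LE9 LS8 SAE
  simp only [Nat.add_eq, q132 hE a c f, q132 hE a d f, q312 hE c d f, q132 hE a e f, q312 hE c e f, q312 hE d e f, q132 hE a b f, q132 hE a b c, q321 hE b c f, q132 hE a b d, q321 hE b d f, q231 hE b c d, q132 hE a b e, q321 hE b e f, q231 hE b c e, q231 hE b d e, q213 hE b f z, q213 hE b c z, q213 hE b d z, q213 hE e f z, q213 hE c f z, q213 hE d f z, q213 hE b e z]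
theorem LE9_eq (hE : Sy E) (a b c d e f z : V) : LE9 E a b c d e f z = SAE E a b c d e f z + (SDE E a b c d e f z + LE10 E a b e d c f z) := by
  unfold LE9 LE10 LS9 SAE SDE
  simp only [Nat.add_eq, q132 hE a d e, q132 hE b d e, q132 hE a c e, q132 hE b c e, q132 hE a c d, q132 hE b c d, q321 hE c d e, q213 hE d e f, q213 hE c e f, q213 hE c d f, q213 hE c e z, q213 hE c d z, q213 hE d e z]
theorem LE10_eq (hE : Sy E) (a b c d e f z : V) : LE10 E a b c d e f z = SAE E a b c d e f z + (LE11 E a b c e d f z) := by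
  unfold LE10 LE11 LS10 SAE
  simp only [Nat.add_eq, q132 hE a d e, q132 hE b d e, q132 hE c d e, q213 hE d e f, q213 hE d e z]
theorem LE11_eq (hE : Sy E) (a b c d e f z : V) : LE11 E a b c d e f z = SAE E a b c d e f z + (LE12 E a b f d e c z) := by
  unfold LE11 LE12 LS11 SAE
  simp only [Nat.add_eq, q132 hE a d f, q132 hE b d f, q132 hE a e f, q132 hE b e f, q312 hE d e f, q132 hE a c f, q132 hE b c f, q132 hE a c d, q132 hE b c d, q321 hE c d f, q132 hE a c e, q132 hE b c e, q321 hE c e f, q231 hE c d e, q213 hE c f z, q213 hE c d z, q213 hE e f z, q213 hE d f z, q213 hE c e z]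
theorem LE12_eq (hE : Sy E) (a b c d e f z : V) : LE12 E a b c d e f z = SAE E a b c d e f z + (SDE E a b c d e f z + LE13 E a b c e d f z) := by
  unfold LE12 LE13 LS12 SAE SDE
  simp only [Nat.add_eq, q132 hE a d e, q132 hE b d e, q132 hE c d e, q213 hE d e f, q213 hE d e z]
theorem LE13_eq (hE : Sy E) (a b c d e f z : V) : LE13 E a b c d e f z = SAE E a b c d e f z + (LE14 E a b c f e d z) := by
  unfold LE13 LE14 LS13 SAE
  simp only [Nat.add_eq, q132 hE a e f, q132 hE b e f, q132 hE c e f, q132 hE a d f, q132 hE b d f, q132 hE c d f, q132 hE a d e, q132 hE b d e, q132 hE c d e, q321 hE d e f, q213 hE d f z, q213 hE e f z, q213 hE d e z]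
theorem LE14_eq (hE : Sy E) (a b c d e f z : V) : LE14 E a b c d e f z = SAE E a b c d e f z + (SDE E a b c d e f z + LE15 E a b c d f e z) := by
  unfold LE14 LE15 LS14 SAE SDE
  simp only [Nat.add_eq, q132 hE a e f, q132 hE b e f, q132 hE c e f, q132 hE d e f, q213 hE e f z]
theorem LE15_eq (hE : Sy E) (a b c d e f z : V) : LE15 E a b c d e f z = SDE E a b c d e f z := rfl

theorem LE_frames (hE : Sy E) (a b c d e f z : V) : LE0 E a b c d e f z = TT E a b c d e f z + (F5 E a b c d e z f + (TT E e b c d a f z + (TT E e a c d b f z + (TT E e a b d c f z + (TT E e a b c d f z + (TT E f a b c d e z + (F5 E f a b c d z e + (TT E f d b c a e z + (TT E f d a c b e z + (TT E f d a b c e z + (TT E f e a b c d z + (F5 E f e a b c z d + (TT E f e c b a d z + (TT E f e c a b d z + (TT E f e d a b c z + (F5 E f e d a b z c + (TT E f e d b a c z + (TT E f e d c a b z + (F5 E f e d c a z b + (F5 E f e d c b z a)))))))))))))))))))) := by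
  rw [LE0_eq hE a b c d e f z, LE1_eq hE e b c d a f z, LE2_eq hE e a c d b f z, LE3_eq hE e a b d c f z, LE4_eq hE e a b c d f z, LE5_eq hE f a b c d e z, LE6_eq hE f d b c a e z, LE7_eq hE f d a c b e z, LE8_eq hE f d a b c e z, LE9_eq hE f e a b c d z, LE10_eq hE f e c b a d z, LE11_eq hE f e c a b d z, LE12_eq hE f e d a b c z, LE13_eq hE f e d b a c z, LE14_eq hE f e d c a b z, LE15_eq hE f e d c b a z]
  rw [SAE_eq hE a b c d e f z, SAE_eq hE e b c d a f z, SAE_eq hE e a c d b f z, SAE_eq hE e a b d c f z, SAE_eq hE e a b c d f z, SAE_eq hE f a b c d e z, SAE_eq hE f d b c a e z, SAE_eq hE f d a c b e z, SAE_eq hE f d a b c e z, SAE_eq hE f e a b c d z, SAE_eq hE f e c b a d z, SAE_eq hE f e c a b d z, SAE_eq hE f e d a b c z, SAE_eq hE f e d b a c z, SAE_eq hE f e d c a b z]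
  rw [SDE_eq hE a b c d e f z, SDE_eq hE f a b c d e z, SDE_eq hE f e a b c d z, SDE_eq hE f e d a b c z, SDE_eq hE f e d c a b z, SDE_eq hE f e d c b a z]

theorem TT_s0 (hC : CH) (hE : Sy E) (hK : NoK7 E) (a b c d e f z : V) : TT E b a c d e f z = TT E a b c d e f z := by
  have l0 : F5 E b a c d z e f = F5 E a b c d z e f := (F5_s0 hC hE hK a b c d z e f)
  have l1 : F3 E b a c d z e f = F3 E a b c d z e f := (F3_rs hE hK a b c d z e f)
  have l2 : F3 E d a c b z e f = F3 E a c d b z e f := ((F3_rs hE hK a d c b z e f)).trans (F3_st hE hK a c d b z e f)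
  have l3 : F3 E b d c a z e f = F3 E b c d a z e f := (F3_st hE hK b c d a z e f)
  have l4 : F3 E b a d c z e f = F3 E a b d c z e f := (F3_rs hE hK a b d c z e f)
  have l5 : F3 E e f z b a c d = F3 E e f z a b c d := (F3_xy hE hK e f z a b c d)
  have l6 : F3 E e f z b c a d = F3 E e f z a d b c := (F3_sw e f z a d b c)
  have l7 : F3 E e f z b d c a = F3 E e f z a c b d := ((F3_pq hE hK e f z b d a c)).trans (F3_sw e f z a c b d)
  have r8 : F5 E a b c d z e f = F5 E a b c d z e f := rfl
  have r9 : F3 E a b c d z e f = F3 E a b c d z e f := rfl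
  have r10 : F3 E d b c a z e f = F3 E b c d a z e f := ((F3_rs hE hK b d c a z e f)).trans (F3_st hE hK b c d a z e f)
  have r11 : F3 E a d c b z e f = F3 E a c d b z e f := (F3_st hE hK a c d b z e f)
  have r12 : F3 E a b d c z e f = F3 E a b d c z e f := rfl
  have r13 : F3 E e f z a b c d = F3 E e f z a b c d := rfl
  have r14 : F3 E e f z a c b d = F3 E e f z a c b d := rfl
  have r15 : F3 E e f z a d c b = F3 E e f z a d b c := (F3_pq hE hK e f z a d b c)
  unfold TT
  omega
theorem TT_s1 (hC : CH) (hE : Sy E) (hK : NoK7 E) (a b c d e f z : V) : TT E a c b d e f z = TT E a b c d e f z := by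
  have l0 : F5 E a c b d z e f = F5 E a b c d z e f := (F5_s1 hC hE hK a b c d z e f)
  have l1 : F3 E a c b d z e f = F3 E a b c d z e f := (F3_st hE hK a b c d z e f)
  have l2 : F3 E d c b a z e f = F3 E b c d a z e f := (((F3_rs hE hK c d b a z e f)).trans (F3_st hE hK c b d a z e f)).trans (F3_rs hE hK b c d a z e f)
  have l3 : F3 E a d b c z e f = F3 E a b d c z e f := (F3_st hE hK a b d c z e f)
  have l4 : F3 E a c d b z e f = F3 E a c d b z e f := rfl
  have l5 : F3 E e f z a c b d = F3 E e f z a c b d := rfl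
  have l6 : F3 E e f z a b c d = F3 E e f z a b c d := rfl
  have l7 : F3 E e f z a d b c = F3 E e f z a d b c := rfl
  have r8 : F5 E a b c d z e f = F5 E a b c d z e f := rfl
  have r9 : F3 E a b c d z e f = F3 E a b c d z e f := rfl
  have r10 : F3 E d b c a z e f = F3 E b c d a z e f := ((F3_rs hE hK b d c a z e f)).trans (F3_st hE hK b c d a z e f)
  have r11 : F3 E a d c b z e f = F3 E a c d b z e f := (F3_st hE hK a c d b z e f)
  have r12 : F3 E a b d c z e f = F3 E a b d c z e f := rfl
  have r13 : F3 E e f z a b c d = F3 E e f z a b c d := rfl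
  have r14 : F3 E e f z a c b d = F3 E e f z a c b d := rfl
  have r15 : F3 E e f z a d c b = F3 E e f z a d b c := (F3_pq hE hK e f z a d b c)
  unfold TT
  omega
theorem TT_s2 (hC : CH) (hE : Sy E) (hK : NoK7 E) (a b c d e f z : V) : TT E a b d c e f z = TT E a b c d e f z := by
  have l0 : F5 E a b d c z e f = F5 E a b c d z e f := (F5_s2 hC hE hK a b c d z e f)
  have l1 : F3 E a b d c z e f = F3 E a b d c z e f := rfl
  have l2 : F3 E c b d a z e f = F3 E b c d a z e f := (F3_rs hE hK b c d a z e f)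
  have l3 : F3 E a c d b z e f = F3 E a c d b z e f := rfl
  have l4 : F3 E a b c d z e f = F3 E a b c d z e f := rfl
  have l5 : F3 E e f z a b d c = F3 E e f z a b c d := (F3_pq hE hK e f z a b c d)
  have l6 : F3 E e f z a d b c = F3 E e f z a d b c := rfl
  have l7 : F3 E e f z a c d b = F3 E e f z a c b d := (F3_pq hE hK e f z a c b d)
  have r8 : F5 E a b c d z e f = F5 E a b c d z e f := rfl
  have r9 : F3 E a b c d z e f = F3 E a b c d z e f := rfl
  have r10 : F3 E d b c a z e f = F3 E b c d a z e f := ((F3_rs hE hK b d c a z e f)).trans (F3_st hE hK b c d a z e f)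
  have r11 : F3 E a d c b z e f = F3 E a c d b z e f := (F3_st hE hK a c d b z e f)
  have r12 : F3 E a b d c z e f = F3 E a b d c z e f := rfl
  have r13 : F3 E e f z a b c d = F3 E e f z a b c d := rfl
  have r14 : F3 E e f z a c b d = F3 E e f z a c b d := rfl
  have r15 : F3 E e f z a d c b = F3 E e f z a d b c := (F3_pq hE hK e f z a d b c)
  unfold TT
  omega
theorem TT_ef (hC : CH) (hE : Sy E) (hK : NoK7 E) (a b c d e f z : V) : TT E a b c d f e z = TT E a b c d e f z := by
  have l0 : F5 E a b c d z f e = F5 E a b c d z e f := (F5_xy a b c d z e f)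
  have l1 : F3 E a b c d z f e = F3 E a b c d z e f := (F3_pq hE hK a b c d z e f)
  have l2 : F3 E d b c a z f e = F3 E b c d a z e f := (((F3_rs hE hK b d c a z f e)).trans (F3_st hE hK b c d a z f e)).trans (F3_pq hE hK b c d a z e f)
  have l3 : F3 E a d c b z f e = F3 E a c d b z e f := ((F3_st hE hK a c d b z f e)).trans (F3_pq hE hK a c d b z e f)
  have l4 : F3 E a b d c z f e = F3 E a b d c z e f := (F3_pq hE hK a b d c z e f)
  have l5 : F3 E f e z a b c d = F3 E e f z a b c d := (F3_rs hE hK e f z a b c d)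
  have l6 : F3 E f e z a c b d = F3 E e f z a c b d := (F3_rs hE hK e f z a c b d)
  have l7 : F3 E f e z a d c b = F3 E e f z a d b c := ((F3_rs hE hK e f z a d c b)).trans (F3_pq hE hK e f z a d b c)
  have r8 : F5 E a b c d z e f = F5 E a b c d z e f := rfl
  have r9 : F3 E a b c d z e f = F3 E a b c d z e f := rfl
  have r10 : F3 E d b c a z e f = F3 E b c d a z e f := ((F3_rs hE hK b d c a z e f)).trans (F3_st hE hK b c d a z e f)
  have r11 : F3 E a d c b z e f = F3 E a c d b z e f := (F3_st hE hK a c d b z e f)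
  have r12 : F3 E a b d c z e f = F3 E a b d c z e f := rfl
  have r13 : F3 E e f z a b c d = F3 E e f z a b c d := rfl
  have r14 : F3 E e f z a c b d = F3 E e f z a c b d := rfl
  have r15 : F3 E e f z a d c b = F3 E e f z a d b c := (F3_pq hE hK e f z a d b c)
  unfold TT
  omega
variable (E)
/-- the leaf sum -/
def LL (a b c d e f z : V) : ℕ := TT E c d e f a b z + (TT E b d e f a c z + (TT E b c e f a d z + (TT E b c d f a e z + (TT E b c d e a f z + (TT E a d e f b c z + (TT E a c e f b d z + (TT E a c d f b e z + (TT E a c d e b f z + (TT E a b e f c d z + (TT E a b d f c e z + (TT E a b d e c f z + (TT E a b c f d e z + (TT E a b c e d f z + (TT E a b c d e f z + (F5 E b c d e f z a + (F5 E a c d e f z b + (F5 E a b d e f z c + (F5 E a b c e f z d + (F5 E a b c d f z e + (F5 E a b c d e z f))))))))))))))))))))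

variable {E}

theorem LE_LL (hC : CH) (hE : Sy E) (hK : NoK7 E) (a b c d e f z : V) : LE0 E a b c d e f z = LL E a b c d e f z := by
  have t0 : TT E e b c d a f z = TT E b c d e a f z := (((TT_s0 hC hE hK b e c d a f z)).trans (TT_s1 hC hE hK b c e d a f z)).trans (TT_s2 hC hE hK b c d e a f z)
  have t1 : TT E e a c d b f z = TT E a c d e b f z := (((TT_s0 hC hE hK a e c d b f z)).trans (TT_s1 hC hE hK a c e d b f z)).trans (TT_s2 hC hE hK a c d e b f z)
  have t2 : TT E e a b d c f z = TT E a b d e c f z := (((TT_s0 hC hE hK a e b d c f z)).trans (TT_s1 hC hE hK a b e d c f z)).trans (TT_s2 hC hE hK a b d e c f z)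
  have t3 : TT E e a b c d f z = TT E a b c e d f z := (((TT_s0 hC hE hK a e b c d f z)).trans (TT_s1 hC hE hK a b e c d f z)).trans (TT_s2 hC hE hK a b c e d f z)
  have t4 : TT E f a b c d e z = TT E a b c f d e z := (((TT_s0 hC hE hK a f b c d e z)).trans (TT_s1 hC hE hK a b f c d e z)).trans (TT_s2 hC hE hK a b c f d e z)
  have t5 : F5 E f a b c d z e = F5 E a b c d f z e := ((((F5_s0 hC hE hK a f b c d z e)).trans (F5_s1 hC hE hK a b f c d z e)).trans (F5_s2 hC hE hK a b c f d z e)).trans (F5_s3 hC hE hK a b c d f z e)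
  have t6 : TT E f d b c a e z = TT E b c d f a e z := (((((TT_s0 hC hE hK d f b c a e z)).trans (TT_s1 hC hE hK d b f c a e z)).trans (TT_s2 hC hE hK d b c f a e z)).trans (TT_s0 hC hE hK b d c f a e z)).trans (TT_s1 hC hE hK b c d f a e z)
  have t7 : TT E f d a c b e z = TT E a c d f b e z := (((((TT_s0 hC hE hK d f a c b e z)).trans (TT_s1 hC hE hK d a f c b e z)).trans (TT_s2 hC hE hK d a c f b e z)).trans (TT_s0 hC hE hK a d c f b e z)).trans (TT_s1 hC hE hK a c d f b e z)
  have t8 : TT E f d a b c e z = TT E a b d f c e z := (((((TT_s0 hC hE hK d f a b c e z)).trans (TT_s1 hC hE hK d a f b c e z)).trans (TT_s2 hC hE hK d a b f c e z)).trans (TT_s0 hC hE hK a d b f c e z)).trans (TT_s1 hC hE hK a b d f c e z)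
  have t9 : TT E f e a b c d z = TT E a b e f c d z := (((((TT_s0 hC hE hK e f a b c d z)).trans (TT_s1 hC hE hK e a f b c d z)).trans (TT_s2 hC hE hK e a b f c d z)).trans (TT_s0 hC hE hK a e b f c d z)).trans (TT_s1 hC hE hK a b e f c d z)
  have t10 : F5 E f e a b c z d = F5 E a b c e f z d := (((((((F5_s0 hC hE hK e f a b c z d)).trans (F5_s1 hC hE hK e a f b c z d)).trans (F5_s2 hC hE hK e a b f c z d)).trans (F5_s3 hC hE hK e a b c f z d)).trans (F5_s0 hC hE hK a e b c f z d)).trans (F5_s1 hC hE hK a b e c f z d)).trans (F5_s2 hC hE hK a b c e f z d)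
  have t11 : TT E f e c b a d z = TT E b c e f a d z := ((((((TT_s0 hC hE hK e f c b a d z)).trans (TT_s1 hC hE hK e c f b a d z)).trans (TT_s2 hC hE hK e c b f a d z)).trans (TT_s0 hC hE hK c e b f a d z)).trans (TT_s1 hC hE hK c b e f a d z)).trans (TT_s0 hC hE hK b c e f a d z)
  have t12 : TT E f e c a b d z = TT E a c e f b d z := ((((((TT_s0 hC hE hK e f c a b d z)).trans (TT_s1 hC hE hK e c f a b d z)).trans (TT_s2 hC hE hK e c a f b d z)).trans (TT_s0 hC hE hK c e a f b d z)).trans (TT_s1 hC hE hK c a e f b d z)).trans (TT_s0 hC hE hK a c e f b d z)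
  have t13 : TT E f e d a b c z = TT E a d e f b c z := ((((((TT_s0 hC hE hK e f d a b c z)).trans (TT_s1 hC hE hK e d f a b c z)).trans (TT_s2 hC hE hK e d a f b c z)).trans (TT_s0 hC hE hK d e a f b c z)).trans (TT_s1 hC hE hK d a e f b c z)).trans (TT_s0 hC hE hK a d e f b c z)
  have t14 : F5 E f e d a b z c = F5 E a b d e f z c := (((((((((F5_s0 hC hE hK e f d a b z c)).trans (F5_s1 hC hE hK e d f a b z c)).trans (F5_s2 hC hE hK e d a f b z c)).trans (F5_s3 hC hE hK e d a b f z c)).trans (F5_s0 hC hE hK d e a b f z c)).trans (F5_s1 hC hE hK d a e b f z c)).trans (F5_s2 hC hE hK d a b e f z c)).trans (F5_s0 hC hE hK a d b e f z c)).trans (F5_s1 hC hE hK a b d e f z c)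
  have t15 : TT E f e d b a c z = TT E b d e f a c z := ((((((TT_s0 hC hE hK e f d b a c z)).trans (TT_s1 hC hE hK e d f b a c z)).trans (TT_s2 hC hE hK e d b f a c z)).trans (TT_s0 hC hE hK d e b f a c z)).trans (TT_s1 hC hE hK d b e f a c z)).trans (TT_s0 hC hE hK b d e f a c z)
  have t16 : TT E f e d c a b z = TT E c d e f a b z := ((((((TT_s0 hC hE hK e f d c a b z)).trans (TT_s1 hC hE hK e d f c a b z)).trans (TT_s2 hC hE hK e d c f a b z)).trans (TT_s0 hC hE hK d e c f a b z)).trans (TT_s1 hC hE hK d c e f a b z)).trans (TT_s0 hC hE hK c d e f a b z)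
  have t17 : F5 E f e d c a z b = F5 E a c d e f z b := ((((((((((F5_s0 hC hE hK e f d c a z b)).trans (F5_s1 hC hE hK e d f c a z b)).trans (F5_s2 hC hE hK e d c f a z b)).trans (F5_s3 hC hE hK e d c a f z b)).trans (F5_s0 hC hE hK d e c a f z b)).trans (F5_s1 hC hE hK d c e a f z b)).trans (F5_s2 hC hE hK d c a e f z b)).trans (F5_s0 hC hE hK c d a e f z b)).trans (F5_s1 hC hE hK c a d e f z b)).trans (F5_s0 hC hE hK a c d e f z b)
  have t18 : F5 E f e d c b z a = F5 E b c d e f z a := ((((((((((F5_s0 hC hE hK e f d c b z a)).trans (F5_s1 hC hE hK e d f c b z a)).trans (F5_s2 hC hE hK e d c f b z a)).trans (F5_s3 hC hE hK e d c b f z a)).trans (F5_s0 hC hE hK d e c b f z a)).trans (F5_s1 hC hE hK d c e b f z a)).trans (F5_s2 hC hE hK d c b e f z a)).trans (F5_s0 hC hE hK c d b e f z a)).trans (F5_s1 hC hE hK c b d e f z a)).trans (F5_s0 hC hE hK b c d e f z a)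
  rw [LE_frames hE, t0, t1, t2, t3, t4, t5, t6, t7, t8, t9, t10, t11, t12, t13, t14, t15, t16, t17, t18]
  unfold LL
  ring

theorem LL_s0 (hC : CH) (hE : Sy E) (hK : NoK7 E) (a b c d e f z : V) : LL E b a c d e f z = LL E a b c d e f z := by
  have t0 : TT E c d e f b a z = TT E c d e f a b z := (TT_ef hC hE hK c d e f a b z)
  have t1 : TT E b a e f c d z = TT E a b e f c d z := (TT_s0 hC hE hK a b e f c d z)
  have t2 : TT E b a d f c e z = TT E a b d f c e z := (TT_s0 hC hE hK a b d f c e z)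
  have t3 : TT E b a d e c f z = TT E a b d e c f z := (TT_s0 hC hE hK a b d e c f z)
  have t4 : TT E b a c f d e z = TT E a b c f d e z := (TT_s0 hC hE hK a b c f d e z)
  have t5 : TT E b a c e d f z = TT E a b c e d f z := (TT_s0 hC hE hK a b c e d f z)
  have t6 : TT E b a c d e f z = TT E a b c d e f z := (TT_s0 hC hE hK a b c d e f z)
  have t7 : F5 E b a d e f z c = F5 E a b d e f z c := (F5_s0 hC hE hK a b d e f z c)
  have t8 : F5 E b a c e f z d = F5 E a b c e f z d := (F5_s0 hC hE hK a b c e f z d)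
  have t9 : F5 E b a c d f z e = F5 E a b c d f z e := (F5_s0 hC hE hK a b c d f z e)
  have t10 : F5 E b a c d e z f = F5 E a b c d e z f := (F5_s0 hC hE hK a b c d e z f)
  unfold LL
  rw [t0, t1, t2, t3, t4, t5, t6, t7, t8, t9, t10]
  ring
theorem LL_s1 (hC : CH) (hE : Sy E) (hK : NoK7 E) (a b c d e f z : V) : LL E a c b d e f z = LL E a b c d e f z := by
  have t0 : TT E c b e f a d z = TT E b c e f a d z := (TT_s0 hC hE hK b c e f a d z)
  have t1 : TT E c b d f a e z = TT E b c d f a e z := (TT_s0 hC hE hK b c d f a e z)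
  have t2 : TT E c b d e a f z = TT E b c d e a f z := (TT_s0 hC hE hK b c d e a f z)
  have t3 : TT E a d e f c b z = TT E a d e f b c z := (TT_ef hC hE hK a d e f b c z)
  have t4 : TT E a c b f d e z = TT E a b c f d e z := (TT_s1 hC hE hK a b c f d e z)
  have t5 : TT E a c b e d f z = TT E a b c e d f z := (TT_s1 hC hE hK a b c e d f z)
  have t6 : TT E a c b d e f z = TT E a b c d e f z := (TT_s1 hC hE hK a b c d e f z)
  have t7 : F5 E c b d e f z a = F5 E b c d e f z a := (F5_s0 hC hE hK b c d e f z a)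
  have t8 : F5 E a c b e f z d = F5 E a b c e f z d := (F5_s1 hC hE hK a b c e f z d)
  have t9 : F5 E a c b d f z e = F5 E a b c d f z e := (F5_s1 hC hE hK a b c d f z e)
  have t10 : F5 E a c b d e z f = F5 E a b c d e z f := (F5_s1 hC hE hK a b c d e z f)
  unfold LL
  rw [t0, t1, t2, t3, t4, t5, t6, t7, t8, t9, t10]
  ring
theorem LL_s2 (hC : CH) (hE : Sy E) (hK : NoK7 E) (a b c d e f z : V) : LL E a b d c e f z = LL E a b c d e f z := by
  have t0 : TT E d c e f a b z = TT E c d e f a b z := (TT_s0 hC hE hK c d e f a b z)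
  have t1 : TT E b d c f a e z = TT E b c d f a e z := (TT_s1 hC hE hK b c d f a e z)
  have t2 : TT E b d c e a f z = TT E b c d e a f z := (TT_s1 hC hE hK b c d e a f z)
  have t3 : TT E a d c f b e z = TT E a c d f b e z := (TT_s1 hC hE hK a c d f b e z)
  have t4 : TT E a d c e b f z = TT E a c d e b f z := (TT_s1 hC hE hK a c d e b f z)
  have t5 : TT E a b e f d c z = TT E a b e f c d z := (TT_ef hC hE hK a b e f c d z)
  have t6 : TT E a b d c e f z = TT E a b c d e f z := (TT_s2 hC hE hK a b c d e f z)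
  have t7 : F5 E b d c e f z a = F5 E b c d e f z a := (F5_s1 hC hE hK b c d e f z a)
  have t8 : F5 E a d c e f z b = F5 E a c d e f z b := (F5_s1 hC hE hK a c d e f z b)
  have t9 : F5 E a b d c f z e = F5 E a b c d f z e := (F5_s2 hC hE hK a b c d f z e)
  have t10 : F5 E a b d c e z f = F5 E a b c d e z f := (F5_s2 hC hE hK a b c d e z f)
  unfold LL
  rw [t0, t1, t2, t3, t4, t5, t6, t7, t8, t9, t10]
  ring
theorem LL_s3 (hC : CH) (hE : Sy E) (hK : NoK7 E) (a b c d e f z : V) : LL E a b c e d f z = LL E a b c d e f z := by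
  have t0 : TT E c e d f a b z = TT E c d e f a b z := (TT_s1 hC hE hK c d e f a b z)
  have t1 : TT E b e d f a c z = TT E b d e f a c z := (TT_s1 hC hE hK b d e f a c z)
  have t2 : TT E b c e d a f z = TT E b c d e a f z := (TT_s2 hC hE hK b c d e a f z)
  have t3 : TT E a e d f b c z = TT E a d e f b c z := (TT_s1 hC hE hK a d e f b c z)
  have t4 : TT E a c e d b f z = TT E a c d e b f z := (TT_s2 hC hE hK a c d e b f z)
  have t5 : TT E a b e d c f z = TT E a b d e c f z := (TT_s2 hC hE hK a b d e c f z)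
  have t6 : TT E a b c f e d z = TT E a b c f d e z := (TT_ef hC hE hK a b c f d e z)
  have t7 : F5 E b c e d f z a = F5 E b c d e f z a := (F5_s2 hC hE hK b c d e f z a)
  have t8 : F5 E a c e d f z b = F5 E a c d e f z b := (F5_s2 hC hE hK a c d e f z b)
  have t9 : F5 E a b e d f z c = F5 E a b d e f z c := (F5_s2 hC hE hK a b d e f z c)
  have t10 : F5 E a b c e d z f = F5 E a b c d e z f := (F5_s3 hC hE hK a b c d e z f)
  unfold LL
  rw [t0, t1, t2, t3, t4, t5, t6, t7, t8, t9, t10]
  ring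
theorem LL_s4 (hC : CH) (hE : Sy E) (hK : NoK7 E) (a b c d e f z : V) : LL E a b c d f e z = LL E a b c d e f z := by
  have t0 : TT E c d f e a b z = TT E c d e f a b z := (TT_s2 hC hE hK c d e f a b z)
  have t1 : TT E b d f e a c z = TT E b d e f a c z := (TT_s2 hC hE hK b d e f a c z)
  have t2 : TT E b c f e a d z = TT E b c e f a d z := (TT_s2 hC hE hK b c e f a d z)
  have t3 : TT E a d f e b c z = TT E a d e f b c z := (TT_s2 hC hE hK a d e f b c z)
  have t4 : TT E a c f e b d z = TT E a c e f b d z := (TT_s2 hC hE hK a c e f b d z)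
  have t5 : TT E a b f e c d z = TT E a b e f c d z := (TT_s2 hC hE hK a b e f c d z)
  have t6 : TT E a b c d f e z = TT E a b c d e f z := (TT_ef hC hE hK a b c d e f z)
  have t7 : F5 E b c d f e z a = F5 E b c d e f z a := (F5_s3 hC hE hK b c d e f z a)
  have t8 : F5 E a c d f e z b = F5 E a c d e f z b := (F5_s3 hC hE hK a c d e f z b)
  have t9 : F5 E a b d f e z c = F5 E a b d e f z c := (F5_s3 hC hE hK a b d e f z c)
  have t10 : F5 E a b c f e z d = F5 E a b c e f z d := (F5_s3 hC hE hK a b c e f z d)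
  unfold LL
  rw [t0, t1, t2, t3, t4, t5, t6, t7, t8, t9, t10]
  ring

end

end

end Pool.Agent.U620.K7F
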