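import Pool.Agent.U620.K7F.Inv

set_option autoImplicit false
set_option maxRecDepth 100000
set_option maxHeartbeats 4000000

namespace Pool.Agent.U620.K7F
open Pool.Agent.Y435.T7

def i0 : chkR 0 16 = true := by decide +kernel
def i16 : chkR 16 16 = true := by decide +kernel
def i32 : chkR 32 16 = true := by decide +kernel
def i48 : chkR 48 16 = true := by decide +kernel

end Pool.Agent.U620.K7F
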