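import Pool.Agent.U620.K7F.Inv

/-! Consequences of the checks of the tables. -/

set_option autoImplicit false
set_option linter.unusedVariables false
set_option maxRecDepth 100000
set_option maxHeartbeats 4000000
set_option exponentiation.threshold 700000
open Finset
open Pool.Agent.H122R2.N6 (Bt)

namespace Pool.Agent.U620.K7F
open Pool.Agent.Y435.T7

noncomputable section

theorem onv_eq (n : ℕ) : onv n = enc 640 n (fun _ => 1) := by
  induction n with
  | zero => rw [enc_zero]; rfl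
  | succ n ih => rw [enc_const_succ, ← ih]; rfl

theorem afv_eq (c : ℕ) (w : ℕ → ℕ) (n : ℕ) : afv c w n = enc 640 n (fun i => c + ∑ j ∈ range n, bt j i * w j) := by
  induction n with
  | zero => rw [enc_zero]; simp [afv]
  | succ n ih =>
    have e : afv c w (n + 1) = Nat.add (afv c w n) (Nat.shiftLeft (Nat.add (afv c w n) (Nat.mul (w n) (onv n))) (640 * 2 ^ n)) := rfl
    rw [e, add_shl, ih, onv_eq, enc_succ]
    congr 1
    · refine enc_congr fun i hi => ?_
      rw [sum_range_succ, bt_lt hi, zero_mul, add_zero]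
    · congr 1
      show _ + w n * _ = _
      rw [mul_comm (w n), enc_mulc, enc_add]
      refine enc_congr fun i hi => ?_
      rw [sum_range_succ, bt_add_self hi, one_mul, ← add_assoc]
      congr 2
      refine sum_congr rfl fun j hj => ?_
      rw [bt_add (mem_range.mp hj)]

theorem beq_false {a b : ℕ} (h : a ≠ b) : Nat.beq a b = false := by
  rw [← Bool.not_eq_true]; exact fun hh => h (Nat.eq_of_beq_eq_true hh)

theorem enc_lor {s : ℕ} (hs : 0 < s) {n : ℕ} {f g : ℕ → ℕ} (hf : ∀ i < 2 ^ n, f i < 2 ^ s)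
    (hg : ∀ i < 2 ^ n, g i < 2 ^ s) :
    Nat.lor (enc s n f) (enc s n g) = enc s n (fun i => Nat.lor (f i) (g i)) := by
  refine Nat.eq_of_testBit_eq fun t => ?_
  have hfg : ∀ i < 2 ^ n, (fun i => Nat.lor (f i) (g i)) i < 2 ^ s := fun i hi =>
    Nat.or_lt_two_pow (hf i hi) (hg i hi)
  rw [enc_testBit hs hfg]
  show (enc s n f ||| enc s n g).testBit t = (_ && (f (t / s) ||| g (t / s)).testBit (t % s))
  rw [Nat.testBit_or, Nat.testBit_or, enc_testBit hs hf, enc_testBit hs hg]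
  cases decide (t / s < 2 ^ n) <;> simp

/-- coordinate `k` of the record of a flag -/
def ec (m f k : ℕ) : ℕ := fld 40 (rc m f) k

theorem kN_DV {m : ℕ} (hm : m < 1024) {k : ℕ} (hk : k < 16) : kN (DV m) (40 * k) = enc 640 10 (fun f => ec m f k) := by
  rw [DV_eq hm, kN_eq (fun i _ => rc_lt m i) hk]
  rfl

theorem ec_lt (m f k : ℕ) : ec m f k < 2 ^ 40 := fld_lt _ _ _

/-- the affine weight -/
def Gw (m f : ℕ) : ℕ := (600847188 + 362000 * pop m) + ∑ j ∈ range 10, bt j f * wj m j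

theorem GV_eq (m : ℕ) : GV m = enc 640 10 (Gw m) := afv_eq _ _ 10

theorem pop_le (m : ℕ) : pop m ≤ 10 := by
  have h : ∀ k, bt k m ≤ 1 := fun k => by rcases bt01 k m with h | h <;> omega
  have := h 0; have := h 1; have := h 2; have := h 3; have := h 4
  have := h 5; have := h 6; have := h 7; have := h 8; have := h 9
  unfold pop
  simp only [Nat.add_eq]
  omega

theorem Gw_lt (m f : ℕ) : Gw m f < 2 ^ 40 := by
  unfold Gw
  have h1 := pop_le m
  have h2 : ∑ j ∈ range 10, bt j f * wj m j ≤ ∑ _j ∈ range 10, 1 * 383132 := by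
    refine sum_le_sum fun j _ => Nat.mul_le_mul ?_ ?_
    · rcases bt01 j f with h | h <;> omega
    · unfold wj
      simp only [Nat.add_eq, Nat.mul_eq]
      rcases bt01 (cj j) m with h | h <;> omega
  rw [sum_const, card_range, smul_eq_mul] at h2
  norm_num at h2 ⊢
  omega

theorem sume_eq {m : ℕ} (hm : m < 1024) : sume (DV m) = enc 640 10 (fun f => ∑ k ∈ range 12, ec m f k) := by
  have key : sume (DV m) = kN (DV m) (40 * 0) + (kN (DV m) (40 * 1) + (kN (DV m) (40 * 2) + (kN (DV m) (40 * 3)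
      + (kN (DV m) (40 * 4) + (kN (DV m) (40 * 5) + (kN (DV m) (40 * 6) + (kN (DV m) (40 * 7) + (kN (DV m) (40 * 8)
      + (kN (DV m) (40 * 9) + (kN (DV m) (40 * 10) + kN (DV m) (40 * 11))))))))))) := rfl
  rw [key, kN_DV hm (by norm_num), kN_DV hm (by norm_num), kN_DV hm (by norm_num), kN_DV hm (by norm_num),
    kN_DV hm (by norm_num), kN_DV hm (by norm_num), kN_DV hm (by norm_num), kN_DV hm (by norm_num),
    kN_DV hm (by norm_num), kN_DV hm (by norm_num), kN_DV hm (by norm_num), kN_DV hm (by norm_num)]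
  simp only [enc_add]
  refine enc_congr fun i _ => ?_
  simp only [sum_range_succ, sum_range_zero]
  ring

theorem pow640 {x : ℕ} (h : x < 2 ^ 80) : x < 2 ^ 640 := lt_of_lt_of_le h (Nat.pow_le_pow_right (by norm_num) (by norm_num))

theorem enc_inj10 {f g : ℕ → ℕ} (hf : ∀ i, f i < 2 ^ 640) (hg : ∀ i, g i < 2 ^ 640) (h : enc 640 10 f = enc 640 10 g) {i : ℕ}
    (hi : i < 1024) : f i = g i := by
  have h1024 : (1024 : ℕ) = 2 ^ 10 := by norm_num
  rw [h1024] at hi
  exact enc_inj (by norm_num) (fun i _ => hf i) (fun i _ => hg i) h hi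

theorem aux_w {a b : ℕ} (ha : a < 2 ^ 40) (hb : b ≤ 12 * 2 ^ 40) : a + b * 6912 < 2 ^ 80 := by
  have e40 : (2 : ℕ) ^ 40 = 1099511627776 := by norm_num
  have e80 : (2 : ℕ) ^ 80 = 1208925819614629174706176 := by norm_num
  rw [e40] at ha hb
  rw [e80]
  omega

theorem wid_spec {m : ℕ} (hm : m < 1024) (h : wid m (DV m) = true) {f : ℕ} (hf : f < 1024) :
    ec m f 12 + (∑ k ∈ range 12, ec m f k) * 6912 = Nat.land (ec m f 13 * (2 ^ 40 - 1)) (Gw m f) := by
  unfold wid at h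
  have h1 := Nat.eq_of_beq_eq_true h
  have e1 : kN (DV m) 480 = enc 640 10 (fun f => ec m f 12) := kN_DV (k := 12) hm (by norm_num)
  have e2 : kN (DV m) 520 = enc 640 10 (fun f => ec m f 13) := kN_DV (k := 13) hm (by norm_num)
  have hv : ∀ f, ec m f 13 * (2 ^ 40 - 1) < 2 ^ 640 := fun f => pow640 (by
    have := ec_lt m f 13
    calc ec m f 13 * (2 ^ 40 - 1) < 2 ^ 40 * 2 ^ 40 := by
          apply Nat.mul_lt_mul_of_lt_of_le this (Nat.sub_le _ _) (by norm_num)
      _ = 2 ^ 80 := by norm_num)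
  rw [e1, e2, sume_eq hm, ON40_eq, GV_eq] at h1
  simp only [Nat.add_eq, Nat.mul_eq] at h1
  rw [enc_mulc, enc_mulc, enc_add, enc_land (by norm_num) (fun f _ => hv f) (fun f _ => pow640 (lt_trans (Gw_lt m f) (by norm_num)))] at h1
  refine enc_inj10 (f := fun f => ec m f 12 + (∑ k ∈ range 12, ec m f k) * 6912)
    (g := fun f => Nat.land (ec m f 13 * (2 ^ 40 - 1)) (Gw m f)) ?_ ?_ h1 hf
  · intro i
    refine pow640 (aux_w (ec_lt m i 12) ?_)
    have h4 : ∑ k ∈ range 12, ec m i k ≤ ∑ _k ∈ range 12, 2 ^ 40 := sum_le_sum fun k _ => (ec_lt m i k).le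
    rwa [sum_const, card_range, smul_eq_mul] at h4
  · intro i
    exact lt_of_le_of_lt Nat.and_le_left (hv i)

theorem lor_lt {a b : ℕ} (ha : a < 2 ^ 640) (hb : b < 2 ^ 640) : Nat.lor a b < 2 ^ 640 := Nat.or_lt_two_pow ha hb

/-- no structure on six vertices is excluded -/
def badf (_ _ : ℕ) : ℕ := 0

theorem bad_eq (m : ℕ) : bad m = enc 640 10 (badf m) := by
  unfold bad badf enc
  simp

theorem badf_lt (m f : ℕ) : badf m f < 2 ^ 640 := by
  unfold badf
  positivity

theorem ec_lt' (m f k : ℕ) : ec m f k < 2 ^ 640 := pow640 (lt_trans (ec_lt m f k) (by norm_num))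

theorem vld_spec {m : ℕ} (hm : m < 1024) (h : vld m (DV m) = true) {f : ℕ} (hf : f < 1024) (hb : badf m f = 0) :
    ec m f 13 = 1 := by
  unfold vld at h
  have h1 := Nat.eq_of_beq_eq_true h
  have e2 : kN (DV m) 520 = enc 640 10 (fun f => ec m f 13) := kN_DV (k := 13) hm (by norm_num)
  rw [e2, bad_eq, OS1024_eq, enc_lor (by norm_num) (fun i _ => ec_lt' m i 13) (fun i _ => badf_lt m i)] at h1
  have h2 := enc_inj10 (f := fun i => Nat.lor (ec m i 13) (badf m i)) (g := fun _ => 1)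
    (fun i => lor_lt (ec_lt' m i 13) (badf_lt m i)) (fun _ => by norm_num) h1 hf
  simp only [hb] at h2
  exact (Nat.or_zero _).symm.trans h2

/-- one coordinate is preserved or reversed -/
def Rk (m m' : ℕ) (g : ℕ → ℕ) (j k : ℕ) : Prop :=
  (∀ f < 1024, ec m f j = ec m' (g f) k) ∨ (∀ f < 1024, ec m f j + ec m' (g f) k = ec m f 13 * 13824)

/-- three coordinates are preserved up to order and signs -/
def R3 (m m' : ℕ) (g : ℕ → ℕ) (a b c : ℕ) : Prop :=
  (Rk m m' g a a ∧ Rk m m' g b b ∧ Rk m m' g c c) ∨ (Rk m m' g a b ∧ Rk m m' g b a ∧ Rk m m' g c c) ∨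
  (Rk m m' g a a ∧ Rk m m' g b c ∧ Rk m m' g c b) ∨ (Rk m m' g a c ∧ Rk m m' g b b ∧ Rk m m' g c a) ∨
  (Rk m m' g a b ∧ Rk m m' g b c ∧ Rk m m' g c a) ∨ (Rk m m' g a c ∧ Rk m m' g b a ∧ Rk m m' g c b)

def RS (m m' : ℕ) (g : ℕ → ℕ) : Prop := R3 m m' g 0 1 2 ∧ R3 m m' g 3 4 5 ∧ R3 m m' g 6 7 8 ∧ R3 m m' g 9 10 11

theorem aux_a {a b : ℕ} (ha : a < 2 ^ 40) (hb : b < 2 ^ 40) : a + b < 2 ^ 80 := by
  have e40 : (2 : ℕ) ^ 40 = 1099511627776 := by norm_num
  have e80 : (2 : ℕ) ^ 80 = 1208925819614629174706176 := by norm_num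
  rw [e40] at ha hb
  rw [e80]
  omega

theorem aux_b {a : ℕ} (ha : a < 2 ^ 40) : a * 13824 < 2 ^ 80 := by
  have e40 : (2 : ℕ) ^ 40 = 1099511627776 := by norm_num
  have e80 : (2 : ℕ) ^ 80 = 1208925819614629174706176 := by norm_num
  rw [e40] at ha
  rw [e80]
  omega

theorem cnd_false' {α : Type} (x y : α) : cnd false x y = y := rfl

theorem inv1_spec {m m' : ℕ} (hm : m < 1024) {g : ℕ → ℕ} {y : ℕ} (hy : y = enc 640 10 (fun f => rc m' (g f))) {j k : ℕ}
    (hj : j < 12) (hk : k < 12) (h : inv1 (DV m) y (40 * j) (40 * k) = true) : Rk m m' g j k := by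
  have e2 : kN (DV m) 520 = enc 640 10 (fun f => ec m f 13) := kN_DV (k := 13) hm (by norm_num)
  have ex := kN_DV (k := j) hm (by omega)
  have ey : kN y (40 * k) = enc 640 10 (fun f => ec m' (g f) k) := by
    rw [hy, kN_eq (fun i _ => rc_lt _ _) (by omega)]; rfl
  unfold inv1 at h
  rw [ex, ey, e2] at h
  cases hb : Nat.beq (enc 640 10 (fun f => ec m f j)) (enc 640 10 (fun f => ec m' (g f) k)) with
  | true =>
    left
    intro f hf
    exact enc_inj10 (f := fun f => ec m f j) (g := fun f => ec m' (g f) k) (fun i => ec_lt' _ _ _) (fun i => ec_lt' _ _ _)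
      (Nat.eq_of_beq_eq_true hb) hf
  | false =>
    right
    intro f hf
    rw [hb] at h
    rw [cnd_false'] at h
    have h1 := Nat.eq_of_beq_eq_true h
    simp only [Nat.add_eq, Nat.mul_eq] at h1
    rw [enc_add, enc_mulc] at h1
    exact enc_inj10 (f := fun f => ec m f j + ec m' (g f) k) (g := fun f => ec m f 13 * 13824)
      (fun i => pow640 (aux_a (ec_lt _ _ _) (ec_lt _ _ _))) (fun i => pow640 (aux_b (ec_lt _ _ _))) h1 hf

theorem ivp_spec {m m' : ℕ} (hm : m < 1024) {g : ℕ → ℕ} {y : ℕ} (hy : y = enc 640 10 (fun f => rc m' (g f)))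
    {a b c a' b' c' : ℕ} (ha : a < 12) (hb : b < 12) (hc : c < 12) (ha' : a' < 12) (hb' : b' < 12) (hc' : c' < 12)
    (h : ivp (DV m) y (40 * a) (40 * b) (40 * c) (40 * a') (40 * b') (40 * c') = true) :
    Rk m m' g a a' ∧ Rk m m' g b b' ∧ Rk m m' g c c' := by
  unfold ivp at h
  obtain ⟨h1, h⟩ := cnd_and h
  obtain ⟨h2, h3⟩ := cnd_and h
  exact ⟨inv1_spec hm hy ha ha' h1, inv1_spec hm hy hb hb' h2, inv1_spec hm hy hc hc' h3⟩

theorem cnd_or' {c x : Bool} (h : cnd c true x = true) : c = true ∨ x = true := by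
  cases c
  · exact Or.inr h
  · exact Or.inl rfl

theorem inv3_spec {m m' : ℕ} (hm : m < 1024) {g : ℕ → ℕ} {y : ℕ} (hy : y = enc 640 10 (fun f => rc m' (g f)))
    {a b c : ℕ} (ha : a < 12) (hb : b < 12) (hc : c < 12)
    (h : inv3 (DV m) y (40 * a) (40 * b) (40 * c) = true) : R3 m m' g a b c := by
  unfold inv3 at h
  rcases cnd_or' h with h | h
  · exact Or.inl (ivp_spec hm hy ha hb hc ha hb hc h)
  rcases cnd_or' h with h | h
  · exact Or.inr (Or.inl (ivp_spec hm hy ha hb hc hb ha hc h))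
  rcases cnd_or' h with h | h
  · exact Or.inr (Or.inr (Or.inl (ivp_spec hm hy ha hb hc ha hc hb h)))
  rcases cnd_or' h with h | h
  · exact Or.inr (Or.inr (Or.inr (Or.inl (ivp_spec hm hy ha hb hc hc hb ha h))))
  rcases cnd_or' h with h | h
  · exact Or.inr (Or.inr (Or.inr (Or.inr (Or.inl (ivp_spec hm hy ha hb hc hb hc ha h)))))
  · exact Or.inr (Or.inr (Or.inr (Or.inr (Or.inr (ivp_spec hm hy ha hb hc hc ha hb h)))))

theorem inv_spec {m m' : ℕ} (hm : m < 1024) {g : ℕ → ℕ} {y : ℕ} (hy : y = enc 640 10 (fun f => rc m' (g f)))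
    (h : inv (DV m) y = true) : RS m m' g := by
  unfold inv at h
  obtain ⟨h1, h⟩ := cnd_and h
  obtain ⟨h2, h⟩ := cnd_and h
  obtain ⟨h3, h4⟩ := cnd_and h
  exact ⟨inv3_spec hm hy (a := 0) (b := 1) (c := 2) (by norm_num) (by norm_num) (by norm_num) h1,
    inv3_spec hm hy (a := 3) (b := 4) (c := 5) (by norm_num) (by norm_num) (by norm_num) h2,
    inv3_spec hm hy (a := 6) (b := 7) (c := 8) (by norm_num) (by norm_num) (by norm_num) h3,
    inv3_spec hm hy (a := 9) (b := 10) (c := 11) (by norm_num) (by norm_num) (by norm_num) h4⟩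

end

end Pool.Agent.U620.K7F
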