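import Pool.Agent.U620.K7F.Msk

set_option autoImplicit false
set_option maxRecDepth 100000
set_option maxHeartbeats 4000000

namespace Pool.Agent.U620.K7F
open Pool.Agent.Y435.T7

def k0_0 : chB 0 rq0 0 1 = true := by decide +kernel
def k0_1 : chB 0 rq0 1 1023 = true := by decide +kernel
def k1_0 : chB 1 rq1 0 1024 = true := by decide +kernel
def k3_0 : chB 3 rq3 0 1 = true := by decide +kernel
def k3_1 : chB 3 rq3 1 64 = true := by decide +kernel
def k3_65 : chB 3 rq3 65 192 = true := by decide +kernel
def k3_257 : chB 3 rq3 257 767 = true := by decide +kernel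
def k7_0 : chB 7 rq7 0 1 = true := by decide +kernel
def k7_1 : chB 7 rq7 1 64 = true := by decide +kernel
def k7_65 : chB 7 rq7 65 64 = true := by decide +kernel
def k7_129 : chB 7 rq7 129 64 = true := by decide +kernel
def k7_193 : chB 7 rq7 193 192 = true := by decide +kernel
def k7_385 : chB 7 rq7 385 639 = true := by decide +kernel
def k15_0 : chB 15 rq15 0 1 = true := by decide +kernel
def k15_1 : chB 15 rq15 1 64 = true := by decide +kernel
def k15_65 : chB 15 rq15 65 128 = true := by decide +kernel

end Pool.Agent.U620.K7F
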