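import Pool.Agent.U620.K7F.Msk

set_option autoImplicit false
set_option maxRecDepth 100000
set_option maxHeartbeats 4000000

namespace Pool.Agent.U620.K7F
open Pool.Agent.Y435.T7

def k63_582 : chB 63 rq63 582 3 = true := by decide +kernel
def k63_585 : chB 63 rq63 585 4 = true := by decide +kernel
def k63_589 : chB 63 rq63 589 4 = true := by decide +kernel
def k63_593 : chB 63 rq63 593 2 = true := by decide +kernel
def k63_595 : chB 63 rq63 595 2 = true := by decide +kernel
def k63_597 : chB 63 rq63 597 28 = true := by decide +kernel
def k63_625 : chB 63 rq63 625 16 = true := by decide +kernel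
def k63_641 : chB 63 rq63 641 1 = true := by decide +kernel
def k63_642 : chB 63 rq63 642 1 = true := by decide +kernel
def k63_643 : chB 63 rq63 643 1 = true := by decide +kernel
def k63_644 : chB 63 rq63 644 1 = true := by decide +kernel
def k63_645 : chB 63 rq63 645 2 = true := by decide +kernel
def k63_647 : chB 63 rq63 647 2 = true := by decide +kernel
def k63_649 : chB 63 rq63 649 2 = true := by decide +kernel
def k63_651 : chB 63 rq63 651 2 = true := by decide +kernel
def k63_653 : chB 63 rq63 653 4 = true := by decide +kernel

end Pool.Agent.U620.K7F
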