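import Pool.Agent.U620.K7F.Msk

set_option autoImplicit false
set_option maxRecDepth 100000
set_option maxHeartbeats 4000000

namespace Pool.Agent.U620.K7F
open Pool.Agent.Y435.T7

def k185_163 : chB 185 rq185 163 6 = true := by decide +kernel
def k185_169 : chB 185 rq185 169 8 = true := by decide +kernel
def k185_177 : chB 185 rq185 177 8 = true := by decide +kernel
def k185_185 : chB 185 rq185 185 328 = true := by decide +kernel
def k185_513 : chB 185 rq185 513 1 = true := by decide +kernel
def k185_514 : chB 185 rq185 514 3 = true := by decide +kernel
def k185_517 : chB 185 rq185 517 4 = true := by decide +kernel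
def k185_521 : chB 185 rq185 521 4 = true := by decide +kernel
def k185_525 : chB 185 rq185 525 4 = true := by decide +kernel
def k185_529 : chB 185 rq185 529 1 = true := by decide +kernel
def k185_530 : chB 185 rq185 530 1 = true := by decide +kernel
def k185_531 : chB 185 rq185 531 2 = true := by decide +kernel
def k185_533 : chB 185 rq185 533 8 = true := by decide +kernel
def k185_541 : chB 185 rq185 541 20 = true := by decide +kernel
def k185_561 : chB 185 rq185 561 16 = true := by decide +kernel
def k185_577 : chB 185 rq185 577 4 = true := by decide +kernel

end Pool.Agent.U620.K7F
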