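import Pool.Agent.U620.K7F.Msk

set_option autoImplicit false
set_option maxRecDepth 100000
set_option maxHeartbeats 4000000

namespace Pool.Agent.U620.K7F
open Pool.Agent.Y435.T7

def k191_396 : chB 191 rq191 396 1 = true := by decide +kernel
def k191_397 : chB 191 rq191 397 1 = true := by decide +kernel
def k191_398 : chB 191 rq191 398 3 = true := by decide +kernel
def k191_401 : chB 191 rq191 401 1 = true := by decide +kernel
def k191_402 : chB 191 rq191 402 1 = true := by decide +kernel
def k191_403 : chB 191 rq191 403 1 = true := by decide +kernel
def k191_404 : chB 191 rq191 404 1 = true := by decide +kernel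
def k191_405 : chB 191 rq191 405 2 = true := by decide +kernel
def k191_407 : chB 191 rq191 407 2 = true := by decide +kernel
def k191_409 : chB 191 rq191 409 2 = true := by decide +kernel
def k191_411 : chB 191 rq191 411 2 = true := by decide +kernel
def k191_413 : chB 191 rq191 413 20 = true := by decide +kernel
def k191_433 : chB 191 rq191 433 1 = true := by decide +kernel
def k191_434 : chB 191 rq191 434 7 = true := by decide +kernel
def k191_441 : chB 191 rq191 441 8 = true := by decide +kernel
def k191_449 : chB 191 rq191 449 1 = true := by decide +kernel

end Pool.Agent.U620.K7F
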