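import Pool.Agent.U620.K7F.Msk

set_option autoImplicit false
set_option maxRecDepth 100000
set_option maxHeartbeats 4000000

namespace Pool.Agent.U620.K7F
open Pool.Agent.Y435.T7

def k223_83 : chB 223 rq223 83 1 = true := by decide +kernel
def k223_84 : chB 223 rq223 84 1 = true := by decide +kernel
def k223_85 : chB 223 rq223 85 2 = true := by decide +kernel
def k223_87 : chB 223 rq223 87 2 = true := by decide +kernel
def k223_89 : chB 223 rq223 89 2 = true := by decide +kernel
def k223_91 : chB 223 rq223 91 2 = true := by decide +kernel
def k223_93 : chB 223 rq223 93 4 = true := by decide +kernel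
def k223_97 : chB 223 rq223 97 1 = true := by decide +kernel
def k223_98 : chB 223 rq223 98 1 = true := by decide +kernel
def k223_99 : chB 223 rq223 99 2 = true := by decide +kernel
def k223_101 : chB 223 rq223 101 1 = true := by decide +kernel
def k223_102 : chB 223 rq223 102 3 = true := by decide +kernel
def k223_105 : chB 223 rq223 105 1 = true := by decide +kernel
def k223_106 : chB 223 rq223 106 3 = true := by decide +kernel
def k223_109 : chB 223 rq223 109 4 = true := by decide +kernel
def k223_113 : chB 223 rq223 113 1 = true := by decide +kernel

end Pool.Agent.U620.K7F
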