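import Pool.Agent.U620.K7F.Msk

set_option autoImplicit false
set_option maxRecDepth 100000
set_option maxHeartbeats 4000000

namespace Pool.Agent.U620.K7F
open Pool.Agent.Y435.T7

def k255_590 : chB 255 rq255 590 2 = true := by decide +kernel
def k255_592 : chB 255 rq255 592 1 = true := by decide +kernel
def k255_593 : chB 255 rq255 593 1 = true := by decide +kernel
def k255_594 : chB 255 rq255 594 1 = true := by decide +kernel
def k255_595 : chB 255 rq255 595 1 = true := by decide +kernel
def k255_596 : chB 255 rq255 596 1 = true := by decide +kernel
def k255_597 : chB 255 rq255 597 1 = true := by decide +kernel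
def k255_598 : chB 255 rq255 598 1 = true := by decide +kernel
def k255_599 : chB 255 rq255 599 1 = true := by decide +kernel
def k255_600 : chB 255 rq255 600 1 = true := by decide +kernel
def k255_601 : chB 255 rq255 601 1 = true := by decide +kernel
def k255_602 : chB 255 rq255 602 1 = true := by decide +kernel
def k255_603 : chB 255 rq255 603 2 = true := by decide +kernel
def k255_605 : chB 255 rq255 605 2 = true := by decide +kernel
def k255_607 : chB 255 rq255 607 18 = true := by decide +kernel
def k255_625 : chB 255 rq255 625 1 = true := by decide +kernel

end Pool.Agent.U620.K7F
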