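import Pool.Agent.U620.K7F.Msk

set_option autoImplicit false
set_option maxRecDepth 100000
set_option maxHeartbeats 4000000

namespace Pool.Agent.U620.K7F
open Pool.Agent.Y435.T7

def k511_228 : chB 511 rq511 228 3 = true := by decide +kernel
def k511_231 : chB 511 rq511 231 1 = true := by decide +kernel
def k511_232 : chB 511 rq511 232 3 = true := by decide +kernel
def k511_235 : chB 511 rq511 235 1 = true := by decide +kernel
def k511_236 : chB 511 rq511 236 1 = true := by decide +kernel
def k511_237 : chB 511 rq511 237 1 = true := by decide +kernel
def k511_238 : chB 511 rq511 238 1 = true := by decide +kernel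
def k511_239 : chB 511 rq511 239 1 = true := by decide +kernel
def k511_240 : chB 511 rq511 240 15 = true := by decide +kernel
def k511_255 : chB 511 rq511 255 34 = true := by decide +kernel
def k511_289 : chB 511 rq511 289 1 = true := by decide +kernel
def k511_290 : chB 511 rq511 290 1 = true := by decide +kernel
def k511_291 : chB 511 rq511 291 1 = true := by decide +kernel
def k511_292 : chB 511 rq511 292 3 = true := by decide +kernel
def k511_295 : chB 511 rq511 295 1 = true := by decide +kernel
def k511_296 : chB 511 rq511 296 1 = true := by decide +kernel

end Pool.Agent.U620.K7F
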