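import Pool.Agent.U620.K7F.Chain

/-! The extensions of the complete structure on six vertices. -/

set_option autoImplicit false
set_option linter.unusedVariables false
set_option maxRecDepth 100000
set_option maxHeartbeats 4000000
set_option exponentiation.threshold 700000
open Finset
open Pool.Agent.H122R2.N6 (Bt)

namespace Pool.Agent.U620.K7F
open Pool.Agent.Y435.T7

noncomputable section

/-- all lanes except for the last one -/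
def TVL : ℕ := Nat.sub TV (Nat.shiftLeft 549755813888 (Nat.mul 40 32767))
/-- the check at the extensions of a structure on six vertices, except for the last one -/
def chkV (b012 b013 b023 b123 b014 b024 b124 b034 b134 b234 b015 b025 b125 b035 b135 b235 b045 b145 b245 b345 : ℕ) : Bool := Nat.beq (Nat.land (Nat.add (ch0 b012 b013 b023 b123 b014 b024 b124 b034 b134 b234 b015 b025 b125 b035 b135 b235 b045 b145 b245 b345) CV) TVL) 0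

def gl (i : ℕ) : ℕ := if i = 32767 then 0 else 549755813888

theorem gl_lt (i : ℕ) : gl i < 2 ^ 40 := by unfold gl; split_ifs <;> norm_num

theorem enc_last {s n m c x : ℕ} (hm : 2 ^ n = m + 1) (hx : x = enc s n (fun _ => c)) :
    Nat.sub x (Nat.shiftLeft c (Nat.mul s m)) = enc s n (fun i => if i = m then 0 else c) := by
  have h1 : Nat.shiftLeft c (Nat.mul s m) = c * 2 ^ (s * m) := Nat.shiftLeft_eq _ _
  rw [h1, hx]
  change enc s n (fun _ => c) - c * 2 ^ (s * m) = _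
  unfold enc
  rw [hm, sum_range_succ, sum_range_succ, Nat.add_sub_cancel]
  beta_reduce
  have hz : (if m = m then 0 else c) = 0 := if_pos rfl
  rw [hz, zero_mul, add_zero]
  exact sum_congr rfl fun i hi => by
    have hi' : i ≠ m := by have := mem_range.mp hi; omega
    have hz : (if i = m then 0 else c) = c := if_neg hi'
    rw [hz]

theorem h15 : (2 : ℕ) ^ 15 = 32767 + 1 := by norm_num
theorem TV_eq : TV = enc 40 15 (fun _ => 549755813888) := (dbl15 _).symm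
theorem TVL_eq : TVL = enc 40 15 gl := enc_last (s := 40) (n := 15) (m := 32767) (c := 549755813888) (x := TV) h15 TV_eq

theorem B1 : Bt 1 := Or.inr rfl

theorem c15_ne {x0 x1 x2 x3 x4 x5 x6 x7 x8 x9 x10 x11 x12 x13 x14 : ℕ} (y0 : Bt x0) (y1 : Bt x1) (y2 : Bt x2) (y3 : Bt x3) (y4 : Bt x4) (y5 : Bt x5) (y6 : Bt x6) (y7 : Bt x7) (y8 : Bt x8) (y9 : Bt x9) (y10 : Bt x10) (y11 : Bt x11) (y12 : Bt x12) (y13 : Bt x13) (y14 : Bt x14)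
    (hne : ¬ (x0 = 1 ∧ x1 = 1 ∧ x2 = 1 ∧ x3 = 1 ∧ x4 = 1 ∧ x5 = 1 ∧ x6 = 1 ∧ x7 = 1 ∧ x8 = 1 ∧ x9 = 1 ∧ x10 = 1 ∧ x11 = 1 ∧ x12 = 1 ∧ x13 = 1 ∧ x14 = 1)) : c15 x0 x1 x2 x3 x4 x5 x6 x7 x8 x9 x10 x11 x12 x13 x14 ≠ 32767 := by
  intro h
  apply hne
  have e0 := bt_c15_0 y0 y1 y2 y3 y4 y5 y6 y7 y8 y9 y10 y11 y12 y13 y14
  rw [h] at e0
  have e1 := bt_c15_1 y0 y1 y2 y3 y4 y5 y6 y7 y8 y9 y10 y11 y12 y13 y14
  rw [h] at e1
  have e2 := bt_c15_2 y0 y1 y2 y3 y4 y5 y6 y7 y8 y9 y10 y11 y12 y13 y14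
  rw [h] at e2
  have e3 := bt_c15_3 y0 y1 y2 y3 y4 y5 y6 y7 y8 y9 y10 y11 y12 y13 y14
  rw [h] at e3
  have e4 := bt_c15_4 y0 y1 y2 y3 y4 y5 y6 y7 y8 y9 y10 y11 y12 y13 y14
  rw [h] at e4
  have e5 := bt_c15_5 y0 y1 y2 y3 y4 y5 y6 y7 y8 y9 y10 y11 y12 y13 y14
  rw [h] at e5
  have e6 := bt_c15_6 y0 y1 y2 y3 y4 y5 y6 y7 y8 y9 y10 y11 y12 y13 y14
  rw [h] at e6
  have e7 := bt_c15_7 y0 y1 y2 y3 y4 y5 y6 y7 y8 y9 y10 y11 y12 y13 y14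
  rw [h] at e7
  have e8 := bt_c15_8 y0 y1 y2 y3 y4 y5 y6 y7 y8 y9 y10 y11 y12 y13 y14
  rw [h] at e8
  have e9 := bt_c15_9 y0 y1 y2 y3 y4 y5 y6 y7 y8 y9 y10 y11 y12 y13 y14
  rw [h] at e9
  have e10 := bt_c15_10 y0 y1 y2 y3 y4 y5 y6 y7 y8 y9 y10 y11 y12 y13 y14
  rw [h] at e10
  have e11 := bt_c15_11 y0 y1 y2 y3 y4 y5 y6 y7 y8 y9 y10 y11 y12 y13 y14
  rw [h] at e11
  have e12 := bt_c15_12 y0 y1 y2 y3 y4 y5 y6 y7 y8 y9 y10 y11 y12 y13 y14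
  rw [h] at e12
  have e13 := bt_c15_13 y0 y1 y2 y3 y4 y5 y6 y7 y8 y9 y10 y11 y12 y13 y14
  rw [h] at e13
  have e14 := bt_c15_14 y0 y1 y2 y3 y4 y5 y6 y7 y8 y9 y10 y11 y12 y13 y14
  rw [h] at e14
  exact ⟨e0.symm.trans (by decide +kernel), e1.symm.trans (by decide +kernel), e2.symm.trans (by decide +kernel), e3.symm.trans (by decide +kernel), e4.symm.trans (by decide +kernel), e5.symm.trans (by decide +kernel), e6.symm.trans (by decide +kernel), e7.symm.trans (by decide +kernel), e8.symm.trans (by decide +kernel), e9.symm.trans (by decide +kernel), e10.symm.trans (by decide +kernel), e11.symm.trans (by decide +kernel), e12.symm.trans (by decide +kernel), e13.symm.trans (by decide +kernel), e14.symm.trans (by decide +kernel)⟩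

theorem chkV_spec {b012 b013 b023 b123 b014 b024 b124 b034 b134 b234 b015 b025 b125 b035 b135 b235 b045 b145 b245 b345 : ℕ} (h012 : Bt b012) (h013 : Bt b013) (h023 : Bt b023) (h123 : Bt b123) (h014 : Bt b014) (h024 : Bt b024) (h124 : Bt b124) (h034 : Bt b034) (h134 : Bt b134) (h234 : Bt b234) (h015 : Bt b015) (h025 : Bt b025) (h125 : Bt b125) (h035 : Bt b035) (h135 : Bt b135) (h235 : Bt b235) (h045 : Bt b045) (h145 : Bt b145) (h245 : Bt b245) (h345 : Bt b345) (h : chkV b012 b013 b023 b123 b014 b024 b124 b034 b134 b234 b015 b025 b125 b035 b135 b235 b045 b145 b245 b345 = true) {x0 x1 x2 x3 x4 x5 x6 x7 x8 x9 x10 x11 x12 x13 x14 : ℕ} (y0 : Bt x0) (y1 : Bt x1) (y2 : Bt x2) (y3 : Bt x3) (y4 : Bt x4) (y5 : Bt x5) (y6 : Bt x6) (y7 : Bt x7) (y8 : Bt x8) (y9 : Bt x9) (y10 : Bt x10) (y11 : Bt x11) (y12 : Bt x12) (y13 : Bt x13) (y14 : Bt x14) (hne : ¬ (x0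 = 1 ∧ x1 = 1 ∧ x2 = 1 ∧ x3 = 1 ∧ x4 = 1 ∧ x5 = 1 ∧ x6 = 1 ∧ x7 = 1 ∧ x8 = 1 ∧ x9 = 1 ∧ x10 = 1 ∧ x11 = 1 ∧ x12 = 1 ∧ x13 = 1 ∧ x14 = 1)) : LS0 b012 b013 b023 b123 b014 b024 b124 b034 b134 b234 b015 b025 b125 b035 b135 b235 b045 b145 b245 b345 x0 x1 x2 x3 x4 x5 x6 x7 x8 x9 x10 x11 x12 x13 x14 ≤ cC := by
  have h1 := Nat.eq_of_beq_eq_true h
  rw [ch0_eq h012 h013 h023 h123 h014 h024 h124 h034 h134 h234 h015 h025 h125 h035 h135 h235 h045 h145 h245 h345, show CV = enc 40 15 (fun _ => 495980338702) from (dbl15 _).symm, TVL_eq] at h1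
  simp only [Nat.add_eq, enc_add] at h1
  have hb : ∀ i < 2 ^ 15, (fun i => LS0 b012 b013 b023 b123 b014 b024 b124 b034 b134 b234 b015 b025 b125 b035 b135 b235 b045 b145 b245 b345 (bt 0 i) (bt 1 i) (bt 2 i) (bt 3 i) (bt 4 i) (bt 5 i) (bt 6 i) (bt 7 i) (bt 8 i) (bt 9 i) (bt 10 i) (bt 11 i) (bt 12 i) (bt 13 i) (bt 14 i) + 495980338702) i < 2 ^ 40 := fun i _ => by
    have := LS0_le h012 h013 h023 h123 h014 h024 h124 h034 h134 h234 h015 h025 h125 h035 h135 h235 h045 h145 h245 h345 (bt01 0 i) (bt01 1 i) (bt01 2 i) (bt01 3 i) (bt01 4 i) (bt01 5 i) (bt01 6 i) (bt01 7 i) (bt01 8 i) (bt01 9 i) (bt01 10 i) (bt01 11 i) (bt01 12 i) (bt01 13 i) (bt01 14 i)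
    show _ + _ < _
    norm_num
    omega
  rw [enc_land (by norm_num) hb (fun i _ => gl_lt i)] at h1
  set i := c15 x0 x1 x2 x3 x4 x5 x6 x7 x8 x9 x10 x11 x12 x13 x14 with hi
  have hi15 : i < 2 ^ 15 := c15_lt y0 y1 y2 y3 y4 y5 y6 y7 y8 y9 y10 y11 y12 y13 y14
  have h2 := enc_eq_zero (by norm_num) (fun i hi => lt_of_le_of_lt (Nat.and_le_left (n := LS0 b012 b013 b023 b123 b014 b024 b124 b034 b134 b234 b015 b025 b125 b035 b135 b235 b045 b145 b245 b345 (bt 0 i) (bt 1 i) (bt 2 i) (bt 3 i) (bt 4 i) (bt 5 i) (bt 6 i) (bt 7 i) (bt 8 i) (bt 9 i) (bt 10 i) (bt 11 i) (bt 12 i) (bt 13 i) (bt 14 i) + 495980338702) (m := gl i)) (hb i hi)) h1 hi15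
  have hi7 : i ≠ 32767 := by rw [hi]; exact c15_ne y0 y1 y2 y3 y4 y5 y6 y7 y8 y9 y10 y11 y12 y13 y14 hne
  have h2 : Nat.land _ (gl i) = 0 := h2
  rw [show gl i = 549755813888 from if_neg hi7] at h2
  have h3 := lt_of_land (x := LS0 b012 b013 b023 b123 b014 b024 b124 b034 b134 b234 b015 b025 b125 b035 b135 b235 b045 b145 b245 b345 (bt 0 i) (bt 1 i) (bt 2 i) (bt 3 i) (bt 4 i) (bt 5 i) (bt 6 i) (bt 7 i) (bt 8 i) (bt 9 i) (bt 10 i) (bt 11 i) (bt 12 i) (bt 13 i) (bt 14 i) + 495980338702) (w := 39) (s := 40) (hb i hi15) (by norm_num) (by rw [show 2 ^ 40 - 2 ^ 39 = 549755813888 by norm_num]; exact h2)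
  rw [hi] at h3
  rw [bt_c15_0 y0 y1 y2 y3 y4 y5 y6 y7 y8 y9 y10 y11 y12 y13 y14, bt_c15_1 y0 y1 y2 y3 y4 y5 y6 y7 y8 y9 y10 y11 y12 y13 y14, bt_c15_2 y0 y1 y2 y3 y4 y5 y6 y7 y8 y9 y10 y11 y12 y13 y14, bt_c15_3 y0 y1 y2 y3 y4 y5 y6 y7 y8 y9 y10 y11 y12 y13 y14, bt_c15_4 y0 y1 y2 y3 y4 y5 y6 y7 y8 y9 y10 y11 y12 y13 y14, bt_c15_5 y0 y1 y2 y3 y4 y5 y6 y7 y8 y9 y10 y11 y12 y13 y14, bt_c15_6 y0 y1 y2 y3 y4 y5 y6 y7 y8 y9 y10 y11 y12 y13 y14, bt_c15_7 y0 y1 y2 y3 y4 y5 y6 y7 y8 y9 y10 y11 y12 y13 y14, bt_c15_8 y0 y1 y2 y3 y4 y5 y6 y7 y8 y9 y10 y11 y12 y13 y14, bt_c15_9 y0 y1 y2 y3 y4 y5 y6 y7 y8 y9 y10 y11 y12 y13 y14, bt_c15_10 y0 y1 y2 y3 y4 y5 y6 y7 y8 y9 y10 y11 y12 y13 y14, bt_c15_11 y0 y1 y2 y3 y4 y5 y6 y7 y8 y9 y10 y11 y12 y13 y14, bt_c15_12 y0 y1 y2 y3 y4 y5 y6 y7 y8 y9 y10 y11 y12 y13 y14, bt_c15_13 y0 y1 y2 y3 y4 y5 y6 y7 y8 y9 y10 y11 y12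 y13 y14, bt_c15_14 y0 y1 y2 y3 y4 y5 y6 y7 y8 y9 y10 y11 y12 y13 y14] at h3
  rw [cC_eq]
  norm_num at h3
  omega

theorem kL : chkV 1 1 1 1 1 1 1 1 1 1 1 1 1 1 1 1 1 1 1 1 = true := by decide +kernel

end

end Pool.Agent.U620.K7F
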