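import Pool.Agent.U620.K7F.D0
import Pool.Agent.U620.K7F.D1
import Pool.Agent.U620.K7F.D2
import Pool.Agent.U620.K7F.D3
import Pool.Agent.U620.K7F.D4
import Pool.Agent.U620.K7F.D5
import Pool.Agent.U620.K7F.D6
import Pool.Agent.U620.K7F.D7
import Pool.Agent.U620.K7F.D8
import Pool.Agent.U620.K7F.D9
import Pool.Agent.U620.K7F.D10
import Pool.Agent.U620.K7F.D11
import Pool.Agent.U620.K7F.D12
import Pool.Agent.U620.K7F.D13
import Pool.Agent.U620.K7F.D14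
import Pool.Agent.U620.K7F.D15
import Pool.Agent.U620.K7F.D16
import Pool.Agent.U620.K7F.Small

/-! Tables of vectors. -/

set_option autoImplicit false
set_option maxRecDepth 100000

namespace Pool.Agent.U620.K7F
open Pool.Agent.Y435.T7

noncomputable section

def D0 : ℕ := (j2 327680 (j2 163840 (j2 81920 (j2 40960 (j2 20480 (j2 10240 d0_0 d0_1) (j2 10240 d0_2 d0_3)) (j2 20480 (j2 10240 d0_4 d0_5) (j2 10240 d0_6 d0_7))) (j2 40960 (j2 20480 (j2 10240 d0_8 d0_9) (j2 10240 d0_10 d0_11)) (j2 20480 (j2 10240 d0_12 d0_13) (j2 10240 d0_14 d0_15)))) (j2 81920 (j2 40960 (j2 20480 (j2 10240 d0_16 d0_17) (j2 10240 d0_18 d0_19)) (j2 20480 (j2 10240 d0_20 d0_21) (j2 10240 d0_22 d0_23))) (j2 40960 (j2 20480 (j2 10240 d0_24 d0_25) (j2 10240 d0_26 d0_27)) (j2 20480 (j2 10240 d0_28 d0_29) (j2 10240 d0_30 d0_31))))) (j2 163840 (j2 81920 (j2 40960 (j2 20480 (j2 10240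 d0_32 d0_33) (j2 10240 d0_34 d0_35)) (j2 20480 (j2 10240 d0_36 d0_37) (j2 10240 d0_38 d0_39))) (j2 40960 (j2 20480 (j2 10240 d0_40 d0_41) (j2 10240 d0_42 d0_43)) (j2 20480 (j2 10240 d0_44 d0_45) (j2 10240 d0_46 d0_47)))) (j2 81920 (j2 40960 (j2 20480 (j2 10240 d0_48 d0_49) (j2 10240 d0_50 d0_51)) (j2 20480 (j2 10240 d0_52 d0_53) (j2 10240 d0_54 d0_55))) (j2 40960 (j2 20480 (j2 10240 d0_56 d0_57) (j2 10240 d0_58 d0_59)) (j2 20480 (j2 10240 d0_60 d0_61) (j2 10240 d0_62 d0_63))))))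
def D1 : ℕ := (j2 327680 (j2 163840 (j2 81920 (j2 40960 (j2 20480 (j2 10240 d1_0 d1_1) (j2 10240 d1_2 d1_3)) (j2 20480 (j2 10240 d1_4 d1_5) (j2 10240 d1_6 d1_7))) (j2 40960 (j2 20480 (j2 10240 d1_8 d1_9) (j2 10240 d1_10 d1_11)) (j2 20480 (j2 10240 d1_12 d1_13) (j2 10240 d1_14 d1_15)))) (j2 81920 (j2 40960 (j2 20480 (j2 10240 d1_16 d1_17) (j2 10240 d1_18 d1_19)) (j2 20480 (j2 10240 d1_20 d1_21) (j2 10240 d1_22 d1_23))) (j2 40960 (j2 20480 (j2 10240 d1_24 d1_25) (j2 10240 d1_26 d1_27)) (j2 20480 (j2 10240 d1_28 d1_29) (j2 10240 d1_30 d1_31))))) (j2 163840 (j2 81920 (j2 40960 (j2 20480 (j2 10240 d1_32 d1_33) (j2 10240 d1_34 d1_35)) (j2 20480 (j2 10240 d1_36 d1_37) (j2 10240 d1_38 d1_39))) (j2 40960 (j2 20480 (j2 10240 d1_40 d1_41) (j2 10240 d1_42 d1_43)) (j2 20480 (j2 10240 d1_44 d1_45) (j2 10240 d1_46 d1_47)))) (j2 81920 (j2 40960 (j2 20480 (j2 10240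 d1_48 d1_49) (j2 10240 d1_50 d1_51)) (j2 20480 (j2 10240 d1_52 d1_53) (j2 10240 d1_54 d1_55))) (j2 40960 (j2 20480 (j2 10240 d1_56 d1_57) (j2 10240 d1_58 d1_59)) (j2 20480 (j2 10240 d1_60 d1_61) (j2 10240 d1_62 d1_63))))))
def D2 : ℕ := (j2 327680 (j2 163840 (j2 81920 (j2 40960 (j2 20480 (j2 10240 d2_0 d2_1) (j2 10240 d2_2 d2_3)) (j2 20480 (j2 10240 d2_4 d2_5) (j2 10240 d2_6 d2_7))) (j2 40960 (j2 20480 (j2 10240 d2_8 d2_9) (j2 10240 d2_10 d2_11)) (j2 20480 (j2 10240 d2_12 d2_13) (j2 10240 d2_14 d2_15)))) (j2 81920 (j2 40960 (j2 20480 (j2 10240 d2_16 d2_17) (j2 10240 d2_18 d2_19)) (j2 20480 (j2 10240 d2_20 d2_21) (j2 10240 d2_22 d2_23))) (j2 40960 (j2 20480 (j2 10240 d2_24 d2_25) (j2 10240 d2_26 d2_27)) (j2 20480 (j2 10240 d2_28 d2_29) (j2 10240 d2_30 d2_31))))) (j2 163840 (j2 81920 (j2 40960 (j2 20480 (j2 10240 d2_32 d2_33) (j2 10240 d2_34 d2_35))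 (j2 20480 (j2 10240 d2_36 d2_37) (j2 10240 d2_38 d2_39))) (j2 40960 (j2 20480 (j2 10240 d2_40 d2_41) (j2 10240 d2_42 d2_43)) (j2 20480 (j2 10240 d2_44 d2_45) (j2 10240 d2_46 d2_47)))) (j2 81920 (j2 40960 (j2 20480 (j2 10240 d2_48 d2_49) (j2 10240 d2_50 d2_51)) (j2 20480 (j2 10240 d2_52 d2_53) (j2 10240 d2_54 d2_55))) (j2 40960 (j2 20480 (j2 10240 d2_56 d2_57) (j2 10240 d2_58 d2_59)) (j2 20480 (j2 10240 d2_60 d2_61) (j2 10240 d2_62 d2_63))))))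
def D3 : ℕ := (j2 327680 (j2 163840 (j2 81920 (j2 40960 (j2 20480 (j2 10240 d3_0 d3_1) (j2 10240 d3_2 d3_3)) (j2 20480 (j2 10240 d3_4 d3_5) (j2 10240 d3_6 d3_7))) (j2 40960 (j2 20480 (j2 10240 d3_8 d3_9) (j2 10240 d3_10 d3_11)) (j2 20480 (j2 10240 d3_12 d3_13) (j2 10240 d3_14 d3_15)))) (j2 81920 (j2 40960 (j2 20480 (j2 10240 d3_16 d3_17) (j2 10240 d3_18 d3_19)) (j2 20480 (j2 10240 d3_20 d3_21) (j2 10240 d3_22 d3_23))) (j2 40960 (j2 20480 (j2 10240 d3_24 d3_25) (j2 10240 d3_26 d3_27)) (j2 20480 (j2 10240 d3_28 d3_29) (j2 10240 d3_30 d3_31))))) (j2 163840 (j2 81920 (j2 40960 (j2 20480 (j2 10240 d3_32 d3_33) (j2 10240 d3_34 d3_35)) (j2 20480 (j2 10240 d3_36 d3_37) (j2 10240 d3_38 d3_39))) (j2 40960 (j2 20480 (j2 10240 d3_40 d3_41) (j2 10240 d3_42 d3_43)) (j2 20480 (j2 10240 d3_44 d3_45) (j2 10240 d3_46 d3_47)))) (j2 81920 (j2 40960 (j2 20480 (j2 10240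 d3_48 d3_49) (j2 10240 d3_50 d3_51)) (j2 20480 (j2 10240 d3_52 d3_53) (j2 10240 d3_54 d3_55))) (j2 40960 (j2 20480 (j2 10240 d3_56 d3_57) (j2 10240 d3_58 d3_59)) (j2 20480 (j2 10240 d3_60 d3_61) (j2 10240 d3_62 d3_63))))))
def D4 : ℕ := (j2 327680 (j2 163840 (j2 81920 (j2 40960 (j2 20480 (j2 10240 d4_0 d4_1) (j2 10240 d4_2 d4_3)) (j2 20480 (j2 10240 d4_4 d4_5) (j2 10240 d4_6 d4_7))) (j2 40960 (j2 20480 (j2 10240 d4_8 d4_9) (j2 10240 d4_10 d4_11)) (j2 20480 (j2 10240 d4_12 d4_13) (j2 10240 d4_14 d4_15)))) (j2 81920 (j2 40960 (j2 20480 (j2 10240 d4_16 d4_17) (j2 10240 d4_18 d4_19)) (j2 20480 (j2 10240 d4_20 d4_21) (j2 10240 d4_22 d4_23))) (j2 40960 (j2 20480 (j2 10240 d4_24 d4_25) (j2 10240 d4_26 d4_27)) (j2 20480 (j2 10240 d4_28 d4_29) (j2 10240 d4_30 d4_31))))) (j2 163840 (j2 81920 (j2 40960 (j2 20480 (j2 10240 d4_32 d4_33) (j2 10240 d4_34 d4_35))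 (j2 20480 (j2 10240 d4_36 d4_37) (j2 10240 d4_38 d4_39))) (j2 40960 (j2 20480 (j2 10240 d4_40 d4_41) (j2 10240 d4_42 d4_43)) (j2 20480 (j2 10240 d4_44 d4_45) (j2 10240 d4_46 d4_47)))) (j2 81920 (j2 40960 (j2 20480 (j2 10240 d4_48 d4_49) (j2 10240 d4_50 d4_51)) (j2 20480 (j2 10240 d4_52 d4_53) (j2 10240 d4_54 d4_55))) (j2 40960 (j2 20480 (j2 10240 d4_56 d4_57) (j2 10240 d4_58 d4_59)) (j2 20480 (j2 10240 d4_60 d4_61) (j2 10240 d4_62 d4_63))))))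
def D5 : ℕ := (j2 327680 (j2 163840 (j2 81920 (j2 40960 (j2 20480 (j2 10240 d5_0 d5_1) (j2 10240 d5_2 d5_3)) (j2 20480 (j2 10240 d5_4 d5_5) (j2 10240 d5_6 d5_7))) (j2 40960 (j2 20480 (j2 10240 d5_8 d5_9) (j2 10240 d5_10 d5_11)) (j2 20480 (j2 10240 d5_12 d5_13) (j2 10240 d5_14 d5_15)))) (j2 81920 (j2 40960 (j2 20480 (j2 10240 d5_16 d5_17) (j2 10240 d5_18 d5_19)) (j2 20480 (j2 10240 d5_20 d5_21) (j2 10240 d5_22 d5_23))) (j2 40960 (j2 20480 (j2 10240 d5_24 d5_25) (j2 10240 d5_26 d5_27)) (j2 20480 (j2 10240 d5_28 d5_29) (j2 10240 d5_30 d5_31))))) (j2 163840 (j2 81920 (j2 40960 (j2 20480 (j2 10240 d5_32 d5_33) (j2 10240 d5_34 d5_35)) (j2 20480 (j2 10240 d5_36 d5_37) (j2 10240 d5_38 d5_39))) (j2 40960 (j2 20480 (j2 10240 d5_40 d5_41) (j2 10240 d5_42 d5_43)) (j2 20480 (j2 10240 d5_44 d5_45) (j2 10240 d5_46 d5_47)))) (j2 81920 (j2 40960 (j2 20480 (j2 10240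 d5_48 d5_49) (j2 10240 d5_50 d5_51)) (j2 20480 (j2 10240 d5_52 d5_53) (j2 10240 d5_54 d5_55))) (j2 40960 (j2 20480 (j2 10240 d5_56 d5_57) (j2 10240 d5_58 d5_59)) (j2 20480 (j2 10240 d5_60 d5_61) (j2 10240 d5_62 d5_63))))))
def D6 : ℕ := (j2 327680 (j2 163840 (j2 81920 (j2 40960 (j2 20480 (j2 10240 d6_0 d6_1) (j2 10240 d6_2 d6_3)) (j2 20480 (j2 10240 d6_4 d6_5) (j2 10240 d6_6 d6_7))) (j2 40960 (j2 20480 (j2 10240 d6_8 d6_9) (j2 10240 d6_10 d6_11)) (j2 20480 (j2 10240 d6_12 d6_13) (j2 10240 d6_14 d6_15)))) (j2 81920 (j2 40960 (j2 20480 (j2 10240 d6_16 d6_17) (j2 10240 d6_18 d6_19)) (j2 20480 (j2 10240 d6_20 d6_21) (j2 10240 d6_22 d6_23))) (j2 40960 (j2 20480 (j2 10240 d6_24 d6_25) (j2 10240 d6_26 d6_27)) (j2 20480 (j2 10240 d6_28 d6_29) (j2 10240 d6_30 d6_31))))) (j2 163840 (j2 81920 (j2 40960 (j2 20480 (j2 10240 d6_32 d6_33) (j2 10240 d6_34 d6_35))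 (j2 20480 (j2 10240 d6_36 d6_37) (j2 10240 d6_38 d6_39))) (j2 40960 (j2 20480 (j2 10240 d6_40 d6_41) (j2 10240 d6_42 d6_43)) (j2 20480 (j2 10240 d6_44 d6_45) (j2 10240 d6_46 d6_47)))) (j2 81920 (j2 40960 (j2 20480 (j2 10240 d6_48 d6_49) (j2 10240 d6_50 d6_51)) (j2 20480 (j2 10240 d6_52 d6_53) (j2 10240 d6_54 d6_55))) (j2 40960 (j2 20480 (j2 10240 d6_56 d6_57) (j2 10240 d6_58 d6_59)) (j2 20480 (j2 10240 d6_60 d6_61) (j2 10240 d6_62 d6_63))))))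
def D7 : ℕ := (j2 327680 (j2 163840 (j2 81920 (j2 40960 (j2 20480 (j2 10240 d7_0 d7_1) (j2 10240 d7_2 d7_3)) (j2 20480 (j2 10240 d7_4 d7_5) (j2 10240 d7_6 d7_7))) (j2 40960 (j2 20480 (j2 10240 d7_8 d7_9) (j2 10240 d7_10 d7_11)) (j2 20480 (j2 10240 d7_12 d7_13) (j2 10240 d7_14 d7_15)))) (j2 81920 (j2 40960 (j2 20480 (j2 10240 d7_16 d7_17) (j2 10240 d7_18 d7_19)) (j2 20480 (j2 10240 d7_20 d7_21) (j2 10240 d7_22 d7_23))) (j2 40960 (j2 20480 (j2 10240 d7_24 d7_25) (j2 10240 d7_26 d7_27)) (j2 20480 (j2 10240 d7_28 d7_29) (j2 10240 d7_30 d7_31))))) (j2 163840 (j2 81920 (j2 40960 (j2 20480 (j2 10240 d7_32 d7_33) (j2 10240 d7_34 d7_35)) (j2 20480 (j2 10240 d7_36 d7_37) (j2 10240 d7_38 d7_39))) (j2 40960 (j2 20480 (j2 10240 d7_40 d7_41) (j2 10240 d7_42 d7_43)) (j2 20480 (j2 10240 d7_44 d7_45) (j2 10240 d7_46 d7_47)))) (j2 81920 (j2 40960 (j2 20480 (j2 10240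 d7_48 d7_49) (j2 10240 d7_50 d7_51)) (j2 20480 (j2 10240 d7_52 d7_53) (j2 10240 d7_54 d7_55))) (j2 40960 (j2 20480 (j2 10240 d7_56 d7_57) (j2 10240 d7_58 d7_59)) (j2 20480 (j2 10240 d7_60 d7_61) (j2 10240 d7_62 d7_63))))))
def D8 : ℕ := (j2 327680 (j2 163840 (j2 81920 (j2 40960 (j2 20480 (j2 10240 d8_0 d8_1) (j2 10240 d8_2 d8_3)) (j2 20480 (j2 10240 d8_4 d8_5) (j2 10240 d8_6 d8_7))) (j2 40960 (j2 20480 (j2 10240 d8_8 d8_9) (j2 10240 d8_10 d8_11)) (j2 20480 (j2 10240 d8_12 d8_13) (j2 10240 d8_14 d8_15)))) (j2 81920 (j2 40960 (j2 20480 (j2 10240 d8_16 d8_17) (j2 10240 d8_18 d8_19)) (j2 20480 (j2 10240 d8_20 d8_21) (j2 10240 d8_22 d8_23))) (j2 40960 (j2 20480 (j2 10240 d8_24 d8_25) (j2 10240 d8_26 d8_27)) (j2 20480 (j2 10240 d8_28 d8_29) (j2 10240 d8_30 d8_31))))) (j2 163840 (j2 81920 (j2 40960 (j2 20480 (j2 10240 d8_32 d8_33) (j2 10240 d8_34 d8_35))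 (j2 20480 (j2 10240 d8_36 d8_37) (j2 10240 d8_38 d8_39))) (j2 40960 (j2 20480 (j2 10240 d8_40 d8_41) (j2 10240 d8_42 d8_43)) (j2 20480 (j2 10240 d8_44 d8_45) (j2 10240 d8_46 d8_47)))) (j2 81920 (j2 40960 (j2 20480 (j2 10240 d8_48 d8_49) (j2 10240 d8_50 d8_51)) (j2 20480 (j2 10240 d8_52 d8_53) (j2 10240 d8_54 d8_55))) (j2 40960 (j2 20480 (j2 10240 d8_56 d8_57) (j2 10240 d8_58 d8_59)) (j2 20480 (j2 10240 d8_60 d8_61) (j2 10240 d8_62 d8_63))))))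
def D9 : ℕ := (j2 327680 (j2 163840 (j2 81920 (j2 40960 (j2 20480 (j2 10240 d9_0 d9_1) (j2 10240 d9_2 d9_3)) (j2 20480 (j2 10240 d9_4 d9_5) (j2 10240 d9_6 d9_7))) (j2 40960 (j2 20480 (j2 10240 d9_8 d9_9) (j2 10240 d9_10 d9_11)) (j2 20480 (j2 10240 d9_12 d9_13) (j2 10240 d9_14 d9_15)))) (j2 81920 (j2 40960 (j2 20480 (j2 10240 d9_16 d9_17) (j2 10240 d9_18 d9_19)) (j2 20480 (j2 10240 d9_20 d9_21) (j2 10240 d9_22 d9_23))) (j2 40960 (j2 20480 (j2 10240 d9_24 d9_25) (j2 10240 d9_26 d9_27)) (j2 20480 (j2 10240 d9_28 d9_29) (j2 10240 d9_30 d9_31))))) (j2 163840 (j2 81920 (j2 40960 (j2 20480 (j2 10240 d9_32 d9_33) (j2 10240 d9_34 d9_35)) (j2 20480 (j2 10240 d9_36 d9_37) (j2 10240 d9_38 d9_39))) (j2 40960 (j2 20480 (j2 10240 d9_40 d9_41) (j2 10240 d9_42 d9_43)) (j2 20480 (j2 10240 d9_44 d9_45) (j2 10240 d9_46 d9_47)))) (j2 81920 (j2 40960 (j2 20480 (j2 10240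 d9_48 d9_49) (j2 10240 d9_50 d9_51)) (j2 20480 (j2 10240 d9_52 d9_53) (j2 10240 d9_54 d9_55))) (j2 40960 (j2 20480 (j2 10240 d9_56 d9_57) (j2 10240 d9_58 d9_59)) (j2 20480 (j2 10240 d9_60 d9_61) (j2 10240 d9_62 d9_63))))))
def D10 : ℕ := (j2 327680 (j2 163840 (j2 81920 (j2 40960 (j2 20480 (j2 10240 d10_0 d10_1) (j2 10240 d10_2 d10_3)) (j2 20480 (j2 10240 d10_4 d10_5) (j2 10240 d10_6 d10_7))) (j2 40960 (j2 20480 (j2 10240 d10_8 d10_9) (j2 10240 d10_10 d10_11)) (j2 20480 (j2 10240 d10_12 d10_13) (j2 10240 d10_14 d10_15)))) (j2 81920 (j2 40960 (j2 20480 (j2 10240 d10_16 d10_17) (j2 10240 d10_18 d10_19)) (j2 20480 (j2 10240 d10_20 d10_21) (j2 10240 d10_22 d10_23))) (j2 40960 (j2 20480 (j2 10240 d10_24 d10_25) (j2 10240 d10_26 d10_27)) (j2 20480 (j2 10240 d10_28 d10_29) (j2 10240 d10_30 d10_31))))) (j2 163840 (j2 81920 (j2 40960 (j2 20480 (j2 10240 d10_32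 d10_33) (j2 10240 d10_34 d10_35)) (j2 20480 (j2 10240 d10_36 d10_37) (j2 10240 d10_38 d10_39))) (j2 40960 (j2 20480 (j2 10240 d10_40 d10_41) (j2 10240 d10_42 d10_43)) (j2 20480 (j2 10240 d10_44 d10_45) (j2 10240 d10_46 d10_47)))) (j2 81920 (j2 40960 (j2 20480 (j2 10240 d10_48 d10_49) (j2 10240 d10_50 d10_51)) (j2 20480 (j2 10240 d10_52 d10_53) (j2 10240 d10_54 d10_55))) (j2 40960 (j2 20480 (j2 10240 d10_56 d10_57) (j2 10240 d10_58 d10_59)) (j2 20480 (j2 10240 d10_60 d10_61) (j2 10240 d10_62 d10_63))))))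
def D11 : ℕ := (j2 327680 (j2 163840 (j2 81920 (j2 40960 (j2 20480 (j2 10240 d11_0 d11_1) (j2 10240 d11_2 d11_3)) (j2 20480 (j2 10240 d11_4 d11_5) (j2 10240 d11_6 d11_7))) (j2 40960 (j2 20480 (j2 10240 d11_8 d11_9) (j2 10240 d11_10 d11_11)) (j2 20480 (j2 10240 d11_12 d11_13) (j2 10240 d11_14 d11_15)))) (j2 81920 (j2 40960 (j2 20480 (j2 10240 d11_16 d11_17) (j2 10240 d11_18 d11_19)) (j2 20480 (j2 10240 d11_20 d11_21) (j2 10240 d11_22 d11_23))) (j2 40960 (j2 20480 (j2 10240 d11_24 d11_25) (j2 10240 d11_26 d11_27)) (j2 20480 (j2 10240 d11_28 d11_29) (j2 10240 d11_30 d11_31))))) (j2 163840 (j2 81920 (j2 40960 (j2 20480 (j2 10240 d11_32 d11_33) (j2 10240 d11_34 d11_35)) (j2 20480 (j2 10240 d11_36 d11_37) (j2 10240 d11_38 d11_39))) (j2 40960 (j2 20480 (j2 10240 d11_40 d11_41) (j2 10240 d11_42 d11_43)) (j2 20480 (j2 10240 d11_44 d11_45) (j2 10240 d11_46 d11_47))))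 (j2 81920 (j2 40960 (j2 20480 (j2 10240 d11_48 d11_49) (j2 10240 d11_50 d11_51)) (j2 20480 (j2 10240 d11_52 d11_53) (j2 10240 d11_54 d11_55))) (j2 40960 (j2 20480 (j2 10240 d11_56 d11_57) (j2 10240 d11_58 d11_59)) (j2 20480 (j2 10240 d11_60 d11_61) (j2 10240 d11_62 d11_63))))))
def D12 : ℕ := (j2 327680 (j2 163840 (j2 81920 (j2 40960 (j2 20480 (j2 10240 d12_0 d12_1) (j2 10240 d12_2 d12_3)) (j2 20480 (j2 10240 d12_4 d12_5) (j2 10240 d12_6 d12_7))) (j2 40960 (j2 20480 (j2 10240 d12_8 d12_9) (j2 10240 d12_10 d12_11)) (j2 20480 (j2 10240 d12_12 d12_13) (j2 10240 d12_14 d12_15)))) (j2 81920 (j2 40960 (j2 20480 (j2 10240 d12_16 d12_17) (j2 10240 d12_18 d12_19)) (j2 20480 (j2 10240 d12_20 d12_21) (j2 10240 d12_22 d12_23))) (j2 40960 (j2 20480 (j2 10240 d12_24 d12_25) (j2 10240 d12_26 d12_27)) (j2 20480 (j2 10240 d12_28 d12_29) (j2 10240 d12_30 d12_31)))))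 (j2 163840 (j2 81920 (j2 40960 (j2 20480 (j2 10240 d12_32 d12_33) (j2 10240 d12_34 d12_35)) (j2 20480 (j2 10240 d12_36 d12_37) (j2 10240 d12_38 d12_39))) (j2 40960 (j2 20480 (j2 10240 d12_40 d12_41) (j2 10240 d12_42 d12_43)) (j2 20480 (j2 10240 d12_44 d12_45) (j2 10240 d12_46 d12_47)))) (j2 81920 (j2 40960 (j2 20480 (j2 10240 d12_48 d12_49) (j2 10240 d12_50 d12_51)) (j2 20480 (j2 10240 d12_52 d12_53) (j2 10240 d12_54 d12_55))) (j2 40960 (j2 20480 (j2 10240 d12_56 d12_57) (j2 10240 d12_58 d12_59)) (j2 20480 (j2 10240 d12_60 d12_61) (j2 10240 d12_62 d12_63))))))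
def D13 : ℕ := (j2 327680 (j2 163840 (j2 81920 (j2 40960 (j2 20480 (j2 10240 d13_0 d13_1) (j2 10240 d13_2 d13_3)) (j2 20480 (j2 10240 d13_4 d13_5) (j2 10240 d13_6 d13_7))) (j2 40960 (j2 20480 (j2 10240 d13_8 d13_9) (j2 10240 d13_10 d13_11)) (j2 20480 (j2 10240 d13_12 d13_13) (j2 10240 d13_14 d13_15)))) (j2 81920 (j2 40960 (j2 20480 (j2 10240 d13_16 d13_17) (j2 10240 d13_18 d13_19)) (j2 20480 (j2 10240 d13_20 d13_21) (j2 10240 d13_22 d13_23))) (j2 40960 (j2 20480 (j2 10240 d13_24 d13_25) (j2 10240 d13_26 d13_27)) (j2 20480 (j2 10240 d13_28 d13_29) (j2 10240 d13_30 d13_31))))) (j2 163840 (j2 81920 (j2 40960 (j2 20480 (j2 10240 d13_32 d13_33) (j2 10240 d13_34 d13_35)) (j2 20480 (j2 10240 d13_36 d13_37) (j2 10240 d13_38 d13_39))) (j2 40960 (j2 20480 (j2 10240 d13_40 d13_41) (j2 10240 d13_42 d13_43)) (j2 20480 (j2 10240 d13_44 d13_45) (j2 10240 d13_46 d13_47))))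 (j2 81920 (j2 40960 (j2 20480 (j2 10240 d13_48 d13_49) (j2 10240 d13_50 d13_51)) (j2 20480 (j2 10240 d13_52 d13_53) (j2 10240 d13_54 d13_55))) (j2 40960 (j2 20480 (j2 10240 d13_56 d13_57) (j2 10240 d13_58 d13_59)) (j2 20480 (j2 10240 d13_60 d13_61) (j2 10240 d13_62 d13_63))))))
def D14 : ℕ := (j2 327680 (j2 163840 (j2 81920 (j2 40960 (j2 20480 (j2 10240 d14_0 d14_1) (j2 10240 d14_2 d14_3)) (j2 20480 (j2 10240 d14_4 d14_5) (j2 10240 d14_6 d14_7))) (j2 40960 (j2 20480 (j2 10240 d14_8 d14_9) (j2 10240 d14_10 d14_11)) (j2 20480 (j2 10240 d14_12 d14_13) (j2 10240 d14_14 d14_15)))) (j2 81920 (j2 40960 (j2 20480 (j2 10240 d14_16 d14_17) (j2 10240 d14_18 d14_19)) (j2 20480 (j2 10240 d14_20 d14_21) (j2 10240 d14_22 d14_23))) (j2 40960 (j2 20480 (j2 10240 d14_24 d14_25) (j2 10240 d14_26 d14_27)) (j2 20480 (j2 10240 d14_28 d14_29) (j2 10240 d14_30 d14_31)))))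 (j2 163840 (j2 81920 (j2 40960 (j2 20480 (j2 10240 d14_32 d14_33) (j2 10240 d14_34 d14_35)) (j2 20480 (j2 10240 d14_36 d14_37) (j2 10240 d14_38 d14_39))) (j2 40960 (j2 20480 (j2 10240 d14_40 d14_41) (j2 10240 d14_42 d14_43)) (j2 20480 (j2 10240 d14_44 d14_45) (j2 10240 d14_46 d14_47)))) (j2 81920 (j2 40960 (j2 20480 (j2 10240 d14_48 d14_49) (j2 10240 d14_50 d14_51)) (j2 20480 (j2 10240 d14_52 d14_53) (j2 10240 d14_54 d14_55))) (j2 40960 (j2 20480 (j2 10240 d14_56 d14_57) (j2 10240 d14_58 d14_59)) (j2 20480 (j2 10240 d14_60 d14_61) (j2 10240 d14_62 d14_63))))))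
def D15 : ℕ := (j2 327680 (j2 163840 (j2 81920 (j2 40960 (j2 20480 (j2 10240 d15_0 d15_1) (j2 10240 d15_2 d15_3)) (j2 20480 (j2 10240 d15_4 d15_5) (j2 10240 d15_6 d15_7))) (j2 40960 (j2 20480 (j2 10240 d15_8 d15_9) (j2 10240 d15_10 d15_11)) (j2 20480 (j2 10240 d15_12 d15_13) (j2 10240 d15_14 d15_15)))) (j2 81920 (j2 40960 (j2 20480 (j2 10240 d15_16 d15_17) (j2 10240 d15_18 d15_19)) (j2 20480 (j2 10240 d15_20 d15_21) (j2 10240 d15_22 d15_23))) (j2 40960 (j2 20480 (j2 10240 d15_24 d15_25) (j2 10240 d15_26 d15_27)) (j2 20480 (j2 10240 d15_28 d15_29) (j2 10240 d15_30 d15_31))))) (j2 163840 (j2 81920 (j2 40960 (j2 20480 (j2 10240 d15_32 d15_33) (j2 10240 d15_34 d15_35)) (j2 20480 (j2 10240 d15_36 d15_37) (j2 10240 d15_38 d15_39))) (j2 40960 (j2 20480 (j2 10240 d15_40 d15_41) (j2 10240 d15_42 d15_43)) (j2 20480 (j2 10240 d15_44 d15_45) (j2 10240 d15_46 d15_47))))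 (j2 81920 (j2 40960 (j2 20480 (j2 10240 d15_48 d15_49) (j2 10240 d15_50 d15_51)) (j2 20480 (j2 10240 d15_52 d15_53) (j2 10240 d15_54 d15_55))) (j2 40960 (j2 20480 (j2 10240 d15_56 d15_57) (j2 10240 d15_58 d15_59)) (j2 20480 (j2 10240 d15_60 d15_61) (j2 10240 d15_62 d15_63))))))
def D16 : ℕ := (j2 327680 (j2 163840 (j2 81920 (j2 40960 (j2 20480 (j2 10240 d16_0 d16_1) (j2 10240 d16_2 d16_3)) (j2 20480 (j2 10240 d16_4 d16_5) (j2 10240 d16_6 d16_7))) (j2 40960 (j2 20480 (j2 10240 d16_8 d16_9) (j2 10240 d16_10 d16_11)) (j2 20480 (j2 10240 d16_12 d16_13) (j2 10240 d16_14 d16_15)))) (j2 81920 (j2 40960 (j2 20480 (j2 10240 d16_16 d16_17) (j2 10240 d16_18 d16_19)) (j2 20480 (j2 10240 d16_20 d16_21) (j2 10240 d16_22 d16_23))) (j2 40960 (j2 20480 (j2 10240 d16_24 d16_25) (j2 10240 d16_26 d16_27)) (j2 20480 (j2 10240 d16_28 d16_29) (j2 10240 d16_30 d16_31)))))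 (j2 163840 (j2 81920 (j2 40960 (j2 20480 (j2 10240 d16_32 d16_33) (j2 10240 d16_34 d16_35)) (j2 20480 (j2 10240 d16_36 d16_37) (j2 10240 d16_38 d16_39))) (j2 40960 (j2 20480 (j2 10240 d16_40 d16_41) (j2 10240 d16_42 d16_43)) (j2 20480 (j2 10240 d16_44 d16_45) (j2 10240 d16_46 d16_47)))) (j2 81920 (j2 40960 (j2 20480 (j2 10240 d16_48 d16_49) (j2 10240 d16_50 d16_51)) (j2 20480 (j2 10240 d16_52 d16_53) (j2 10240 d16_54 d16_55))) (j2 40960 (j2 20480 (j2 10240 d16_56 d16_57) (j2 10240 d16_58 d16_59)) (j2 20480 (j2 10240 d16_60 d16_61) (j2 10240 d16_62 d16_63))))))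
def D17 : ℕ := (j2 327680 (j2 163840 (j2 81920 (j2 40960 (j2 20480 (j2 10240 d17_0 d17_1) (j2 10240 d17_2 d17_3)) (j2 20480 (j2 10240 d17_4 d17_5) (j2 10240 d17_6 d17_7))) (j2 40960 (j2 20480 (j2 10240 d17_8 d17_9) (j2 10240 d17_10 d17_11)) (j2 20480 (j2 10240 d17_12 d17_13) (j2 10240 d17_14 d17_15)))) (j2 81920 (j2 40960 (j2 20480 (j2 10240 d17_16 d17_17) (j2 10240 d17_18 d17_19)) (j2 20480 (j2 10240 d17_20 d17_21) (j2 10240 d17_22 d17_23))) (j2 40960 (j2 20480 (j2 10240 d17_24 d17_25) (j2 10240 d17_26 d17_27)) (j2 20480 (j2 10240 d17_28 d17_29) (j2 10240 d17_30 d17_31))))) (j2 163840 (j2 81920 (j2 40960 (j2 20480 (j2 10240 d17_32 d17_33) (j2 10240 d17_34 d17_35)) (j2 20480 (j2 10240 d17_36 d17_37) (j2 10240 d17_38 d17_39))) (j2 40960 (j2 20480 (j2 10240 d17_40 d17_41) (j2 10240 d17_42 d17_43)) (j2 20480 (j2 10240 d17_44 d17_45) (j2 10240 d17_46 d17_47))))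 (j2 81920 (j2 40960 (j2 20480 (j2 10240 d17_48 d17_49) (j2 10240 d17_50 d17_51)) (j2 20480 (j2 10240 d17_52 d17_53) (j2 10240 d17_54 d17_55))) (j2 40960 (j2 20480 (j2 10240 d17_56 d17_57) (j2 10240 d17_58 d17_59)) (j2 20480 (j2 10240 d17_60 d17_61) (j2 10240 d17_62 d17_63))))))
def D18 : ℕ := (j2 327680 (j2 163840 (j2 81920 (j2 40960 (j2 20480 (j2 10240 d18_0 d18_1) (j2 10240 d18_2 d18_3)) (j2 20480 (j2 10240 d18_4 d18_5) (j2 10240 d18_6 d18_7))) (j2 40960 (j2 20480 (j2 10240 d18_8 d18_9) (j2 10240 d18_10 d18_11)) (j2 20480 (j2 10240 d18_12 d18_13) (j2 10240 d18_14 d18_15)))) (j2 81920 (j2 40960 (j2 20480 (j2 10240 d18_16 d18_17) (j2 10240 d18_18 d18_19)) (j2 20480 (j2 10240 d18_20 d18_21) (j2 10240 d18_22 d18_23))) (j2 40960 (j2 20480 (j2 10240 d18_24 d18_25) (j2 10240 d18_26 d18_27)) (j2 20480 (j2 10240 d18_28 d18_29) (j2 10240 d18_30 d18_31)))))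 (j2 163840 (j2 81920 (j2 40960 (j2 20480 (j2 10240 d18_32 d18_33) (j2 10240 d18_34 d18_35)) (j2 20480 (j2 10240 d18_36 d18_37) (j2 10240 d18_38 d18_39))) (j2 40960 (j2 20480 (j2 10240 d18_40 d18_41) (j2 10240 d18_42 d18_43)) (j2 20480 (j2 10240 d18_44 d18_45) (j2 10240 d18_46 d18_47)))) (j2 81920 (j2 40960 (j2 20480 (j2 10240 d18_48 d18_49) (j2 10240 d18_50 d18_51)) (j2 20480 (j2 10240 d18_52 d18_53) (j2 10240 d18_54 d18_55))) (j2 40960 (j2 20480 (j2 10240 d18_56 d18_57) (j2 10240 d18_58 d18_59)) (j2 20480 (j2 10240 d18_60 d18_61) (j2 10240 d18_62 d18_63))))))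
def D19 : ℕ := (j2 327680 (j2 163840 (j2 81920 (j2 40960 (j2 20480 (j2 10240 d19_0 d19_1) (j2 10240 d19_2 d19_3)) (j2 20480 (j2 10240 d19_4 d19_5) (j2 10240 d19_6 d19_7))) (j2 40960 (j2 20480 (j2 10240 d19_8 d19_9) (j2 10240 d19_10 d19_11)) (j2 20480 (j2 10240 d19_12 d19_13) (j2 10240 d19_14 d19_15)))) (j2 81920 (j2 40960 (j2 20480 (j2 10240 d19_16 d19_17) (j2 10240 d19_18 d19_19)) (j2 20480 (j2 10240 d19_20 d19_21) (j2 10240 d19_22 d19_23))) (j2 40960 (j2 20480 (j2 10240 d19_24 d19_25) (j2 10240 d19_26 d19_27)) (j2 20480 (j2 10240 d19_28 d19_29) (j2 10240 d19_30 d19_31))))) (j2 163840 (j2 81920 (j2 40960 (j2 20480 (j2 10240 d19_32 d19_33) (j2 10240 d19_34 d19_35)) (j2 20480 (j2 10240 d19_36 d19_37) (j2 10240 d19_38 d19_39))) (j2 40960 (j2 20480 (j2 10240 d19_40 d19_41) (j2 10240 d19_42 d19_43)) (j2 20480 (j2 10240 d19_44 d19_45) (j2 10240 d19_46 d19_47))))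 (j2 81920 (j2 40960 (j2 20480 (j2 10240 d19_48 d19_49) (j2 10240 d19_50 d19_51)) (j2 20480 (j2 10240 d19_52 d19_53) (j2 10240 d19_54 d19_55))) (j2 40960 (j2 20480 (j2 10240 d19_56 d19_57) (j2 10240 d19_58 d19_59)) (j2 20480 (j2 10240 d19_60 d19_61) (j2 10240 d19_62 d19_63))))))
def D20 : ℕ := (j2 327680 (j2 163840 (j2 81920 (j2 40960 (j2 20480 (j2 10240 d20_0 d20_1) (j2 10240 d20_2 d20_3)) (j2 20480 (j2 10240 d20_4 d20_5) (j2 10240 d20_6 d20_7))) (j2 40960 (j2 20480 (j2 10240 d20_8 d20_9) (j2 10240 d20_10 d20_11)) (j2 20480 (j2 10240 d20_12 d20_13) (j2 10240 d20_14 d20_15)))) (j2 81920 (j2 40960 (j2 20480 (j2 10240 d20_16 d20_17) (j2 10240 d20_18 d20_19)) (j2 20480 (j2 10240 d20_20 d20_21) (j2 10240 d20_22 d20_23))) (j2 40960 (j2 20480 (j2 10240 d20_24 d20_25) (j2 10240 d20_26 d20_27)) (j2 20480 (j2 10240 d20_28 d20_29) (j2 10240 d20_30 d20_31)))))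 (j2 163840 (j2 81920 (j2 40960 (j2 20480 (j2 10240 d20_32 d20_33) (j2 10240 d20_34 d20_35)) (j2 20480 (j2 10240 d20_36 d20_37) (j2 10240 d20_38 d20_39))) (j2 40960 (j2 20480 (j2 10240 d20_40 d20_41) (j2 10240 d20_42 d20_43)) (j2 20480 (j2 10240 d20_44 d20_45) (j2 10240 d20_46 d20_47)))) (j2 81920 (j2 40960 (j2 20480 (j2 10240 d20_48 d20_49) (j2 10240 d20_50 d20_51)) (j2 20480 (j2 10240 d20_52 d20_53) (j2 10240 d20_54 d20_55))) (j2 40960 (j2 20480 (j2 10240 d20_56 d20_57) (j2 10240 d20_58 d20_59)) (j2 20480 (j2 10240 d20_60 d20_61) (j2 10240 d20_62 d20_63))))))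
def D21 : ℕ := (j2 327680 (j2 163840 (j2 81920 (j2 40960 (j2 20480 (j2 10240 d21_0 d21_1) (j2 10240 d21_2 d21_3)) (j2 20480 (j2 10240 d21_4 d21_5) (j2 10240 d21_6 d21_7))) (j2 40960 (j2 20480 (j2 10240 d21_8 d21_9) (j2 10240 d21_10 d21_11)) (j2 20480 (j2 10240 d21_12 d21_13) (j2 10240 d21_14 d21_15)))) (j2 81920 (j2 40960 (j2 20480 (j2 10240 d21_16 d21_17) (j2 10240 d21_18 d21_19)) (j2 20480 (j2 10240 d21_20 d21_21) (j2 10240 d21_22 d21_23))) (j2 40960 (j2 20480 (j2 10240 d21_24 d21_25) (j2 10240 d21_26 d21_27)) (j2 20480 (j2 10240 d21_28 d21_29) (j2 10240 d21_30 d21_31))))) (j2 163840 (j2 81920 (j2 40960 (j2 20480 (j2 10240 d21_32 d21_33) (j2 10240 d21_34 d21_35)) (j2 20480 (j2 10240 d21_36 d21_37) (j2 10240 d21_38 d21_39))) (j2 40960 (j2 20480 (j2 10240 d21_40 d21_41) (j2 10240 d21_42 d21_43)) (j2 20480 (j2 10240 d21_44 d21_45) (j2 10240 d21_46 d21_47))))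 (j2 81920 (j2 40960 (j2 20480 (j2 10240 d21_48 d21_49) (j2 10240 d21_50 d21_51)) (j2 20480 (j2 10240 d21_52 d21_53) (j2 10240 d21_54 d21_55))) (j2 40960 (j2 20480 (j2 10240 d21_56 d21_57) (j2 10240 d21_58 d21_59)) (j2 20480 (j2 10240 d21_60 d21_61) (j2 10240 d21_62 d21_63))))))
def D22 : ℕ := (j2 327680 (j2 163840 (j2 81920 (j2 40960 (j2 20480 (j2 10240 d22_0 d22_1) (j2 10240 d22_2 d22_3)) (j2 20480 (j2 10240 d22_4 d22_5) (j2 10240 d22_6 d22_7))) (j2 40960 (j2 20480 (j2 10240 d22_8 d22_9) (j2 10240 d22_10 d22_11)) (j2 20480 (j2 10240 d22_12 d22_13) (j2 10240 d22_14 d22_15)))) (j2 81920 (j2 40960 (j2 20480 (j2 10240 d22_16 d22_17) (j2 10240 d22_18 d22_19)) (j2 20480 (j2 10240 d22_20 d22_21) (j2 10240 d22_22 d22_23))) (j2 40960 (j2 20480 (j2 10240 d22_24 d22_25) (j2 10240 d22_26 d22_27)) (j2 20480 (j2 10240 d22_28 d22_29) (j2 10240 d22_30 d22_31)))))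 (j2 163840 (j2 81920 (j2 40960 (j2 20480 (j2 10240 d22_32 d22_33) (j2 10240 d22_34 d22_35)) (j2 20480 (j2 10240 d22_36 d22_37) (j2 10240 d22_38 d22_39))) (j2 40960 (j2 20480 (j2 10240 d22_40 d22_41) (j2 10240 d22_42 d22_43)) (j2 20480 (j2 10240 d22_44 d22_45) (j2 10240 d22_46 d22_47)))) (j2 81920 (j2 40960 (j2 20480 (j2 10240 d22_48 d22_49) (j2 10240 d22_50 d22_51)) (j2 20480 (j2 10240 d22_52 d22_53) (j2 10240 d22_54 d22_55))) (j2 40960 (j2 20480 (j2 10240 d22_56 d22_57) (j2 10240 d22_58 d22_59)) (j2 20480 (j2 10240 d22_60 d22_61) (j2 10240 d22_62 d22_63))))))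
def D23 : ℕ := (j2 327680 (j2 163840 (j2 81920 (j2 40960 (j2 20480 (j2 10240 d23_0 d23_1) (j2 10240 d23_2 d23_3)) (j2 20480 (j2 10240 d23_4 d23_5) (j2 10240 d23_6 d23_7))) (j2 40960 (j2 20480 (j2 10240 d23_8 d23_9) (j2 10240 d23_10 d23_11)) (j2 20480 (j2 10240 d23_12 d23_13) (j2 10240 d23_14 d23_15)))) (j2 81920 (j2 40960 (j2 20480 (j2 10240 d23_16 d23_17) (j2 10240 d23_18 d23_19)) (j2 20480 (j2 10240 d23_20 d23_21) (j2 10240 d23_22 d23_23))) (j2 40960 (j2 20480 (j2 10240 d23_24 d23_25) (j2 10240 d23_26 d23_27)) (j2 20480 (j2 10240 d23_28 d23_29) (j2 10240 d23_30 d23_31))))) (j2 163840 (j2 81920 (j2 40960 (j2 20480 (j2 10240 d23_32 d23_33) (j2 10240 d23_34 d23_35)) (j2 20480 (j2 10240 d23_36 d23_37) (j2 10240 d23_38 d23_39))) (j2 40960 (j2 20480 (j2 10240 d23_40 d23_41) (j2 10240 d23_42 d23_43)) (j2 20480 (j2 10240 d23_44 d23_45) (j2 10240 d23_46 d23_47))))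 (j2 81920 (j2 40960 (j2 20480 (j2 10240 d23_48 d23_49) (j2 10240 d23_50 d23_51)) (j2 20480 (j2 10240 d23_52 d23_53) (j2 10240 d23_54 d23_55))) (j2 40960 (j2 20480 (j2 10240 d23_56 d23_57) (j2 10240 d23_58 d23_59)) (j2 20480 (j2 10240 d23_60 d23_61) (j2 10240 d23_62 d23_63))))))
def D24 : ℕ := (j2 327680 (j2 163840 (j2 81920 (j2 40960 (j2 20480 (j2 10240 d24_0 d24_1) (j2 10240 d24_2 d24_3)) (j2 20480 (j2 10240 d24_4 d24_5) (j2 10240 d24_6 d24_7))) (j2 40960 (j2 20480 (j2 10240 d24_8 d24_9) (j2 10240 d24_10 d24_11)) (j2 20480 (j2 10240 d24_12 d24_13) (j2 10240 d24_14 d24_15)))) (j2 81920 (j2 40960 (j2 20480 (j2 10240 d24_16 d24_17) (j2 10240 d24_18 d24_19)) (j2 20480 (j2 10240 d24_20 d24_21) (j2 10240 d24_22 d24_23))) (j2 40960 (j2 20480 (j2 10240 d24_24 d24_25) (j2 10240 d24_26 d24_27)) (j2 20480 (j2 10240 d24_28 d24_29) (j2 10240 d24_30 d24_31)))))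 (j2 163840 (j2 81920 (j2 40960 (j2 20480 (j2 10240 d24_32 d24_33) (j2 10240 d24_34 d24_35)) (j2 20480 (j2 10240 d24_36 d24_37) (j2 10240 d24_38 d24_39))) (j2 40960 (j2 20480 (j2 10240 d24_40 d24_41) (j2 10240 d24_42 d24_43)) (j2 20480 (j2 10240 d24_44 d24_45) (j2 10240 d24_46 d24_47)))) (j2 81920 (j2 40960 (j2 20480 (j2 10240 d24_48 d24_49) (j2 10240 d24_50 d24_51)) (j2 20480 (j2 10240 d24_52 d24_53) (j2 10240 d24_54 d24_55))) (j2 40960 (j2 20480 (j2 10240 d24_56 d24_57) (j2 10240 d24_58 d24_59)) (j2 20480 (j2 10240 d24_60 d24_61) (j2 10240 d24_62 d24_63))))))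
def D25 : ℕ := (j2 327680 (j2 163840 (j2 81920 (j2 40960 (j2 20480 (j2 10240 d25_0 d25_1) (j2 10240 d25_2 d25_3)) (j2 20480 (j2 10240 d25_4 d25_5) (j2 10240 d25_6 d25_7))) (j2 40960 (j2 20480 (j2 10240 d25_8 d25_9) (j2 10240 d25_10 d25_11)) (j2 20480 (j2 10240 d25_12 d25_13) (j2 10240 d25_14 d25_15)))) (j2 81920 (j2 40960 (j2 20480 (j2 10240 d25_16 d25_17) (j2 10240 d25_18 d25_19)) (j2 20480 (j2 10240 d25_20 d25_21) (j2 10240 d25_22 d25_23))) (j2 40960 (j2 20480 (j2 10240 d25_24 d25_25) (j2 10240 d25_26 d25_27)) (j2 20480 (j2 10240 d25_28 d25_29) (j2 10240 d25_30 d25_31))))) (j2 163840 (j2 81920 (j2 40960 (j2 20480 (j2 10240 d25_32 d25_33) (j2 10240 d25_34 d25_35)) (j2 20480 (j2 10240 d25_36 d25_37) (j2 10240 d25_38 d25_39))) (j2 40960 (j2 20480 (j2 10240 d25_40 d25_41) (j2 10240 d25_42 d25_43)) (j2 20480 (j2 10240 d25_44 d25_45) (j2 10240 d25_46 d25_47))))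 (j2 81920 (j2 40960 (j2 20480 (j2 10240 d25_48 d25_49) (j2 10240 d25_50 d25_51)) (j2 20480 (j2 10240 d25_52 d25_53) (j2 10240 d25_54 d25_55))) (j2 40960 (j2 20480 (j2 10240 d25_56 d25_57) (j2 10240 d25_58 d25_59)) (j2 20480 (j2 10240 d25_60 d25_61) (j2 10240 d25_62 d25_63))))))
def D26 : ℕ := (j2 327680 (j2 163840 (j2 81920 (j2 40960 (j2 20480 (j2 10240 d26_0 d26_1) (j2 10240 d26_2 d26_3)) (j2 20480 (j2 10240 d26_4 d26_5) (j2 10240 d26_6 d26_7))) (j2 40960 (j2 20480 (j2 10240 d26_8 d26_9) (j2 10240 d26_10 d26_11)) (j2 20480 (j2 10240 d26_12 d26_13) (j2 10240 d26_14 d26_15)))) (j2 81920 (j2 40960 (j2 20480 (j2 10240 d26_16 d26_17) (j2 10240 d26_18 d26_19)) (j2 20480 (j2 10240 d26_20 d26_21) (j2 10240 d26_22 d26_23))) (j2 40960 (j2 20480 (j2 10240 d26_24 d26_25) (j2 10240 d26_26 d26_27)) (j2 20480 (j2 10240 d26_28 d26_29) (j2 10240 d26_30 d26_31)))))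 (j2 163840 (j2 81920 (j2 40960 (j2 20480 (j2 10240 d26_32 d26_33) (j2 10240 d26_34 d26_35)) (j2 20480 (j2 10240 d26_36 d26_37) (j2 10240 d26_38 d26_39))) (j2 40960 (j2 20480 (j2 10240 d26_40 d26_41) (j2 10240 d26_42 d26_43)) (j2 20480 (j2 10240 d26_44 d26_45) (j2 10240 d26_46 d26_47)))) (j2 81920 (j2 40960 (j2 20480 (j2 10240 d26_48 d26_49) (j2 10240 d26_50 d26_51)) (j2 20480 (j2 10240 d26_52 d26_53) (j2 10240 d26_54 d26_55))) (j2 40960 (j2 20480 (j2 10240 d26_56 d26_57) (j2 10240 d26_58 d26_59)) (j2 20480 (j2 10240 d26_60 d26_61) (j2 10240 d26_62 d26_63))))))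
def D27 : ℕ := (j2 327680 (j2 163840 (j2 81920 (j2 40960 (j2 20480 (j2 10240 d27_0 d27_1) (j2 10240 d27_2 d27_3)) (j2 20480 (j2 10240 d27_4 d27_5) (j2 10240 d27_6 d27_7))) (j2 40960 (j2 20480 (j2 10240 d27_8 d27_9) (j2 10240 d27_10 d27_11)) (j2 20480 (j2 10240 d27_12 d27_13) (j2 10240 d27_14 d27_15)))) (j2 81920 (j2 40960 (j2 20480 (j2 10240 d27_16 d27_17) (j2 10240 d27_18 d27_19)) (j2 20480 (j2 10240 d27_20 d27_21) (j2 10240 d27_22 d27_23))) (j2 40960 (j2 20480 (j2 10240 d27_24 d27_25) (j2 10240 d27_26 d27_27)) (j2 20480 (j2 10240 d27_28 d27_29) (j2 10240 d27_30 d27_31))))) (j2 163840 (j2 81920 (j2 40960 (j2 20480 (j2 10240 d27_32 d27_33) (j2 10240 d27_34 d27_35)) (j2 20480 (j2 10240 d27_36 d27_37) (j2 10240 d27_38 d27_39))) (j2 40960 (j2 20480 (j2 10240 d27_40 d27_41) (j2 10240 d27_42 d27_43)) (j2 20480 (j2 10240 d27_44 d27_45) (j2 10240 d27_46 d27_47))))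 (j2 81920 (j2 40960 (j2 20480 (j2 10240 d27_48 d27_49) (j2 10240 d27_50 d27_51)) (j2 20480 (j2 10240 d27_52 d27_53) (j2 10240 d27_54 d27_55))) (j2 40960 (j2 20480 (j2 10240 d27_56 d27_57) (j2 10240 d27_58 d27_59)) (j2 20480 (j2 10240 d27_60 d27_61) (j2 10240 d27_62 d27_63))))))
def D28 : ℕ := (j2 327680 (j2 163840 (j2 81920 (j2 40960 (j2 20480 (j2 10240 d28_0 d28_1) (j2 10240 d28_2 d28_3)) (j2 20480 (j2 10240 d28_4 d28_5) (j2 10240 d28_6 d28_7))) (j2 40960 (j2 20480 (j2 10240 d28_8 d28_9) (j2 10240 d28_10 d28_11)) (j2 20480 (j2 10240 d28_12 d28_13) (j2 10240 d28_14 d28_15)))) (j2 81920 (j2 40960 (j2 20480 (j2 10240 d28_16 d28_17) (j2 10240 d28_18 d28_19)) (j2 20480 (j2 10240 d28_20 d28_21) (j2 10240 d28_22 d28_23))) (j2 40960 (j2 20480 (j2 10240 d28_24 d28_25) (j2 10240 d28_26 d28_27)) (j2 20480 (j2 10240 d28_28 d28_29) (j2 10240 d28_30 d28_31)))))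 (j2 163840 (j2 81920 (j2 40960 (j2 20480 (j2 10240 d28_32 d28_33) (j2 10240 d28_34 d28_35)) (j2 20480 (j2 10240 d28_36 d28_37) (j2 10240 d28_38 d28_39))) (j2 40960 (j2 20480 (j2 10240 d28_40 d28_41) (j2 10240 d28_42 d28_43)) (j2 20480 (j2 10240 d28_44 d28_45) (j2 10240 d28_46 d28_47)))) (j2 81920 (j2 40960 (j2 20480 (j2 10240 d28_48 d28_49) (j2 10240 d28_50 d28_51)) (j2 20480 (j2 10240 d28_52 d28_53) (j2 10240 d28_54 d28_55))) (j2 40960 (j2 20480 (j2 10240 d28_56 d28_57) (j2 10240 d28_58 d28_59)) (j2 20480 (j2 10240 d28_60 d28_61) (j2 10240 d28_62 d28_63))))))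
def D29 : ℕ := (j2 327680 (j2 163840 (j2 81920 (j2 40960 (j2 20480 (j2 10240 d29_0 d29_1) (j2 10240 d29_2 d29_3)) (j2 20480 (j2 10240 d29_4 d29_5) (j2 10240 d29_6 d29_7))) (j2 40960 (j2 20480 (j2 10240 d29_8 d29_9) (j2 10240 d29_10 d29_11)) (j2 20480 (j2 10240 d29_12 d29_13) (j2 10240 d29_14 d29_15)))) (j2 81920 (j2 40960 (j2 20480 (j2 10240 d29_16 d29_17) (j2 10240 d29_18 d29_19)) (j2 20480 (j2 10240 d29_20 d29_21) (j2 10240 d29_22 d29_23))) (j2 40960 (j2 20480 (j2 10240 d29_24 d29_25) (j2 10240 d29_26 d29_27)) (j2 20480 (j2 10240 d29_28 d29_29) (j2 10240 d29_30 d29_31))))) (j2 163840 (j2 81920 (j2 40960 (j2 20480 (j2 10240 d29_32 d29_33) (j2 10240 d29_34 d29_35)) (j2 20480 (j2 10240 d29_36 d29_37) (j2 10240 d29_38 d29_39))) (j2 40960 (j2 20480 (j2 10240 d29_40 d29_41) (j2 10240 d29_42 d29_43)) (j2 20480 (j2 10240 d29_44 d29_45) (j2 10240 d29_46 d29_47))))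 (j2 81920 (j2 40960 (j2 20480 (j2 10240 d29_48 d29_49) (j2 10240 d29_50 d29_51)) (j2 20480 (j2 10240 d29_52 d29_53) (j2 10240 d29_54 d29_55))) (j2 40960 (j2 20480 (j2 10240 d29_56 d29_57) (j2 10240 d29_58 d29_59)) (j2 20480 (j2 10240 d29_60 d29_61) (j2 10240 d29_62 d29_63))))))
def D30 : ℕ := (j2 327680 (j2 163840 (j2 81920 (j2 40960 (j2 20480 (j2 10240 d30_0 d30_1) (j2 10240 d30_2 d30_3)) (j2 20480 (j2 10240 d30_4 d30_5) (j2 10240 d30_6 d30_7))) (j2 40960 (j2 20480 (j2 10240 d30_8 d30_9) (j2 10240 d30_10 d30_11)) (j2 20480 (j2 10240 d30_12 d30_13) (j2 10240 d30_14 d30_15)))) (j2 81920 (j2 40960 (j2 20480 (j2 10240 d30_16 d30_17) (j2 10240 d30_18 d30_19)) (j2 20480 (j2 10240 d30_20 d30_21) (j2 10240 d30_22 d30_23))) (j2 40960 (j2 20480 (j2 10240 d30_24 d30_25) (j2 10240 d30_26 d30_27)) (j2 20480 (j2 10240 d30_28 d30_29) (j2 10240 d30_30 d30_31)))))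 (j2 163840 (j2 81920 (j2 40960 (j2 20480 (j2 10240 d30_32 d30_33) (j2 10240 d30_34 d30_35)) (j2 20480 (j2 10240 d30_36 d30_37) (j2 10240 d30_38 d30_39))) (j2 40960 (j2 20480 (j2 10240 d30_40 d30_41) (j2 10240 d30_42 d30_43)) (j2 20480 (j2 10240 d30_44 d30_45) (j2 10240 d30_46 d30_47)))) (j2 81920 (j2 40960 (j2 20480 (j2 10240 d30_48 d30_49) (j2 10240 d30_50 d30_51)) (j2 20480 (j2 10240 d30_52 d30_53) (j2 10240 d30_54 d30_55))) (j2 40960 (j2 20480 (j2 10240 d30_56 d30_57) (j2 10240 d30_58 d30_59)) (j2 20480 (j2 10240 d30_60 d30_61) (j2 10240 d30_62 d30_63))))))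
def D31 : ℕ := (j2 327680 (j2 163840 (j2 81920 (j2 40960 (j2 20480 (j2 10240 d31_0 d31_1) (j2 10240 d31_2 d31_3)) (j2 20480 (j2 10240 d31_4 d31_5) (j2 10240 d31_6 d31_7))) (j2 40960 (j2 20480 (j2 10240 d31_8 d31_9) (j2 10240 d31_10 d31_11)) (j2 20480 (j2 10240 d31_12 d31_13) (j2 10240 d31_14 d31_15)))) (j2 81920 (j2 40960 (j2 20480 (j2 10240 d31_16 d31_17) (j2 10240 d31_18 d31_19)) (j2 20480 (j2 10240 d31_20 d31_21) (j2 10240 d31_22 d31_23))) (j2 40960 (j2 20480 (j2 10240 d31_24 d31_25) (j2 10240 d31_26 d31_27)) (j2 20480 (j2 10240 d31_28 d31_29) (j2 10240 d31_30 d31_31))))) (j2 163840 (j2 81920 (j2 40960 (j2 20480 (j2 10240 d31_32 d31_33) (j2 10240 d31_34 d31_35)) (j2 20480 (j2 10240 d31_36 d31_37) (j2 10240 d31_38 d31_39))) (j2 40960 (j2 20480 (j2 10240 d31_40 d31_41) (j2 10240 d31_42 d31_43)) (j2 20480 (j2 10240 d31_44 d31_45) (j2 10240 d31_46 d31_47))))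 (j2 81920 (j2 40960 (j2 20480 (j2 10240 d31_48 d31_49) (j2 10240 d31_50 d31_51)) (j2 20480 (j2 10240 d31_52 d31_53) (j2 10240 d31_54 d31_55))) (j2 40960 (j2 20480 (j2 10240 d31_56 d31_57) (j2 10240 d31_58 d31_59)) (j2 20480 (j2 10240 d31_60 d31_61) (j2 10240 d31_62 d31_63))))))
def D32 : ℕ := (j2 327680 (j2 163840 (j2 81920 (j2 40960 (j2 20480 (j2 10240 d32_0 d32_1) (j2 10240 d32_2 d32_3)) (j2 20480 (j2 10240 d32_4 d32_5) (j2 10240 d32_6 d32_7))) (j2 40960 (j2 20480 (j2 10240 d32_8 d32_9) (j2 10240 d32_10 d32_11)) (j2 20480 (j2 10240 d32_12 d32_13) (j2 10240 d32_14 d32_15)))) (j2 81920 (j2 40960 (j2 20480 (j2 10240 d32_16 d32_17) (j2 10240 d32_18 d32_19)) (j2 20480 (j2 10240 d32_20 d32_21) (j2 10240 d32_22 d32_23))) (j2 40960 (j2 20480 (j2 10240 d32_24 d32_25) (j2 10240 d32_26 d32_27)) (j2 20480 (j2 10240 d32_28 d32_29) (j2 10240 d32_30 d32_31)))))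 (j2 163840 (j2 81920 (j2 40960 (j2 20480 (j2 10240 d32_32 d32_33) (j2 10240 d32_34 d32_35)) (j2 20480 (j2 10240 d32_36 d32_37) (j2 10240 d32_38 d32_39))) (j2 40960 (j2 20480 (j2 10240 d32_40 d32_41) (j2 10240 d32_42 d32_43)) (j2 20480 (j2 10240 d32_44 d32_45) (j2 10240 d32_46 d32_47)))) (j2 81920 (j2 40960 (j2 20480 (j2 10240 d32_48 d32_49) (j2 10240 d32_50 d32_51)) (j2 20480 (j2 10240 d32_52 d32_53) (j2 10240 d32_54 d32_55))) (j2 40960 (j2 20480 (j2 10240 d32_56 d32_57) (j2 10240 d32_58 d32_59)) (j2 20480 (j2 10240 d32_60 d32_61) (j2 10240 d32_62 d32_63))))))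
def D33 : ℕ := (j2 327680 (j2 163840 (j2 81920 (j2 40960 (j2 20480 (j2 10240 d33_0 d33_1) (j2 10240 d33_2 d33_3)) (j2 20480 (j2 10240 d33_4 d33_5) (j2 10240 d33_6 d33_7))) (j2 40960 (j2 20480 (j2 10240 d33_8 d33_9) (j2 10240 d33_10 d33_11)) (j2 20480 (j2 10240 d33_12 d33_13) (j2 10240 d33_14 d33_15)))) (j2 81920 (j2 40960 (j2 20480 (j2 10240 d33_16 d33_17) (j2 10240 d33_18 d33_19)) (j2 20480 (j2 10240 d33_20 d33_21) (j2 10240 d33_22 d33_23))) (j2 40960 (j2 20480 (j2 10240 d33_24 d33_25) (j2 10240 d33_26 d33_27)) (j2 20480 (j2 10240 d33_28 d33_29) (j2 10240 d33_30 d33_31))))) (j2 163840 (j2 81920 (j2 40960 (j2 20480 (j2 10240 d33_32 d33_33) (j2 10240 d33_34 d33_35)) (j2 20480 (j2 10240 d33_36 d33_37) (j2 10240 d33_38 d33_39))) (j2 40960 (j2 20480 (j2 10240 d33_40 d33_41) (j2 10240 d33_42 d33_43)) (j2 20480 (j2 10240 d33_44 d33_45) (j2 10240 d33_46 d33_47))))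 (j2 81920 (j2 40960 (j2 20480 (j2 10240 d33_48 d33_49) (j2 10240 d33_50 d33_51)) (j2 20480 (j2 10240 d33_52 d33_53) (j2 10240 d33_54 d33_55))) (j2 40960 (j2 20480 (j2 10240 d33_56 d33_57) (j2 10240 d33_58 d33_59)) (j2 20480 (j2 10240 d33_60 d33_61) (j2 10240 d33_62 d33_63))))))
def D34 : ℕ := (j2 327680 (j2 163840 (j2 81920 (j2 40960 (j2 20480 (j2 10240 d34_0 d34_1) (j2 10240 d34_2 d34_3)) (j2 20480 (j2 10240 d34_4 d34_5) (j2 10240 d34_6 d34_7))) (j2 40960 (j2 20480 (j2 10240 d34_8 d34_9) (j2 10240 d34_10 d34_11)) (j2 20480 (j2 10240 d34_12 d34_13) (j2 10240 d34_14 d34_15)))) (j2 81920 (j2 40960 (j2 20480 (j2 10240 d34_16 d34_17) (j2 10240 d34_18 d34_19)) (j2 20480 (j2 10240 d34_20 d34_21) (j2 10240 d34_22 d34_23))) (j2 40960 (j2 20480 (j2 10240 d34_24 d34_25) (j2 10240 d34_26 d34_27)) (j2 20480 (j2 10240 d34_28 d34_29) (j2 10240 d34_30 d34_31)))))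 (j2 163840 (j2 81920 (j2 40960 (j2 20480 (j2 10240 d34_32 d34_33) (j2 10240 d34_34 d34_35)) (j2 20480 (j2 10240 d34_36 d34_37) (j2 10240 d34_38 d34_39))) (j2 40960 (j2 20480 (j2 10240 d34_40 d34_41) (j2 10240 d34_42 d34_43)) (j2 20480 (j2 10240 d34_44 d34_45) (j2 10240 d34_46 d34_47)))) (j2 81920 (j2 40960 (j2 20480 (j2 10240 d34_48 d34_49) (j2 10240 d34_50 d34_51)) (j2 20480 (j2 10240 d34_52 d34_53) (j2 10240 d34_54 d34_55))) (j2 40960 (j2 20480 (j2 10240 d34_56 d34_57) (j2 10240 d34_58 d34_59)) (j2 20480 (j2 10240 d34_60 d34_61) (j2 10240 d34_62 d34_63))))))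
def D35 : ℕ := (j2 327680 (j2 163840 (j2 81920 (j2 40960 (j2 20480 (j2 10240 d35_0 d35_1) (j2 10240 d35_2 d35_3)) (j2 20480 (j2 10240 d35_4 d35_5) (j2 10240 d35_6 d35_7))) (j2 40960 (j2 20480 (j2 10240 d35_8 d35_9) (j2 10240 d35_10 d35_11)) (j2 20480 (j2 10240 d35_12 d35_13) (j2 10240 d35_14 d35_15)))) (j2 81920 (j2 40960 (j2 20480 (j2 10240 d35_16 d35_17) (j2 10240 d35_18 d35_19)) (j2 20480 (j2 10240 d35_20 d35_21) (j2 10240 d35_22 d35_23))) (j2 40960 (j2 20480 (j2 10240 d35_24 d35_25) (j2 10240 d35_26 d35_27)) (j2 20480 (j2 10240 d35_28 d35_29) (j2 10240 d35_30 d35_31))))) (j2 163840 (j2 81920 (j2 40960 (j2 20480 (j2 10240 d35_32 d35_33) (j2 10240 d35_34 d35_35)) (j2 20480 (j2 10240 d35_36 d35_37) (j2 10240 d35_38 d35_39))) (j2 40960 (j2 20480 (j2 10240 d35_40 d35_41) (j2 10240 d35_42 d35_43)) (j2 20480 (j2 10240 d35_44 d35_45) (j2 10240 d35_46 d35_47))))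 (j2 81920 (j2 40960 (j2 20480 (j2 10240 d35_48 d35_49) (j2 10240 d35_50 d35_51)) (j2 20480 (j2 10240 d35_52 d35_53) (j2 10240 d35_54 d35_55))) (j2 40960 (j2 20480 (j2 10240 d35_56 d35_57) (j2 10240 d35_58 d35_59)) (j2 20480 (j2 10240 d35_60 d35_61) (j2 10240 d35_62 d35_63))))))
def D36 : ℕ := (j2 327680 (j2 163840 (j2 81920 (j2 40960 (j2 20480 (j2 10240 d36_0 d36_1) (j2 10240 d36_2 d36_3)) (j2 20480 (j2 10240 d36_4 d36_5) (j2 10240 d36_6 d36_7))) (j2 40960 (j2 20480 (j2 10240 d36_8 d36_9) (j2 10240 d36_10 d36_11)) (j2 20480 (j2 10240 d36_12 d36_13) (j2 10240 d36_14 d36_15)))) (j2 81920 (j2 40960 (j2 20480 (j2 10240 d36_16 d36_17) (j2 10240 d36_18 d36_19)) (j2 20480 (j2 10240 d36_20 d36_21) (j2 10240 d36_22 d36_23))) (j2 40960 (j2 20480 (j2 10240 d36_24 d36_25) (j2 10240 d36_26 d36_27)) (j2 20480 (j2 10240 d36_28 d36_29) (j2 10240 d36_30 d36_31)))))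 (j2 163840 (j2 81920 (j2 40960 (j2 20480 (j2 10240 d36_32 d36_33) (j2 10240 d36_34 d36_35)) (j2 20480 (j2 10240 d36_36 d36_37) (j2 10240 d36_38 d36_39))) (j2 40960 (j2 20480 (j2 10240 d36_40 d36_41) (j2 10240 d36_42 d36_43)) (j2 20480 (j2 10240 d36_44 d36_45) (j2 10240 d36_46 d36_47)))) (j2 81920 (j2 40960 (j2 20480 (j2 10240 d36_48 d36_49) (j2 10240 d36_50 d36_51)) (j2 20480 (j2 10240 d36_52 d36_53) (j2 10240 d36_54 d36_55))) (j2 40960 (j2 20480 (j2 10240 d36_56 d36_57) (j2 10240 d36_58 d36_59)) (j2 20480 (j2 10240 d36_60 d36_61) (j2 10240 d36_62 d36_63))))))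
def D37 : ℕ := (j2 327680 (j2 163840 (j2 81920 (j2 40960 (j2 20480 (j2 10240 d37_0 d37_1) (j2 10240 d37_2 d37_3)) (j2 20480 (j2 10240 d37_4 d37_5) (j2 10240 d37_6 d37_7))) (j2 40960 (j2 20480 (j2 10240 d37_8 d37_9) (j2 10240 d37_10 d37_11)) (j2 20480 (j2 10240 d37_12 d37_13) (j2 10240 d37_14 d37_15)))) (j2 81920 (j2 40960 (j2 20480 (j2 10240 d37_16 d37_17) (j2 10240 d37_18 d37_19)) (j2 20480 (j2 10240 d37_20 d37_21) (j2 10240 d37_22 d37_23))) (j2 40960 (j2 20480 (j2 10240 d37_24 d37_25) (j2 10240 d37_26 d37_27)) (j2 20480 (j2 10240 d37_28 d37_29) (j2 10240 d37_30 d37_31))))) (j2 163840 (j2 81920 (j2 40960 (j2 20480 (j2 10240 d37_32 d37_33) (j2 10240 d37_34 d37_35)) (j2 20480 (j2 10240 d37_36 d37_37) (j2 10240 d37_38 d37_39))) (j2 40960 (j2 20480 (j2 10240 d37_40 d37_41) (j2 10240 d37_42 d37_43)) (j2 20480 (j2 10240 d37_44 d37_45) (j2 10240 d37_46 d37_47))))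 (j2 81920 (j2 40960 (j2 20480 (j2 10240 d37_48 d37_49) (j2 10240 d37_50 d37_51)) (j2 20480 (j2 10240 d37_52 d37_53) (j2 10240 d37_54 d37_55))) (j2 40960 (j2 20480 (j2 10240 d37_56 d37_57) (j2 10240 d37_58 d37_59)) (j2 20480 (j2 10240 d37_60 d37_61) (j2 10240 d37_62 d37_63))))))
def D38 : ℕ := (j2 327680 (j2 163840 (j2 81920 (j2 40960 (j2 20480 (j2 10240 d38_0 d38_1) (j2 10240 d38_2 d38_3)) (j2 20480 (j2 10240 d38_4 d38_5) (j2 10240 d38_6 d38_7))) (j2 40960 (j2 20480 (j2 10240 d38_8 d38_9) (j2 10240 d38_10 d38_11)) (j2 20480 (j2 10240 d38_12 d38_13) (j2 10240 d38_14 d38_15)))) (j2 81920 (j2 40960 (j2 20480 (j2 10240 d38_16 d38_17) (j2 10240 d38_18 d38_19)) (j2 20480 (j2 10240 d38_20 d38_21) (j2 10240 d38_22 d38_23))) (j2 40960 (j2 20480 (j2 10240 d38_24 d38_25) (j2 10240 d38_26 d38_27)) (j2 20480 (j2 10240 d38_28 d38_29) (j2 10240 d38_30 d38_31)))))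 (j2 163840 (j2 81920 (j2 40960 (j2 20480 (j2 10240 d38_32 d38_33) (j2 10240 d38_34 d38_35)) (j2 20480 (j2 10240 d38_36 d38_37) (j2 10240 d38_38 d38_39))) (j2 40960 (j2 20480 (j2 10240 d38_40 d38_41) (j2 10240 d38_42 d38_43)) (j2 20480 (j2 10240 d38_44 d38_45) (j2 10240 d38_46 d38_47)))) (j2 81920 (j2 40960 (j2 20480 (j2 10240 d38_48 d38_49) (j2 10240 d38_50 d38_51)) (j2 20480 (j2 10240 d38_52 d38_53) (j2 10240 d38_54 d38_55))) (j2 40960 (j2 20480 (j2 10240 d38_56 d38_57) (j2 10240 d38_58 d38_59)) (j2 20480 (j2 10240 d38_60 d38_61) (j2 10240 d38_62 d38_63))))))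
def D39 : ℕ := (j2 327680 (j2 163840 (j2 81920 (j2 40960 (j2 20480 (j2 10240 d39_0 d39_1) (j2 10240 d39_2 d39_3)) (j2 20480 (j2 10240 d39_4 d39_5) (j2 10240 d39_6 d39_7))) (j2 40960 (j2 20480 (j2 10240 d39_8 d39_9) (j2 10240 d39_10 d39_11)) (j2 20480 (j2 10240 d39_12 d39_13) (j2 10240 d39_14 d39_15)))) (j2 81920 (j2 40960 (j2 20480 (j2 10240 d39_16 d39_17) (j2 10240 d39_18 d39_19)) (j2 20480 (j2 10240 d39_20 d39_21) (j2 10240 d39_22 d39_23))) (j2 40960 (j2 20480 (j2 10240 d39_24 d39_25) (j2 10240 d39_26 d39_27)) (j2 20480 (j2 10240 d39_28 d39_29) (j2 10240 d39_30 d39_31))))) (j2 163840 (j2 81920 (j2 40960 (j2 20480 (j2 10240 d39_32 d39_33) (j2 10240 d39_34 d39_35)) (j2 20480 (j2 10240 d39_36 d39_37) (j2 10240 d39_38 d39_39))) (j2 40960 (j2 20480 (j2 10240 d39_40 d39_41) (j2 10240 d39_42 d39_43)) (j2 20480 (j2 10240 d39_44 d39_45) (j2 10240 d39_46 d39_47))))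 (j2 81920 (j2 40960 (j2 20480 (j2 10240 d39_48 d39_49) (j2 10240 d39_50 d39_51)) (j2 20480 (j2 10240 d39_52 d39_53) (j2 10240 d39_54 d39_55))) (j2 40960 (j2 20480 (j2 10240 d39_56 d39_57) (j2 10240 d39_58 d39_59)) (j2 20480 (j2 10240 d39_60 d39_61) (j2 10240 d39_62 d39_63))))))
def D40 : ℕ := (j2 327680 (j2 163840 (j2 81920 (j2 40960 (j2 20480 (j2 10240 d40_0 d40_1) (j2 10240 d40_2 d40_3)) (j2 20480 (j2 10240 d40_4 d40_5) (j2 10240 d40_6 d40_7))) (j2 40960 (j2 20480 (j2 10240 d40_8 d40_9) (j2 10240 d40_10 d40_11)) (j2 20480 (j2 10240 d40_12 d40_13) (j2 10240 d40_14 d40_15)))) (j2 81920 (j2 40960 (j2 20480 (j2 10240 d40_16 d40_17) (j2 10240 d40_18 d40_19)) (j2 20480 (j2 10240 d40_20 d40_21) (j2 10240 d40_22 d40_23))) (j2 40960 (j2 20480 (j2 10240 d40_24 d40_25) (j2 10240 d40_26 d40_27)) (j2 20480 (j2 10240 d40_28 d40_29) (j2 10240 d40_30 d40_31)))))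 (j2 163840 (j2 81920 (j2 40960 (j2 20480 (j2 10240 d40_32 d40_33) (j2 10240 d40_34 d40_35)) (j2 20480 (j2 10240 d40_36 d40_37) (j2 10240 d40_38 d40_39))) (j2 40960 (j2 20480 (j2 10240 d40_40 d40_41) (j2 10240 d40_42 d40_43)) (j2 20480 (j2 10240 d40_44 d40_45) (j2 10240 d40_46 d40_47)))) (j2 81920 (j2 40960 (j2 20480 (j2 10240 d40_48 d40_49) (j2 10240 d40_50 d40_51)) (j2 20480 (j2 10240 d40_52 d40_53) (j2 10240 d40_54 d40_55))) (j2 40960 (j2 20480 (j2 10240 d40_56 d40_57) (j2 10240 d40_58 d40_59)) (j2 20480 (j2 10240 d40_60 d40_61) (j2 10240 d40_62 d40_63))))))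
def D41 : ℕ := (j2 327680 (j2 163840 (j2 81920 (j2 40960 (j2 20480 (j2 10240 d41_0 d41_1) (j2 10240 d41_2 d41_3)) (j2 20480 (j2 10240 d41_4 d41_5) (j2 10240 d41_6 d41_7))) (j2 40960 (j2 20480 (j2 10240 d41_8 d41_9) (j2 10240 d41_10 d41_11)) (j2 20480 (j2 10240 d41_12 d41_13) (j2 10240 d41_14 d41_15)))) (j2 81920 (j2 40960 (j2 20480 (j2 10240 d41_16 d41_17) (j2 10240 d41_18 d41_19)) (j2 20480 (j2 10240 d41_20 d41_21) (j2 10240 d41_22 d41_23))) (j2 40960 (j2 20480 (j2 10240 d41_24 d41_25) (j2 10240 d41_26 d41_27)) (j2 20480 (j2 10240 d41_28 d41_29) (j2 10240 d41_30 d41_31))))) (j2 163840 (j2 81920 (j2 40960 (j2 20480 (j2 10240 d41_32 d41_33) (j2 10240 d41_34 d41_35)) (j2 20480 (j2 10240 d41_36 d41_37) (j2 10240 d41_38 d41_39))) (j2 40960 (j2 20480 (j2 10240 d41_40 d41_41) (j2 10240 d41_42 d41_43)) (j2 20480 (j2 10240 d41_44 d41_45) (j2 10240 d41_46 d41_47))))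 (j2 81920 (j2 40960 (j2 20480 (j2 10240 d41_48 d41_49) (j2 10240 d41_50 d41_51)) (j2 20480 (j2 10240 d41_52 d41_53) (j2 10240 d41_54 d41_55))) (j2 40960 (j2 20480 (j2 10240 d41_56 d41_57) (j2 10240 d41_58 d41_59)) (j2 20480 (j2 10240 d41_60 d41_61) (j2 10240 d41_62 d41_63))))))
def D42 : ℕ := (j2 327680 (j2 163840 (j2 81920 (j2 40960 (j2 20480 (j2 10240 d42_0 d42_1) (j2 10240 d42_2 d42_3)) (j2 20480 (j2 10240 d42_4 d42_5) (j2 10240 d42_6 d42_7))) (j2 40960 (j2 20480 (j2 10240 d42_8 d42_9) (j2 10240 d42_10 d42_11)) (j2 20480 (j2 10240 d42_12 d42_13) (j2 10240 d42_14 d42_15)))) (j2 81920 (j2 40960 (j2 20480 (j2 10240 d42_16 d42_17) (j2 10240 d42_18 d42_19)) (j2 20480 (j2 10240 d42_20 d42_21) (j2 10240 d42_22 d42_23))) (j2 40960 (j2 20480 (j2 10240 d42_24 d42_25) (j2 10240 d42_26 d42_27)) (j2 20480 (j2 10240 d42_28 d42_29) (j2 10240 d42_30 d42_31)))))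 (j2 163840 (j2 81920 (j2 40960 (j2 20480 (j2 10240 d42_32 d42_33) (j2 10240 d42_34 d42_35)) (j2 20480 (j2 10240 d42_36 d42_37) (j2 10240 d42_38 d42_39))) (j2 40960 (j2 20480 (j2 10240 d42_40 d42_41) (j2 10240 d42_42 d42_43)) (j2 20480 (j2 10240 d42_44 d42_45) (j2 10240 d42_46 d42_47)))) (j2 81920 (j2 40960 (j2 20480 (j2 10240 d42_48 d42_49) (j2 10240 d42_50 d42_51)) (j2 20480 (j2 10240 d42_52 d42_53) (j2 10240 d42_54 d42_55))) (j2 40960 (j2 20480 (j2 10240 d42_56 d42_57) (j2 10240 d42_58 d42_59)) (j2 20480 (j2 10240 d42_60 d42_61) (j2 10240 d42_62 d42_63))))))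
def D43 : ℕ := (j2 327680 (j2 163840 (j2 81920 (j2 40960 (j2 20480 (j2 10240 d43_0 d43_1) (j2 10240 d43_2 d43_3)) (j2 20480 (j2 10240 d43_4 d43_5) (j2 10240 d43_6 d43_7))) (j2 40960 (j2 20480 (j2 10240 d43_8 d43_9) (j2 10240 d43_10 d43_11)) (j2 20480 (j2 10240 d43_12 d43_13) (j2 10240 d43_14 d43_15)))) (j2 81920 (j2 40960 (j2 20480 (j2 10240 d43_16 d43_17) (j2 10240 d43_18 d43_19)) (j2 20480 (j2 10240 d43_20 d43_21) (j2 10240 d43_22 d43_23))) (j2 40960 (j2 20480 (j2 10240 d43_24 d43_25) (j2 10240 d43_26 d43_27)) (j2 20480 (j2 10240 d43_28 d43_29) (j2 10240 d43_30 d43_31))))) (j2 163840 (j2 81920 (j2 40960 (j2 20480 (j2 10240 d43_32 d43_33) (j2 10240 d43_34 d43_35)) (j2 20480 (j2 10240 d43_36 d43_37) (j2 10240 d43_38 d43_39))) (j2 40960 (j2 20480 (j2 10240 d43_40 d43_41) (j2 10240 d43_42 d43_43)) (j2 20480 (j2 10240 d43_44 d43_45) (j2 10240 d43_46 d43_47))))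 (j2 81920 (j2 40960 (j2 20480 (j2 10240 d43_48 d43_49) (j2 10240 d43_50 d43_51)) (j2 20480 (j2 10240 d43_52 d43_53) (j2 10240 d43_54 d43_55))) (j2 40960 (j2 20480 (j2 10240 d43_56 d43_57) (j2 10240 d43_58 d43_59)) (j2 20480 (j2 10240 d43_60 d43_61) (j2 10240 d43_62 d43_63))))))
def D44 : ℕ := (j2 327680 (j2 163840 (j2 81920 (j2 40960 (j2 20480 (j2 10240 d44_0 d44_1) (j2 10240 d44_2 d44_3)) (j2 20480 (j2 10240 d44_4 d44_5) (j2 10240 d44_6 d44_7))) (j2 40960 (j2 20480 (j2 10240 d44_8 d44_9) (j2 10240 d44_10 d44_11)) (j2 20480 (j2 10240 d44_12 d44_13) (j2 10240 d44_14 d44_15)))) (j2 81920 (j2 40960 (j2 20480 (j2 10240 d44_16 d44_17) (j2 10240 d44_18 d44_19)) (j2 20480 (j2 10240 d44_20 d44_21) (j2 10240 d44_22 d44_23))) (j2 40960 (j2 20480 (j2 10240 d44_24 d44_25) (j2 10240 d44_26 d44_27)) (j2 20480 (j2 10240 d44_28 d44_29) (j2 10240 d44_30 d44_31)))))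 (j2 163840 (j2 81920 (j2 40960 (j2 20480 (j2 10240 d44_32 d44_33) (j2 10240 d44_34 d44_35)) (j2 20480 (j2 10240 d44_36 d44_37) (j2 10240 d44_38 d44_39))) (j2 40960 (j2 20480 (j2 10240 d44_40 d44_41) (j2 10240 d44_42 d44_43)) (j2 20480 (j2 10240 d44_44 d44_45) (j2 10240 d44_46 d44_47)))) (j2 81920 (j2 40960 (j2 20480 (j2 10240 d44_48 d44_49) (j2 10240 d44_50 d44_51)) (j2 20480 (j2 10240 d44_52 d44_53) (j2 10240 d44_54 d44_55))) (j2 40960 (j2 20480 (j2 10240 d44_56 d44_57) (j2 10240 d44_58 d44_59)) (j2 20480 (j2 10240 d44_60 d44_61) (j2 10240 d44_62 d44_63))))))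
def D45 : ℕ := (j2 327680 (j2 163840 (j2 81920 (j2 40960 (j2 20480 (j2 10240 d45_0 d45_1) (j2 10240 d45_2 d45_3)) (j2 20480 (j2 10240 d45_4 d45_5) (j2 10240 d45_6 d45_7))) (j2 40960 (j2 20480 (j2 10240 d45_8 d45_9) (j2 10240 d45_10 d45_11)) (j2 20480 (j2 10240 d45_12 d45_13) (j2 10240 d45_14 d45_15)))) (j2 81920 (j2 40960 (j2 20480 (j2 10240 d45_16 d45_17) (j2 10240 d45_18 d45_19)) (j2 20480 (j2 10240 d45_20 d45_21) (j2 10240 d45_22 d45_23))) (j2 40960 (j2 20480 (j2 10240 d45_24 d45_25) (j2 10240 d45_26 d45_27)) (j2 20480 (j2 10240 d45_28 d45_29) (j2 10240 d45_30 d45_31))))) (j2 163840 (j2 81920 (j2 40960 (j2 20480 (j2 10240 d45_32 d45_33) (j2 10240 d45_34 d45_35)) (j2 20480 (j2 10240 d45_36 d45_37) (j2 10240 d45_38 d45_39))) (j2 40960 (j2 20480 (j2 10240 d45_40 d45_41) (j2 10240 d45_42 d45_43)) (j2 20480 (j2 10240 d45_44 d45_45) (j2 10240 d45_46 d45_47))))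 (j2 81920 (j2 40960 (j2 20480 (j2 10240 d45_48 d45_49) (j2 10240 d45_50 d45_51)) (j2 20480 (j2 10240 d45_52 d45_53) (j2 10240 d45_54 d45_55))) (j2 40960 (j2 20480 (j2 10240 d45_56 d45_57) (j2 10240 d45_58 d45_59)) (j2 20480 (j2 10240 d45_60 d45_61) (j2 10240 d45_62 d45_63))))))
def D46 : ℕ := (j2 327680 (j2 163840 (j2 81920 (j2 40960 (j2 20480 (j2 10240 d46_0 d46_1) (j2 10240 d46_2 d46_3)) (j2 20480 (j2 10240 d46_4 d46_5) (j2 10240 d46_6 d46_7))) (j2 40960 (j2 20480 (j2 10240 d46_8 d46_9) (j2 10240 d46_10 d46_11)) (j2 20480 (j2 10240 d46_12 d46_13) (j2 10240 d46_14 d46_15)))) (j2 81920 (j2 40960 (j2 20480 (j2 10240 d46_16 d46_17) (j2 10240 d46_18 d46_19)) (j2 20480 (j2 10240 d46_20 d46_21) (j2 10240 d46_22 d46_23))) (j2 40960 (j2 20480 (j2 10240 d46_24 d46_25) (j2 10240 d46_26 d46_27)) (j2 20480 (j2 10240 d46_28 d46_29) (j2 10240 d46_30 d46_31)))))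 (j2 163840 (j2 81920 (j2 40960 (j2 20480 (j2 10240 d46_32 d46_33) (j2 10240 d46_34 d46_35)) (j2 20480 (j2 10240 d46_36 d46_37) (j2 10240 d46_38 d46_39))) (j2 40960 (j2 20480 (j2 10240 d46_40 d46_41) (j2 10240 d46_42 d46_43)) (j2 20480 (j2 10240 d46_44 d46_45) (j2 10240 d46_46 d46_47)))) (j2 81920 (j2 40960 (j2 20480 (j2 10240 d46_48 d46_49) (j2 10240 d46_50 d46_51)) (j2 20480 (j2 10240 d46_52 d46_53) (j2 10240 d46_54 d46_55))) (j2 40960 (j2 20480 (j2 10240 d46_56 d46_57) (j2 10240 d46_58 d46_59)) (j2 20480 (j2 10240 d46_60 d46_61) (j2 10240 d46_62 d46_63))))))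
def D47 : ℕ := (j2 327680 (j2 163840 (j2 81920 (j2 40960 (j2 20480 (j2 10240 d47_0 d47_1) (j2 10240 d47_2 d47_3)) (j2 20480 (j2 10240 d47_4 d47_5) (j2 10240 d47_6 d47_7))) (j2 40960 (j2 20480 (j2 10240 d47_8 d47_9) (j2 10240 d47_10 d47_11)) (j2 20480 (j2 10240 d47_12 d47_13) (j2 10240 d47_14 d47_15)))) (j2 81920 (j2 40960 (j2 20480 (j2 10240 d47_16 d47_17) (j2 10240 d47_18 d47_19)) (j2 20480 (j2 10240 d47_20 d47_21) (j2 10240 d47_22 d47_23))) (j2 40960 (j2 20480 (j2 10240 d47_24 d47_25) (j2 10240 d47_26 d47_27)) (j2 20480 (j2 10240 d47_28 d47_29) (j2 10240 d47_30 d47_31))))) (j2 163840 (j2 81920 (j2 40960 (j2 20480 (j2 10240 d47_32 d47_33) (j2 10240 d47_34 d47_35)) (j2 20480 (j2 10240 d47_36 d47_37) (j2 10240 d47_38 d47_39))) (j2 40960 (j2 20480 (j2 10240 d47_40 d47_41) (j2 10240 d47_42 d47_43)) (j2 20480 (j2 10240 d47_44 d47_45) (j2 10240 d47_46 d47_47))))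 (j2 81920 (j2 40960 (j2 20480 (j2 10240 d47_48 d47_49) (j2 10240 d47_50 d47_51)) (j2 20480 (j2 10240 d47_52 d47_53) (j2 10240 d47_54 d47_55))) (j2 40960 (j2 20480 (j2 10240 d47_56 d47_57) (j2 10240 d47_58 d47_59)) (j2 20480 (j2 10240 d47_60 d47_61) (j2 10240 d47_62 d47_63))))))
def D48 : ℕ := (j2 327680 (j2 163840 (j2 81920 (j2 40960 (j2 20480 (j2 10240 d48_0 d48_1) (j2 10240 d48_2 d48_3)) (j2 20480 (j2 10240 d48_4 d48_5) (j2 10240 d48_6 d48_7))) (j2 40960 (j2 20480 (j2 10240 d48_8 d48_9) (j2 10240 d48_10 d48_11)) (j2 20480 (j2 10240 d48_12 d48_13) (j2 10240 d48_14 d48_15)))) (j2 81920 (j2 40960 (j2 20480 (j2 10240 d48_16 d48_17) (j2 10240 d48_18 d48_19)) (j2 20480 (j2 10240 d48_20 d48_21) (j2 10240 d48_22 d48_23))) (j2 40960 (j2 20480 (j2 10240 d48_24 d48_25) (j2 10240 d48_26 d48_27)) (j2 20480 (j2 10240 d48_28 d48_29) (j2 10240 d48_30 d48_31)))))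 (j2 163840 (j2 81920 (j2 40960 (j2 20480 (j2 10240 d48_32 d48_33) (j2 10240 d48_34 d48_35)) (j2 20480 (j2 10240 d48_36 d48_37) (j2 10240 d48_38 d48_39))) (j2 40960 (j2 20480 (j2 10240 d48_40 d48_41) (j2 10240 d48_42 d48_43)) (j2 20480 (j2 10240 d48_44 d48_45) (j2 10240 d48_46 d48_47)))) (j2 81920 (j2 40960 (j2 20480 (j2 10240 d48_48 d48_49) (j2 10240 d48_50 d48_51)) (j2 20480 (j2 10240 d48_52 d48_53) (j2 10240 d48_54 d48_55))) (j2 40960 (j2 20480 (j2 10240 d48_56 d48_57) (j2 10240 d48_58 d48_59)) (j2 20480 (j2 10240 d48_60 d48_61) (j2 10240 d48_62 d48_63))))))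
def D49 : ℕ := (j2 327680 (j2 163840 (j2 81920 (j2 40960 (j2 20480 (j2 10240 d49_0 d49_1) (j2 10240 d49_2 d49_3)) (j2 20480 (j2 10240 d49_4 d49_5) (j2 10240 d49_6 d49_7))) (j2 40960 (j2 20480 (j2 10240 d49_8 d49_9) (j2 10240 d49_10 d49_11)) (j2 20480 (j2 10240 d49_12 d49_13) (j2 10240 d49_14 d49_15)))) (j2 81920 (j2 40960 (j2 20480 (j2 10240 d49_16 d49_17) (j2 10240 d49_18 d49_19)) (j2 20480 (j2 10240 d49_20 d49_21) (j2 10240 d49_22 d49_23))) (j2 40960 (j2 20480 (j2 10240 d49_24 d49_25) (j2 10240 d49_26 d49_27)) (j2 20480 (j2 10240 d49_28 d49_29) (j2 10240 d49_30 d49_31))))) (j2 163840 (j2 81920 (j2 40960 (j2 20480 (j2 10240 d49_32 d49_33) (j2 10240 d49_34 d49_35)) (j2 20480 (j2 10240 d49_36 d49_37) (j2 10240 d49_38 d49_39))) (j2 40960 (j2 20480 (j2 10240 d49_40 d49_41) (j2 10240 d49_42 d49_43)) (j2 20480 (j2 10240 d49_44 d49_45) (j2 10240 d49_46 d49_47))))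 (j2 81920 (j2 40960 (j2 20480 (j2 10240 d49_48 d49_49) (j2 10240 d49_50 d49_51)) (j2 20480 (j2 10240 d49_52 d49_53) (j2 10240 d49_54 d49_55))) (j2 40960 (j2 20480 (j2 10240 d49_56 d49_57) (j2 10240 d49_58 d49_59)) (j2 20480 (j2 10240 d49_60 d49_61) (j2 10240 d49_62 d49_63))))))
def D50 : ℕ := (j2 327680 (j2 163840 (j2 81920 (j2 40960 (j2 20480 (j2 10240 d50_0 d50_1) (j2 10240 d50_2 d50_3)) (j2 20480 (j2 10240 d50_4 d50_5) (j2 10240 d50_6 d50_7))) (j2 40960 (j2 20480 (j2 10240 d50_8 d50_9) (j2 10240 d50_10 d50_11)) (j2 20480 (j2 10240 d50_12 d50_13) (j2 10240 d50_14 d50_15)))) (j2 81920 (j2 40960 (j2 20480 (j2 10240 d50_16 d50_17) (j2 10240 d50_18 d50_19)) (j2 20480 (j2 10240 d50_20 d50_21) (j2 10240 d50_22 d50_23))) (j2 40960 (j2 20480 (j2 10240 d50_24 d50_25) (j2 10240 d50_26 d50_27)) (j2 20480 (j2 10240 d50_28 d50_29) (j2 10240 d50_30 d50_31)))))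 (j2 163840 (j2 81920 (j2 40960 (j2 20480 (j2 10240 d50_32 d50_33) (j2 10240 d50_34 d50_35)) (j2 20480 (j2 10240 d50_36 d50_37) (j2 10240 d50_38 d50_39))) (j2 40960 (j2 20480 (j2 10240 d50_40 d50_41) (j2 10240 d50_42 d50_43)) (j2 20480 (j2 10240 d50_44 d50_45) (j2 10240 d50_46 d50_47)))) (j2 81920 (j2 40960 (j2 20480 (j2 10240 d50_48 d50_49) (j2 10240 d50_50 d50_51)) (j2 20480 (j2 10240 d50_52 d50_53) (j2 10240 d50_54 d50_55))) (j2 40960 (j2 20480 (j2 10240 d50_56 d50_57) (j2 10240 d50_58 d50_59)) (j2 20480 (j2 10240 d50_60 d50_61) (j2 10240 d50_62 d50_63))))))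
def D51 : ℕ := (j2 327680 (j2 163840 (j2 81920 (j2 40960 (j2 20480 (j2 10240 d51_0 d51_1) (j2 10240 d51_2 d51_3)) (j2 20480 (j2 10240 d51_4 d51_5) (j2 10240 d51_6 d51_7))) (j2 40960 (j2 20480 (j2 10240 d51_8 d51_9) (j2 10240 d51_10 d51_11)) (j2 20480 (j2 10240 d51_12 d51_13) (j2 10240 d51_14 d51_15)))) (j2 81920 (j2 40960 (j2 20480 (j2 10240 d51_16 d51_17) (j2 10240 d51_18 d51_19)) (j2 20480 (j2 10240 d51_20 d51_21) (j2 10240 d51_22 d51_23))) (j2 40960 (j2 20480 (j2 10240 d51_24 d51_25) (j2 10240 d51_26 d51_27)) (j2 20480 (j2 10240 d51_28 d51_29) (j2 10240 d51_30 d51_31))))) (j2 163840 (j2 81920 (j2 40960 (j2 20480 (j2 10240 d51_32 d51_33) (j2 10240 d51_34 d51_35)) (j2 20480 (j2 10240 d51_36 d51_37) (j2 10240 d51_38 d51_39))) (j2 40960 (j2 20480 (j2 10240 d51_40 d51_41) (j2 10240 d51_42 d51_43)) (j2 20480 (j2 10240 d51_44 d51_45) (j2 10240 d51_46 d51_47))))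 (j2 81920 (j2 40960 (j2 20480 (j2 10240 d51_48 d51_49) (j2 10240 d51_50 d51_51)) (j2 20480 (j2 10240 d51_52 d51_53) (j2 10240 d51_54 d51_55))) (j2 40960 (j2 20480 (j2 10240 d51_56 d51_57) (j2 10240 d51_58 d51_59)) (j2 20480 (j2 10240 d51_60 d51_61) (j2 10240 d51_62 d51_63))))))
def D52 : ℕ := (j2 327680 (j2 163840 (j2 81920 (j2 40960 (j2 20480 (j2 10240 d52_0 d52_1) (j2 10240 d52_2 d52_3)) (j2 20480 (j2 10240 d52_4 d52_5) (j2 10240 d52_6 d52_7))) (j2 40960 (j2 20480 (j2 10240 d52_8 d52_9) (j2 10240 d52_10 d52_11)) (j2 20480 (j2 10240 d52_12 d52_13) (j2 10240 d52_14 d52_15)))) (j2 81920 (j2 40960 (j2 20480 (j2 10240 d52_16 d52_17) (j2 10240 d52_18 d52_19)) (j2 20480 (j2 10240 d52_20 d52_21) (j2 10240 d52_22 d52_23))) (j2 40960 (j2 20480 (j2 10240 d52_24 d52_25) (j2 10240 d52_26 d52_27)) (j2 20480 (j2 10240 d52_28 d52_29) (j2 10240 d52_30 d52_31)))))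 (j2 163840 (j2 81920 (j2 40960 (j2 20480 (j2 10240 d52_32 d52_33) (j2 10240 d52_34 d52_35)) (j2 20480 (j2 10240 d52_36 d52_37) (j2 10240 d52_38 d52_39))) (j2 40960 (j2 20480 (j2 10240 d52_40 d52_41) (j2 10240 d52_42 d52_43)) (j2 20480 (j2 10240 d52_44 d52_45) (j2 10240 d52_46 d52_47)))) (j2 81920 (j2 40960 (j2 20480 (j2 10240 d52_48 d52_49) (j2 10240 d52_50 d52_51)) (j2 20480 (j2 10240 d52_52 d52_53) (j2 10240 d52_54 d52_55))) (j2 40960 (j2 20480 (j2 10240 d52_56 d52_57) (j2 10240 d52_58 d52_59)) (j2 20480 (j2 10240 d52_60 d52_61) (j2 10240 d52_62 d52_63))))))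
def D53 : ℕ := (j2 327680 (j2 163840 (j2 81920 (j2 40960 (j2 20480 (j2 10240 d53_0 d53_1) (j2 10240 d53_2 d53_3)) (j2 20480 (j2 10240 d53_4 d53_5) (j2 10240 d53_6 d53_7))) (j2 40960 (j2 20480 (j2 10240 d53_8 d53_9) (j2 10240 d53_10 d53_11)) (j2 20480 (j2 10240 d53_12 d53_13) (j2 10240 d53_14 d53_15)))) (j2 81920 (j2 40960 (j2 20480 (j2 10240 d53_16 d53_17) (j2 10240 d53_18 d53_19)) (j2 20480 (j2 10240 d53_20 d53_21) (j2 10240 d53_22 d53_23))) (j2 40960 (j2 20480 (j2 10240 d53_24 d53_25) (j2 10240 d53_26 d53_27)) (j2 20480 (j2 10240 d53_28 d53_29) (j2 10240 d53_30 d53_31))))) (j2 163840 (j2 81920 (j2 40960 (j2 20480 (j2 10240 d53_32 d53_33) (j2 10240 d53_34 d53_35)) (j2 20480 (j2 10240 d53_36 d53_37) (j2 10240 d53_38 d53_39))) (j2 40960 (j2 20480 (j2 10240 d53_40 d53_41) (j2 10240 d53_42 d53_43)) (j2 20480 (j2 10240 d53_44 d53_45) (j2 10240 d53_46 d53_47))))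 (j2 81920 (j2 40960 (j2 20480 (j2 10240 d53_48 d53_49) (j2 10240 d53_50 d53_51)) (j2 20480 (j2 10240 d53_52 d53_53) (j2 10240 d53_54 d53_55))) (j2 40960 (j2 20480 (j2 10240 d53_56 d53_57) (j2 10240 d53_58 d53_59)) (j2 20480 (j2 10240 d53_60 d53_61) (j2 10240 d53_62 d53_63))))))
def D54 : ℕ := (j2 327680 (j2 163840 (j2 81920 (j2 40960 (j2 20480 (j2 10240 d54_0 d54_1) (j2 10240 d54_2 d54_3)) (j2 20480 (j2 10240 d54_4 d54_5) (j2 10240 d54_6 d54_7))) (j2 40960 (j2 20480 (j2 10240 d54_8 d54_9) (j2 10240 d54_10 d54_11)) (j2 20480 (j2 10240 d54_12 d54_13) (j2 10240 d54_14 d54_15)))) (j2 81920 (j2 40960 (j2 20480 (j2 10240 d54_16 d54_17) (j2 10240 d54_18 d54_19)) (j2 20480 (j2 10240 d54_20 d54_21) (j2 10240 d54_22 d54_23))) (j2 40960 (j2 20480 (j2 10240 d54_24 d54_25) (j2 10240 d54_26 d54_27)) (j2 20480 (j2 10240 d54_28 d54_29) (j2 10240 d54_30 d54_31)))))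 (j2 163840 (j2 81920 (j2 40960 (j2 20480 (j2 10240 d54_32 d54_33) (j2 10240 d54_34 d54_35)) (j2 20480 (j2 10240 d54_36 d54_37) (j2 10240 d54_38 d54_39))) (j2 40960 (j2 20480 (j2 10240 d54_40 d54_41) (j2 10240 d54_42 d54_43)) (j2 20480 (j2 10240 d54_44 d54_45) (j2 10240 d54_46 d54_47)))) (j2 81920 (j2 40960 (j2 20480 (j2 10240 d54_48 d54_49) (j2 10240 d54_50 d54_51)) (j2 20480 (j2 10240 d54_52 d54_53) (j2 10240 d54_54 d54_55))) (j2 40960 (j2 20480 (j2 10240 d54_56 d54_57) (j2 10240 d54_58 d54_59)) (j2 20480 (j2 10240 d54_60 d54_61) (j2 10240 d54_62 d54_63))))))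
def D55 : ℕ := (j2 327680 (j2 163840 (j2 81920 (j2 40960 (j2 20480 (j2 10240 d55_0 d55_1) (j2 10240 d55_2 d55_3)) (j2 20480 (j2 10240 d55_4 d55_5) (j2 10240 d55_6 d55_7))) (j2 40960 (j2 20480 (j2 10240 d55_8 d55_9) (j2 10240 d55_10 d55_11)) (j2 20480 (j2 10240 d55_12 d55_13) (j2 10240 d55_14 d55_15)))) (j2 81920 (j2 40960 (j2 20480 (j2 10240 d55_16 d55_17) (j2 10240 d55_18 d55_19)) (j2 20480 (j2 10240 d55_20 d55_21) (j2 10240 d55_22 d55_23))) (j2 40960 (j2 20480 (j2 10240 d55_24 d55_25) (j2 10240 d55_26 d55_27)) (j2 20480 (j2 10240 d55_28 d55_29) (j2 10240 d55_30 d55_31))))) (j2 163840 (j2 81920 (j2 40960 (j2 20480 (j2 10240 d55_32 d55_33) (j2 10240 d55_34 d55_35)) (j2 20480 (j2 10240 d55_36 d55_37) (j2 10240 d55_38 d55_39))) (j2 40960 (j2 20480 (j2 10240 d55_40 d55_41) (j2 10240 d55_42 d55_43)) (j2 20480 (j2 10240 d55_44 d55_45) (j2 10240 d55_46 d55_47))))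 (j2 81920 (j2 40960 (j2 20480 (j2 10240 d55_48 d55_49) (j2 10240 d55_50 d55_51)) (j2 20480 (j2 10240 d55_52 d55_53) (j2 10240 d55_54 d55_55))) (j2 40960 (j2 20480 (j2 10240 d55_56 d55_57) (j2 10240 d55_58 d55_59)) (j2 20480 (j2 10240 d55_60 d55_61) (j2 10240 d55_62 d55_63))))))
def D56 : ℕ := (j2 327680 (j2 163840 (j2 81920 (j2 40960 (j2 20480 (j2 10240 d56_0 d56_1) (j2 10240 d56_2 d56_3)) (j2 20480 (j2 10240 d56_4 d56_5) (j2 10240 d56_6 d56_7))) (j2 40960 (j2 20480 (j2 10240 d56_8 d56_9) (j2 10240 d56_10 d56_11)) (j2 20480 (j2 10240 d56_12 d56_13) (j2 10240 d56_14 d56_15)))) (j2 81920 (j2 40960 (j2 20480 (j2 10240 d56_16 d56_17) (j2 10240 d56_18 d56_19)) (j2 20480 (j2 10240 d56_20 d56_21) (j2 10240 d56_22 d56_23))) (j2 40960 (j2 20480 (j2 10240 d56_24 d56_25) (j2 10240 d56_26 d56_27)) (j2 20480 (j2 10240 d56_28 d56_29) (j2 10240 d56_30 d56_31)))))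 (j2 163840 (j2 81920 (j2 40960 (j2 20480 (j2 10240 d56_32 d56_33) (j2 10240 d56_34 d56_35)) (j2 20480 (j2 10240 d56_36 d56_37) (j2 10240 d56_38 d56_39))) (j2 40960 (j2 20480 (j2 10240 d56_40 d56_41) (j2 10240 d56_42 d56_43)) (j2 20480 (j2 10240 d56_44 d56_45) (j2 10240 d56_46 d56_47)))) (j2 81920 (j2 40960 (j2 20480 (j2 10240 d56_48 d56_49) (j2 10240 d56_50 d56_51)) (j2 20480 (j2 10240 d56_52 d56_53) (j2 10240 d56_54 d56_55))) (j2 40960 (j2 20480 (j2 10240 d56_56 d56_57) (j2 10240 d56_58 d56_59)) (j2 20480 (j2 10240 d56_60 d56_61) (j2 10240 d56_62 d56_63))))))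
def D57 : ℕ := (j2 327680 (j2 163840 (j2 81920 (j2 40960 (j2 20480 (j2 10240 d57_0 d57_1) (j2 10240 d57_2 d57_3)) (j2 20480 (j2 10240 d57_4 d57_5) (j2 10240 d57_6 d57_7))) (j2 40960 (j2 20480 (j2 10240 d57_8 d57_9) (j2 10240 d57_10 d57_11)) (j2 20480 (j2 10240 d57_12 d57_13) (j2 10240 d57_14 d57_15)))) (j2 81920 (j2 40960 (j2 20480 (j2 10240 d57_16 d57_17) (j2 10240 d57_18 d57_19)) (j2 20480 (j2 10240 d57_20 d57_21) (j2 10240 d57_22 d57_23))) (j2 40960 (j2 20480 (j2 10240 d57_24 d57_25) (j2 10240 d57_26 d57_27)) (j2 20480 (j2 10240 d57_28 d57_29) (j2 10240 d57_30 d57_31))))) (j2 163840 (j2 81920 (j2 40960 (j2 20480 (j2 10240 d57_32 d57_33) (j2 10240 d57_34 d57_35)) (j2 20480 (j2 10240 d57_36 d57_37) (j2 10240 d57_38 d57_39))) (j2 40960 (j2 20480 (j2 10240 d57_40 d57_41) (j2 10240 d57_42 d57_43)) (j2 20480 (j2 10240 d57_44 d57_45) (j2 10240 d57_46 d57_47))))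 (j2 81920 (j2 40960 (j2 20480 (j2 10240 d57_48 d57_49) (j2 10240 d57_50 d57_51)) (j2 20480 (j2 10240 d57_52 d57_53) (j2 10240 d57_54 d57_55))) (j2 40960 (j2 20480 (j2 10240 d57_56 d57_57) (j2 10240 d57_58 d57_59)) (j2 20480 (j2 10240 d57_60 d57_61) (j2 10240 d57_62 d57_63))))))
def D58 : ℕ := (j2 327680 (j2 163840 (j2 81920 (j2 40960 (j2 20480 (j2 10240 d58_0 d58_1) (j2 10240 d58_2 d58_3)) (j2 20480 (j2 10240 d58_4 d58_5) (j2 10240 d58_6 d58_7))) (j2 40960 (j2 20480 (j2 10240 d58_8 d58_9) (j2 10240 d58_10 d58_11)) (j2 20480 (j2 10240 d58_12 d58_13) (j2 10240 d58_14 d58_15)))) (j2 81920 (j2 40960 (j2 20480 (j2 10240 d58_16 d58_17) (j2 10240 d58_18 d58_19)) (j2 20480 (j2 10240 d58_20 d58_21) (j2 10240 d58_22 d58_23))) (j2 40960 (j2 20480 (j2 10240 d58_24 d58_25) (j2 10240 d58_26 d58_27)) (j2 20480 (j2 10240 d58_28 d58_29) (j2 10240 d58_30 d58_31)))))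 (j2 163840 (j2 81920 (j2 40960 (j2 20480 (j2 10240 d58_32 d58_33) (j2 10240 d58_34 d58_35)) (j2 20480 (j2 10240 d58_36 d58_37) (j2 10240 d58_38 d58_39))) (j2 40960 (j2 20480 (j2 10240 d58_40 d58_41) (j2 10240 d58_42 d58_43)) (j2 20480 (j2 10240 d58_44 d58_45) (j2 10240 d58_46 d58_47)))) (j2 81920 (j2 40960 (j2 20480 (j2 10240 d58_48 d58_49) (j2 10240 d58_50 d58_51)) (j2 20480 (j2 10240 d58_52 d58_53) (j2 10240 d58_54 d58_55))) (j2 40960 (j2 20480 (j2 10240 d58_56 d58_57) (j2 10240 d58_58 d58_59)) (j2 20480 (j2 10240 d58_60 d58_61) (j2 10240 d58_62 d58_63))))))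
def D59 : ℕ := (j2 327680 (j2 163840 (j2 81920 (j2 40960 (j2 20480 (j2 10240 d59_0 d59_1) (j2 10240 d59_2 d59_3)) (j2 20480 (j2 10240 d59_4 d59_5) (j2 10240 d59_6 d59_7))) (j2 40960 (j2 20480 (j2 10240 d59_8 d59_9) (j2 10240 d59_10 d59_11)) (j2 20480 (j2 10240 d59_12 d59_13) (j2 10240 d59_14 d59_15)))) (j2 81920 (j2 40960 (j2 20480 (j2 10240 d59_16 d59_17) (j2 10240 d59_18 d59_19)) (j2 20480 (j2 10240 d59_20 d59_21) (j2 10240 d59_22 d59_23))) (j2 40960 (j2 20480 (j2 10240 d59_24 d59_25) (j2 10240 d59_26 d59_27)) (j2 20480 (j2 10240 d59_28 d59_29) (j2 10240 d59_30 d59_31))))) (j2 163840 (j2 81920 (j2 40960 (j2 20480 (j2 10240 d59_32 d59_33) (j2 10240 d59_34 d59_35)) (j2 20480 (j2 10240 d59_36 d59_37) (j2 10240 d59_38 d59_39))) (j2 40960 (j2 20480 (j2 10240 d59_40 d59_41) (j2 10240 d59_42 d59_43)) (j2 20480 (j2 10240 d59_44 d59_45) (j2 10240 d59_46 d59_47))))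 (j2 81920 (j2 40960 (j2 20480 (j2 10240 d59_48 d59_49) (j2 10240 d59_50 d59_51)) (j2 20480 (j2 10240 d59_52 d59_53) (j2 10240 d59_54 d59_55))) (j2 40960 (j2 20480 (j2 10240 d59_56 d59_57) (j2 10240 d59_58 d59_59)) (j2 20480 (j2 10240 d59_60 d59_61) (j2 10240 d59_62 d59_63))))))
def D60 : ℕ := (j2 327680 (j2 163840 (j2 81920 (j2 40960 (j2 20480 (j2 10240 d60_0 d60_1) (j2 10240 d60_2 d60_3)) (j2 20480 (j2 10240 d60_4 d60_5) (j2 10240 d60_6 d60_7))) (j2 40960 (j2 20480 (j2 10240 d60_8 d60_9) (j2 10240 d60_10 d60_11)) (j2 20480 (j2 10240 d60_12 d60_13) (j2 10240 d60_14 d60_15)))) (j2 81920 (j2 40960 (j2 20480 (j2 10240 d60_16 d60_17) (j2 10240 d60_18 d60_19)) (j2 20480 (j2 10240 d60_20 d60_21) (j2 10240 d60_22 d60_23))) (j2 40960 (j2 20480 (j2 10240 d60_24 d60_25) (j2 10240 d60_26 d60_27)) (j2 20480 (j2 10240 d60_28 d60_29) (j2 10240 d60_30 d60_31)))))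 (j2 163840 (j2 81920 (j2 40960 (j2 20480 (j2 10240 d60_32 d60_33) (j2 10240 d60_34 d60_35)) (j2 20480 (j2 10240 d60_36 d60_37) (j2 10240 d60_38 d60_39))) (j2 40960 (j2 20480 (j2 10240 d60_40 d60_41) (j2 10240 d60_42 d60_43)) (j2 20480 (j2 10240 d60_44 d60_45) (j2 10240 d60_46 d60_47)))) (j2 81920 (j2 40960 (j2 20480 (j2 10240 d60_48 d60_49) (j2 10240 d60_50 d60_51)) (j2 20480 (j2 10240 d60_52 d60_53) (j2 10240 d60_54 d60_55))) (j2 40960 (j2 20480 (j2 10240 d60_56 d60_57) (j2 10240 d60_58 d60_59)) (j2 20480 (j2 10240 d60_60 d60_61) (j2 10240 d60_62 d60_63))))))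
def D61 : ℕ := (j2 327680 (j2 163840 (j2 81920 (j2 40960 (j2 20480 (j2 10240 d61_0 d61_1) (j2 10240 d61_2 d61_3)) (j2 20480 (j2 10240 d61_4 d61_5) (j2 10240 d61_6 d61_7))) (j2 40960 (j2 20480 (j2 10240 d61_8 d61_9) (j2 10240 d61_10 d61_11)) (j2 20480 (j2 10240 d61_12 d61_13) (j2 10240 d61_14 d61_15)))) (j2 81920 (j2 40960 (j2 20480 (j2 10240 d61_16 d61_17) (j2 10240 d61_18 d61_19)) (j2 20480 (j2 10240 d61_20 d61_21) (j2 10240 d61_22 d61_23))) (j2 40960 (j2 20480 (j2 10240 d61_24 d61_25) (j2 10240 d61_26 d61_27)) (j2 20480 (j2 10240 d61_28 d61_29) (j2 10240 d61_30 d61_31))))) (j2 163840 (j2 81920 (j2 40960 (j2 20480 (j2 10240 d61_32 d61_33) (j2 10240 d61_34 d61_35)) (j2 20480 (j2 10240 d61_36 d61_37) (j2 10240 d61_38 d61_39))) (j2 40960 (j2 20480 (j2 10240 d61_40 d61_41) (j2 10240 d61_42 d61_43)) (j2 20480 (j2 10240 d61_44 d61_45) (j2 10240 d61_46 d61_47))))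 (j2 81920 (j2 40960 (j2 20480 (j2 10240 d61_48 d61_49) (j2 10240 d61_50 d61_51)) (j2 20480 (j2 10240 d61_52 d61_53) (j2 10240 d61_54 d61_55))) (j2 40960 (j2 20480 (j2 10240 d61_56 d61_57) (j2 10240 d61_58 d61_59)) (j2 20480 (j2 10240 d61_60 d61_61) (j2 10240 d61_62 d61_63))))))
def D62 : ℕ := (j2 327680 (j2 163840 (j2 81920 (j2 40960 (j2 20480 (j2 10240 d62_0 d62_1) (j2 10240 d62_2 d62_3)) (j2 20480 (j2 10240 d62_4 d62_5) (j2 10240 d62_6 d62_7))) (j2 40960 (j2 20480 (j2 10240 d62_8 d62_9) (j2 10240 d62_10 d62_11)) (j2 20480 (j2 10240 d62_12 d62_13) (j2 10240 d62_14 d62_15)))) (j2 81920 (j2 40960 (j2 20480 (j2 10240 d62_16 d62_17) (j2 10240 d62_18 d62_19)) (j2 20480 (j2 10240 d62_20 d62_21) (j2 10240 d62_22 d62_23))) (j2 40960 (j2 20480 (j2 10240 d62_24 d62_25) (j2 10240 d62_26 d62_27)) (j2 20480 (j2 10240 d62_28 d62_29) (j2 10240 d62_30 d62_31)))))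 (j2 163840 (j2 81920 (j2 40960 (j2 20480 (j2 10240 d62_32 d62_33) (j2 10240 d62_34 d62_35)) (j2 20480 (j2 10240 d62_36 d62_37) (j2 10240 d62_38 d62_39))) (j2 40960 (j2 20480 (j2 10240 d62_40 d62_41) (j2 10240 d62_42 d62_43)) (j2 20480 (j2 10240 d62_44 d62_45) (j2 10240 d62_46 d62_47)))) (j2 81920 (j2 40960 (j2 20480 (j2 10240 d62_48 d62_49) (j2 10240 d62_50 d62_51)) (j2 20480 (j2 10240 d62_52 d62_53) (j2 10240 d62_54 d62_55))) (j2 40960 (j2 20480 (j2 10240 d62_56 d62_57) (j2 10240 d62_58 d62_59)) (j2 20480 (j2 10240 d62_60 d62_61) (j2 10240 d62_62 d62_63))))))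
def D63 : ℕ := (j2 327680 (j2 163840 (j2 81920 (j2 40960 (j2 20480 (j2 10240 d63_0 d63_1) (j2 10240 d63_2 d63_3)) (j2 20480 (j2 10240 d63_4 d63_5) (j2 10240 d63_6 d63_7))) (j2 40960 (j2 20480 (j2 10240 d63_8 d63_9) (j2 10240 d63_10 d63_11)) (j2 20480 (j2 10240 d63_12 d63_13) (j2 10240 d63_14 d63_15)))) (j2 81920 (j2 40960 (j2 20480 (j2 10240 d63_16 d63_17) (j2 10240 d63_18 d63_19)) (j2 20480 (j2 10240 d63_20 d63_21) (j2 10240 d63_22 d63_23))) (j2 40960 (j2 20480 (j2 10240 d63_24 d63_25) (j2 10240 d63_26 d63_27)) (j2 20480 (j2 10240 d63_28 d63_29) (j2 10240 d63_30 d63_31))))) (j2 163840 (j2 81920 (j2 40960 (j2 20480 (j2 10240 d63_32 d63_33) (j2 10240 d63_34 d63_35)) (j2 20480 (j2 10240 d63_36 d63_37) (j2 10240 d63_38 d63_39))) (j2 40960 (j2 20480 (j2 10240 d63_40 d63_41) (j2 10240 d63_42 d63_43)) (j2 20480 (j2 10240 d63_44 d63_45) (j2 10240 d63_46 d63_47))))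 (j2 81920 (j2 40960 (j2 20480 (j2 10240 d63_48 d63_49) (j2 10240 d63_50 d63_51)) (j2 20480 (j2 10240 d63_52 d63_53) (j2 10240 d63_54 d63_55))) (j2 40960 (j2 20480 (j2 10240 d63_56 d63_57) (j2 10240 d63_58 d63_59)) (j2 20480 (j2 10240 d63_60 d63_61) (j2 10240 d63_62 d63_63))))))
def D64 : ℕ := (j2 327680 (j2 163840 (j2 81920 (j2 40960 (j2 20480 (j2 10240 d64_0 d64_1) (j2 10240 d64_2 d64_3)) (j2 20480 (j2 10240 d64_4 d64_5) (j2 10240 d64_6 d64_7))) (j2 40960 (j2 20480 (j2 10240 d64_8 d64_9) (j2 10240 d64_10 d64_11)) (j2 20480 (j2 10240 d64_12 d64_13) (j2 10240 d64_14 d64_15)))) (j2 81920 (j2 40960 (j2 20480 (j2 10240 d64_16 d64_17) (j2 10240 d64_18 d64_19)) (j2 20480 (j2 10240 d64_20 d64_21) (j2 10240 d64_22 d64_23))) (j2 40960 (j2 20480 (j2 10240 d64_24 d64_25) (j2 10240 d64_26 d64_27)) (j2 20480 (j2 10240 d64_28 d64_29) (j2 10240 d64_30 d64_31)))))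 (j2 163840 (j2 81920 (j2 40960 (j2 20480 (j2 10240 d64_32 d64_33) (j2 10240 d64_34 d64_35)) (j2 20480 (j2 10240 d64_36 d64_37) (j2 10240 d64_38 d64_39))) (j2 40960 (j2 20480 (j2 10240 d64_40 d64_41) (j2 10240 d64_42 d64_43)) (j2 20480 (j2 10240 d64_44 d64_45) (j2 10240 d64_46 d64_47)))) (j2 81920 (j2 40960 (j2 20480 (j2 10240 d64_48 d64_49) (j2 10240 d64_50 d64_51)) (j2 20480 (j2 10240 d64_52 d64_53) (j2 10240 d64_54 d64_55))) (j2 40960 (j2 20480 (j2 10240 d64_56 d64_57) (j2 10240 d64_58 d64_59)) (j2 20480 (j2 10240 d64_60 d64_61) (j2 10240 d64_62 d64_63))))))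
def D65 : ℕ := (j2 327680 (j2 163840 (j2 81920 (j2 40960 (j2 20480 (j2 10240 d65_0 d65_1) (j2 10240 d65_2 d65_3)) (j2 20480 (j2 10240 d65_4 d65_5) (j2 10240 d65_6 d65_7))) (j2 40960 (j2 20480 (j2 10240 d65_8 d65_9) (j2 10240 d65_10 d65_11)) (j2 20480 (j2 10240 d65_12 d65_13) (j2 10240 d65_14 d65_15)))) (j2 81920 (j2 40960 (j2 20480 (j2 10240 d65_16 d65_17) (j2 10240 d65_18 d65_19)) (j2 20480 (j2 10240 d65_20 d65_21) (j2 10240 d65_22 d65_23))) (j2 40960 (j2 20480 (j2 10240 d65_24 d65_25) (j2 10240 d65_26 d65_27)) (j2 20480 (j2 10240 d65_28 d65_29) (j2 10240 d65_30 d65_31))))) (j2 163840 (j2 81920 (j2 40960 (j2 20480 (j2 10240 d65_32 d65_33) (j2 10240 d65_34 d65_35)) (j2 20480 (j2 10240 d65_36 d65_37) (j2 10240 d65_38 d65_39))) (j2 40960 (j2 20480 (j2 10240 d65_40 d65_41) (j2 10240 d65_42 d65_43)) (j2 20480 (j2 10240 d65_44 d65_45) (j2 10240 d65_46 d65_47))))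 (j2 81920 (j2 40960 (j2 20480 (j2 10240 d65_48 d65_49) (j2 10240 d65_50 d65_51)) (j2 20480 (j2 10240 d65_52 d65_53) (j2 10240 d65_54 d65_55))) (j2 40960 (j2 20480 (j2 10240 d65_56 d65_57) (j2 10240 d65_58 d65_59)) (j2 20480 (j2 10240 d65_60 d65_61) (j2 10240 d65_62 d65_63))))))
def D66 : ℕ := (j2 327680 (j2 163840 (j2 81920 (j2 40960 (j2 20480 (j2 10240 d66_0 d66_1) (j2 10240 d66_2 d66_3)) (j2 20480 (j2 10240 d66_4 d66_5) (j2 10240 d66_6 d66_7))) (j2 40960 (j2 20480 (j2 10240 d66_8 d66_9) (j2 10240 d66_10 d66_11)) (j2 20480 (j2 10240 d66_12 d66_13) (j2 10240 d66_14 d66_15)))) (j2 81920 (j2 40960 (j2 20480 (j2 10240 d66_16 d66_17) (j2 10240 d66_18 d66_19)) (j2 20480 (j2 10240 d66_20 d66_21) (j2 10240 d66_22 d66_23))) (j2 40960 (j2 20480 (j2 10240 d66_24 d66_25) (j2 10240 d66_26 d66_27)) (j2 20480 (j2 10240 d66_28 d66_29) (j2 10240 d66_30 d66_31)))))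 (j2 163840 (j2 81920 (j2 40960 (j2 20480 (j2 10240 d66_32 d66_33) (j2 10240 d66_34 d66_35)) (j2 20480 (j2 10240 d66_36 d66_37) (j2 10240 d66_38 d66_39))) (j2 40960 (j2 20480 (j2 10240 d66_40 d66_41) (j2 10240 d66_42 d66_43)) (j2 20480 (j2 10240 d66_44 d66_45) (j2 10240 d66_46 d66_47)))) (j2 81920 (j2 40960 (j2 20480 (j2 10240 d66_48 d66_49) (j2 10240 d66_50 d66_51)) (j2 20480 (j2 10240 d66_52 d66_53) (j2 10240 d66_54 d66_55))) (j2 40960 (j2 20480 (j2 10240 d66_56 d66_57) (j2 10240 d66_58 d66_59)) (j2 20480 (j2 10240 d66_60 d66_61) (j2 10240 d66_62 d66_63))))))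
def D67 : ℕ := (j2 327680 (j2 163840 (j2 81920 (j2 40960 (j2 20480 (j2 10240 d67_0 d67_1) (j2 10240 d67_2 d67_3)) (j2 20480 (j2 10240 d67_4 d67_5) (j2 10240 d67_6 d67_7))) (j2 40960 (j2 20480 (j2 10240 d67_8 d67_9) (j2 10240 d67_10 d67_11)) (j2 20480 (j2 10240 d67_12 d67_13) (j2 10240 d67_14 d67_15)))) (j2 81920 (j2 40960 (j2 20480 (j2 10240 d67_16 d67_17) (j2 10240 d67_18 d67_19)) (j2 20480 (j2 10240 d67_20 d67_21) (j2 10240 d67_22 d67_23))) (j2 40960 (j2 20480 (j2 10240 d67_24 d67_25) (j2 10240 d67_26 d67_27)) (j2 20480 (j2 10240 d67_28 d67_29) (j2 10240 d67_30 d67_31))))) (j2 163840 (j2 81920 (j2 40960 (j2 20480 (j2 10240 d67_32 d67_33) (j2 10240 d67_34 d67_35)) (j2 20480 (j2 10240 d67_36 d67_37) (j2 10240 d67_38 d67_39))) (j2 40960 (j2 20480 (j2 10240 d67_40 d67_41) (j2 10240 d67_42 d67_43)) (j2 20480 (j2 10240 d67_44 d67_45) (j2 10240 d67_46 d67_47))))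 (j2 81920 (j2 40960 (j2 20480 (j2 10240 d67_48 d67_49) (j2 10240 d67_50 d67_51)) (j2 20480 (j2 10240 d67_52 d67_53) (j2 10240 d67_54 d67_55))) (j2 40960 (j2 20480 (j2 10240 d67_56 d67_57) (j2 10240 d67_58 d67_59)) (j2 20480 (j2 10240 d67_60 d67_61) (j2 10240 d67_62 d67_63))))))
def D68 : ℕ := (j2 327680 (j2 163840 (j2 81920 (j2 40960 (j2 20480 (j2 10240 d68_0 d68_1) (j2 10240 d68_2 d68_3)) (j2 20480 (j2 10240 d68_4 d68_5) (j2 10240 d68_6 d68_7))) (j2 40960 (j2 20480 (j2 10240 d68_8 d68_9) (j2 10240 d68_10 d68_11)) (j2 20480 (j2 10240 d68_12 d68_13) (j2 10240 d68_14 d68_15)))) (j2 81920 (j2 40960 (j2 20480 (j2 10240 d68_16 d68_17) (j2 10240 d68_18 d68_19)) (j2 20480 (j2 10240 d68_20 d68_21) (j2 10240 d68_22 d68_23))) (j2 40960 (j2 20480 (j2 10240 d68_24 d68_25) (j2 10240 d68_26 d68_27)) (j2 20480 (j2 10240 d68_28 d68_29) (j2 10240 d68_30 d68_31)))))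 (j2 163840 (j2 81920 (j2 40960 (j2 20480 (j2 10240 d68_32 d68_33) (j2 10240 d68_34 d68_35)) (j2 20480 (j2 10240 d68_36 d68_37) (j2 10240 d68_38 d68_39))) (j2 40960 (j2 20480 (j2 10240 d68_40 d68_41) (j2 10240 d68_42 d68_43)) (j2 20480 (j2 10240 d68_44 d68_45) (j2 10240 d68_46 d68_47)))) (j2 81920 (j2 40960 (j2 20480 (j2 10240 d68_48 d68_49) (j2 10240 d68_50 d68_51)) (j2 20480 (j2 10240 d68_52 d68_53) (j2 10240 d68_54 d68_55))) (j2 40960 (j2 20480 (j2 10240 d68_56 d68_57) (j2 10240 d68_58 d68_59)) (j2 20480 (j2 10240 d68_60 d68_61) (j2 10240 d68_62 d68_63))))))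
def D69 : ℕ := (j2 327680 (j2 163840 (j2 81920 (j2 40960 (j2 20480 (j2 10240 d69_0 d69_1) (j2 10240 d69_2 d69_3)) (j2 20480 (j2 10240 d69_4 d69_5) (j2 10240 d69_6 d69_7))) (j2 40960 (j2 20480 (j2 10240 d69_8 d69_9) (j2 10240 d69_10 d69_11)) (j2 20480 (j2 10240 d69_12 d69_13) (j2 10240 d69_14 d69_15)))) (j2 81920 (j2 40960 (j2 20480 (j2 10240 d69_16 d69_17) (j2 10240 d69_18 d69_19)) (j2 20480 (j2 10240 d69_20 d69_21) (j2 10240 d69_22 d69_23))) (j2 40960 (j2 20480 (j2 10240 d69_24 d69_25) (j2 10240 d69_26 d69_27)) (j2 20480 (j2 10240 d69_28 d69_29) (j2 10240 d69_30 d69_31))))) (j2 163840 (j2 81920 (j2 40960 (j2 20480 (j2 10240 d69_32 d69_33) (j2 10240 d69_34 d69_35)) (j2 20480 (j2 10240 d69_36 d69_37) (j2 10240 d69_38 d69_39))) (j2 40960 (j2 20480 (j2 10240 d69_40 d69_41) (j2 10240 d69_42 d69_43)) (j2 20480 (j2 10240 d69_44 d69_45) (j2 10240 d69_46 d69_47))))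 (j2 81920 (j2 40960 (j2 20480 (j2 10240 d69_48 d69_49) (j2 10240 d69_50 d69_51)) (j2 20480 (j2 10240 d69_52 d69_53) (j2 10240 d69_54 d69_55))) (j2 40960 (j2 20480 (j2 10240 d69_56 d69_57) (j2 10240 d69_58 d69_59)) (j2 20480 (j2 10240 d69_60 d69_61) (j2 10240 d69_62 d69_63))))))
def D70 : ℕ := (j2 327680 (j2 163840 (j2 81920 (j2 40960 (j2 20480 (j2 10240 d70_0 d70_1) (j2 10240 d70_2 d70_3)) (j2 20480 (j2 10240 d70_4 d70_5) (j2 10240 d70_6 d70_7))) (j2 40960 (j2 20480 (j2 10240 d70_8 d70_9) (j2 10240 d70_10 d70_11)) (j2 20480 (j2 10240 d70_12 d70_13) (j2 10240 d70_14 d70_15)))) (j2 81920 (j2 40960 (j2 20480 (j2 10240 d70_16 d70_17) (j2 10240 d70_18 d70_19)) (j2 20480 (j2 10240 d70_20 d70_21) (j2 10240 d70_22 d70_23))) (j2 40960 (j2 20480 (j2 10240 d70_24 d70_25) (j2 10240 d70_26 d70_27)) (j2 20480 (j2 10240 d70_28 d70_29) (j2 10240 d70_30 d70_31)))))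 (j2 163840 (j2 81920 (j2 40960 (j2 20480 (j2 10240 d70_32 d70_33) (j2 10240 d70_34 d70_35)) (j2 20480 (j2 10240 d70_36 d70_37) (j2 10240 d70_38 d70_39))) (j2 40960 (j2 20480 (j2 10240 d70_40 d70_41) (j2 10240 d70_42 d70_43)) (j2 20480 (j2 10240 d70_44 d70_45) (j2 10240 d70_46 d70_47)))) (j2 81920 (j2 40960 (j2 20480 (j2 10240 d70_48 d70_49) (j2 10240 d70_50 d70_51)) (j2 20480 (j2 10240 d70_52 d70_53) (j2 10240 d70_54 d70_55))) (j2 40960 (j2 20480 (j2 10240 d70_56 d70_57) (j2 10240 d70_58 d70_59)) (j2 20480 (j2 10240 d70_60 d70_61) (j2 10240 d70_62 d70_63))))))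
def D71 : ℕ := (j2 327680 (j2 163840 (j2 81920 (j2 40960 (j2 20480 (j2 10240 d71_0 d71_1) (j2 10240 d71_2 d71_3)) (j2 20480 (j2 10240 d71_4 d71_5) (j2 10240 d71_6 d71_7))) (j2 40960 (j2 20480 (j2 10240 d71_8 d71_9) (j2 10240 d71_10 d71_11)) (j2 20480 (j2 10240 d71_12 d71_13) (j2 10240 d71_14 d71_15)))) (j2 81920 (j2 40960 (j2 20480 (j2 10240 d71_16 d71_17) (j2 10240 d71_18 d71_19)) (j2 20480 (j2 10240 d71_20 d71_21) (j2 10240 d71_22 d71_23))) (j2 40960 (j2 20480 (j2 10240 d71_24 d71_25) (j2 10240 d71_26 d71_27)) (j2 20480 (j2 10240 d71_28 d71_29) (j2 10240 d71_30 d71_31))))) (j2 163840 (j2 81920 (j2 40960 (j2 20480 (j2 10240 d71_32 d71_33) (j2 10240 d71_34 d71_35)) (j2 20480 (j2 10240 d71_36 d71_37) (j2 10240 d71_38 d71_39))) (j2 40960 (j2 20480 (j2 10240 d71_40 d71_41) (j2 10240 d71_42 d71_43)) (j2 20480 (j2 10240 d71_44 d71_45) (j2 10240 d71_46 d71_47))))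 (j2 81920 (j2 40960 (j2 20480 (j2 10240 d71_48 d71_49) (j2 10240 d71_50 d71_51)) (j2 20480 (j2 10240 d71_52 d71_53) (j2 10240 d71_54 d71_55))) (j2 40960 (j2 20480 (j2 10240 d71_56 d71_57) (j2 10240 d71_58 d71_59)) (j2 20480 (j2 10240 d71_60 d71_61) (j2 10240 d71_62 d71_63))))))
def D72 : ℕ := (j2 327680 (j2 163840 (j2 81920 (j2 40960 (j2 20480 (j2 10240 d72_0 d72_1) (j2 10240 d72_2 d72_3)) (j2 20480 (j2 10240 d72_4 d72_5) (j2 10240 d72_6 d72_7))) (j2 40960 (j2 20480 (j2 10240 d72_8 d72_9) (j2 10240 d72_10 d72_11)) (j2 20480 (j2 10240 d72_12 d72_13) (j2 10240 d72_14 d72_15)))) (j2 81920 (j2 40960 (j2 20480 (j2 10240 d72_16 d72_17) (j2 10240 d72_18 d72_19)) (j2 20480 (j2 10240 d72_20 d72_21) (j2 10240 d72_22 d72_23))) (j2 40960 (j2 20480 (j2 10240 d72_24 d72_25) (j2 10240 d72_26 d72_27)) (j2 20480 (j2 10240 d72_28 d72_29) (j2 10240 d72_30 d72_31)))))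 (j2 163840 (j2 81920 (j2 40960 (j2 20480 (j2 10240 d72_32 d72_33) (j2 10240 d72_34 d72_35)) (j2 20480 (j2 10240 d72_36 d72_37) (j2 10240 d72_38 d72_39))) (j2 40960 (j2 20480 (j2 10240 d72_40 d72_41) (j2 10240 d72_42 d72_43)) (j2 20480 (j2 10240 d72_44 d72_45) (j2 10240 d72_46 d72_47)))) (j2 81920 (j2 40960 (j2 20480 (j2 10240 d72_48 d72_49) (j2 10240 d72_50 d72_51)) (j2 20480 (j2 10240 d72_52 d72_53) (j2 10240 d72_54 d72_55))) (j2 40960 (j2 20480 (j2 10240 d72_56 d72_57) (j2 10240 d72_58 d72_59)) (j2 20480 (j2 10240 d72_60 d72_61) (j2 10240 d72_62 d72_63))))))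
def D73 : ℕ := (j2 327680 (j2 163840 (j2 81920 (j2 40960 (j2 20480 (j2 10240 d73_0 d73_1) (j2 10240 d73_2 d73_3)) (j2 20480 (j2 10240 d73_4 d73_5) (j2 10240 d73_6 d73_7))) (j2 40960 (j2 20480 (j2 10240 d73_8 d73_9) (j2 10240 d73_10 d73_11)) (j2 20480 (j2 10240 d73_12 d73_13) (j2 10240 d73_14 d73_15)))) (j2 81920 (j2 40960 (j2 20480 (j2 10240 d73_16 d73_17) (j2 10240 d73_18 d73_19)) (j2 20480 (j2 10240 d73_20 d73_21) (j2 10240 d73_22 d73_23))) (j2 40960 (j2 20480 (j2 10240 d73_24 d73_25) (j2 10240 d73_26 d73_27)) (j2 20480 (j2 10240 d73_28 d73_29) (j2 10240 d73_30 d73_31))))) (j2 163840 (j2 81920 (j2 40960 (j2 20480 (j2 10240 d73_32 d73_33) (j2 10240 d73_34 d73_35)) (j2 20480 (j2 10240 d73_36 d73_37) (j2 10240 d73_38 d73_39))) (j2 40960 (j2 20480 (j2 10240 d73_40 d73_41) (j2 10240 d73_42 d73_43)) (j2 20480 (j2 10240 d73_44 d73_45) (j2 10240 d73_46 d73_47))))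 (j2 81920 (j2 40960 (j2 20480 (j2 10240 d73_48 d73_49) (j2 10240 d73_50 d73_51)) (j2 20480 (j2 10240 d73_52 d73_53) (j2 10240 d73_54 d73_55))) (j2 40960 (j2 20480 (j2 10240 d73_56 d73_57) (j2 10240 d73_58 d73_59)) (j2 20480 (j2 10240 d73_60 d73_61) (j2 10240 d73_62 d73_63))))))
def D74 : ℕ := (j2 327680 (j2 163840 (j2 81920 (j2 40960 (j2 20480 (j2 10240 d74_0 d74_1) (j2 10240 d74_2 d74_3)) (j2 20480 (j2 10240 d74_4 d74_5) (j2 10240 d74_6 d74_7))) (j2 40960 (j2 20480 (j2 10240 d74_8 d74_9) (j2 10240 d74_10 d74_11)) (j2 20480 (j2 10240 d74_12 d74_13) (j2 10240 d74_14 d74_15)))) (j2 81920 (j2 40960 (j2 20480 (j2 10240 d74_16 d74_17) (j2 10240 d74_18 d74_19)) (j2 20480 (j2 10240 d74_20 d74_21) (j2 10240 d74_22 d74_23))) (j2 40960 (j2 20480 (j2 10240 d74_24 d74_25) (j2 10240 d74_26 d74_27)) (j2 20480 (j2 10240 d74_28 d74_29) (j2 10240 d74_30 d74_31)))))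 (j2 163840 (j2 81920 (j2 40960 (j2 20480 (j2 10240 d74_32 d74_33) (j2 10240 d74_34 d74_35)) (j2 20480 (j2 10240 d74_36 d74_37) (j2 10240 d74_38 d74_39))) (j2 40960 (j2 20480 (j2 10240 d74_40 d74_41) (j2 10240 d74_42 d74_43)) (j2 20480 (j2 10240 d74_44 d74_45) (j2 10240 d74_46 d74_47)))) (j2 81920 (j2 40960 (j2 20480 (j2 10240 d74_48 d74_49) (j2 10240 d74_50 d74_51)) (j2 20480 (j2 10240 d74_52 d74_53) (j2 10240 d74_54 d74_55))) (j2 40960 (j2 20480 (j2 10240 d74_56 d74_57) (j2 10240 d74_58 d74_59)) (j2 20480 (j2 10240 d74_60 d74_61) (j2 10240 d74_62 d74_63))))))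
def D75 : ℕ := (j2 327680 (j2 163840 (j2 81920 (j2 40960 (j2 20480 (j2 10240 d75_0 d75_1) (j2 10240 d75_2 d75_3)) (j2 20480 (j2 10240 d75_4 d75_5) (j2 10240 d75_6 d75_7))) (j2 40960 (j2 20480 (j2 10240 d75_8 d75_9) (j2 10240 d75_10 d75_11)) (j2 20480 (j2 10240 d75_12 d75_13) (j2 10240 d75_14 d75_15)))) (j2 81920 (j2 40960 (j2 20480 (j2 10240 d75_16 d75_17) (j2 10240 d75_18 d75_19)) (j2 20480 (j2 10240 d75_20 d75_21) (j2 10240 d75_22 d75_23))) (j2 40960 (j2 20480 (j2 10240 d75_24 d75_25) (j2 10240 d75_26 d75_27)) (j2 20480 (j2 10240 d75_28 d75_29) (j2 10240 d75_30 d75_31))))) (j2 163840 (j2 81920 (j2 40960 (j2 20480 (j2 10240 d75_32 d75_33) (j2 10240 d75_34 d75_35)) (j2 20480 (j2 10240 d75_36 d75_37) (j2 10240 d75_38 d75_39))) (j2 40960 (j2 20480 (j2 10240 d75_40 d75_41) (j2 10240 d75_42 d75_43)) (j2 20480 (j2 10240 d75_44 d75_45) (j2 10240 d75_46 d75_47))))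 (j2 81920 (j2 40960 (j2 20480 (j2 10240 d75_48 d75_49) (j2 10240 d75_50 d75_51)) (j2 20480 (j2 10240 d75_52 d75_53) (j2 10240 d75_54 d75_55))) (j2 40960 (j2 20480 (j2 10240 d75_56 d75_57) (j2 10240 d75_58 d75_59)) (j2 20480 (j2 10240 d75_60 d75_61) (j2 10240 d75_62 d75_63))))))
def D76 : ℕ := (j2 327680 (j2 163840 (j2 81920 (j2 40960 (j2 20480 (j2 10240 d76_0 d76_1) (j2 10240 d76_2 d76_3)) (j2 20480 (j2 10240 d76_4 d76_5) (j2 10240 d76_6 d76_7))) (j2 40960 (j2 20480 (j2 10240 d76_8 d76_9) (j2 10240 d76_10 d76_11)) (j2 20480 (j2 10240 d76_12 d76_13) (j2 10240 d76_14 d76_15)))) (j2 81920 (j2 40960 (j2 20480 (j2 10240 d76_16 d76_17) (j2 10240 d76_18 d76_19)) (j2 20480 (j2 10240 d76_20 d76_21) (j2 10240 d76_22 d76_23))) (j2 40960 (j2 20480 (j2 10240 d76_24 d76_25) (j2 10240 d76_26 d76_27)) (j2 20480 (j2 10240 d76_28 d76_29) (j2 10240 d76_30 d76_31)))))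 (j2 163840 (j2 81920 (j2 40960 (j2 20480 (j2 10240 d76_32 d76_33) (j2 10240 d76_34 d76_35)) (j2 20480 (j2 10240 d76_36 d76_37) (j2 10240 d76_38 d76_39))) (j2 40960 (j2 20480 (j2 10240 d76_40 d76_41) (j2 10240 d76_42 d76_43)) (j2 20480 (j2 10240 d76_44 d76_45) (j2 10240 d76_46 d76_47)))) (j2 81920 (j2 40960 (j2 20480 (j2 10240 d76_48 d76_49) (j2 10240 d76_50 d76_51)) (j2 20480 (j2 10240 d76_52 d76_53) (j2 10240 d76_54 d76_55))) (j2 40960 (j2 20480 (j2 10240 d76_56 d76_57) (j2 10240 d76_58 d76_59)) (j2 20480 (j2 10240 d76_60 d76_61) (j2 10240 d76_62 d76_63))))))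
def D77 : ℕ := (j2 327680 (j2 163840 (j2 81920 (j2 40960 (j2 20480 (j2 10240 d77_0 d77_1) (j2 10240 d77_2 d77_3)) (j2 20480 (j2 10240 d77_4 d77_5) (j2 10240 d77_6 d77_7))) (j2 40960 (j2 20480 (j2 10240 d77_8 d77_9) (j2 10240 d77_10 d77_11)) (j2 20480 (j2 10240 d77_12 d77_13) (j2 10240 d77_14 d77_15)))) (j2 81920 (j2 40960 (j2 20480 (j2 10240 d77_16 d77_17) (j2 10240 d77_18 d77_19)) (j2 20480 (j2 10240 d77_20 d77_21) (j2 10240 d77_22 d77_23))) (j2 40960 (j2 20480 (j2 10240 d77_24 d77_25) (j2 10240 d77_26 d77_27)) (j2 20480 (j2 10240 d77_28 d77_29) (j2 10240 d77_30 d77_31))))) (j2 163840 (j2 81920 (j2 40960 (j2 20480 (j2 10240 d77_32 d77_33) (j2 10240 d77_34 d77_35)) (j2 20480 (j2 10240 d77_36 d77_37) (j2 10240 d77_38 d77_39))) (j2 40960 (j2 20480 (j2 10240 d77_40 d77_41) (j2 10240 d77_42 d77_43)) (j2 20480 (j2 10240 d77_44 d77_45) (j2 10240 d77_46 d77_47))))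 (j2 81920 (j2 40960 (j2 20480 (j2 10240 d77_48 d77_49) (j2 10240 d77_50 d77_51)) (j2 20480 (j2 10240 d77_52 d77_53) (j2 10240 d77_54 d77_55))) (j2 40960 (j2 20480 (j2 10240 d77_56 d77_57) (j2 10240 d77_58 d77_59)) (j2 20480 (j2 10240 d77_60 d77_61) (j2 10240 d77_62 d77_63))))))
def D78 : ℕ := (j2 327680 (j2 163840 (j2 81920 (j2 40960 (j2 20480 (j2 10240 d78_0 d78_1) (j2 10240 d78_2 d78_3)) (j2 20480 (j2 10240 d78_4 d78_5) (j2 10240 d78_6 d78_7))) (j2 40960 (j2 20480 (j2 10240 d78_8 d78_9) (j2 10240 d78_10 d78_11)) (j2 20480 (j2 10240 d78_12 d78_13) (j2 10240 d78_14 d78_15)))) (j2 81920 (j2 40960 (j2 20480 (j2 10240 d78_16 d78_17) (j2 10240 d78_18 d78_19)) (j2 20480 (j2 10240 d78_20 d78_21) (j2 10240 d78_22 d78_23))) (j2 40960 (j2 20480 (j2 10240 d78_24 d78_25) (j2 10240 d78_26 d78_27)) (j2 20480 (j2 10240 d78_28 d78_29) (j2 10240 d78_30 d78_31)))))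 (j2 163840 (j2 81920 (j2 40960 (j2 20480 (j2 10240 d78_32 d78_33) (j2 10240 d78_34 d78_35)) (j2 20480 (j2 10240 d78_36 d78_37) (j2 10240 d78_38 d78_39))) (j2 40960 (j2 20480 (j2 10240 d78_40 d78_41) (j2 10240 d78_42 d78_43)) (j2 20480 (j2 10240 d78_44 d78_45) (j2 10240 d78_46 d78_47)))) (j2 81920 (j2 40960 (j2 20480 (j2 10240 d78_48 d78_49) (j2 10240 d78_50 d78_51)) (j2 20480 (j2 10240 d78_52 d78_53) (j2 10240 d78_54 d78_55))) (j2 40960 (j2 20480 (j2 10240 d78_56 d78_57) (j2 10240 d78_58 d78_59)) (j2 20480 (j2 10240 d78_60 d78_61) (j2 10240 d78_62 d78_63))))))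
def D79 : ℕ := (j2 327680 (j2 163840 (j2 81920 (j2 40960 (j2 20480 (j2 10240 d79_0 d79_1) (j2 10240 d79_2 d79_3)) (j2 20480 (j2 10240 d79_4 d79_5) (j2 10240 d79_6 d79_7))) (j2 40960 (j2 20480 (j2 10240 d79_8 d79_9) (j2 10240 d79_10 d79_11)) (j2 20480 (j2 10240 d79_12 d79_13) (j2 10240 d79_14 d79_15)))) (j2 81920 (j2 40960 (j2 20480 (j2 10240 d79_16 d79_17) (j2 10240 d79_18 d79_19)) (j2 20480 (j2 10240 d79_20 d79_21) (j2 10240 d79_22 d79_23))) (j2 40960 (j2 20480 (j2 10240 d79_24 d79_25) (j2 10240 d79_26 d79_27)) (j2 20480 (j2 10240 d79_28 d79_29) (j2 10240 d79_30 d79_31))))) (j2 163840 (j2 81920 (j2 40960 (j2 20480 (j2 10240 d79_32 d79_33) (j2 10240 d79_34 d79_35)) (j2 20480 (j2 10240 d79_36 d79_37) (j2 10240 d79_38 d79_39))) (j2 40960 (j2 20480 (j2 10240 d79_40 d79_41) (j2 10240 d79_42 d79_43)) (j2 20480 (j2 10240 d79_44 d79_45) (j2 10240 d79_46 d79_47))))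 (j2 81920 (j2 40960 (j2 20480 (j2 10240 d79_48 d79_49) (j2 10240 d79_50 d79_51)) (j2 20480 (j2 10240 d79_52 d79_53) (j2 10240 d79_54 d79_55))) (j2 40960 (j2 20480 (j2 10240 d79_56 d79_57) (j2 10240 d79_58 d79_59)) (j2 20480 (j2 10240 d79_60 d79_61) (j2 10240 d79_62 d79_63))))))
def D80 : ℕ := (j2 327680 (j2 163840 (j2 81920 (j2 40960 (j2 20480 (j2 10240 d80_0 d80_1) (j2 10240 d80_2 d80_3)) (j2 20480 (j2 10240 d80_4 d80_5) (j2 10240 d80_6 d80_7))) (j2 40960 (j2 20480 (j2 10240 d80_8 d80_9) (j2 10240 d80_10 d80_11)) (j2 20480 (j2 10240 d80_12 d80_13) (j2 10240 d80_14 d80_15)))) (j2 81920 (j2 40960 (j2 20480 (j2 10240 d80_16 d80_17) (j2 10240 d80_18 d80_19)) (j2 20480 (j2 10240 d80_20 d80_21) (j2 10240 d80_22 d80_23))) (j2 40960 (j2 20480 (j2 10240 d80_24 d80_25) (j2 10240 d80_26 d80_27)) (j2 20480 (j2 10240 d80_28 d80_29) (j2 10240 d80_30 d80_31)))))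 (j2 163840 (j2 81920 (j2 40960 (j2 20480 (j2 10240 d80_32 d80_33) (j2 10240 d80_34 d80_35)) (j2 20480 (j2 10240 d80_36 d80_37) (j2 10240 d80_38 d80_39))) (j2 40960 (j2 20480 (j2 10240 d80_40 d80_41) (j2 10240 d80_42 d80_43)) (j2 20480 (j2 10240 d80_44 d80_45) (j2 10240 d80_46 d80_47)))) (j2 81920 (j2 40960 (j2 20480 (j2 10240 d80_48 d80_49) (j2 10240 d80_50 d80_51)) (j2 20480 (j2 10240 d80_52 d80_53) (j2 10240 d80_54 d80_55))) (j2 40960 (j2 20480 (j2 10240 d80_56 d80_57) (j2 10240 d80_58 d80_59)) (j2 20480 (j2 10240 d80_60 d80_61) (j2 10240 d80_62 d80_63))))))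
def D81 : ℕ := (j2 327680 (j2 163840 (j2 81920 (j2 40960 (j2 20480 (j2 10240 d81_0 d81_1) (j2 10240 d81_2 d81_3)) (j2 20480 (j2 10240 d81_4 d81_5) (j2 10240 d81_6 d81_7))) (j2 40960 (j2 20480 (j2 10240 d81_8 d81_9) (j2 10240 d81_10 d81_11)) (j2 20480 (j2 10240 d81_12 d81_13) (j2 10240 d81_14 d81_15)))) (j2 81920 (j2 40960 (j2 20480 (j2 10240 d81_16 d81_17) (j2 10240 d81_18 d81_19)) (j2 20480 (j2 10240 d81_20 d81_21) (j2 10240 d81_22 d81_23))) (j2 40960 (j2 20480 (j2 10240 d81_24 d81_25) (j2 10240 d81_26 d81_27)) (j2 20480 (j2 10240 d81_28 d81_29) (j2 10240 d81_30 d81_31))))) (j2 163840 (j2 81920 (j2 40960 (j2 20480 (j2 10240 d81_32 d81_33) (j2 10240 d81_34 d81_35)) (j2 20480 (j2 10240 d81_36 d81_37) (j2 10240 d81_38 d81_39))) (j2 40960 (j2 20480 (j2 10240 d81_40 d81_41) (j2 10240 d81_42 d81_43)) (j2 20480 (j2 10240 d81_44 d81_45) (j2 10240 d81_46 d81_47))))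 (j2 81920 (j2 40960 (j2 20480 (j2 10240 d81_48 d81_49) (j2 10240 d81_50 d81_51)) (j2 20480 (j2 10240 d81_52 d81_53) (j2 10240 d81_54 d81_55))) (j2 40960 (j2 20480 (j2 10240 d81_56 d81_57) (j2 10240 d81_58 d81_59)) (j2 20480 (j2 10240 d81_60 d81_61) (j2 10240 d81_62 d81_63))))))
def D82 : ℕ := (j2 327680 (j2 163840 (j2 81920 (j2 40960 (j2 20480 (j2 10240 d82_0 d82_1) (j2 10240 d82_2 d82_3)) (j2 20480 (j2 10240 d82_4 d82_5) (j2 10240 d82_6 d82_7))) (j2 40960 (j2 20480 (j2 10240 d82_8 d82_9) (j2 10240 d82_10 d82_11)) (j2 20480 (j2 10240 d82_12 d82_13) (j2 10240 d82_14 d82_15)))) (j2 81920 (j2 40960 (j2 20480 (j2 10240 d82_16 d82_17) (j2 10240 d82_18 d82_19)) (j2 20480 (j2 10240 d82_20 d82_21) (j2 10240 d82_22 d82_23))) (j2 40960 (j2 20480 (j2 10240 d82_24 d82_25) (j2 10240 d82_26 d82_27)) (j2 20480 (j2 10240 d82_28 d82_29) (j2 10240 d82_30 d82_31)))))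 (j2 163840 (j2 81920 (j2 40960 (j2 20480 (j2 10240 d82_32 d82_33) (j2 10240 d82_34 d82_35)) (j2 20480 (j2 10240 d82_36 d82_37) (j2 10240 d82_38 d82_39))) (j2 40960 (j2 20480 (j2 10240 d82_40 d82_41) (j2 10240 d82_42 d82_43)) (j2 20480 (j2 10240 d82_44 d82_45) (j2 10240 d82_46 d82_47)))) (j2 81920 (j2 40960 (j2 20480 (j2 10240 d82_48 d82_49) (j2 10240 d82_50 d82_51)) (j2 20480 (j2 10240 d82_52 d82_53) (j2 10240 d82_54 d82_55))) (j2 40960 (j2 20480 (j2 10240 d82_56 d82_57) (j2 10240 d82_58 d82_59)) (j2 20480 (j2 10240 d82_60 d82_61) (j2 10240 d82_62 d82_63))))))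
def D83 : ℕ := (j2 327680 (j2 163840 (j2 81920 (j2 40960 (j2 20480 (j2 10240 d83_0 d83_1) (j2 10240 d83_2 d83_3)) (j2 20480 (j2 10240 d83_4 d83_5) (j2 10240 d83_6 d83_7))) (j2 40960 (j2 20480 (j2 10240 d83_8 d83_9) (j2 10240 d83_10 d83_11)) (j2 20480 (j2 10240 d83_12 d83_13) (j2 10240 d83_14 d83_15)))) (j2 81920 (j2 40960 (j2 20480 (j2 10240 d83_16 d83_17) (j2 10240 d83_18 d83_19)) (j2 20480 (j2 10240 d83_20 d83_21) (j2 10240 d83_22 d83_23))) (j2 40960 (j2 20480 (j2 10240 d83_24 d83_25) (j2 10240 d83_26 d83_27)) (j2 20480 (j2 10240 d83_28 d83_29) (j2 10240 d83_30 d83_31))))) (j2 163840 (j2 81920 (j2 40960 (j2 20480 (j2 10240 d83_32 d83_33) (j2 10240 d83_34 d83_35)) (j2 20480 (j2 10240 d83_36 d83_37) (j2 10240 d83_38 d83_39))) (j2 40960 (j2 20480 (j2 10240 d83_40 d83_41) (j2 10240 d83_42 d83_43)) (j2 20480 (j2 10240 d83_44 d83_45) (j2 10240 d83_46 d83_47))))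 (j2 81920 (j2 40960 (j2 20480 (j2 10240 d83_48 d83_49) (j2 10240 d83_50 d83_51)) (j2 20480 (j2 10240 d83_52 d83_53) (j2 10240 d83_54 d83_55))) (j2 40960 (j2 20480 (j2 10240 d83_56 d83_57) (j2 10240 d83_58 d83_59)) (j2 20480 (j2 10240 d83_60 d83_61) (j2 10240 d83_62 d83_63))))))
def D84 : ℕ := (j2 327680 (j2 163840 (j2 81920 (j2 40960 (j2 20480 (j2 10240 d84_0 d84_1) (j2 10240 d84_2 d84_3)) (j2 20480 (j2 10240 d84_4 d84_5) (j2 10240 d84_6 d84_7))) (j2 40960 (j2 20480 (j2 10240 d84_8 d84_9) (j2 10240 d84_10 d84_11)) (j2 20480 (j2 10240 d84_12 d84_13) (j2 10240 d84_14 d84_15)))) (j2 81920 (j2 40960 (j2 20480 (j2 10240 d84_16 d84_17) (j2 10240 d84_18 d84_19)) (j2 20480 (j2 10240 d84_20 d84_21) (j2 10240 d84_22 d84_23))) (j2 40960 (j2 20480 (j2 10240 d84_24 d84_25) (j2 10240 d84_26 d84_27)) (j2 20480 (j2 10240 d84_28 d84_29) (j2 10240 d84_30 d84_31)))))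 (j2 163840 (j2 81920 (j2 40960 (j2 20480 (j2 10240 d84_32 d84_33) (j2 10240 d84_34 d84_35)) (j2 20480 (j2 10240 d84_36 d84_37) (j2 10240 d84_38 d84_39))) (j2 40960 (j2 20480 (j2 10240 d84_40 d84_41) (j2 10240 d84_42 d84_43)) (j2 20480 (j2 10240 d84_44 d84_45) (j2 10240 d84_46 d84_47)))) (j2 81920 (j2 40960 (j2 20480 (j2 10240 d84_48 d84_49) (j2 10240 d84_50 d84_51)) (j2 20480 (j2 10240 d84_52 d84_53) (j2 10240 d84_54 d84_55))) (j2 40960 (j2 20480 (j2 10240 d84_56 d84_57) (j2 10240 d84_58 d84_59)) (j2 20480 (j2 10240 d84_60 d84_61) (j2 10240 d84_62 d84_63))))))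
def D85 : ℕ := (j2 327680 (j2 163840 (j2 81920 (j2 40960 (j2 20480 (j2 10240 d85_0 d85_1) (j2 10240 d85_2 d85_3)) (j2 20480 (j2 10240 d85_4 d85_5) (j2 10240 d85_6 d85_7))) (j2 40960 (j2 20480 (j2 10240 d85_8 d85_9) (j2 10240 d85_10 d85_11)) (j2 20480 (j2 10240 d85_12 d85_13) (j2 10240 d85_14 d85_15)))) (j2 81920 (j2 40960 (j2 20480 (j2 10240 d85_16 d85_17) (j2 10240 d85_18 d85_19)) (j2 20480 (j2 10240 d85_20 d85_21) (j2 10240 d85_22 d85_23))) (j2 40960 (j2 20480 (j2 10240 d85_24 d85_25) (j2 10240 d85_26 d85_27)) (j2 20480 (j2 10240 d85_28 d85_29) (j2 10240 d85_30 d85_31))))) (j2 163840 (j2 81920 (j2 40960 (j2 20480 (j2 10240 d85_32 d85_33) (j2 10240 d85_34 d85_35)) (j2 20480 (j2 10240 d85_36 d85_37) (j2 10240 d85_38 d85_39))) (j2 40960 (j2 20480 (j2 10240 d85_40 d85_41) (j2 10240 d85_42 d85_43)) (j2 20480 (j2 10240 d85_44 d85_45) (j2 10240 d85_46 d85_47))))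 (j2 81920 (j2 40960 (j2 20480 (j2 10240 d85_48 d85_49) (j2 10240 d85_50 d85_51)) (j2 20480 (j2 10240 d85_52 d85_53) (j2 10240 d85_54 d85_55))) (j2 40960 (j2 20480 (j2 10240 d85_56 d85_57) (j2 10240 d85_58 d85_59)) (j2 20480 (j2 10240 d85_60 d85_61) (j2 10240 d85_62 d85_63))))))
def D86 : ℕ := (j2 327680 (j2 163840 (j2 81920 (j2 40960 (j2 20480 (j2 10240 d86_0 d86_1) (j2 10240 d86_2 d86_3)) (j2 20480 (j2 10240 d86_4 d86_5) (j2 10240 d86_6 d86_7))) (j2 40960 (j2 20480 (j2 10240 d86_8 d86_9) (j2 10240 d86_10 d86_11)) (j2 20480 (j2 10240 d86_12 d86_13) (j2 10240 d86_14 d86_15)))) (j2 81920 (j2 40960 (j2 20480 (j2 10240 d86_16 d86_17) (j2 10240 d86_18 d86_19)) (j2 20480 (j2 10240 d86_20 d86_21) (j2 10240 d86_22 d86_23))) (j2 40960 (j2 20480 (j2 10240 d86_24 d86_25) (j2 10240 d86_26 d86_27)) (j2 20480 (j2 10240 d86_28 d86_29) (j2 10240 d86_30 d86_31)))))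 (j2 163840 (j2 81920 (j2 40960 (j2 20480 (j2 10240 d86_32 d86_33) (j2 10240 d86_34 d86_35)) (j2 20480 (j2 10240 d86_36 d86_37) (j2 10240 d86_38 d86_39))) (j2 40960 (j2 20480 (j2 10240 d86_40 d86_41) (j2 10240 d86_42 d86_43)) (j2 20480 (j2 10240 d86_44 d86_45) (j2 10240 d86_46 d86_47)))) (j2 81920 (j2 40960 (j2 20480 (j2 10240 d86_48 d86_49) (j2 10240 d86_50 d86_51)) (j2 20480 (j2 10240 d86_52 d86_53) (j2 10240 d86_54 d86_55))) (j2 40960 (j2 20480 (j2 10240 d86_56 d86_57) (j2 10240 d86_58 d86_59)) (j2 20480 (j2 10240 d86_60 d86_61) (j2 10240 d86_62 d86_63))))))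
def D87 : ℕ := (j2 327680 (j2 163840 (j2 81920 (j2 40960 (j2 20480 (j2 10240 d87_0 d87_1) (j2 10240 d87_2 d87_3)) (j2 20480 (j2 10240 d87_4 d87_5) (j2 10240 d87_6 d87_7))) (j2 40960 (j2 20480 (j2 10240 d87_8 d87_9) (j2 10240 d87_10 d87_11)) (j2 20480 (j2 10240 d87_12 d87_13) (j2 10240 d87_14 d87_15)))) (j2 81920 (j2 40960 (j2 20480 (j2 10240 d87_16 d87_17) (j2 10240 d87_18 d87_19)) (j2 20480 (j2 10240 d87_20 d87_21) (j2 10240 d87_22 d87_23))) (j2 40960 (j2 20480 (j2 10240 d87_24 d87_25) (j2 10240 d87_26 d87_27)) (j2 20480 (j2 10240 d87_28 d87_29) (j2 10240 d87_30 d87_31))))) (j2 163840 (j2 81920 (j2 40960 (j2 20480 (j2 10240 d87_32 d87_33) (j2 10240 d87_34 d87_35)) (j2 20480 (j2 10240 d87_36 d87_37) (j2 10240 d87_38 d87_39))) (j2 40960 (j2 20480 (j2 10240 d87_40 d87_41) (j2 10240 d87_42 d87_43)) (j2 20480 (j2 10240 d87_44 d87_45) (j2 10240 d87_46 d87_47))))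 (j2 81920 (j2 40960 (j2 20480 (j2 10240 d87_48 d87_49) (j2 10240 d87_50 d87_51)) (j2 20480 (j2 10240 d87_52 d87_53) (j2 10240 d87_54 d87_55))) (j2 40960 (j2 20480 (j2 10240 d87_56 d87_57) (j2 10240 d87_58 d87_59)) (j2 20480 (j2 10240 d87_60 d87_61) (j2 10240 d87_62 d87_63))))))
def D88 : ℕ := (j2 327680 (j2 163840 (j2 81920 (j2 40960 (j2 20480 (j2 10240 d88_0 d88_1) (j2 10240 d88_2 d88_3)) (j2 20480 (j2 10240 d88_4 d88_5) (j2 10240 d88_6 d88_7))) (j2 40960 (j2 20480 (j2 10240 d88_8 d88_9) (j2 10240 d88_10 d88_11)) (j2 20480 (j2 10240 d88_12 d88_13) (j2 10240 d88_14 d88_15)))) (j2 81920 (j2 40960 (j2 20480 (j2 10240 d88_16 d88_17) (j2 10240 d88_18 d88_19)) (j2 20480 (j2 10240 d88_20 d88_21) (j2 10240 d88_22 d88_23))) (j2 40960 (j2 20480 (j2 10240 d88_24 d88_25) (j2 10240 d88_26 d88_27)) (j2 20480 (j2 10240 d88_28 d88_29) (j2 10240 d88_30 d88_31)))))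 (j2 163840 (j2 81920 (j2 40960 (j2 20480 (j2 10240 d88_32 d88_33) (j2 10240 d88_34 d88_35)) (j2 20480 (j2 10240 d88_36 d88_37) (j2 10240 d88_38 d88_39))) (j2 40960 (j2 20480 (j2 10240 d88_40 d88_41) (j2 10240 d88_42 d88_43)) (j2 20480 (j2 10240 d88_44 d88_45) (j2 10240 d88_46 d88_47)))) (j2 81920 (j2 40960 (j2 20480 (j2 10240 d88_48 d88_49) (j2 10240 d88_50 d88_51)) (j2 20480 (j2 10240 d88_52 d88_53) (j2 10240 d88_54 d88_55))) (j2 40960 (j2 20480 (j2 10240 d88_56 d88_57) (j2 10240 d88_58 d88_59)) (j2 20480 (j2 10240 d88_60 d88_61) (j2 10240 d88_62 d88_63))))))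
def D89 : ℕ := (j2 327680 (j2 163840 (j2 81920 (j2 40960 (j2 20480 (j2 10240 d89_0 d89_1) (j2 10240 d89_2 d89_3)) (j2 20480 (j2 10240 d89_4 d89_5) (j2 10240 d89_6 d89_7))) (j2 40960 (j2 20480 (j2 10240 d89_8 d89_9) (j2 10240 d89_10 d89_11)) (j2 20480 (j2 10240 d89_12 d89_13) (j2 10240 d89_14 d89_15)))) (j2 81920 (j2 40960 (j2 20480 (j2 10240 d89_16 d89_17) (j2 10240 d89_18 d89_19)) (j2 20480 (j2 10240 d89_20 d89_21) (j2 10240 d89_22 d89_23))) (j2 40960 (j2 20480 (j2 10240 d89_24 d89_25) (j2 10240 d89_26 d89_27)) (j2 20480 (j2 10240 d89_28 d89_29) (j2 10240 d89_30 d89_31))))) (j2 163840 (j2 81920 (j2 40960 (j2 20480 (j2 10240 d89_32 d89_33) (j2 10240 d89_34 d89_35)) (j2 20480 (j2 10240 d89_36 d89_37) (j2 10240 d89_38 d89_39))) (j2 40960 (j2 20480 (j2 10240 d89_40 d89_41) (j2 10240 d89_42 d89_43)) (j2 20480 (j2 10240 d89_44 d89_45) (j2 10240 d89_46 d89_47))))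 (j2 81920 (j2 40960 (j2 20480 (j2 10240 d89_48 d89_49) (j2 10240 d89_50 d89_51)) (j2 20480 (j2 10240 d89_52 d89_53) (j2 10240 d89_54 d89_55))) (j2 40960 (j2 20480 (j2 10240 d89_56 d89_57) (j2 10240 d89_58 d89_59)) (j2 20480 (j2 10240 d89_60 d89_61) (j2 10240 d89_62 d89_63))))))
def H0 : ℕ := (j2 327680 (j2 163840 (j2 81920 (j2 40960 (j2 20480 (j2 10240 h0_0 h0_1) (j2 10240 h0_2 h0_3)) (j2 20480 (j2 10240 h0_4 h0_5) (j2 10240 h0_6 h0_7))) (j2 40960 (j2 20480 (j2 10240 h0_8 h0_9) (j2 10240 h0_10 h0_11)) (j2 20480 (j2 10240 h0_12 h0_13) (j2 10240 h0_14 h0_15)))) (j2 81920 (j2 40960 (j2 20480 (j2 10240 h0_16 h0_17) (j2 10240 h0_18 h0_19)) (j2 20480 (j2 10240 h0_20 h0_21) (j2 10240 h0_22 h0_23))) (j2 40960 (j2 20480 (j2 10240 h0_24 h0_25) (j2 10240 h0_26 h0_27)) (j2 20480 (j2 10240 h0_28 h0_29) (j2 10240 h0_30 h0_31))))) (j2 163840 (j2 81920 (j2 40960 (j2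 20480 (j2 10240 h0_32 h0_33) (j2 10240 h0_34 h0_35)) (j2 20480 (j2 10240 h0_36 h0_37) (j2 10240 h0_38 h0_39))) (j2 40960 (j2 20480 (j2 10240 h0_40 h0_41) (j2 10240 h0_42 h0_43)) (j2 20480 (j2 10240 h0_44 h0_45) (j2 10240 h0_46 h0_47)))) (j2 81920 (j2 40960 (j2 20480 (j2 10240 h0_48 h0_49) (j2 10240 h0_50 h0_51)) (j2 20480 (j2 10240 h0_52 h0_53) (j2 10240 h0_54 h0_55))) (j2 40960 (j2 20480 (j2 10240 h0_56 h0_57) (j2 10240 h0_58 h0_59)) (j2 20480 (j2 10240 h0_60 h0_61) (j2 10240 h0_62 h0_63))))))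
def H1 : ℕ := (j2 327680 (j2 163840 (j2 81920 (j2 40960 (j2 20480 (j2 10240 h1_0 h1_1) (j2 10240 h1_2 h1_3)) (j2 20480 (j2 10240 h1_4 h1_5) (j2 10240 h1_6 h1_7))) (j2 40960 (j2 20480 (j2 10240 h1_8 h1_9) (j2 10240 h1_10 h1_11)) (j2 20480 (j2 10240 h1_12 h1_13) (j2 10240 h1_14 h1_15)))) (j2 81920 (j2 40960 (j2 20480 (j2 10240 h1_16 h1_17) (j2 10240 h1_18 h1_19)) (j2 20480 (j2 10240 h1_20 h1_21) (j2 10240 h1_22 h1_23))) (j2 40960 (j2 20480 (j2 10240 h1_24 h1_25) (j2 10240 h1_26 h1_27)) (j2 20480 (j2 10240 h1_28 h1_29) (j2 10240 h1_30 h1_31))))) (j2 163840 (j2 81920 (j2 40960 (j2 20480 (j2 10240 h1_32 h1_33) (j2 10240 h1_34 h1_35)) (j2 20480 (j2 10240 h1_36 h1_37) (j2 10240 h1_38 h1_39))) (j2 40960 (j2 20480 (j2 10240 h1_40 h1_41) (j2 10240 h1_42 h1_43)) (j2 20480 (j2 10240 h1_44 h1_45) (j2 10240 h1_46 h1_47)))) (j2 81920 (j2 40960 (j2 20480 (j2 10240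 h1_48 h1_49) (j2 10240 h1_50 h1_51)) (j2 20480 (j2 10240 h1_52 h1_53) (j2 10240 h1_54 h1_55))) (j2 40960 (j2 20480 (j2 10240 h1_56 h1_57) (j2 10240 h1_58 h1_59)) (j2 20480 (j2 10240 h1_60 h1_61) (j2 10240 h1_62 h1_63))))))
def DT : Tr := (Tr.n (Tr.n (Tr.n (Tr.n (Tr.n (Tr.n (Tr.n (Tr.l D0) (Tr.l D64)) (Tr.n (Tr.l D32) (Tr.l 0))) (Tr.n (Tr.n (Tr.l D16) (Tr.l D80)) (Tr.n (Tr.l D48) (Tr.l 0)))) (Tr.n (Tr.n (Tr.n (Tr.l D8) (Tr.l D72)) (Tr.n (Tr.l D40) (Tr.l 0))) (Tr.n (Tr.n (Tr.l D24) (Tr.l D88)) (Tr.n (Tr.l D56) (Tr.l 0))))) (Tr.n (Tr.n (Tr.n (Tr.n (Tr.l D4) (Tr.l D68)) (Tr.n (Tr.l D36) (Tr.l 0))) (Tr.n (Tr.n (Tr.l D20) (Tr.l D84)) (Tr.n (Tr.l D52) (Tr.l 0)))) (Tr.n (Tr.n (Tr.n (Tr.l D12) (Tr.l D76)) (Tr.n (Tr.l D44) (Tr.l 0))) (Tr.n (Tr.n (Tr.l D28) (Tr.l 0)) (Tr.n (Tr.l D60) (Tr.l 0)))))) (Tr.n (Tr.n (Tr.n (Tr.n (Tr.n (Tr.l D2) (Tr.l D66)) (Tr.n (Tr.l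 D34) (Tr.l 0))) (Tr.n (Tr.n (Tr.l D18) (Tr.l D82)) (Tr.n (Tr.l D50) (Tr.l 0)))) (Tr.n (Tr.n (Tr.n (Tr.l D10) (Tr.l D74)) (Tr.n (Tr.l D42) (Tr.l 0))) (Tr.n (Tr.n (Tr.l D26) (Tr.l 0)) (Tr.n (Tr.l D58) (Tr.l 0))))) (Tr.n (Tr.n (Tr.n (Tr.n (Tr.l D6) (Tr.l D70)) (Tr.n (Tr.l D38) (Tr.l 0))) (Tr.n (Tr.n (Tr.l D22) (Tr.l D86)) (Tr.n (Tr.l D54) (Tr.l 0)))) (Tr.n (Tr.n (Tr.n (Tr.l D14) (Tr.l D78)) (Tr.n (Tr.l D46) (Tr.l 0))) (Tr.n (Tr.n (Tr.l D30) (Tr.l 0)) (Tr.n (Tr.l D62) (Tr.l 0))))))) (Tr.n (Tr.n (Tr.n (Tr.n (Tr.n (Tr.n (Tr.l D1) (Tr.l D65)) (Tr.n (Tr.l D33) (Tr.l 0))) (Tr.n (Tr.n (Tr.l D17) (Tr.l D81)) (Tr.n (Tr.l D49) (Tr.l 0)))) (Tr.n (Tr.n (Tr.n (Tr.l D9) (Tr.l D73)) (Tr.n (Tr.l D41) (Tr.l 0))) (Tr.n (Tr.n (Tr.l D25) (Tr.l D89)) (Tr.n (Tr.l D57) (Tr.l 0))))) (Tr.n (Tr.n (Tr.n (Tr.n (Tr.l D5) (Tr.l D69)) (Tr.n (Tr.l D37) (Tr.l 0))) (Tr.n (Tr.n (Tr.l D21)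 (Tr.l D85)) (Tr.n (Tr.l D53) (Tr.l 0)))) (Tr.n (Tr.n (Tr.n (Tr.l D13) (Tr.l D77)) (Tr.n (Tr.l D45) (Tr.l 0))) (Tr.n (Tr.n (Tr.l D29) (Tr.l 0)) (Tr.n (Tr.l D61) (Tr.l 0)))))) (Tr.n (Tr.n (Tr.n (Tr.n (Tr.n (Tr.l D3) (Tr.l D67)) (Tr.n (Tr.l D35) (Tr.l 0))) (Tr.n (Tr.n (Tr.l D19) (Tr.l D83)) (Tr.n (Tr.l D51) (Tr.l 0)))) (Tr.n (Tr.n (Tr.n (Tr.l D11) (Tr.l D75)) (Tr.n (Tr.l D43) (Tr.l 0))) (Tr.n (Tr.n (Tr.l D27) (Tr.l 0)) (Tr.n (Tr.l D59) (Tr.l 0))))) (Tr.n (Tr.n (Tr.n (Tr.n (Tr.l D7) (Tr.l D71)) (Tr.n (Tr.l D39) (Tr.l 0))) (Tr.n (Tr.n (Tr.l D23) (Tr.l D87)) (Tr.n (Tr.l D55) (Tr.l 0)))) (Tr.n (Tr.n (Tr.n (Tr.l D15) (Tr.l D79)) (Tr.n (Tr.l D47) (Tr.l 0))) (Tr.n (Tr.n (Tr.l D31) (Tr.l 0)) (Tr.n (Tr.l D63) (Tr.l 0))))))))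

end

end Pool.Agent.U620.K7F
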