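import Pool.Agent.U620.K7F.Code

/-! The functional of three plus two plus two vertices. -/

set_option autoImplicit false
set_option linter.unusedVariables false
set_option maxRecDepth 100000
set_option maxHeartbeats 4000000
open Finset
open Pool.Agent.H122R2.N6 (Sy Bt B2 B2_true)
open Pool.Agent.W843.K7 (NoK7)

namespace Pool.Agent.U620.K7F
open Pool.Agent.Y435.T7

noncomputable section

/-- coordinate `k` of the two records -/
def er (x y k : ℕ) : ℕ := cnd (Nat.ble 10 k) (kC y (Nat.mul 40 (Nat.sub k 10))) (kC x (Nat.mul 40 k))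
def sm (x y : ℕ) (n : ℕ) : ℕ := @Nat.rec (fun _ => ℕ) 0 (fun k s => Nat.add s (er x y k)) n
def psr (k : ℕ) : ℕ := cnd (Nat.ble k 4) k (cnd (Nat.beq (Nat.mod k 3) 2) (Nat.add k 2) (cnd (Nat.beq (Nat.mod k 3) 0) k (Nat.sub k 2)))
def pst (k : ℕ) : ℕ := cnd (Nat.ble k 4) k (cnd (Nat.beq (Nat.mod k 3) 2) (Nat.add k 1) (cnd (Nat.beq (Nat.mod k 3) 0) (Nat.sub k 1) k))
def ngr (k : ℕ) : Bool := cnd (Nat.ble k 4) false (Nat.beq (Nat.mod k 3) 0)
def ngt (k : ℕ) : Bool := cnd (Nat.ble k 4) false (Nat.beq (Nat.mod k 3) 1)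

def ars (c : ℕ) : ℕ := sb 0 2 (sb 1 3 (sb 7 8 c))
def ast (c : ℕ) : ℕ := sb 0 5 (sb 1 6 (sb 8 9 c))
def axy (c : ℕ) : ℕ := sb 0 1 (sb 2 3 (sb 5 6 c))

def rl (ps : ℕ → ℕ) (ng : ℕ → Bool) (x y x' y' : ℕ) : Bool :=
  al 20 (fun k => cnd (ng k) (Nat.beq (Nat.add (er x' y' k) (er x y (ps k))) 8448) (Nat.beq (er x' y' k) (er x y (ps k))))

def h4c (_ : ℕ) : Bool := false

def idn (k : ℕ) : ℕ := k
def ngo (k : ℕ) : Bool := false
def chq (c : ℕ) : Bool := cnd (h4c c) true (st (fun x => st (fun y =>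
  cnd (Nat.beq (Nat.add (kC x 400) (Nat.mul (sm x y 20) 4224)) 370322304)
  (cnd (st (fun x' => st (fun y' => rl psr ngr x y x' y') (xr H1 (ars c))) (xr H0 (ars c)))
  (cnd (st (fun x' => st (fun y' => rl pst ngt x y x' y') (xr H1 (ast c))) (xr H0 (ast c)))
  (st (fun x' => st (fun y' => rl idn ngo x y x' y') (xr H1 (axy c))) (xr H0 (axy c))) false) false) false) (xr H1 c)) (xr H0 c))

theorem chq0 : al 256 (fun c => st chq c) = true := by decide +kernel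
theorem chq1 : al 256 (fun c => st chq (Nat.add 256 c)) = true := by decide +kernel
theorem chq2 : al 256 (fun c => st chq (Nat.add 512 c)) = true := by decide +kernel
theorem chq3 : al 256 (fun c => st chq (Nat.add 768 c)) = true := by decide +kernel

theorem chq_all {c : ℕ} (hc : c < 1024) : chq c = true := by
  rcases Nat.lt_or_ge c 256 with h | h
  · have h3 := al_true chq0 h
    rwa [st_eq] at h3
  rcases Nat.lt_or_ge c 512 with h2 | h2
  · have h3 := al_true chq1 (show c - 256 < 256 by omega)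
    rw [st_eq] at h3
    rwa [show Nat.add 256 (c - 256) = c by show 256 + (c - 256) = c; omega] at h3
  rcases Nat.lt_or_ge c 768 with h4 | h4
  · have h3 := al_true chq2 (show c - 512 < 256 by omega)
    rw [st_eq] at h3
    rwa [show Nat.add 512 (c - 512) = c by show 512 + (c - 512) = c; omega] at h3
  · have h3 := al_true chq3 (show c - 768 < 256 by omega)
    rw [st_eq] at h3
    rwa [show Nat.add 768 (c - 768) = c by show 768 + (c - 768) = c; omega] at h3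

/-- coordinate `k` of a structure on three plus two vertices -/
def e3 (c k : ℕ) : ℕ := er (xr H0 c) (xr H1 c) k
def w3 (c : ℕ) : ℕ := fld 40 (fld 640 H0 c) 10

theorem e3_lo {k : ℕ} (hk : k < 10) (c : ℕ) : e3 c k = fld 40 (fld 640 H0 c) k := by
  unfold e3 er
  have : Nat.ble 10 k = false := by
    rw [← Bool.not_eq_true]; exact fun h => absurd (Nat.le_of_ble_eq_true h) (by omega)
  rw [this, cnd_false', xr_eq]
  exact kC_eq _ _
theorem e3_hi (c k : ℕ) : e3 c (10 + k) = fld 40 (fld 640 H1 c) k := by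
  unfold e3 er
  have : Nat.ble 10 (10 + k) = true := Nat.ble_eq_true_of_le (by omega)
  rw [this, xr_eq, xr_eq]
  show kC (fld 640 H1 c) (Nat.mul 40 (Nat.sub (10 + k) 10)) = _
  rw [show Nat.sub (10 + k) 10 = k by show (10 + k) - 10 = k; omega]
  exact kC_eq _ _

theorem d3_eq (c c' : ℕ) : d3 c c' = ((∑ k ∈ range 20, e3 c k * e3 c' k) + w3 c) + w3 c' := by
  unfold d3 d4 w3
  rw [show (20 : ℕ) = 10 + 10 from rfl, sum_range_add]
  congr 3
  · exact sum_congr rfl fun k hk => by rw [e3_lo (mem_range.mp hk), e3_lo (mem_range.mp hk)]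
  · exact sum_congr rfl fun k _ => by rw [e3_hi, e3_hi]

theorem sm_eq (c n : ℕ) : sm (xr H0 c) (xr H1 c) n = ∑ k ∈ range n, e3 c k := by
  induction n with
  | zero => rfl
  | succ n ih => rw [sum_range_succ, ← ih]; rfl

theorem chq_spec {c : ℕ} (hc : c < 1024) (h4 : h4c c = false) : w3 c + (∑ k ∈ range 20, e3 c k) * 4224 = 370322304 ∧
    rl psr ngr (xr H0 c) (xr H1 c) (xr H0 (ars c)) (xr H1 (ars c)) = true ∧
    rl pst ngt (xr H0 c) (xr H1 c) (xr H0 (ast c)) (xr H1 (ast c)) = true ∧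
    rl idn ngo (xr H0 c) (xr H1 c) (xr H0 (axy c)) (xr H1 (axy c)) = true := by
  have h := chq_all hc
  unfold chq at h
  simp only [h4, cnd_false', st_eq] at h
  obtain ⟨h1, h⟩ := cnd_and h
  obtain ⟨h2, h⟩ := cnd_and h
  obtain ⟨h3, h5⟩ := cnd_and h
  refine ⟨?_, h2, h3, h5⟩
  have h6 := Nat.eq_of_beq_eq_true h1
  rw [sm_eq, xr_eq] at h6
  have e : kC (fld 640 H0 c) 400 = w3 c := kC_eq _ 10
  rw [e] at h6
  exact h6

theorem rl_spec {ps : ℕ → ℕ} {ng : ℕ → Bool} {c c' : ℕ} (h : rl ps ng (xr H0 c) (xr H1 c) (xr H0 c') (xr H1 c') = true) {k : ℕ}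
    (hk : k < 20) : cnd (ng k) (Nat.beq (Nat.add (e3 c' k) (e3 c (ps k))) 8448) (Nat.beq (e3 c' k) (e3 c (ps k))) = true :=
  al_true h hk

theorem rl_prod {ps : ℕ → ℕ} {ng : ℕ → Bool} {a a' b b' : ℕ} (h : rl ps ng (xr H0 a) (xr H1 a) (xr H0 a') (xr H1 a') = true)
    (h' : rl ps ng (xr H0 b) (xr H1 b) (xr H0 b') (xr H1 b') = true) {k : ℕ} (hk : k < 20) :
    ((e3 a' k : ℤ) - 4224) * ((e3 b' k : ℤ) - 4224) = ((e3 a (ps k) : ℤ) - 4224) * ((e3 b (ps k) : ℤ) - 4224) := by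
  have h1 := rl_spec h hk
  have h2 := rl_spec h' hk
  cases hn : ng k with
  | true =>
    rw [hn] at h1 h2
    have a1 := Nat.eq_of_beq_eq_true (show Nat.beq (Nat.add (e3 a' k) (e3 a (ps k))) 8448 = true from h1)
    have a2 := Nat.eq_of_beq_eq_true (show Nat.beq (Nat.add (e3 b' k) (e3 b (ps k))) 8448 = true from h2)
    have b1 : (e3 a' k : ℤ) = 8448 - e3 a (ps k) := by
      have : ((e3 a' k + e3 a (ps k) : ℕ) : ℤ) = ((8448 : ℕ) : ℤ) := congrArg _ a1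
      push_cast at this
      linarith
    have b2 : (e3 b' k : ℤ) = 8448 - e3 b (ps k) := by
      have : ((e3 b' k + e3 b (ps k) : ℕ) : ℤ) = ((8448 : ℕ) : ℤ) := congrArg _ a2
      push_cast at this
      linarith
    rw [b1, b2]
    ring
  | false =>
    rw [hn, cnd_false'] at h1 h2
    rw [Nat.eq_of_beq_eq_true h1, Nat.eq_of_beq_eq_true h2]

/-- the term as a sum of products -/
theorem d3_int {c c' : ℕ} (h : w3 c + (∑ k ∈ range 20, e3 c k) * 4224 = 370322304) (h' : w3 c' + (∑ k ∈ range 20, e3 c' k) * 4224 = 370322304) :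
    (d3 c c' : ℤ) = 2 * 370322304 + (∑ k ∈ range 20, ((e3 c k : ℤ) - 4224) * ((e3 c' k : ℤ) - 4224)) - 20 * 4224 ^ 2 := by
  have h1 : ((w3 c + (∑ k ∈ range 20, e3 c k) * 4224 : ℕ) : ℤ) = 370322304 := by rw [h]; rfl
  have h2 : ((w3 c' + (∑ k ∈ range 20, e3 c' k) * 4224 : ℕ) : ℤ) = 370322304 := by rw [h']; rfl
  have h3 : ∑ k ∈ range 20, ((e3 c k : ℤ) - 4224) * ((e3 c' k : ℤ) - 4224)
      = ∑ k ∈ range 20, (e3 c k : ℤ) * (e3 c' k : ℤ) - 4224 * ∑ k ∈ range 20, (e3 c k : ℤ) - 4224 * ∑ k ∈ range 20, (e3 c' k : ℤ)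
        + 20 * 4224 ^ 2 := by
    rw [mul_sum, mul_sum, ← sum_sub_distrib, ← sum_sub_distrib]
    have : (20 * 4224 ^ 2 : ℤ) = ∑ _k ∈ range 20, (4224 ^ 2 : ℤ) := by rw [sum_const, card_range]; norm_num
    rw [this, ← sum_add_distrib]
    exact sum_congr rfl fun k _ => by ring
  rw [h3, d3_eq]
  push_cast at h1 h2 ⊢
  linarith

theorem ps_sum {ps : ℕ → ℕ} (h : ∀ k < 20, ps k < 20 ∧ ps (ps k) = k) (F : ℕ → ℤ) :
    ∑ k ∈ range 20, F (ps k) = ∑ k ∈ range 20, F k :=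
  sum_nbij' ps ps (fun k hk => mem_range.mpr (h k (mem_range.mp hk)).1) (fun k hk => mem_range.mpr (h k (mem_range.mp hk)).1)
    (fun k hk => (h k (mem_range.mp hk)).2) (fun k hk => (h k (mem_range.mp hk)).2) (fun k _ => rfl)

theorem psr_ok : ∀ k < 20, psr k < 20 ∧ psr (psr k) = k := by decide +kernel
theorem pst_ok : ∀ k < 20, pst k < 20 ∧ pst (pst k) = k := by decide +kernel

theorem d3_comm (c c' : ℕ) : d3 c c' = d3 c' c := by
  rw [d3_eq, d3_eq, add_right_comm]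
  refine congrArg (fun z => z + w3 c' + w3 c) (sum_congr rfl fun k _ => mul_comm _ _)

theorem ars_chk : (B2 fun b0 => B2 fun b1 => B2 fun b2 => B2 fun b3 => B2 fun b4 => B2 fun b5 => B2 fun b6 => B2 fun b7 => B2 fun b8 => B2 fun b9 => Nat.beq (ars (c10 b0 b1 b2 b3 b4 b5 b6 b7 b8 b9)) (c10 b2 b3 b0 b1 b4 b5 b6 b8 b7 b9)) = true := by decide +kernel
theorem ars_eq {b0 b1 b2 b3 b4 b5 b6 b7 b8 b9 : ℕ} (h0 : Bt b0) (h1 : Bt b1) (h2 : Bt b2) (h3 : Bt b3) (h4 : Bt b4) (h5 : Bt b5) (h6 : Bt b6) (h7 : Bt b7) (h8 : Bt b8) (h9 : Bt b9) : ars (c10 b0 b1 b2 b3 b4 b5 b6 b7 b8 b9) = c10 b2 b3 b0 b1 b4 b5 b6 b8 b7 b9 :=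
  Nat.eq_of_beq_eq_true (B2_true (B2_true (B2_true (B2_true (B2_true (B2_true (B2_true (B2_true (B2_true (B2_true ars_chk h0) h1) h2) h3) h4) h5) h6) h7) h8) h9)
theorem ast_chk : (B2 fun b0 => B2 fun b1 => B2 fun b2 => B2 fun b3 => B2 fun b4 => B2 fun b5 => B2 fun b6 => B2 fun b7 => B2 fun b8 => B2 fun b9 => Nat.beq (ast (c10 b0 b1 b2 b3 b4 b5 b6 b7 b8 b9)) (c10 b5 b6 b2 b3 b4 b0 b1 b7 b9 b8)) = true := by decide +kernel
theorem ast_eq {b0 b1 b2 b3 b4 b5 b6 b7 b8 b9 : ℕ} (h0 : Bt b0) (h1 : Bt b1) (h2 : Bt b2) (h3 : Bt b3) (h4 : Bt b4) (h5 : Bt b5) (h6 : Bt b6) (h7 : Bt b7) (h8 : Bt b8) (h9 : Bt b9) : ast (c10 b0 b1 b2 b3 b4 b5 b6 b7 b8 b9) = c10 b5 b6 b2 b3 b4 b0 b1 b7 b9 b8 :=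
  Nat.eq_of_beq_eq_true (B2_true (B2_true (B2_true (B2_true (B2_true (B2_true (B2_true (B2_true (B2_true (B2_true ast_chk h0) h1) h2) h3) h4) h5) h6) h7) h8) h9)
theorem axy_chk : (B2 fun b0 => B2 fun b1 => B2 fun b2 => B2 fun b3 => B2 fun b4 => B2 fun b5 => B2 fun b6 => B2 fun b7 => B2 fun b8 => B2 fun b9 => Nat.beq (axy (c10 b0 b1 b2 b3 b4 b5 b6 b7 b8 b9)) (c10 b1 b0 b3 b2 b4 b6 b5 b7 b8 b9)) = true := by decide +kernel
theorem axy_eq {b0 b1 b2 b3 b4 b5 b6 b7 b8 b9 : ℕ} (h0 : Bt b0) (h1 : Bt b1) (h2 : Bt b2) (h3 : Bt b3) (h4 : Bt b4) (h5 : Bt b5) (h6 : Bt b6) (h7 : Bt b7) (h8 : Bt b8) (h9 : Bt b9) : axy (c10 b0 b1 b2 b3 b4 b5 b6 b7 b8 b9) = c10 b1 b0 b3 b2 b4 b6 b5 b7 b8 b9 :=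
  Nat.eq_of_beq_eq_true (B2_true (B2_true (B2_true (B2_true (B2_true (B2_true (B2_true (B2_true (B2_true (B2_true axy_chk h0) h1) h2) h3) h4) h5) h6) h7) h8) h9)

section
variable {V : Type} (E : V → V → V → ℕ)

def hC (r s t x y : V) : ℕ := hx (E r s t) (E r s x) (E r t x) (E s t x) (E r s y) (E r t y) (E s t y) (E r x y) (E s x y) (E t x y)
/-- the term of three plus two plus two vertices -/
def F3 (r s t x y p q : V) : ℕ := d3 (hC E r s t x y) (hC E r s t p q)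

variable {E}

theorem hC_lt (hE : Sy E) (r s t x y : V) : hC E r s t x y < 1024 :=
  c10_lt (hE.b _ _ _) (hE.b _ _ _) (hE.b _ _ _) (hE.b _ _ _) (hE.b _ _ _) (hE.b _ _ _) (hE.b _ _ _) (hE.b _ _ _) (hE.b _ _ _) (hE.b _ _ _)

theorem h4c_E (hE : Sy E) (hK : NoK7 E) (r s t x y : V) : h4c (hC E r s t x y) = false := rfl

theorem hC_rs (hE : Sy E) (r s t x y : V) : hC E s r t x y = ars (hC E r s t x y) := by
  unfold hC hx
  rw [ars_eq (hE.b _ _ _) (hE.b _ _ _) (hE.b _ _ _) (hE.b _ _ _) (hE.b _ _ _) (hE.b _ _ _) (hE.b _ _ _) (hE.b _ _ _) (hE.b _ _ _) (hE.b _ _ _), hE.h213 r s t, hE.h213 r s x, hE.h213 r s y]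
theorem hC_st (hE : Sy E) (r s t x y : V) : hC E r t s x y = ast (hC E r s t x y) := by
  unfold hC hx
  rw [ast_eq (hE.b _ _ _) (hE.b _ _ _) (hE.b _ _ _) (hE.b _ _ _) (hE.b _ _ _) (hE.b _ _ _) (hE.b _ _ _) (hE.b _ _ _) (hE.b _ _ _) (hE.b _ _ _), hE.h132 r s t, hE.h213 s t x, hE.h213 s t y]
theorem hC_xy (hE : Sy E) (r s t x y : V) : hC E r s t y x = axy (hC E r s t x y) := by
  unfold hC hx
  rw [axy_eq (hE.b _ _ _) (hE.b _ _ _) (hE.b _ _ _) (hE.b _ _ _) (hE.b _ _ _) (hE.b _ _ _) (hE.b _ _ _) (hE.b _ _ _) (hE.b _ _ _) (hE.b _ _ _), hE.h132 r x y, hE.h132 s x y, hE.h132 t x y]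

theorem w3_E (hE : Sy E) (hK : NoK7 E) (r s t x y : V) :
    w3 (hC E r s t x y) + (∑ k ∈ range 20, e3 (hC E r s t x y) k) * 4224 = 370322304 :=
  (chq_spec (hC_lt hE r s t x y) (h4c_E hE hK r s t x y)).1

theorem F3_rs (hE : Sy E) (hK : NoK7 E) (r s t x y p q : V) : F3 E s r t x y p q = F3 E r s t x y p q := by
  have h1 := d3_int (w3_E hE hK s r t x y) (w3_E hE hK s r t p q)
  have h2 := d3_int (w3_E hE hK r s t x y) (w3_E hE hK r s t p q)
  have h3 := (chq_spec (hC_lt hE r s t x y) (h4c_E hE hK r s t x y)).2.1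
  have h4 := (chq_spec (hC_lt hE r s t p q) (h4c_E hE hK r s t p q)).2.1
  rw [← hC_rs hE] at h3 h4
  have h5 : ∑ k ∈ range 20, ((e3 (hC E s r t x y) k : ℤ) - 4224) * ((e3 (hC E s r t p q) k : ℤ) - 4224)
      = ∑ k ∈ range 20, ((e3 (hC E r s t x y) k : ℤ) - 4224) * ((e3 (hC E r s t p q) k : ℤ) - 4224) := by
    rw [← ps_sum psr_ok (fun k => ((e3 (hC E r s t x y) k : ℤ) - 4224) * ((e3 (hC E r s t p q) k : ℤ) - 4224))]
    exact sum_congr rfl fun k hk => rl_prod h3 h4 (mem_range.mp hk)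
  rw [h5, ← h2] at h1
  exact Nat.cast_injective (R := ℤ) h1

theorem F3_st (hE : Sy E) (hK : NoK7 E) (r s t x y p q : V) : F3 E r t s x y p q = F3 E r s t x y p q := by
  have h1 := d3_int (w3_E hE hK r t s x y) (w3_E hE hK r t s p q)
  have h2 := d3_int (w3_E hE hK r s t x y) (w3_E hE hK r s t p q)
  have h3 := (chq_spec (hC_lt hE r s t x y) (h4c_E hE hK r s t x y)).2.2.1
  have h4 := (chq_spec (hC_lt hE r s t p q) (h4c_E hE hK r s t p q)).2.2.1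
  rw [← hC_st hE] at h3 h4
  have h5 : ∑ k ∈ range 20, ((e3 (hC E r t s x y) k : ℤ) - 4224) * ((e3 (hC E r t s p q) k : ℤ) - 4224)
      = ∑ k ∈ range 20, ((e3 (hC E r s t x y) k : ℤ) - 4224) * ((e3 (hC E r s t p q) k : ℤ) - 4224) := by
    rw [← ps_sum pst_ok (fun k => ((e3 (hC E r s t x y) k : ℤ) - 4224) * ((e3 (hC E r s t p q) k : ℤ) - 4224))]
    exact sum_congr rfl fun k hk => rl_prod h3 h4 (mem_range.mp hk)
  rw [h5, ← h2] at h1
  exact Nat.cast_injective (R := ℤ) h1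

theorem e3_xy (hE : Sy E) (hK : NoK7 E) (r s t x y : V) {k : ℕ} (hk : k < 20) : e3 (hC E r s t y x) k = e3 (hC E r s t x y) k := by
  have h3 := (chq_spec (hC_lt hE r s t x y) (h4c_E hE hK r s t x y)).2.2.2
  rw [← hC_xy hE] at h3
  have h4 := rl_spec h3 hk
  exact Nat.eq_of_beq_eq_true (show Nat.beq (e3 (hC E r s t y x) k) (e3 (hC E r s t x y) k) = true from h4)

theorem F3_xy (hE : Sy E) (hK : NoK7 E) (r s t x y p q : V) : F3 E r s t y x p q = F3 E r s t x y p q := by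
  have h1 := d3_int (w3_E hE hK r s t y x) (w3_E hE hK r s t p q)
  have h2 := d3_int (w3_E hE hK r s t x y) (w3_E hE hK r s t p q)
  have h5 : ∑ k ∈ range 20, ((e3 (hC E r s t y x) k : ℤ) - 4224) * ((e3 (hC E r s t p q) k : ℤ) - 4224)
      = ∑ k ∈ range 20, ((e3 (hC E r s t x y) k : ℤ) - 4224) * ((e3 (hC E r s t p q) k : ℤ) - 4224) :=
    sum_congr rfl fun k hk => by rw [e3_xy hE hK r s t x y (mem_range.mp hk)]
  rw [h5, ← h2] at h1
  exact Nat.cast_injective (R := ℤ) h1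

theorem F3_sw (r s t x y p q : V) : F3 E r s t p q x y = F3 E r s t x y p q := d3_comm _ _
theorem F3_pq (hE : Sy E) (hK : NoK7 E) (r s t x y p q : V) : F3 E r s t x y q p = F3 E r s t x y p q := by
  rw [F3_sw r s t q p x y, F3_xy hE hK r s t p q x y, F3_sw r s t x y p q]

end

end

end Pool.Agent.U620.K7F
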