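import Pool.Agent.U620.K7F.Bnd

/-! Semantics of the frames. -/

set_option autoImplicit false
set_option linter.unusedVariables false
set_option maxRecDepth 100000
set_option maxHeartbeats 4000000
set_option exponentiation.threshold 700000
open Finset
open Pool.Agent.H122R2.N6 (Bt)

namespace Pool.Agent.U620.K7F
open Pool.Agent.Y435.T7

noncomputable section

/-- the terms with three vertices, the seventh vertex in a pair -/
def SB (b012 b013 b023 b123 b014 b024 b124 b034 b134 b234 b015 b025 b125 b035 b135 b235 b045 b145 b245 b345 x8 x9 x10 x11 x12 x13 : ℕ) : ℕ :=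
  (Nat.add (d3 (hx b012 b013 b023 b123 x8 x9 x10 x11 x12 x13) (hx b012 b014 b024 b124 b015 b025 b125 b045 b145 b245)) (Nat.add (d3 (hx b123 b013 b023 b012 x12 x13 x10 x11 x8 x9) (hx b123 b134 b234 b124 b135 b235 b125 b345 b145 b245)) (Nat.add (d3 (hx b023 b013 b012 b123 x11 x9 x13 x8 x12 x10) (hx b023 b034 b024 b234 b035 b025 b235 b045 b345 b245)) (d3 (hx b013 b012 b023 b123 x8 x11 x12 x9 x10 x13) (hx b013 b014 b034 b134 b015 b035 b135 b045 b145 b345)))))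
/-- the terms with three vertices, the seventh vertex in the triple -/
def SC (b012 b013 b023 b123 b014 b024 b124 b034 b134 b234 b015 b025 b125 b035 b135 b235 b045 b145 b245 b345 x0 x1 x2 x3 x4 x5 x6 x7 x8 x9 x10 x11 x12 x13 x14 : ℕ) : ℕ :=
  (Nat.add (d3 (hx x14 b045 x4 x0 b145 x5 x1 b014 b015 x8) (hx x14 b245 x6 x2 b345 x7 x3 b234 b235 x13)) (Nat.add (d3 (hx x14 b045 x4 x0 b245 x6 x2 b024 b025 x9) (hx x14 b145 x5 x1 b345 x7 x3 b134 b135 x12)) (d3 (hx x14 b045 x4 x0 b345 x7 x3 b034 b035 x11) (hx x14 b245 x6 x2 b145 x5 x1 b124 b125 x10))))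
/-- the terms of a frame -/
def SA (b012 b013 b023 b123 b014 b024 b124 b034 b134 b234 b015 b025 b125 b035 b135 b235 b045 b145 b245 b345 x0 x1 x2 x3 x4 x5 x6 x7 x8 x9 x10 x11 x12 x13 x14 : ℕ) : ℕ :=
  Nat.add (Nat.add (dt (rc (c10 b012 b013 b023 b123 x8 x9 x10 x11 x12 x13) (c10 x4 x5 x6 x7 b014 b024 b124 b034 b134 b234)) (rc (c10 b012 b013 b023 b123 x8 x9 x10 x11 x12 x13) (c10 x0 x1 x2 x3 b015 b025 b125 b035 b135 b235))) (SB b012 b013 b023 b123 b014 b024 b124 b034 b134 b234 b015 b025 b125 b035 b135 b235 b045 b145 b245 b345 x8 x9 x10 x11 x12 x13)) (SC b012 b013 b023 b123 b014 b024 b124 b034 b134 b234 b015 b025 b125 b035 b135 b235 b045 b145 b245 b345 x0 x1 x2 x3 x4 x5 x6 x7 x8 x9 x10 x11 x12 x13 x14)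
/-- the term of the last vertex of a frame and the seventh vertex -/
def SD (b012 b013 b023 b123 b014 b024 b124 b034 b134 b234 b015 b025 b125 b035 b135 b235 b045 b145 b245 b345 x0 x1 x2 x3 x4 x5 x6 x7 x8 x9 x10 x11 x12 x13 x14 : ℕ) : ℕ :=
  (dt (rc (c10 b012 b013 b023 b123 b014 b024 b124 b034 b134 b234) (c10 x4 x5 x6 x7 x8 x9 x10 x11 x12 x13)) (rc (c10 b012 b013 b023 b123 b014 b024 b124 b034 b134 b234) (c10 b045 b145 b245 b345 b015 b025 b125 b035 b135 b235)))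

theorem Bt_of_bt (k i : ℕ) : Bt (bt k i) := bt01 k i
theorem Bt_lt {n : ℕ} (h : Bt n) : n < 2 := by rcases h with rfl | rfl <;> norm_num
theorem hstep {b r n : ℕ} (hb : Bt b) (hr : r < n) : Nat.add b (Nat.mul 2 r) < 2 * n := by
  have := Bt_lt hb
  show b + 2 * r < 2 * n
  omega
theorem c10_lt {b0 b1 b2 b3 b4 b5 b6 b7 b8 b9 : ℕ} (h0 : Bt b0) (h1 : Bt b1) (h2 : Bt b2) (h3 : Bt b3) (h4 : Bt b4)
    (h5 : Bt b5) (h6 : Bt b6) (h7 : Bt b7) (h8 : Bt b8) (h9 : Bt b9) : c10 b0 b1 b2 b3 b4 b5 b6 b7 b8 b9 < 1024 :=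
  hstep h0 (hstep h1 (hstep h2 (hstep h3 (hstep h4 (hstep h5 (hstep h6 (hstep h7 (hstep h8 (Bt_lt h9)))))))))
theorem c6_lt {b0 b1 b2 b3 b4 b5 : ℕ} (h0 : Bt b0) (h1 : Bt b1) (h2 : Bt b2) (h3 : Bt b3) (h4 : Bt b4)
    (h5 : Bt b5) : c6 b0 b1 b2 b3 b4 b5 < 64 := hstep h0 (hstep h1 (hstep h2 (hstep h3 (hstep h4 (Bt_lt h5)))))
theorem c4_lt {b0 b1 b2 b3 : ℕ} (h0 : Bt b0) (h1 : Bt b1) (h2 : Bt b2) (h3 : Bt b3) : c4 b0 b1 b2 b3 < 16 :=
  hstep h0 (hstep h1 (hstep h2 (Bt_lt h3)))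
theorem c10_46 (b0 b1 b2 b3 b4 b5 b6 b7 b8 b9 : ℕ) :
    c4 b0 b1 b2 b3 + 16 * c6 b4 b5 b6 b7 b8 b9 = c10 b0 b1 b2 b3 b4 b5 b6 b7 b8 b9 := by
  simp only [c4, c6, c10, Nat.add_eq, Nat.mul_eq]; ring
theorem c10_46' (b0 b1 b2 b3 b4 b5 b6 b7 b8 b9 : ℕ) :
    16 * c6 b4 b5 b6 b7 b8 b9 + c4 b0 b1 b2 b3 = c10 b0 b1 b2 b3 b4 b5 b6 b7 b8 b9 := by
  rw [add_comm, c10_46]
theorem mod16 (i : ℕ) : i % 16 = c4 (bt 0 i) (bt 1 i) (bt 2 i) (bt 3 i) := by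
  simp only [c4, Nat.add_eq, Nat.mul_eq, bt_eq]; norm_num; omega
theorem div16 (i : ℕ) : i / 16 % 16 = c4 (bt 4 i) (bt 5 i) (bt 6 i) (bt 7 i) := by
  simp only [c4, Nat.add_eq, Nat.mul_eq, bt_eq]; norm_num; omega
theorem div256 (i : ℕ) : i / 256 % 64 = c6 (bt 8 i) (bt 9 i) (bt 10 i) (bt 11 i) (bt 12 i) (bt 13 i) := by
  simp only [c6, Nat.add_eq, Nat.mul_eq, bt_eq]; norm_num; omega
theorem bt_mod {k n : ℕ} (h : k < n) (i : ℕ) : bt k (i % 2 ^ n) = bt k i := by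
  conv_rhs => rw [← Nat.mod_add_div i (2 ^ n)]
  rw [bt_eq, bt_eq]
  obtain ⟨r, rfl⟩ : ∃ r, n = k + (r + 1) := ⟨n - k - 1, by omega⟩
  set x := i % 2 ^ (k + (r + 1))
  set y := i / 2 ^ (k + (r + 1))
  rw [show x + 2 ^ (k + (r + 1)) * y = x + 2 ^ k * (2 * (2 ^ r * y)) by rw [pow_add, pow_succ]; ring,
    Nat.add_mul_div_left _ _ (by positivity)]
  omega

theorem bt_c4_0 {b0 b1 b2 b3 : ℕ} (h0 : Bt b0) (h1 : Bt b1) (h2 : Bt b2) (h3 : Bt b3) : bt 0 (c4 b0 b1 b2 b3) = b0 := by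
  have := Bt_lt h0
  have := Bt_lt h1
  have := Bt_lt h2
  have := Bt_lt h3
  simp only [c4, Nat.add_eq, Nat.mul_eq, bt_eq]; norm_num; omega
theorem bt_c4_1 {b0 b1 b2 b3 : ℕ} (h0 : Bt b0) (h1 : Bt b1) (h2 : Bt b2) (h3 : Bt b3) : bt 1 (c4 b0 b1 b2 b3) = b1 := by
  have := Bt_lt h0
  have := Bt_lt h1
  have := Bt_lt h2
  have := Bt_lt h3
  simp only [c4, Nat.add_eq, Nat.mul_eq, bt_eq]; norm_num; omega
theorem bt_c4_2 {b0 b1 b2 b3 : ℕ} (h0 : Bt b0) (h1 : Bt b1) (h2 : Bt b2) (h3 : Bt b3) : bt 2 (c4 b0 b1 b2 b3) = b2 := by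
  have := Bt_lt h0
  have := Bt_lt h1
  have := Bt_lt h2
  have := Bt_lt h3
  simp only [c4, Nat.add_eq, Nat.mul_eq, bt_eq]; norm_num; omega
theorem bt_c4_3 {b0 b1 b2 b3 : ℕ} (h0 : Bt b0) (h1 : Bt b1) (h2 : Bt b2) (h3 : Bt b3) : bt 3 (c4 b0 b1 b2 b3) = b3 := by
  have := Bt_lt h0
  have := Bt_lt h1
  have := Bt_lt h2
  have := Bt_lt h3
  simp only [c4, Nat.add_eq, Nat.mul_eq, bt_eq]; norm_num; omega
theorem bt_c6_0 {b0 b1 b2 b3 b4 b5 : ℕ} (h0 : Bt b0) (h1 : Bt b1) (h2 : Bt b2) (h3 : Bt b3) (h4 : Bt b4) (h5 : Bt b5) : bt 0 (c6 b0 b1 b2 b3 b4 b5) = b0 := by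
  have := Bt_lt h0
  have := Bt_lt h1
  have := Bt_lt h2
  have := Bt_lt h3
  have := Bt_lt h4
  have := Bt_lt h5
  simp only [c6, Nat.add_eq, Nat.mul_eq, bt_eq]; norm_num; omega
theorem bt_c6_1 {b0 b1 b2 b3 b4 b5 : ℕ} (h0 : Bt b0) (h1 : Bt b1) (h2 : Bt b2) (h3 : Bt b3) (h4 : Bt b4) (h5 : Bt b5) : bt 1 (c6 b0 b1 b2 b3 b4 b5) = b1 := by
  have := Bt_lt h0
  have := Bt_lt h1
  have := Bt_lt h2
  have := Bt_lt h3
  have := Bt_lt h4
  have := Bt_lt h5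
  simp only [c6, Nat.add_eq, Nat.mul_eq, bt_eq]; norm_num; omega
theorem bt_c6_2 {b0 b1 b2 b3 b4 b5 : ℕ} (h0 : Bt b0) (h1 : Bt b1) (h2 : Bt b2) (h3 : Bt b3) (h4 : Bt b4) (h5 : Bt b5) : bt 2 (c6 b0 b1 b2 b3 b4 b5) = b2 := by
  have := Bt_lt h0
  have := Bt_lt h1
  have := Bt_lt h2
  have := Bt_lt h3
  have := Bt_lt h4
  have := Bt_lt h5
  simp only [c6, Nat.add_eq, Nat.mul_eq, bt_eq]; norm_num; omega
theorem bt_c6_3 {b0 b1 b2 b3 b4 b5 : ℕ} (h0 : Bt b0) (h1 : Bt b1) (h2 : Bt b2) (h3 : Bt b3) (h4 : Bt b4) (h5 : Bt b5) : bt 3 (c6 b0 b1 b2 b3 b4 b5) = b3 := by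
  have := Bt_lt h0
  have := Bt_lt h1
  have := Bt_lt h2
  have := Bt_lt h3
  have := Bt_lt h4
  have := Bt_lt h5
  simp only [c6, Nat.add_eq, Nat.mul_eq, bt_eq]; norm_num; omega
theorem bt_c6_4 {b0 b1 b2 b3 b4 b5 : ℕ} (h0 : Bt b0) (h1 : Bt b1) (h2 : Bt b2) (h3 : Bt b3) (h4 : Bt b4) (h5 : Bt b5) : bt 4 (c6 b0 b1 b2 b3 b4 b5) = b4 := by
  have := Bt_lt h0
  have := Bt_lt h1
  have := Bt_lt h2
  have := Bt_lt h3
  have := Bt_lt h4
  have := Bt_lt h5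
  simp only [c6, Nat.add_eq, Nat.mul_eq, bt_eq]; norm_num; omega
theorem bt_c6_5 {b0 b1 b2 b3 b4 b5 : ℕ} (h0 : Bt b0) (h1 : Bt b1) (h2 : Bt b2) (h3 : Bt b3) (h4 : Bt b4) (h5 : Bt b5) : bt 5 (c6 b0 b1 b2 b3 b4 b5) = b5 := by
  have := Bt_lt h0
  have := Bt_lt h1
  have := Bt_lt h2
  have := Bt_lt h3
  have := Bt_lt h4
  have := Bt_lt h5
  simp only [c6, Nat.add_eq, Nat.mul_eq, bt_eq]; norm_num; omega

theorem mb_ok : al 256 (fun j => cnd (Nat.beq (sb 0 6 (sb 1 7 j))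
    (Nat.add (Nat.mul 16 (c4 (bt 4 j) (bt 5 j) (bt 0 j) (bt 1 j))) (c4 (bt 6 j) (bt 7 j) (bt 2 j) (bt 3 j))))
    (cnd (Nat.beq (sb 0 6 (sb 1 7 (sb 1 2 (sb 5 6 j))))
    (Nat.add (Nat.mul 16 (c4 (bt 4 j) (bt 6 j) (bt 0 j) (bt 2 j))) (c4 (bt 5 j) (bt 7 j) (bt 1 j) (bt 3 j))))
    (Nat.beq (sb 0 6 (sb 1 7 (sb 1 3 (sb 5 7 j))))
    (Nat.add (Nat.mul 16 (c4 (bt 4 j) (bt 7 j) (bt 0 j) (bt 3 j))) (c4 (bt 6 j) (bt 5 j) (bt 2 j) (bt 1 j)))) false) false) = true := by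
  decide +kernel

/-- the block of scalar products -/
def mbs (x y j : ℕ) : ℕ := d3 (16 * x + j / 16) (16 * y + j % 16)

theorem mbs_lt {x y j : ℕ} (hx : x < 64) (hy : y < 64) (hj : j < 2 ^ 8) : mbs x y j < 2 ^ 40 := by
  have hj' : j < 256 := hj
  have := d3_le (c := 16 * x + j / 16) (c' := 16 * y + j % 16) (by omega) (by omega)
  unfold mbs
  exact lt_of_le_of_lt this (by norm_num)

theorem MC_eq {x y : ℕ} (hx : x < 64) (hy : y < 64) : MC x y = enc 40 8 (fun j => mbs x y (sb 0 6 (sb 1 7 j))) := by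
  unfold MC
  rw [st_eq, st_eq]
  unfold MB
  rw [xb_H, xb_H, xb_H, xb_H, OPY_eq (fun _ _ => fld_lt _ _ _) (fun _ _ => fld_lt _ _ _) (fun _ _ => fld_lt _ _ _) (fun _ _ => fld_lt _ _ _)]
  have e : enc 40 8 (fun i => d4 (fld 640 H0 (16 * x + i / 16)) (fld 640 H1 (16 * x + i / 16)) (fld 640 H0 (16 * y + i % 16)) (fld 640 H1 (16 * y + i % 16)))
      = enc 40 8 (mbs x y) := rfl
  rw [e, swp_enc (by norm_num) (by norm_num) (by norm_num) (fun j hj => mbs_lt hx hy hj),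
    swp_enc (by norm_num) (by norm_num) (by norm_num) (fun j hj => mbs_lt hx hy (sb_lt (by norm_num) (by norm_num) hj))]

theorem mbs_val (x y : ℕ) {p q : ℕ} (hp : p < 16) (hq : q < 16) :
    mbs x y (Nat.add (Nat.mul 16 p) q) = d3 (16 * x + p) (16 * y + q) := by
  unfold mbs
  rw [show Nat.add (Nat.mul 16 p) q / 16 = p by simp only [Nat.add_eq, Nat.mul_eq]; omega,
    show Nat.add (Nat.mul 16 p) q % 16 = q by simp only [Nat.add_eq, Nat.mul_eq]; omega]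

theorem c4b_lt (a b c d j : ℕ) : c4 (bt a j) (bt b j) (bt c j) (bt d j) < 16 :=
  c4_lt (bt01 _ _) (bt01 _ _) (bt01 _ _) (bt01 _ _)

theorem mb1 {x y j : ℕ} (hj : j < 256) : mbs x y (sb 0 6 (sb 1 7 j))
    = d3 (16 * x + c4 (bt 4 j) (bt 5 j) (bt 0 j) (bt 1 j)) (16 * y + c4 (bt 6 j) (bt 7 j) (bt 2 j) (bt 3 j)) := by
  obtain ⟨q1, -⟩ := cnd_and (al_true mb_ok hj)
  rw [Nat.eq_of_beq_eq_true q1]
  exact mbs_val x y (c4b_lt _ _ _ _ _) (c4b_lt _ _ _ _ _)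
theorem mb2 {x y j : ℕ} (hj : j < 256) : mbs x y (sb 0 6 (sb 1 7 (sb 1 2 (sb 5 6 j))))
    = d3 (16 * x + c4 (bt 4 j) (bt 6 j) (bt 0 j) (bt 2 j)) (16 * y + c4 (bt 5 j) (bt 7 j) (bt 1 j) (bt 3 j)) := by
  obtain ⟨-, q1⟩ := cnd_and (al_true mb_ok hj)
  obtain ⟨q1, -⟩ := cnd_and q1
  rw [Nat.eq_of_beq_eq_true q1]
  exact mbs_val x y (c4b_lt _ _ _ _ _) (c4b_lt _ _ _ _ _)
theorem mb3 {x y j : ℕ} (hj : j < 256) : mbs x y (sb 0 6 (sb 1 7 (sb 1 3 (sb 5 7 j))))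
    = d3 (16 * x + c4 (bt 4 j) (bt 7 j) (bt 0 j) (bt 3 j)) (16 * y + c4 (bt 6 j) (bt 5 j) (bt 2 j) (bt 1 j)) := by
  obtain ⟨-, q1⟩ := cnd_and (al_true mb_ok hj)
  obtain ⟨-, q1⟩ := cnd_and q1
  rw [Nat.eq_of_beq_eq_true q1]
  exact mbs_val x y (c4b_lt _ _ _ _ _) (c4b_lt _ _ _ _ _)

theorem lev_enc {n : ℕ} {F : ℕ → ℕ} {G : ℕ → ℕ → ℕ} (h : ∀ b, Bt b → F b = enc 40 n (G b)) :
    lev (40 * 2 ^ n) F = enc 40 (n + 1) (fun i => G (bt n i) (i % 2 ^ n)) := by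
  unfold lev
  rw [add_shl, h 0 (Or.inl rfl), h 1 (Or.inr rfl), enc_succ]
  congr 1
  · exact enc_congr fun i hi => by rw [bt_lt hi, Nat.mod_eq_of_lt hi]
  · congr 1
    exact enc_congr fun i hi => by rw [bt_add_self hi, Nat.add_mod_left, Nat.mod_eq_of_lt hi]

/-- the block of the terms with three vertices -/
def lf (b012 b013 b023 b123 b014 b024 b124 b034 b134 b234 b015 b025 b125 b035 b135 b235 b045 b145 b245 b345 ef g5 g4 g3 g2 g1 g0 j : ℕ) : ℕ :=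
  (Nat.add (d3 (hx ef b045 (bt 4 j) (bt 0 j) b145 (bt 5 j) (bt 1 j) b014 b015 g0) (hx ef b245 (bt 6 j) (bt 2 j) b345 (bt 7 j) (bt 3 j) b234 b235 g5)) (Nat.add (d3 (hx ef b045 (bt 4 j) (bt 0 j) b245 (bt 6 j) (bt 2 j) b024 b025 g1) (hx ef b145 (bt 5 j) (bt 1 j) b345 (bt 7 j) (bt 3 j) b134 b135 g4)) (d3 (hx ef b045 (bt 4 j) (bt 0 j) b345 (bt 7 j) (bt 3 j) b034 b035 g3) (hx ef b245 (bt 6 j) (bt 2 j) b145 (bt 5 j) (bt 1 j) b124 b125 g2))))

theorem hx_46 (a b c d e f g h i j : ℕ) : 16 * c6 a b c d e f + c4 g h i j = hx a b g i c h j d e f := by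
  unfold hx; rw [c10_46']
theorem leaf_eq {b012 b013 b023 b123 b014 b024 b124 b034 b134 b234 b015 b025 b125 b035 b135 b235 b045 b145 b245 b345 ef g5 g4 g3 g2 g1 g0 : ℕ} (h012 : Bt b012) (h013 : Bt b013) (h023 : Bt b023) (h123 : Bt b123) (h014 : Bt b014) (h024 : Bt b024) (h124 : Bt b124) (h034 : Bt b034) (h134 : Bt b134) (h234 : Bt b234) (h015 : Bt b015) (h025 : Bt b025) (h125 : Bt b125) (h035 : Bt b035) (h135 : Bt b135) (h235 : Bt b235) (h045 : Bt b045) (h145 : Bt b145) (h245 : Bt b245) (h345 : Bt b345) (hef : Bt ef) (k5 : Bt g5) (k4 : Bt g4) (k3 : Bt g3) (k2 : Bt g2) (k1 : Bt g1) (k0 : Bt g0) :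
    (Nat.add (MC (c6 ef b045 b145 b014 b015 g0) (c6 ef b245 b345 b234 b235 g5)) (Nat.add (swp 40 8 5 6 (swp 40 8 1 2 (MC (c6 ef b045 b245 b024 b025 g1) (c6 ef b145 b345 b134 b135 g4)))) (swp 40 8 5 7 (swp 40 8 1 3 (MC (c6 ef b045 b345 b034 b035 g3) (c6 ef b245 b145 b124 b125 g2)))))) = enc 40 8 (lf b012 b013 b023 b123 b014 b024 b124 b034 b134 b234 b015 b025 b125 b035 b135 b235 b045 b145 b245 b345 ef g5 g4 g3 g2 g1 g0) := by
  rw [MC_eq (c6_lt hef h045 h145 h014 h015 k0) (c6_lt hef h245 h345 h234 h235 k5), MC_eq (c6_lt hef h045 h245 h024 h025 k1) (c6_lt hef h145 h345 h134 h135 k4), MC_eq (c6_lt hef h045 h345 h034 h035 k3) (c6_lt hef h245 h145 h124 h125 k2)]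
  have m8 : ∀ {p q j : ℕ}, p < q → q < 8 → j < 2 ^ 8 → sb p q j < 2 ^ 8 := fun h1 h2 h3 => sb_lt h1 h2 h3
  have e1 : swp 40 8 5 6 (swp 40 8 1 2 (enc 40 8 (fun j => mbs (c6 ef b045 b245 b024 b025 g1) (c6 ef b145 b345 b134 b135 g4) (sb 0 6 (sb 1 7 j)))))
      = enc 40 8 (fun j => mbs (c6 ef b045 b245 b024 b025 g1) (c6 ef b145 b345 b134 b135 g4) (sb 0 6 (sb 1 7 (sb 1 2 (sb 5 6 j))))) := by
    rw [swp_enc (by norm_num) (by norm_num) (by norm_num) (fun j hj => mbs_lt (c6_lt hef h045 h245 h024 h025 k1) (c6_lt hef h145 h345 h134 h135 k4) (m8 (by norm_num) (by norm_num) (m8 (by norm_num) (by norm_num) hj))),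
      swp_enc (by norm_num) (by norm_num) (by norm_num) (fun j hj => mbs_lt (c6_lt hef h045 h245 h024 h025 k1) (c6_lt hef h145 h345 h134 h135 k4) (m8 (by norm_num) (by norm_num) (m8 (by norm_num) (by norm_num) (m8 (by norm_num) (by norm_num) hj))))]
  have e2 : swp 40 8 5 7 (swp 40 8 1 3 (enc 40 8 (fun j => mbs (c6 ef b045 b345 b034 b035 g3) (c6 ef b245 b145 b124 b125 g2) (sb 0 6 (sb 1 7 j)))))
      = enc 40 8 (fun j => mbs (c6 ef b045 b345 b034 b035 g3) (c6 ef b245 b145 b124 b125 g2) (sb 0 6 (sb 1 7 (sb 1 3 (sb 5 7 j))))) := by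
    rw [swp_enc (by norm_num) (by norm_num) (by norm_num) (fun j hj => mbs_lt (c6_lt hef h045 h345 h034 h035 k3) (c6_lt hef h245 h145 h124 h125 k2) (m8 (by norm_num) (by norm_num) (m8 (by norm_num) (by norm_num) hj))),
      swp_enc (by norm_num) (by norm_num) (by norm_num) (fun j hj => mbs_lt (c6_lt hef h045 h345 h034 h035 k3) (c6_lt hef h245 h145 h124 h125 k2) (m8 (by norm_num) (by norm_num) (m8 (by norm_num) (by norm_num) (m8 (by norm_num) (by norm_num) hj))))]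
  rw [e1, e2]
  simp only [Nat.add_eq]
  rw [enc_add, enc_add]
  refine enc_congr fun j hj => ?_
  rw [mb1 hj, mb2 hj, mb3 hj]
  simp only [hx_46]
  unfold lf
  simp only [Nat.add_eq]

def lfk (b012 b013 b023 b123 b014 b024 b124 b034 b134 b234 b015 b025 b125 b035 b135 b235 b045 b145 b245 b345 ef g5 g4 g3 g2 g1 g0 : ℕ) : ℕ :=
  (Nat.add (MC (c6 ef b045 b145 b014 b015 g0) (c6 ef b245 b345 b234 b235 g5)) (Nat.add (swp 40 8 5 6 (swp 40 8 1 2 (MC (c6 ef b045 b245 b024 b025 g1) (c6 ef b145 b345 b134 b135 g4)))) (swp 40 8 5 7 (swp 40 8 1 3 (MC (c6 ef b045 b345 b034 b035 g3) (c6 ef b245 b145 b124 b125 g2))))))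
theorem lfk_eq {b012 b013 b023 b123 b014 b024 b124 b034 b134 b234 b015 b025 b125 b035 b135 b235 b045 b145 b245 b345 ef g5 g4 g3 g2 g1 g0 : ℕ} (h012 : Bt b012) (h013 : Bt b013) (h023 : Bt b023) (h123 : Bt b123) (h014 : Bt b014) (h024 : Bt b024) (h124 : Bt b124) (h034 : Bt b034) (h134 : Bt b134) (h234 : Bt b234) (h015 : Bt b015) (h025 : Bt b025) (h125 : Bt b125) (h035 : Bt b035) (h135 : Bt b135) (h235 : Bt b235) (h045 : Bt b045) (h145 : Bt b145) (h245 : Bt b245) (h345 : Bt b345) (hef : Bt ef) (k5 : Bt g5) (k4 : Bt g4) (k3 : Bt g3) (k2 : Bt g2) (k1 : Bt g1) (k0 : Bt g0) :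
    lfk b012 b013 b023 b123 b014 b024 b124 b034 b134 b234 b015 b025 b125 b035 b135 b235 b045 b145 b245 b345 ef g5 g4 g3 g2 g1 g0 = enc 40 8 (lf b012 b013 b023 b123 b014 b024 b124 b034 b134 b234 b015 b025 b125 b035 b135 b235 b045 b145 b245 b345 ef g5 g4 g3 g2 g1 g0) :=
  leaf_eq h012 h013 h023 h123 h014 h024 h124 h034 h134 h234 h015 h025 h125 h035 h135 h235 h045 h145 h245 h345 hef k5 k4 k3 k2 k1 k0
def lk8 (b012 b013 b023 b123 b014 b024 b124 b034 b134 b234 b015 b025 b125 b035 b135 b235 b045 b145 b245 b345 ef g5 g4 g3 g2 g1 : ℕ) : ℕ := lev 10240 (fun g0 => lfk b012 b013 b023 b123 b014 b024 b124 b034 b134 b234 b015 b025 b125 b035 b135 b235 b045 b145 b245 b345 ef g5 g4 g3 g2 g1 g0)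
theorem lk8_eq {b012 b013 b023 b123 b014 b024 b124 b034 b134 b234 b015 b025 b125 b035 b135 b235 b045 b145 b245 b345 ef g5 g4 g3 g2 g1 : ℕ} (h012 : Bt b012) (h013 : Bt b013) (h023 : Bt b023) (h123 : Bt b123) (h014 : Bt b014) (h024 : Bt b024) (h124 : Bt b124) (h034 : Bt b034) (h134 : Bt b134) (h234 : Bt b234) (h015 : Bt b015) (h025 : Bt b025) (h125 : Bt b125) (h035 : Bt b035) (h135 : Bt b135) (h235 : Bt b235) (h045 : Bt b045) (h145 : Bt b145) (h245 : Bt b245) (h345 : Bt b345) (hef : Bt ef) (k5 : Bt g5) (k4 : Bt g4) (k3 : Bt g3) (k2 : Bt g2) (k1 : Bt g1) :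
    lk8 b012 b013 b023 b123 b014 b024 b124 b034 b134 b234 b015 b025 b125 b035 b135 b235 b045 b145 b245 b345 ef g5 g4 g3 g2 g1 = enc 40 9 (fun i => lf b012 b013 b023 b123 b014 b024 b124 b034 b134 b234 b015 b025 b125 b035 b135 b235 b045 b145 b245 b345 ef g5 g4 g3 g2 g1 (bt 8 i) (i % 2 ^ 8)) := by
  unfold lk8
  exact lev_enc (n := 8) (G := (fun g0 i => lf b012 b013 b023 b123 b014 b024 b124 b034 b134 b234 b015 b025 b125 b035 b135 b235 b045 b145 b245 b345 ef g5 g4 g3 g2 g1 g0 i)) fun g0 k0 => lfk_eq h012 h013 h023 h123 h014 h024 h124 h034 h134 h234 h015 h025 h125 h035 h135 h235 h045 h145 h245 h345 hef k5 k4 k3 k2 k1 k0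
def lk9 (b012 b013 b023 b123 b014 b024 b124 b034 b134 b234 b015 b025 b125 b035 b135 b235 b045 b145 b245 b345 ef g5 g4 g3 g2 : ℕ) : ℕ := lev 20480 (fun g1 => lk8 b012 b013 b023 b123 b014 b024 b124 b034 b134 b234 b015 b025 b125 b035 b135 b235 b045 b145 b245 b345 ef g5 g4 g3 g2 g1)
theorem lk9_eq {b012 b013 b023 b123 b014 b024 b124 b034 b134 b234 b015 b025 b125 b035 b135 b235 b045 b145 b245 b345 ef g5 g4 g3 g2 : ℕ} (h012 : Bt b012) (h013 : Bt b013) (h023 : Bt b023) (h123 : Bt b123) (h014 : Bt b014) (h024 : Bt b024) (h124 : Bt b124) (h034 : Bt b034) (h134 : Bt b134) (h234 : Bt b234) (h015 : Bt b015) (h025 : Bt b025) (h125 : Bt b125) (h035 : Bt b035) (h135 : Bt b135) (h235 : Bt b235) (h045 : Bt b045) (h145 : Bt b145) (h245 : Bt b245) (h345 : Bt b345) (hef : Bt ef) (k5 : Bt g5) (k4 : Bt g4) (k3 : Bt g3) (k2 : Bt g2) :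
    lk9 b012 b013 b023 b123 b014 b024 b124 b034 b134 b234 b015 b025 b125 b035 b135 b235 b045 b145 b245 b345 ef g5 g4 g3 g2 = enc 40 10 (fun i => lf b012 b013 b023 b123 b014 b024 b124 b034 b134 b234 b015 b025 b125 b035 b135 b235 b045 b145 b245 b345 ef g5 g4 g3 g2 (bt 9 i) (bt 8 i) (i % 2 ^ 8)) := by
  unfold lk9
  refine (lev_enc (n := 9) (G := (fun g1 i => lf b012 b013 b023 b123 b014 b024 b124 b034 b134 b234 b015 b025 b125 b035 b135 b235 b045 b145 b245 b345 ef g5 g4 g3 g2 g1 (bt 8 i) (i % 2 ^ 8))) fun g1 k1 => lk8_eq h012 h013 h023 h123 h014 h024 h124 h034 h134 h234 h015 h025 h125 h035 h135 h235 h045 h145 h245 h345 hef k5 k4 k3 k2 k1).trans (enc_congr fun i _ => ?_)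
  show lf b012 b013 b023 b123 b014 b024 b124 b034 b134 b234 b015 b025 b125 b035 b135 b235 b045 b145 b245 b345 ef g5 g4 g3 g2 (bt 9 i) (bt 8 (i % 2 ^ 9)) (i % 2 ^ 9 % 2 ^ 8) = _
  rw [bt_mod (show 8 < 9 by norm_num), Nat.mod_mod_of_dvd _ (pow_dvd_pow 2 (show 8 ≤ 9 by norm_num))]
def lk10 (b012 b013 b023 b123 b014 b024 b124 b034 b134 b234 b015 b025 b125 b035 b135 b235 b045 b145 b245 b345 ef g5 g4 g3 : ℕ) : ℕ := lev 40960 (fun g2 => lk9 b012 b013 b023 b123 b014 b024 b124 b034 b134 b234 b015 b025 b125 b035 b135 b235 b045 b145 b245 b345 ef g5 g4 g3 g2)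
theorem lk10_eq {b012 b013 b023 b123 b014 b024 b124 b034 b134 b234 b015 b025 b125 b035 b135 b235 b045 b145 b245 b345 ef g5 g4 g3 : ℕ} (h012 : Bt b012) (h013 : Bt b013) (h023 : Bt b023) (h123 : Bt b123) (h014 : Bt b014) (h024 : Bt b024) (h124 : Bt b124) (h034 : Bt b034) (h134 : Bt b134) (h234 : Bt b234) (h015 : Bt b015) (h025 : Bt b025) (h125 : Bt b125) (h035 : Bt b035) (h135 : Bt b135) (h235 : Bt b235) (h045 : Bt b045) (h145 : Bt b145) (h245 : Bt b245) (h345 : Bt b345) (hef : Bt ef) (k5 : Bt g5) (k4 : Bt g4) (k3 : Bt g3) :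
    lk10 b012 b013 b023 b123 b014 b024 b124 b034 b134 b234 b015 b025 b125 b035 b135 b235 b045 b145 b245 b345 ef g5 g4 g3 = enc 40 11 (fun i => lf b012 b013 b023 b123 b014 b024 b124 b034 b134 b234 b015 b025 b125 b035 b135 b235 b045 b145 b245 b345 ef g5 g4 g3 (bt 10 i) (bt 9 i) (bt 8 i) (i % 2 ^ 8)) := by
  unfold lk10
  refine (lev_enc (n := 10) (G := (fun g2 i => lf b012 b013 b023 b123 b014 b024 b124 b034 b134 b234 b015 b025 b125 b035 b135 b235 b045 b145 b245 b345 ef g5 g4 g3 g2 (bt 9 i) (bt 8 i) (i % 2 ^ 8))) fun g2 k2 => lk9_eq h012 h013 h023 h123 h014 h024 h124 h034 h134 h234 h015 h025 h125 h035 h135 h235 h045 h145 h245 h345 hef k5 k4 k3 k2).trans (enc_congr fun i _ => ?_)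
  show lf b012 b013 b023 b123 b014 b024 b124 b034 b134 b234 b015 b025 b125 b035 b135 b235 b045 b145 b245 b345 ef g5 g4 g3 (bt 10 i) (bt 9 (i % 2 ^ 10)) (bt 8 (i % 2 ^ 10)) (i % 2 ^ 10 % 2 ^ 8) = _
  rw [bt_mod (show 8 < 10 by norm_num), bt_mod (show 9 < 10 by norm_num), Nat.mod_mod_of_dvd _ (pow_dvd_pow 2 (show 8 ≤ 10 by norm_num))]
def lk11 (b012 b013 b023 b123 b014 b024 b124 b034 b134 b234 b015 b025 b125 b035 b135 b235 b045 b145 b245 b345 ef g5 g4 : ℕ) : ℕ := lev 81920 (fun g3 => lk10 b012 b013 b023 b123 b014 b024 b124 b034 b134 b234 b015 b025 b125 b035 b135 b235 b045 b145 b245 b345 ef g5 g4 g3)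
theorem lk11_eq {b012 b013 b023 b123 b014 b024 b124 b034 b134 b234 b015 b025 b125 b035 b135 b235 b045 b145 b245 b345 ef g5 g4 : ℕ} (h012 : Bt b012) (h013 : Bt b013) (h023 : Bt b023) (h123 : Bt b123) (h014 : Bt b014) (h024 : Bt b024) (h124 : Bt b124) (h034 : Bt b034) (h134 : Bt b134) (h234 : Bt b234) (h015 : Bt b015) (h025 : Bt b025) (h125 : Bt b125) (h035 : Bt b035) (h135 : Bt b135) (h235 : Bt b235) (h045 : Bt b045) (h145 : Bt b145) (h245 : Bt b245) (h345 : Bt b345) (hef : Bt ef) (k5 : Bt g5) (k4 : Bt g4) :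
    lk11 b012 b013 b023 b123 b014 b024 b124 b034 b134 b234 b015 b025 b125 b035 b135 b235 b045 b145 b245 b345 ef g5 g4 = enc 40 12 (fun i => lf b012 b013 b023 b123 b014 b024 b124 b034 b134 b234 b015 b025 b125 b035 b135 b235 b045 b145 b245 b345 ef g5 g4 (bt 11 i) (bt 10 i) (bt 9 i) (bt 8 i) (i % 2 ^ 8)) := by
  unfold lk11
  refine (lev_enc (n := 11) (G := (fun g3 i => lf b012 b013 b023 b123 b014 b024 b124 b034 b134 b234 b015 b025 b125 b035 b135 b235 b045 b145 b245 b345 ef g5 g4 g3 (bt 10 i) (bt 9 i) (bt 8 i) (i % 2 ^ 8))) fun g3 k3 => lk10_eq h012 h013 h023 h123 h014 h024 h124 h034 h134 h234 h015 h025 h125 h035 h135 h235 h045 h145 h245 h345 hef k5 k4 k3).trans (enc_congr fun i _ => ?_)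
  show lf b012 b013 b023 b123 b014 b024 b124 b034 b134 b234 b015 b025 b125 b035 b135 b235 b045 b145 b245 b345 ef g5 g4 (bt 11 i) (bt 10 (i % 2 ^ 11)) (bt 9 (i % 2 ^ 11)) (bt 8 (i % 2 ^ 11)) (i % 2 ^ 11 % 2 ^ 8) = _
  rw [bt_mod (show 8 < 11 by norm_num), bt_mod (show 9 < 11 by norm_num), bt_mod (show 10 < 11 by norm_num), Nat.mod_mod_of_dvd _ (pow_dvd_pow 2 (show 8 ≤ 11 by norm_num))]
def lk12 (b012 b013 b023 b123 b014 b024 b124 b034 b134 b234 b015 b025 b125 b035 b135 b235 b045 b145 b245 b345 ef g5 : ℕ) : ℕ := lev 163840 (fun g4 => lk11 b012 b013 b023 b123 b014 b024 b124 b034 b134 b234 b015 b025 b125 b035 b135 b235 b045 b145 b245 b345 ef g5 g4)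
theorem lk12_eq {b012 b013 b023 b123 b014 b024 b124 b034 b134 b234 b015 b025 b125 b035 b135 b235 b045 b145 b245 b345 ef g5 : ℕ} (h012 : Bt b012) (h013 : Bt b013) (h023 : Bt b023) (h123 : Bt b123) (h014 : Bt b014) (h024 : Bt b024) (h124 : Bt b124) (h034 : Bt b034) (h134 : Bt b134) (h234 : Bt b234) (h015 : Bt b015) (h025 : Bt b025) (h125 : Bt b125) (h035 : Bt b035) (h135 : Bt b135) (h235 : Bt b235) (h045 : Bt b045) (h145 : Bt b145) (h245 : Bt b245) (h345 : Bt b345) (hef : Bt ef) (k5 : Bt g5) :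
    lk12 b012 b013 b023 b123 b014 b024 b124 b034 b134 b234 b015 b025 b125 b035 b135 b235 b045 b145 b245 b345 ef g5 = enc 40 13 (fun i => lf b012 b013 b023 b123 b014 b024 b124 b034 b134 b234 b015 b025 b125 b035 b135 b235 b045 b145 b245 b345 ef g5 (bt 12 i) (bt 11 i) (bt 10 i) (bt 9 i) (bt 8 i) (i % 2 ^ 8)) := by
  unfold lk12
  refine (lev_enc (n := 12) (G := (fun g4 i => lf b012 b013 b023 b123 b014 b024 b124 b034 b134 b234 b015 b025 b125 b035 b135 b235 b045 b145 b245 b345 ef g5 g4 (bt 11 i) (bt 10 i) (bt 9 i) (bt 8 i) (i % 2 ^ 8))) fun g4 k4 => lk11_eq h012 h013 h023 h123 h014 h024 h124 h034 h134 h234 h015 h025 h125 h035 h135 h235 h045 h145 h245 h345 hef k5 k4).trans (enc_congr fun i _ => ?_)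
  show lf b012 b013 b023 b123 b014 b024 b124 b034 b134 b234 b015 b025 b125 b035 b135 b235 b045 b145 b245 b345 ef g5 (bt 12 i) (bt 11 (i % 2 ^ 12)) (bt 10 (i % 2 ^ 12)) (bt 9 (i % 2 ^ 12)) (bt 8 (i % 2 ^ 12)) (i % 2 ^ 12 % 2 ^ 8) = _
  rw [bt_mod (show 8 < 12 by norm_num), bt_mod (show 9 < 12 by norm_num), bt_mod (show 10 < 12 by norm_num), bt_mod (show 11 < 12 by norm_num), Nat.mod_mod_of_dvd _ (pow_dvd_pow 2 (show 8 ≤ 12 by norm_num))]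
def lk13 (b012 b013 b023 b123 b014 b024 b124 b034 b134 b234 b015 b025 b125 b035 b135 b235 b045 b145 b245 b345 ef : ℕ) : ℕ := lev 327680 (fun g5 => lk12 b012 b013 b023 b123 b014 b024 b124 b034 b134 b234 b015 b025 b125 b035 b135 b235 b045 b145 b245 b345 ef g5)
theorem lk13_eq {b012 b013 b023 b123 b014 b024 b124 b034 b134 b234 b015 b025 b125 b035 b135 b235 b045 b145 b245 b345 ef : ℕ} (h012 : Bt b012) (h013 : Bt b013) (h023 : Bt b023) (h123 : Bt b123) (h014 : Bt b014) (h024 : Bt b024) (h124 : Bt b124) (h034 : Bt b034) (h134 : Bt b134) (h234 : Bt b234) (h015 : Bt b015) (h025 : Bt b025) (h125 : Bt b125) (h035 : Bt b035) (h135 : Bt b135) (h235 : Bt b235) (h045 : Bt b045) (h145 : Bt b145) (h245 : Bt b245) (h345 : Bt b345) (hef : Bt ef) :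
    lk13 b012 b013 b023 b123 b014 b024 b124 b034 b134 b234 b015 b025 b125 b035 b135 b235 b045 b145 b245 b345 ef = enc 40 14 (fun i => lf b012 b013 b023 b123 b014 b024 b124 b034 b134 b234 b015 b025 b125 b035 b135 b235 b045 b145 b245 b345 ef (bt 13 i) (bt 12 i) (bt 11 i) (bt 10 i) (bt 9 i) (bt 8 i) (i % 2 ^ 8)) := by
  unfold lk13
  refine (lev_enc (n := 13) (G := (fun g5 i => lf b012 b013 b023 b123 b014 b024 b124 b034 b134 b234 b015 b025 b125 b035 b135 b235 b045 b145 b245 b345 ef g5 (bt 12 i) (bt 11 i) (bt 10 i) (bt 9 i) (bt 8 i) (i % 2 ^ 8))) fun g5 k5 => lk12_eq h012 h013 h023 h123 h014 h024 h124 h034 h134 h234 h015 h025 h125 h035 h135 h235 h045 h145 h245 h345 hef k5).trans (enc_congr fun i _ => ?_)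
  show lf b012 b013 b023 b123 b014 b024 b124 b034 b134 b234 b015 b025 b125 b035 b135 b235 b045 b145 b245 b345 ef (bt 13 i) (bt 12 (i % 2 ^ 13)) (bt 11 (i % 2 ^ 13)) (bt 10 (i % 2 ^ 13)) (bt 9 (i % 2 ^ 13)) (bt 8 (i % 2 ^ 13)) (i % 2 ^ 13 % 2 ^ 8) = _
  rw [bt_mod (show 8 < 13 by norm_num), bt_mod (show 9 < 13 by norm_num), bt_mod (show 10 < 13 by norm_num), bt_mod (show 11 < 13 by norm_num), bt_mod (show 12 < 13 by norm_num), Nat.mod_mod_of_dvd _ (pow_dvd_pow 2 (show 8 ≤ 13 by norm_num))]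
def lk14 (b012 b013 b023 b123 b014 b024 b124 b034 b134 b234 b015 b025 b125 b035 b135 b235 b045 b145 b245 b345  : ℕ) : ℕ := lev 655360 (fun ef => lk13 b012 b013 b023 b123 b014 b024 b124 b034 b134 b234 b015 b025 b125 b035 b135 b235 b045 b145 b245 b345 ef)
theorem lk14_eq {b012 b013 b023 b123 b014 b024 b124 b034 b134 b234 b015 b025 b125 b035 b135 b235 b045 b145 b245 b345  : ℕ} (h012 : Bt b012) (h013 : Bt b013) (h023 : Bt b023) (h123 : Bt b123) (h014 : Bt b014) (h024 : Bt b024) (h124 : Bt b124) (h034 : Bt b034) (h134 : Bt b134) (h234 : Bt b234) (h015 : Bt b015) (h025 : Bt b025) (h125 : Bt b125) (h035 : Bt b035) (h135 : Bt b135) (h235 : Bt b235) (h045 : Bt b045) (h145 : Bt b145) (h245 : Bt b245) (h345 : Bt b345)  :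
    lk14 b012 b013 b023 b123 b014 b024 b124 b034 b134 b234 b015 b025 b125 b035 b135 b235 b045 b145 b245 b345  = enc 40 15 (fun i => lf b012 b013 b023 b123 b014 b024 b124 b034 b134 b234 b015 b025 b125 b035 b135 b235 b045 b145 b245 b345 (bt 14 i) (bt 13 i) (bt 12 i) (bt 11 i) (bt 10 i) (bt 9 i) (bt 8 i) (i % 2 ^ 8)) := by
  unfold lk14
  refine (lev_enc (n := 14) (G := (fun ef i => lf b012 b013 b023 b123 b014 b024 b124 b034 b134 b234 b015 b025 b125 b035 b135 b235 b045 b145 b245 b345 ef (bt 13 i) (bt 12 i) (bt 11 i) (bt 10 i) (bt 9 i) (bt 8 i) (i % 2 ^ 8))) fun ef hef => lk13_eq h012 h013 h023 h123 h014 h024 h124 h034 h134 h234 h015 h025 h125 h035 h135 h235 h045 h145 h245 h345  hef).trans (enc_congr fun i _ => ?_)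
  show lf b012 b013 b023 b123 b014 b024 b124 b034 b134 b234 b015 b025 b125 b035 b135 b235 b045 b145 b245 b345 (bt 14 i) (bt 13 (i % 2 ^ 14)) (bt 12 (i % 2 ^ 14)) (bt 11 (i % 2 ^ 14)) (bt 10 (i % 2 ^ 14)) (bt 9 (i % 2 ^ 14)) (bt 8 (i % 2 ^ 14)) (i % 2 ^ 14 % 2 ^ 8) = _
  rw [bt_mod (show 8 < 14 by norm_num), bt_mod (show 9 < 14 by norm_num), bt_mod (show 10 < 14 by norm_num), bt_mod (show 11 < 14 by norm_num), bt_mod (show 12 < 14 by norm_num), bt_mod (show 13 < 14 by norm_num), Nat.mod_mod_of_dvd _ (pow_dvd_pow 2 (show 8 ≤ 14 by norm_num))]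
theorem T3v_eq {b012 b013 b023 b123 b014 b024 b124 b034 b134 b234 b015 b025 b125 b035 b135 b235 b045 b145 b245 b345 : ℕ} (h012 : Bt b012) (h013 : Bt b013) (h023 : Bt b023) (h123 : Bt b123) (h014 : Bt b014) (h024 : Bt b024) (h124 : Bt b124) (h034 : Bt b034) (h134 : Bt b134) (h234 : Bt b234) (h015 : Bt b015) (h025 : Bt b025) (h125 : Bt b125) (h035 : Bt b035) (h135 : Bt b135) (h235 : Bt b235) (h045 : Bt b045) (h145 : Bt b145) (h245 : Bt b245) (h345 : Bt b345) : T3v b012 b013 b023 b123 b014 b024 b124 b034 b134 b234 b015 b025 b125 b035 b135 b235 b045 b145 b245 b345 = enc 40 15 (fun i => SC b012 b013 b023 b123 b014 b024 b124 b034 b134 b234 b015 b025 b125 b035 b135 b235 b045 b145 b245 b345 (bt 0 i) (bt 1 i) (bt 2 i) (bt 3 i) (bt 4 i) (bt 5 i) (bt 6 i) (bt 7 i) (bt 8 i) (bt 9 i) (bt 10 i) (bt 11 i) (bt 12 i) (bt 13 i) (bt 14 i)) := by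
  have e : T3v b012 b013 b023 b123 b014 b024 b124 b034 b134 b234 b015 b025 b125 b035 b135 b235 b045 b145 b245 b345 = lk14 b012 b013 b023 b123 b014 b024 b124 b034 b134 b234 b015 b025 b125 b035 b135 b235 b045 b145 b245 b345 := rfl
  rw [e, lk14_eq h012 h013 h023 h123 h014 h024 h124 h034 h134 h234 h015 h025 h125 h035 h135 h235 h045 h145 h245 h345]
  refine enc_congr fun i _ => ?_
  unfold lf SC
  simp only [bt_mod (show 0 < 8 by norm_num), bt_mod (show 1 < 8 by norm_num), bt_mod (show 2 < 8 by norm_num),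
    bt_mod (show 3 < 8 by norm_num), bt_mod (show 4 < 8 by norm_num), bt_mod (show 5 < 8 by norm_num),
    bt_mod (show 6 < 8 by norm_num), bt_mod (show 7 < 8 by norm_num)]

end

end Pool.Agent.U620.K7F
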